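import Pool.Agent.Lib.MP_c69b6d_co.Enum

namespace Pool.Agent.Lib.MP_c69b6d_co

def m2 (x y p q : ℕ) : ℕ :=
  Nat.add (Nat.mul (Nat.div x p) (Nat.div y q)) (Nat.mul 2 (Nat.mul (Nat.div x q) (Nat.div y p)))

def det4 (a b c d : ℕ) : ℕ :=
  Nat.mod (Nat.add (Nat.add (Nat.add (Nat.mul (m2 a b 1 3) (m2 c d 9 27))
    (Nat.mul (m2 a b 9 1) (m2 c d 3 27))) (Nat.add (Nat.mul (m2 a b 1 27) (m2 c d 3 9))
    (Nat.mul (m2 a b 3 9) (m2 c d 1 27)))) (Nat.add (Nat.mul (m2 a b 27 3) (m2 c d 1 9))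
    (Nat.mul (m2 a b 9 27) (m2 c d 1 3)))) 3

theorem cast_det4 (a b c d : ℕ) : ((det4 a b c d : ℕ) : ZMod 3) =
    (Matrix.of ![dec a, dec b, dec c, dec d]).det := by
  have e : det4 a b c d = (m2 a b 1 3 * m2 c d 9 27 + m2 a b 9 1 * m2 c d 3 27 +
    (m2 a b 1 27 * m2 c d 3 9 + m2 a b 3 9 * m2 c d 1 27) +
    (m2 a b 27 3 * m2 c d 1 9 + m2 a b 9 27 * m2 c d 1 3)) % 3 := rfl
  have h2 : (2 : ZMod 3) = -1 := by decide
  have e2 : ∀ x y p q, ((m2 x y p q : ℕ) : ZMod 3) =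
      ((x / p : ℕ) : ZMod 3) * ((y / q : ℕ) : ZMod 3) -
        ((x / q : ℕ) : ZMod 3) * ((y / p : ℕ) : ZMod 3) := by
    intro x y p q
    have : m2 x y p q = x / p * (y / q) + 2 * (x / q * (y / p)) := rfl
    rw [this, Nat.cast_add, Nat.cast_mul, Nat.cast_mul, Nat.cast_mul, Nat.cast_ofNat, h2]
    ring
  have e3 : ∀ x, dec x = ![((x / 1 : ℕ) : ZMod 3), ((x / 3 : ℕ) : ZMod 3), ((x / 9 : ℕ) : ZMod 3),
      ((x / 27 : ℕ) : ZMod 3)] := by
    intro x
    funext i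
    fin_cases i <;> simp [dec]
  rw [e, ZMod.natCast_mod]
  simp only [Nat.cast_add, Nat.cast_mul, e2, e3]
  generalize ((a / 1 : ℕ) : ZMod 3) = a0, ((a / 3 : ℕ) : ZMod 3) = a1, ((a / 9 : ℕ) : ZMod 3) = a2,
    ((a / 27 : ℕ) : ZMod 3) = a3, ((b / 1 : ℕ) : ZMod 3) = b0, ((b / 3 : ℕ) : ZMod 3) = b1,
    ((b / 9 : ℕ) : ZMod 3) = b2, ((b / 27 : ℕ) : ZMod 3) = b3, ((c / 1 : ℕ) : ZMod 3) = c0,
    ((c / 3 : ℕ) : ZMod 3) = c1, ((c / 9 : ℕ) : ZMod 3) = c2, ((c / 27 : ℕ) : ZMod 3) = c3,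
    ((d / 1 : ℕ) : ZMod 3) = d0, ((d / 3 : ℕ) : ZMod 3) = d1, ((d / 9 : ℕ) : ZMod 3) = d2,
    ((d / 27 : ℕ) : ZMod 3) = d3
  simp [Matrix.det_succ_row_zero, Fin.sum_univ_succ, Fin.succAbove]
  ring

/-- bit masks of the bases among the vectors with codes `X`. -/
def basesOf (X : List ℕ) : List ℕ :=
  (List.range X.length).flatMap fun d => (List.range d).flatMap fun c =>
    (List.range c).flatMap fun b => ((List.range b).filter fun a =>
      !Nat.beq (det4 (X.getD a 0) (X.getD b 0) (X.getD c 0) (X.getD d 0)) 0).map fun a =>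
        2 ^ a ||| 2 ^ b ||| 2 ^ c ||| 2 ^ d

theorem indep_four (u : ℕ → ℕ) {f : Fin 4 → ℕ} (hf : Function.Injective f) :
    LinearIndepOn (ZMod 3) (fun i => dec (u i)) (Set.range f) ↔
      det4 (u (f 0)) (u (f 1)) (u (f 2)) (u (f 3)) ≠ 0 := by
  have : Fact (Nat.Prime 3) := ⟨by norm_num⟩
  have e : (fun i => dec (u i)) ∘ f =
      (Matrix.of ![dec (u (f 0)), dec (u (f 1)), dec (u (f 2)), dec (u (f 3))]).row := by
    funext i
    fin_cases i <;> rfl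
  have hlt : det4 (u (f 0)) (u (f 1)) (u (f 2)) (u (f 3)) < 3 := Nat.mod_lt _ (by norm_num)
  rw [linearIndepOn_range_iff hf, e, Matrix.linearIndependent_rows_iff_isUnit,
    Matrix.isUnit_iff_isUnit_det, isUnit_iff_ne_zero, ← cast_det4, Ne, ZMod.natCast_eq_zero_iff]
  omega

theorem basesOf_iff (X : List ℕ) (Y : Finset ℕ) (hY : ∀ i ∈ Y, i < X.length) :
    (∃ S ∈ basesOf X, ∀ i, S.testBit i = true ↔ i ∈ Y) ↔
      Y.card = 4 ∧ LinearIndepOn (ZMod 3) (fun i => dec (X.getD i 0)) (Y : Set ℕ) := by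
  have hm : ∀ a b c d i : ℕ, (2 ^ a ||| 2 ^ b ||| 2 ^ c ||| 2 ^ d).testBit i = true ↔
      i ∈ Set.range ![a, b, c, d] := by
    intro a b c d i
    simp only [Nat.testBit_or, Nat.testBit_two_pow, Bool.or_eq_true, decide_eq_true_eq,
      Matrix.range_cons, Matrix.range_empty, Set.union_empty, Set.mem_union, Set.mem_singleton_iff]
    omega
  simp only [basesOf, List.mem_flatMap, List.mem_range, List.mem_map, List.mem_filter,
    Bool.not_eq_true', ← Bool.not_eq_true, Nat.beq_eq]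
  constructor
  · rintro ⟨S, ⟨d, -, c, hc, b, hb, a, ⟨ha, h⟩, rfl⟩, hS⟩
    have hf : Function.Injective ![a, b, c, d] := by
      intro i j hij
      fin_cases i <;> fin_cases j <;> simp at hij ⊢ <;> omega
    have e : (Y : Set ℕ) = Set.range ![a, b, c, d] := by
      ext i; rw [← hm, hS, Finset.mem_coe]
    refine ⟨?_, e ▸ (indep_four (fun i => X.getD i 0) hf).2 h⟩
    rw [← Set.ncard_coe_finset, e, Set.ncard_range_of_injective hf]
    simp
  · rintro ⟨h1, h2⟩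
    have e := Finset.range_orderEmbOfFin Y h1
    set f := Y.orderEmbOfFin h1
    have e2 : ![f 0, f 1, f 2, f 3] = f := by
      funext i
      fin_cases i <;> rfl
    rw [← e, indep_four (fun i => X.getD i 0) f.injective] at h2
    refine ⟨_, ⟨f 3, hY _ (Finset.orderEmbOfFin_mem _ _ _), f 2, f.strictMono (by decide), f 1,
      f.strictMono (by decide), f 0, ⟨f.strictMono (by decide), h2⟩, rfl⟩, fun i => ?_⟩
    rw [hm, e2, e, Finset.mem_coe]

theorem basesOf_bound {X : List ℕ} {S : ℕ} (h : S ∈ basesOf X) : S < 2 ^ X.length := by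
  simp only [basesOf, List.mem_flatMap, List.mem_range, List.mem_map, List.mem_filter] at h
  obtain ⟨d, hd, c, hc, b, hb, a, ⟨ha, -⟩, rfl⟩ := h
  have : ∀ i < X.length, 2 ^ i < 2 ^ X.length := fun i hi => Nat.pow_lt_pow_right (by norm_num) hi
  exact Nat.or_lt_two_pow (Nat.or_lt_two_pow (Nat.or_lt_two_pow (this _ (by omega))
    (this _ (by omega))) (this _ (by omega))) (this _ hd)

end Pool.Agent.Lib.MP_c69b6d_co
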