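import Pool.Agent.Lib.MP_c69b6d_co.Poly

namespace Pool.Agent.Lib.MP_c69b6d_co

open P2

set_option maxRecDepth 100000

def cp (k : ℕ) : P2 := P2.c (Int.ofNat k)
def cm (k : ℕ) : P2 := P2.c (Int.negSucc k)

def can0 : List ℕ := [7, 13, 21, 22, 28, 35, 37, 41, 49, 50, 52, 56, 67, 70, 73, 76, 81, 82, 84, 88, 97, 98, 100, 104]
def can1 : List ℕ := [7, 11, 13, 14, 19, 21, 26, 28, 35, 37, 38, 41, 42, 49, 50, 52, 56, 67, 69, 70, 82, 84, 97, 98, 112]
def can2 : List ℕ := [7, 14, 21, 28, 35, 42, 49, 56, 67, 69, 70, 74, 76, 81, 84, 88, 97, 98, 104, 112]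
def can3 : List ℕ := [7, 11, 13, 19, 22, 25, 26, 28, 35, 37, 38, 41, 42, 44, 49, 50, 52, 67, 69, 70, 74, 76, 81, 84, 88, 97, 98, 104, 112]
def can4 : List ℕ := [7, 11, 13, 14, 21, 22, 25, 26, 28, 37, 38, 41, 42, 44, 67, 70, 73, 76, 81, 82, 84, 88, 97, 98, 100, 104]
def can5 : List ℕ := [7, 11, 13, 19, 21, 22, 26, 28, 35, 37, 38, 41, 42, 44, 49, 50, 56, 67, 69, 73, 81, 82, 84, 88, 98, 100, 104, 112]
def can6 : List ℕ := [11, 13, 19, 21, 25, 42, 44, 50, 52, 56, 67, 69, 73, 74, 76, 81, 82, 84, 88, 98, 100, 104, 112]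
def can7 : List ℕ := [7, 11, 13, 14, 19, 21, 22, 26, 28, 35, 37, 41, 42, 44, 49, 50, 52, 56, 67, 70, 73, 76, 81, 82, 84, 88, 97, 98, 100, 104]
def can8 : List ℕ := [7, 11, 13, 14, 19, 21, 22, 25, 26, 35, 41, 42, 49, 50, 69, 70, 73, 74, 76, 81, 82, 84, 88, 97, 98, 104, 112]
def can12 : List ℕ := [15, 23, 27, 39, 43, 45, 51, 53, 57, 71, 75, 77, 78, 83, 85, 86, 89, 90, 101, 102, 105, 106, 108, 113, 114, 116, 120, 135, 139, 141, 142, 149, 150, 153, 154, 163, 165, 166, 170, 172, 177, 178, 180, 184, 195, 201, 202, 209, 210, 225, 226, 232, 240, 263, 269, 275, 277, 281, 291, 293, 297, 323, 326, 329, 332, 337, 338, 340, 344, 353, 354, 356, 360, 387, 390, 393, 396, 401, 402, 404, 408, 417, 418, 420, 424, 450, 456, 464, 480]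
def can13 : List ℕ := [15, 23, 27, 29, 30, 43, 45, 46, 51, 53, 54, 57, 60, 71, 75, 77, 78, 83, 85, 90, 92, 99, 101, 102, 105, 106, 113, 114, 116, 120, 135, 139, 141, 142, 147, 149, 150, 163, 165, 166, 169, 172, 177, 180, 198, 202, 204, 210, 212, 226, 228, 232, 240, 267, 275, 281, 282, 297, 298, 305, 306, 312, 323, 329, 330, 337, 344, 353, 354, 368, 387, 393, 394, 401, 402, 417, 418, 424, 432, 450, 456, 464, 480]
def can14 : List ℕ := [15, 23, 27, 30, 39, 43, 46, 51, 54, 71, 75, 77, 78, 83, 85, 86, 89, 92, 101, 105, 108, 113, 116, 135, 139, 141, 142, 149, 153, 156, 163, 165, 166, 169, 172, 177, 180, 195, 198, 201, 204, 209, 212, 225, 228, 263, 270, 275, 278, 282, 291, 298, 306, 323, 325, 330, 332, 337, 338, 340, 344, 353, 360, 368, 387, 389, 390, 394, 396, 401, 404, 408, 417, 418, 424, 432, 449, 450, 452, 456, 464, 480]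
def can15 : List ℕ := [15, 23, 27, 29, 30, 43, 45, 46, 51, 53, 54, 71, 75, 77, 83, 86, 89, 90, 92, 99, 101, 102, 105, 106, 108, 113, 114, 116, 135, 139, 141, 147, 149, 150, 154, 156, 163, 165, 166, 170, 172, 178, 180, 197, 201, 209, 212, 216, 225, 228, 232, 240, 267, 270, 275, 278, 281, 284, 297, 300, 305, 308, 323, 326, 329, 330, 332, 338, 344, 353, 356, 360, 368, 387, 390, 393, 394, 396, 401, 402, 404, 408, 417, 420, 424, 432, 449, 452, 456, 464]
def can16 : List ℕ := [15, 23, 30, 39, 43, 46, 51, 54, 58, 71, 75, 77, 78, 83, 85, 86, 90, 92, 99, 101, 105, 106, 108, 113, 114, 116, 120, 135, 139, 141, 142, 147, 149, 154, 156, 163, 165, 166, 169, 172, 177, 178, 180, 184, 198, 202, 204, 210, 212, 226, 228, 232, 240, 263, 267, 270, 275, 278, 282, 291, 298, 306, 325, 329, 332, 337, 340, 344, 353, 360, 368, 389, 390, 393, 394, 396, 401, 402, 404, 408, 417, 418, 424, 432, 452, 456, 464, 480]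
def can17 : List ℕ := [15, 23, 27, 29, 30, 43, 45, 46, 51, 53, 54, 57, 58, 71, 75, 77, 83, 86, 89, 90, 92, 99, 101, 102, 106, 108, 113, 116, 120, 135, 139, 141, 147, 149, 150, 154, 156, 163, 165, 166, 169, 170, 172, 177, 180, 184, 197, 201, 209, 212, 216, 225, 228, 232, 270, 278, 282, 284, 298, 300, 306, 308, 312, 326, 330, 332, 338, 344, 354, 356, 368, 390, 394, 396, 402, 404, 418, 420, 424, 432, 452, 456, 464, 480]

end Pool.Agent.Lib.MP_c69b6d_co
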