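import Pool.Agent.Lib.MP_c69b6d_co.Canon

namespace Pool.Agent.Lib.MP_c69b6d_co

open P2

set_option maxRecDepth 100000

def q0_0_1 : List Sq := []

theorem i0_0_1 : Ineq 10 can0 0 1 :=
  ineq_of_check (K := 0) (cs := q0_0_1) (by decide +kernel)

def q0_0_2 : List Sq := []

theorem i0_0_2 : Ineq 10 can0 0 2 :=
  ineq_of_check (K := 0) (cs := q0_0_2) (by decide +kernel)

def q0_0_4 : List Sq := []

theorem i0_0_4 : Ineq 10 can0 0 4 :=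
  ineq_of_check (K := 0) (cs := q0_0_4) (by decide +kernel)

def q0_0_5 : List Sq := [⟨1, 1, 33, (n (n (n z (n (n z (cp 1)) z)) (n (n z (cm 0)) z)) (n (n (n (n z (cp 1)) z) z) z))⟩]

theorem i0_0_5 : Ineq 10 can0 0 5 :=
  ineq_of_check (K := 0) (cs := q0_0_5) (by decide +kernel)

def q0_0_6 : List Sq := []

theorem i0_0_6 : Ineq 10 can0 0 6 :=
  ineq_of_check (K := 0) (cs := q0_0_6) (by decide +kernel)

def q0_1_3 : List Sq := []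

theorem i0_1_3 : Ineq 10 can0 1 3 :=
  ineq_of_check (K := 0) (cs := q0_1_3) (by decide +kernel)

def q0_1_6 : List Sq := [⟨1, 1, 66, (n (n z (n (n z (cm 0)) z)) (n (n (n (n z (cp 1)) z) z) z))⟩]

theorem i0_1_6 : Ineq 10 can0 1 6 :=
  ineq_of_check (K := 0) (cs := q0_1_6) (by decide +kernel)

def q1_0_1 : List Sq := []

theorem i1_0_1 : Ineq 10 can1 0 1 :=
  ineq_of_check (K := 0) (cs := q1_0_1) (by decide +kernel)

def q1_0_2 : List Sq := [⟨1, 4, 5, (n (n (n z (n z (cp 1))) z) (n (n (n (n z (cm 1)) (cm 0)) z) (cm 1)))⟩,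
  ⟨3, 4, 5, (n (n (n z (n z (cp 1))) z) (n (n (n z (cp 1)) z) z))⟩]

theorem i1_0_2 : Ineq 10 can1 0 2 :=
  ineq_of_check (K := 3) (cs := q1_0_2) (by decide +kernel)

def q1_0_3 : List Sq := []

theorem i1_0_3 : Ineq 10 can1 0 3 :=
  ineq_of_check (K := 0) (cs := q1_0_3) (by decide +kernel)

def q1_0_4 : List Sq := []

theorem i1_0_4 : Ineq 10 can1 0 4 :=
  ineq_of_check (K := 0) (cs := q1_0_4) (by decide +kernel)

def q1_0_5 : List Sq := []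

theorem i1_0_5 : Ineq 10 can1 0 5 :=
  ineq_of_check (K := 0) (cs := q1_0_5) (by decide +kernel)

def q1_1_2 : List Sq := []

theorem i1_1_2 : Ineq 10 can1 1 2 :=
  ineq_of_check (K := 0) (cs := q1_1_2) (by decide +kernel)

def q1_1_3 : List Sq := [⟨1, 4, 10, (n (n (n z (n z (cm 0))) z) (n (n (n z (cp 1)) z) (cp 2)))⟩,
  ⟨3, 4, 10, (n (n (n z (n z (cp 1))) z) (n (n (n z (cp 1)) z) z))⟩]

theorem i1_1_3 : Ineq 10 can1 1 3 :=
  ineq_of_check (K := 3) (cs := q1_1_3) (by decide +kernel)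

def q1_2_3 : List Sq := []

theorem i1_2_3 : Ineq 10 can1 2 3 :=
  ineq_of_check (K := 0) (cs := q1_2_3) (by decide +kernel)

def q1_2_4 : List Sq := []

theorem i1_2_4 : Ineq 10 can1 2 4 :=
  ineq_of_check (K := 0) (cs := q1_2_4) (by decide +kernel)

def q1_3_6 : List Sq := []

theorem i1_3_6 : Ineq 10 can1 3 6 :=
  ineq_of_check (K := 0) (cs := q1_3_6) (by decide +kernel)

def q2_0_1 : List Sq := []

theorem i2_0_1 : Ineq 10 can2 0 1 :=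
  ineq_of_check (K := 0) (cs := q2_0_1) (by decide +kernel)

def q2_0_3 : List Sq := []

theorem i2_0_3 : Ineq 10 can2 0 3 :=
  ineq_of_check (K := 0) (cs := q2_0_3) (by decide +kernel)

def q2_0_6 : List Sq := []

theorem i2_0_6 : Ineq 10 can2 0 6 :=
  ineq_of_check (K := 0) (cs := q2_0_6) (by decide +kernel)

def q3_0_1 : List Sq := [⟨1, 1, 3, (n (n z (n z (cm 0))) (n (n (n (n z (cp 1)) z) z) z))⟩]

theorem i3_0_1 : Ineq 10 can3 0 1 :=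
  ineq_of_check (K := 0) (cs := q3_0_1) (by decide +kernel)

def q3_0_2 : List Sq := [⟨1, 1, 5, (n (n z (n (n z (cm 0)) z)) (n (n (n (n z (cp 1)) z) z) z))⟩,
  ⟨1, 2, 15, (n (n z (cm 0)) (cp 2))⟩,
  ⟨1, 2, 23, (n (n (n z (cp 2)) (cm 0)) z)⟩,
  ⟨1, 2, 53, (n (n z (cp 2)) (cm 0))⟩,
  ⟨1, 2, 101, (n (n (n z (cp 2)) z) (cm 0))⟩]

theorem i3_0_2 : Ineq 10 can3 0 2 :=
  ineq_of_check (K := 1) (cs := q3_0_2) (by decide +kernel)

def q3_2_3 : List Sq := [⟨1, 1, 12, (n (n (n z (n (n z (cm 0)) z)) z) (n (n (n z (cp 1)) z) z))⟩]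

theorem i3_2_3 : Ineq 10 can3 2 3 :=
  ineq_of_check (K := 0) (cs := q3_2_3) (by decide +kernel)

def q4_0_1 : List Sq := []

theorem i4_0_1 : Ineq 10 can4 0 1 :=
  ineq_of_check (K := 0) (cs := q4_0_1) (by decide +kernel)

def q4_0_2 : List Sq := []

theorem i4_0_2 : Ineq 10 can4 0 2 :=
  ineq_of_check (K := 0) (cs := q4_0_2) (by decide +kernel)

def q4_0_3 : List Sq := [⟨1, 4, 9, (n (n (n (n z (n z (cm 0))) (n (n z (cm 0)) z)) (n (n z (cp 1)) (cp 1))) (n z (cp 2)))⟩,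
  ⟨3, 4, 9, (n (n (n (n z (n z (cp 1))) (n (n z (cp 1)) z)) (n (n z (cp 1)) (cp 1))) z)⟩]

theorem i4_0_3 : Ineq 10 can4 0 3 :=
  ineq_of_check (K := 3) (cs := q4_0_3) (by decide +kernel)

def q4_0_4 : List Sq := []

theorem i4_0_4 : Ineq 10 can4 0 4 :=
  ineq_of_check (K := 0) (cs := q4_0_4) (by decide +kernel)

def q4_0_6 : List Sq := []

theorem i4_0_6 : Ineq 10 can4 0 6 :=
  ineq_of_check (K := 0) (cs := q4_0_6) (by decide +kernel)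

def q4_2_3 : List Sq := []

theorem i4_2_3 : Ineq 10 can4 2 3 :=
  ineq_of_check (K := 0) (cs := q4_2_3) (by decide +kernel)

def q4_2_4 : List Sq := []

theorem i4_2_4 : Ineq 10 can4 2 4 :=
  ineq_of_check (K := 0) (cs := q4_2_4) (by decide +kernel)

def q4_2_6 : List Sq := []

theorem i4_2_6 : Ineq 10 can4 2 6 :=
  ineq_of_check (K := 0) (cs := q4_2_6) (by decide +kernel)

def q4_4_5 : List Sq := []

theorem i4_4_5 : Ineq 10 can4 4 5 :=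
  ineq_of_check (K := 0) (cs := q4_4_5) (by decide +kernel)

def q4_4_6 : List Sq := [⟨1, 4, 80, (n (n (n z (n z (cp 1))) (n z (cp 2))) (n (n (n z (cm 0)) z) z))⟩,
  ⟨3, 4, 80, (n (n (n z (n z (cp 1))) z) (n (n (n z (cp 1)) z) z))⟩]

theorem i4_4_6 : Ineq 10 can4 4 6 :=
  ineq_of_check (K := 3) (cs := q4_4_6) (by decide +kernel)

def q5_0_1 : List Sq := [⟨1, 4, 3, (n (n (n z (n (n z (cm 0)) (cm 1))) (n (n z (cm 0)) z)) (n (n (n z (cm 1)) (cm 1)) z))⟩,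
  ⟨3, 4, 3, (n (n (n z (n (n z (cp 1)) z)) (n (n z (cm 0)) z)) z)⟩]

theorem i5_0_1 : Ineq 10 can5 0 1 :=
  ineq_of_check (K := 3) (cs := q5_0_1) (by decide +kernel)

def q5_0_2 : List Sq := [⟨1, 4, 5, (n (n (n z (n (n z (cm 0)) z)) (n (n z (cp 1)) z)) (n (n (n z (cm 0)) (cm 1)) z))⟩,
  ⟨3, 4, 5, (n (n (n z (n (n z (cm 0)) z)) (n (n z (cp 1)) z)) (n (n (n z (cp 1)) z) z))⟩]

theorem i5_0_2 : Ineq 10 can5 0 2 :=
  ineq_of_check (K := 3) (cs := q5_0_2) (by decide +kernel)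

def q5_0_3 : List Sq := []

theorem i5_0_3 : Ineq 10 can5 0 3 :=
  ineq_of_check (K := 0) (cs := q5_0_3) (by decide +kernel)

def q5_0_4 : List Sq := []

theorem i5_0_4 : Ineq 10 can5 0 4 :=
  ineq_of_check (K := 0) (cs := q5_0_4) (by decide +kernel)

def q5_1_2 : List Sq := []

theorem i5_1_2 : Ineq 10 can5 1 2 :=
  ineq_of_check (K := 0) (cs := q5_1_2) (by decide +kernel)

def q5_2_3 : List Sq := []

theorem i5_2_3 : Ineq 10 can5 2 3 :=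
  ineq_of_check (K := 0) (cs := q5_2_3) (by decide +kernel)

def q6_0_1 : List Sq := []

theorem i6_0_1 : Ineq 10 can6 0 1 :=
  ineq_of_check (K := 0) (cs := q6_0_1) (by decide +kernel)

def q6_0_3 : List Sq := []

theorem i6_0_3 : Ineq 10 can6 0 3 :=
  ineq_of_check (K := 0) (cs := q6_0_3) (by decide +kernel)

def q6_0_5 : List Sq := []

theorem i6_0_5 : Ineq 10 can6 0 5 :=
  ineq_of_check (K := 0) (cs := q6_0_5) (by decide +kernel)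

def q6_0_6 : List Sq := []

theorem i6_0_6 : Ineq 10 can6 0 6 :=
  ineq_of_check (K := 0) (cs := q6_0_6) (by decide +kernel)

def q6_1_2 : List Sq := []

theorem i6_1_2 : Ineq 10 can6 1 2 :=
  ineq_of_check (K := 0) (cs := q6_1_2) (by decide +kernel)

def q6_1_3 : List Sq := []

theorem i6_1_3 : Ineq 10 can6 1 3 :=
  ineq_of_check (K := 0) (cs := q6_1_3) (by decide +kernel)

def q6_1_6 : List Sq := []

theorem i6_1_6 : Ineq 10 can6 1 6 :=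
  ineq_of_check (K := 0) (cs := q6_1_6) (by decide +kernel)

def q6_3_4 : List Sq := []

theorem i6_3_4 : Ineq 10 can6 3 4 :=
  ineq_of_check (K := 0) (cs := q6_3_4) (by decide +kernel)

def q6_3_6 : List Sq := []

theorem i6_3_6 : Ineq 10 can6 3 6 :=
  ineq_of_check (K := 0) (cs := q6_3_6) (by decide +kernel)

def q7_0_1 : List Sq := [⟨1, 4, 3, (n (n (n (n z (n z (cp 1))) (n (n z (cp 1)) (cp 1))) (n (n z (cm 0)) z)) (n (n z (cm 0)) (cm 1)))⟩,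
  ⟨3, 4, 3, (n (n (n (n z (n z (cp 1))) (n (n z (cp 1)) (cp 1))) (n (n z (cp 1)) z)) (n (n z (cp 1)) z))⟩]

theorem i7_0_1 : Ineq 10 can7 0 1 :=
  ineq_of_check (K := 3) (cs := q7_0_1) (by decide +kernel)

def q7_0_2 : List Sq := []

theorem i7_0_2 : Ineq 10 can7 0 2 :=
  ineq_of_check (K := 0) (cs := q7_0_2) (by decide +kernel)

def q7_0_3 : List Sq := []

theorem i7_0_3 : Ineq 10 can7 0 3 :=
  ineq_of_check (K := 0) (cs := q7_0_3) (by decide +kernel)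

def q7_0_6 : List Sq := [⟨1, 4, 65, (n (n (n z (n (n z (cp 1)) z)) (n (n (n z (cp 2)) (cp 2)) (cp 2))) (n (n (n (n z (cp 2)) (cp 1)) z) (cp 2)))⟩,
  ⟨3, 4, 65, (n (n (n z (n (n z (cm 0)) z)) z) (n (n (n z (cp 1)) z) z))⟩]

theorem i7_0_6 : Ineq 10 can7 0 6 :=
  ineq_of_check (K := 3) (cs := q7_0_6) (by decide +kernel)

def q8_0_1 : List Sq := []

theorem i8_0_1 : Ineq 10 can8 0 1 :=
  ineq_of_check (K := 0) (cs := q8_0_1) (by decide +kernel)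

def q8_0_2 : List Sq := []

theorem i8_0_2 : Ineq 10 can8 0 2 :=
  ineq_of_check (K := 0) (cs := q8_0_2) (by decide +kernel)

def q8_0_3 : List Sq := []

theorem i8_0_3 : Ineq 10 can8 0 3 :=
  ineq_of_check (K := 0) (cs := q8_0_3) (by decide +kernel)

def q8_2_3 : List Sq := []

theorem i8_2_3 : Ineq 10 can8 2 3 :=
  ineq_of_check (K := 0) (cs := q8_2_3) (by decide +kernel)

def q8_2_5 : List Sq := []

theorem i8_2_5 : Ineq 10 can8 2 5 :=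
  ineq_of_check (K := 0) (cs := q8_2_5) (by decide +kernel)

def q8_3_4 : List Sq := []

theorem i8_3_4 : Ineq 10 can8 3 4 :=
  ineq_of_check (K := 0) (cs := q8_3_4) (by decide +kernel)

def q12_0_1 : List Sq := [⟨1, 36, 3, (n (n (n (n z (n (n z (n z (cp 1))) (n (n z (cm 1)) z))) (n (n z (n (n z (cm 0)) z)) (n z (cp 1)))) (n (n z (n z (cm 0))) (n (n (n z (cp 1)) (cm 0)) z))) (n (n (n z (n (n z (cp 1)) (cm 1))) (n (n z (cm 0)) z)) (n (n (n (n z (cm 1)) (cp 6)) z) z)))⟩,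
  ⟨1, 288, 3, (n (n (n (n z (n (n z (n z (cm 10))) (n (n z (cp 1)) (cp 3)))) (n (n z (n (n z (cm 0)) (cm 2))) (n (n z (cp 3)) (cp 1)))) (n (n (n z (n z (cp 6))) (n z (cm 3))) (n (n (n z (cm 1)) (cm 0)) z))) (n (n (n z (n (n z (cm 1)) (cm 1))) (n (n (n z (cm 2)) (cm 0)) z)) (n (n (n (n z (cp 16)) z) z) z)))⟩,
  ⟨1, 8928, 3, (n (n (n (n z (n (n z (n z (cm 16))) (n (n z (cp 11)) (cp 1)))) (n (n (n z (n z (cp 16))) (n (n z (cm 34)) (cm 0))) (n (n z (cp 1)) (cm 12)))) (n (n (n z (n z (cp 2))) (n z (cp 12))) (n (n (n z (cp 2)) (cm 2)) z))) (n (n (n z (n (n z (cp 18)) (cm 37))) (n (n (n z (cm 32)) (cp 93)) z)) z))⟩,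
  ⟨1, 117180, 3, (n (n (n (n z (n (n z (n z (cm 3))) (n (n z (cp 19)) (cp 13)))) (n (n (n z (n z (cm 39))) (n (n z (cp 10)) (cm 74))) (n (n z (cm 48)) (cm 13)))) (n (n (n z (n z (cm 35))) (n z (cp 63))) (n (n (n z (cm 66)) (cm 7)) z))) (n (n (n z (n (n z (cm 106)) (cp 2))) (n (n (n z (cp 315)) z) z)) z))⟩,
  ⟨1, 2547720, 3, (n (n (n (n z (n (n z (n z (cp 139))) (n (n z (cm 423)) (cm 267)))) (n (n (n z (n z (cp 130))) (n (n z (cm 84)) (cm 44))) (n (n z (cp 364)) (cm 300)))) (n (n (n z (n z (cp 96))) (n z (cm 377))) (n (n (n z (cp 97)) (cp 173)) z))) (n (n (n z (n (n z (cm 402)) (cp 1348))) z) z))⟩,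
  ⟨1, 447792120, 3, (n (n (n (n z (n (n z (n z (cm 5294))) (n (n z (cm 227)) (cm 4327)))) (n (n (n z (n z (cp 2874))) (n (n z (cm 1930)) (cm 2290))) (n (n z (cm 7319)) (cp 2709)))) (n (n (n z (n z (cp 4528))) (n z (cm 641))) (n (n (n z (cp 1823)) (cp 1139)) z))) (n (n (n z (n (n z (cp 18455)) z)) z) z))⟩,
  ⟨1, 11679357480, 3, (n (n (n (n z (n (n z (n z (cp 17085))) (n (n z (cp 16493)) (cp 4523)))) (n (n (n z (n z (cm 1493))) (n (n z (cm 21958)) (cm 773))) (n (n z (cp 18600)) (cm 32538)))) (n (n (n z (n z (cm 18342))) (n z (cm 37577))) (n (n (n z (cm 17822)) (cp 105476)) z))) z)⟩,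
  ⟨1, 352952018328, 3, (n (n (n (n z (n (n z (n z (cm 38166))) (n (n z (cp 71601)) (cp 39723)))) (n (n (n z (n z (cm 134197))) (n (n z (cp 113057)) (cm 139417))) (n (n z (cm 82111)) (cp 57917)))) (n (n (n z (n z (cm 124110))) (n z (cm 215385))) (n (n (n z (cp 557713)) z) z))) z)⟩,
  ⟨1, 6240627770988, 3, (n (n (n (n z (n (n z (n z (cm 185011))) (n (n z (cm 110901)) (cp 87535)))) (n (n (n z (n z (cp 345921))) (n (n z (cp 500692)) (cp 231350))) (n (n z (cm 156444)) (cm 703135)))) (n (n (n z (n z (cm 604629))) (n z (cp 1864946))) z)) z)⟩,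
  ⟨1, 21381210521448, 3, (n (n (n (n z (n (n z (n z (cm 2188304))) (n (n z (cp 230270)) (cm 794364)))) (n (n (n z (n z (cm 368438))) (n (n z (cm 326818)) (cm 727036))) (n (n z (cp 751795)) (cp 165221)))) (n (n (n z (n z (cp 3821596))) z) z)) z)⟩,
  ⟨1, 376206264248856, 3, (n (n (n (n z (n (n z (n z (cp 1916157))) (n (n z (cm 2868133)) (cp 210877)))) (n (n (n z (n z (cp 1746579))) (n (n z (cm 863764)) (cm 2424062))) (n (n z (cm 5021618)) (cp 16407031)))) z) z)⟩,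
  ⟨1, 24435478688376948, 3, (n (n (n (n z (n (n z (n z (cm 18994019))) (n (n z (cm 1106879)) (cm 37422502)))) (n (n (n z (n z (cm 27697430))) (n (n z (cp 14349596)) (cm 12446361))) (n (n z (cp 124110809)) z))) z) z)⟩,
  ⟨1, 442367026117451628, 3, (n (n (n (n z (n (n z (n z (cm 41581805))) (n (n z (cp 27870299)) (cm 262491203)))) (n (n (n z (n z (cm 65622301))) (n (n z (cm 127123257)) (cp 594048482))) z)) z) z)⟩,
  ⟨1, 2064162210496809900, 3, (n (n (n (n z (n (n z (n z (cp 180171487))) (n (n z (cm 302629909)) (cp 135322239)))) (n (n (n z (n z (cm 431735274))) (n (n z (cp 1158245650)) z)) z)) z) z)⟩,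
  ⟨1, 55351315101713988, 3, (n (n (n (n z (n (n z (n z (cm 41520020))) (n (n z (cp 616504)) (cm 3556108)))) (n (n (n z (n z (cp 199120523))) z) z)) z) z)⟩,
  ⟨1, 142273314511271309100, 3, (n (n (n (n z (n (n z (n z (cm 1044891351))) (n (n z (cm 2915626664)) (cp 9526780556)))) z) z) z)⟩,
  ⟨1, 128251096169799747150, 3, (n (n (n (n z (n (n z (n z (cm 73706031))) (n (n z (cp 8974776975)) z))) z) z) z)⟩,
  ⟨1, 21, 15, (n (n z (n z (cp 7))) (n (n z (cm 1)) z))⟩,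
  ⟨1, 21, 15, (n z (n (n (n z (cp 7)) (cm 1)) z))⟩,
  ⟨1, 84, 23, (n (n z (n (n z (cm 3)) (cp 1))) (n (n (n z (cp 14)) (cm 3)) z))⟩,
  ⟨13, 1260, 23, (n (n z (n (n z (cm 3)) (cp 15))) (n (n z (cm 3)) z))⟩,
  ⟨1, 16020, 23, (n (n z (n (n z (cm 16)) z)) (n (n z (cp 178)) z))⟩,
  ⟨1, 21, 39, (n (n z (n (n z (cp 7)) (cm 1))) z)⟩,
  ⟨1, 12, 39, (n (n z (n z (cm 0))) (n (n z (cp 4)) z))⟩,
  ⟨1, 84, 71, (n (n (n z (n z (cp 14))) (n (n z (cm 4)) z)) (n (n (n z (cm 2)) z) z))⟩,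
  ⟨1, 14364, 71, (n (n z (n (n z (cp 171)) z)) (n (n (n z (cm 28)) z) z))⟩,
  ⟨1, 84, 135, (n (n (n z (n z (cp 14))) (n (n z (cm 4)) z)) (n (n (n z (cm 4)) z) z))⟩,
  ⟨1, 12012, 135, (n (n z (n (n z (cm 52)) z)) (n (n (n z (cp 143)) z) z))⟩,
  ⟨1, 84, 263, (n (n (n z (n (n z (cm 2)) (cp 1))) (n (n (n z (cp 14)) (cm 3)) z)) z)⟩,
  ⟨13, 1260, 263, (n (n (n z (n (n z (cm 2)) (cp 15))) (n (n z (cm 3)) z)) z)⟩,
  ⟨1, 10620, 263, (n (n (n z (n (n z (cm 8)) z)) (n (n z (cp 118)) z)) z)⟩,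
  ⟨1, 84, 27, (n (n (n z (n z (cm 2))) z) (n (n (n z (cp 14)) (cm 2)) z))⟩,
  ⟨1, 84, 27, (n (n (n z (n z (cm 2))) (n z (cp 14))) (n (n z (cm 2)) z))⟩,
  ⟨1, 3738, 27, (n (n (n z (n z (cm 29))) z) (n (n z (cp 89)) z))⟩,
  ⟨1, 84, 43, (n (n (n z (n z (cm 1))) (n (n z (cp 14)) (cm 3))) (n (n (n z (cm 2)) (cp 1)) z))⟩,
  ⟨1, 2604, 43, (n (n (n z (n z (cm 10))) (n z (cp 62))) (n (n (n z (cp 1)) (cm 11)) z))⟩,
  ⟨1, 221340, 43, (n (n (n z (n z (cm 133))) z) (n (n (n z (cm 108)) (cp 595)) z))⟩,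
  ⟨1, 59754660, 43, (n (n (n z (n z (cm 3330))) z) (n (n (n z (cp 8369)) z) z))⟩,
  ⟨2, 9, 139, (n (n (n z (n z (cp 3))) (n (n z (cm 0)) z)) z)⟩,
  ⟨1, 84, 267, (n (n (n z (n z (cm 1))) (n (n (n z (cp 14)) (cm 2)) z)) z)⟩,
  ⟨1, 861, 267, (n (n (n z (n z (cp 41))) (n (n z (cm 11)) z)) z)⟩,
  ⟨1, 84, 51, (n (n (n (n z (n z (cm 4))) (n (n z (cp 14)) (cm 1))) (n z (cm 2))) (n (n (n z (cp 2)) (cm 2)) z))⟩,
  ⟨1, 14364, 51, (n (n (n (n z (n z (cp 171))) (n z (cm 37))) (n z (cm 14))) (n (n (n z (cm 45)) (cp 13)) z))⟩,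
  ⟨1, 1549260, 51, (n (n (n z (n z (cm 417))) (n z (cp 24))) (n (n (n z (cp 1510)) (cm 396)) z))⟩,
  ⟨1, 118695060, 51, (n (n (n z (n z (cm 4325))) (n z (cm 2301))) (n (n z (cp 13101)) z))⟩,
  ⟨1, 9261201708, 51, (n (n (n z (n z (cm 27920))) (n z (cp 117818))) z)⟩,
  ⟨1, 21, 83, (n (n (n z (n z (cm 1))) (n (n z (cp 7)) z)) z)⟩,
  ⟨1, 21, 147, (n (n (n z (n z (cm 1))) (n (n z (cp 7)) z)) z)⟩,
  ⟨1, 21, 275, (n (n (n z (n (n z (cm 2)) (cp 7))) z) z)⟩,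
  ⟨1, 12, 163, (n (n (n z (n z (cm 0))) (n (n z (cp 4)) z)) z)⟩,
  ⟨1, 21, 291, (n (n (n z (n (n z (cp 7)) (cm 2))) z) z)⟩,
  ⟨1, 96, 195, (n (n (n (n z (n z (cp 2))) (n (n z (cm 2)) (cm 1))) (n z (cm 1))) (n (n (n z (cm 4)) (cp 16)) (cm 1)))⟩,
  ⟨1, 6048, 195, (n (n (n (n z (n z (cm 45))) (n (n z (cm 10)) (cp 22))) (n z (cm 25))) (n (n (n z (cm 36)) z) (cp 126)))⟩,
  ⟨1, 1245888, 195, (n (n (n (n z (n z (cm 259))) (n (n z (cp 83)) (cm 354))) (n z (cp 53))) (n (n (n z (cp 1648)) z) z))⟩,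
  ⟨1, 851653440, 195, (n (n (n (n z (n z (cp 428))) (n (n z (cm 8832)) (cm 8542))) (n z (cp 43065))) z)⟩,
  ⟨1, 803264040, 195, (n (n (n (n z (n z (cm 7815))) (n (n z (cp 34196)) (cm 5968))) z) z)⟩,
  ⟨1, 258276985032, 195, (n (n (n (n z (n z (cp 457748))) (n z (cm 142304))) z) z)⟩,
  ⟨1, 8, 323, (n (n (n (n z (n z (cm 0))) (n (n z (cp 4)) z)) z) z)⟩,
  ⟨1, 21, 387, (n (n (n (n z (n z (cp 7))) (n (n z (cm 1)) z)) z) z)⟩,
  ⟨11, 24, 63, (n (n z (cm 0)) (cp 4))⟩,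
  ⟨2, 9, 287, (n (n (n z (cp 3)) (cm 0)) z)⟩,
  ⟨1, 15, 303, (n (n (n z (cm 0)) (cp 5)) z)⟩,
  ⟨1, 216, 207, (n (n z (cm 4)) (cp 36))⟩,
  ⟨1, 42, 311, (n (n (n z (cm 4)) (cp 14)) z)⟩,
  ⟨1, 54, 215, (n (n z (cm 4)) (cp 18))⟩,
  ⟨1, 45, 231, (n (n z (cp 15)) (cm 0))⟩,
  ⟨1, 168, 455, (n (n (n z (cm 8)) (cp 28)) z)⟩,
  ⟨1, 39, 315, (n (n (n z (cm 2)) (cp 13)) z)⟩,
  ⟨1, 204, 219, (n (n z (cm 2)) (cp 34))⟩,
  ⟨7, 24, 235, (n (n z (cp 4)) (cm 0))⟩,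
  ⟨1, 156, 459, (n (n (n z (cm 2)) (cp 26)) z)⟩,
  ⟨1, 144, 243, (n (n (n z (cm 6)) (cm 0)) (cp 24))⟩,
  ⟨1, 34416, 243, (n (n (n z (cm 102)) (cp 239)) z)⟩]

theorem i12_0_1 : Ineq 10 can12 0 1 :=
  ineq_of_check (K := 60001579228529470118200412157691775975388061802246687255556175871584006254303326490568870598097820917387757763394058260369599) (cs := q12_0_1) (by decide +kernel)

def q12_0_2 : List Sq := [⟨1, 36, 5, (n (n (n (n z (n (n z (n z (cp 2))) (n (n z (cm 0)) z))) (n (n (n z (n z (cp 2))) (n (n z (cp 1)) z)) (n (n z (cp 6)) (cm 2)))) (n (n (n (n z (n z (cp 2))) (n (n z (cp 1)) z)) (n z (cm 2))) z)) (n (n (n (n (n z (n z (cp 1))) (n (n z (cm 1)) z)) (n (n z (cp 3)) z)) (n (n z (cm 2)) z)) (n (n (n (n z (cm 2)) z) z) z)))⟩,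
  ⟨1, 36, 5, (n (n (n (n z (n (n z (n z (cm 1))) (n (n z (cp 1)) z))) (n (n (n z (n z (cm 1))) z) (n z (cm 2)))) (n (n (n (n z (n z (cm 1))) (n (n z (cm 1)) z)) (n z (cp 3))) z)) (n (n (n (n (n z (n z (cm 0))) (n (n z (cp 2)) z)) (n (n z (cm 2)) z)) (n (n z (cp 3)) z)) (n (n (n (n z (cm 2)) (cp 6)) z) z)))⟩,
  ⟨1, 1260, 5, (n (n (n (n z (n (n z (n z (cp 4))) (n (n z (cm 4)) z))) (n (n (n z (n z (cm 7))) (n (n z (cp 35)) z)) (n z (cm 2)))) (n (n (n (n z (n z (cp 4))) (n (n z (cm 6)) z)) (n z (cm 2))) z)) (n (n (n (n (n z (n z (cp 5))) (n (n z (cm 3)) z)) (n (n z (cp 3)) z)) (n (n z (cm 2)) z)) (n (n (n (n z (cp 3)) z) z) z)))⟩,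
  ⟨1, 303660, 5, (n (n (n (n z (n (n z (n z (cp 482))) (n (n z (cm 234)) z))) (n (n (n z (n z (cm 18))) z) (n z (cm 98)))) (n (n (n (n z (n z (cm 42))) (n (n z (cp 14)) z)) (n z (cm 98))) z)) (n (n (n (n (n z (n z (cp 25))) (n (n z (cp 43)) z)) (n (n z (cp 99)) z)) (n (n z (cm 98)) z)) (n (n (n (n z (cp 99)) z) z) z)))⟩,
  ⟨1, 6347940, 5, (n (n (n (n z (n z (n (n z (cm 270)) z))) (n (n (n z (n z (cm 386))) z) (n z (cp 495)))) (n (n (n (n z (n z (cm 266))) (n (n z (cm 69)) z)) (n z (cp 495))) z)) (n (n (n (n (n z (n z (cm 1088))) (n (n z (cp 2195)) z)) (n (n z (cm 494)) z)) (n (n z (cp 495)) z)) (n (n (n (n z (cm 494)) z) z) z)))⟩,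
  ⟨1, 510442860, 5, (n (n (n (n z (n z (n (n z (cm 3118)) z))) (n (n (n z (n z (cp 592))) z) (n z (cm 6014)))) (n (n (n (n z (n z (cm 67))) (n (n z (cp 2580)) z)) (n z (cm 6014))) z)) (n (n (n (n (n z (n z (cp 19379))) z) (n (n z (cp 6015)) z)) (n (n z (cm 6014)) z)) (n (n (n (n z (cp 6015)) z) z) z)))⟩,
  ⟨1, 2730171657, 5, (n (n (n (n z (n z (n (n z (cm 5086)) z))) (n (n (n z (n z (cm 2954))) z) (n z (cp 6226)))) (n (n (n (n z (n z (cm 18122))) (n (n z (cp 46961)) z)) (n z (cp 6226))) z)) (n (n (n z (n (n z (cm 6225)) z)) (n (n z (cp 6226)) z)) (n (n (n (n z (cm 6225)) z) z) z)))⟩,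
  ⟨1, 55440841692, 5, (n (n (n (n z (n z (n (n z (cm 80889)) z))) (n (n (n z (n z (cp 196762))) z) (n z (cm 88666)))) (n (n (n (n z (n z (cp 27614))) z) (n z (cm 88666))) z)) (n (n (n z (n (n z (cp 88667)) z)) (n (n z (cm 88666)) z)) (n (n (n (n z (cp 88667)) z) z) z)))⟩,
  ⟨1, 12731288448, 5, (n (n (n (n z (n z (n (n z (cp 86272)) z))) (n z (n z (cp 16443)))) (n (n (n (n z (n z (cm 36142))) z) (n z (cp 16443))) z)) (n (n (n z (n (n z (cm 16442)) z)) (n (n z (cp 16443)) z)) (n (n (n (n z (cm 16442)) z) z) z)))⟩,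
  ⟨1, 8558915712, 5, (n (n (n z (n z (n z (cm 24022)))) (n (n (n (n z (n z (cp 66139))) z) (n z (cm 24022))) z)) (n (n (n z (n (n z (cp 24023)) z)) (n (n z (cm 24022)) z)) (n (n (n (n z (cp 24023)) z) z) z)))⟩,
  ⟨84473, 793668, 5, (n (n (n z (n z (n z (cp 1)))) (n (n z (n z (cp 1))) z)) (n (n (n z (n (n z (cm 0)) z)) (n (n z (cp 1)) z)) (n (n (n (n z (cm 0)) z) z) z)))⟩,
  ⟨1, 84, 15, (n (n (n (n z (n z (cm 4))) (n (n z (cp 14)) z)) z) z)⟩,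
  ⟨1, 84, 23, (n (n (n (n z (n z (cm 4))) (n (n z (cp 14)) z)) z) z)⟩,
  ⟨2, 9, 39, (n (n (n (n z (n z (cm 0))) (n (n z (cp 3)) z)) z) z)⟩,
  ⟨1, 6, 263, (n (n z (n (n z (cm 0)) z)) (n (n (n (n z (cm 0)) (cp 4)) z) z))⟩,
  ⟨1, 42, 263, (n (n z (n (n z (cm 1)) z)) (n (n (n (n z (cp 7)) z) z) z))⟩,
  ⟨1, 84, 29, (n (n (n (n z (n z (cm 4))) (n (n z (cp 14)) z)) z) z)⟩,
  ⟨1, 84, 45, (n (n (n (n z (n z (cm 4))) (n (n z (cp 14)) z)) z) z)⟩,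
  ⟨1, 48, 269, (n z (n (n (n (n z (cm 2)) (cp 8)) z) z))⟩,
  ⟨1, 84, 53, (n (n (n (n z (n z (cm 4))) (n (n z (cp 14)) z)) z) z)⟩,
  ⟨1, 48, 277, (n (n (n z (n (n z (cm 2)) (cp 8))) z) z)⟩,
  ⟨1, 21, 293, (n (n (n z (n (n z (cm 1)) (cp 7))) (n (n z (cm 1)) z)) z)⟩,
  ⟨1, 224, 293, (n (n (n z (n (n z (cp 16)) z)) (n (n z (cm 4)) z)) z)⟩,
  ⟨1, 72, 197, (n (n (n (n z (n z (cm 0))) (n (n z (cp 1)) (cm 11))) (n (n (n z (cm 0)) z) z)) (n (n (n (n z (cp 1)) z) z) (cp 12)))⟩,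
  ⟨1, 6840, 197, (n (n (n (n z (n z (cm 24))) (n (n z (cm 22)) z)) (n (n (n z (cp 95)) z) z)) (n (n (n (n z (cm 22)) z) z) z))⟩,
  ⟨1, 100890, 197, (n (n (n (n z (n z (cm 114))) (n (n z (cp 354)) z)) z) (n (n (n (n z (cm 120)) z) z) z))⟩,
  ⟨1, 1989126, 197, (n (n (n (n z (n z (cm 751))) z) z) (n (n (n (n z (cp 1873)) z) z) z))⟩,
  ⟨1, 42, 287, (n (n (n z (cm 2)) (cp 14)) z)⟩,
  ⟨1, 60, 303, (n (n (n z (cm 2)) (cp 10)) z)⟩,
  ⟨1, 60, 311, (n (n (n z (cm 2)) (cp 10)) z)⟩,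
  ⟨1, 156, 455, (n (n z (cm 0)) (cp 26))⟩,
  ⟨1, 39, 317, (n (n (n z (cm 2)) (cp 13)) z)⟩,
  ⟨1, 144, 485, (n (n (n z (cp 24)) (cm 0)) z)⟩]

theorem i12_0_2 : Ineq 10 can12 0 2 :=
  ineq_of_check (K := 207276789252542341231492917671168639) (cs := q12_0_2) (by decide +kernel)

def q12_0_3 : List Sq := [⟨1, 16, 9, (n (n (n (n z (n z (n (n z (cp 3)) z))) (n (n (n z (n z (cp 4))) (n (n z (cp 2)) z)) (n (n z (cp 1)) z))) (n (n z (n (n z (cp 1)) (cp 1))) z)) (n (n (n (n z (n z (cm 3))) (n (n z (cp 1)) z)) (n (n z (cm 1)) z)) (n (n (n (n z (cm 3)) (cm 3)) z) z)))⟩,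
  ⟨1, 16, 9, (n (n (n (n z (n z (n z (cm 0)))) (n z (n (n z (cm 0)) (cp 4)))) (n (n z (n (n z (cp 1)) (cm 0))) z)) z)⟩,
  ⟨1, 16, 9, (n (n (n (n z (n (n z (n z (cp 4))) z)) (n z (n (n z (cm 0)) z))) (n (n z (n (n z (cm 0)) (cp 1))) z)) (n (n (n z (n (n z (cm 0)) z)) (n (n z (cp 1)) z)) z))⟩,
  ⟨1, 240, 9, (n (n (n (n z (n z (n z (cp 15)))) (n (n z (n (n z (cm 3)) z)) (n (n z (cm 0)) z))) (n (n z (n (n z (cm 2)) (cm 0))) z)) z)⟩,
  ⟨1, 4960, 9, (n (n (n (n z (n z (n (n z (cp 5)) z))) (n (n z (n (n z (cm 13)) z)) (n (n z (cm 25)) z))) (n (n z (n (n z (cp 62)) (cm 15))) z)) (n (n (n z (n (n z (cm 29)) z)) (n (n z (cp 15)) z)) z))⟩,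
  ⟨1, 1675488, 9, (n (n (n (n z (n z (n (n z (cm 254)) z))) (n (n z (n (n z (cm 649)) z)) (n (n z (cp 148)) z))) (n (n z (n z (cp 1126))) z)) (n (n (n z (n (n z (cm 143)) z)) (n (n z (cp 165)) z)) z))⟩,
  ⟨1, 13818272, 9, (n (n (n (n z (n z (n (n z (cm 806)) z))) (n (n z (n (n z (cm 69)) z)) (n (n z (cp 1038)) z))) z) (n (n (n z (n (n z (cp 3068)) z)) (n (n z (cm 2060)) z)) z))⟩,
  ⟨1, 87499360, 9, (n (n (n (n z (n z (n (n z (cp 2109)) z))) (n (n z (n (n z (cp 1198)) z)) (n (n z (cp 7130)) z))) z) (n (n z (n (n z (cm 4216)) z)) z))⟩,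
  ⟨1, 2117610, 9, (n (n (n (n z (n z (n (n z (cm 576)) z))) (n (n z (n (n z (cp 891)) z)) z)) z) (n (n z (n (n z (cm 228)) z)) z))⟩,
  ⟨1, 781704, 9, (n (n (n (n z (n z (n (n z (cp 329)) z))) z) z) (n (n z (n (n z (cp 128)) z)) z))⟩,
  ⟨1, 24, 43, (n (n (n z (n z (cm 0))) z) (n (n (n z (cp 6)) (cm 0)) z))⟩,
  ⟨1, 4, 43, (n (n (n z (n z (cm 0))) (n z (cp 2))) (n (n z (cm 0)) z))⟩,
  ⟨1, 696, 43, (n (n (n z (n z (cm 6))) z) (n (n z (cp 29)) z))⟩,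
  ⟨1, 10, 267, (n (n (n z (n (n z (cp 5)) z)) (n (n z (cm 1)) z)) z)⟩,
  ⟨1, 40, 29, (n (n z (n (n z (cp 10)) (cm 2))) z)⟩,
  ⟨1, 10, 269, (n (n (n z (n (n z (cp 5)) (cm 0))) z) z)⟩,
  ⟨1, 32, 57, (n (n (n (n z (n z (cp 8))) (n (n z (cm 2)) z)) z) z)⟩,
  ⟨1, 10, 281, (n (n (n z (n (n z (cp 5)) (cm 1))) z) z)⟩,
  ⟨1, 32, 297, (n (n (n z (n (n z (cm 2)) (cp 8))) z) z)⟩,
  ⟨1, 10, 201, (n (n (n (n z (n z (cm 0))) (n z (cm 0))) (n (n z (cp 5)) z)) z)⟩,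
  ⟨7, 80, 201, (n (n (n (n z (n z (cm 0))) (n z (cp 4))) z) z)⟩,
  ⟨1, 32, 63, (n (n z (cm 2)) (cp 8))⟩,
  ⟨1, 16, 303, (n (n (n z (cp 4)) (cm 0)) z)⟩,
  ⟨3, 8, 315, (n (n (n z (cm 0)) (cp 2)) z)⟩,
  ⟨1, 56, 235, (n (n z (cm 0)) (cp 14))⟩,
  ⟨1, 6, 317, (n (n (n z (cp 3)) (cm 0)) z)⟩,
  ⟨1, 32, 249, (n (n (n z (cp 8)) z) (cm 0))⟩]

theorem i12_0_3 : Ineq 10 can12 0 3 :=
  ineq_of_check (K := 139592992182003359) (cs := q12_0_3) (by decide +kernel)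

def q12_0_6 : List Sq := [⟨1, 144, 65, (n (n (n (n (n z (n z (n z (cm 0)))) (n (n z (n z (cp 1))) (n z (cp 3)))) (n (n (n z (n z (cp 1))) z) (n z (cp 1)))) (n (n (n z (n (n z (cp 2)) z)) (n z (cm 0))) (n (n (n (n z (cm 2)) z) (cm 1)) z))) (n (n (n (n (n z (n z (cp 1))) (n z (cp 1))) z) (n (n (n z (cm 2)) (cm 0)) (cm 1))) (n (n (n (n (n z (cm 1)) z) (cm 1)) (cm 1)) (cp 12))))⟩,
  ⟨1, 5040, 65, (n (n (n (n (n z (n z (n z (cp 5)))) (n (n z (n z (cm 16))) (n z (cm 2)))) (n (n (n z (n z (cp 7))) (n (n z (cm 5)) z)) (n (n (n z (cp 6)) z) (cp 7)))) (n (n (n z (n (n z (cp 8)) z)) (n (n (n z (cm 11)) z) (cm 12))) (n (n (n (n z (cm 2)) z) (cp 4)) z))) (n (n (n (n (n z (n z (cm 16))) (n (n z (cp 12)) (cp 1))) (n z (cm 11))) (n (n (n z (cm 8)) (cp 11)) (cm 7))) (n (n (n (n (n z (cm 7)) z) (cm 13)) (cp 70)) z)))⟩,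
  ⟨1, 3360, 65, (n (n (n (n (n z (n z (n z (cp 10)))) (n (n z (n z (cm 6))) (n z (cp 7)))) (n (n (n z (n z (cm 2))) (n (n z (cp 4)) z)) (n (n (n z (cm 3)) z) (cp 7)))) (n (n (n z (n (n z (cm 11)) z)) (n (n (n z (cp 8)) z) (cm 12))) (n (n (n (n z (cp 7)) z) (cm 10)) z))) (n (n (n (n (n z (n z (cp 8))) (n (n z (cm 7)) (cm 13))) (n (n (n z (cp 5)) z) (cm 11))) (n (n (n z (cp 1)) (cm 8)) (cp 2))) (n (n (n (n (n z (cm 17)) z) (cp 56)) z) z)))⟩,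
  ⟨1, 97440, 65, (n (n (n (n (n z (n z (n z (cp 16)))) (n (n z (n z (cp 39))) (n z (cm 2)))) (n (n (n z (n z (cp 3))) (n (n z (cp 4)) z)) (n (n (n z (cp 24)) z) (cm 6)))) (n (n (n z (n (n z (cm 63)) z)) (n (n (n z (cm 47)) z) (cp 21))) (n (n (n (n z (cm 58)) z) (cp 1)) z))) (n (n (n (n (n z (n z (cm 101))) (n (n z (cm 35)) (cp 8))) (n (n (n z (cm 46)) z) z)) (n (n (n z (cp 11)) (cm 14)) (cm 9))) (n (n (n (n (n z (cp 290)) z) z) z) z)))⟩,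
  ⟨1, 5680752, 65, (n (n (n (n (n z (n z (n z (cp 178)))) (n (n z (n z (cm 620))) (n z (cm 123)))) (n (n (n z (n z (cp 269))) (n (n z (cp 175)) z)) (n (n (n z (cm 370)) z) (cm 153)))) (n (n (n z (n (n z (cm 102)) z)) (n (n (n z (cp 336)) z) (cp 143))) (n (n (n (n z (cm 137)) z) (cp 167)) z))) (n (n (n (n (n z (n z (cm 68))) (n (n z (cp 252)) (cp 263))) (n (n (n z (cm 424)) z) (cm 434))) (n (n (n z (cm 337)) (cm 387)) (cp 2332))) z))⟩,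
  ⟨1, 717425808, 65, (n (n (n (n (n z (n z (n z (cp 2991)))) (n (n z (n z (cm 310))) (n z (cp 8037)))) (n (n (n z (n z (cp 2401))) (n (n z (cm 5977)) z)) (n (n (n z (cp 1060)) z) (cm 4696)))) (n (n (n z (n (n z (cp 860)) z)) (n (n (n z (cm 563)) z) (cm 10))) (n (n (n (n z (cm 392)) z) (cm 5797)) z))) (n (n (n (n (n z (n z (cp 1261))) (n (n z (cm 5669)) (cm 5042))) (n (n (n z (cp 1692)) z) (cm 5661))) (n (n (n z (cm 7552)) (cp 25637)) z)) z))⟩,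
  ⟨1, 7763347116960, 65, (n (n (n (n (n z (n z (n z (cp 847229)))) (n (n z (n z (cm 160178))) (n z (cm 1642921)))) (n (n (n z (n z (cm 25112))) (n (n z (cm 199598)) z)) (n (n (n z (cm 5288)) z) (cm 338117)))) (n (n (n z (n (n z (cm 42020)) z)) (n (n (n z (cm 13341)) z) (cp 664029))) (n (n (n (n z (cp 23704)) z) (cm 510075)) z))) (n (n (n (n (n z (n z (cm 485727))) (n (n z (cm 51763)) (cm 548307))) (n (n (n z (cm 11247)) z) (cp 451165))) (n (n (n z (cp 2523484)) z) z)) z))⟩,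
  ⟨1, 3023702060033184, 65, (n (n (n (n (n z (n z (n z (cp 2157159)))) (n (n z (n z (cm 1383346))) (n z (cm 5010501)))) (n (n (n z (n z (cp 2844023))) (n (n z (cp 3703737)) z)) (n (n (n z (cp 3851679)) z) (cm 9339637)))) (n (n (n z (n (n z (cm 1360708)) z)) (n (n (n z (cp 1335622)) z) (cm 11412658))) (n (n (n (n z (cm 4876739)) z) (cp 8089918)) z))) (n (n (n (n (n z (n z (cp 6318290))) (n (n z (cm 11453179)) (cm 12238801))) (n (n (n z (cm 15182077)) z) (cp 49926049))) z) z))⟩,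
  ⟨1, 1231662483501002496, 65, (n (n (n (n (n z (n z (n z (cp 113222023)))) (n (n z (n z (cm 228073011))) (n z (cm 81040257)))) (n (n (n z (n z (cp 141331336))) (n (n z (cp 49697028)) z)) (n (n (n z (cm 191790522)) z) (cp 26015864)))) (n (n (n z (n (n z (cm 35515714)) z)) (n (n (n z (cm 102132248)) z) (cm 19342039))) (n (n (n (n z (cp 12711700)) z) (cm 519031)) z))) (n (n (n (n (n z (n z (cm 345352330))) (n (n z (cm 236628706)) (cp 92681983))) (n (n (n z (cp 1027905696)) z) z)) z) z))⟩,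
  ⟨1, 481401873512657752320, 65, (n (n (n (n (n z (n z (n z (cm 5284127448)))) (n (n z (n z (cp 1830677644))) (n z (cm 5562405121)))) (n (n (n z (n z (cp 1622774600))) (n (n z (cp 1181518020)) z)) (n (n (n z (cm 1205981626)) z) (cp 375298936)))) (n (n (n z (n (n z (cp 693773885)) z)) (n (n (n z (cp 796441191)) z) (cp 800010920))) (n (n (n (n z (cp 987877076)) z) (cm 2085805719)) z))) (n (n (n (n (n z (n z (cm 6559260714))) (n (n z (cm 817952226)) (cp 19513863455))) z) z) z))⟩,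
  ⟨1, 43456482322273190174280, 65, (n (n (n (n (n z (n z (n z (cm 44455857923)))) (n (n z (n z (cp 23329176724))) (n z (cp 8609421648)))) (n (n (n z (n z (cp 25334495220))) (n (n z (cm 40308110964)) z)) (n (n (n z (cm 3383568561)) z) (cp 4323115946)))) (n (n (n z (n (n z (cm 36134351904)) z)) (n (n (n z (cm 650020498)) z) (cm 9326813174))) (n (n (n (n z (cm 2146399393)) z) (cp 23812097495)) z))) (n (n (n (n (n z (n z (cm 63677977849))) (n (n z (cp 185579525818)) z)) z) z) z))⟩,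
  ⟨1, 599742774074475683503920, 65, (n (n (n (n (n z (n z (n z (cm 140935403226)))) (n (n z (n z (cm 121454575486))) (n z (cp 5999596441)))) (n (n (n z (n z (cm 147707385414))) (n (n z (cp 23530929116)) z)) (n (n (n z (cp 53783796749)) z) (cp 110785531076)))) (n (n (n z (n (n z (cm 90560288677)) z)) (n (n (n z (cp 44099538430)) z) (cm 9289297958))) (n (n (n (n z (cm 48042252759)) z) (cp 119898928364)) z))) (n (n (n (n (n z (n z (cp 538621534740))) z) z) z) z))⟩,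
  ⟨1, 8146848077294200138651320, 65, (n (n (n (n (n z (n z (n z (cm 441976869603)))) (n (n z (n z (cp 373749807256))) (n z (cm 233756848117)))) (n (n (n z (n z (cm 732129139149))) (n (n z (cm 116799347832)) z)) (n (n (n z (cp 193405805378)) z) (cm 341111712747)))) (n (n (n z (n (n z (cm 157644823330)) z)) (n (n (n z (cp 39649703725)) z) (cm 428904348032))) (n (n (n (n z (cm 490828885509)) z) (cp 2520894404153)) z))) z)⟩,
  ⟨1, 767057963226598832654070912, 65, (n (n (n (n (n z (n z (n z (cp 3451018567774)))) (n (n z (n z (cp 3865600209702))) (n z (cp 1261862716475)))) (n (n (n z (n z (cm 10504017071283))) (n (n z (cm 2884012960196)) z)) (n (n (n z (cm 3696210299243)) z) (cp 4235041802612)))) (n (n (n z (n (n z (cm 4769978097627)) z)) (n (n (n z (cm 6176685582194)) z) (cm 1035373064992))) (n (n (n (n z (cp 25356673738592)) z) z) z))) z)⟩,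
  ⟨1, 71612850730572787746749708160, 65, (n (n (n (n (n z (n z (n z (cp 10951948911350)))) (n (n z (n z (cp 17174576005566))) (n z (cm 25866183448388)))) (n (n (n z (n z (cp 15876512152244))) (n (n z (cp 1880844559795)) z)) (n (n (n z (cp 7140002270556)) z) (cm 38161108006795)))) (n (n (n z (n (n z (cm 57606495321771)) z)) (n (n (n z (cm 76244448123834)) z) (cp 235351750880415))) z)) z)⟩,
  ⟨1, 3898323647579693967136108755408, 65, (n (n (n (n (n z (n z (n z (cp 130439942895317)))) (n (n z (n z (cm 601394124324626))) (n z (cp 128825054805456)))) (n (n (n z (n z (cp 111741037075883))) (n (n z (cp 53424324618913)) z)) (n (n (n z (cm 341131814413556)) z) (cm 13329137035327)))) (n (n (n z (n (n z (cm 542763189989265)) z)) (n (n (n z (cp 1725397743748037)) z) z)) z)) z)⟩,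
  ⟨1, 7186162790190602481551845236426840, 65, (n (n (n (n (n z (n z (n z (cm 29343474065392379)))) (n (n z (n z (cm 4706949651659230))) (n z (cp 6276141595580449)))) (n (n (n z (n z (cp 8841687599720631))) (n (n z (cm 17679884805480744)) z)) (n (n (n z (cp 985061238071914)) z) (cm 8099361288153)))) (n (n (n z (n (n z (cp 69415518984241922)) z)) z) z)) z)⟩,
  ⟨1, 15611295790306894243015686858650616, 65, (n (n (n (n (n z (n z (n z (cp 6824954801521671)))) (n (n z (n z (cp 15572216860702244))) (n z (cm 24792425272767364)))) (n (n (n z (n z (cm 23988951169361616))) (n (n z (cm 26119154704081306)) z)) (n (n (n z (cm 18028011576311111)) z) (cp 112448167346057214)))) z) z)⟩,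
  ⟨1, 42464882424583489424229887056366752, 65, (n (n (n (n (n z (n z (n z (cp 34476280764046545)))) (n (n z (n z (cm 74288165176540525))) (n z (cm 7308334583228878)))) (n (n (n z (n z (cm 59580817646266197))) (n (n z (cm 38067201761035375)) z)) (n (n (n z (cp 188819806613204184)) z) z))) z) z)⟩,
  ⟨1, 239123996998048210878804840408105552, 65, (n (n (n (n (n z (n z (n z (cm 153306100420592966)))) (n (n z (n z (cp 51331545088025437))) (n z (cp 8662818027451966)))) (n (n (n z (n z (cm 142417683918840315))) (n (n z (cp 422137912484099626)) z)) z)) z) z)⟩,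
  ⟨1, 46362183043005465470543726597918407200, 65, (n (n (n (n (n z (n z (n z (cm 927703515067030548)))) (n (n z (n z (cm 105219158741785351))) (n z (cm 608307915618902498)))) (n (n (n z (n z (cp 4576129197740931550))) z) z)) z) z)⟩,
  ⟨1, 3909899003816287535532488539755465502800, 65, (n (n (n (n (n z (n z (n z (cm 3983486047039011725)))) (n (n z (n z (cm 10847191627149859672))) (n z (cp 35600493660181025049)))) z) z) z)⟩,
  ⟨1, 309380659882136919246215167807869730856952, 65, (n (n (n (n (n z (n z (n z (cm 52746703839703676303)))) (n (n z (n z (cp 362097811099758296477))) z)) z) z) z)⟩,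
  ⟨1, 336, 71, (n (n (n z (n (n z (cm 3)) z)) (n (n (n z (cp 1)) z) (cm 3))) (n (n z (cp 28)) z))⟩,
  ⟨1, 244272, 71, (n (n (n z (n (n z (cm 191)) z)) (n (n (n z (cp 727)) z) (cm 163))) z)⟩,
  ⟨1, 38224206, 71, (n (n (n z (n (n z (cm 2950)) z)) (n z (cp 8763))) z)⟩,
  ⟨1, 360, 75, (n (n (n (n z (n z (cp 30))) (n (n z (cm 7)) z)) (n (n (n z (cm 8)) z) (cp 3))) (n (n (n (n z (cm 8)) z) z) z))⟩,
  ⟨1, 30360, 75, (n (n (n z (n (n z (cm 53)) z)) (n (n (n z (cm 66)) z) (cp 39))) (n (n (n (n z (cp 253)) z) (cm 49)) z))⟩,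
  ⟨1, 20748024, 75, (n (n (n z (n (n z (cm 1028)) z)) (n (n (n z (cp 424)) z) (cm 1069))) (n (n z (cp 6834)) z))⟩,
  ⟨1, 3704055336, 75, (n (n (n z (n (n z (cm 20516)) z)) (n (n (n z (cm 19834)) z) (cp 90334))) z)⟩,
  ⟨1, 2168708681112, 75, (n (n (n z (n (n z (cm 713286)) z)) (n (n (n z (cp 2000639)) z) z)) z)⟩,
  ⟨1, 312, 83, (n (n (n (n z (n z (cp 26))) (n z (cm 5))) (n z (cp 1))) (n (n (n (n z (cm 11)) z) (cp 2)) z))⟩,
  ⟨1, 45552, 83, (n (n (n z (n z (cp 3))) (n z (cp 6))) (n (n (n (n z (cp 292)) z) (cm 65)) z))⟩,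
  ⟨1, 7149912, 83, (n (n (n z (n z (cm 842))) (n z (cp 4081))) (n (n z (cm 433)) z))⟩,
  ⟨1, 47824656, 83, (n (n (n z (n z (cm 2370))) z) (n (n z (cp 10254)) z))⟩,
  ⟨1, 336, 99, (n (n (n (n z (n z (cm 10))) z) (n z (cp 2))) (n (n (n (n z (cp 28)) z) (cm 3)) (cm 3)))⟩,
  ⟨1, 16128, 99, (n (n (n (n z (n z (cm 10))) z) (n z (cm 39))) (n (n z (cp 192)) (cm 52)))⟩,
  ⟨35, 320256, 99, (n (n (n (n z (n z (cm 10))) z) (n z (cm 39))) (n z (cp 139)))⟩,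
  ⟨1, 79496880, 99, (n (n (n (n z (n z (cp 11915))) z) (n z (cm 1177))) z)⟩,
  ⟨1, 216, 195, (n (n (n (n z (n z (cm 3))) (n (n z (cm 4)) (cp 18))) z) z)⟩,
  ⟨1, 4158, 195, (n (n (n (n z (n z (cp 77))) (n (n z (cm 22)) z)) z) z)⟩,
  ⟨1, 360, 323, (n (n (n (n z (n z (cm 4))) z) (n (n (n z (cm 5)) (cp 30)) (cm 4))) (n (n (n z (cm 2)) (cp 5)) (cm 4)))⟩,
  ⟨1, 12600, 323, (n (n (n (n z (n z (cp 13))) z) (n (n (n z (cm 53)) z) (cm 16))) (n (n (n z (cm 26)) (cm 36)) (cp 175)))⟩,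
  ⟨1, 10659600, 323, (n (n (n (n z (n z (cm 1428))) z) (n (n (n z (cp 177)) z) (cp 186))) (n (n (n z (cp 5076)) (cm 953)) z))⟩,
  ⟨1, 592572240, 323, (n (n (n (n z (n z (cm 1752))) z) (n (n (n z (cm 2414)) z) (cm 9257))) (n (n z (cp 35022)) z))⟩,
  ⟨1, 831782306160, 323, (n (n (n (n z (n z (cp 70799))) z) (n (n (n z (cm 491924)) z) (cp 1319460))) z)⟩,
  ⟨1, 15358175562672, 323, (n (n (n (n z (n z (cm 1485702))) z) (n (n (n z (cp 4849893)) z) z)) z)⟩,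
  ⟨1, 312, 77, (n (n (n z (n (n z (cp 4)) z)) (n (n (n z (cm 6)) z) (cm 5))) (n (n z (cm 4)) (cp 26)))⟩,
  ⟨1, 53976, 77, (n (n (n z (n (n z (cm 78)) z)) (n (n (n z (cm 85)) z) (cp 346))) (n (n z (cm 53)) z))⟩,
  ⟨1, 35154984, 77, (n (n (n z (n (n z (cm 2571)) z)) (n (n (n z (cp 8467)) z) z)) (n (n z (cp 215)) z))⟩,
  ⟨1, 5672348112, 77, (n (n (n z (n (n z (cm 21126)) z)) z) (n (n z (cp 111656)) z))⟩,
  ⟨1, 312, 85, (n (n z (n (n (n z (cm 6)) z) (cp 26))) (n (n (n (n z (cp 4)) z) (cm 4)) (cm 5)))⟩,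
  ⟨1, 53976, 85, (n (n z (n (n (n z (cm 85)) z) z)) (n (n (n (n z (cm 78)) z) (cm 53)) (cp 346)))⟩,
  ⟨1, 35154984, 85, (n (n z (n (n (n z (cp 8467)) z) z)) (n (n (n (n z (cm 2571)) z) (cp 215)) z))⟩,
  ⟨1, 5672348112, 85, (n z (n (n (n (n z (cm 21126)) z) (cp 111656)) z))⟩,
  ⟨1, 336, 101, (n (n z (n (n (n z (cp 1)) z) z)) (n (n (n (n z (cm 3)) z) (cp 28)) (cm 3)))⟩,
  ⟨1, 244272, 101, (n (n z (n (n (n z (cp 727)) z) z)) (n (n (n (n z (cm 191)) z) z) (cm 163)))⟩,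
  ⟨1, 38224206, 101, (n z (n (n (n (n z (cm 2950)) z) z) (cp 8763)))⟩,
  ⟨1, 360, 197, (n (n (n (n z (n z (cm 5))) (n (n z (cp 3)) (cm 4))) (n (n (n z (cp 3)) z) z)) (n (n (n (n z (cm 5)) (cp 30)) z) (cm 4)))⟩,
  ⟨1, 23640, 197, (n (n (n (n z (n z (cm 33))) (n (n z (cm 32)) (cp 15))) (n (n (n z (cp 197)) z) z)) (n (n (n (n z (cm 23)) z) z) (cm 44)))⟩,
  ⟨1, 8917008, 197, (n (n (n (n z (n z (cm 584))) (n (n z (cp 3772)) (cm 836))) z) (n (n (n (n z (cm 748)) z) z) (cp 147)))⟩,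
  ⟨1, 24754474224, 197, (n (n (n (n z (n z (cm 61106))) (n z (cp 182297))) z) (n (n (n (n z (cp 26469)) z) z) (cm 48942)))⟩,
  ⟨1, 372577697115, 197, (n (n (n (n z (n z (cp 40528))) z) z) (n (n (n (n z (cm 217482)) z) z) (cp 681265)))⟩,
  ⟨1, 22124166714390, 197, (n (n (n (n z (n z (cm 1408825))) z) z) (n (n (n (n z (cp 5412521)) z) z) z))⟩,
  ⟨1, 336, 325, (n (n z (n (n z (cm 4)) z)) (n (n (n z (cp 28)) (cm 4)) z))⟩,
  ⟨1, 217392, 325, (n (n z (n (n z (cm 24)) z)) (n (n z (cp 647)) z))⟩,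
  ⟨1, 336, 89, (n (n (n (n z (n z (cm 10))) z) (n (n (n z (cp 28)) z) (cm 5))) (n (n z (cp 2)) (cm 5)))⟩,
  ⟨1, 65520, 89, (n (n (n (n z (n z (cm 16))) z) (n z (cm 49))) (n (n z (cp 390)) (cm 49)))⟩,
  ⟨1, 119808, 89, (n (n (n (n z (n z (cm 87))) z) (n z (cp 512))) (n z (cm 150)))⟩,
  ⟨17, 1108992, 89, (n (n (n (n z (n z (cm 87))) z) z) (n z (cp 361)))⟩,
  ⟨1, 312, 105, (n (n (n (n z (n z (cp 26))) z) (n (n (n z (cm 11)) z) z)) (n (n (n z (cm 5)) (cp 1)) (cp 2)))⟩,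
  ⟨1, 45552, 105, (n (n z (n (n (n z (cp 292)) z) z)) (n (n (n z (cp 3)) (cp 6)) (cm 65)))⟩,
  ⟨1, 7149912, 105, (n z (n (n (n z (cm 842)) (cp 4081)) (cm 433)))⟩,
  ⟨1, 47824656, 105, (n z (n (n (n z (cm 2370)) z) (cp 10254)))⟩,
  ⟨1, 336, 201, (n (n (n (n z (n z (cm 5))) (n (n z (cp 2)) (cm 4))) z) (n (n (n z (cp 28)) z) z))⟩,
  ⟨1, 42000, 201, (n (n (n (n z (n z (cm 63))) (n (n z (cp 250)) (cm 50))) z) z)⟩,
  ⟨1, 11658000, 201, (n (n (n (n z (n z (cp 3886))) (n z (cm 1000))) z) z)⟩,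
  ⟨1, 336, 329, (n (n z (n (n z (cm 4)) z)) (n (n (n (n z (cm 7)) (cm 2)) (cm 3)) (cp 28)))⟩,
  ⟨1, 15120, 329, (n (n z (n (n z (cm 9)) z)) (n (n (n (n z (cp 180)) (cm 54)) (cm 63)) z))⟩,
  ⟨1, 389232, 329, (n (n z (n (n z (cp 901)) z)) (n (n (n z (cm 178)) (cm 7)) z))⟩,
  ⟨1, 5887782720, 329, (n z (n (n (n z (cm 32734)) (cp 108912)) z))⟩,
  ⟨1, 360, 113, (n (n (n (n z (n z (cp 30))) (n (n z (cm 8)) z)) (n (n (n z (cm 8)) z) z)) (n (n (n (n z (cm 7)) z) (cp 3)) z))⟩,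
  ⟨1, 30360, 113, (n (n (n z (n (n z (cm 66)) z)) (n (n (n z (cp 253)) z) z)) (n (n (n (n z (cm 53)) z) (cp 39)) (cm 49)))⟩,
  ⟨1, 20748024, 113, (n (n (n z (n (n z (cp 424)) z)) z) (n (n (n (n z (cm 1028)) z) (cm 1069)) (cp 6834)))⟩,
  ⟨1, 3704055336, 113, (n (n (n z (n (n z (cm 19834)) z)) z) (n (n (n (n z (cm 20516)) z) (cp 90334)) z))⟩,
  ⟨1, 2168708681112, 113, (n (n (n z (n (n z (cp 2000639)) z)) z) (n (n (n (n z (cm 713286)) z) z) z))⟩,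
  ⟨1, 336, 209, (n (n (n z (n (n z (cp 2)) z)) z) (n (n (n (n z (cm 5)) (cp 28)) (cm 4)) z))⟩,
  ⟨1, 42000, 209, (n (n (n z (n (n z (cp 250)) z)) z) (n (n (n (n z (cm 63)) z) (cm 50)) z))⟩,
  ⟨1, 11658000, 209, (n z (n (n (n (n z (cp 3886)) z) (cm 1000)) z))⟩,
  ⟨1, 336, 337, (n (n (n (n z (n z (cm 7))) (n z (cm 3))) (n (n z (cp 28)) z)) (n (n (n z (cm 2)) z) (cm 4)))⟩,
  ⟨1, 15120, 337, (n (n (n (n z (n z (cp 180))) (n z (cm 63))) z) (n (n (n z (cm 54)) z) (cm 9)))⟩,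
  ⟨1, 389232, 337, (n (n (n z (n z (cm 7))) z) (n (n (n z (cm 178)) z) (cp 901)))⟩,
  ⟨1, 5887782720, 337, (n (n (n z (n z (cp 108912))) z) (n (n (n z (cm 32734)) z) z))⟩,
  ⟨1, 216, 225, (n (n (n z (n (n z (cm 4)) z)) z) (n (n (n (n z (cm 3)) z) (cp 18)) z))⟩,
  ⟨1, 4158, 225, (n (n (n z (n (n z (cm 22)) z)) z) (n (n (n (n z (cp 77)) z) z) z))⟩,
  ⟨1, 360, 353, (n (n (n (n z (n z (cm 5))) (n z (cm 4))) (n (n z (cm 4)) (cp 5))) (n (n (n (n z (cm 4)) (cp 30)) z) (cm 2)))⟩,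
  ⟨1, 12600, 353, (n (n (n (n z (n z (cm 53))) (n z (cm 16))) (n (n z (cp 175)) (cm 36))) (n (n (n (n z (cp 13)) z) z) (cm 26)))⟩,
  ⟨1, 10659600, 353, (n (n (n (n z (n z (cp 177))) (n z (cp 186))) (n z (cm 953))) (n (n (n (n z (cm 1428)) z) z) (cp 5076)))⟩,
  ⟨1, 592572240, 353, (n (n (n (n z (n z (cm 2414))) (n z (cm 9257))) (n z (cp 35022))) (n (n (n (n z (cm 1752)) z) z) z))⟩,
  ⟨1, 831782306160, 353, (n (n (n (n z (n z (cm 491924))) (n z (cp 1319460))) z) (n (n (n (n z (cp 70799)) z) z) z))⟩,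
  ⟨1, 15358175562672, 353, (n (n (n (n z (n z (cp 4849893))) z) z) (n (n (n (n z (cm 1485702)) z) z) z))⟩,
  ⟨1, 1368, 95, (n (n (n z (cm 16)) z) (cp 114))⟩,
  ⟨1, 204, 111, (n (n (n z (cp 34)) z) (cm 4))⟩,
  ⟨1, 16, 207, (n (n (n z (cp 8)) (cm 0)) z)⟩,
  ⟨1, 1344, 335, (n (n z (cp 112)) (cm 16))⟩,
  ⟨1, 204, 119, (n (n (n z (cp 34)) z) (cm 4))⟩,
  ⟨1, 162, 215, (n (n (n z (cm 6)) (cp 27)) z)⟩,
  ⟨1, 88, 343, (n (n z (cp 22)) (cm 2))⟩,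
  ⟨1, 168, 231, (n (n (n z (cm 2)) (cm 3)) (cp 14))⟩,
  ⟨3, 280, 231, (n (n (n z (cm 2)) (cp 10)) z)⟩,
  ⟨5, 42, 359, (n (n z (cm 0)) (cp 7))⟩,
  ⟨1, 552, 455, (n (n (n z (cm 11)) (cm 6)) (cp 46))⟩,
  ⟨1, 430008, 455, (n (n (n z (cm 221)) (cp 779)) z)⟩,
  ⟨1, 888, 123, (n (n (n z (cm 7)) (cm 6)) (cp 74))⟩,
  ⟨1, 219336, 123, (n (n (n z (cm 55)) (cp 247)) z)⟩,
  ⟨1, 6, 219, (n (n (n z (cm 0)) (cp 5)) z)⟩,
  ⟨1, 888, 347, (n (n (n z (cm 14)) (cm 6)) (cp 74))⟩,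
  ⟨1, 4293480, 347, (n (n (n z (cm 400)) (cp 4835)) z)⟩,
  ⟨1, 528, 235, (n (n (n z (cp 44)) (cm 2)) z)⟩,
  ⟨1, 1440, 363, (n (n (n z (cm 27)) (cm 10)) (cp 120))⟩,
  ⟨1, 11921760, 363, (n (n (n z (cm 1627)) (cp 8279)) z)⟩,
  ⟨1, 162, 459, (n (n (n z (cp 27)) (cm 1)) z)⟩,
  ⟨1, 528, 243, (n (n (n z (cp 44)) (cm 2)) z)⟩,
  ⟨1, 1440, 371, (n (n (n z (cm 27)) (cm 10)) (cp 120))⟩,
  ⟨1, 11921760, 371, (n (n (n z (cm 1627)) (cp 8279)) z)⟩,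
  ⟨1, 552, 467, (n (n (n z (cp 46)) (cm 8)) z)⟩,
  ⟨1, 33, 483, (n (n (n z (cm 1)) (cp 11)) z)⟩,
  ⟨1, 1368, 125, (n (n (n z (cm 16)) z) (cp 114))⟩,
  ⟨1, 168, 221, (n (n (n z (cm 4)) (cm 2)) (cp 14))⟩,
  ⟨17, 1848, 221, (n (n (n z (cm 4)) (cp 11)) z)⟩,
  ⟨5, 42, 349, (n (n z (cm 0)) (cp 7))⟩,
  ⟨1, 162, 237, (n (n (n z (cm 6)) z) (cp 27))⟩,
  ⟨1, 88, 365, (n (n z (cm 2)) (cp 22))⟩,
  ⟨1, 33, 461, (n (n (n z (cm 0)) z) (cp 11))⟩,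
  ⟨1, 16, 245, (n (n (n z (cp 8)) z) (cm 0))⟩,
  ⟨1, 1344, 373, (n (n z (cm 16)) (cp 112))⟩,
  ⟨1, 33, 469, (n (n (n z (cp 11)) z) (cm 0))⟩,
  ⟨1, 696, 485, (n (n (n z (cm 11)) (cm 2)) (cp 58))⟩,
  ⟨1, 720360, 485, (n (n (n z (cm 441)) (cp 1035)) z)⟩,
  ⟨1, 6, 249, (n (n (n z (cm 0)) z) (cp 5))⟩,
  ⟨1, 792, 377, (n (n (n z (cm 3)) (cm 6)) (cp 66))⟩,
  ⟨1, 3829320, 377, (n (n (n z (cm 1017)) (cp 4835)) z)⟩,
  ⟨1, 33, 473, (n (n (n z (cm 1)) z) (cp 11))⟩,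
  ⟨1, 552, 489, (n (n (n z (cm 8)) z) (cp 46))⟩,
  ⟨1, 162, 497, (n (n (n z (cm 1)) z) (cp 27))⟩]

theorem i12_0_6 : Ineq 10 can12 0 6 :=
  ineq_of_check (K := 254503075796011036464440792137163185475298168123807054871919331734626353655288386622412593511960539655358122677062721738187868707520704896309625019306962281660834437092256765670155259856835283077594671085049941553238986258504265806404723764676897904903382681844288173680194746500702524300146154710944252031999) (cs := q12_0_6) (by decide +kernel)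

end Pool.Agent.Lib.MP_c69b6d_co
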