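import Pool.Agent.Lib.MP_c69b6d_co.Cert0

namespace Pool.Agent.Lib.MP_c69b6d_co

open P2

set_option maxRecDepth 100000

def q12_0_7 : List Sq := []

theorem i12_0_7 : Ineq 10 can12 0 7 :=
  ineq_of_check (K := 0) (cs := q12_0_7) (by decide +kernel)

def q12_0_8 : List Sq := [⟨1, 4, 257, (n (n (n z (n (n z (n z (cm 0))) (n (n (n z (cm 1)) (cm 1)) z))) z) (n (n (n (n z (n (n z (cp 2)) z)) (n (n z (cm 0)) z)) z) z))⟩,
  ⟨3, 4, 257, (n (n (n z (n (n z (n z (cp 1))) z)) z) (n (n (n z (n (n z (cm 0)) z)) z) z))⟩,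
  ⟨1, 2, 267, (n (n (n (n z (n z (cm 0))) z) z) (n (n (n (n z (cp 2)) (cm 0)) z) z))⟩,
  ⟨3, 2, 267, (n (n (n (n z (n z (cm 0))) z) z) (n (n (n z (cp 1)) z) z))⟩,
  ⟨1, 2, 275, (n (n (n (n z (n z (cp 2))) z) z) (n (n (n (n z (cm 0)) (cm 0)) z) z))⟩,
  ⟨3, 2, 275, (n z (n (n (n (n z (cp 1)) (cm 0)) z) z))⟩,
  ⟨1, 2, 291, (n (n (n (n z (n z (cm 0))) z) z) (n (n (n (n z (cm 0)) (cp 2)) z) z))⟩,
  ⟨3, 2, 291, (n (n (n (n z (n z (cm 0))) z) z) (n (n (n (n z (cp 1)) z) z) z))⟩,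
  ⟨1, 2, 269, (n (n (n z (n z (cm 0))) (n (n (n z (cm 0)) (cp 2)) z)) z)⟩,
  ⟨1, 6, 269, (n (n (n z (n z (cm 0))) (n (n (n z (cp 3)) z) z)) z)⟩,
  ⟨1, 2, 277, (n (n z (n (n (n z (cm 0)) (cp 2)) z)) (n (n (n z (cm 0)) z) z))⟩,
  ⟨1, 6, 277, (n (n z (n (n (n z (cp 3)) z) z)) (n (n (n z (cm 0)) z) z))⟩,
  ⟨1, 2, 325, (n (n (n z (n (n z (cm 0)) z)) z) (n (n (n (n z (cp 2)) z) z) z))⟩,
  ⟨1, 2, 325, (n (n (n (n z (n z (cm 0))) z) (n (n (n z (cp 2)) z) z)) z)⟩,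
  ⟨1, 2, 389, (n (n (n (n z (n z (cp 2))) z) z) (n (n (n (n z (cm 0)) z) z) z))⟩,
  ⟨1, 2, 281, (n (n (n (n z (n z (cm 0))) z) (n (n (n z (cp 2)) (cm 0)) z)) z)⟩,
  ⟨3, 2, 281, (n (n (n (n z (n z (cp 1))) z) (n (n z (cm 0)) z)) z)⟩,
  ⟨1, 2, 297, (n (n (n (n z (n z (cp 2))) z) (n (n (n z (cm 0)) (cm 0)) z)) z)⟩,
  ⟨3, 2, 297, (n (n z (n (n (n z (cp 1)) (cm 0)) z)) z)⟩,
  ⟨1, 2, 393, (n (n (n (n z (n z (cm 0))) (n (n z (cp 2)) z)) z) z)⟩,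
  ⟨1, 2, 305, (n (n (n (n z (n z (cm 0))) z) (n (n (n z (cp 2)) (cm 0)) z)) z)⟩,
  ⟨3, 2, 305, (n (n (n (n z (n z (cm 0))) z) (n (n z (cp 1)) z)) z)⟩,
  ⟨1, 2, 401, (n (n (n z (n (n z (cp 2)) z)) z) (n (n (n (n z (cm 0)) z) z) z))⟩,
  ⟨1, 5, 287, (n (n (n z (cm 0)) (cp 5)) z)⟩,
  ⟨1, 5, 317, (n (n (n z (cm 0)) (cp 5)) z)⟩,
  ⟨1, 6, 461, (n (n (n z (cm 0)) (cp 6)) z)⟩,
  ⟨1, 6, 469, (n (n z (cp 6)) (cm 0))⟩]

theorem i12_0_8 : Ineq 10 can12 0 8 :=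
  ineq_of_check (K := 59) (cs := q12_0_8) (by decide +kernel)

def q12_1_2 : List Sq := [⟨1, 36, 6, (n (n (n (n z (n (n z (n z (cp 1))) (n (n z (cp 2)) z))) (n (n (n z (n z (cp 6))) (n (n z (cp 6)) z)) (n z (cm 1)))) (n (n z (n (n z (cm 0)) (cm 0))) z)) (n (n (n z (n (n (n z (cp 1)) (cm 1)) z)) (n (n (n (n z (cp 6)) z) (cp 3)) z)) (n (n (n (n z (cm 5)) (cm 2)) (cm 0)) z)))⟩,
  ⟨1, 36, 6, (n (n (n z (n z (n (n z (cm 0)) (cm 0)))) z) (n (n (n z (n (n (n z (cm 0)) z) z)) (n (n z (cm 0)) (cp 6))) (n (n z (cm 1)) z)))⟩,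
  ⟨1, 1260, 6, (n (n (n (n z (n (n z (n z (cp 35))) (n (n z (cm 7)) z))) (n z (n (n z (cm 5)) (cp 2)))) (n (n z (n (n z (cm 10)) (cp 1))) z)) (n (n (n z (n (n (n z (cm 6)) (cm 9)) z)) (n (n z (cp 9)) z)) (n (n (n z (cp 3)) (cp 1)) z)))⟩,
  ⟨1, 42840, 6, (n (n (n (n z (n z (n (n z (cm 21)) z))) (n z (n (n z (cp 1)) (cm 81)))) (n (n z (n (n z (cm 38)) (cp 204))) z)) (n (n (n z (n (n (n z (cp 42)) (cp 25)) z)) (n (n z (cm 18)) z)) (n (n (n z (cm 17)) (cm 40)) z)))⟩,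
  ⟨1, 1413720, 6, (n (n (n (n z (n z (n (n z (cp 158)) z))) (n z (n (n z (cp 1155)) (cm 223)))) (n (n z (n (n z (cm 470)) z)) z)) (n (n (n z (n (n (n z (cp 128)) (cm 58)) z)) (n (n z (cm 184)) z)) (n (n (n z (cm 185)) (cm 60)) z)))⟩,
  ⟨1, 1415008980, 6, (n (n (n (n z (n z (n (n z (cp 1982)) z))) (n z (n z (cm 1420)))) (n (n z (n (n z (cm 10118)) z)) z)) (n (n (n z (n (n (n z (cm 5952)) (cm 1090)) z)) (n (n z (cm 229)) z)) (n (n (n z (cm 4613)) (cp 34031)) z)))⟩,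
  ⟨1, 34510292604, 6, (n (n (n (n z (n z (n (n z (cp 50829)) z))) (n z (n z (cm 6754)))) (n (n z (n (n z (cp 1016)) z)) z)) (n (n (n z (n (n (n z (cp 169014)) (cm 4850)) z)) (n (n z (cm 5451)) z)) (n (n (n z (cm 112626)) z) z)))⟩,
  ⟨1, 681538476132, 6, (n (n (n (n z (n z (n (n z (cm 48668)) z))) (n z (n z (cp 672073)))) (n (n z (n (n z (cm 31101)) z)) z)) (n (n (n z (n (n z (cm 59606)) z)) (n (n z (cm 110577)) z)) (n (n (n z (cm 96708)) z) z)))⟩,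
  ⟨1, 11838060496104, 6, (n (n (n (n z (n z (n (n z (cp 2935708)) z))) z) (n (n z (n (n z (cp 116063)) z)) z)) (n (n (n z (n (n z (cp 288190)) z)) (n (n z (cm 395780)) z)) (n (n (n z (cm 1225728)) z) z)))⟩,
  ⟨1, 60401775229464, 6, (n (n z (n (n z (n (n z (cm 1347132)) z)) z)) (n (n (n z (n (n z (cp 6858286)) z)) (n (n z (cm 3753456)) z)) (n (n (n z (cp 251387)) z) z)))⟩,
  ⟨1, 61252051811172, 6, (n (n z (n (n z (n (n z (cp 5954068)) z)) z)) (n (n z (n (n z (cm 34878)) z)) (n (n (n z (cp 151222)) z) z)))⟩,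
  ⟨1, 114849345409164, 6, (n z (n (n z (n (n z (cp 6429741)) z)) (n (n (n z (cm 534513)) z) z)))⟩,
  ⟨1, 60, 39, (n (n z (n z (cm 0))) (n (n (n z (cp 10)) (cm 2)) z))⟩,
  ⟨1, 4740, 39, (n (n z (n z (cp 79))) (n (n z (cm 32)) z))⟩,
  ⟨1, 84, 71, (n (n (n z (n (n z (cm 0)) z)) (n z (cp 14))) (n (n z (cm 5)) z))⟩,
  ⟨2, 105, 71, (n (n (n z (n (n z (cm 2)) z)) z) (n (n z (cp 10)) z))⟩,
  ⟨1, 84, 135, (n (n (n z (n (n z (cm 1)) z)) (n z (cp 14))) (n (n z (cm 4)) z))⟩,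
  ⟨1, 14364, 135, (n (n (n z (n (n z (cm 79)) z)) z) (n (n z (cp 171)) z))⟩,
  ⟨1, 60, 30, (n (n z (n (n z (cm 1)) (cm 0))) (n (n z (cm 2)) (cp 10)))⟩,
  ⟨11, 540, 30, (n (n z (n (n z (cm 1)) (cp 9))) (n (n z (cm 2)) z))⟩,
  ⟨1, 1107, 30, (n (n z (n (n z (cp 41)) z)) (n (n z (cm 5)) z))⟩,
  ⟨1, 15, 270, (n (n (n z (n (n z (cp 5)) (cm 0))) z) (n (n z (cm 0)) z))⟩,
  ⟨1, 285, 270, (n (n (n z (n z (cp 19))) z) (n (n z (cm 5)) z))⟩,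
  ⟨1, 60, 54, (n (n (n (n z (n z (cp 10))) (n (n z (cm 2)) z)) z) (n (n (n (n z (cm 1)) z) z) z))⟩,
  ⟨1, 1440, 54, (n (n (n z (n (n z (cm 12)) z)) z) (n (n (n (n z (cp 48)) z) z) z))⟩,
  ⟨1, 84, 278, (n (n (n z (n (n z (cm 2)) (cm 2))) z) (n (n z (cp 14)) z))⟩,
  ⟨1, 15708, 278, (n (n (n z (n (n z (cp 187)) (cm 64))) z) z)⟩,
  ⟨1, 9, 102, (n z (n (n z (cm 0)) (cp 3)))⟩,
  ⟨1, 96, 294, (n (n (n z (n (n z (cm 2)) (cp 16))) z) (n (n z (cm 2)) z))⟩,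
  ⟨1, 1952, 294, (n (n (n z (n (n z (cm 18)) z)) z) (n (n z (cp 61)) z))⟩,
  ⟨1, 84, 198, (n (n (n (n z (n z (cm 3))) (n z (cm 4))) (n (n z (cp 14)) z)) z)⟩,
  ⟨1, 1596, 198, (n (n (n (n z (n z (cm 15))) (n z (cp 57))) z) z)⟩,
  ⟨1, 12, 63, (n (n z (cm 0)) (cp 6))⟩,
  ⟨1, 12, 303, (n (n (n z (cp 4)) (cm 0)) z)⟩,
  ⟨1, 60, 311, (n (n (n z (cp 10)) (cm 2)) z)⟩,
  ⟨2, 15, 231, (n (n z (cm 0)) (cp 5))⟩,
  ⟨1, 12, 318, (n (n (n z (cm 0)) (cm 0)) (cp 4))⟩,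
  ⟨5, 36, 318, (n (n (n z (cm 0)) (cp 3)) z)⟩,
  ⟨1, 36, 246, (n (n (n z (cp 12)) z) (cm 0))⟩]

theorem i12_1_2 : Ineq 10 can12 1 2 :=
  ineq_of_check (K := 339971357029535726432308231184943827365072462488479) (cs := q12_1_2) (by decide +kernel)

def q12_1_3 : List Sq := [⟨1, 144, 10, (n (n (n z (n z (n (n z (cp 2)) z))) (n (n (n (n z (n z (cp 1))) (n (n z (cp 1)) z)) (n (n z (cm 2)) (cm 1))) z)) (n (n (n (n (n z (n z (cp 1))) (n (n z (cp 1)) (cm 0))) (n (n (n z (cm 3)) z) z)) (n (n (n (n z (cp 1)) z) z) (cm 0))) (n (n (n (n (n z (cm 3)) (cm 0)) (cm 2)) (cp 12)) z)))⟩,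
  ⟨1, 2160, 10, (n (n (n (n z (n (n z (n z (cm 3))) (n (n z (cp 4)) z))) (n (n (n z (n z (cp 4))) (n (n z (cp 4)) z)) (n (n z (cp 10)) z))) (n (n (n (n z (n z (cp 1))) (n (n z (cm 2)) z)) (n (n z (cp 1)) (cm 13))) z)) (n (n (n (n (n z (n z (cp 1))) (n (n z (cm 2)) (cm 8))) z) (n (n (n (n z (cp 5)) z) (cm 15)) (cp 11))) (n (n (n (n (n z (cm 7)) (cm 8)) (cp 45)) z) z)))⟩,
  ⟨1, 30960, 10, (n (n (n (n (n z (n z (n z (cm 29)))) (n (n z (n z (cp 27))) (n (n z (cm 11)) (cp 15)))) (n (n (n z (n z (cm 11))) (n (n z (cp 18)) z)) (n (n z (cm 109)) (cp 45)))) (n (n (n (n z (n z (cm 27))) (n (n z (cp 14)) z)) (n (n z (cm 32)) (cm 12))) z)) (n (n (n (n (n z (n z (cm 12))) (n (n z (cm 0)) (cp 97))) (n (n (n z (cp 10)) z) z)) (n (n (n (n z (cp 5)) z) (cm 26)) (cm 112))) (n (n (n (n (n z (cm 25)) (cp 172)) z) z) z)))⟩,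
  ⟨1, 72242064, 10, (n (n (n (n (n z (n z (n z (cp 540)))) (n (n z (n z (cp 73))) (n (n z (cp 44)) (cp 117)))) (n (n (n z (n z (cp 44))) (n (n z (cp 278)) z)) (n (n z (cp 2)) (cm 422)))) (n (n (n (n z (n z (cm 2247))) (n (n z (cm 2057)) z)) (n (n z (cm 222)) (cm 324))) z)) (n (n (n (n (n z (n z (cm 1356))) (n (n z (cm 626)) (cp 189))) (n (n (n z (cm 1727)) z) z)) (n (n (n (n z (cm 1852)) z) (cp 13)) (cp 13))) (n (n (n (n (n z (cp 7778)) z) z) z) z)))⟩,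
  ⟨1, 4570103904, 10, (n (n (n (n (n z (n z (n z (cp 5327)))) (n (n z (n z (cm 4457))) (n (n z (cm 5989)) (cm 2669)))) (n (n (n z (n z (cp 1788))) (n (n z (cp 4226)) z)) (n (n z (cp 13516)) (cm 7996)))) (n (n (n (n z (n z (cm 1549))) (n (n z (cm 899)) z)) (n (n z (cm 5879)) (cp 935))) z)) (n (n (n (n (n z (n z (cm 4232))) (n (n z (cp 9522)) (cm 25552))) (n (n (n z (cp 843)) z) z)) (n (n (n (n z (cm 15549)) z) (cm 9370)) (cp 48964))) z))⟩,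
  ⟨1, 1158222267552, 10, (n (n (n (n (n z (n z (n z (cp 79905)))) (n (n z (n z (cp 80022))) (n (n z (cp 106006)) (cp 8914)))) (n (n (n z (n z (cm 266963))) (n (n z (cm 132465)) z)) (n (n z (cm 91043)) (cm 364774)))) (n (n (n (n z (n z (cm 23249))) (n (n z (cp 84428)) z)) (n (n z (cm 39235)) (cm 34938))) z)) (n (n (n (n (n z (n z (cp 83397))) (n (n z (cm 297845)) (cm 138474))) (n (n (n z (cp 110573)) z) z)) (n (n (n (n z (cm 282213)) z) (cp 985607)) z)) z))⟩,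
  ⟨1, 113512263571728, 10, (n (n (n (n (n z (n z (n z (cp 665770)))) (n (n z (n z (cp 131294))) (n (n z (cm 8803)) (cm 74916)))) (n (n (n z (n z (cm 2741852))) (n (n z (cm 2242451)) z)) (n (n z (cp 54217)) (cm 601721)))) (n (n (n (n z (n z (cp 118226))) (n (n z (cp 541624)) z)) (n (n z (cm 135294)) (cm 574872))) z)) (n (n (n (n (n z (n z (cm 2397575))) (n (n z (cm 1649063)) (cp 744416))) (n (n (n z (cm 1833419)) z) z)) (n (n (n (n z (cp 9597492)) z) z) z)) z))⟩,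
  ⟨1, 74058048878832, 10, (n (n (n (n (n z (n z (n z (cp 1837109)))) (n (n z (n z (cm 1711597))) (n (n z (cm 1640169)) (cm 2434066)))) (n (n (n z (n z (cm 136289))) (n (n z (cm 225704)) z)) (n (n z (cp 942545)) (cp 818292)))) (n (n (n (n z (n z (cm 120298))) (n (n z (cm 241056)) z)) (n (n z (cp 76492)) (cp 173530))) z)) (n (n (n (n (n z (n z (cm 2044790))) (n (n z (cm 1473410)) (cm 236392))) (n (n (n z (cp 7716396)) z) z)) z) z))⟩,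
  ⟨1, 4167770270054544, 10, (n (n (n (n (n z (n z (n z (cm 3078924)))) (n (n z (n z (cp 4030982))) (n (n z (cp 2606834)) (cm 14054048)))) (n (n (n z (n z (cm 3107473))) (n (n z (cm 1729594)) z)) (n (n z (cm 18439492)) (cp 2625172)))) (n (n (n (n z (n z (cp 812951))) (n (n z (cm 4008886)) z)) (n (n z (cp 12426940)) (cm 2339677))) z)) (n (n (n (n (n z (n z (cm 3004116))) (n (n z (cm 13306756)) (cp 45009897))) z) z) z))⟩,
  ⟨1, 2077405194105635472, 10, (n (n (n (n (n z (n z (n z (cm 189756790)))) (n (n z (n z (cp 145629088))) (n (n z (cm 371298310)) (cm 2750987)))) (n (n (n z (n z (cp 76762124))) (n (n z (cm 259651563)) z)) (n (n z (cm 18001134)) (cm 102795864)))) (n (n (n (n z (n z (cp 91603501))) (n (n z (cm 158785701)) z)) (n (n z (cm 36811776)) (cp 83019014))) z)) (n (n (n (n (n z (n z (cm 387683704))) (n (n z (cp 1282066916)) z)) z) z) z))⟩,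
  ⟨1, 182277743816734536048, 10, (n (n (n (n (n z (n z (n z (cm 2196721472)))) (n (n z (n z (cm 2713878279))) (n (n z (cp 531344771)) (cp 142810360)))) (n (n (n z (n z (cm 1817085163))) (n (n z (cp 67923884)) z)) (n (n z (cm 539638144)) (cm 937437498)))) (n (n (n (n z (n z (cm 1963554004))) (n (n z (cp 159204446)) z)) (n (n z (cp 1298154309)) (cm 995230313))) z)) (n (n (n (n (n z (n z (cp 11847908869))) z) z) z) z))⟩,
  ⟨1, 278118712399972491583344, 10, (n (n (n (n (n z (n z (n z (cp 38338424234)))) (n (n z (n z (cp 33382651306))) (n (n z (cm 161979117595)) (cp 3391760577)))) (n (n (n z (n z (cm 56282563522))) (n (n z (cp 111174690888)) z)) (n (n z (cp 15007320635)) (cm 187790356421)))) (n (n (n (n z (n z (cp 38901585678))) (n (n z (cm 188390659115)) z)) (n (n z (cm 162281214316)) (cp 489043248537))) z)) z)⟩,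
  ⟨1, 25843354936712517404168352, 10, (n (n (n (n (n z (n z (n z (cp 618032082475)))) (n (n z (n z (cm 1609204905522))) (n (n z (cp 217588183622)) (cm 145976271329)))) (n (n (n z (n z (cp 291561008771))) (n (n z (cm 9908936789)) z)) (n (n z (cm 975424681855)) (cm 528735322463)))) (n (n (n (n z (n z (cm 1856691091079))) (n (n z (cp 86868278205)) z)) (n (n z (cp 4403726905208)) z)) z)) z)⟩,
  ⟨1, 2150820021522867954231060576, 10, (n (n (n (n (n z (n z (n z (cm 6940882953398)))) (n (n z (n z (cp 888129319071))) (n (n z (cm 11736295806317)) (cp 3174771874682)))) (n (n (n z (n z (cp 4934696195633))) (n (n z (cm 9006857675305)) z)) (n (n z (cm 1406936030263)) (cp 1843061048216)))) (n (n (n (n z (n z (cm 13972654750463))) (n (n z (cp 40700753169231)) z)) z) z)) z)⟩,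
  ⟨1, 16990928039756294588176003728, 10, (n (n (n (n (n z (n z (n z (cm 31264842338381)))) (n (n z (n z (cm 33955501078786))) (n (n z (cm 4926627275641)) (cp 17908543766262)))) (n (n (n z (n z (cm 23052244473188))) (n (n z (cp 7309535000672)) z)) (n (n z (cm 4848605155939)) (cm 11347530982509)))) (n (n (n (n z (n z (cp 104364948537372))) z) z) z)) z)⟩,
  ⟨1, 248079201916193314036874709264, 10, (n (n (n (n (n z (n z (n z (cp 43416540738708)))) (n (n z (n z (cp 24055072564325))) (n (n z (cm 87721800108453)) (cm 143078182482489)))) (n (n (n z (n z (cm 30180470353500))) (n (n z (cm 99479533410447)) z)) (n (n z (cm 68355951253085)) (cp 396172606149402)))) z) z)⟩,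
  ⟨1, 7545338361768072013077037494960, 10, (n (n (n (n (n z (n z (n z (cp 118277256142986)))) (n (n z (n z (cm 308928306565464))) (n (n z (cm 98125656897975)) (cm 428533177858791)))) (n (n (n z (n z (cm 873822643472538))) (n (n z (cm 99030891259545)) z)) (n (n z (cp 1587131939599290)) z))) z) z)⟩,
  ⟨1, 2472345798909711479622170306594640, 10, (n (n (n (n (n z (n z (n z (cm 9385107974733155)))) (n (n z (n z (cp 1881153322525045))) (n (n z (cm 12510664394380783)) (cp 211582123890202)))) (n (n (n z (n z (cm 12309028910436190))) (n (n z (cp 43270676166516706)) z)) z)) z) z)⟩,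
  ⟨1, 165143038605413141123865909600781080, 10, (n (n (n (n (n z (n z (n z (cm 110840601702340651)))) (n (n z (n z (cm 106310196503457555))) (n (n z (cm 34733946559505079)) (cp 15732233632503509)))) (n (n (n z (n z (cp 318042635405673265))) z) z)) z) z)⟩,
  ⟨1, 42564374639128187662988656840603829880, 10, (n (n (n (n (n z (n z (n z (cm 1342851979452393343)))) (n (n z (n z (cm 1466050310784321816))) (n (n z (cm 1811590197536959159)) (cp 5576345472365678933)))) z) z) z)⟩,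
  ⟨1, 2341171259829327715260838539349065578976, 10, (n (n (n (n (n z (n z (n z (cm 14811906208849164888)))) (n (n z (n z (cm 14135471258250678918))) (n (n z (cp 34986642408116466056)) z))) z) z) z)⟩,
  ⟨1, 687212244397914778622114225586997889568, 10, (n (n (n (n (n z (n z (n z (cm 9838540123423730000)))) (n (n z (n z (cp 18005287561364159609))) z)) z) z) z)⟩,
  ⟨1, 78, 15, (n (n (n (n z (n z (cm 2))) (n (n z (cp 13)) z)) z) z)⟩,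
  ⟨1, 78, 27, (n (n (n (n z (n z (cp 13))) (n (n z (cm 2)) z)) z) z)⟩,
  ⟨1, 360, 43, (n (n (n (n z (n z (cm 4))) (n (n z (cp 30)) (cm 2))) (n z (cm 3))) (n (n (n z (cp 4)) (cm 5)) z))⟩,
  ⟨1, 11736, 43, (n (n (n (n z (n z (cp 163))) (n z (cm 32))) (n z (cp 14))) (n (n (n z (cm 31)) (cp 6)) z))⟩,
  ⟨1, 153565560, 43, (n (n (n z (n z (cm 4015))) (n z (cp 15702))) (n (n (n z (cm 6)) (cm 5611)) z))⟩,
  ⟨1, 2644672158, 43, (n (n (n z (n z (cm 8473))) z) (n (n (n z (cm 11802)) (cp 56143)) z))⟩,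
  ⟨1, 2086020113640, 43, (n (n (n z (n z (cm 352103))) z) (n (n (n z (cp 1548145)) z) z))⟩,
  ⟨1, 360, 75, (n (n (n z (n (n z (cm 3)) z)) (n (n (n z (cm 8)) z) (cp 30))) (n (n (n (n z (cp 5)) z) (cm 10)) z))⟩,
  ⟨1, 336, 75, (n (n (n (n z (n z (cp 28))) (n (n z (cm 3)) z)) (n (n (n z (cm 2)) z) z)) (n (n (n (n z (cm 3)) z) (cp 2)) z))⟩,
  ⟨1, 5874960, 75, (n (n (n z (n (n z (cm 927)) z)) (n (n (n z (cp 3497)) z) z)) (n (n (n (n z (cm 969)) z) (cp 268)) z))⟩,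
  ⟨1, 140913685224, 75, (n (n (n z (n (n z (cm 99525)) z)) z) (n (n (n (n z (cp 559661)) z) (cm 175198)) z))⟩,
  ⟨1, 79169058535272, 75, (n (n (n z (n (n z (cm 5684954)) z)) z) (n (n z (cp 11788246)) z))⟩,
  ⟨1, 336, 139, (n (n (n (n z (n z (cm 2))) (n (n z (cm 5)) z)) (n (n (n z (cp 28)) z) (cm 3))) (n (n (n (n z (cm 6)) z) (cp 4)) z))⟩,
  ⟨1, 5424, 139, (n (n (n (n z (n z (cm 18))) (n (n z (cm 13)) z)) (n z (cp 8))) (n (n (n (n z (cp 113)) z) (cm 39)) z))⟩,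
  ⟨1, 201818904, 139, (n (n (n (n z (n z (cp 21262))) (n (n z (cm 4137)) z)) (n z (cm 72))) (n (n z (cp 591)) z))⟩,
  ⟨1, 140330475720, 139, (n (n (n z (n (n z (cm 196383)) z)) (n z (cm 100314))) (n (n z (cp 550005)) z))⟩,
  ⟨1, 79732962038520, 139, (n (n (n z (n (n z (cp 12080642)) z)) (n z (cm 1271574))) z)⟩,
  ⟨1, 336, 267, (n (n (n (n z (n z (cp 28))) z) (n (n z (cm 5)) z)) (n (n (n (n z (cm 6)) (cm 4)) z) z))⟩,
  ⟨1, 236208, 267, (n (n z (n (n z (cm 169)) z)) (n (n (n (n z (cm 230)) (cp 703)) z) z))⟩,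
  ⟨7, 2215856, 267, (n (n z (n (n z (cm 116)) z)) (n (n (n (n z (cp 788)) z) z) z))⟩,
  ⟨1, 360, 30, (n (n (n (n z (n z (cm 6))) (n (n z (cp 30)) z)) (n (n z (cp 2)) (cm 6))) (n (n (n (n z (cm 5)) z) (cm 4)) (cp 2)))⟩,
  ⟨1, 8640, 30, (n (n (n (n z (n z (cm 41))) z) (n (n z (cp 12)) (cp 3))) (n (n (n (n z (cp 144)) z) (cm 24)) (cm 22)))⟩,
  ⟨1, 165312, 30, (n (n (n (n z (n z (cp 574))) z) (n (n z (cm 139)) (cp 13))) (n (n z (cm 38)) (cp 27)))⟩,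
  ⟨1, 93196541088, 30, (n (n z (n (n z (cm 13355)) (cm 145178))) (n (n z (cp 375841)) (cm 111354)))⟩,
  ⟨1, 26490719916168, 30, (n (n z (n (n z (cm 1390944)) (cp 5873654))) (n z (cm 1332193)))⟩,
  ⟨5, 1104920519146104, 30, (n (n z (n (n z (cp 15676223)) z)) (n z (cm 5293925)))⟩,
  ⟨1, 78, 46, (n (n (n (n z (n z (cp 13))) (n (n z (cm 2)) z)) z) (n (n (n (n z (cm 2)) z) z) z))⟩,
  ⟨4, 195, 46, (n (n (n z (n (n z (cp 10)) z)) z) (n (n (n (n z (cm 2)) z) z) z))⟩,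
  ⟨1, 312, 78, (n (n (n (n z (n z (cm 4))) (n z (cp 1))) z) (n (n (n (n z (cp 26)) (cm 1)) z) z))⟩,
  ⟨1, 210600, 78, (n (n (n (n z (n z (cm 254))) (n z (cp 675))) z) (n (n (n z (cm 127)) z) z))⟩,
  ⟨1, 567000, 78, (n (n (n (n z (n z (cp 1050))) z) z) (n (n (n z (cm 100)) z) z))⟩,
  ⟨1, 336, 142, (n (n (n (n z (n z (cm 3))) (n z (cm 8))) z) (n (n (n (n z (cm 4)) (cp 28)) z) z))⟩,
  ⟨1, 1792, 142, (n (n (n (n z (n z (cp 64))) (n z (cm 23))) z) (n (n (n (n z (cm 10)) z) z) z))⟩,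
  ⟨11, 117504, 142, (n (n (n z (n z (cm 7))) z) (n (n (n (n z (cp 153)) z) z) z))⟩,
  ⟨1, 312, 270, (n (n (n z (n (n z (cm 6)) (cp 4))) z) (n (n (n (n z (cp 26)) (cm 3)) (cm 4)) z))⟩,
  ⟨1, 51480, 270, (n (n (n z (n (n z (cp 38)) (cm 69))) z) (n (n (n z (cp 330)) (cm 74)) z))⟩,
  ⟨1, 23233320, 270, (n (n (n z (n (n z (cp 5867)) (cm 1419))) z) (n (n z (cm 1544)) z))⟩,
  ⟨1, 7105030872, 270, (n (n (n z (n z (cp 100918))) z) (n (n z (cm 32782)) z))⟩,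
  ⟨7, 48, 58, (n (n (n (n z (n z (cp 4))) (n (n z (cm 0)) z)) z) (n (n (n (n z (cm 0)) z) z) z))⟩,
  ⟨35, 144, 58, (n (n (n z (n (n z (cp 3)) z)) z) (n (n (n (n z (cm 0)) z) z) z))⟩,
  ⟨1, 336, 90, (n (n (n (n z (n z (cp 28))) (n z (cm 6))) z) (n (n (n (n z (cm 4)) z) z) z))⟩,
  ⟨1, 236208, 90, (n (n (n z (n z (cm 34))) z) (n (n (n (n z (cp 703)) z) z) z))⟩,
  ⟨1, 336, 154, (n (n (n (n z (n z (cp 28))) (n z (cm 5))) z) (n (n (n (n z (cm 3)) (cm 2)) z) z))⟩,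
  ⟨1, 4032, 154, (n (n (n z (n z (cp 4))) z) (n (n (n (n z (cp 96)) (cm 18)) z) z))⟩,
  ⟨1, 28800, 154, (n (n (n z (n z (cp 200))) z) (n (n (n z (cm 76)) z) z))⟩,
  ⟨1, 336, 282, (n (n (n z (n (n z (cp 28)) (cm 6))) z) (n (n (n z (cp 3)) (cm 6)) z))⟩,
  ⟨1, 4656, 282, (n (n (n z (n z (cp 97))) z) (n (n (n z (cm 20)) (cm 22)) z))⟩,
  ⟨1, 589566, 282, (n z (n (n (n z (cm 314)) (cp 1013)) z))⟩,
  ⟨1, 336, 106, (n (n (n (n z (n z (cm 4))) z) z) (n (n (n (n z (cp 28)) z) (cm 3)) (cm 4)))⟩,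
  ⟨1, 236208, 106, (n (n (n (n z (n z (cp 703))) z) z) (n (n z (cm 19)) (cm 24)))⟩,
  ⟨1, 25316436, 106, (n z (n (n z (cm 2368)) (cp 6002)))⟩,
  ⟨1, 336, 170, (n (n (n (n z (n z (cm 4))) z) z) (n (n (n (n z (cp 28)) z) z) (cm 5)))⟩,
  ⟨1, 236208, 170, (n (n (n (n z (n z (cp 703))) z) z) (n z (cm 29)))⟩,
  ⟨1, 336, 298, (n (n (n (n z (n z (cp 2))) (n (n z (cm 6)) (cm 6))) (n (n (n z (cp 2)) (cp 2)) z)) (n (n z (cp 28)) (cm 7)))⟩,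
  ⟨1, 5040, 298, (n (n (n (n z (n z (cm 17))) (n (n z (cm 26)) (cp 105))) (n (n (n z (cp 14)) (cm 25)) z)) z)⟩,
  ⟨1, 82740, 298, (n (n (n (n z (n z (cm 98))) (n (n z (cp 394)) z)) (n (n (n z (cm 97)) (cp 32)) z)) z)⟩,
  ⟨1, 3696293664, 298, (n (n (n (n z (n z (cm 20477))) z) (n (n (n z (cp 74456)) (cm 11671)) z)) (n z (cm 18320)))⟩,
  ⟨1, 4588313772, 298, (n (n (n (n z (n z (cm 25936))) z) (n (n z (cp 82166)) z)) (n z (cm 23838)))⟩,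
  ⟨1, 19622845994976, 298, (n (n (n (n z (n z (cm 86661))) z) z) (n z (cp 4975407)))⟩,
  ⟨1, 360, 202, (n (n (n (n z (n z (cm 8))) (n (n z (cp 6)) (cm 9))) (n (n (n z (cm 9)) (cp 30)) z)) (n (n (n (n z (cp 3)) z) z) (cm 8)))⟩,
  ⟨1, 2880, 202, (n (n (n (n z (n z (cm 20))) (n (n z (cm 17)) (cp 8))) (n (n (n z (cp 80)) z) z)) (n (n (n (n z (cm 5)) z) z) (cm 23)))⟩,
  ⟨1, 528960, 202, (n (n (n (n z (n z (cm 184))) (n (n z (cm 161)) (cp 88))) z) (n (n (n (n z (cp 1102)) z) z) (cm 187)))⟩,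
  ⟨1, 32203349280, 202, (n (n (n (n z (n z (cp 15549))) (n (n z (cm 29653)) (cm 97247))) z) (n z (cp 243522)))⟩,
  ⟨1, 448731170784, 202, (n (n (n (n z (n z (cm 217838))) (n (n z (cm 249657)) (cp 921336))) z) z)⟩,
  ⟨1, 523936611158688, 202, (n (n (n (n z (n z (cm 9311192))) (n (n z (cp 31592806)) z)) z) z)⟩,
  ⟨1, 78, 330, (n z (n (n (n (n z (cm 0)) z) (cm 2)) (cp 13)))⟩,
  ⟨7, 7488, 330, (n (n (n (n z (n z (cm 12))) z) z) (n (n (n (n z (cp 48)) z) (cm 11)) z))⟩,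
  ⟨1, 320, 330, (n (n (n (n z (n z (cm 0))) z) z) (n (n z (cp 20)) z))⟩,
  ⟨1, 312, 394, (n z (n (n (n (n z (cm 4)) z) z) (cp 26)))⟩,
  ⟨1, 219336, 394, (n (n (n (n z (n z (cm 181))) z) z) (n (n (n (n z (cp 703)) z) z) z))⟩,
  ⟨1, 408, 63, (n (n z (cm 2)) (cp 34))⟩,
  ⟨1, 888, 95, (n (n (n z (cp 74)) z) (cm 20))⟩,
  ⟨1, 888, 159, (n (n (n z (cp 74)) z) (cm 16))⟩,
  ⟨1, 624, 287, (n (n (n z (cm 10)) (cp 52)) z)⟩,
  ⟨1, 198, 111, (n (n (n z (cp 33)) (cm 3)) z)⟩,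
  ⟨1, 192, 175, (n (n (n z (cp 32)) (cm 4)) z)⟩,
  ⟨1, 168, 303, (n (n (n z (cm 4)) (cp 28)) z)⟩,
  ⟨1, 1416, 207, (n (n (n z (cp 118)) (cm 8)) z)⟩,
  ⟨1, 204, 335, (n (n (n z (cp 34)) (cm 4)) z)⟩,
  ⟨1, 198, 399, (n (n (n z (cp 33)) (cm 4)) z)⟩,
  ⟨1, 864, 123, (n (n (n z (cp 72)) (cm 0)) z)⟩,
  ⟨1, 222, 187, (n (n (n z (cp 37)) (cm 3)) z)⟩,
  ⟨1, 648, 315, (n (n (n z (cm 4)) (cp 54)) z)⟩,
  ⟨1, 38, 219, (n (n (n z (cp 19)) (cm 0)) z)⟩,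
  ⟨1, 186, 347, (n (n (n z (cm 2)) (cp 31)) z)⟩,
  ⟨1, 22, 411, (n (n (n z (cm 1)) (cp 11)) z)⟩,
  ⟨1, 144, 235, (n (n (n z (cm 6)) (cm 4)) (cp 24))⟩,
  ⟨1, 20592, 235, (n (n (n z (cm 58)) (cp 143)) z)⟩,
  ⟨1, 624, 363, (n (n (n z (cm 4)) (cm 19)) (cp 52))⟩,
  ⟨1, 35646, 363, (n (n (n z (cm 83)) (cp 457)) z)⟩,
  ⟨1, 624, 427, (n (n (n z (cm 4)) (cm 18)) (cp 52))⟩,
  ⟨1, 79248, 427, (n (n (n z (cm 122)) (cp 635)) z)⟩,
  ⟨1, 840, 459, (n (n (n z (cm 2)) (cm 9)) (cp 70))⟩,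
  ⟨1, 2436, 459, (n (n (n z (cm 4)) (cp 58)) z)⟩,
  ⟨1, 696, 318, (n (n (n z (cm 13)) (cm 12)) (cp 58))⟩,
  ⟨1, 2142984, 318, (n (n (n z (cm 1051)) (cp 3079)) z)⟩,
  ⟨1, 168, 222, (n (n (n z (cm 3)) (cm 8)) (cp 14))⟩,
  ⟨1, 108696, 222, (n (n (n z (cm 273)) (cp 647)) z)⟩,
  ⟨1, 816, 238, (n (n (n z (cp 68)) z) (cm 2))⟩,
  ⟨1, 624, 366, (n (n (n z (cm 8)) z) (cp 52))⟩,
  ⟨1, 8, 430, (n (n (n z (cm 0)) z) (cp 6))⟩,
  ⟨1, 354, 462, (n (n (n z (cm 8)) z) (cp 59))⟩,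
  ⟨1, 864, 250, (n (n (n z (cp 72)) z) (cm 0))⟩,
  ⟨1, 156, 378, (n (n (n z (cm 4)) z) (cp 26))⟩,
  ⟨1, 672, 442, (n (n (n z (cp 56)) z) (cm 4))⟩,
  ⟨1, 816, 474, (n (n (n z (cp 68)) z) (cm 12))⟩,
  ⟨1, 288, 490, (n (n (n z (cm 4)) (cm 1)) (cp 24))⟩,
  ⟨1, 82656, 490, (n (n (n z (cm 256)) (cp 574)) z)⟩]

theorem i12_1_3 : Ineq 10 can12 1 3 :=
  ineq_of_check (K := 19079641811287045352343139202413616671144216699597783829976387709952603958168882638942624289812615063131765870171830526097454446637890322770659986558216049485605466499857076277655656813314722130301082349502542882537278416087461898581738239593071936350943629839559788444408710627063229786843222019477894512241111160869907803470111999) (cs := q12_1_3) (by decide +kernel)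

def q12_1_4 : List Sq := [⟨1, 144, 18, (n (n (n (n (n z (n z (n z (cm 0)))) (n z (n z (cp 2)))) (n z (n z (cp 1)))) (n (n z (n z (cm 1))) z)) (n (n (n (n (n z (n z (cp 1))) (n (n z (cm 0)) (cp 1))) (n (n z (cm 3)) z)) (n (n (n z (cp 1)) z) (cm 0))) (n (n (n (n (n z (cm 1)) (cm 2)) (cm 2)) (cp 12)) z)))⟩,
  ⟨1, 2160, 18, (n (n (n (n (n z (n z (n z (cm 0)))) (n z (n z (cp 6)))) (n z (n z (cp 9)))) (n (n (n z (n (n z (cm 3)) z)) (n (n z (cp 4)) (cm 17))) z)) (n (n (n (n (n z (n z (cp 5))) (n (n z (cm 4)) (cm 6))) z) (n (n (n z (cp 5)) (cm 15)) (cp 3))) (n (n (n (n (n z (cm 5)) (cm 10)) (cp 45)) z) z)))⟩,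
  ⟨1, 257040, 18, (n (n (n (n (n z (n z (n z (cm 58)))) (n z (n z (cp 39)))) (n z (n (n z (cp 90)) (cp 36)))) (n (n (n (n z (n z (cm 44))) (n (n z (cm 10)) z)) (n (n z (cm 168)) (cm 26))) z)) (n (n (n (n (n z (n z (cm 64))) (n (n z (cm 24)) (cm 97))) (n (n z (cm 44)) z)) (n (n (n z (cm 109)) (cp 46)) (cp 42))) (n (n (n (n (n z (cm 83)) (cp 476)) z) z) z)))⟩,
  ⟨1, 347616, 18, (n (n (n (n (n z (n z (n z (cp 29)))) (n z (n z (cm 66)))) (n z (n (n z (cp 69)) (cm 70)))) (n (n (n (n z (n z (cm 110))) (n (n z (cm 8)) z)) (n (n z (cp 24)) (cm 52))) z)) (n (n (n (n (n z (n z (cm 97))) (n (n z (cp 233)) (cp 28))) (n (n z (cp 59)) z)) (n (n (n z (cm 4)) (cm 68)) (cm 402))) (n (n (n (n (n z (cp 568)) z) z) z) z)))⟩,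
  ⟨1, 23917344, 18, (n (n (n (n (n z (n z (n z (cp 257)))) (n z (n z (cp 601)))) (n z (n (n z (cm 1258)) (cp 1065)))) (n (n (n (n z (n z (cp 309))) (n (n z (cm 1156)) z)) (n (n z (cm 227)) (cp 255))) z)) (n (n (n (n (n z (n z (cm 133))) (n (n z (cm 2674)) (cp 444))) (n (n z (cm 240)) z)) (n (n (n z (cm 484)) (cm 1012)) (cp 3509))) z))⟩,
  ⟨1, 70951306272, 18, (n (n (n (n (n z (n z (n z (cm 43291)))) (n z (n z (cp 14626)))) (n z (n (n z (cp 32698)) (cp 26893)))) (n (n (n (n z (n z (cm 262))) (n (n z (cm 72249)) z)) (n (n z (cm 8356)) (cm 13230))) z)) (n (n (n (n (n z (n z (cp 31502))) (n (n z (cm 53923)) (cm 76621))) (n (n z (cp 27380)) z)) (n (n (n z (cm 87879)) (cp 240712)) z)) z))⟩,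
  ⟨1, 106336692408, 18, (n (n (n (n (n z (n z (n z (cm 23101)))) (n z (n z (cp 36679)))) (n z (n (n z (cm 10418)) (cp 14989)))) (n (n (n (n z (n z (cm 35473))) (n (n z (cm 9096)) z)) (n (n z (cm 4649)) (cm 18526))) z)) (n (n (n (n (n z (n z (cm 64309))) (n (n z (cm 9578)) (cm 72758))) (n (n z (cm 46314)) z)) (n (n (n z (cp 294506)) z) z)) z))⟩,
  ⟨1, 41856863158032, 18, (n (n (n (n (n z (n z (n z (cp 350143)))) (n z (n z (cm 1718908)))) (n z (n (n z (cm 771349)) (cp 374702)))) (n (n (n (n z (n z (cp 1169019))) (n (n z (cp 83845)) z)) (n (n z (cm 2012710)) (cp 812735))) z)) (n (n (n (n (n z (n z (cm 1827012))) (n (n z (cm 579716)) (cm 530907))) (n (n z (cp 5921903)) z)) z) z))⟩,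
  ⟨1, 63285263289004224, 18, (n (n (n (n (n z (n z (n z (cm 47569189)))) (n z (n z (cm 85155789)))) (n z (n (n z (cp 43734856)) (cp 42433165)))) (n (n (n (n z (n z (cm 30418962))) (n (n z (cm 22211093)) z)) (n (n z (cm 1015760)) (cp 3261343))) z)) (n (n (n (n (n z (n z (cm 58261595))) (n (n z (cm 40754431)) (cp 222638396))) z) z) z))⟩,
  ⟨1, 199667247574211760, 18, (n (n (n (n (n z (n z (n z (cp 178248938)))) (n z (n z (cm 58238461)))) (n z (n (n z (cm 91446434)) (cm 276770194)))) (n (n (n (n z (n z (cp 65315570))) (n (n z (cp 142996871)) z)) (n (n z (cp 55170654)) (cm 50653414))) z)) (n (n (n (n (n z (n z (cm 154807813))) (n (n z (cp 298941020)) z)) z) z) z))⟩,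
  ⟨1, 41388146945241840, 18, (n (n (n (n (n z (n z (n z (cm 33593267)))) (n z (n z (cm 34077647)))) (n z (n (n z (cp 8549455)) (cm 7200249)))) (n (n (n (n z (n z (cm 39788674))) (n (n z (cp 8912659)) z)) (n (n z (cm 2123728)) (cp 7453630))) z)) (n (n (n (n (n z (n z (cp 161524074))) z) z) z) z))⟩,
  ⟨1, 9104413600376347861440, 18, (n (n (n (n (n z (n z (n z (cp 9923036886)))) (n z (n z (cm 15902096669)))) (n z (n (n z (cp 2785696000)) (cm 9073808118)))) (n (n (n (n z (n z (cp 5944166965))) (n (n z (cm 18567776593)) z)) (n (n z (cm 19232447464)) (cp 83877493855))) z)) z)⟩,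
  ⟨1, 117305957175859873966440, 18, (n (n (n (n (n z (n z (n z (cp 10786258800)))) (n z (n z (cm 97321107827)))) (n z (n (n z (cm 17041504465)) (cp 7320980941)))) (n (n (n (n z (n z (cm 55976873422))) (n (n z (cm 4191172299)) z)) (n (n z (cp 291362318485)) z)) z)) z)⟩,
  ⟨1, 709773860374117559648040, 18, (n (n (n (n (n z (n z (n z (cp 178694864332)))) (n z (n z (cp 128045272670)))) (n z (n (n z (cm 20555077374)) (cm 374055064222)))) (n (n (n (n z (n z (cm 117469265799))) (n (n z (cp 710515268477)) z)) z) z)) z)⟩,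
  ⟨1, 1424707875780227501969876160, 18, (n (n (n (n (n z (n z (n z (cp 9637635160200)))) (n z (n z (cp 2207967810413)))) (n z (n (n z (cm 23388216669493)) (cm 2869241272775)))) (n (n (n (n z (n z (cp 33419593239568))) z) z) z)) z)⟩,
  ⟨1, 30435173834100255018208834368, 18, (n (n (n (n (n z (n z (n z (cm 84340285500985)))) (n z (n z (cm 16678480740664)))) (n z (n (n z (cp 33279346367634)) (cp 86733191616712)))) z) z)⟩,
  ⟨1, 97516362791291417546971165056, 18, (n (n (n (n (n z (n z (n z (cm 124118080544804)))) (n z (n z (cm 42711850638072)))) (n z (n (n z (cp 187387628991048)) z))) z) z)⟩,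
  ⟨1, 41491183739605706963645994854016, 18, (n (n (n (n (n z (n z (n z (cm 1695145325629376)))) (n z (n z (cp 4612896090825079)))) z) z) z)⟩,
  ⟨1, 21, 23, (n (n (n (n z (n z (cp 7))) (n (n z (cm 0)) z)) (n (n z (cm 1)) z)) z)⟩,
  ⟨1, 2310, 23, (n (n (n z (n (n z (cm 3)) z)) (n (n z (cp 55)) z)) z)⟩,
  ⟨1, 312, 51, (n (n (n z (n z (cm 3))) (n (n z (cp 26)) (cm 4))) (n (n (n z (cm 6)) (cp 3)) z))⟩,
  ⟨1, 146952, 51, (n (n (n z (n z (cm 131))) (n z (cp 43))) (n (n (n z (cp 471)) (cm 134)) z))⟩,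
  ⟨1, 5373168, 51, (n (n (n z (n z (cm 626))) (n z (cm 776))) (n (n z (cp 2852)) z))⟩,
  ⟨1, 1667495952, 51, (n (n (n z (n z (cp 48723))) (n z (cm 15382))) z)⟩,
  ⟨1, 360, 83, (n (n (n (n z (n z (cp 30))) (n z (cm 7))) (n z (cm 4))) (n (n z (cp 3)) z))⟩,
  ⟨1, 33240, 83, (n (n (n z (n z (cm 71))) (n z (cm 24))) (n (n (n (n z (cm 49)) z) (cp 277)) z))⟩,
  ⟨1, 21266952, 83, (n (n (n z (n z (cp 748))) (n z (cm 4002))) (n (n (n (n z (cp 6398)) z) z) z))⟩,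
  ⟨1, 1083088629, 83, (n (n (n z (n z (cp 37619))) (n z (cm 5502))) z)⟩,
  ⟨1, 360, 147, (n (n (n (n z (n z (cm 6))) z) (n z (cp 30))) (n (n (n (n z (cm 20)) z) (cm 2)) z))⟩,
  ⟨1, 28440, 147, (n (n (n (n z (n z (cm 6))) z) z) (n (n (n (n z (cm 70)) z) (cp 237)) z))⟩,
  ⟨25, 24174, 147, (n (n (n (n z (n z (cp 34))) z) z) (n (n (n (n z (cm 4)) z) z) z))⟩,
  ⟨1, 312, 275, (n (n (n (n z (n z (cm 5))) z) z) (n (n (n (n z (cm 6)) (cp 26)) z) z))⟩,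
  ⟨11, 1976, 275, (n (n (n (n z (n z (cm 5))) z) z) (n (n (n (n z (cp 19)) z) z) z))⟩,
  ⟨1, 360, 30, (n (n z (n (n z (cm 5)) (cp 3))) (n (n (n z (cp 30)) (cm 6)) (cm 1)))⟩,
  ⟨1, 198360, 30, (n (n z (n (n z (cp 48)) (cm 158))) (n (n z (cp 551)) (cm 133)))⟩,
  ⟨1, 46125312, 30, (n (n z (n (n z (cp 6976)) (cm 1618))) (n z (cm 1107)))⟩,
  ⟨39, 19114240, 30, (n (n z (n z (cp 685))) (n z (cm 211)))⟩,
  ⟨1, 336, 86, (n (n (n (n z (n z (cm 0))) (n z (cm 9))) z) (n (n (n (n z (cm 1)) (cp 28)) z) z))⟩,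
  ⟨1, 57456, 86, (n (n (n (n z (n z (cm 102))) (n z (cp 342))) z) (n (n (n (n z (cm 9)) z) z) z))⟩,
  ⟨1, 4824252, 86, (n (n (n (n z (n z (cp 2351))) z) z) (n (n (n (n z (cm 390)) z) z) z))⟩,
  ⟨1, 336, 150, (n (n (n (n z (n z (cm 4))) (n z (cp 3))) z) (n (n (n (n z (cp 28)) (cm 1)) (cm 7)) z))⟩,
  ⟨1, 279216, 150, (n (n (n (n z (n z (cm 208))) (n z (cp 831))) z) (n (n (n z (cm 245)) (cm 143)) z))⟩,
  ⟨1, 23254704, 150, (n (n (n (n z (n z (cm 1264))) z) z) (n (n (n z (cp 6996)) (cm 1687)) z))⟩,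
  ⟨1, 563569776, 150, (n (n (n (n z (n z (cm 1440))) z) z) (n (n z (cp 26852)) z))⟩,
  ⟨1, 78, 278, (n z (n (n (n (n z (cm 2)) (cp 13)) z) z))⟩,
  ⟨1, 78, 90, (n (n (n z (n z (cm 2))) z) (n (n (n z (cp 13)) z) z))⟩,
  ⟨1, 312, 154, (n (n (n z (n z (cm 3))) z) (n (n (n z (cm 4)) (cp 26)) z))⟩,
  ⟨1, 138216, 154, (n (n (n z (n z (cm 175))) z) (n (n (n z (cp 443)) z) z))⟩,
  ⟨1, 84, 282, (n z (n (n (n (n z (cp 14)) (cm 2)) z) z))⟩,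
  ⟨1, 312, 114, (n z (n (n (n z (cp 26)) (cm 2)) (cm 4)))⟩,
  ⟨1, 138216, 114, (n z (n (n z (cm 170)) (cp 443)))⟩,
  ⟨1, 312, 178, (n z (n (n z (cp 26)) (cm 6)))⟩,
  ⟨1, 360, 306, (n (n (n (n z (n z (cm 5))) z) (n (n (n z (cm 3)) (cp 3)) z)) (n (n (n (n z (cp 30)) z) z) (cm 5)))⟩,
  ⟨1, 18840, 306, (n (n (n (n z (n z (cm 33))) z) (n (n (n z (cm 25)) (cp 157)) z)) (n z (cm 43)))⟩,
  ⟨1, 40027464, 306, (n (n (n (n z (n z (cm 2054))) z) (n (n (n z (cp 7082)) z) z)) (n z (cm 2132)))⟩,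
  ⟨1, 816044696, 306, (n (n (n (n z (n z (cm 3462))) z) z) (n z (cp 28807)))⟩,
  ⟨1, 360, 210, (n (n (n z (n z (cm 5))) (n (n (n z (cp 2)) (cp 1)) z)) (n (n (n (n z (cp 30)) z) (cm 5)) (cm 2)))⟩,
  ⟨1, 323640, 210, (n (n (n z (n z (cm 83))) (n (n (n z (cm 151)) (cp 899)) z)) (n (n z (cp 66)) (cm 356)))⟩,
  ⟨1, 242557392, 210, (n (n (n z (n z (cm 12651))) (n (n (n z (cp 22484)) z) z)) (n (n z (cm 204)) (cm 4325)))⟩,
  ⟨1, 682421520, 210, (n (n (n z (n z (cm 673))) z) (n (n z (cm 10872)) (cp 35410)))⟩,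
  ⟨1, 12207449769480, 210, (n (n (n z (n z (cm 805978))) z) (n (n z (cp 4104117)) z))⟩,
  ⟨1, 78, 338, (n z (n (n (n (n z (cm 2)) z) z) (cp 13)))⟩,
  ⟨1, 312, 402, (n z (n (n (n (n z (cm 4)) z) z) (cp 26)))⟩,
  ⟨1, 672, 63, (n (n z (cp 56)) (cm 12))⟩,
  ⟨1, 312, 287, (n (n (n z (cp 26)) (cm 6)) z)⟩,
  ⟨1, 648, 311, (n (n (n z (cp 54)) (cm 4)) z)⟩,
  ⟨1, 1008, 215, (n (n (n z (cp 84)) (cm 24)) z)⟩,
  ⟨1, 66, 315, (n (n (n z (cp 11)) (cm 0)) z)⟩,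
  ⟨1, 168, 243, (n (n z (cm 8)) (cp 28))⟩,
  ⟨1, 720, 371, (n (n (n z (cp 60)) z) (cm 12))⟩,
  ⟨1, 456, 435, (n (n (n z (cm 2)) z) (cp 38))⟩,
  ⟨1, 48, 318, (n (n (n z (cm 0)) (cm 0)) (cp 4))⟩,
  ⟨5, 144, 318, (n (n (n z (cm 0)) (cp 3)) z)⟩,
  ⟨1, 174, 222, (n (n z (cm 8)) (cp 29))⟩,
  ⟨1, 480, 374, (n (n (n z (cp 40)) z) (cm 2))⟩,
  ⟨1, 696, 438, (n (n (n z (cm 12)) z) (cp 58))⟩,
  ⟨1, 66, 442, (n (n (n z (cm 0)) z) (cp 11))⟩,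
  ⟨1, 288, 498, (n (n z (cm 4)) (cp 24))⟩]

theorem i12_1_4 : Ineq 10 can12 1 4 :=
  ineq_of_check (K := 3568247175325748865954704534245211254990949407794347541695686783038528174601556708479140996350664776890937105009190278362254392582728983931464004633778740741629146749542325528400639) (cs := q12_1_4) (by decide +kernel)

def q12_1_5 : List Sq := [⟨1, 144, 34, (n (n (n (n (n z (n z (n z (cm 0)))) (n z (n z (cp 2)))) (n (n z (n z (cp 2))) (n (n z (cp 12)) (cm 3)))) (n (n (n (n z (n z (cm 1))) (n (n z (cp 1)) z)) (n (n z (cp 2)) (cm 0))) (n (n (n z (cp 2)) (cm 0)) z))) (n (n (n (n (n z (n z (cm 11))) (n (n z (cm 0)) (cm 2))) (n z (cm 1))) (n (n z (cm 1)) (cp 12))) (n (n (n (n (n z (cm 1)) (cm 3)) (cp 2)) (cp 2)) (cp 2))))⟩,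
  ⟨1, 20592, 34, (n (n (n (n (n z (n z (n z (cm 36)))) (n z (n z (cp 14)))) (n (n z (n z (cp 14))) (n z (cm 27)))) (n (n (n (n z (n z (cp 22))) (n (n z (cm 22)) z)) (n (n z (cm 9)) (cp 11))) (n (n (n z (cm 9)) (cp 11)) z))) (n (n (n (n z (n (n z (cp 143)) (cm 26))) (n z (cm 25))) (n (n z (cm 25)) z)) (n (n (n (n (n z (cm 37)) (cp 8)) (cm 21)) (cp 14)) (cp 14))))⟩,
  ⟨1, 2848560, 34, (n (n (n (n (n z (n z (n z (cp 136)))) (n z (n z (cp 107)))) (n (n z (n z (cm 464))) (n z (cp 72)))) (n (n (n (n z (n z (cm 505))) (n (n z (cp 100)) z)) (n (n z (cm 198)) (cp 33))) (n (n (n z (cp 1660)) (cm 395)) z))) (n (n (n (n z (n z (cp 49))) (n z (cm 116))) (n (n z (cp 312)) z)) (n (n (n (n (n z (cp 159)) (cm 326)) (cp 77)) (cp 107)) (cm 464))))⟩,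
  ⟨1, 391567440, 34, (n (n (n (n (n z (n z (n z (cp 1884)))) (n z (n z (cm 3216)))) (n (n z (n z (cp 235))) (n z (cm 1931)))) (n (n (n (n z (n z (cp 1266))) (n (n z (cm 6279)) z)) (n (n z (cm 4550)) (cp 19657))) (n (n z (cm 1823)) z))) (n (n (n (n z (n z (cp 1521))) (n z (cm 4952))) (n (n z (cp 1588)) z)) (n (n (n (n (n z (cp 1751)) (cp 1097)) (cm 4486)) (cm 1556)) (cp 235))))⟩,
  ⟨1, 52997945352, 34, (n (n (n (n (n z (n z (n z (cm 9884)))) (n z (n z (cp 26551)))) (n (n z (n z (cm 4456))) (n z (cp 15145)))) (n (n (n (n z (n z (cp 28352))) (n (n z (cp 13293)) z)) (n (n z (cm 66424)) z)) (n (n z (cp 3310)) z))) (n (n (n (n z (n z (cp 34808))) (n z (cm 71514))) (n (n z (cp 29104)) z)) (n (n (n (n (n z (cm 65747)) (cm 43222)) (cm 47228)) (cp 224678)) (cm 24113))))⟩,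
  ⟨1, 6680008564728, 34, (n (n (n (n (n z (n z (n z (cm 752132)))) (n z (n z (cp 2477623)))) (n (n z (n z (cm 266914))) (n z (cm 94110)))) (n (n (n (n z (n z (cp 300236))) (n (n z (cp 62203)) z)) (n (n z (cm 721528)) z)) (n (n z (cp 12514)) z))) (n (n (n (n z (n z (cm 530489))) (n z (cm 777426))) (n (n z (cp 311496)) z)) (n (n (n (n (n z (cp 31360)) (cp 250919)) (cp 146717)) z) (cm 15685))))⟩,
  ⟨1, 816250855788648, 34, (n (n (n (n (n z (n z (n z (cp 3742083)))) z) (n (n z (n z (cm 6630907))) (n z (cm 2851658)))) (n (n (n (n z (n z (cm 270154))) (n (n z (cm 9823310)) z)) (n (n z (cm 717507)) z)) (n (n z (cp 27454098)) z))) (n (n (n (n z (n z (cp 2665127))) (n z (cp 1484168))) (n (n z (cm 5994772)) z)) (n (n (n (n (n z (cp 3688233)) (cp 391349)) (cm 6894167)) z) (cm 4130776))))⟩,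
  ⟨1, 1893286384352856, 34, (n (n (n (n (n z (n z (n z (cm 496310)))) z) (n (n z (n z (cp 805328))) (n z (cp 3753063)))) (n (n (n (n z (n z (cp 1178129))) (n (n z (cp 2901807)) z)) (n (n z (cm 138739)) z)) z)) (n (n (n (n z (n z (cp 8401981))) (n z (cp 4038454))) (n (n z (cm 11966754)) z)) (n (n (n (n (n z (cm 12518720)) (cm 12755242)) (cm 10366283)) z) (cp 40227767))))⟩,
  ⟨1, 9322177152323254464, 34, (n (n (n (n (n z (n z (n z (cm 786024995)))) z) (n (n z (n z (cm 77981600))) (n z (cp 2758748688)))) (n (n (n (n z (n z (cp 235109898))) (n (n z (cm 1115124145)) z)) (n (n z (cp 105153003)) z)) z)) (n (n (n (n z (n z (cp 376619273))) (n z (cm 920452665))) (n (n z (cm 874440835)) z)) (n (n (n (n (n z (cp 127255634)) (cp 132856472)) (cp 327492729)) z) z)))⟩,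
  ⟨1, 2771403910569788736, 34, (n (n (n (n (n z (n z (n z (cm 268201323)))) z) (n (n z (n z (cp 48639213))) z)) (n (n (n (n z (n z (cp 1506880958))) (n (n z (cm 294838181)) z)) (n (n z (cm 460426854)) z)) z)) (n (n (n (n z (n z (cp 120790147))) (n z (cp 164831490))) (n (n z (cp 88709868)) z)) (n (n (n (n (n z (cm 321913681)) (cm 200789935)) (cp 172969651)) z) z)))⟩,
  ⟨1, 2412815587070465118960, 34, (n (n (n (n (n z (n z (n z (cm 14937725453)))) z) (n (n z (n z (cp 44477737170))) z)) (n (n (n z (n (n z (cp 1279657912)) z)) (n (n z (cp 74579517)) z)) z)) (n (n (n (n z (n z (cm 9875972262))) (n z (cp 4086459206))) (n (n z (cm 14944568014)) z)) (n (n (n (n (n z (cp 1785230303)) (cp 852216263)) (cp 1940628375)) z) z)))⟩,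
  ⟨1, 794938520530594041607440, 34, (n (n (n (n (n z (n z (n z (cp 9639281346)))) z) z) (n (n (n z (n (n z (cp 98879317112)) z)) (n (n z (cm 280955447492)) z)) z)) (n (n (n (n z (n z (cm 136243689952))) (n z (cp 63315672666))) (n (n z (cp 29571134505)) z)) (n (n (n (n (n z (cm 207216621916)) (cp 744697020643)) (cm 196987625714)) z) z)))⟩,
  ⟨1, 55910176549263477062986536, 34, (n (n (n (n (n z (n z (n z (cm 1414658534695)))) z) z) (n (n (n z (n (n z (cp 227952896447)) z)) (n (n z (cp 61774679204)) z)) z)) (n (n (n (n z (n z (cp 6256479145146))) (n z (cm 1052663250943))) (n (n z (cm 1045243718635)) z)) (n (n (n (n (n z (cp 466227822589)) z) (cm 653654685244)) z) z)))⟩,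
  ⟨1, 3144636346511215236885636312, 34, (n (n (n (n (n z (n z (n z (cm 17297573308915)))) z) z) (n (n (n z (n (n z (cp 41885063914781)) z)) (n (n z (cp 411420442748)) z)) z)) (n (n (n z (n z (cm 5151791883379))) (n (n z (cm 5102377668583)) z)) (n (n (n (n (n z (cm 6685306561702)) z) (cm 6457731329692)) z) z)))⟩,
  ⟨1, 162020997515904556185629662560, 34, (n (n (n (n (n z (n z (n z (cp 17876042715987)))) z) z) (n (n z (n (n z (cm 47818465095015)) z)) z)) (n (n (n z (n z (cm 69045301325203))) (n (n z (cm 74788603455835)) z)) (n (n (n (n (n z (cm 69948555101425)) z) (cp 322352374117480)) z) z)))⟩,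
  ⟨1, 2612478620397588719839394640, 34, (n (n (n (n (n z (n z (n z (cm 168927704552)))) z) z) (n (n z (n (n z (cp 37820620768084)) z)) z)) (n (n (n z (n z (cm 998103064468))) (n (n z (cp 3544394303599)) z)) (n (n (n (n (n z (cm 6981494926420)) z) z) z) z)))⟩,
  ⟨1, 119569641718955682640848, 34, (n (n (n (n (n z (n z (n z (cp 7036007224)))) z) z) z) (n (n (n z (n z (cm 8577849628))) (n (n z (cm 8577849628)) z)) (n (n (n (n (n z (cp 254763673877)) z) z) z) z)))⟩,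
  ⟨1, 292520349379257055753178976, 34, (n (n (n (n (n z (n z (n z (cp 11960445248453)))) z) z) z) (n (n (n z (n z (cm 1349633436273))) (n (n z (cm 1349633436273)) z)) z))⟩,
  ⟨1, 4214115460230143621131141849210431816, 34, (n z (n (n (n z (n z (cp 1445879393459851258))) (n (n z (cm 630944279926776114)) z)) z))⟩,
  ⟨1, 84, 39, (n (n (n (n z (n z (cm 1))) (n (n z (cp 14)) z)) (n z (cm 2))) (n (n z (cm 2)) z))⟩,
  ⟨1, 2856, 39, (n (n (n (n z (n z (cp 68))) z) (n z (cm 2))) (n (n z (cm 2)) z))⟩,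
  ⟨1, 231336, 39, (n (n z (n z (cp 567))) (n (n z (cm 112)) z))⟩,
  ⟨1, 216, 43, (n (n (n z (n z (cp 18))) (n z (cm 2))) (n (n (n z (cm 4)) (cm 3)) z))⟩,
  ⟨11, 1512, 43, (n (n z (n z (cm 2))) (n (n (n z (cm 4)) (cp 14)) z))⟩,
  ⟨1, 8652, 43, (n (n z (n z (cp 103))) (n (n (n z (cm 7)) z) z))⟩,
  ⟨1, 216, 51, (n (n (n z (n z (cp 18))) (n z (cm 2))) (n (n (n z (cm 4)) (cm 3)) z))⟩,
  ⟨11, 1512, 51, (n (n z (n z (cm 2))) (n (n (n z (cm 4)) (cp 14)) z))⟩,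
  ⟨1, 8652, 51, (n (n z (n z (cp 103))) (n (n (n z (cm 7)) z) z))⟩,
  ⟨1, 96, 99, (n (n (n (n z (n z (cm 4))) z) (n z (cp 16))) (n (n (n (n z (cm 3)) z) (cm 1)) (cm 1)))⟩,
  ⟨1, 1248, 99, (n (n (n (n z (n z (cm 6))) z) z) (n (n (n (n z (cp 52)) z) (cm 17)) (cm 17)))⟩,
  ⟨1, 45396, 99, (n (n (n (n z (n z (cm 18))) z) z) (n (n z (cm 85)) (cp 291)))⟩,
  ⟨29, 715860, 99, (n (n (n (n z (n z (cm 18))) z) z) (n (n z (cp 205)) z))⟩,
  ⟨1, 360, 163, (n (n (n (n z (n z (cp 2))) (n z (cp 2))) (n (n z (cm 7)) z)) (n (n (n (n z (cm 9)) z) (cm 4)) (cp 30)))⟩,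
  ⟨1, 80640, 163, (n (n (n (n z (n z (cp 448))) (n z (cm 106))) (n (n z (cm 96)) z)) (n (n (n (n z (cm 94)) z) (cp 35)) z))⟩,
  ⟨1, 60990720, 163, (n (n (n z (n z (cp 517))) (n (n z (cm 912)) z)) (n (n (n (n z (cp 11345)) z) (cm 5004)) z))⟩,
  ⟨1, 5944689240, 163, (n (n (n z (n z (cm 29951))) (n (n z (cp 1238)) z)) (n (n z (cp 109165)) z))⟩,
  ⟨1, 582720368370, 163, (n (n (n z (n z (cm 155201))) (n (n z (cp 889663)) z)) z)⟩,
  ⟨1, 8, 291, (n (n (n (n z (n z (cp 4))) z) z) (n (n (n (n z (cm 0)) (cm 0)) z) z))⟩,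
  ⟨5, 24, 291, (n z (n (n (n (n z (cm 0)) (cp 3)) z) z))⟩,
  ⟨1, 312, 46, (n (n z (n (n z (cm 4)) (cp 26))) (n (n z (cm 5)) (cm 3)))⟩,
  ⟨1, 49920, 46, (n (n z (n (n z (cp 11)) z)) (n (n z (cp 320)) (cm 76)))⟩,
  ⟨11, 2123520, 46, (n (n z (n (n z (cp 553)) z)) (n z (cm 190)))⟩,
  ⟨1, 312, 54, (n (n z (n (n z (cm 4)) (cp 26))) (n (n z (cm 5)) (cm 3)))⟩,
  ⟨1, 49920, 54, (n (n z (n (n z (cp 11)) z)) (n (n z (cp 320)) (cm 76)))⟩,
  ⟨11, 2123520, 54, (n (n z (n (n z (cp 553)) z)) (n z (cm 190)))⟩,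
  ⟨1, 360, 102, (n (n (n (n z (n z (cm 6))) (n z (cp 2))) (n (n z (cp 2)) z)) (n (n (n (n z (cp 30)) z) (cm 6)) (cm 6)))⟩,
  ⟨1, 306360, 102, (n (n (n (n z (n z (cp 851))) (n z (cm 255))) (n (n z (cm 255)) z)) (n (n (n z (cm 59)) (cp 41)) (cp 41)))⟩,
  ⟨1, 237245184, 102, (n (n (n z (n z (cm 4850))) (n (n z (cp 23232)) z)) (n (n (n z (cm 6468)) (cp 3300)) (cm 5209)))⟩,
  ⟨1, 155282688, 102, (n (n (n z (n z (cp 18381))) z) (n (n (n z (cm 6468)) (cm 3739)) (cp 1830)))⟩,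
  ⟨1, 91256371272, 102, (n z (n (n (n z (cp 413726)) (cm 104652)) (cm 104652)))⟩,
  ⟨1, 34064521503776280, 102, (n z (n (n z (cp 207919055)) (cm 51073420)))⟩,
  ⟨1, 336, 166, (n (n (n z (n z (cm 8))) (n (n z (cm 8)) z)) (n (n (n (n z (cm 2)) (cp 28)) z) z))⟩,
  ⟨1, 336, 166, (n (n (n (n z (n z (cp 28))) (n z (cm 8))) (n (n z (cm 8)) z)) (n (n (n (n z (cm 3)) z) z) z))⟩,
  ⟨1, 208992, 166, (n (n (n z (n z (cm 189))) (n (n z (cp 622)) z)) (n (n (n (n z (cm 34)) z) z) z))⟩,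
  ⟨29, 3224448, 166, (n (n (n z (n z (cp 432))) z) (n (n (n (n z (cm 34)) z) z) z))⟩,
  ⟨1, 21, 294, (n z (n (n (n (n z (cm 0)) (cp 7)) z) z))⟩,
  ⟨1, 336, 58, (n (n (n z (n z (cm 5))) (n (n z (cp 4)) (cm 3))) (n (n z (cp 28)) (cm 6)))⟩,
  ⟨1, 14952, 58, (n (n (n z (n z (cm 42))) (n (n z (cp 178)) (cm 30))) (n z (cm 41)))⟩,
  ⟨1, 1041656, 58, (n (n (n z (n z (cm 410))) (n z (cp 1463))) (n z (cm 417)))⟩,
  ⟨1, 195888, 58, (n (n (n z (n z (cm 25))) z) (n z (cp 583)))⟩,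
  ⟨1, 60, 106, (n (n (n z (n z (cp 10))) z) (n (n z (cm 2)) z))⟩,
  ⟨1, 192, 106, (n z (n (n z (cm 2)) (cp 16)))⟩,
  ⟨1, 312, 170, (n (n (n z (n z (cp 26))) z) (n (n (n z (cm 7)) z) (cp 1)))⟩,
  ⟨1, 5304, 170, (n z (n (n (n z (cp 102)) z) (cm 28)))⟩,
  ⟨1, 336, 298, (n (n (n (n z (n z (cm 6))) z) (n (n (n z (cp 4)) (cm 4)) z)) (n (n (n z (cp 28)) z) (cm 6)))⟩,
  ⟨1, 11424, 298, (n (n (n (n z (n z (cm 34))) z) (n (n (n z (cp 136)) (cm 22)) z)) (n z (cm 34)))⟩,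
  ⟨1, 4117536, 298, (n (n (n (n z (n z (cm 828))) z) (n (n z (cp 2523)) z)) (n z (cm 828)))⟩,
  ⟨1, 1142767620, 298, (n (n (n (n z (n z (cm 5145))) z) z) (n z (cp 37745)))⟩,
  ⟨1, 60, 114, (n (n (n z (n z (cp 10))) z) (n (n z (cm 2)) z))⟩,
  ⟨1, 192, 114, (n z (n (n z (cm 2)) (cp 16)))⟩,
  ⟨1, 312, 178, (n (n (n z (n z (cp 26))) z) (n (n (n z (cm 7)) z) (cp 1)))⟩,
  ⟨1, 5304, 178, (n z (n (n (n z (cp 102)) z) (cm 28)))⟩,
  ⟨1, 336, 306, (n (n (n (n z (n z (cm 6))) z) (n (n (n z (cp 4)) (cm 4)) z)) (n (n (n z (cp 28)) z) (cm 6)))⟩,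
  ⟨1, 11424, 306, (n (n (n (n z (n z (cm 34))) z) (n (n (n z (cp 136)) (cm 22)) z)) (n z (cm 34)))⟩,
  ⟨1, 4117536, 306, (n (n (n (n z (n z (cm 828))) z) (n (n z (cp 2523)) z)) (n z (cm 828)))⟩,
  ⟨1, 1142767620, 306, (n (n (n (n z (n z (cm 5145))) z) z) (n z (cp 37745)))⟩,
  ⟨1, 384, 226, (n (n (n z (n z (cp 32))) (n (n (n z (cm 7)) (cm 4)) (cm 4))) (n (n (n (n z (cm 10)) z) z) (cp 7)))⟩,
  ⟨1, 359040, 226, (n (n z (n (n (n z (cm 295)) (cm 56)) (cp 935))) (n (n (n (n z (cp 9)) z) z) (cm 284)))⟩,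
  ⟨31, 9851160, 226, (n (n z (n (n (n z (cm 295)) (cp 878)) z)) (n (n (n (n z (cp 9)) z) z) (cm 284)))⟩,
  ⟨1, 50330472, 226, (n (n z (n (n (n z (cp 9554)) z) z)) (n (n (n (n z (cm 1562)) z) z) (cm 2745)))⟩,
  ⟨1, 19311538416, 226, (n z (n (n (n (n z (cp 168442)) z) z) (cm 32812)))⟩,
  ⟨1, 18, 354, (n z (n (n (n (n z (cm 0)) z) z) (cp 6)))⟩,
  ⟨1, 336, 418, (n z (n (n (n (n z (cp 28)) z) z) (cm 4)))⟩,
  ⟨1, 936, 63, (n (n z (cm 4)) (cp 78))⟩,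
  ⟨1, 198, 111, (n (n z (cm 4)) (cp 33))⟩,
  ⟨1, 138, 175, (n (n z (cp 23)) (cm 3))⟩,
  ⟨1, 162, 303, (n (n (n z (cm 1)) (cp 27)) z)⟩,
  ⟨1, 198, 119, (n (n z (cm 4)) (cp 33))⟩,
  ⟨1, 138, 183, (n (n z (cp 23)) (cm 3))⟩,
  ⟨1, 162, 311, (n (n (n z (cm 1)) (cp 27)) z)⟩,
  ⟨1, 696, 231, (n (n (n z (cm 26)) (cm 2)) (cp 58))⟩,
  ⟨61, 38280, 231, (n (n (n z (cm 26)) (cp 55)) z)⟩,
  ⟨1, 48, 123, (n (n z (cm 0)) (cp 16))⟩,
  ⟨1, 258, 187, (n (n z (cp 43)) (cm 8))⟩,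
  ⟨1, 600, 235, (n (n z (cm 6)) (cp 50))⟩,
  ⟨1, 33, 363, (n (n (n z (cm 0)) z) (cp 11))⟩,
  ⟨1, 696, 427, (n (n (n z (cp 58)) z) (cm 14))⟩,
  ⟨1, 600, 243, (n (n z (cm 6)) (cp 50))⟩,
  ⟨1, 33, 371, (n (n (n z (cm 0)) z) (cp 11))⟩,
  ⟨1, 696, 435, (n (n (n z (cp 58)) z) (cm 14))⟩,
  ⟨1, 234, 126, (n (n z (cm 7)) (cp 39))⟩,
  ⟨1, 45, 190, (n (n z (cp 15)) (cm 0))⟩,
  ⟨1, 12, 318, (n (n (n z (cm 0)) (cm 0)) (cp 4))⟩,
  ⟨1, 204, 318, (n (n (n z (cm 4)) (cp 17)) z)⟩,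
  ⟨1, 840, 238, (n (n z (cp 70)) (cm 12))⟩,
  ⟨5, 16, 366, (n (n (n z (cm 0)) z) (cp 4))⟩,
  ⟨1, 138, 430, (n (n (n z (cp 23)) z) (cm 1))⟩,
  ⟨1, 840, 246, (n (n z (cp 70)) (cm 12))⟩,
  ⟨5, 16, 374, (n (n (n z (cm 0)) z) (cp 4))⟩,
  ⟨1, 138, 438, (n (n (n z (cp 23)) z) (cm 1))⟩,
  ⟨1, 45, 250, (n (n z (cp 15)) (cm 0))⟩,
  ⟨1, 42, 378, (n (n (n z (cp 7)) z) (cm 1))⟩,
  ⟨1, 528, 490, (n (n z (cp 44)) (cm 4))⟩,
  ⟨1, 528, 498, (n (n z (cp 44)) (cm 4))⟩]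

theorem i12_1_5 : Ineq 10 can12 1 5 :=
  ineq_of_check (K := 51354408231866348942491550149979087859657158144526645079897708830156305840333343713298854995811380399142440384739167519697018476248426124164963227941979883798099440145085448329252468595957082833170107541409062773268185196799) (cs := q12_1_5) (by decide +kernel)

end Pool.Agent.Lib.MP_c69b6d_co
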