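import Pool.Agent.Lib.MP_c69b6d_co.Cert1

namespace Pool.Agent.Lib.MP_c69b6d_co

open P2

set_option maxRecDepth 100000

def q12_1_6 : List Sq := [⟨1, 36, 66, (n (n (n (n z (n (n z (n z (cm 2))) z)) (n (n z (n z (cm 0))) z)) z) (n (n (n (n z (n (n z (cm 0)) (cp 1))) (n (n (n z (cm 1)) z) (cp 1))) (n (n (n z (cp 3)) (cm 1)) (cp 1))) (n (n (n z (cm 0)) z) (cp 6))))⟩,
  ⟨1, 288, 66, (n (n (n (n z (n (n z (n z (cp 6))) (n z (cp 6)))) (n (n z (n z (cm 0))) z)) z) (n (n (n (n z (n (n z (cm 3)) (cm 1))) (n (n (n z (cp 16)) z) (cm 1))) (n (n (n z (cm 5)) (cp 4)) (cm 7))) (n (n (n z (cp 2)) (cm 5)) z)))⟩,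
  ⟨1, 2208, 66, (n (n (n (n (n z (n z (n z (cm 7)))) (n (n z (n z (cm 1))) (n z (cm 5)))) (n (n z (n z (cm 6))) z)) z) (n (n (n (n z (n z (cp 46))) (n z (cm 1))) (n (n (n z (cp 2)) (cm 3)) (cp 4))) (n (n (n z (cp 2)) (cm 1)) z)))⟩,
  ⟨1, 18216, 66, (n (n (n (n (n z (n z (n z (cp 22)))) (n (n z (n z (cp 17))) (n z (cp 5)))) (n (n z (n z (cp 2))) z)) z) (n (n (n (n z (n (n z (cm 22)) z)) (n z (cp 132))) (n (n (n z (cm 16)) (cm 11)) (cm 33))) (n (n (n z (cm 16)) (cm 28)) z)))⟩,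
  ⟨1, 2374416, 66, (n (n (n (n (n z (n z (n z (cm 571)))) (n (n z (n z (cm 375))) (n z (cm 261)))) (n (n z (n z (cp 1499))) z)) z) (n (n (n (n z (n (n z (cp 202)) z)) z) (n (n (n z (cp 376)) (cm 347)) (cm 237))) (n (n (n z (cm 19)) (cp 226)) z)))⟩,
  ⟨1, 1217247960, 66, (n (n (n (n (n z (n z (n z (cm 5169)))) (n (n z (n z (cm 3974))) (n z (cm 1214)))) z) z) (n (n (n (n z (n (n z (cm 710)) z)) z) (n (n (n z (cp 3975)) (cm 9371)) (cp 7650))) (n (n (n z (cp 33835)) (cm 5336)) z)))⟩,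
  ⟨1, 1363658772, 66, (n (n (n (n (n z (n z (n z (cm 3899)))) (n (n z (n z (cp 12970))) (n z (cp 33586)))) z) z) (n (n (n (n z (n (n z (cp 4516)) z)) z) (n (n (n z (cm 12969)) (cp 7904)) (cm 20236))) (n (n z (cm 21093)) z)))⟩,
  ⟨1, 217020641040, 66, (n (n (n (n (n z (n z (n z (cm 124434)))) (n (n z (n z (cp 4120))) z)) z) z) (n (n (n (n z (n (n z (cp 430776)) z)) z) (n (n (n z (cm 4119)) (cm 92627)) (cm 17394))) (n (n z (cp 47472)) z)))⟩,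
  ⟨1, 3270192, 66, (n (n (n (n (n z (n z (n z (cp 29)))) (n (n z (n z (cm 157))) z)) z) z) (n (n z (n (n (n z (cp 158)) (cp 1412)) (cm 110))) (n (n z (cp 66)) z)))⟩,
  ⟨1, 3921703490448, 66, (n (n (n (n (n z (n z (n z (cp 1659146)))) (n (n z (n z (cm 223090))) z)) z) z) (n (n z (n (n (n z (cp 223091)) z) (cm 85455))) (n (n z (cp 61125)) z)))⟩,
  ⟨1, 620027784545328, 66, (n (n (n (n z (n (n z (n z (cm 15570956))) z)) z) z) (n (n z (n (n (n z (cp 15570957)) z) (cp 1782706))) (n (n z (cp 4977203)) z)))⟩,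
  ⟨1, 10295563294419516, 66, (n z (n (n z (n z (cp 55100249))) (n (n z (cp 3559486)) z)))⟩,
  ⟨1, 84, 195, (n (n (n (n z (n z (cm 2))) (n z (cm 2))) (n (n z (cp 14)) z)) z)⟩,
  ⟨1, 11004, 195, (n (n (n (n z (n z (cp 131))) (n z (cm 22))) z) z)⟩,
  ⟨1, 21, 78, (n z (n (n z (cp 7)) (cm 0)))⟩,
  ⟨1, 21, 86, (n z (n (n z (cp 7)) (cm 1)))⟩,
  ⟨1, 15, 102, (n z (n (n z (cm 0)) (cp 5)))⟩,
  ⟨1, 72, 326, (n z (n (n (n z (cp 12)) (cm 4)) z))⟩,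
  ⟨1, 84, 90, (n (n (n z (n z (cm 2))) z) (n (n z (cp 14)) (cm 0)))⟩,
  ⟨1, 8652, 90, (n (n (n z (n z (cp 103))) z) (n z (cm 72)))⟩,
  ⟨1, 60, 106, (n z (n (n (n z (cp 10)) (cm 2)) (cm 2)))⟩,
  ⟨1, 4260, 106, (n z (n (n z (cm 18)) (cp 71)))⟩,
  ⟨1, 84, 330, (n (n (n (n z (n z (cm 2))) z) z) (n (n (n z (cp 14)) (cm 3)) z))⟩,
  ⟨1, 11004, 330, (n (n (n (n z (n z (cp 131))) z) z) (n (n z (cm 39)) z))⟩,
  ⟨1, 21, 114, (n (n (n (n z (n z (cm 1))) z) z) (n (n (n (n z (cp 7)) z) (cm 1)) z))⟩,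
  ⟨1, 3192, 114, (n (n (n (n z (n z (cp 76))) z) z) (n (n z (cm 14)) (cm 34)))⟩,
  ⟨1, 292296, 114, (n z (n (n z (cp 641)) (cm 150)))⟩,
  ⟨1, 84, 338, (n (n (n (n z (n z (cm 4))) z) z) (n (n (n z (cp 14)) z) z))⟩,
  ⟨1, 21, 354, (n (n (n (n z (n z (cm 1))) z) z) (n (n (n z (cp 7)) z) z))⟩,
  ⟨1, 12, 231, (n (n z (cm 0)) (cp 4))⟩,
  ⟨2, 15, 243, (n (n (n z (cp 5)) (cm 0)) z)⟩,
  ⟨1, 5, 378, (n (n (n z (cm 0)) z) (cp 5))⟩]

theorem i12_1_6 : Ineq 10 can12 1 6 :=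
  ineq_of_check (K := 47323510975273939637944572561460887888405682913442719) (cs := q12_1_6) (by decide +kernel)

def q12_1_7 : List Sq := [⟨1, 36, 130, (n (n (n (n (n z (n z (n z (cm 2)))) (n (n z (n z (cp 2))) (n z (cm 2)))) (n (n z (n z (cm 5))) z)) z) (n (n (n (n z (n (n z (cp 3)) z)) (n (n (n z (cm 0)) z) (cp 3))) (n (n (n z (cm 2)) z) (cp 4))) (n (n (n z (cp 6)) (cm 0)) (cp 3))))⟩,
  ⟨1, 36, 130, (n (n (n (n (n z (n z (n z (cm 0)))) (n (n z (n z (cm 0))) (n z (cm 0)))) z) z) (n (n (n (n z (n (n z (cm 0)) z)) (n (n (n z (cm 0)) (cp 6)) (cm 0))) (n (n (n z (cp 1)) z) z)) (n z (cp 1))))⟩,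
  ⟨1, 1224, 130, (n (n (n (n (n z (n z (n z (cp 2)))) (n (n z (n z (cm 10))) (n z (cp 2)))) z) z) (n (n (n (n z (n (n z (cp 2)) z)) (n (n (n z (cp 34)) z) (cm 9))) (n (n (n z (cm 1)) z) (cm 1))) (n (n z (cm 6)) (cm 1))))⟩,
  ⟨1, 1396584, 130, (n (n (n (n (n z (n z (n z (cm 291)))) (n (n z (n z (cm 416))) (n z (cm 291)))) z) z) (n (n (n (n z (n (n z (cm 291)) z)) (n z (cm 171))) (n (n (n z (cp 292)) z) (cp 122))) (n (n z (cp 1141)) (cp 292))))⟩,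
  ⟨1, 30834384, 130, (n (n (n (n (n z (n z (n z (cm 4503)))) (n (n z (n z (cm 2758))) (n z (cm 1080)))) z) z) (n (n (n (n z (n (n z (cm 4503)) z)) (n z (cm 245))) (n (n (n z (cp 4504)) z) (cp 944))) (n z (cp 4504))))⟩,
  ⟨1, 112717104, 130, (n (n (n (n z (n (n z (n z (cm 328))) (n z (cm 1882)))) z) z) (n (n (n z (n z (cp 8342))) (n z (cm 2167))) z))⟩,
  ⟨1, 1474431816, 130, (n (n (n (n z (n (n z (n z (cm 1628))) (n z (cp 29458)))) z) z) (n (n z (n z (cp 1284))) z))⟩,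
  ⟨1, 3669995472, 130, (n (n (n (n z (n (n z (n z (cm 10976))) z)) z) z) (n (n z (n z (cp 41528))) z))⟩,
  ⟨1, 60, 195, (n (n (n z (n (n z (cp 10)) (cm 2))) z) z)⟩,
  ⟨1, 15, 154, (n z (n (n (n z (cm 0)) z) (cp 5)))⟩,
  ⟨1, 72, 178, (n (n (n (n z (n z (cm 4))) z) z) (n (n (n (n z (cp 12)) z) z) (cp 1)))⟩,
  ⟨1, 5112, 178, (n (n (n (n z (n z (cp 71))) z) z) (n z (cm 54)))⟩,
  ⟨1, 12, 402, (n (n (n (n z (n z (cm 0))) z) z) (n (n (n z (cp 4)) z) z))⟩,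
  ⟨1, 2, 418, (n (n (n (n z (n z (cp 2))) z) z) (n (n (n z (cm 0)) z) z))⟩,
  ⟨1, 18, 243, (n (n (n z (cp 6)) (cm 0)) z)⟩,
  ⟨5, 12, 442, (n (n (n z (cp 2)) z) (cm 0))⟩]

theorem i12_1_7 : Ineq 10 can12 1 7 :=
  ineq_of_check (K := 178032088541177166376079) (cs := q12_1_7) (by decide +kernel)

def q12_1_8 : List Sq := [⟨1, 144, 258, (n (n (n (n (n z (n z (n z (cm 5)))) (n (n z (n z (cp 6))) z)) (n (n (n z (n z (cp 1))) (n (n z (cp 4)) z)) (n (n (n z (cm 0)) (cm 3)) z))) (n (n (n z (n (n z (cp 3)) (cm 7))) (n (n (n z (cp 8)) (cm 2)) z)) (n (n (n (n z (cm 1)) (cp 3)) z) z))) (n (n (n (n z (n (n z (cm 11)) z)) (n (n z (cp 12)) z)) (n (n (n (n z (cm 2)) (cp 1)) z) (cm 1))) (n (n (n z (cm 5)) (cp 6)) (cp 2))))⟩,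
  ⟨1, 144, 258, (n (n (n (n (n z (n z (n z (cp 1)))) z) (n (n (n z (n z (cp 1))) (n (n z (cm 2)) (cm 2))) (n (n (n z (cp 1)) (cp 1)) z))) (n (n (n z (n (n z (cp 1)) (cp 1))) z) z)) (n (n z (n (n (n (n z (cm 1)) (cm 0)) (cp 12)) (cm 2))) (n (n (n z (cm 3)) (cp 1)) (cm 0))))⟩,
  ⟨1, 20448, 258, (n (n (n (n (n z (n z (n z (cm 16)))) (n (n z (n z (cp 6))) z)) (n (n (n z (n z (cm 11))) (n (n z (cp 5)) (cm 2))) (n (n (n z (cp 14)) (cm 18)) z))) (n (n (n z (n (n z (cp 10)) (cm 14))) (n (n (n z (cm 7)) (cp 15)) z)) (n (n (n (n z (cp 14)) (cm 26)) z) z))) (n (n z (n (n (n (n z (cm 22)) (cp 142)) z) (cm 24))) (n (n (n z (cm 21)) (cp 7)) (cm 14))))⟩,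
  ⟨1, 399001824, 258, (n (n (n (n (n z (n z (n z (cp 1591)))) (n (n z (n z (cp 1794))) z)) (n (n (n z (n z (cp 1382))) (n (n z (cp 217)) (cm 470))) (n (n (n z (cp 636)) (cp 993)) z))) (n (n (n z (n (n z (cp 1144)) (cp 2189))) (n (n (n z (cp 1016)) (cp 1077)) z)) (n (n (n (n z (cm 4333)) (cm 4664)) z) z))) (n (n z (n (n (n (n z (cm 3184)) z) z) (cm 3640))) (n (n (n z (cm 6009)) (cm 3160)) (cp 19513))))⟩,
  ⟨1, 53486381832, 258, (n (n (n (n (n z (n z (n z (cp 10262)))) (n (n z (n z (cm 30900))) z)) (n (n (n z (n z (cm 18104))) (n (n z (cm 48038)) (cp 25048))) (n (n (n z (cp 228422)) (cm 44480)) z))) (n (n (n z (n (n z (cp 40248)) (cm 13046))) (n (n (n z (cm 25113)) (cp 11828)) z)) (n (n (n (n z (cm 42904)) (cp 10948)) z) z))) (n (n z (n (n (n (n z (cm 16262)) z) z) (cm 51545))) (n (n (n z (cp 2518)) (cp 27701)) z)))⟩,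
  ⟨1, 7274156152344, 258, (n (n (n (n (n z (n z (n z (cm 623019)))) (n (n z (n z (cm 378684))) z)) (n (n (n z (n z (cp 2653771))) (n (n z (cm 57624)) (cm 148429))) (n (n z (cm 481000)) z))) (n (n (n z (n (n z (cp 194850)) (cp 76229))) (n (n (n z (cp 30324)) (cp 81984)) z)) (n (n (n (n z (cm 394914)) (cm 502933)) z) z))) (n (n z (n (n (n (n z (cm 383516)) z) z) (cp 270124))) (n (n (n z (cp 214358)) (cp 162149)) z)))⟩,
  ⟨1, 933040916922432, 258, (n (n (n (n (n z (n z (n z (cp 1738601)))) (n (n z (n z (cm 3921499))) z)) (n (n z (n (n z (cp 223530)) (cp 2641218))) (n (n z (cm 7116930)) z))) (n (n (n z (n (n z (cp 1305014)) (cm 7734543))) (n (n (n z (cm 2388242)) (cp 29299216)) z)) (n (n (n (n z (cp 1816267)) (cm 2182070)) z) z))) (n (n z (n (n (n (n z (cp 1726692)) z) z) (cp 2489924))) (n (n (n z (cp 2262758)) (cm 4125743)) z)))⟩,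
  ⟨1, 27351702151945152, 258, (n (n (n (n (n z (n z (n z (cm 6737208)))) (n (n z (n z (cp 12739884))) z)) (n (n z (n (n z (cm 48904065)) (cp 15543398))) (n (n z (cm 4838388)) z))) (n (n (n z (n (n z (cp 155588362)) (cm 27065047))) (n (n (n z (cm 40006532)) z) z)) (n (n (n (n z (cm 43204042)) (cp 9791527)) z) z))) (n (n z (n (n (n (n z (cp 20544252)) z) z) (cp 5256580))) (n (n (n z (cm 14069453)) (cp 3681920)) z)))⟩,
  ⟨1, 3156270082095722112, 258, (n (n (n (n (n z (n z (n z (cm 463766988)))) (n (n z (n z (cp 180986072))) z)) (n (n z (n (n z (cm 335505955)) (cp 1690502448))) (n (n z (cm 367568724)) z))) (n (n (n z (n z (cm 343245529))) (n (n (n z (cp 78231419)) z) z)) (n (n (n (n z (cp 52992503)) (cm 200855018)) z) z))) (n (n z (n (n (n (n z (cp 33159298)) z) z) (cp 60647944))) (n (n (n z (cm 10338529)) (cp 33703628)) z)))⟩,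
  ⟨1, 335098098733919260032, 258, (n (n (n (n (n z (n z (n z (cp 529906537)))) (n (n z (n z (cm 1098933943))) z)) (n (n z (n (n z (cm 1936200027)) z)) (n (n z (cp 1329935185)) z))) (n (n (n z (n z (cp 1070918834))) (n (n (n z (cp 542075953)) z) z)) (n (n (n (n z (cm 4716815626)) (cp 1092035727)) z) z))) (n (n z (n (n (n (n z (cp 16518663782)) z) z) (cm 4756572567))) (n (n (n z (cm 1380520197)) (cm 479750875)) z)))⟩,
  ⟨1, 6973351927054553922840, 258, (n (n (n (n (n z (n z (n z (cp 6014201007)))) (n (n z (n z (cm 304390883))) z)) (n (n z (n (n z (cm 5475163270)) z)) (n (n z (cm 19297074152)) z))) (n (n (n z (n z (cp 2668674217))) (n (n (n z (cp 2199533693)) z) z)) (n (n (n (n z (cm 5755964793)) (cp 1845029580)) z) z))) (n (n z (n z (cp 70358313270))) (n (n (n z (cm 2643539022)) (cm 14133408136)) z)))⟩,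
  ⟨1, 2486571040660251582576, 258, (n (n (n (n (n z (n z (n z (cm 1897312543)))) (n (n z (n z (cp 2935590994))) z)) (n (n z (n (n z (cp 1093404080)) z)) (n (n z (cm 8921124288)) z))) (n (n (n z (n z (cm 10546858750))) (n (n (n z (cp 1121165626)) z) z)) (n (n (n (n z (cm 12330191773)) (cp 44176923186)) z) z))) (n z (n (n (n z (cm 1602784110)) (cp 899123886)) z)))⟩,
  ⟨1, 1150025546337509953045440, 258, (n (n (n (n (n z (n z (n z (cp 137827006)))) (n (n z (n z (cp 101943834643))) z)) (n (n z (n (n z (cm 223856067097)) z)) (n (n z (cm 52064960958)) z))) (n (n (n z (n z (cp 34883729166))) (n (n (n z (cm 135703753995)) z) z)) (n (n (n (n z (cp 867742298768)) z) z) z))) (n z (n (n (n z (cm 122694377693)) (cm 11640328695)) z)))⟩,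
  ⟨1, 637911587495432212965347904, 258, (n (n (n (n (n z (n z (n z (cm 4812963416469)))) (n (n z (n z (cp 20420539997273))) z)) (n (n z (n (n z (cp 3281861835666)) z)) (n (n z (cm 3776024735284)) z))) (n (n (n z (n z (cp 117409569586))) (n (n (n z (cm 2555153900963)) z) z)) z)) (n z (n (n (n z (cp 2214003539198)) (cm 4787977540359)) z)))⟩,
  ⟨1, 132205956859486539848402130456, 258, (n (n (n (n (n z (n z (n z (cp 269756898522153)))) z) (n (n z (n (n z (cm 81656439569750)) z)) (n (n z (cm 18976059069755)) z))) (n (n (n z (n z (cm 76599033193855))) (n (n (n z (cm 8996451508336)) z) z)) z)) (n z (n (n (n z (cm 51254000430555)) (cp 5445108195491)) z)))⟩,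
  ⟨1, 10748006544557600955535925918640, 258, (n (n (n z (n (n z (n (n z (cm 185742059434965)) z)) (n (n z (cp 2490206599775555)) z))) (n (n (n z (n z (cm 294405861001990))) (n (n (n z (cm 17575989599953)) z) z)) z)) (n z (n (n (n z (cp 193082669569741)) (cp 153469920869904)) z)))⟩,
  ⟨1, 4905814070124571910244444678923640, 258, (n (n (n z (n (n z (n (n z (cp 6479468341688058)) z)) z)) (n (n (n z (n z (cp 8640226752413413))) (n (n (n z (cm 14761367168212402)) z) z)) z)) (n z (n (n (n z (cm 14797919010485727)) (cp 54723416551581818)) z)))⟩,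
  ⟨1, 56023340288598832604299804991567928, 258, (n (n (n z (n (n z (n (n z (cp 170625738848596066)) z)) z)) (n (n (n z (n z (cm 19692779507105260))) (n (n (n z (cp 10601681182248966)) z) z)) z)) (n z (n (n (n z (cm 22190935469579639)) z) z)))⟩,
  ⟨1, 104869371319151809428694033255944954, 258, (n (n z (n (n (n z (n z (cm 63566004267862227))) (n (n (n z (cp 15596122686846643)) z) z)) z)) (n z (n (n (n z (cp 204872121534971823)) z) z)))⟩,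
  ⟨7, 1359548443209174288572944730864732760, 258, (n (n z (n (n (n z (n z (cm 515305854760392))) (n (n (n z (cp 276503466532963255)) z) z)) z)) z)⟩,
  ⟨1, 84, 263, (n (n (n z (n (n z (cp 1)) z)) (n (n z (cm 3)) z)) (n (n (n (n z (cm 2)) (cp 14)) z) z))⟩,
  ⟨1, 15708, 263, (n (n (n z (n (n z (cm 52)) z)) (n (n z (cp 9)) z)) (n (n (n (n z (cp 187)) z) z) z))⟩,
  ⟨1, 6568188, 263, (n (n (n z (n (n z (cm 1133)) z)) (n (n z (cp 2927)) z)) z)⟩,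
  ⟨1, 384, 267, (n (n (n z (n (n z (cp 32)) z)) (n (n z (cm 4)) z)) z)⟩,
  ⟨1, 84, 275, (n (n z (n (n (n z (cm 2)) (cp 14)) z)) z)⟩,
  ⟨1, 84, 291, (n (n z (n (n (n z (cp 14)) (cm 2)) z)) z)⟩,
  ⟨1, 360, 323, (n (n z (n (n z (cp 4)) (cm 7))) (n (n (n z (cm 7)) (cp 30)) (cm 4)))⟩,
  ⟨1, 79560, 323, (n (n z (n (n (n z (cm 44)) (cp 442)) (cm 103))) (n (n (n z (cm 118)) z) (cm 49)))⟩,
  ⟨1, 64926264, 323, (n (n z (n (n (n z (cp 12241)) z) (cm 1637))) (n (n (n z (cm 356)) z) (cm 1917)))⟩,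
  ⟨1, 187791727128, 323, (n (n z (n z (cm 163987))) (n (n (n z (cm 180121)) z) (cp 639217)))⟩,
  ⟨1, 107972848636344, 323, (n (n z (n z (cp 14076186))) (n (n (n z (cm 1275598)) z) z))⟩,
  ⟨1, 360, 387, (n (n z (n (n z (cm 10)) (cp 5))) (n (n (n z (cp 30)) (cm 7)) (cm 9)))⟩,
  ⟨1, 12600, 387, (n (n z (n (n (n z (cm 17)) (cm 36)) (cp 175))) (n (n z (cm 27)) (cm 25)))⟩,
  ⟨1, 9441600, 387, (n (n z (n (n (n z (cp 4496)) (cm 635)) z)) (n (n z (cm 83)) (cm 602)))⟩,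
  ⟨1, 6200217792, 387, (n (n z (n (n z (cm 36283)) z)) (n (n z (cm 24387)) (cp 114921)))⟩,
  ⟨1, 21395791817460, 387, (n (n z (n (n z (cp 6205942)) z)) (n (n z (cm 488568)) z))⟩,
  ⟨1, 360, 270, (n (n (n z (n (n z (cp 2)) (cp 2))) (n (n (n z (cm 7)) (cm 6)) z)) (n (n z (cm 7)) (cp 30)))⟩,
  ⟨1, 17460, 270, (n (n (n z (n (n z (cm 55)) (cp 19))) (n (n (n z (cp 194)) (cm 58)) z)) (n (n z (cm 0)) z))⟩,
  ⟨1, 10827528, 270, (n (n (n z (n (n z (cp 38)) (cm 1311))) (n (n z (cp 4651)) z)) (n (n z (cp 18)) z))⟩,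
  ⟨1, 4637586516, 270, (n (n (n z (n (n z (cm 16305)) (cm 20591))) z) (n (n z (cp 83093)) z))⟩,
  ⟨1, 311150546358, 270, (n (n (n z (n (n z (cp 624101)) (cm 175144))) z) z)⟩,
  ⟨7, 48, 278, (n (n z (n (n (n z (cm 0)) (cp 4)) z)) (n z (cm 0)))⟩,
  ⟨35, 144, 278, (n (n z (n (n (n z (cp 3)) z) z)) (n z (cm 0)))⟩,
  ⟨1, 312, 294, (n (n z (n (n (n z (cm 6)) (cp 26)) z)) (n z (cm 5)))⟩,
  ⟨1, 195624, 294, (n (n z (n (n (n z (cp 627)) z) z)) (n z (cm 223)))⟩,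
  ⟨1, 336, 326, (n (n (n (n z (n z (cp 28))) (n (n z (cm 6)) z)) (n (n (n z (cm 10)) z) z)) (n z (cm 0)))⟩,
  ⟨1, 244272, 326, (n (n (n z (n (n z (cm 6)) z)) (n (n (n z (cm 122)) z) z)) (n z (cp 727)))⟩,
  ⟨1, 145463976, 326, (n (n (n z (n (n z (cm 4210)) z)) (n (n (n z (cp 16674)) z) z)) z)⟩,
  ⟨1, 360, 390, (n (n (n (n z (n z (cm 6))) (n (n z (cp 30)) z)) (n (n (n z (cm 5)) z) z)) (n z (cm 0)))⟩,
  ⟨1, 302040, 390, (n (n (n (n z (n z (cm 6))) z) (n (n (n z (cm 155)) z) z)) (n z (cp 839)))⟩,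
  ⟨1, 218213832, 390, (n (n (n (n z (n z (cm 6244))) z) (n (n (n z (cp 21674)) z) z)) z)⟩,
  ⟨1, 336, 282, (n (n (n (n z (n z (cm 4))) z) (n (n (n z (cm 5)) (cp 28)) z)) (n (n (n z (cm 2)) z) (cm 4)))⟩,
  ⟨1, 62832, 282, (n (n (n (n z (n z (cm 126))) z) (n (n (n z (cp 374)) z) z)) (n (n (n z (cp 33)) z) (cm 126)))⟩,
  ⟨1, 36972144, 282, (n (n (n (n z (n z (cp 10))) z) z) (n (n (n z (cm 1770)) z) (cp 8238)))⟩,
  ⟨11, 407682144, 282, (n (n (n (n z (n z (cp 8248))) z) z) (n (n (n z (cm 1770)) z) z))⟩,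
  ⟨1, 240, 298, (n (n (n (n z (n z (cp 3))) z) (n (n (n z (cm 3)) (cm 5)) z)) (n (n (n (n z (cm 5)) z) z) (cp 20)))⟩,
  ⟨1, 5760, 298, (n (n (n (n z (n z (cm 11))) z) (n (n (n z (cp 96)) (cm 25)) z)) (n (n (n (n z (cm 20)) z) z) z))⟩,
  ⟨1, 13248, 298, (n (n (n (n z (n z (cp 138))) z) (n (n z (cm 37)) z)) (n (n (n (n z (cm 44)) z) z) z))⟩,
  ⟨1, 25162368, 298, (n (n z (n (n z (cp 5698)) z)) (n (n (n (n z (cm 546)) z) z) z))⟩,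
  ⟨1, 21, 330, (n (n (n (n z (n z (cm 1))) (n (n z (cp 7)) z)) z) (n (n z (cm 1)) z))⟩,
  ⟨1, 651, 330, (n (n (n (n z (n z (cp 31))) z) z) (n (n z (cm 3)) z))⟩,
  ⟨1, 360, 394, (n (n (n (n z (n z (cm 6))) (n (n z (cp 30)) z)) z) (n (n (n z (cm 0)) z) z))⟩,
  ⟨1, 258840, 394, (n (n (n (n z (n z (cm 216))) z) z) (n (n (n z (cp 719)) z) z))⟩,
  ⟨1, 360, 306, (n (n (n (n z (n z (cm 5))) (n (n z (cp 30)) (cm 4))) (n (n (n z (cm 5)) (cp 2)) z)) (n (n z (cm 7)) (cp 4)))⟩,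
  ⟨1, 12600, 306, (n (n (n (n z (n z (cm 41))) (n z (cp 175))) (n (n (n z (cp 6)) (cm 33)) z)) (n (n z (cm 55)) (cp 28)))⟩,
  ⟨1, 186600, 306, (n (n (n (n z (n z (cp 4))) z) (n (n (n z (cp 18)) (cm 6)) z)) (n (n z (cp 622)) (cm 160)))⟩,
  ⟨1, 88455864, 306, (n (n (n (n z (n z (cm 3133))) z) (n (n (n z (cm 1973)) (cm 2134)) z)) (n z (cp 11851)))⟩,
  ⟨1, 511681620240, 306, (n (n (n (n z (n z (cm 229074))) z) (n (n (n z (cm 116693)) (cp 719604)) z)) z)⟩,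
  ⟨1, 25352128656, 306, (n (n (n (n z (n z (cm 59044))) z) (n (n (n z (cp 158538)) z) z)) z)⟩,
  ⟨1, 84, 338, (n (n (n z (n (n z (cm 2)) z)) z) (n (n z (cp 14)) z))⟩,
  ⟨1, 84, 402, (n (n (n z (n (n z (cp 14)) z)) z) (n (n z (cm 2)) z))⟩,
  ⟨1, 312, 354, (n (n (n z (n (n z (cm 4)) z)) z) (n (n z (cp 26)) z))⟩,
  ⟨1, 84, 418, (n (n (n z (n (n z (cm 2)) z)) z) (n (n z (cp 14)) z))⟩,
  ⟨1, 384, 450, (n (n (n z (n (n z (cm 10)) (cp 6))) (n (n (n z (cp 32)) (cm 10)) (cm 8))) z)⟩,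
  ⟨1, 336, 450, (n (n (n z (n (n z (cm 2)) (cm 2))) (n z (cm 2))) (n (n z (cp 28)) z))⟩,
  ⟨1, 16345728, 450, (n (n (n z (n (n z (cm 1436)) (cm 813))) (n (n z (cm 1588)) (cp 6081))) z)⟩,
  ⟨1, 172989466416, 450, (n (n (n z (n (n z (cm 11129)) (cm 167520))) (n (n z (cp 592657)) z)) z)⟩,
  ⟨1, 101665391667528, 450, (n (n (n z (n (n z (cm 4294984)) (cp 14295142))) z) z)⟩,
  ⟨1, 600, 287, (n (n (n z (cm 6)) (cp 50)) z)⟩,
  ⟨1, 648, 303, (n (n (n z (cp 54)) (cm 4)) z)⟩,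
  ⟨1, 104, 335, (n (n z (cm 6)) (cp 26))⟩,
  ⟨1, 912, 399, (n (n z (cm 22)) (cp 76))⟩,
  ⟨1, 1392, 455, (n (n (n z (cm 8)) (cm 4)) (cp 116))⟩,
  ⟨1, 2871696, 455, (n (n (n z (cm 856)) (cp 2063)) z)⟩,
  ⟨1, 66, 315, (n (n (n z (cp 11)) (cm 0)) z)⟩,
  ⟨1, 768, 347, (n (n (n z (cm 8)) z) (cp 64))⟩,
  ⟨1, 792, 411, (n (n (n z (cm 12)) z) (cp 66))⟩,
  ⟨1, 4, 363, (n (n (n z (cm 0)) z) (cp 4))⟩,
  ⟨1, 36, 427, (n (n (n z (cm 0)) z) (cp 12))⟩,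
  ⟨1, 168, 459, (n (n (n z (cm 8)) (cp 28)) z)⟩,
  ⟨1, 228, 371, (n (n z (cp 38)) (cm 10))⟩,
  ⟨1, 234, 435, (n (n z (cp 39)) (cm 10))⟩,
  ⟨1, 744, 318, (n (n (n z (cm 13)) (cm 14)) (cp 62))⟩,
  ⟨1, 2323512, 318, (n (n (n z (cm 891)) (cp 3123)) z)⟩,
  ⟨1, 51, 350, (n (n (n z (cp 17)) z) (cm 2))⟩,
  ⟨1, 88, 414, (n (n (n z (cp 22)) z) (cm 2))⟩,
  ⟨1, 576, 366, (n (n (n z (cp 48)) z) (cm 4))⟩,
  ⟨1, 4, 430, (n (n (n z (cp 4)) z) (cm 0))⟩,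
  ⟨1, 936, 462, (n (n (n z (cm 22)) (cp 78)) z)⟩,
  ⟨1, 672, 378, (n (n (n z (cp 56)) z) (cm 4))⟩,
  ⟨1, 162, 442, (n (n (n z (cp 27)) z) (cm 3))⟩,
  ⟨1, 744, 474, (n (n z (cp 62)) (cm 4))⟩,
  ⟨1, 528, 490, (n (n z (cp 44)) (cm 6))⟩,
  ⟨1, 222, 498, (n (n (n z (cp 37)) (cm 11)) z)⟩]

theorem i12_1_8 : Ineq 10 can12 1 8 :=
  ineq_of_check (K := 26673547493697505883321551468624020245196263079330539011842770935447607750307001043819563737705387426899397457301342043556843574876586044037150891558143156009026753232386685668850189093614356787414256758683666753672036254936999960906797751164180403950008018637857893443648176825599) (cs := q12_1_8) (by decide +kernel)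

def q12_2_3 : List Sq := [⟨1, 36, 12, (n (n (n z (n (n z (n (n z (cp 1)) z)) z)) (n (n z (n z (cp 1))) (n (n (n z (cm 0)) (cm 0)) z))) (n (n (n z (n (n (n z (cp 1)) z) (cp 1))) (n (n (n (n z (cm 0)) (cm 0)) (cm 0)) (cm 0))) (n (n (n z (cm 0)) (cm 1)) (cp 6))))⟩,
  ⟨1, 288, 12, (n (n (n (n z (n (n z (n z (cp 3))) z)) (n (n z (n (n z (cp 1)) z)) z)) (n (n z (n (n z (cm 2)) (cm 1))) (n (n (n z (cm 0)) (cm 0)) z))) (n (n (n z (n (n (n z (cm 1)) z) (cp 1))) (n (n (n (n z (cp 2)) (cm 0)) (cp 2)) (cm 6))) (n (n (n z (cm 0)) (cp 16)) z)))⟩,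
  ⟨1, 8928, 12, (n (n (n (n z (n (n z (n z (cp 17))) (n (n z (cm 15)) z))) (n (n z (n (n z (cm 12)) z)) (n z (cp 32)))) (n (n z (n (n z (cm 0)) (cm 13))) (n (n (n z (cm 2)) (cm 18)) z))) (n (n (n z (n (n (n z (cp 2)) z) (cp 3))) (n (n (n (n z (cm 17)) (cp 13)) (cm 33)) (cp 11))) (n (n (n (n z (cm 15)) (cp 93)) z) z)))⟩,
  ⟨1, 302436, 12, (n (n (n (n z (n (n z (n z (cm 354))) (n (n z (cp 170)) z))) (n (n z (n (n z (cm 12)) z)) (n (n z (cp 93)) (cp 32)))) (n (n z (n (n z (cm 93)) (cm 13))) (n (n (n z (cm 95)) (cm 18)) z))) (n (n (n z (n (n (n z (cm 369)) z) (cp 3))) (n (n (n (n z (cm 17)) (cp 13)) (cm 33)) (cp 104))) (n (n (n (n z (cp 542)) z) z) z)))⟩,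
  ⟨1, 1990224, 12, (n (n (n (n z (n (n z (n z (cp 283))) (n (n z (cm 62)) z))) (n (n z (n (n z (cp 118)) z)) (n (n z (cm 322)) (cm 352)))) (n (n z (n (n z (cm 63)) (cp 2))) (n (n (n z (cm 24)) (cm 35)) z))) (n (n (n z (n (n (n z (cm 101)) z) (cm 193))) (n (n (n (n z (cm 190)) (cm 117)) (cm 149)) (cp 1224))) z))⟩,
  ⟨1, 1219104, 12, (n (n (n (n z (n (n z (n z (cp 31))) (n (n z (cp 147)) z))) (n (n z (n (n z (cm 229)) z)) (n (n z (cp 187)) (cm 82)))) (n (n z (n (n z (cp 2)) (cp 188))) (n (n (n z (cm 54)) (cm 323)) z))) (n (n (n z (n z (cm 385))) (n (n (n (n z (cm 154)) (cm 177)) (cp 996)) z)) z))⟩,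
  ⟨1, 1178013024, 12, (n (n (n (n z (n (n z (n z (cp 797))) (n (n z (cp 1209)) z))) (n (n (n z (n z (cm 5975))) (n (n z (cp 866)) z)) (n (n z (cm 5826)) (cp 3071)))) (n (n z (n (n z (cp 5674)) (cp 2488))) (n (n (n z (cm 7132)) (cm 1871)) z))) (n (n (n z (n (n (n z (cp 996)) z) (cm 7449))) (n (n (n (n z (cm 6972)) (cp 32854)) z) z)) z))⟩,
  ⟨1, 523281427920, 12, (n (n (n (n z (n (n z (n z (cp 22181))) (n (n z (cm 1844)) z))) (n (n (n z (n z (cm 159307))) (n (n z (cm 146351)) z)) (n (n z (cm 28526)) (cp 31673)))) (n (n z (n (n z (cp 32266)) (cp 40552))) (n (n (n z (cm 66398)) (cp 39950)) z))) (n (n (n z (n (n (n z (cm 115815)) z) (cp 64604))) (n (n (n (n z (cp 663645)) z) z) z)) z))⟩,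
  ⟨1, 12232240930080, 12, (n (n (n (n z (n (n z (n z (cm 555753))) (n (n z (cm 456719)) z))) (n (n (n z (n z (cp 591472))) (n (n z (cp 406698)) z)) (n (n z (cm 689636)) (cm 887616)))) (n (n z (n (n z (cp 151231)) (cp 216847))) (n (n (n z (cp 569856)) (cm 338634)) z))) (n (n (n z (n (n (n z (cm 692235)) z) (cp 3071984))) z) z))⟩,
  ⟨1, 9222753372576, 12, (n (n (n (n z (n (n z (n z (cm 445405))) (n (n z (cp 66308)) z))) (n (n (n z (n z (cp 15048))) (n (n z (cm 174577)) z)) (n (n z (cp 261769)) (cm 147126)))) (n (n z (n (n z (cp 178237)) (cm 167786))) (n (n (n z (cm 339323)) (cm 40268)) z))) (n (n (n z (n (n (n z (cp 2001476)) z) z)) z) z))⟩,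
  ⟨1, 475778265421200, 12, (n (n (n (n z (n (n z (n z (cp 477798))) (n (n z (cp 4105414)) z))) (n (n (n z (n z (cp 458876))) (n (n z (cm 4799829)) z)) (n (n z (cp 592471)) (cm 3548686)))) (n (n z (n (n z (cp 3821423)) (cm 6894148))) (n (n (n z (cm 9223761)) (cp 19809475)) z))) z)⟩,
  ⟨1, 37578109978619700, 12, (n (n (n (n z (n (n z (n z (cp 24120976))) (n (n z (cm 439106)) z))) (n (n (n z (n z (cm 57329737))) (n (n z (cm 28023659)) z)) (n (n z (cm 28151322)) (cp 591006)))) (n (n z (n (n z (cm 62421098)) (cm 26036162))) (n (n (n z (cp 158081381)) z) z))) z)⟩,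
  ⟨1, 695869957053551472, 12, (n (n (n (n z (n (n z (n z (cp 45504070))) (n (n z (cm 291264325)) z))) (n (n (n z (n z (cm 17372820))) (n (n z (cp 66731921)) z)) (n (n z (cp 154645664)) (cm 299164966)))) (n (n z (n (n z (cm 343474182)) (cp 733662152))) z)) z)⟩,
  ⟨1, 11603376214266756624, 12, (n (n (n (n z (n (n z (n z (cm 730014117))) (n (n z (cm 572409729)) z))) (n (n (n z (n z (cp 396965497))) (n (n z (cp 163888259)) z)) (n (n z (cm 1131388423)) (cp 210739347)))) (n (n z (n (n z (cp 2635949027)) z)) z)) z)⟩,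
  ⟨1, 144593154885949329672, 12, (n (n (n (n z (n (n z (n z (cp 222805870))) (n (n z (cm 3918982948)) z))) (n (n (n z (n z (cp 917734378))) (n (n z (cm 1419392935)) z)) (n (n z (cm 2500774561)) (cp 9142384356)))) z) z)⟩,
  ⟨1, 454242595872868845336, 12, (n (n (n (n z (n (n z (n z (cm 2463849387))) (n (n z (cm 121739988)) z))) (n (n (n z (n z (cm 4308046467))) (n (n z (cp 1212333452)) z)) (n (n z (cp 16561784402)) z))) z) z)⟩,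
  ⟨1, 1839809079080803785528, 12, (n (n (n (n z (n (n z (n z (cp 2053483135))) (n (n z (cm 4829047840)) z))) (n (n (n z (n z (cm 12310416392))) (n (n z (cp 37029203988)) z)) z)) z) z)⟩,
  ⟨1, 3628570027177724672232, 12, (n (n (n (n z (n (n z (n z (cm 5692376782))) (n (n z (cp 1972657863)) z))) (n (n (n z (n z (cp 48996057657))) z) z)) z) z)⟩,
  ⟨1, 45950130623641607772840, 12, (n (n (n (n z (n (n z (n z (cm 36256946188))) (n (n z (cp 156305537020)) z))) z) z) z)⟩,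
  ⟨1, 21, 15, (n z (n (n (n z (cp 7)) (cm 1)) z))⟩,
  ⟨1, 945, 15, (n (n z (n z (cm 13))) (n (n z (cp 45)) z))⟩,
  ⟨1, 21, 29, (n z (n (n (n z (cp 7)) (cm 1)) z))⟩,
  ⟨1, 504, 29, (n (n z (n z (cm 6))) (n (n z (cp 24)) z))⟩,
  ⟨1, 84, 45, (n (n z (n (n z (cp 14)) (cm 4))) (n (n (n z (cm 2)) (cp 1)) z))⟩,
  ⟨1, 14364, 45, (n (n z (n z (cp 171))) (n (n (n z (cm 0)) (cm 50)) z))⟩,
  ⟨2, 31293, 45, (n z (n (n (n z (cm 39)) (cp 183)) z))⟩,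
  ⟨1, 84, 77, (n (n (n z (n (n z (cp 14)) z)) (n (n (n z (cm 3)) z) (cm 0))) (n (n z (cm 5)) (cp 2)))⟩,
  ⟨1, 3780, 77, (n (n z (n (n (n z (cp 90)) z) (cm 22))) (n (n z (cp 9)) (cm 23)))⟩,
  ⟨1, 6780, 77, (n (n z (n z (cm 40))) (n (n z (cp 113)) (cm 37)))⟩,
  ⟨1, 7944804, 77, (n (n z (n z (cm 1054))) (n z (cp 3906)))⟩,
  ⟨1, 84, 141, (n (n (n z (n (n z (cm 2)) z)) (n (n (n z (cp 14)) z) (cm 2))) (n (n z (cp 2)) (cm 3)))⟩,
  ⟨1, 3780, 141, (n (n (n z (n (n z (cp 8)) z)) (n z (cm 12))) (n (n z (cm 30)) (cp 90)))⟩,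
  ⟨1, 592380, 141, (n (n (n z (n (n z (cm 285)) z)) (n z (cm 378))) (n (n z (cp 1097)) z))⟩,
  ⟨1, 336011100, 141, (n (n (n z (n (n z (cm 3456)) z)) (n z (cp 25525))) z)⟩,
  ⟨1, 84, 269, (n (n (n z (n z (cm 0))) (n (n (n z (cp 14)) (cm 3)) z)) z)⟩,
  ⟨1, 3780, 269, (n (n (n z (n z (cm 22))) (n (n z (cp 90)) z)) z)⟩,
  ⟨1, 72, 30, (n (n z (n (n z (cm 2)) (cp 2))) (n (n (n z (cp 12)) (cm 2)) (cm 1)))⟩,
  ⟨1, 2088, 30, (n (n z (n (n z (cm 14)) (cp 58))) (n (n z (cm 8)) (cm 9)))⟩,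
  ⟨17, 2784, 30, (n (n z (n (n z (cm 4)) z)) (n (n z (cm 2)) (cp 16)))⟩,
  ⟨1, 11808, 30, (n (n z (n (n z (cp 123)) z)) (n (n z (cm 10)) z))⟩,
  ⟨1, 84, 46, (n (n z (n (n z (cm 2)) (cm 2))) (n (n z (cm 2)) (cp 14)))⟩,
  ⟨17, 924, 46, (n (n z (n (n z (cm 2)) (cp 11))) (n (n z (cm 2)) z))⟩,
  ⟨1, 2244, 46, (n (n z (n (n z (cp 68)) z)) (n (n z (cm 8)) z))⟩,
  ⟨1, 21, 78, (n z (n (n z (cm 1)) (cp 7)))⟩,
  ⟨1, 84, 270, (n (n (n z (n (n z (cm 3)) (cp 1))) (n (n (n z (cp 14)) (cm 3)) z)) (n (n z (cp 1)) (cm 2)))⟩,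
  ⟨1, 3780, 270, (n (n (n z (n (n z (cm 0)) (cm 25))) (n (n z (cp 90)) z)) (n (n z (cp 9)) (cm 33)))⟩,
  ⟨1, 559980, 270, (n (n (n z (n (n z (cp 8)) (cm 16))) z) (n (n z (cm 296)) (cp 1037)))⟩,
  ⟨1, 197640, 270, (n (n (n z (n (n z (cm 106)) (cp 540))) z) (n (n z (cm 106)) z))⟩,
  ⟨1, 3290313960, 270, (n (n (n z (n (n z (cm 18562)) z)) z) (n (n z (cp 59737)) z))⟩,
  ⟨1, 84, 60, (n (n (n (n z (n z (cm 3))) (n (n z (cp 14)) z)) (n (n z (cp 1)) (cm 3))) (n (n (n (n z (cm 2)) z) (cm 2)) (cp 1)))⟩,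
  ⟨1, 15708, 60, (n (n (n (n z (n z (cm 53))) z) (n (n z (cp 17)) (cp 2))) (n (n (n (n z (cp 187)) z) (cm 36)) (cm 52)))⟩,
  ⟨1, 2463912, 60, (n (n (n (n z (n z (cp 2196))) z) (n (n z (cm 628)) (cm 18))) (n (n z (cm 302)) (cp 36)))⟩,
  ⟨1, 256207320, 60, (n (n z (n (n z (cp 19445)) (cm 6052))) (n (n z (cm 20)) (cm 5867)))⟩,
  ⟨1, 18141718320, 60, (n (n z (n z (cp 155496))) (n (n z (cm 35892)) (cm 48688)))⟩,
  ⟨1, 1053534225744, 60, (n z (n (n z (cm 324840)) (cp 1129219)))⟩,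
  ⟨1, 12, 92, (n z (n (n z (cm 0)) (cp 4)))⟩,
  ⟨1, 84, 284, (n (n (n z (n (n z (cm 2)) (cm 2))) z) (n (n z (cp 14)) z))⟩,
  ⟨17, 924, 284, (n (n (n z (n (n z (cp 11)) (cm 2))) z) z)⟩,
  ⟨2, 9, 108, (n z (n (n z (cm 0)) (cp 3)))⟩,
  ⟨1, 8, 172, (n z (n (n z (cp 4)) (cm 0)))⟩,
  ⟨1, 21, 300, (n (n (n z (n (n z (cm 1)) (cm 1))) z) (n (n z (cp 7)) z))⟩,
  ⟨3, 35, 300, (n (n (n z (n (n z (cm 1)) (cp 5))) z) z)⟩,
  ⟨1, 96, 204, (n (n (n (n z (n z (cp 4))) (n (n z (cm 3)) (cm 0))) (n (n z (cm 5)) (cp 16))) (n (n z (cm 1)) (cm 1)))⟩,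
  ⟨1, 1248, 204, (n (n (n (n z (n z (cm 7))) (n (n z (cp 52)) (cm 8))) (n (n z (cp 2)) z)) (n (n z (cm 9)) (cm 5)))⟩,
  ⟨1, 222768, 204, (n (n (n (n z (n z (cm 125))) (n z (cm 274))) (n (n z (cp 714)) z)) (n (n z (cp 70)) (cm 87)))⟩,
  ⟨1, 98940, 204, (n (n (n (n z (n z (cp 485))) (n z (cm 102))) z) (n (n z (cp 46)) (cm 204)))⟩,
  ⟨1, 165241440, 204, (n (n (n z (n z (cm 5458))) z) (n (n z (cp 18928)) (cm 2619)))⟩,
  ⟨775, 27142752, 204, (n (n (n z (n z (cp 239))) z) (n z (cp 4)))⟩,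
  ⟨1, 8, 332, (n z (n (n (n z (cm 0)) (cp 4)) z))⟩,
  ⟨11, 24, 63, (n (n z (cm 0)) (cp 4))⟩,
  ⟨2, 9, 287, (n (n (n z (cp 3)) (cm 0)) z)⟩,
  ⟨1, 12, 303, (n (n (n z (cm 0)) (cp 4)) z)⟩,
  ⟨1, 216, 207, (n (n z (cm 4)) (cp 36))⟩,
  ⟨1, 216, 335, (n (n z (cm 10)) (cp 36))⟩,
  ⟨1, 228, 399, (n (n z (cm 8)) (cp 38))⟩,
  ⟨1, 228, 125, (n (n (n z (cp 38)) z) (cm 10))⟩,
  ⟨1, 216, 189, (n (n (n z (cp 36)) z) (cm 10))⟩,
  ⟨1, 39, 317, (n (n (n z (cm 2)) (cp 13)) z)⟩,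
  ⟨1, 45, 221, (n (n z (cm 0)) (cp 15))⟩,
  ⟨1, 228, 237, (n (n z (cp 38)) (cm 8))⟩,
  ⟨2, 27, 461, (n (n (n z (cm 0)) (cp 9)) z)⟩,
  ⟨1, 180, 318, (n (n (n z (cm 6)) (cm 6)) (cp 30))⟩,
  ⟨37, 4140, 318, (n (n (n z (cm 6)) (cp 23)) z)⟩,
  ⟨1, 156, 222, (n (n z (cm 6)) (cp 26))⟩,
  ⟨1, 48, 238, (n (n z (cp 16)) (cm 0))⟩,
  ⟨5, 12, 462, (n (n (n z (cm 0)) (cp 4)) z)⟩,
  ⟨1, 48, 252, (n (n (n z (cm 4)) (cm 0)) (cp 8))⟩,
  ⟨1, 10704, 252, (n (n (n z (cm 84)) (cp 223)) z)⟩]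

theorem i12_2_3 : Ineq 10 can12 2 3 :=
  ineq_of_check (K := 38958055793426597800646632847699776382683449447629982108433346387717365313037639967273327046935764440405633004888794204590120315786038415199) (cs := q12_2_3) (by decide +kernel)

def q12_2_6 : List Sq := []

theorem i12_2_6 : Ineq 10 can12 2 6 :=
  ineq_of_check (K := 0) (cs := q12_2_6) (by decide +kernel)

def q12_2_7 : List Sq := [⟨1, 36, 132, (n (n (n (n (n z (n z (n z (cm 0)))) (n z (n z (cp 2)))) (n (n z (n z (cm 0))) z)) (n z (n (n (n z (cm 1)) z) z))) (n (n (n (n z (n (n z (cp 1)) (cp 1))) (n (n z (cm 0)) (cm 3))) z) (n (n (n (n z (cm 0)) (cm 0)) z) (cp 6))))⟩,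
  ⟨1, 1260, 132, (n (n (n (n (n z (n z (n z (cp 5)))) (n z (n z (cp 2)))) (n (n z (n z (cm 0))) z)) (n (n (n (n z (n z (cp 6))) (n z (cm 11))) z) (n (n (n z (cm 1)) z) z))) (n (n (n (n z (n (n z (cm 10)) (cp 1))) (n (n (n z (cp 6)) (cm 0)) (cm 9))) (n (n (n (n z (cp 6)) z) z) z)) (n (n (n (n (n z (cm 11)) (cm 0)) (cp 35)) z) z)))⟩,
  ⟨1, 42840, 132, (n (n (n (n (n z (n z (n z (cm 4)))) (n z (n z (cp 12)))) (n (n z (n z (cp 29))) z)) (n (n (n (n z (n z (cm 33))) (n z (cm 36))) z) (n (n (n z (cm 11)) z) z))) (n (n (n (n z (n (n z (cp 4)) (cm 28))) (n (n (n z (cp 1)) (cm 40)) (cp 10))) (n (n (n (n z (cp 1)) (cm 34)) z) z)) (n (n (n (n (n z (cm 36)) (cp 204)) z) z) z)))⟩,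
  ⟨1, 1279080, 132, (n (n (n (n (n z (n z (n z (cp 53)))) (n (n z (n z (cp 204))) (n z (cp 36)))) (n (n z (n z (cp 223))) z)) (n (n (n (n z (n z (cm 373))) (n z (cp 25))) (n (n z (cm 203)) z)) (n (n (n z (cp 168)) z) z))) (n (n (n (n z (n (n z (cm 327)) (cm 18))) (n (n (n z (cm 132)) (cm 54)) (cp 98))) (n (n (n (n z (cm 132)) (cm 36)) z) z)) (n (n (n (n (n z (cp 1045)) z) z) z) z)))⟩,
  ⟨1, 38146680, 132, (n (n (n (n (n z (n z (n z (cm 15)))) (n (n z (n z (cp 37))) (n z (cp 68)))) (n (n (n z (n z (cm 1044))) (n z (cp 189))) z)) (n (n (n (n z (n z (cm 241))) (n z (cm 184))) (n (n z (cm 36)) z)) (n (n (n z (cm 1075)) z) z))) (n (n (n (n z (n (n z (cm 38)) (cm 1196))) (n (n (n z (cm 18)) (cm 1264)) (cm 975))) (n (n (n (n z (cm 2108)) (cp 6084)) z) z)) z))⟩,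
  ⟨1, 124515144, 132, (n (n (n (n (n z (n z (n z (cp 1796)))) (n (n z (n z (cp 283))) (n z (cm 27)))) (n (n (n z (n z (cm 4758))) (n z (cm 1568))) z)) (n (n (n (n z (n z (cm 973))) (n z (cp 613))) (n (n z (cp 1745)) z)) (n (n (n z (cp 1636)) z) z))) (n (n (n (n z (n (n z (cm 1832)) (cm 878))) (n (n (n z (cm 2556)) (cm 850)) (cp 44))) (n (n (n (n z (cp 10233)) z) z) z)) z))⟩,
  ⟨1, 14974235424, 132, (n (n (n (n (n z (n z (n z (cm 13881)))) (n (n z (n z (cm 2722))) (n z (cm 18243)))) (n (n (n z (n z (cm 4614))) (n z (cm 25328))) z)) (n (n (n (n z (n z (cm 16264))) (n z (cm 17215))) (n (n z (cm 28107)) z)) (n (n (n z (cp 10510)) z) z))) (n (n (n (n z (n (n z (cp 8778)) (cm 12839))) (n (n (n z (cp 10682)) (cm 25294)) (cp 81296))) z) z))⟩,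
  ⟨1, 199697933280, 132, (n (n (n (n (n z (n z (n z (cm 18545)))) (n (n z (n z (cm 77718))) (n z (cm 61091)))) (n (n (n z (n z (cm 36570))) (n z (cm 18764))) z)) (n (n (n (n z (n z (cm 41956))) (n z (cm 36527))) (n (n z (cm 22219)) z)) (n (n (n z (cm 33241)) z) z))) (n (n (n (n z (n (n z (cp 4770)) (cm 114167))) (n (n (n z (cm 162621)) (cp 409405)) z)) z) z))⟩,
  ⟨1, 4616088865980, 132, (n (n (n (n (n z (n z (n z (cp 33143)))) (n (n z (n z (cm 903077))) (n z (cp 302951)))) (n (n (n z (n z (cm 306411))) (n z (cp 404330))) z)) (n (n (n (n z (n z (cp 140786))) (n z (cp 136669))) (n (n z (cm 368724)) z)) (n (n (n z (cp 63291)) z) z))) (n (n (n (n z (n (n z (cm 463094)) (cm 266570))) (n (n (n z (cp 1879186)) z) z)) z) z))⟩,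
  ⟨1, 103746209680788, 132, (n (n (n (n (n z (n z (n z (cm 1734904)))) (n (n z (n z (cm 1045531))) (n z (cm 897770)))) (n (n (n z (n z (cm 1228381))) (n z (cp 420246))) z)) (n (n (n (n z (n z (cm 875021))) (n z (cm 2379600))) (n (n z (cp 1315757)) z)) (n (n (n z (cp 258911)) z) z))) (n (n (n (n z (n (n z (cm 2463966)) (cp 9201343))) z) z) z))⟩,
  ⟨1, 1994704014522744, 132, (n (n (n (n (n z (n z (n z (cm 13841894)))) (n (n z (n z (cm 3061878))) (n z (cp 8698834)))) (n (n (n z (n z (cp 2164465))) (n z (cm 2771768))) z)) (n (n (n (n z (n z (cm 2818790))) (n z (cp 2692242))) (n (n z (cp 8351343)) z)) (n (n (n z (cp 6206042)) z) z))) (n (n (n (n z (n (n z (cp 36130668)) z)) z) z) z))⟩,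
  ⟨1, 9101914387936776, 132, (n (n (n (n (n z (n z (n z (cp 15200253)))) (n (n z (n z (cm 1731814))) (n z (cp 9631988)))) (n (n (n z (n z (cm 14733780))) (n z (cm 21932546))) z)) (n (n (n (n z (n z (cm 10635146))) (n z (cm 22864547))) (n (n z (cm 18646172)) z)) (n (n (n z (cp 83972194)) z) z))) z)⟩,
  ⟨1, 195065782975656816, 132, (n (n (n (n (n z (n z (n z (cp 34708282)))) (n (n z (n z (cm 101484453))) (n z (cm 92006290)))) (n (n (n z (n z (cp 2421597))) (n z (cp 879895))) z)) (n (n (n (n z (n z (cm 34802581))) (n z (cm 113284896))) (n (n z (cp 387163444)) z)) z)) z)⟩,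
  ⟨1, 13758069851368829712, 132, (n (n (n (n (n z (n z (n z (cm 540906833)))) (n (n z (n z (cp 407544518))) (n z (cm 1115866354)))) (n (n (n z (n z (cp 536153865))) (n z (cm 1080607004))) z)) (n (n (n (n z (n z (cm 1029980897))) (n z (cp 2961296679))) z) z)) z)⟩,
  ⟨1, 24134797078987021020, 132, (n (n (n (n (n z (n z (n z (cm 1396074741)))) (n (n z (n z (cm 586795583))) (n z (cp 305223053)))) (n (n (n z (n z (cm 1171612008))) (n z (cm 406403759))) z)) (n (n (n (n z (n z (cp 4075038690))) z) z) z)) z)⟩,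
  ⟨1, 439766657735446584, 132, (n (n (n (n (n z (n z (n z (cm 62601255)))) (n (n z (n z (cp 43524357))) (n z (cm 188189295)))) (n (n (n z (n z (cm 171973614))) (n z (cp 539585868))) z)) z) z)⟩,
  ⟨1, 150731796361825168920, 132, (n (n (n (n (n z (n z (n z (cm 2532651475)))) (n (n z (n z (cm 4335065846))) (n z (cm 235263445)))) (n (n (n z (n z (cp 9311573023))) z) z)) z) z)⟩,
  ⟨1, 61337959234404743626812, 132, (n (n (n (n (n z (n z (n z (cm 51887994251)))) (n (n z (n z (cm 43454214502))) (n z (cp 182980061129)))) z) z) z)⟩,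
  ⟨1, 152142564749861769811980, 132, (n (n (n (n (n z (n z (n z (cm 176511507732)))) (n (n z (n z (cp 277156909540))) z)) z) z) z)⟩,
  ⟨1, 18, 135, (n (n (n z (n z (cm 0))) (n (n z (cp 6)) z)) (n (n (n z (cm 1)) z) z))⟩,
  ⟨1, 738, 135, (n (n (n z (n z (cp 41))) z) (n (n (n z (cm 7)) z) z))⟩,
  ⟨1, 8, 141, (n (n (n z (n z (cm 0))) z) (n (n (n z (cp 4)) z) z))⟩,
  ⟨1, 8, 149, (n (n (n z (n z (cp 4))) z) (n (n (n z (cm 0)) z) z))⟩,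
  ⟨1, 18, 165, (n (n (n z (n z (cm 1))) (n (n z (cp 6)) z)) (n (n (n z (cm 0)) z) z))⟩,
  ⟨1, 738, 165, (n (n (n z (n z (cm 7))) z) (n (n (n z (cp 41)) z) z))⟩,
  ⟨1, 96, 197, (n (n (n (n z (n z (cm 2))) (n (n z (cp 2)) (cm 2))) (n (n (n z (cp 2)) z) z)) (n (n (n (n z (cm 2)) (cp 16)) z) (cm 2)))⟩,
  ⟨1, 3744, 197, (n (n (n (n z (n z (cm 12))) (n (n z (cm 17)) (cp 3))) (n (n (n z (cp 78)) z) z)) (n (n (n (n z (cm 4)) z) z) (cm 20)))⟩,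
  ⟨1, 9360, 197, (n (n (n (n z (n z (cm 12))) (n (n z (cp 120)) (cm 32))) z) (n (n (n (n z (cm 22)) z) z) (cm 2)))⟩,
  ⟨1, 782640, 197, (n (n (n (n z (n z (cp 1087))) (n z (cm 332))) z) (n (n (n (n z (cm 342)) z) z) (cp 117)))⟩,
  ⟨1, 15277785, 197, (n (n (n z (n z (cm 1209))) z) (n (n (n (n z (cm 1340)) z) z) (cp 4685)))⟩,
  ⟨12, 89015, 197, (n (n (n z (n z (cp 95))) z) (n (n (n (n z (cm 6)) z) z) z))⟩,
  ⟨1, 84, 389, (n (n (n (n z (n z (cm 2))) (n (n z (cp 14)) z)) (n (n (n z (cm 2)) z) z)) (n (n (n (n z (cm 1)) z) z) z))⟩,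
  ⟨1, 15708, 389, (n (n (n (n z (n z (cm 36))) z) (n (n (n z (cp 187)) z) z)) (n (n (n (n z (cm 47)) z) z) z))⟩,
  ⟨16, 4675, 389, (n (n (n (n z (n z (cp 25))) z) z) (n (n (n (n z (cm 7)) z) z) z))⟩,
  ⟨1, 21, 142, (n (n (n (n z (n z (cm 0))) (n z (cp 7))) z) (n (n (n z (cm 0)) z) z))⟩,
  ⟨1, 4032, 142, (n (n (n (n z (n z (cp 96))) z) z) (n (n (n (n z (cm 34)) (cm 15)) z) z))⟩,
  ⟨7, 96192, 142, (n z (n (n (n (n z (cp 167)) (cm 79)) z) z))⟩,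
  ⟨1, 84, 150, (n (n (n (n z (n z (cm 4))) (n z (cp 1))) z) (n (n (n (n z (cp 14)) (cm 3)) (cm 1)) z))⟩,
  ⟨1, 14364, 150, (n (n (n (n z (n z (cp 171))) (n z (cm 36))) z) (n (n (n z (cm 47)) (cp 18)) z))⟩,
  ⟨1, 2343384, 150, (n (n (n z (n z (cp 2284))) z) (n (n (n z (cm 248)) (cm 440)) z))⟩,
  ⟨1, 40815080, 150, (n z (n (n (n z (cp 8935)) (cm 1896)) z))⟩,
  ⟨1, 84, 166, (n (n (n (n z (n z (cm 1))) (n z (cp 14))) (n (n z (cm 3)) z)) (n (n (n z (cm 0)) z) z))⟩,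
  ⟨3, 140, 166, (n (n (n (n z (n z (cm 1))) z) (n (n z (cp 10)) z)) (n (n (n z (cm 0)) z) z))⟩,
  ⟨1, 1980, 166, (n (n (n (n z (n z (cp 66))) z) z) (n (n (n (n z (cm 24)) (cm 11)) z) z))⟩,
  ⟨1, 316404, 166, (n z (n (n (n (n z (cp 799)) (cm 389)) z) z))⟩,
  ⟨1, 8, 198, (n z (n (n (n z (cp 4)) z) (cm 0)))⟩,
  ⟨1, 21, 390, (n (n (n (n z (n z (cp 7))) (n (n z (cm 0)) z)) (n (n (n z (cm 0)) z) z)) (n (n (n z (cm 1)) z) (cp 1)))⟩,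
  ⟨1, 4032, 390, (n (n (n z (n (n z (cm 29)) z)) (n (n (n z (cp 96)) z) z)) (n (n (n z (cp 10)) z) (cm 32)))⟩,
  ⟨1, 19008, 390, (n (n (n z (n (n z (cp 198)) z)) z) (n (n (n z (cm 1)) z) (cm 34)))⟩,
  ⟨1, 570834, 390, (n z (n (n (n z (cm 292)) z) (cp 961)))⟩,
  ⟨1, 84, 156, (n (n (n (n z (n z (cm 4))) z) z) (n (n (n (n z (cp 14)) (cm 4)) z) z))⟩,
  ⟨1, 1596, 156, (n (n (n (n z (n z (cp 57))) (n z (cm 13))) (n (n z (cm 13)) z)) (n (n (n z (cm 12)) z) z))⟩,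
  ⟨1, 28728, 156, (n (n (n z (n z (cp 252))) (n (n z (cm 70)) z)) (n (n (n z (cm 50)) z) z))⟩,
  ⟨17, 273672, 156, (n (n z (n (n z (cp 181)) z)) (n (n (n z (cm 50)) z) z))⟩,
  ⟨1, 84, 172, (n (n (n (n z (n z (cm 4))) z) (n (n z (cp 1)) z)) (n (n (n (n z (cp 14)) (cm 3)) z) (cm 1)))⟩,
  ⟨1, 14364, 172, (n (n (n (n z (n z (cp 171))) z) (n (n z (cm 36)) z)) (n (n (n z (cm 47)) z) (cp 18)))⟩,
  ⟨1, 2343384, 172, (n (n z (n (n z (cp 2284)) z)) (n (n (n z (cm 248)) z) (cm 440)))⟩,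
  ⟨1, 40815080, 172, (n z (n (n (n z (cp 8935)) z) (cm 1896)))⟩,
  ⟨1, 2, 396, (n (n z (n (n (n z (cm 0)) z) z)) (n z (cp 2)))⟩,
  ⟨1, 66, 396, (n (n (n (n z (n z (cm 2))) z) (n (n (n z (cp 11)) z) z)) z)⟩,
  ⟨1, 21, 180, (n (n (n (n z (n z (cm 0))) z) (n (n z (cp 7)) z)) (n (n (n z (cm 0)) z) z))⟩,
  ⟨1, 4032, 180, (n (n (n (n z (n z (cp 96))) z) z) (n (n (n (n z (cm 34)) (cm 15)) z) z))⟩,
  ⟨7, 96192, 180, (n z (n (n (n (n z (cp 167)) (cm 79)) z) z))⟩,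
  ⟨1, 2, 404, (n (n (n (n z (n z (cm 0))) z) z) (n (n (n z (cp 2)) z) z))⟩,
  ⟨1, 66, 404, (n (n (n (n z (n z (cp 11))) z) (n (n (n z (cm 2)) z) z)) z)⟩,
  ⟨1, 8, 228, (n z (n (n (n z (cm 0)) z) (cp 4)))⟩,
  ⟨1, 21, 420, (n (n (n (n z (n z (cm 0))) (n (n z (cm 0)) z)) (n (n (n z (cp 7)) z) z)) (n (n (n z (cp 1)) z) (cm 1)))⟩,
  ⟨1, 4032, 420, (n (n (n (n z (n z (cm 29))) (n (n z (cp 96)) z)) z) (n (n (n z (cm 4)) z) (cm 3)))⟩,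
  ⟨1, 19008, 420, (n (n (n (n z (n z (cp 198))) z) z) (n (n (n z (cm 78)) z) (cp 20)))⟩,
  ⟨1, 570834, 420, (n z (n (n (n z (cp 961)) z) (cm 292)))⟩,
  ⟨1, 15, 452, (n z (n (n (n (n z (cm 0)) (cm 0)) (cp 5)) (cm 0)))⟩,
  ⟨1, 10, 452, (n z (n (n (n (n z (cm 0)) (cp 4)) z) (cm 0)))⟩,
  ⟨1, 42, 452, (n z (n (n (n (n z (cp 7)) z) z) (cm 2)))⟩,
  ⟨1, 16, 207, (n (n (n z (cp 8)) (cm 0)) z)⟩,
  ⟨1, 180, 215, (n (n (n z (cm 6)) (cp 30)) z)⟩,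
  ⟨1, 48, 231, (n (n (n z (cm 0)) (cm 1)) (cp 8))⟩,
  ⟨5, 144, 231, (n (n (n z (cm 0)) (cp 6)) z)⟩,
  ⟨1, 39, 455, (n (n (n z (cm 2)) (cm 1)) (cp 13))⟩,
  ⟨1, 7488, 455, (n (n (n z (cm 24)) (cp 96)) z)⟩,
  ⟨1, 36, 221, (n (n (n z (cm 2)) (cm 0)) (cp 6))⟩,
  ⟨7, 180, 221, (n (n (n z (cm 2)) (cp 5)) z)⟩,
  ⟨1, 180, 237, (n (n (n z (cm 6)) z) (cp 30))⟩,
  ⟨1, 39, 461, (n (n (n z (cm 0)) z) (cp 13))⟩,
  ⟨1, 16, 245, (n (n (n z (cp 8)) z) (cm 0))⟩,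
  ⟨1, 39, 469, (n (n (n z (cp 13)) z) (cm 0))⟩,
  ⟨1, 168, 485, (n (n (n z (cm 5)) (cm 0)) (cp 28))⟩,
  ⟨1, 37464, 485, (n (n (n z (cm 117)) (cp 223)) z)⟩,
  ⟨1, 228, 190, (n (n z (cp 38)) (cm 2))⟩,
  ⟨1, 57, 414, (n (n (n z (cp 19)) z) (cm 3))⟩,
  ⟨5, 8, 430, (n (n (n z (cp 4)) z) (cm 0))⟩,
  ⟨5, 8, 438, (n (n (n z (cp 4)) z) (cm 0))⟩,
  ⟨1, 57, 444, (n (n (n z (cp 19)) z) (cm 3))⟩]

theorem i12_2_7 : Ineq 10 can12 2 7 :=
  ineq_of_check (K := 133995315120047468766032104408339452486141971658637521904357906244947436929997968602675425927974876167760711140626747681450599162372799) (cs := q12_2_7) (by decide +kernel)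

def q12_2_8 : List Sq := [⟨1, 144, 260, (n (n (n z (n (n z (n (n z (cp 2)) (cp 1))) z)) (n (n z (n (n (n z (cm 2)) (cm 0)) z)) z)) (n (n (n (n z (n (n z (cp 1)) (cp 3))) (n (n z (cm 0)) z)) (n (n (n z (cm 0)) (cm 8)) z)) (n (n (n (n z (cm 2)) (cm 1)) (cp 12)) z)))⟩,
  ⟨1, 5040, 260, (n (n (n z (n (n z (n (n z (cp 2)) (cp 1))) z)) (n (n (n z (n z (cm 11))) (n (n (n z (cm 2)) (cm 0)) z)) z)) (n (n (n (n z (n (n z (cm 16)) (cm 2))) (n (n (n z (cp 6)) (cp 5)) z)) (n (n (n (n z (cp 6)) (cp 5)) (cm 20)) z)) (n (n (n (n (n z (cm 17)) (cm 8)) (cp 70)) z) z)))⟩,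
  ⟨1, 650160, 260, (n (n (n z (n (n z (n (n z (cm 101)) (cp 299))) z)) (n (n (n z (n (n z (cp 70)) (cm 227))) (n (n (n z (cp 83)) (cm 228)) z)) z)) (n (n (n (n z (n (n z (cp 62)) (cm 161))) (n (n (n z (cp 79)) (cm 149)) z)) (n (n (n (n z (cp 79)) (cm 219)) (cp 21)) z)) (n (n (n (n (n z (cm 376)) (cp 774)) z) z) z)))⟩,
  ⟨1, 247450896, 260, (n (n (n z (n (n z (n (n z (cp 3678)) (cp 191))) z)) (n (n (n z (n (n z (cm 5437)) (cm 155))) (n (n (n z (cm 2400)) (cm 984)) z)) z)) (n (n (n (n z (n (n z (cm 459)) (cm 395))) (n (n (n z (cm 1846)) (cp 264)) z)) (n (n (n (n z (cm 3394)) (cm 489)) (cp 381)) z)) (n (n (n (n (n z (cp 13321)) z) z) z) z)))⟩,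
  ⟨1, 8911109592, 260, (n (n (n z (n (n z (n (n z (cm 19027)) (cm 4254))) z)) (n (n (n z (n (n z (cp 977)) (cm 6776))) (n (n (n z (cm 5165)) (cp 4089)) z)) z)) (n (n (n (n z (n (n z (cm 1538)) (cm 11054))) (n (n (n z (cp 4043)) (cm 19271)) z)) (n (n (n (n z (cp 4424)) (cm 18724)) (cp 55746)) z)) z))⟩,
  ⟨1, 390814468488, 260, (n (n (n z (n (n z (n (n z (cp 18746)) (cm 45556))) z)) (n (n (n z (n (n z (cm 45730)) (cp 2367))) (n (n (n z (cp 52146)) (cm 107120)) z)) z)) (n (n (n (n z (n (n z (cp 82935)) (cm 148298))) (n (n (n z (cp 72883)) (cm 68657)) z)) (n (n (n (n z (cm 263107)) (cp 584219)) z) z)) z))⟩,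
  ⟨1, 37222943387256, 260, (n (n (n z (n (n z (n (n z (cm 5549)) (cp 139332))) z)) (n (n (n z (n (n z (cp 366514)) (cm 270090))) (n (n (n z (cm 596727)) (cm 411139)) z)) z)) (n (n (n (n z (n (n z (cm 726825)) (cp 47708))) (n (n (n z (cm 1133544)) (cp 438686)) z)) (n (n (n (n z (cp 5309502)) z) z) z)) z))⟩,
  ⟨1, 907592891934960, 260, (n (n (n z (n (n z (n (n z (cp 955341)) (cm 874457))) z)) (n (n (n z (n (n z (cm 2281672)) (cp 1011284))) (n (n (n z (cp 2937473)) (cm 7312189)) z)) z)) (n (n (n (n z (n (n z (cp 4515581)) (cm 9992502))) (n (n (n z (cm 11707935)) (cp 28489580)) z)) z) z))⟩,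
  ⟨1, 22455092147400360, 260, (n (n (n z (n (n z (n (n z (cm 4884611)) (cm 5590833))) z)) (n (n (n z (n (n z (cp 18355986)) (cm 5992082))) (n (n (n z (cm 16312225)) (cp 2781390)) z)) z)) (n (n (n (n z (n (n z (cm 37500301)) (cp 1513656))) (n (n (n z (cp 131364357)) z) z)) z) z))⟩,
  ⟨1, 3156646213410853008, 260, (n (n (n z (n (n z (n (n z (cp 212333669)) (cm 478010709))) z)) (n (n (n z (n (n z (cp 103207179)) (cm 651206091))) (n (n (n z (cm 87287918)) (cp 376632758)) z)) z)) (n (n (n (n z (n (n z (cm 735997414)) (cp 1501856309))) z) z) z))⟩,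
  ⟨1, 467856404324565667560, 260, (n (n (n z (n (n z (n (n z (cm 3460854914)) (cm 1437654231))) z)) (n (n (n z (n (n z (cm 7218386234)) (cm 707628059))) (n (n (n z (cp 4393403005)) (cp 31420692)) z)) z)) (n (n (n (n z (n (n z (cp 17306597380)) z)) z) z) z))⟩,
  ⟨1, 7166386419414515640, 260, (n (n (n z (n (n z (n (n z (cp 733009420)) (cm 1817195976))) z)) (n (n (n z (n (n z (cp 137196290)) (cm 496488314))) (n (n (n z (cm 883265704)) (cp 2346476442)) z)) z)) z)⟩,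
  ⟨1, 162322512859217243837376, 260, (n (n (n z (n (n z (n (n z (cm 263265459114)) (cp 7676283751))) z)) (n (n (n z (n (n z (cm 51485342128)) (cp 7193630427))) (n (n (n z (cp 339103593032)) z) z)) z)) z)⟩,
  ⟨1, 47119085830328066624324160, 260, (n (n (n z (n (n z (n (n z (cp 1128571284717)) (cm 2350395087592))) z)) (n (n (n z (n (n z (cm 2270096780104)) (cp 5789662165995))) z) z)) z)⟩,
  ⟨1, 115861176277812561979634832, 260, (n (n (n z (n (n z (n (n z (cm 2329243515980)) (cm 432017676307))) z)) (n (n (n z (n (n z (cp 8338222288564)) z)) z) z)) z)⟩,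
  ⟨1, 2945574087129901445628210360, 260, (n (n (n z (n (n z (n (n z (cm 5412562461008)) (cp 23550776054266))) z)) z) z)⟩,
  ⟨1, 312, 263, (n (n (n z (n (n z (cm 7)) (cp 3))) (n (n (n z (cp 26)) (cm 6)) z)) z)⟩,
  ⟨1, 240552, 263, (n (n (n z (n (n z (cm 183)) (cp 771))) (n (n z (cm 160)) z)) z)⟩,
  ⟨1, 113059440, 263, (n (n (n z (n (n z (cp 12220)) z)) (n (n z (cm 486)) z)) z)⟩,
  ⟨1, 21, 269, (n (n (n z (n (n z (cp 7)) (cm 1))) z) z)⟩,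
  ⟨1, 21, 277, (n z (n (n (n (n z (cp 7)) (cm 1)) z) z))⟩,
  ⟨1, 312, 293, (n (n z (n (n (n z (cp 26)) (cm 6)) z)) (n (n (n (n z (cm 7)) (cp 3)) z) z))⟩,
  ⟨1, 240552, 293, (n (n z (n (n z (cm 160)) z)) (n (n (n (n z (cm 183)) (cp 771)) z) z))⟩,
  ⟨1, 113059440, 293, (n (n z (n (n z (cm 486)) z)) (n (n (n (n z (cp 12220)) z) z) z))⟩,
  ⟨1, 21, 325, (n (n z (n (n z (cm 0)) z)) (n (n (n z (cp 7)) (cm 0)) z))⟩,
  ⟨1, 14952, 325, (n (n z (n (n z (cp 178)) z)) (n (n z (cm 136)) z))⟩,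
  ⟨1, 90, 389, (n (n z (n (n z (cm 10)) z)) (n (n (n z (cm 1)) (cp 15)) z))⟩,
  ⟨1, 990, 389, (n (n z (n (n z (cm 12)) z)) (n (n (n z (cp 44)) z) z))⟩,
  ⟨1, 360, 270, (n (n (n z (n (n z (cm 5)) (cp 4))) z) (n (n (n (n z (cp 30)) (cm 11)) (cm 2)) z))⟩,
  ⟨1, 1890, 270, (n (n (n z (n (n z (cp 4)) (cm 10))) z) (n (n (n z (cp 63)) (cm 12)) z))⟩,
  ⟨1, 175014, 270, (n (n (n z (n (n z (cp 463)) (cm 91))) z) (n (n z (cm 102)) z))⟩,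
  ⟨5, 65371896, 270, (n (n (n z (n z (cp 3922))) z) (n (n z (cm 1154)) z))⟩,
  ⟨1, 21, 278, (n z (n (n (n (n z (cp 7)) (cm 2)) z) z))⟩,
  ⟨1, 10, 294, (n z (n (n (n (n z (cm 1)) (cp 5)) z) z))⟩,
  ⟨1, 312, 326, (n z (n (n (n z (cp 26)) (cm 6)) z))⟩,
  ⟨1, 288, 390, (n z (n (n (n z (cm 6)) (cp 24)) z))⟩,
  ⟨1, 336, 284, (n z (n (n (n (n z (cp 28)) (cm 10)) z) z))⟩,
  ⟨1, 21, 300, (n z (n (n (n (n z (cp 7)) (cm 2)) z) z))⟩,
  ⟨1, 360, 308, (n (n z (n (n (n z (cm 5)) (cp 4)) z)) (n (n (n (n z (cp 30)) (cm 11)) z) (cm 2)))⟩,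
  ⟨1, 1890, 308, (n (n z (n (n (n z (cp 4)) (cm 10)) z)) (n (n (n z (cp 63)) z) (cm 12)))⟩,
  ⟨1, 175014, 308, (n (n z (n (n (n z (cp 463)) (cm 91)) z)) (n z (cm 102)))⟩,
  ⟨5, 65371896, 308, (n (n z (n (n z (cp 3922)) z)) (n z (cm 1154)))⟩,
  ⟨1, 312, 356, (n z (n (n z (cm 6)) (cp 26)))⟩,
  ⟨1, 288, 420, (n z (n (n z (cp 24)) (cm 6)))⟩,
  ⟨1, 384, 452, (n (n (n z (n (n z (cm 22)) z)) (n (n (n z (cm 4)) (cp 32)) z)) (n (n (n (n z (cp 7)) (cm 2)) (cm 0)) (cm 4)))⟩,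
  ⟨1, 383616, 452, (n (n (n z (n (n z (cm 274)) z)) (n (n (n z (cp 999)) z) z)) (n (n (n (n z (cm 188)) (cp 81)) (cp 91)) (cm 248)))⟩,
  ⟨1, 353424, 452, (n (n (n z (n (n z (cm 90)) z)) z) (n (n (n (n z (cm 142)) (cp 796)) (cm 122)) (cm 141)))⟩,
  ⟨1, 117486877680, 452, (n (n (n z (n (n z (cm 71266)) z)) z) (n (n (n (n z (cm 82538)) z) (cp 455545)) (cm 108329)))⟩,
  ⟨2, 957438514935, 452, (n (n (n z (n (n z (cp 700581)) z)) z) (n (n (n (n z (cm 150172)) z) z) (cp 2105)))⟩,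
  ⟨1, 6403605284601, 452, (n z (n (n (n (n z (cp 3046807)) z) z) (cm 871029)))⟩,
  ⟨1, 78, 287, (n (n (n z (cp 13)) (cm 2)) z)⟩,
  ⟨1, 648, 303, (n (n (n z (cp 54)) (cm 18)) z)⟩,
  ⟨1, 648, 311, (n (n (n z (cp 54)) (cm 18)) z)⟩,
  ⟨1, 720, 455, (n (n (n z (cp 60)) (cm 18)) z)⟩,
  ⟨1, 78, 317, (n (n (n z (cp 13)) (cm 2)) z)⟩,
  ⟨1, 720, 485, (n (n z (cm 18)) (cp 60))⟩,
  ⟨1, 72, 318, (n (n (n z (cm 0)) (cm 0)) (cp 6))⟩,
  ⟨7, 360, 318, (n (n (n z (cm 0)) (cp 5)) z)⟩,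
  ⟨1, 162, 462, (n (n (n z (cm 6)) z) (cp 27))⟩,
  ⟨1, 162, 500, (n (n z (cm 6)) (cp 27))⟩]

theorem i12_2_8 : Ineq 10 can12 2 8 :=
  ineq_of_check (K := 2669755522417506550393680413479638335105719494023589731665028491247089303935824214978873511707602176754645644752888173236918843021439) (cs := q12_2_8) (by decide +kernel)

end Pool.Agent.Lib.MP_c69b6d_co
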