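import Pool.Agent.Lib.MP_c69b6d_co.Cert2

namespace Pool.Agent.Lib.MP_c69b6d_co

open P2

set_option maxRecDepth 100000

def q12_3_4 : List Sq := [⟨1, 144, 24, (n (n (n (n z (n z (n z (cp 1)))) (n (n (n z (n z (cp 1))) (n (n z (cm 0)) z)) (n (n z (cp 1)) z))) (n (n (n z (n z (cp 1))) (n (n z (cm 11)) (cp 4))) (n (n (n z (cp 1)) z) z))) (n (n (n (n (n z (n z (cp 12))) (n (n z (cp 1)) (cp 3))) (n z (cm 1))) (n (n (n (n z (cp 2)) (cp 2)) (cm 1)) (cp 2))) (n (n (n z (cm 1)) (cm 11)) (cp 2))))⟩,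
  ⟨1, 144, 24, (n (n (n (n (n z (n z (n z (cp 1)))) z) (n (n z (n (n z (cm 1)) z)) (n z (cm 1)))) (n (n (n z (n z (cm 0))) (n z (cm 2))) (n (n (n z (cm 2)) (cp 12)) z))) (n (n (n (n z (n (n z (cp 1)) z)) (n z (cp 1))) (n (n (n (n z (cp 1)) (cp 1)) (cm 1)) z)) (n (n (n z (cm 2)) z) (cm 0))))⟩,
  ⟨1, 20592, 24, (n (n (n (n (n z (n z (n z (cm 35)))) (n z (n z (cp 11)))) (n (n (n z (n z (cp 143))) (n (n z (cm 34)) z)) (n (n z (cm 24)) z))) (n (n (n z (n z (cp 11))) (n z (cp 8))) (n (n (n z (cm 24)) z) z))) (n (n (n (n z (n (n z (cp 23)) (cp 9))) (n z (cm 9))) (n (n (n (n z (cm 37)) (cm 25)) (cp 14)) (cp 10))) (n (n (n z (cm 9)) z) (cp 10))))⟩,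
  ⟨1, 3435120, 24, (n (n (n (n (n z (n z (n z (cm 262)))) (n z (n z (cm 335)))) (n (n z (n (n z (cp 178)) z)) (n (n z (cp 168)) (cm 25)))) (n (n (n z (n z (cp 1835))) (n z (cm 410))) (n (n (n z (cm 494)) z) z))) (n (n (n (n z (n (n z (cp 289)) (cm 359))) (n z (cp 205))) (n (n (n (n z (cm 130)) (cp 13)) (cm 13)) (cm 35))) (n (n (n z (cm 626)) z) (cp 263))))⟩,
  ⟨1, 471316080, 24, (n (n (n (n (n z (n z (n z (cp 2097)))) (n z (n z (cm 1890)))) (n (n z (n (n z (cm 4251)) z)) (n (n z (cm 5476)) (cp 21404)))) (n (n z (n z (cm 6490))) (n (n (n z (cm 999)) z) z))) (n (n (n (n z (n (n z (cp 2189)) (cm 59))) (n z (cm 5164))) (n (n (n (n z (cp 2119)) (cp 2143)) (cm 4283)) (cm 1840))) (n (n (n z (cp 813)) z) (cm 261))))⟩,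
  ⟨1, 62456443920, 24, (n (n (n (n (n z (n z (n z (cm 42314)))) (n z (n z (cp 243165)))) (n (n z (n (n z (cp 28080)) z)) (n (n z (cm 63988)) z))) (n (n z (n z (cm 68054))) (n (n (n z (cp 9584)) z) z))) (n (n (n (n z (n (n z (cp 47385)) (cm 58499))) (n z (cm 80848))) (n (n (n (n z (cm 20864)) (cp 2535)) (cm 3119)) (cp 35067))) (n (n (n z (cp 11429)) z) (cp 1398))))⟩,
  ⟨1, 24996105024, 24, (n (n (n (n (n z (n z (n z (cm 9747)))) z) (n (n z (n (n z (cp 13899)) z)) (n (n z (cm 30493)) z))) (n (n z (n z (cp 1516))) (n (n (n z (cm 30493)) z) z))) (n (n (n (n z (n (n z (cp 12933)) (cm 45478))) (n z (cp 19346))) (n (n (n (n z (cm 28694)) (cp 151856)) (cm 28146)) (cm 15044))) (n (n (n z (cp 19346)) z) (cm 15044))))⟩,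
  ⟨1, 13062540324400320, 24, (n (n (n (n (n z (n z (n z (cp 4833660)))) z) (n (n z (n (n z (cp 1035515)) z)) (n (n z (cp 5775058)) z))) (n (n z (n z (cm 5919939))) (n (n (n z (cm 30062957)) z) z))) (n (n (n (n z (n (n z (cp 6044805)) (cp 4591145))) (n z (cp 13953058))) (n (n (n (n z (cm 20686054)) z) (cm 11184354)) (cm 24567028))) (n (n (n z (cm 30996317)) z) (cp 110281099))))⟩,
  ⟨1, 1542037228606260792, 24, (n (n (n (n (n z (n z (n z (cm 224228230)))) z) (n (n z (n (n z (cm 173285335)) z)) (n (n z (cp 14030639)) z))) (n (n z (n z (cm 85005595))) (n (n (n z (cp 35977931)) z) z))) (n (n (n (n z (n (n z (cp 1165232334)) (cp 86640710))) (n z (cm 348847946))) (n (n (n (n z (cm 247418612)) z) (cp 73210726)) (cp 82581336))) (n (n (n z (cm 321320834)) z) z)))⟩,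
  ⟨1, 41597850779248008168, 24, (n (n (n (n (n z (n z (n z (cm 176788582)))) z) (n (n z (n (n z (cm 1372362676)) z)) (n (n z (cm 359835321)) z))) (n (n z (n z (cp 781053307))) (n (n (n z (cm 581651721)) z) z))) (n (n (n (n z (n z (cm 727907175))) (n z (cm 1213800041))) (n (n (n (n z (cm 254657033)) z) (cp 5949865042)) (cm 834631199))) (n (n (n z (cm 1492010441)) z) z)))⟩,
  ⟨1, 68793903418632988860, 24, (n (n (n (n (n z (n z (n z (cp 520853181)))) z) (n (n z (n (n z (cm 67521077)) z)) (n (n z (cm 2239390999)) z))) (n (n z (n z (cm 364930703))) (n (n (n z (cm 190821909)) z) z))) (n (n (n (n z (n z (cp 251240064))) (n z (cm 2151929656))) (n (n (n (n z (cm 1833217058)) z) z) (cp 7708175220))) (n (n (n z (cp 417462083)) z) z)))⟩,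
  ⟨1, 134188133726541240, 24, (n (n (n (n (n z (n z (n z (cm 78280638)))) z) (n (n z (n (n z (cp 322058127)) z)) (n (n z (cm 25370119)) z))) (n (n z (n z (cm 100611478))) (n (n (n z (cm 25370119)) z) z))) (n (n (n (n z (n z (cp 3376694))) (n z (cm 19897531))) (n (n (n (n z (cm 78581783)) z) z) z)) (n (n (n z (cm 19897531)) z) z)))⟩,
  ⟨1, 11023709493345752376, 24, (n (n (n (n (n z (n z (n z (cm 880086535)))) z) (n z (n (n z (cm 98085261)) z))) (n (n z (n z (cp 319510868))) (n (n (n z (cm 98085261)) z) z))) (n (n (n (n z (n z (cp 2852411974))) (n z (cm 857378319))) (n (n (n (n z (cm 5981828)) z) z) z)) (n (n (n z (cm 857378319)) z) z)))⟩,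
  ⟨1, 2314567205484265848, 24, (n (n (n (n (n z (n z (n z (cp 1284783349)))) z) (n z (n (n z (cp 25780973)) z))) (n (n z (n z (cm 391333497))) (n (n (n z (cp 25780973)) z) z))) (n (n (n z (n z (cm 134144732))) (n (n (n (n z (cm 24032872)) z) z) z)) (n (n (n z (cm 134144732)) z) z)))⟩,
  ⟨1, 743701715032450706773194348, 24, (n (n (n z (n z (n (n z (cp 22872364201769)) z))) (n (n z (n z (cm 2324481938474))) (n (n (n z (cm 7250666198884)) z) z))) (n (n (n z (n z (cm 1765715289486))) (n (n (n (n z (cm 2183935228871)) z) z) z)) (n (n (n z (cp 40690099207)) z) z)))⟩,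
  ⟨1, 200435958682272508227600682632, 24, (n (n z (n (n z (n z (cm 22892654467815))) (n (n (n z (cm 48558127431135)) z) z))) (n (n (n z (n z (cm 2961692911451))) (n (n (n (n z (cp 365134894003747)) z) z) z)) (n (n (n z (cm 49779272955)) z) z)))⟩,
  ⟨1, 2980485405136919798718297414696, 24, (n (n z (n (n z (n z (cm 218417723400750))) (n (n (n z (cp 1360449454928628)) z) z))) (n (n (n z (n z (cm 36544468254529))) z) (n (n (n z (cm 118127336702437)) z) z)))⟩,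
  ⟨1, 8217232396228906521435375953220, 24, (n (n z (n (n z (n z (cm 660157873644183))) z)) (n (n (n z (n z (cp 2013362169014455))) z) (n (n (n z (cm 807310384012201)) z) z)))⟩,
  ⟨731, 6746614599108750864141601020, 24, (n (n z (n (n z (n z (cm 1069947931351))) z)) (n z (n (n (n z (cp 1954703055109)) z) z)))⟩,
  ⟨1, 336, 27, (n (n (n z (n z (cm 4))) (n z (cm 5))) (n (n (n z (cm 6)) (cp 28)) z))⟩,
  ⟨11, 2576, 27, (n (n (n z (n z (cp 23))) (n z (cm 5))) (n (n (n z (cm 6)) z) z))⟩,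
  ⟨1, 36294, 27, (n (n z (n z (cp 263))) (n (n (n z (cm 18)) z) z))⟩,
  ⟨1, 336, 29, (n (n (n (n z (n z (cm 4))) (n (n z (cp 28)) z)) (n z (cm 5))) (n (n z (cm 5)) z))⟩,
  ⟨1, 22064, 29, (n (n (n (n z (n z (cp 197))) z) (n z (cm 9))) (n (n z (cm 9)) z))⟩,
  ⟨1, 1939662, 29, (n (n z (n z (cp 1641))) (n (n z (cm 328)) z))⟩,
  ⟨1, 336, 57, (n (n (n z (n z (cm 4))) (n (n z (cm 6)) (cp 28))) (n (n z (cm 5)) z))⟩,
  ⟨11, 2576, 57, (n (n (n z (n z (cp 23))) (n (n z (cm 6)) z)) (n (n z (cm 5)) z))⟩,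
  ⟨1, 36294, 57, (n (n z (n (n z (cm 18)) z)) (n (n z (cp 263)) z))⟩,
  ⟨1, 96, 89, (n (n (n (n z (n z (cm 4))) z) (n (n (n z (cm 3)) z) (cm 3))) (n (n z (cp 16)) (cm 3)))⟩,
  ⟨1, 1248, 89, (n (n (n (n z (n z (cm 8))) z) (n (n (n z (cp 52)) z) (cm 11))) (n z (cm 11)))⟩,
  ⟨1, 45864, 89, (n (n (n (n z (n z (cm 19))) z) (n z (cp 294))) (n z (cm 82)))⟩,
  ⟨5, 16588656, 89, (n (n (n (n z (n z (cp 2351))) z) z) (n z (cm 231)))⟩,
  ⟨1, 360, 153, (n (n (n (n z (n z (cm 6))) (n z (cp 2))) (n (n (n z (cp 30)) z) (cm 6))) (n (n (n z (cp 2)) z) (cm 6)))⟩,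
  ⟨1, 306360, 153, (n (n (n (n z (n z (cp 11))) (n z (cp 74))) (n z (cm 288))) (n (n (n z (cm 255)) z) (cp 851)))⟩,
  ⟨1, 246476832, 153, (n (n (n (n z (n z (cp 24136))) (n z (cm 5586))) (n z (cp 418))) (n (n (n z (cm 5465)) z) z))⟩,
  ⟨1, 43842464736, 153, (n (n (n z (n z (cm 91498))) (n z (cp 302746))) (n (n (n z (cm 3861)) z) z))⟩,
  ⟨1, 17422867606176, 153, (n (n (n z (n z (cm 900616))) z) (n (n (n z (cp 4795788)) z) z))⟩,
  ⟨7, 48, 281, (n (n (n (n z (n z (cp 4))) z) (n (n (n z (cm 0)) (cm 0)) z)) z)⟩,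
  ⟨35, 144, 281, (n (n z (n (n (n z (cm 0)) (cp 3)) z)) z)⟩,
  ⟨1, 24, 30, (n (n z (n (n z (cm 0)) (cp 6))) (n (n z (cm 0)) (cm 0)))⟩,
  ⟨1, 744, 30, (n (n z (n (n z (cm 8)) z)) (n (n z (cm 4)) (cp 31)))⟩,
  ⟨7, 20088, 30, (n (n z (n (n z (cp 54)) z)) (n (n z (cm 0)) z))⟩,
  ⟨1, 84, 58, (n (n (n z (n z (cm 3))) (n (n z (cp 14)) (cm 2))) (n (n z (cp 2)) (cm 3)))⟩,
  ⟨1, 15120, 58, (n (n (n z (n z (cp 12))) (n z (cm 53))) (n (n z (cm 40)) (cp 180)))⟩,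
  ⟨1, 29280, 58, (n (n (n z (n z (cm 71))) (n z (cp 244))) (n (n z (cm 48)) z))⟩,
  ⟨1, 9434016, 58, (n (n (n z (n z (cp 4296))) z) (n (n z (cm 1264)) z))⟩,
  ⟨1, 312, 90, (n (n (n z (n z (cp 1))) z) (n (n z (cm 5)) (cp 26)))⟩,
  ⟨1, 9438, 90, (n (n (n z (n z (cm 30))) z) (n (n z (cp 121)) z))⟩,
  ⟨1, 312, 154, (n z (n (n (n z (cm 6)) z) (cp 26)))⟩,
  ⟨1, 192, 154, (n (n (n z (n z (cp 16))) z) (n (n (n z (cm 2)) z) z))⟩,
  ⟨1, 84, 282, (n (n (n (n z (n z (cm 3))) z) (n (n (n z (cp 14)) (cm 2)) z)) (n (n (n z (cp 2)) z) (cm 3)))⟩,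
  ⟨1, 15708, 282, (n (n (n (n z (n z (cm 46))) z) (n (n z (cp 187)) z)) (n (n (n z (cm 28)) z) (cm 46)))⟩,
  ⟨1, 10082292, 282, (n (n (n (n z (n z (cp 5))) z) z) (n (n (n z (cm 1289)) z) (cp 4493)))⟩,
  ⟨4, 10104757, 282, (n (n (n (n z (n z (cp 2249))) z) z) (n (n (n z (cm 644)) z) z))⟩,
  ⟨1, 24, 60, (n (n z (n (n z (cm 0)) (cp 6))) (n (n z (cm 0)) (cm 0)))⟩,
  ⟨1, 744, 60, (n (n z (n (n z (cm 8)) z)) (n (n z (cm 4)) (cp 31)))⟩,
  ⟨7, 20088, 60, (n (n z (n (n z (cp 54)) z)) (n (n z (cm 0)) z))⟩,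
  ⟨1, 360, 92, (n (n (n (n z (n z (cp 30))) (n z (cm 6))) (n (n z (cm 6)) z)) (n (n (n (n z (cm 6)) (cm 5)) (cp 3)) (cp 3)))⟩,
  ⟨1, 306360, 92, (n (n (n z (n z (cp 11))) (n (n z (cp 11)) z)) (n (n (n (n z (cp 851)) (cm 11)) (cm 188)) (cm 188)))⟩,
  ⟨1, 246476832, 92, (n (n (n z (n z (cp 24136))) (n (n z (cm 7350)) z)) (n (n (n z (cm 4590)) (cm 6142)) (cp 3218)))⟩,
  ⟨1, 179874505440, 92, (n (n z (n (n z (cp 621045)) z)) (n (n (n z (cm 169866)) (cp 38205)) (cm 146429)))⟩,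
  ⟨1, 87371564760, 92, (n z (n (n (n z (cp 433778)) (cm 91124)) (cm 91124)))⟩,
  ⟨1, 5229441746180360, 92, (n z (n (n z (cp 81456565)) (cm 18746152)))⟩,
  ⟨1, 84, 156, (n (n (n (n z (n z (cp 14))) (n z (cm 2))) (n (n z (cm 2)) z)) (n (n (n (n z (cm 1)) (cm 1)) z) z))⟩,
  ⟨1, 14952, 156, (n (n (n z (n z (cm 40))) (n (n z (cm 40)) z)) (n (n (n (n z (cm 24)) (cp 178)) z) z))⟩,
  ⟨1, 8883624, 156, (n (n (n z (n z (cp 4159))) (n (n z (cm 1358)) z)) (n (n (n (n z (cm 298)) z) z) z))⟩,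
  ⟨1, 3903554220, 156, (n (n z (n (n z (cm 9268)) z)) (n (n (n (n z (cp 78215)) z) z) z))⟩,
  ⟨1, 18, 284, (n z (n (n (n (n z (cm 0)) (cp 6)) z) z))⟩,
  ⟨1, 312, 120, (n (n z (n (n z (cp 1)) z)) (n (n z (cp 26)) (cm 5)))⟩,
  ⟨1, 9438, 120, (n (n z (n (n z (cm 30)) z)) (n z (cp 121)))⟩,
  ⟨1, 312, 184, (n z (n (n (n z (cm 6)) (cp 26)) z))⟩,
  ⟨1, 192, 184, (n (n z (n (n z (cp 16)) z)) (n (n (n z (cm 2)) z) z))⟩,
  ⟨1, 84, 312, (n (n (n (n z (n z (cm 3))) (n (n z (cp 14)) (cm 2))) z) (n (n (n z (cp 2)) (cm 3)) z))⟩,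
  ⟨1, 15708, 312, (n (n (n (n z (n z (cm 46))) (n z (cp 187))) z) (n (n (n z (cm 28)) (cm 46)) z))⟩,
  ⟨1, 10082292, 312, (n (n (n (n z (n z (cp 5))) z) z) (n (n (n z (cm 1289)) (cp 4493)) z))⟩,
  ⟨4, 10104757, 312, (n (n (n (n z (n z (cp 2249))) z) z) (n (n (n z (cm 644)) z) z))⟩,
  ⟨1, 384, 216, (n (n (n z (n (n z (cm 8)) (cm 9))) (n (n z (cp 32)) (cm 9))) (n (n (n (n z (cm 9)) z) (cp 8)) z))⟩,
  ⟨1, 337536, 216, (n (n (n z (n (n z (cp 879)) (cm 185))) (n z (cm 185))) (n (n (n (n z (cm 89)) z) (cm 151)) z))⟩,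
  ⟨1, 251991720, 216, (n (n (n z (n z (cm 4838))) (n z (cm 4838))) (n (n (n (n z (cm 2624)) z) (cp 23890)) z))⟩,
  ⟨1, 168000500280, 216, (n (n (n z (n z (cp 586021))) (n z (cm 202348))) (n (n (n (n z (cm 31654)) z) z) z))⟩,
  ⟨11, 899359396448, 216, (n (n z (n z (cp 383672))) (n (n (n (n z (cm 31654)) z) z) z))⟩,
  ⟨1, 78, 344, (n z (n (n (n (n z (cm 1)) z) (cp 13)) z))⟩,
  ⟨1, 312, 408, (n z (n (n (n (n z (cm 4)) z) (cp 26)) z))⟩,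
  ⟨1, 57, 63, (n (n z (cm 0)) (cp 19))⟩,
  ⟨1, 204, 95, (n (n z (cp 34)) (cm 4))⟩,
  ⟨1, 51, 159, (n (n z (cp 17)) (cm 1))⟩,
  ⟨1, 648, 287, (n (n (n z (cm 4)) (cp 54)) z)⟩,
  ⟨1, 198, 123, (n (n z (cm 1)) (cp 33))⟩,
  ⟨1, 240, 187, (n (n z (cp 40)) (cm 8))⟩,
  ⟨1, 888, 219, (n (n z (cm 10)) (cp 74))⟩,
  ⟨1, 192, 347, (n (n (n z (cm 2)) z) (cp 32))⟩,
  ⟨1, 888, 411, (n (n (n z (cm 16)) z) (cp 74))⟩,
  ⟨1, 204, 125, (n (n z (cp 34)) (cm 4))⟩,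
  ⟨1, 51, 189, (n (n z (cp 17)) (cm 1))⟩,
  ⟨1, 648, 317, (n (n (n z (cm 4)) (cp 54)) z)⟩,
  ⟨1, 744, 221, (n (n (n z (cm 22)) (cm 4)) (cp 62))⟩,
  ⟨67, 42408, 221, (n (n (n z (cm 22)) (cp 57)) z)⟩,
  ⟨1, 888, 249, (n (n z (cp 74)) (cm 10))⟩,
  ⟨1, 192, 377, (n (n (n z (cm 2)) (cp 32)) z)⟩,
  ⟨1, 888, 441, (n (n (n z (cm 16)) (cp 74)) z)⟩,
  ⟨1, 26, 126, (n (n z (cm 2)) (cp 13))⟩,
  ⟨1, 210, 190, (n (n z (cp 35)) (cm 1))⟩,
  ⟨1, 12, 318, (n (n (n z (cm 0)) (cm 0)) (cp 4))⟩,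
  ⟨1, 204, 318, (n (n (n z (cm 4)) (cp 17)) z)⟩,
  ⟨1, 672, 222, (n (n z (cm 8)) (cp 56))⟩,
  ⟨1, 222, 350, (n (n (n z (cp 37)) z) (cm 8))⟩,
  ⟨1, 22, 414, (n (n (n z (cp 11)) z) (cm 0))⟩,
  ⟨1, 198, 250, (n (n z (cp 33)) (cm 1))⟩,
  ⟨1, 42, 378, (n (n (n z (cm 1)) z) (cp 7))⟩,
  ⟨1, 198, 474, (n (n z (cp 33)) (cm 1))⟩,
  ⟨1, 672, 252, (n (n z (cm 8)) (cp 56))⟩,
  ⟨1, 222, 380, (n (n (n z (cp 37)) z) (cm 8))⟩,
  ⟨1, 22, 444, (n (n (n z (cp 11)) z) (cm 0))⟩,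
  ⟨1, 198, 504, (n (n (n z (cp 33)) z) (cm 1))⟩]

theorem i12_3_4 : Ineq 10 can12 3 4 :=
  ineq_of_check (K := 8768894620155755873182786506939225500490001842080154716852665080512429465918747259650819502786908775887770492778560789184580210624750628124997438438593128825081324087881465078241236189981744155346374561581745987329919) (cs := q12_3_4) (by decide +kernel)

def q12_3_6 : List Sq := [⟨1, 36, 72, (n (n (n (n (n z (n z (n z (cp 4)))) (n (n z (n z (cm 0))) (n z (cp 2)))) z) (n (n (n z (n z (cp 1))) (n (n z (cp 1)) z)) z)) (n (n (n (n z (n (n z (cp 3)) z)) (n (n (n z (cp 6)) z) (cm 0))) (n (n z (cm 0)) z)) (n (n (n (n z (cm 2)) z) (cm 1)) (cm 3))))⟩,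
  ⟨1, 36, 72, (n (n (n (n (n z (n z (n z (cp 1)))) (n (n z (n z (cp 2))) (n z (cp 1)))) z) (n (n (n z (n z (cp 4))) (n (n z (cm 0)) z)) z)) (n (n (n (n z (n (n z (cm 2)) z)) (n (n z (cp 6)) (cm 1))) (n (n z (cm 3)) z)) (n (n (n (n z (cp 3)) z) z) (cm 0))))⟩,
  ⟨1, 1224, 72, (n (n (n (n (n z (n z (n z (cp 3)))) (n (n z (n z (cm 2))) (n z (cm 6)))) z) (n (n (n z (n z (cm 2))) (n (n z (cp 34)) z)) z)) (n (n (n (n z (n (n z (cp 6)) z)) (n z (cp 5))) (n (n z (cp 3)) z)) (n (n (n (n z (cm 5)) z) (cm 9)) (cm 2))))⟩,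
  ⟨1, 302328, 72, (n (n (n (n (n z (n z (n z (cp 151)))) (n (n z (n z (cp 53))) (n z (cp 135)))) z) (n (n (n z (n z (cp 121))) z) z)) (n (n (n (n z (n (n z (cp 30)) z)) (n z (cm 212))) (n (n z (cm 120)) z)) (n (n (n (n z (cm 29)) z) (cp 494)) (cm 150))))⟩,
  ⟨1, 6683820, 72, (n (n (n (n (n z (n z (n z (cp 592)))) (n (n z (n z (cp 373))) (n z (cp 2255)))) z) (n (n (n z (n z (cp 777))) z) z)) (n (n (n (n z (n (n z (cm 184)) z)) (n z (cm 785))) (n (n z (cm 776)) z)) (n (n (n (n z (cp 185)) z) z) (cm 591))))⟩,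
  ⟨1, 150778320, 72, (n (n (n (n (n z (n z (n z (cp 2301)))) (n (n z (n z (cp 11144))) z)) z) (n (n (n z (n z (cp 5416))) z) z)) (n (n (n (n z (n (n z (cm 3114)) z)) (n z (cm 2117))) (n (n z (cm 5415)) z)) (n (n (n (n z (cp 3115)) z) z) (cm 2300))))⟩,
  ⟨1, 635341728, 72, (n (n (n (n (n z (n z (n z (cp 6555)))) z) z) (n (n (n z (n z (cp 500))) z) z)) (n (n (n (n z (n (n z (cp 6055)) z)) (n z (cp 19004))) (n (n z (cm 499)) z)) (n (n (n (n z (cm 6054)) z) z) (cm 6554))))⟩,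
  ⟨1, 70817569824, 72, (n (n (n (n (n z (n z (n z (cp 101145)))) z) z) (n (n (n z (n z (cm 54123))) z) z)) (n (n (n (n z (n (n z (cp 155269)) z)) z) (n (n z (cp 54124)) z)) (n (n (n (n z (cm 155268)) z) z) (cm 101144))))⟩,
  ⟨22571, 155269, 72, (n (n (n (n (n z (n z (n z (cm 0)))) z) z) (n (n (n z (n z (cm 0))) z) z)) (n (n z (n (n z (cp 1)) z)) (n z (cp 1))))⟩,
  ⟨1, 96, 201, (n (n (n z (n (n z (cm 2)) (cm 3))) z) (n (n z (cp 16)) z))⟩,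
  ⟨1, 11424, 201, (n (n (n z (n (n z (cp 119)) (cm 43))) z) z)⟩,
  ⟨1, 21, 106, (n (n (n z (n z (cp 7))) z) (n (n z (cm 1)) z))⟩,
  ⟨1, 21, 330, (n (n (n z (n (n z (cp 7)) z)) z) (n (n z (cm 1)) z))⟩,
  ⟨1, 60, 120, (n (n (n (n z (n z (cp 10))) z) (n (n z (cm 3)) z)) (n (n (n (n z (cm 2)) z) z) z))⟩,
  ⟨1, 240, 120, (n (n z (n (n z (cp 16)) z)) (n (n (n (n z (cm 2)) z) z) z))⟩,
  ⟨1, 12, 344, (n (n (n (n z (n z (cm 0))) z) z) (n (n (n z (cp 4)) z) z))⟩,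
  ⟨1, 84, 360, (n (n (n (n z (n z (cm 4))) z) z) (n (n (n z (cp 14)) z) z))⟩,
  ⟨1, 96, 249, (n (n (n z (cp 16)) z) (cm 2))⟩,
  ⟨1, 6, 378, (n (n (n z (cp 4)) z) (cm 0))⟩]

theorem i12_3_6 : Ineq 10 can12 3 6 :=
  ineq_of_check (K := 2802243119055387527519) (cs := q12_3_6) (by decide +kernel)

def q12_3_7 : List Sq := [⟨1, 4, 136, (n (n (n (n z (n (n z (n z (cp 1))) z)) z) (n (n z (n (n z (cp 1)) z)) z)) (n (n (n z (n (n (n z (cp 2)) (cp 1)) z)) z) (n (n (n (n z (cm 0)) z) z) (cm 1))))⟩,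
  ⟨1, 12, 136, (n (n (n (n z (n (n z (n z (cp 3))) z)) z) (n (n z (n (n z (cm 0)) z)) z)) (n (n (n z (n (n z (cm 0)) z)) z) (n (n (n (n z (cp 1)) z) z) z)))⟩,
  ⟨1, 6, 136, (n (n z (n (n z (n (n z (cp 1)) z)) z)) (n (n (n z (n (n z (cp 1)) z)) z) (n (n (n (n z (cp 2)) z) z) z)))⟩,
  ⟨1, 2, 136, (n (n z (n (n z (n (n z (cm 0)) z)) z)) (n (n (n z (n (n z (cp 1)) z)) z) z))⟩,
  ⟨1, 2, 139, (n (n (n z (n z (cp 2))) (n (n z (cm 0)) z)) z)⟩,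
  ⟨1, 2, 169, (n (n (n z (n z (cm 0))) z) (n (n (n z (cp 2)) z) z))⟩,
  ⟨1, 2, 201, (n (n (n (n z (n z (cm 0))) (n z (cm 0))) z) (n (n (n z (cp 2)) z) z))⟩,
  ⟨1, 2, 201, (n (n (n (n z (n z (cp 1))) (n z (cm 0))) z) z)⟩,
  ⟨1, 1, 393, (n (n (n (n z (n z (cp 1))) (n (n z (cm 0)) z)) z) z)⟩,
  ⟨1, 2, 154, (n (n (n z (n z (cm 0))) z) (n (n (n z (cm 0)) (cp 2)) z))⟩,
  ⟨1, 2, 154, (n (n (n z (n z (cp 1))) z) (n (n (n z (cm 0)) z) z))⟩,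
  ⟨1, 2, 170, (n (n (n z (n z (cp 2))) z) (n z (cm 0)))⟩,
  ⟨1, 2, 394, (n (n (n (n z (n z (cm 0))) z) z) (n (n (n z (cp 2)) z) z))⟩,
  ⟨1, 2, 394, (n (n (n (n z (n z (cp 1))) (n (n z (cm 1)) z)) z) z)⟩,
  ⟨1, 2, 184, (n (n (n (n z (n z (cp 2))) z) z) (n (n (n (n z (cm 0)) z) z) z))⟩,
  ⟨1, 2, 408, (n (n (n (n z (n z (cm 0))) z) z) (n (n (n z (cp 2)) z) z))⟩,
  ⟨1, 2, 232, (n z (n (n (n z (cm 0)) z) (cp 2)))⟩,
  ⟨1, 2, 424, (n (n (n (n z (n z (cp 2))) z) z) (n (n (n z (cm 0)) z) z))⟩,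
  ⟨1, 4, 249, (n (n (n z (cp 4)) z) (cm 0))⟩,
  ⟨1, 5, 442, (n (n (n z (cp 5)) z) (cm 0))⟩]

theorem i12_3_7 : Ineq 10 can12 3 7 :=
  ineq_of_check (K := 59) (cs := q12_3_7) (by decide +kernel)

def q12_3_8 : List Sq := [⟨1, 144, 264, (n (n (n (n (n z (n z (n z (cp 12)))) z) (n (n z (n (n z (cp 12)) (cp 12))) z)) (n (n (n (n z (n z (cm 0))) (n (n z (cm 2)) (cm 5))) (n (n (n z (cm 2)) (cm 2)) z)) (n (n (n (n z (cm 1)) (cm 2)) z) z))) (n (n (n (n z (n z (cp 6))) (n (n (n z (cm 11)) (cm 5)) z)) (n (n z (cp 12)) z)) (n (n (n (n (n z (cm 3)) (cp 2)) (cm 1)) (cm 0)) (cm 1))))⟩,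
  ⟨1, 20592, 264, (n (n z (n (n (n (n z (n z (cp 23))) (n (n z (cp 9)) (cm 5))) (n (n (n z (cm 38)) (cm 14)) z)) (n (n (n (n z (cp 10)) (cp 21)) z) z))) (n (n (n (n z (n z (cp 18))) (n (n z (cm 29)) z)) z) (n (n (n (n (n z (cm 15)) (cm 9)) (cm 25)) (cp 143)) (cm 13))))⟩,
  ⟨1, 2848560, 264, (n (n z (n (n (n (n z (n z (cm 185))) (n (n z (cm 364)) (cp 148))) (n (n (n z (cm 324)) (cp 84)) z)) (n (n (n (n z (cp 1660)) (cm 374)) z) z))) (n (n (n (n z (n z (cm 14))) (n (n z (cp 168)) z)) z) (n (n (n (n (n z (cm 224)) (cp 199)) (cp 117)) z) (cm 464))))⟩,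
  ⟨1, 94759440, 264, (n (n z (n (n (n (n z (n z (cp 9514))) (n (n z (cm 1374)) (cm 1081))) (n (n (n z (cm 814)) (cp 14)) z)) (n (n (n z (cm 684)) z) z))) (n (n (n (n z (n z (cp 205))) (n (n z (cm 1631)) z)) z) (n (n (n (n (n z (cm 1904)) (cm 1280)) (cp 1057)) z) (cp 1375))))⟩,
  ⟨1, 12202047504, 264, (n (n z (n (n (n z (n (n z (cp 6045)) (cm 12696))) (n (n (n z (cp 3929)) (cm 15750)) z)) (n (n (n z (cm 11172)) z) z))) (n (n (n (n z (n z (cm 17593))) (n (n z (cm 15035)) z)) z) (n (n (n (n (n z (cm 14717)) (cp 106878)) (cm 16599)) z) (cm 1287))))⟩,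
  ⟨1, 5946388386480, 264, (n (n z (n (n (n z (n (n z (cp 118401)) (cm 598426))) (n (n (n z (cm 622798)) (cp 2318215)) z)) (n (n (n z (cm 129448)) z) z))) (n (n (n (n z (n z (cp 83312))) (n (n z (cm 652319)) z)) z) (n (n (n (n (n z (cp 152868)) z) (cm 5917)) z) (cp 324862))))⟩,
  ⟨1, 696647791118880, 264, (n (n z (n (n (n z (n (n z (cm 4403646)) (cm 5177620))) (n (n (n z (cp 544948)) z) z)) (n (n (n z (cp 2111328)) z) z))) (n (n (n (n z (n z (cm 4714203))) (n (n z (cp 991840)) z)) z) (n (n (n (n (n z (cm 1812025)) z) (cp 25042536)) z) (cm 5836018))))⟩,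
  ⟨1, 14673373458768, 264, (n (n z (n (n (n z (n (n z (cm 103827)) (cm 832723))) (n (n (n z (cp 1327)) z) z)) (n (n (n z (cp 3515628)) z) z))) (n (n (n (n z (n z (cp 95195))) (n (n z (cm 828049)) z)) z) (n (n (n (n (n z (cp 215374)) z) z) z) (cm 577723))))⟩,
  ⟨1, 53367295730678496, 264, (n (n z (n (n (n z (n (n z (cp 210833581)) (cm 56412144))) (n (n (n z (cm 42613443)) z) z)) z)) (n (n (n (n z (n z (cm 17857891))) (n (n z (cp 18597656)) z)) z) (n (n (n (n (n z (cm 35056737)) z) z) z) (cm 9784374))))⟩,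
  ⟨1, 4964110654391594496, 264, (n (n z (n (n (n z (n z (cm 49005548))) (n (n (n z (cp 13076156)) z) z)) z)) (n (n (n (n z (n z (cp 113144116))) (n (n z (cm 521494742)) z)) z) (n (n (n (n (n z (cm 460172277)) z) z) z) (cp 1962096768))))⟩,
  ⟨1, 24897131460116246016, 264, (n (n z (n (n (n z (n z (cm 361981520))) (n (n (n z (cp 4229681204)) z) z)) z)) (n (n (n (n z (n z (cp 466911436))) (n (n z (cm 341270354)) z)) z) (n (n (n (n (n z (cm 1434239037)) z) z) z) z)))⟩,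
  ⟨1, 105936581798891798304000, 264, (n (n z (n (n (n z (n z (cp 2022805577))) z) z)) (n (n (n (n z (n z (cm 31582013207))) (n (n z (cm 785205740)) z)) z) (n (n (n (n (n z (cp 260895799750)) z) z) z) z)))⟩,
  ⟨1, 4936247457827010193716000, 264, (n (n z (n (n (n z (n z (cp 1576698265028))) z) z)) (n (n (n (n z (n z (cm 391013897836))) (n (n z (cp 60146219776)) z)) z) z))⟩,
  ⟨1, 883481504965989411826767072, 264, (n z (n (n (n (n z (n z (cp 23347351988701))) (n (n z (cm 4065802087531)) z)) z) z))⟩,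
  ⟨1, 384, 267, (n (n (n z (n z (cp 32))) (n (n (n z (cm 0)) (cm 6)) z)) z)⟩,
  ⟨1, 220800, 267, (n (n z (n (n (n z (cp 575)) (cm 198)) z)) z)⟩,
  ⟨1, 84, 269, (n z (n (n (n (n z (cm 2)) (cp 14)) z) z))⟩,
  ⟨1, 336, 281, (n z (n (n (n (n z (cm 4)) (cp 28)) z) z))⟩,
  ⟨1, 84, 297, (n z (n (n (n (n z (cm 2)) (cp 14)) z) z))⟩,
  ⟨1, 336, 329, (n z (n (n (n (n z (cp 28)) (cm 2)) (cm 2)) (cm 2)))⟩,
  ⟨1, 241584, 329, (n z (n (n (n z (cm 176)) (cm 176)) (cp 719)))⟩,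
  ⟨4, 584547, 329, (n z (n (n (n z (cm 176)) (cp 542)) z))⟩,
  ⟨1, 360, 393, (n z (n (n (n (n z (cm 2)) (cm 6)) (cm 6)) (cp 30)))⟩,
  ⟨1, 33240, 393, (n z (n (n (n (n z (cp 277)) (cm 36)) (cm 36)) z))⟩,
  ⟨37, 6242472, 393, (n z (n (n (n z (cm 204)) (cp 626)) z))⟩,
  ⟨1, 288, 270, (n (n (n z (n (n z (cm 4)) (cp 24))) z) (n (n z (cm 4)) z))⟩,
  ⟨11, 10656, 270, (n (n (n z (n (n z (cp 37)) z)) z) (n (n z (cm 10)) z))⟩,
  ⟨1, 192, 282, (n z (n (n (n (n z (cm 4)) (cp 16)) z) z))⟩,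
  ⟨1, 312, 298, (n (n (n (n z (n z (cm 5))) z) (n (n (n z (cp 4)) (cm 4)) z)) (n (n (n z (cp 26)) z) (cm 5)))⟩,
  ⟨1, 31200, 298, (n (n (n (n z (n z (cm 39))) z) (n (n (n z (cp 200)) (cm 28)) z)) (n z (cm 52)))⟩,
  ⟨1, 8023200, 298, (n (n (n (n z (n z (cm 919))) z) (n (n z (cp 3343)) z)) (n z (cm 948)))⟩,
  ⟨1, 6538025448, 298, (n (n (n (n z (n z (cm 3381))) z) z) (n z (cp 81489)))⟩,
  ⟨1, 360, 330, (n (n (n (n z (n z (cm 7))) z) z) (n (n (n z (cp 30)) (cm 6)) z))⟩,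
  ⟨7, 1530, 330, (n (n (n (n z (n z (cp 17))) z) z) (n (n z (cm 1)) z))⟩,
  ⟨1, 18, 394, (n (n (n (n z (n z (cp 6))) z) z) (n (n z (cm 0)) z))⟩,
  ⟨1, 84, 284, (n (n z (n (n (n z (cp 14)) (cm 2)) z)) (n z (cm 2)))⟩,
  ⟨1, 1484, 284, (n (n z (n (n z (cp 53)) z)) (n z (cm 16)))⟩,
  ⟨1, 336, 300, (n (n z (n (n (n z (cm 6)) (cm 5)) z)) (n z (cp 28)))⟩,
  ⟨5, 112, 300, (n (n z (n (n (n z (cp 7)) (cm 1)) z)) z)⟩,
  ⟨1, 78, 332, (n (n z (n (n (n z (cp 13)) z) z)) (n z (cm 2)))⟩,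
  ⟨1, 312, 396, (n (n z (n (n (n z (cm 4)) z) z)) (n z (cp 26)))⟩,
  ⟨1, 336, 312, (n (n z (n (n (n z (cm 6)) (cm 3)) z)) (n (n (n z (cm 6)) z) (cp 28)))⟩,
  ⟨1, 4656, 312, (n (n z (n (n (n z (cp 97)) (cm 27)) z)) (n (n (n z (cm 2)) z) z))⟩,
  ⟨1, 129504312, 312, (n (n z (n (n z (cp 15894)) z)) (n (n (n z (cm 5578)) z) z))⟩,
  ⟨1, 78, 344, (n (n z (n (n (n z (cp 13)) z) z)) (n z (cm 2)))⟩,
  ⟨1, 312, 408, (n (n z (n (n (n z (cm 4)) z) z)) (n z (cp 26)))⟩,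
  ⟨1, 84, 360, (n (n z (n (n (n z (cm 2)) z) z)) (n z (cp 14)))⟩,
  ⟨1, 312, 424, (n (n z (n (n (n z (cp 26)) z) z)) (n z (cm 4)))⟩,
  ⟨1, 336, 456, (n (n z (n (n (n z (cm 2)) (cm 2)) (cm 3))) (n z (cp 28)))⟩,
  ⟨1, 1792, 456, (n (n z (n (n (n z (cm 14)) (cm 14)) (cp 64))) z)⟩,
  ⟨1, 1286400, 456, (n (n z (n (n (n z (cm 500)) (cp 1675)) z)) z)⟩,
  ⟨1, 60, 287, (n (n (n z (cp 10)) (cm 2)) z)⟩,
  ⟨1, 528, 303, (n (n (n z (cm 4)) (cp 44)) z)⟩,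
  ⟨7, 96, 315, (n (n (n z (cm 0)) (cp 8)) z)⟩,
  ⟨5, 96, 363, (n (n (n z (cm 0)) z) (cp 8))⟩,
  ⟨1, 132, 427, (n (n (n z (cp 22)) z) (cm 4))⟩,
  ⟨5, 16, 459, (n (n (n z (cp 4)) (cm 0)) z)⟩,
  ⟨1, 42, 318, (n (n (n z (cm 1)) (cm 1)) (cp 7))⟩,
  ⟨1, 9912, 318, (n (n (n z (cm 42)) (cp 118)) z)⟩,
  ⟨1, 132, 366, (n (n (n z (cm 4)) z) (cp 22))⟩,
  ⟨1, 456, 430, (n (n (n z (cp 38)) z) (cm 4))⟩,
  ⟨1, 696, 378, (n (n (n z (cm 6)) z) (cp 58))⟩,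
  ⟨1, 240, 442, (n (n (n z (cm 2)) z) (cp 20))⟩,
  ⟨2, 15, 490, (n (n z (cp 5)) (cm 0))⟩]

theorem i12_3_8 : Ineq 10 can12 3 8 :=
  ineq_of_check (K := 50020151527010770143244553078637738582195460915573161156492485508998703522669441630997335174613834072618082952238655999) (cs := q12_3_8) (by decide +kernel)

def q12_6_7 : List Sq := [⟨1, 144, 192, (n (n (n (n z (n (n z (n z (cm 0))) z)) (n (n z (n z (cp 2))) (n (n z (cp 1)) z))) (n (n (n (n z (n z (cp 1))) (n (n z (cp 1)) z)) (n (n z (cp 1)) z)) (n (n (n (n z (cm 0)) (cm 1)) (cm 1)) (cm 0)))) (n (n (n (n z (n z (cm 0))) (n (n (n z (cp 1)) z) (cp 1))) (n (n (n z (cm 0)) (cm 1)) (cm 1))) (n (n (n (n (n z (cm 3)) z) z) (cm 0)) (cp 12))))⟩,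
  ⟨1, 20592, 192, (n (n (n (n z (n (n z (n z (cm 0))) (n z (cp 48)))) (n (n z (n (n z (cm 11)) (cp 26))) (n (n (n z (cp 12)) (cp 1)) z))) (n (n (n (n z (n z (cp 1))) (n (n z (cp 1)) (cm 11))) (n (n z (cm 22)) (cm 35))) (n (n (n (n z (cm 0)) (cp 10)) (cp 10)) (cm 36)))) (n (n (n (n (n z (n z (cp 12))) (n (n z (cp 12)) (cm 96))) (n (n (n z (cm 10)) z) (cm 22))) (n (n (n z (cm 12)) (cp 34)) (cm 37))) (n (n (n (n (n z (cm 15)) z) z) (cp 143)) z)))⟩,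
  ⟨1, 2580864, 192, (n (n (n (n z (n (n z (n z (cp 94))) (n (n z (cp 143)) (cp 64)))) (n (n (n z (n z (cp 143))) (n (n z (cp 127)) (cp 130))) (n (n (n z (cp 16)) (cm 93)) z))) (n (n (n (n z (n z (cm 379))) (n (n z (cm 379)) (cm 444))) (n (n z (cp 160)) (cm 47))) (n (n (n (n z (cm 477)) (cp 204)) (cp 204)) (cm 96)))) (n (n (n (n (n z (n z (cm 126))) (n (n z (cm 126)) (cm 33))) (n (n (n z (cm 395)) z) (cp 160))) (n (n (n z (cm 64)) (cm 49)) (cm 2))) (n (n (n (n (n z (cp 1504)) z) z) z) z)))⟩,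
  ⟨1, 293839488, 192, (n (n (n (n z (n (n z (n z (cp 1222))) (n (n z (cp 1507)) (cp 96)))) (n (n (n z (n z (cp 3))) (n (n z (cm 396)) (cp 1370))) (n (n (n z (cm 1103)) (cm 2725)) z))) (n (n (n (n z (n z (cm 1227))) (n (n z (cm 1227)) (cm 408))) (n (n z (cm 511)) (cp 304))) (n (n (n (n z (cp 1210)) (cp 1340)) (cp 1340)) (cm 2988)))) (n (n (n (n (n z (n z (cp 397))) (n (n z (cp 1901)) (cp 1030))) (n (n (n z (cm 4635)) z) (cm 3519))) (n (n (n z (cm 3692)) (cm 3881)) (cp 16281))) z))⟩,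
  ⟨1, 3663615744, 192, (n (n (n (n z (n (n z (n z (cm 5053))) (n (n z (cp 6904)) (cp 429)))) (n (n (n z (n z (cp 5610))) (n (n z (cm 4317)) (cm 5070))) (n (n (n z (cm 2219)) (cp 3760)) z))) (n (n (n (n z (n z (cm 6165))) (n (n z (cp 4688)) (cp 377))) (n (n z (cp 3139)) (cm 1354))) (n (n (n (n z (cm 358)) (cp 3953)) (cm 12327)) (cp 380)))) (n (n (n (n (n z (n z (cp 4318))) (n (n z (cm 16095)) (cm 5911))) (n (n (n z (cp 3026)) z) (cm 10302))) (n (n (n z (cm 13619)) (cp 56256)) z)) z))⟩,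
  ⟨1, 2804474112, 192, (n (n (n (n z (n (n z (n z (cp 4202))) (n (n z (cp 2712)) (cp 1953)))) (n (n (n z (n z (cm 3309))) (n (n z (cm 1429)) (cm 2890))) (n (n (n z (cm 795)) (cm 10223)) z))) (n (n (n (n z (n z (cp 2418))) (n (n z (cm 4687)) (cp 3421))) (n (n z (cp 95)) (cm 1414))) (n (n (n (n z (cm 322)) (cm 7738)) (cp 2920)) (cp 5500)))) (n (n (n (n (n z (n z (cm 17321))) (n (n z (cp 2912)) (cm 9079))) (n (n (n z (cm 3205)) z) (cm 154))) (n (n (n z (cp 49852)) z) z)) z))⟩,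
  ⟨1, 25691630605344, 192, (n (n (n (n z (n (n z (n z (cp 452210))) (n (n z (cp 154808)) (cm 616775)))) (n (n (n z (n z (cp 36420))) (n (n z (cp 242704)) (cp 497572))) (n (n (n z (cp 410436)) (cm 121929)) z))) (n (n (n (n z (n z (cm 76381))) (n (n z (cp 534514)) (cp 505384))) (n (n z (cp 234095)) (cm 1099134))) (n (n (n (n z (cp 263432)) (cm 237868)) (cm 32542)) (cp 110539)))) (n (n (n (n (n z (n z (cp 649052))) (n (n z (cm 1351687)) (cm 1457703))) (n (n (n z (cm 1571509)) z) (cp 4771834))) z) z))⟩,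
  ⟨1, 11711913020256, 192, (n (n (n (n z (n (n z (n z (cm 684173))) (n (n z (cm 779611)) (cp 333542)))) (n (n (n z (n z (cp 391484))) (n (n z (cp 422252)) (cm 41277))) (n (n (n z (cm 918259)) (cp 318190)) z))) (n (n (n (n z (n z (cp 9586))) (n (n z (cp 89670)) (cp 144946))) (n (n z (cp 35843)) (cm 24470))) (n (n (n (n z (cm 125585)) (cm 151336)) (cp 328579)) (cp 83745)))) (n (n (n (n (n z (n z (cm 291495))) (n (n z (cm 523151)) (cm 178367))) (n (n (n z (cp 2965714)) z) z)) z) z))⟩,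
  ⟨1, 108569470852238112, 192, (n (n (n (n z (n (n z (n z (cp 3089450))) (n (n z (cp 6932072)) (cm 23885104)))) (n (n (n z (n z (cp 4251130))) (n (n z (cp 19854284)) (cm 55043544))) (n (n (n z (cm 10105363)) (cp 38289089)) z))) (n (n (n (n z (n z (cp 2396598))) (n (n z (cp 18078438)) (cm 95494974))) (n (n z (cm 83405745)) (cp 47759550))) (n (n (n (n z (cm 5565195)) (cp 41314673)) (cp 12346166)) (cp 10629502)))) (n (n (n (n (n z (n z (cm 24046959))) (n (n z (cm 70360969)) (cp 210391992))) z) z) z))⟩,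
  ⟨1, 1212097455696970080, 192, (n (n (n (n z (n (n z (n z (cp 62235362))) (n (n z (cm 312284355)) (cp 31200475)))) (n (n (n z (n z (cp 72282022))) (n (n z (cm 261531363)) (cp 44309039))) (n (n (n z (cp 62323180)) (cp 91110521)) z))) (n (n (n (n z (n z (cp 50945838))) (n (n z (cm 242408921)) (cm 54253950))) (n (n z (cp 102855194)) (cp 85247430))) (n (n (n (n z (cp 70651088)) (cm 69288198)) (cp 159031046)) (cm 43934401)))) (n (n (n (n (n z (n z (cm 281896599))) (n (n z (cp 960189790)) z)) z) z) z))⟩,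
  ⟨1, 468548265472560, 192, (n (n (n (n z (n (n z (n z (cm 5585271))) (n (n z (cp 62288)) (cp 305315)))) (n (n (n z (n z (cm 5968246))) (n (n z (cm 1029971)) (cm 930835))) (n (n (n z (cp 1356984)) (cp 3388787)) z))) (n (n (n (n z (n z (cm 5659963))) (n (n z (cm 794667)) (cp 1145803))) (n (n z (cm 5656186)) (cp 1682405))) (n (n (n (n z (cp 1534807)) (cp 2742962)) (cp 8657)) (cp 1122280)))) (n (n (n (n (n z (n z (cp 19112340))) z) z) z) z))⟩,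
  ⟨1, 25426327721227060680, 192, (n (n (n (n z (n (n z (n z (cp 95846834))) (n (n z (cp 40049123)) (cp 29254505)))) (n (n (n z (n z (cp 583115119))) (n (n z (cp 284245062)) (cp 52114393))) (n (n (n z (cm 803839649)) (cm 969283992)) z))) (n (n (n (n z (n z (cm 36142153))) (n (n z (cm 112744743)) (cp 640826698))) (n (n z (cm 951694426)) (cm 1228091259))) (n (n (n (n z (cm 976610398)) (cm 741312387)) (cm 772944342)) (cp 4717595161)))) z)⟩,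
  ⟨1, 1083973749246610357818960, 192, (n (n (n (n z (n (n z (n z (cm 37952437223))) (n (n z (cp 168740588216)) (cp 49030088105)))) (n (n (n z (n z (cp 197693177951))) (n (n z (cm 173152326543)) (cm 201826069851))) (n (n (n z (cm 15745199791)) (cp 1862056449)) z))) (n (n (n (n z (n z (cp 114117226552))) (n (n z (cm 82055661995)) (cm 104257504078))) (n (n z (cp 84913953751)) (cm 231594437604))) (n (n (n (n z (cm 207393122070)) (cm 242777738405)) (cp 957385518339)) z))) z)⟩,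
  ⟨1, 47141777465994409224368160, 192, (n (n (n (n z (n (n z (n z (cp 755917458632))) (n (n z (cm 704700321107)) (cp 604854337901)))) (n (n (n z (n z (cm 681989705051))) (n (n z (cp 324588433220)) (cm 1388029274571))) (n (n (n z (cp 351633045956)) (cm 1682953950177)) z))) (n (n (n (n z (n z (cm 984791247249))) (n (n z (cp 633683405564)) (cm 661368870170))) (n (n z (cm 692477670264)) (cm 157299688308))) (n (n (n (n z (cm 1725168502417)) (cp 6155014955180)) z) z))) z)⟩,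
  ⟨1, 36608365668575305952396562240, 192, (n (n (n (n z (n (n z (n z (cp 7159173095928))) (n (n z (cp 26820626040278)) (cm 6820330521000)))) (n (n (n z (n z (cm 18919214638257))) (n (n z (cm 29102044783059)) (cp 4605028210292))) (n (n (n z (cm 44881938054595)) (cp 12944358484758)) z))) (n (n (n (n z (n z (cm 31243444546609))) (n (n z (cm 27795839266283)) (cp 31124120197321))) (n (n z (cm 336814415854)) (cm 5121512811720))) (n (n (n (n z (cp 165214715764988)) z) z) z))) z)⟩,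
  ⟨1, 46820268658296436500454852682304, 192, (n (n (n (n z (n (n z (n z (cp 908814974871144))) (n (n z (cm 781715333943609)) (cm 682296258122686)))) (n (n (n z (n z (cp 16337921557470))) (n (n z (cp 485162818926980)) (cm 310574800863659))) (n (n (n z (cm 121086706154667)) (cm 61921974675765)) z))) (n (n (n (n z (n z (cp 176907323372554))) (n (n z (cm 1277522703251155)) (cm 284237063134372))) (n (n z (cm 1367889704750056)) (cp 5903967205330621))) z)) z)⟩,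
  ⟨1, 3604543099414449116805305843841360, 192, (n (n (n (n z (n (n z (n z (cm 7445538810461873))) (n (n z (cp 4249182191495688)) (cm 4287968192455097)))) (n (n (n z (n z (cp 11096520334366309))) (n (n z (cm 2633239450941171)) (cp 7597643189063509))) (n (n (n z (cm 908454292572787)) (cm 12355814406135293)) z))) (n (n (n (n z (n z (cm 16712435109466308))) (n (n z (cp 381887248472257)) (cm 8208041929718156))) (n (n z (cp 50877415332975180)) z)) z)) z)⟩,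
  ⟨1, 30159346891264188802234863913963440, 192, (n (n (n (n z (n (n z (n z (cp 3758555090043834))) (n (n z (cp 18743312572695572)) (cm 28074177296700881)))) (n (n (n z (n z (cp 16348249446517811))) (n (n z (cp 3509301459499992)) (cm 41775506778238048))) (n (n (n z (cm 4276303577412711)) (cp 13311351379990214)) z))) (n (n (n (n z (n z (cm 46474380677517070))) (n (n z (cm 26209801265537716)) (cp 148196143091593977))) z) z)) z)⟩,
  ⟨1, 2401742958905471648645366674427425464, 192, (n (n (n (n z (n (n z (n z (cp 105634989554700918))) (n (n z (cm 297113927848153042)) (cp 111196091658986646)))) (n (n (n z (n z (cp 60565732312792529))) (n (n z (cm 266672633939795160)) (cm 36799460781639902))) (n (n (n z (cp 82618176767273117)) (cp 5419284368991964)) z))) (n (n (n (n z (n z (cm 456860860175841307))) (n (n z (cp 1350542884586101386)) z)) z) z)) z)⟩,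
  ⟨1, 326617321594935102396077080950014023992, 192, (n (n (n (n z (n (n z (n z (cm 5035536048362164661))) (n (n z (cp 897994701764280605)) (cm 738755812460257349)))) (n (n (n z (n z (cm 2131634581073986294))) (n (n z (cm 1184079157138081639)) (cm 1104257685284970158))) (n (n (n z (cm 364542423873487099)) (cp 989292602570682149)) z))) (n (n (n (n z (n z (cp 13435639076973971654))) z) z) z)) z)⟩,
  ⟨1, 18615761942180803209236367527895771589416, 192, (n (n (n (n z (n (n z (n z (cm 8357604339825943953))) (n (n z (cp 18963992030717596435)) (cm 23120462573802856081)))) (n (n (n z (n z (cm 18071981205821769516))) (n (n z (cp 6093688792528516036)) (cm 23339383437004170608))) (n (n (n z (cm 26479144013460234999)) (cp 115462575787732951517)) z))) z) z)⟩,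
  ⟨1, 5952843830281626597714601423235149314455976, 192, (n (n (n (n z (n (n z (n z (cm 395525757815422133161))) (n (n z (cm 338778530087827705416)) (cp 88214315993074257312)))) (n (n (n z (n z (cm 395765268108590669590))) (n (n z (cm 364369030906405573176)) (cp 81685142913039133205))) (n (n (n z (cp 2148186612873222288147)) z) z))) z) z)⟩,
  ⟨1, 455559171364055991916824383491753668264249192, 192, (n (n (n (n z (n (n z (n z (cm 9115216626752567728))) (n (n z (cp 1375857114892613730779)) (cm 6843868434300345450488)))) (n (n (n z (n z (cm 4831580665261657282195))) (n (n z (cm 3881382943597961356164)) (cp 17672237622578669879978))) z)) z) z)⟩,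
  ⟨1, 6652862011747664641346053129360845279135384, 192, (n (n (n (n z (n (n z (n z (cp 140152219234888843111))) (n (n z (cm 559336818549725645086)) (cp 4405590161945823795)))) (n (n (n z (n z (cm 660872588480383918957))) (n (n z (cp 2227378770221440389499)) z)) z)) z) z)⟩,
  ⟨1, 17788281884079887595988895848328073131177413800, 192, (n (n (n (n z (n (n z (n z (cm 24979156550791820637792))) (n (n z (cp 5224358718801409101878)) (cp 351840725936559578511)))) (n (n (n z (n z (cp 103108155386127751962850))) z) z)) z) z)⟩,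
  ⟨1, 1014063031694915773505661057494638917283030246200, 192, (n (n (n (n z (n (n z (n z (cm 192709817707331908660542))) (n (n z (cm 68290136983930457718621)) (cp 819578745490896259103261)))) z) z) z)⟩,
  ⟨1, 448855901814407595139575951698312835820173316574253, 192, (n (n (n (n z (n (n z (n z (cm 4107122261612267702827396))) (n (n z (cp 16595957458888339397695281)) z))) z) z) z)⟩,
  ⟨1, 336, 195, (n (n (n (n z (n z (cm 5))) (n (n z (cp 3)) (cm 4))) (n z (cp 2))) (n (n (n z (cp 28)) (cm 3)) (cm 4)))⟩,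
  ⟨1, 65520, 195, (n (n (n (n z (n z (cp 34))) (n (n z (cm 72)) (cm 64))) (n z (cp 390))) (n (n z (cm 51)) (cm 106)))⟩,
  ⟨1, 72720, 195, (n (n (n (n z (n z (cp 37))) (n (n z (cm 93)) (cm 64))) z) (n (n z (cp 404)) (cm 115)))⟩,
  ⟨1, 1720366128, 195, (n (n (n (n z (n z (cm 1829))) (n (n z (cm 1822)) (cm 1078))) z) (n z (cp 54594)))⟩,
  ⟨1, 2177623197648, 195, (n (n (n (n z (n z (cm 365987))) (n (n z (cp 1661983)) (cm 366358))) z) z)⟩,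
  ⟨1, 914257140809008, 195, (n (n (n (n z (n z (cp 34381261))) (n z (cm 8913662))) z) z)⟩,
  ⟨1, 216, 197, (n (n (n (n z (n z (cm 3))) (n (n z (cm 3)) (cp 2))) (n (n (n z (cm 2)) z) z)) (n (n (n (n z (cp 18)) z) z) (cm 4)))⟩,
  ⟨1, 17280, 197, (n (n (n (n z (n z (cm 40))) (n (n z (cm 40)) (cp 160))) (n (n (n z (cp 21)) z) z)) (n z (cm 12)))⟩,
  ⟨7, 83840, 197, (n (n (n (n z (n z (cm 30))) (n (n z (cm 30)) z)) (n (n (n z (cp 131)) z) z)) (n z (cm 42)))⟩,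
  ⟨1, 12340200, 197, (n (n (n (n z (n z (cp 3925))) (n (n z (cm 1576)) z)) z) (n z (cm 213)))⟩,
  ⟨1, 674613300, 197, (n (n (n z (n (n z (cm 2246)) z)) z) (n z (cp 28646)))⟩,
  ⟨1, 336, 201, (n (n (n (n z (n z (cm 5))) (n (n z (cp 3)) (cm 5))) (n (n z (cp 28)) z)) (n z (cm 5)))⟩,
  ⟨1, 58128, 201, (n (n (n (n z (n z (cm 17))) (n (n z (cm 4)) (cm 3))) z) (n z (cp 346)))⟩,
  ⟨1, 24006864, 201, (n (n (n (n z (n z (cm 1487))) (n (n z (cm 1508)) (cp 5782))) z) z)⟩,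
  ⟨1, 26534245584, 201, (n (n (n (n z (n z (cm 52015))) (n (n z (cp 191213)) z)) z) z)⟩,
  ⟨1, 336, 209, (n (n (n z (n (n z (cp 3)) z)) (n (n z (cm 5)) z)) (n (n (n (n z (cm 5)) z) (cm 5)) (cp 28)))⟩,
  ⟨1, 58128, 209, (n (n (n z (n (n z (cm 4)) z)) (n (n z (cp 346)) z)) (n (n (n (n z (cm 17)) z) (cm 3)) z))⟩,
  ⟨1, 24006864, 209, (n (n (n z (n (n z (cm 1508)) z)) z) (n (n (n (n z (cm 1487)) z) (cp 5782)) z))⟩,
  ⟨1, 26534245584, 209, (n (n (n z (n (n z (cp 191213)) z)) z) (n (n (n (n z (cm 52015)) z) z) z))⟩,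
  ⟨1, 336, 225, (n (n (n z (n (n z (cp 3)) (cp 2))) (n (n z (cm 4)) (cm 3))) (n (n (n (n z (cm 5)) z) (cm 4)) (cp 28)))⟩,
  ⟨1, 65520, 225, (n (n (n z (n (n z (cm 72)) (cp 390))) (n (n z (cm 106)) (cm 51))) (n (n (n (n z (cp 34)) z) (cm 64)) z))⟩,
  ⟨1, 72720, 225, (n (n (n z (n (n z (cm 93)) z)) (n (n z (cm 115)) (cp 404))) (n (n (n (n z (cp 37)) z) (cm 64)) z))⟩,
  ⟨1, 1720366128, 225, (n (n (n z (n (n z (cm 1822)) z)) (n (n z (cp 54594)) z)) (n (n (n (n z (cm 1829)) z) (cm 1078)) z))⟩,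
  ⟨1, 2177623197648, 225, (n (n (n z (n (n z (cp 1661983)) z)) z) (n (n (n (n z (cm 365987)) z) (cm 366358)) z))⟩,
  ⟨1, 914257140809008, 225, (n z (n (n (n (n z (cp 34381261)) z) (cm 8913662)) z))⟩,
  ⟨1, 312, 449, (n (n (n z (n z (cm 6))) (n (n (n z (cm 4)) (cm 3)) (cp 26))) (n z (cm 4)))⟩,
  ⟨5, 1144, 449, (n (n (n z (n z (cm 6))) (n (n (n z (cm 4)) (cp 22)) z)) (n z (cm 4)))⟩,
  ⟨1, 34452, 449, (n (n (n z (n z (cm 12))) (n (n (n z (cm 79)) z) z)) (n z (cp 261)))⟩,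
  ⟨31, 566892, 449, (n (n (n z (n z (cm 12))) (n (n (n z (cp 181)) z) z)) z)⟩,
  ⟨1, 84, 198, (n (n (n (n z (n z (cm 1))) (n (n z (cp 1)) (cm 1))) (n (n z (cp 14)) z)) (n z (cm 3)))⟩,
  ⟨1, 16128, 198, (n (n (n (n z (n z (cm 45))) (n (n z (cm 46)) (cp 192))) z) (n z (cm 0)))⟩,
  ⟨1, 2638080, 198, (n (n (n (n z (n z (cp 2290))) (n (n z (cm 702)) z)) z) (n z (cm 112)))⟩,
  ⟨1, 1382271480, 198, (n (n (n z (n (n z (cp 50301)) z)) z) (n z (cm 1888)))⟩,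
  ⟨1, 360, 202, (n (n (n (n z (n z (cm 8))) (n (n z (cm 8)) (cp 4))) (n (n (n z (cm 6)) (cp 3)) z)) (n (n (n (n z (cp 30)) z) z) (cm 10)))⟩,
  ⟨1, 74160, 202, (n (n (n (n z (n z (cm 86))) (n (n z (cm 101)) (cp 412))) (n (n (n z (cp 59)) (cm 80)) z)) (n z (cm 22)))⟩,
  ⟨1, 54260400, 202, (n (n (n (n z (n z (cm 1746))) (n (n z (cp 644)) z)) (n (n (n z (cm 1040)) (cp 10975)) z)) (n z (cm 1730)))⟩,
  ⟨1, 9237503850, 202, (n (n (n (n z (n z (cm 31122))) (n (n z (cm 32803)) z)) (n (n (n z (cp 140281)) z) z)) (n z (cm 42503)))⟩,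
  ⟨1, 5228715035712, 202, (n (n (n (n z (n z (cp 3106096))) (n (n z (cm 1011900)) z)) z) (n z (cm 141827)))⟩,
  ⟨1, 150689874382656, 202, (n (n (n z (n (n z (cm 1222028)) z)) z) (n z (cp 16171412)))⟩,
  ⟨1, 336, 210, (n (n (n z (n z (cp 2))) (n (n (n z (cm 4)) (cm 4)) z)) (n (n (n (n z (cm 7)) z) (cm 4)) (cp 28)))⟩,
  ⟨1, 255024, 210, (n (n (n z (n z (cm 17))) (n (n (n z (cp 759)) (cm 136)) z)) (n (n (n (n z (cm 319)) z) (cp 59)) z))⟩,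
  ⟨1, 19849368, 210, (n (n (n z (n z (cp 6538))) (n (n z (cm 1456)) z)) (n (n (n (n z (cp 76)) z) (cm 1667)) z))⟩,
  ⟨1, 115138495080, 210, (n (n z (n (n z (cp 489185)) z)) (n (n (n (n z (cm 27939)) z) (cm 19255)) z))⟩,
  ⟨1, 540182927598, 210, (n z (n (n (n (n z (cp 920209)) z) (cm 221092)) z))⟩,
  ⟨1, 336, 226, (n (n (n z (n z (cp 2))) (n (n (n z (cp 28)) (cm 3)) (cm 3))) (n (n (n (n z (cm 9)) z) z) (cm 2)))⟩,
  ⟨1, 65520, 226, (n (n (n z (n z (cp 390))) (n (n z (cm 93)) (cm 93))) (n (n (n (n z (cm 31)) z) z) (cp 17)))⟩,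
  ⟨1, 46771920, 226, (n (n z (n (n z (cm 1222)) (cm 1222))) (n (n (n (n z (cm 3888)) z) z) (cp 9994)))⟩,
  ⟨1, 121900815600, 226, (n (n z (n (n z (cm 151378)) (cp 508225))) (n (n (n (n z (cm 23980)) z) z) z))⟩,
  ⟨11, 725432233400, 226, (n (n z (n (n z (cp 356846)) z)) (n (n (n (n z (cm 23980)) z) z) z))⟩,
  ⟨1, 336, 450, (n (n (n z (n (n z (cm 2)) (cm 2))) (n (n (n z (cm 2)) (cm 6)) (cp 28))) (n (n z (cm 7)) z))⟩,
  ⟨1, 260400, 450, (n (n (n z (n (n z (cm 120)) (cp 775))) (n (n (n z (cp 47)) (cm 244)) z)) (n (n z (cm 247)) z))⟩,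
  ⟨1, 198759600, 450, (n (n (n z (n (n z (cm 3920)) z)) (n (n (n z (cp 21372)) (cm 4044)) z)) (n (n z (cp 527)) z))⟩,
  ⟨1, 14662474320, 450, (n (n (n z (n (n z (cp 171515)) z)) (n (n z (cm 524)) z)) (n (n z (cm 72060)) z))⟩,
  ⟨1, 714709179540, 450, (n (n z (n (n z (cp 1157510)) z)) (n (n z (cm 87588)) z))⟩,
  ⟨1, 336, 204, (n (n (n (n z (n z (cm 4))) (n (n z (cp 2)) (cm 3))) (n (n z (cp 28)) (cm 2))) (n (n z (cp 3)) (cm 5)))⟩,
  ⟨1, 260400, 204, (n (n (n (n z (n z (cp 69))) (n (n z (cm 161)) (cm 151))) (n z (cp 775))) (n (n z (cm 102)) (cm 129)))⟩,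
  ⟨1, 195969600, 204, (n (n (n (n z (n z (cp 2219))) (n (n z (cm 5411)) (cm 4876))) z) (n (n z (cp 21072)) (cm 4629)))⟩,
  ⟨1, 131004033984, 204, (n (n (n (n z (n z (cp 518081))) (n (n z (cm 134699)) (cm 117334))) z) (n z (cm 21681)))⟩,
  ⟨1, 2074991080988, 204, (n (n (n z (n (n z (cp 2002574)) (cm 683262))) z) (n z (cm 29688)))⟩,
  ⟨1, 5142955046892, 204, (n (n (n z (n z (cp 2996201))) z) (n z (cm 71632)))⟩,
  ⟨1, 336, 212, (n (n (n z (n (n z (cp 2)) (cm 2))) (n (n (n z (cm 4)) (cp 28)) (cm 3))) (n (n (n z (cm 5)) (cp 3)) z))⟩,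
  ⟨1, 260400, 212, (n (n (n z (n (n z (cm 161)) (cp 775))) (n (n (n z (cp 69)) z) (cm 151))) (n (n (n z (cm 129)) (cm 102)) z))⟩,
  ⟨1, 195969600, 212, (n (n (n z (n (n z (cm 5411)) z)) (n (n (n z (cp 2219)) z) (cm 4876))) (n (n (n z (cm 4629)) (cp 21072)) z))⟩,
  ⟨1, 131004033984, 212, (n (n (n z (n (n z (cm 134699)) z)) (n (n (n z (cp 518081)) z) (cm 117334))) (n (n (n z (cm 21681)) z) z))⟩,
  ⟨1, 2074991080988, 212, (n (n (n z (n (n z (cp 2002574)) z)) (n z (cm 683262))) (n (n (n z (cm 29688)) z) z))⟩,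
  ⟨1, 5142955046892, 212, (n (n z (n z (cp 2996201))) (n (n (n z (cm 71632)) z) z))⟩,
  ⟨1, 84, 228, (n (n (n z (n (n z (cp 1)) z)) (n (n (n z (cm 1)) (cp 14)) (cm 1))) (n (n (n z (cm 3)) z) z))⟩,
  ⟨1, 16128, 228, (n (n (n z (n (n z (cm 46)) z)) (n (n (n z (cm 45)) z) (cp 192))) (n (n (n z (cm 0)) z) z))⟩,
  ⟨1, 2638080, 228, (n (n (n z (n (n z (cm 702)) z)) (n (n (n z (cp 2290)) z) z)) (n (n (n z (cm 112)) z) z))⟩,
  ⟨1, 1382271480, 228, (n (n (n z (n (n z (cp 50301)) z)) z) (n (n (n z (cm 1888)) z) z))⟩,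
  ⟨1, 360, 452, (n (n (n z (n (n z (cm 3)) z)) (n (n (n z (cp 30)) (cm 3)) z)) (n (n (n (n z (cm 5)) (cp 3)) (cp 3)) (cm 5)))⟩,
  ⟨1, 74160, 452, (n (n (n z (n (n z (cm 37)) z)) (n (n z (cp 412)) z)) (n (n (n (n z (cp 33)) (cm 98)) (cp 36)) (cm 101)))⟩,
  ⟨1, 1540880, 452, (n (n (n z (n (n z (cp 1870)) z)) z) (n (n (n (n z (cm 452)) (cp 123)) (cm 437)) (cp 108)))⟩,
  ⟨1, 671247720, 452, (n z (n (n (n (n z (cm 7736)) (cm 6177)) (cp 29913)) (cm 4557)))⟩,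
  ⟨1, 715297364496, 452, (n z (n (n (n (n z (cm 233606)) (cm 277642)) z) (cp 996358)))⟩,
  ⟨1, 668101392529296, 452, (n z (n (n (n (n z (cm 8728180)) (cp 27939313)) z) z))⟩,
  ⟨1, 90, 216, (n (n (n z (n (n z (cm 0)) (cm 2))) (n (n z (cp 1)) (cm 2))) (n (n (n (n z (cm 4)) z) (cp 15)) z))⟩,
  ⟨1, 18810, 216, (n (n (n z (n (n z (cp 209)) (cm 47))) (n (n z (cp 16)) (cm 47))) (n (n (n (n z (cm 79)) z) z) z))⟩,
  ⟨1, 13472976, 216, (n (n (n z (n z (cm 858))) (n (n z (cp 5372)) (cm 858))) (n (n (n (n z (cm 316)) z) z) z))⟩,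
  ⟨1, 8544251952, 216, (n (n (n z (n z (cm 39360))) (n z (cp 132543))) (n (n (n (n z (cm 3718)) z) z) z))⟩,
  ⟨4, 18525932739, 216, (n (n (n z (n z (cp 93182))) z) (n (n (n (n z (cm 3718)) z) z) z))⟩,
  ⟨1, 336, 232, (n (n (n z (n (n z (cm 4)) z)) (n (n z (cp 2)) (cm 4))) (n (n (n (n z (cm 7)) (cm 4)) (cp 28)) z))⟩,
  ⟨1, 255024, 232, (n (n (n z (n (n z (cp 759)) z)) (n (n z (cm 17)) (cm 136))) (n (n (n (n z (cm 319)) (cp 59)) z) z))⟩,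
  ⟨1, 19849368, 232, (n (n z (n (n z (cp 6538)) (cm 1456))) (n (n (n (n z (cp 76)) (cm 1667)) z) z))⟩,
  ⟨1, 115138495080, 232, (n (n z (n z (cp 489185))) (n (n (n (n z (cm 27939)) (cm 19255)) z) z))⟩,
  ⟨1, 540182927598, 232, (n z (n (n (n (n z (cp 920209)) (cm 221092)) z) z))⟩,
  ⟨1, 336, 456, (n (n (n z (n (n z (cp 1)) z)) (n (n (n z (cm 3)) (cp 28)) (cm 4))) (n (n (n z (cm 5)) z) (cm 5)))⟩,
  ⟨1, 263088, 456, (n (n (n z (n (n z (cp 783)) z)) (n (n (n z (cm 135)) z) (cm 134))) (n (n (n z (cm 49)) z) (cp 62)))⟩,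
  ⟨1, 265176, 456, (n (n z (n (n (n z (cm 131)) z) (cp 762))) (n (n (n z (cp 47)) z) (cm 222)))⟩,
  ⟨1, 909946872, 456, (n (n z (n (n (n z (cp 44228)) z) z)) (n (n (n z (cp 1909)) z) (cm 16809)))⟩,
  ⟨5, 196071658056, 456, (n z (n (n (n z (cm 69616)) z) (cp 246289)))⟩,
  ⟨1, 360, 240, (n (n (n (n z (n z (cm 8))) (n (n z (cm 6)) z)) (n (n (n z (cm 8)) (cp 4)) (cp 3))) (n (n (n (n z (cp 30)) z) (cm 10)) z))⟩,
  ⟨1, 74160, 240, (n (n (n (n z (n z (cm 101))) (n (n z (cp 59)) z)) (n (n (n z (cm 86)) (cp 412)) (cm 80))) (n (n z (cm 22)) z))⟩,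
  ⟨1, 54260400, 240, (n (n (n (n z (n z (cp 644))) (n (n z (cm 1040)) z)) (n (n (n z (cm 1746)) z) (cp 10975))) (n (n z (cm 1730)) z))⟩,
  ⟨1, 9237503850, 240, (n (n (n (n z (n z (cm 32803))) (n (n z (cp 140281)) z)) (n (n (n z (cm 31122)) z) z)) (n (n z (cm 42503)) z))⟩,
  ⟨1, 5228715035712, 240, (n (n (n (n z (n z (cm 1011900))) z) (n (n (n z (cp 3106096)) z) z)) (n (n z (cm 141827)) z))⟩,
  ⟨1, 150689874382656, 240, (n (n (n (n z (n z (cm 1222028))) z) z) (n (n z (cp 16171412)) z))⟩,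
  ⟨1, 336, 464, (n (n (n (n z (n z (cp 28))) (n (n z (cm 4)) z)) (n (n (n z (cm 3)) z) (cp 1))) (n (n (n (n z (cm 5)) (cm 5)) z) z))⟩,
  ⟨1, 263088, 464, (n (n (n z (n (n z (cm 134)) z)) (n (n (n z (cm 135)) z) (cp 783))) (n (n (n (n z (cp 62)) (cm 49)) z) z))⟩,
  ⟨1, 265176, 464, (n (n (n z (n (n z (cp 762)) z)) (n (n (n z (cm 131)) z) z)) (n (n (n (n z (cm 222)) (cp 47)) z) z))⟩,
  ⟨1, 909946872, 464, (n (n z (n (n (n z (cp 44228)) z) z)) (n (n (n (n z (cm 16809)) (cp 1909)) z) z))⟩,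
  ⟨5, 196071658056, 464, (n z (n (n (n (n z (cp 246289)) (cm 69616)) z) z))⟩,
  ⟨1, 336, 480, (n (n (n (n z (n z (cm 2))) (n (n z (cp 28)) (cm 6))) (n (n (n z (cm 2)) z) (cm 2))) (n (n (n (n z (cm 7)) z) z) z))⟩,
  ⟨1, 260400, 480, (n (n (n (n z (n z (cp 775))) (n z (cm 244))) (n (n (n z (cm 120)) z) (cp 47))) (n (n (n (n z (cm 247)) z) z) z))⟩,
  ⟨1, 198759600, 480, (n (n (n z (n z (cm 4044))) (n (n (n z (cm 3920)) z) (cp 21372))) (n (n (n (n z (cp 527)) z) z) z))⟩,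
  ⟨1, 14662474320, 480, (n (n (n z (n z (cm 524))) (n (n (n z (cp 171515)) z) z)) (n (n (n (n z (cm 72060)) z) z) z))⟩,
  ⟨1, 714709179540, 480, (n (n (n z (n z (cp 1157510))) z) (n (n (n (n z (cm 87588)) z) z) z))⟩,
  ⟨1, 198, 207, (n (n (n z (cm 3)) (cm 1)) (cp 33))⟩,
  ⟨1, 310464, 207, (n (n (n z (cm 114)) (cp 784)) z)⟩,
  ⟨1, 864, 215, (n (n (n z (cm 8)) (cm 9)) (cp 72))⟩,
  ⟨1, 818208, 215, (n (n (n z (cm 296)) (cp 1894)) z)⟩,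
  ⟨1, 174, 231, (n (n (n z (cm 3)) (cm 3)) (cp 29))⟩,
  ⟨11, 1450, 231, (n (n (n z (cm 3)) (cp 25)) z)⟩,
  ⟨1, 552, 455, (n (n (n z (cm 6)) (cm 5)) (cp 46))⟩,
  ⟨1, 87630, 455, (n (n (n z (cm 113)) (cp 635)) z)⟩,
  ⟨1, 840, 219, (n (n (n z (cm 9)) (cm 2)) (cp 70))⟩,
  ⟨1, 815640, 219, (n (n (n z (cm 169)) (cp 971)) z)⟩,
  ⟨1, 1440, 235, (n (n (n z (cm 14)) (cm 13)) (cp 120))⟩,
  ⟨1, 2089440, 235, (n (n (n z (cm 524)) (cp 2902)) z)⟩,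
  ⟨1, 792, 459, (n (n (n z (cm 2)) (cm 9)) (cp 66))⟩,
  ⟨1, 171468, 459, (n (n (n z (cm 56)) (cp 866)) z)⟩,
  ⟨1, 1440, 243, (n (n (n z (cm 14)) (cm 13)) (cp 120))⟩,
  ⟨1, 2089440, 243, (n (n (n z (cm 524)) (cp 2902)) z)⟩,
  ⟨1, 51, 467, (n (n (n z (cm 1)) (cm 1)) (cp 17))⟩,
  ⟨1, 6528, 467, (n (n (n z (cm 26)) (cp 160)) z)⟩,
  ⟨1, 12, 483, (n (n (n z (cm 0)) (cm 0)) (cp 8))⟩,
  ⟨1, 516, 483, (n (n (n z (cm 7)) (cp 43)) z)⟩,
  ⟨1, 648, 221, (n (n (n z (cm 6)) (cm 7)) (cp 54))⟩,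
  ⟨31, 14904, 221, (n (n (n z (cm 6)) (cp 46)) z)⟩,
  ⟨1, 648, 237, (n (n (n z (cm 6)) (cm 9)) (cp 54))⟩,
  ⟨1, 153414, 237, (n (n (n z (cm 138)) (cp 947)) z)⟩,
  ⟨1, 576, 461, (n (n (n z (cm 6)) (cm 7)) (cp 48))⟩,
  ⟨1, 29664, 461, (n (n (n z (cm 66)) (cp 412)) z)⟩,
  ⟨1, 288, 245, (n (n (n z (cm 2)) (cm 3)) (cp 24))⟩,
  ⟨1, 28224, 245, (n (n (n z (cm 50)) (cp 392)) z)⟩,
  ⟨1, 648, 469, (n (n (n z (cm 6)) (cm 9)) (cp 54))⟩,
  ⟨1, 596160, 469, (n (n (n z (cm 250)) (cp 1840)) z)⟩,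
  ⟨1, 648, 485, (n (n (n z (cm 6)) (cm 8)) (cp 54))⟩,
  ⟨1, 23544, 485, (n (n (n z (cm 42)) (cp 327)) z)⟩,
  ⟨1, 168, 249, (n (n (n z (cm 1)) (cm 2)) (cp 14))⟩,
  ⟨1, 163128, 249, (n (n (n z (cm 145)) (cp 971)) z)⟩,
  ⟨1, 504, 473, (n (n (n z (cm 5)) (cm 6)) (cp 42))⟩,
  ⟨1, 25416, 473, (n (n (n z (cm 47)) (cp 353)) z)⟩,
  ⟨1, 528, 489, (n (n (n z (cm 6)) (cm 7)) (cp 44))⟩,
  ⟨1, 2684, 489, (n (n (n z (cm 16)) (cp 122)) z)⟩,
  ⟨1, 24, 497, (n (n (n z (cm 0)) (cm 0)) (cp 6))⟩,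
  ⟨1, 3144, 497, (n (n (n z (cm 20)) (cp 131)) z)⟩,
  ⟨1, 600, 222, (n (n (n z (cm 7)) (cm 14)) (cp 50))⟩,
  ⟨1, 136200, 222, (n (n (n z (cm 163)) (cp 1135)) z)⟩,
  ⟨1, 168, 238, (n (n (n z (cm 2)) (cm 2)) (cp 14))⟩,
  ⟨1, 167832, 238, (n (n (n z (cm 148)) (cp 999)) z)⟩,
  ⟨1, 150, 462, (n (n (n z (cm 7)) (cm 3)) (cp 25))⟩,
  ⟨1, 530400, 462, (n (n (n z (cm 438)) (cp 1768)) z)⟩,
  ⟨1, 168, 246, (n (n (n z (cm 2)) (cm 2)) (cp 14))⟩,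
  ⟨1, 167832, 246, (n (n (n z (cm 148)) (cp 999)) z)⟩,
  ⟨1, 552, 470, (n (n (n z (cm 8)) (cm 6)) (cp 46))⟩,
  ⟨1, 1547256, 470, (n (n (n z (cm 384)) (cp 2803)) z)⟩,
  ⟨1, 64, 486, (n (n (n z (cm 2)) (cm 2)) (cp 16))⟩,
  ⟨1, 203712, 486, (n (n (n z (cm 154)) (cp 1061)) z)⟩,
  ⟨1, 48, 250, (n (n (n z (cm 0)) (cm 0)) (cp 4))⟩,
  ⟨1, 13008, 250, (n (n (n z (cm 36)) (cp 271)) z)⟩,
  ⟨1, 600, 474, (n (n (n z (cm 12)) (cm 8)) (cp 50))⟩,
  ⟨1, 2111400, 474, (n (n (n z (cm 516)) (cp 3519)) z)⟩,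
  ⟨1, 264, 490, (n (n (n z (cm 4)) (cm 6)) (cp 22))⟩,
  ⟨1, 649176, 490, (n (n (n z (cm 364)) (cp 2459)) z)⟩,
  ⟨1, 264, 498, (n (n (n z (cm 4)) (cm 6)) (cp 22))⟩,
  ⟨1, 649176, 498, (n (n (n z (cm 364)) (cp 2459)) z)⟩,
  ⟨1, 600, 252, (n (n (n z (cm 7)) (cm 14)) (cp 50))⟩,
  ⟨1, 136200, 252, (n (n (n z (cm 163)) (cp 1135)) z)⟩,
  ⟨1, 64, 476, (n (n (n z (cm 2)) (cm 2)) (cp 16))⟩,
  ⟨1, 203712, 476, (n (n (n z (cm 154)) (cp 1061)) z)⟩,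
  ⟨1, 552, 492, (n (n (n z (cm 6)) (cm 8)) (cp 46))⟩,
  ⟨5, 326232, 492, (n (n (n z (cm 76)) (cp 591)) z)⟩,
  ⟨1, 150, 500, (n (n (n z (cm 3)) (cm 7)) (cp 25))⟩,
  ⟨1, 831600, 500, (n (n (n z (cm 438)) (cp 2772)) z)⟩,
  ⟨1, 600, 504, (n (n (n z (cm 8)) (cm 12)) (cp 50))⟩,
  ⟨1, 1998600, 504, (n (n (n z (cm 516)) (cp 3331)) z)⟩]

theorem i12_6_7 : Ineq 10 can12 6 7 :=
  ineq_of_check (K := 997445371128233063896592136521545473831098299504211024136407725524259006149804986614817265359400334592828854614475783593436296240692685265373434412939623271281458882095252336856718252826760927753520325301287769387178143723738994244934240256208041298620425544483223233855240406500196391203229799924426226098898273492246599908948337449583645323275046655720033986632032548707540884423629485259576218126993644210439230147012761393068142810411124943888886811570853972668923590399) (cs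 := q12_6_7) (by decide +kernel)

end Pool.Agent.Lib.MP_c69b6d_co
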