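import Pool.Agent.Lib.MP_c69b6d_co.Cert3

namespace Pool.Agent.Lib.MP_c69b6d_co

open P2

set_option maxRecDepth 100000

def q12_6_8 : List Sq := [⟨1, 16, 320, (n (n (n (n z (n (n z (n z (cp 1))) z)) z) (n (n (n (n z (n z (cm 2))) z) z) z)) (n (n (n (n (n z (n z (cp 1))) z) z) (n (n (n z (cp 2)) (cm 0)) (cm 0))) (n (n (n (n (n z (cm 0)) z) z) z) (cp 4))))⟩,
  ⟨1, 16, 320, (n (n (n (n z (n (n z (n z (cp 1))) z)) z) (n (n (n z (n (n z (cm 0)) z)) z) z)) (n (n (n z (n (n z (cm 2)) (cm 0))) (n (n z (cm 0)) (cp 1))) (n (n (n z (cp 4)) z) z)))⟩,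
  ⟨1, 240, 320, (n (n (n (n z (n (n z (n z (cp 1))) z)) z) (n (n (n (n z (n z (cm 2))) z) z) z)) (n (n (n (n (n z (n z (cm 2))) (n (n z (cm 3)) z)) (n (n (n z (cm 3)) z) z)) (n (n (n z (cp 6)) (cm 0)) (cm 0))) (n (n (n (n (n z (cp 15)) z) z) z) z)))⟩,
  ⟨1, 50160, 320, (n (n (n (n z (n (n z (n z (cp 1))) z)) z) (n (n (n (n z (n z (cp 12))) (n (n z (cp 15)) z)) z) z)) (n (n (n (n (n z (n z (cp 12))) (n (n z (cm 3)) z)) (n (n (n z (cm 63)) (cm 14)) (cp 15))) (n (n (n z (cm 23)) (cm 60)) (cp 209))) z))⟩,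
  ⟨1, 556776, 320, (n (n (n (n z (n (n z (n z (cp 109))) z)) z) (n (n (n (n z (n z (cp 54))) (n (n z (cm 36)) z)) z) z)) (n (n (n (n (n z (n z (cp 54))) (n (n z (cm 226)) z)) (n (n (n z (cm 78)) (cp 37)) (cm 36))) (n (n (n z (cm 107)) (cp 666)) z)) z))⟩,
  ⟨1, 12432, 320, (n (n (n (n z (n (n z (n z (cm 18))) z)) z) (n (n (n (n z (n z (cm 41))) (n (n z (cp 37)) z)) z) z)) (n (n (n (n (n z (n z (cm 41))) (n (n z (cp 8)) z)) (n (n (n z (cp 8)) z) z)) (n (n (n z (cp 84)) z) z)) z))⟩,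
  ⟨1, 4824, 320, (n (n (n (n z (n (n z (n z (cp 5))) z)) z) (n (n (n z (n (n z (cm 4)) z)) z) z)) (n (n (n (n z (n (n z (cm 18)) z)) (n (n (n z (cm 16)) (cm 30)) (cp 67))) z) z))⟩,
  ⟨1, 16616, 320, (n (n (n (n z (n (n z (n z (cm 9))) z)) z) (n (n (n z (n (n z (cp 10)) z)) z) z)) (n (n (n (n z (n (n z (cm 28)) z)) (n (n (n z (cm 32)) (cp 62)) z)) z) z))⟩,
  ⟨1, 19253976, 320, (n (n (n (n z (n (n z (n z (cp 226))) z)) z) (n (n (n z (n (n z (cm 39)) z)) z) z)) (n (n (n (n (n z (n z (cm 1301))) (n (n z (cm 1216)) z)) (n (n (n z (cp 3697)) z) z)) z) z))⟩,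
  ⟨1, 34603920, 320, (n (n (n (n z (n (n z (n z (cp 665))) z)) z) (n (n (n z (n (n z (cm 313)) z)) z) z)) (n (n (n (n (n z (n z (cm 2456))) (n (n z (cp 4680)) z)) z) z) z))⟩,
  ⟨1, 3120, 320, (n (n (n (n z (n (n z (n z (cm 4))) z)) z) (n (n (n z (n (n z (cp 8)) z)) z) z)) (n (n (n (n (n z (n z (cp 39))) z) z) z) z))⟩,
  ⟨1, 2753712, 320, (n (n (n (n z (n (n z (n z (cm 1110))) z)) z) (n (n (n (n z (n z (cp 234))) (n (n z (cp 1471)) z)) z) z)) z)⟩,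
  ⟨1, 7966936, 320, (n (n (n (n z (n (n z (n z (cp 1291))) z)) z) (n (n (n (n z (n z (cp 1354))) z) z) z)) z)⟩,
  ⟨1, 8, 323, (n (n (n (n z (n z (cm 0))) (n (n z (cp 4)) z)) z) z)⟩,
  ⟨1, 8, 353, (n (n (n z (n (n z (cp 4)) z)) z) (n (n (n (n z (cm 0)) z) z) z))⟩,
  ⟨5, 8, 449, (n (n (n z (n (n z (cm 0)) z)) z) (n (n (n z (cp 2)) z) z))⟩,
  ⟨1, 40, 330, (n (n (n (n z (n z (cm 3))) z) z) (n (n (n (n z (cm 2)) z) (cm 0)) (cp 10)))⟩,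
  ⟨1, 3640, 330, (n (n (n (n z (n z (cm 11))) z) z) (n (n (n (n z (cp 91)) z) (cm 12)) z))⟩,
  ⟨1, 4641, 330, (n (n (n (n z (n z (cp 51))) z) z) (n (n z (cm 12)) z))⟩,
  ⟨1, 10, 338, (n z (n (n (n (n z (cm 1)) z) z) (cp 5)))⟩,
  ⟨1, 40, 354, (n z (n (n (n (n z (cp 10)) z) z) (cm 2)))⟩,
  ⟨1, 8, 332, (n z (n (n (n z (cm 0)) (cp 4)) z))⟩,
  ⟨1, 8, 340, (n z (n (n z (cp 4)) (cm 0)))⟩,
  ⟨1, 24, 452, (n z (n (n (n (n z (cm 0)) (cp 6)) (cm 0)) (cm 0)))⟩,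
  ⟨7, 120, 452, (n z (n (n (n (n z (cm 0)) z) (cp 5)) (cm 0)))⟩,
  ⟨7, 80, 452, (n z (n (n (n (n z (cp 4)) z) z) (cm 0)))⟩,
  ⟨1, 10, 344, (n z (n (n (n (n z (cm 1)) z) (cp 5)) z))⟩,
  ⟨1, 10, 360, (n z (n (n (n (n z (cm 1)) z) (cp 5)) z))⟩,
  ⟨1, 32, 456, (n z (n (n (n (n z (cp 8)) (cm 2)) z) z))⟩,
  ⟨1, 40, 368, (n (n z (n (n (n z (cm 3)) z) z)) (n (n (n (n z (cm 2)) (cm 0)) (cp 10)) z))⟩,
  ⟨1, 3640, 368, (n (n z (n (n (n z (cm 11)) z) z)) (n (n (n (n z (cp 91)) (cm 12)) z) z))⟩,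
  ⟨1, 4641, 368, (n (n z (n (n (n z (cp 51)) z) z)) (n (n (n z (cm 12)) z) z))⟩,
  ⟨1, 32, 464, (n z (n (n (n z (cm 2)) z) (cp 8)))⟩,
  ⟨1, 16, 455, (n (n (n z (cm 0)) (cp 4)) z)⟩,
  ⟨1, 16, 459, (n (n (n z (cm 0)) (cp 4)) z)⟩,
  ⟨1, 16, 485, (n (n z (cp 4)) (cm 0))⟩,
  ⟨1, 16, 497, (n (n (n z (cp 4)) z) (cm 0))⟩]

theorem i12_6_8 : Ineq 10 can12 6 8 :=
  ineq_of_check (K := 131731035133389348777119) (cs := q12_6_8) (by decide +kernel)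

def q12_7_8 : List Sq := [⟨1, 16, 384, (n (n (n (n z (n (n z (n z (cm 1))) z)) z) (n (n (n (n z (n z (cm 3))) (n (n z (cm 1)) z)) z) z)) (n (n (n z (n z (cp 4))) (n (n (n z (cp 1)) (cp 4)) (cp 4))) (n (n (n (n z (cm 3)) z) z) (cp 1))))⟩,
  ⟨1, 16, 384, (n z (n (n (n (n (n z (n z (cm 0))) (n (n z (cm 0)) z)) (n (n (n z (cm 0)) z) z)) z) (n (n (n (n (n z (cp 4)) z) z) z) (cm 0))))⟩,
  ⟨1, 240, 384, (n z (n (n (n (n (n z (n z (cp 15))) (n (n z (cm 4)) z)) (n (n (n z (cm 4)) z) z)) (n (n (n z (cm 3)) z) z)) (n z (cm 0))))⟩,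
  ⟨1, 120, 384, (n z (n (n (n (n z (n (n z (cp 10)) z)) (n (n (n z (cm 4)) z) z)) (n (n (n z (cm 0)) z) z)) (n z (cm 0))))⟩,
  ⟨1, 5520, 384, (n (n (n (n z (n (n z (n z (cp 50))) z)) z) (n (n (n z (n (n z (cm 49)) z)) z) z)) (n (n (n z (n (n (n z (cm 9)) z) z)) (n (n (n z (cm 46)) z) z)) (n z (cp 69))))⟩,
  ⟨1, 184920, 384, (n (n (n (n z (n (n z (n z (cp 50))) z)) z) (n (n (n z (n (n z (cm 49)) z)) z) z)) (n (n (n z (n (n (n z (cp 335)) z) z)) (n (n (n z (cm 115)) z) z)) z))⟩,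
  ⟨9, 77720, 384, (n (n (n (n z (n (n z (n z (cm 24))) z)) z) (n (n (n z (n (n z (cp 25)) z)) z) z)) (n (n z (n (n (n z (cp 58)) z) z)) z))⟩,
  ⟨49, 232, 384, (n (n (n (n z (n (n z (n z (cp 1))) z)) z) (n (n (n z (n (n z (cm 0)) z)) z) z)) z)⟩,
  ⟨1, 8, 387, (n (n (n (n z (n z (cp 4))) (n (n z (cm 0)) z)) z) z)⟩,
  ⟨1, 8, 417, (n (n (n z (n (n z (cm 0)) z)) z) (n (n (n (n z (cp 4)) z) z) z))⟩,
  ⟨1, 40, 394, (n z (n (n (n (n z (cp 10)) z) z) (cm 2)))⟩,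
  ⟨1, 40, 402, (n z (n (n (n (n z (cp 10)) z) z) (cm 2)))⟩,
  ⟨1, 48, 418, (n z (n (n (n (n z (cm 4)) z) z) (cp 12)))⟩,
  ⟨1, 24, 452, (n z (n (n (n (n z (cm 0)) (cm 0)) (cm 0)) (cp 6)))⟩,
  ⟨1, 552, 452, (n z (n (n (n (n z (cm 6)) (cm 6)) (cp 23)) z))⟩,
  ⟨7, 1656, 452, (n z (n (n (n (n z (cp 18)) (cm 4)) z) z))⟩,
  ⟨1, 40, 424, (n z (n (n (n (n z (cp 10)) z) (cm 2)) z))⟩,
  ⟨1, 40, 432, (n z (n (n (n (n z (cp 10)) z) (cm 2)) z))⟩]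

theorem i12_7_8 : Ineq 10 can12 7 8 :=
  ineq_of_check (K := 32176079) (cs := q12_7_8) (by decide +kernel)

def q13_0_1 : List Sq := [⟨1, 4, 3, (n (n (n (n z (n (n z (n z (cm 0))) (n (n z (cm 0)) z))) (n (n (n z (n z (cm 1))) z) (n (n (n z (cm 0)) z) (cp 1)))) (n (n (n (n z (n z (cm 1))) (n (n z (cm 0)) z)) (n (n (n z (cm 0)) z) (cm 0))) (n (n (n (n z (cm 1)) z) z) z))) (n (n (n z (n (n z (cm 0)) (cm 0))) (n (n (n z (cm 1)) z) (cm 0))) (n (n (n (n z (cm 1)) (cm 0)) (cm 0)) (cm 1))))⟩,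
  ⟨3, 4, 3, (n (n (n (n z (n (n z (n z (cp 1))) (n (n z (cp 1)) z))) (n z (n (n (n z (cp 1)) z) (cp 1)))) (n (n (n z (n (n z (cp 1)) z)) (n (n (n z (cp 1)) z) (cp 1))) z)) (n (n (n z (n (n z (cp 1)) (cp 1))) (n z (cp 1))) (n (n (n z (cp 1)) (cp 1)) z)))⟩]

theorem i13_0_1 : Ineq 10 can13 0 1 :=
  ineq_of_check (K := 3) (cs := q13_0_1) (by decide +kernel)

def q13_0_2 : List Sq := [⟨1, 4, 5, (n (n (n z (n z (n (n z (cm 1)) (cm 0)))) (n (n z (n (n z (cm 1)) z)) (n z (cm 1)))) (n (n (n z (n (n z (cm 1)) (cm 1))) (n (n (n z (cm 1)) z) (cm 1))) (n (n (n (n z (cm 1)) (cm 0)) (cm 1)) (cm 1))))⟩,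
  ⟨3, 4, 5, (n (n (n z (n z (n z (cm 0)))) z) (n z (n (n (n z (cp 1)) z) z)))⟩]

theorem i13_0_2 : Ineq 10 can13 0 2 :=
  ineq_of_check (K := 3) (cs := q13_0_2) (by decide +kernel)

def q13_0_3 : List Sq := [⟨1, 4, 9, (n (n (n (n z (n (n z (n z (cp 1))) z)) (n (n z (n (n z (cm 1)) z)) (n (n (n z (cm 0)) z) (cm 1)))) (n (n z (n (n z (cp 1)) z)) (n (n z (cm 1)) (cm 0)))) (n (n (n (n (n z (n z (cm 0))) (n (n z (cm 1)) z)) (n z (cm 0))) (n (n (n (n z (cm 1)) z) (cm 1)) z)) (n (n (n (n z (cm 0)) (cm 1)) z) (cm 1))))⟩,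
  ⟨3, 4, 9, (n (n (n (n z (n (n z (n z (cm 0))) z)) (n z (n (n (n z (cm 0)) z) z))) (n (n z (n (n z (cm 0)) z)) (n z (cm 0)))) (n (n (n (n (n z (n z (cm 0))) z) (n z (cp 1))) z) (n (n (n (n z (cm 0)) z) z) z)))⟩]

theorem i13_0_3 : Ineq 10 can13 0 3 :=
  ineq_of_check (K := 3) (cs := q13_0_3) (by decide +kernel)

def q13_0_6 : List Sq := [⟨1, 4, 65, (n (n (n (n (n z (n z (n z (cp 1)))) (n (n z (n z (cp 1))) (n (n z (cm 0)) (cp 1)))) (n (n (n z (n z (cp 1))) (n z (cp 1))) (n (n (n z (cp 1)) z) (cp 1)))) (n (n (n z (n z (cp 1))) (n (n z (cp 1)) (cm 0))) (n (n (n z (cp 1)) z) (cp 1)))) (n (n (n (n (n z (n z (cp 1))) (n z (cp 1))) (n (n z (cp 1)) (cp 1))) (n (n (n (n z (cp 2)) (cp 1)) (cp 1)) (cp 1))) (n (n (n (n z (cp 1)) z) z) (cp 2))))⟩,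
  ⟨3, 4, 65, (n (n (n (n (n z (n z (n z (cm 0)))) (n (n z (n z (cm 0))) (n (n z (cm 0)) (cm 0)))) (n (n (n z (n z (cm 0))) (n z (cm 0))) (n (n (n z (cm 0)) z) (cm 0)))) (n (n (n z (n z (cm 0))) (n (n z (cm 0)) (cm 0))) (n (n (n z (cm 0)) z) (cm 0)))) (n (n (n (n (n z (n z (cm 0))) (n z (cm 0))) (n (n z (cm 0)) (cm 0))) (n (n (n z (cm 0)) (cm 0)) (cm 0))) (n (n (n (n z (cm 0)) z) z) z)))⟩]

theorem i13_0_6 : Ineq 10 can13 0 6 :=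
  ineq_of_check (K := 3) (cs := q13_0_6) (by decide +kernel)

def q13_0_7 : List Sq := []

theorem i13_0_7 : Ineq 10 can13 0 7 :=
  ineq_of_check (K := 0) (cs := q13_0_7) (by decide +kernel)

def q13_1_2 : List Sq := []

theorem i13_1_2 : Ineq 10 can13 1 2 :=
  ineq_of_check (K := 0) (cs := q13_1_2) (by decide +kernel)

def q13_1_3 : List Sq := [⟨1, 4, 10, (n (n (n (n (n z (n z (n z (cm 0)))) (n (n z (n z (cm 1))) (n z (cm 1)))) (n z (n (n (n z (cm 0)) z) (cm 0)))) (n (n (n z (n z (cm 0))) (n (n z (cm 1)) z)) (n z (cm 0)))) (n (n (n (n (n z (n z (cm 0))) (n (n z (cm 0)) z)) (n (n z (cm 1)) (cm 1))) (n (n (n (n z (cm 1)) z) z) (cm 0))) (n (n (n (n z (cm 0)) (cm 0)) z) (cm 1))))⟩,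
  ⟨3, 4, 10, (n (n (n (n (n z (n z (n z (cm 0)))) z) (n z (n (n (n z (cp 1)) z) (cp 1)))) (n (n (n z (n z (cm 0))) z) (n z (cp 1)))) (n (n (n (n (n z (n z (cm 0))) (n (n z (cm 0)) z)) z) (n z (cp 1))) (n (n (n (n z (cm 0)) (cm 0)) z) z)))⟩]

theorem i13_1_3 : Ineq 10 can13 1 3 :=
  ineq_of_check (K := 3) (cs := q13_1_3) (by decide +kernel)

def q13_1_4 : List Sq := []

theorem i13_1_4 : Ineq 10 can13 1 4 :=
  ineq_of_check (K := 0) (cs := q13_1_4) (by decide +kernel)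

def q13_1_5 : List Sq := []

theorem i13_1_5 : Ineq 10 can13 1 5 :=
  ineq_of_check (K := 0) (cs := q13_1_5) (by decide +kernel)

def q13_1_6 : List Sq := [⟨1, 4, 66, (n (n (n (n (n z (n z (n z (cm 1)))) (n (n z (n z (cm 0))) (n (n z (cm 0)) z))) (n (n (n z (n z (cm 0))) z) (n (n (n z (cm 0)) z) z))) (n (n (n z (n z (cm 1))) (n (n z (cm 0)) (cm 0))) (n (n (n z (cm 0)) z) (cm 0)))) (n (n (n z (n (n (n z (cm 0)) z) (cp 1))) (n (n (n (n z (cp 1)) z) (cp 2)) z)) (n (n z (cm 0)) (cp 1))))⟩,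
  ⟨3, 4, 66, (n (n (n (n z (n (n z (n z (cp 1))) (n (n z (cp 1)) z))) (n (n (n z (n z (cp 1))) z) (n (n (n z (cp 1)) z) z))) (n (n z (n (n z (cp 1)) (cp 1))) (n (n (n z (cp 1)) z) (cp 1)))) (n (n (n z (n (n (n z (cp 1)) z) (cp 1))) (n (n (n (n z (cp 1)) z) z) z)) (n (n z (cp 1)) (cp 1))))⟩]

theorem i13_1_6 : Ineq 10 can13 1 6 :=
  ineq_of_check (K := 3) (cs := q13_1_6) (by decide +kernel)

def q13_1_7 : List Sq := [⟨1, 4, 130, (n (n (n (n (n z (n z (n z (cp 1)))) (n z (n (n z (cp 2)) (cp 2)))) (n (n (n z (n z (cp 1))) (n (n z (cp 1)) (cp 1))) z)) (n (n (n z (n z (cp 1))) (n z (cp 2))) (n (n (n z (cp 1)) (cp 1)) z))) (n (n (n z (n (n (n z (cp 1)) z) (cp 2))) (n (n (n (n z (cp 2)) z) (cp 1)) z)) (n (n z (cp 1)) (cp 2))))⟩,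
  ⟨3, 4, 130, (n (n (n (n (n z (n z (n z (cm 0)))) z) (n (n (n z (n z (cm 0))) (n (n z (cm 0)) (cm 0))) z)) (n (n (n z (n z (cm 0))) z) (n (n (n z (cm 0)) (cm 0)) z))) (n (n (n z (n (n (n z (cp 1)) z) z)) (n (n z (cm 0)) z)) (n (n z (cp 1)) z)))⟩]

theorem i13_1_7 : Ineq 10 can13 1 7 :=
  ineq_of_check (K := 3) (cs := q13_1_7) (by decide +kernel)

def q13_2_3 : List Sq := [⟨1, 4, 12, (n (n (n (n z (n z (n z (cp 1)))) (n z (n z (cp 1)))) (n (n (n z (n z (cm 0))) (n z (cp 1))) z)) (n (n (n z (n (n z (cp 1)) (cp 1))) (n z (cm 0))) (n (n (n (n z (cm 0)) (cm 0)) z) (cm 1))))⟩,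
  ⟨3, 4, 12, (n (n (n (n z (n z (n z (cm 0)))) (n z (n z (cm 0)))) (n (n (n z (n z (cm 0))) (n z (cm 0))) z)) (n (n (n z (n (n z (cm 0)) (cm 0))) (n z (cm 0))) (n (n (n (n z (cm 0)) (cm 0)) z) z)))⟩]

theorem i13_2_3 : Ineq 10 can13 2 3 :=
  ineq_of_check (K := 3) (cs := q13_2_3) (by decide +kernel)

end Pool.Agent.Lib.MP_c69b6d_co
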