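import Pool.Agent.Lib.MP_c69b6d_co.Cert4

namespace Pool.Agent.Lib.MP_c69b6d_co

open P2

set_option maxRecDepth 100000

def q13_2_6 : List Sq := []

theorem i13_2_6 : Ineq 10 can13 2 6 :=
  ineq_of_check (K := 0) (cs := q13_2_6) (by decide +kernel)

def q13_2_7 : List Sq := [⟨1, 4, 132, (n (n (n (n z (n z (n z (cm 1)))) z) (n (n (n z (n z (cm 0))) z) (n (n (n z (cp 1)) z) z))) (n (n (n z (n z (cm 0))) (n (n z (cp 1)) z)) (n (n z (cp 1)) (cp 2))))⟩,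
  ⟨3, 4, 132, (n (n z (n (n (n z (n z (cm 0))) z) (n (n (n z (cm 0)) z) z))) (n (n (n z (n z (cp 1))) (n (n z (cp 1)) z)) (n (n z (cp 1)) z)))⟩]

theorem i13_2_7 : Ineq 10 can13 2 7 :=
  ineq_of_check (K := 3) (cs := q13_2_7) (by decide +kernel)

def q13_2_8 : List Sq := []

theorem i13_2_8 : Ineq 10 can13 2 8 :=
  ineq_of_check (K := 0) (cs := q13_2_8) (by decide +kernel)

def q13_3_4 : List Sq := []

theorem i13_3_4 : Ineq 10 can13 3 4 :=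
  ineq_of_check (K := 0) (cs := q13_3_4) (by decide +kernel)

def q13_3_6 : List Sq := [⟨1, 4, 72, (n (n (n (n (n z (n z (n z (cp 2)))) (n z (n (n z (cp 2)) z))) (n (n z (n z (cp 2))) (n z (cp 2)))) (n (n (n (n z (n z (cp 1))) (n (n z (cp 2)) z)) z) (n (n (n z (cp 1)) (cp 2)) z))) (n (n (n (n z (n (n z (cp 2)) z)) (n (n (n z (cp 1)) z) (cp 1))) (n (n z (cp 2)) (cp 1))) (n (n (n (n (n z (cp 2)) z) (cp 2)) (cp 1)) (cp 2))))⟩,
  ⟨3, 4, 72, (n (n z (n (n (n (n z (n z (cp 1))) z) z) (n (n (n z (cp 1)) z) z))) (n (n (n z (n (n (n z (cm 0)) z) (cm 0))) (n z (cm 0))) (n (n z (cm 0)) z)))⟩]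

theorem i13_3_6 : Ineq 10 can13 3 6 :=
  ineq_of_check (K := 3) (cs := q13_3_6) (by decide +kernel)

def q13_3_7 : List Sq := []

theorem i13_3_7 : Ineq 10 can13 3 7 :=
  ineq_of_check (K := 0) (cs := q13_3_7) (by decide +kernel)

def q13_6_7 : List Sq := [⟨1, 4, 192, (n (n (n (n (n z (n z (n z (cm 0)))) z) (n (n z (n z (cm 0))) z)) (n (n (n (n z (n z (cp 1))) z) (n (n (n z (cp 2)) z) z)) (n (n (n z (cp 1)) z) (cp 2)))) (n (n (n (n (n z (n z (cp 1))) (n (n z (cp 1)) (cp 1))) (n (n (n z (cp 1)) (cp 1)) z)) (n (n (n z (cp 1)) (cp 1)) (cp 1))) (n (n (n (n (n z (cp 1)) (cp 1)) (cp 1)) (cp 1)) (cp 1))))⟩,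
  ⟨3, 4, 192, (n (n (n (n (n z (n z (n z (cm 0)))) z) (n (n z (n z (cm 0))) z)) (n (n (n (n z (n z (cm 0))) z) z) (n (n (n z (cm 0)) z) z))) (n (n (n (n (n z (n z (cm 0))) (n (n z (cm 0)) (cm 0))) (n (n (n z (cm 0)) (cm 0)) z)) (n (n (n z (cm 0)) (cm 0)) (cm 0))) (n (n (n (n (n z (cm 0)) (cm 0)) (cm 0)) (cm 0)) (cm 0))))⟩]

theorem i13_6_7 : Ineq 10 can13 6 7 :=
  ineq_of_check (K := 3) (cs := q13_6_7) (by decide +kernel)

def q14_0_1 : List Sq := [⟨1, 4, 3, (n (n (n (n (n z (n z (n z (cp 2)))) (n (n z (n z (cp 1))) z)) (n (n z (n (n z (cp 1)) z)) z)) z) (n (n (n (n (n z (n z (cp 1))) z) (n (n z (cp 1)) z)) (n (n z (cm 0)) z)) (n (n (n (n z (cm 0)) (cm 1)) z) z)))⟩,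
  ⟨3, 4, 3, (n (n (n (n z (n (n z (n z (cm 0))) z)) (n (n z (n (n z (cp 1)) z)) z)) z) (n (n (n (n (n z (n z (cm 0))) z) (n (n z (cm 0)) z)) (n (n z (cp 1)) z)) (n (n (n (n z (cm 0)) z) z) z)))⟩]

theorem i14_0_1 : Ineq 10 can14 0 1 :=
  ineq_of_check (K := 3) (cs := q14_0_1) (by decide +kernel)

def q14_0_2 : List Sq := []

theorem i14_0_2 : Ineq 10 can14 0 2 :=
  ineq_of_check (K := 0) (cs := q14_0_2) (by decide +kernel)

def q14_0_3 : List Sq := []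

theorem i14_0_3 : Ineq 10 can14 0 3 :=
  ineq_of_check (K := 0) (cs := q14_0_3) (by decide +kernel)

def q14_0_4 : List Sq := [⟨1, 4, 17, (n (n (n (n (n z (n z (n z (cm 0)))) (n (n z (n z (cp 1))) (n (n z (cp 1)) z))) z) (n (n (n (n z (n z (cp 1))) (n (n z (cp 1)) z)) (n (n z (cp 1)) (cp 1))) (n (n (n z (cp 2)) (cp 2)) z))) (n (n (n (n z (n (n z (cp 1)) z)) (n (n (n z (cp 1)) z) z)) z) (n (n (n (n (n z (cp 1)) z) (cp 1)) (cp 1)) (cp 2))))⟩,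
  ⟨3, 4, 17, (n (n (n (n (n z (n z (n z (cp 1)))) (n (n z (n z (cp 1))) (n (n z (cp 1)) z))) z) (n (n (n (n z (n z (cp 1))) (n (n z (cp 1)) z)) (n (n z (cp 1)) (cp 1))) z)) (n (n (n (n z (n (n z (cp 1)) z)) (n (n (n z (cp 1)) z) z)) z) (n (n (n (n (n z (cp 1)) z) (cp 1)) (cp 1)) z)))⟩]

theorem i14_0_4 : Ineq 10 can14 0 4 :=
  ineq_of_check (K := 3) (cs := q14_0_4) (by decide +kernel)

def q14_0_5 : List Sq := [⟨1, 4, 33, (n (n (n (n (n z (n z (n z (cm 1)))) (n (n z (n z (cm 0))) (n (n z (cm 0)) z))) z) (n (n z (n (n z (cp 1)) (cp 1))) (n (n (n z (cp 2)) (cp 2)) z))) (n (n (n (n (n z (n z (cm 0))) z) (n (n (n z (cm 0)) z) z)) z) (n (n (n (n z (cp 1)) z) (cp 1)) (cp 2))))⟩,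
  ⟨3, 4, 33, (n (n (n (n z (n (n z (n z (cm 0))) (n (n z (cm 0)) z))) z) (n (n z (n (n z (cm 0)) (cm 0))) z)) (n (n (n (n (n z (n z (cm 0))) z) (n (n (n z (cm 0)) z) z)) z) (n (n (n (n z (cm 0)) z) (cm 0)) z)))⟩]

theorem i14_0_5 : Ineq 10 can14 0 5 :=
  ineq_of_check (K := 3) (cs := q14_0_5) (by decide +kernel)

def q14_0_6 : List Sq := [⟨1, 4, 65, (n (n (n (n (n z (n z (n z (cp 1)))) (n (n z (n z (cm 0))) z)) z) (n (n (n (n z (n z (cp 1))) (n z (cp 1))) (n (n z (cp 1)) z)) (n (n (n z (cp 1)) z) z))) (n (n (n (n (n z (n z (cm 0))) z) (n (n (n z (cm 0)) z) z)) z) (n (n (n (n z (cp 1)) z) (cp 1)) (cp 2))))⟩,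
  ⟨3, 4, 65, (n (n (n (n (n z (n z (n z (cm 0)))) (n (n z (n z (cm 0))) z)) z) (n (n (n (n z (n z (cm 0))) (n z (cm 0))) (n (n z (cm 0)) z)) (n (n (n z (cm 0)) z) z))) (n (n (n (n (n z (n z (cm 0))) z) (n (n (n z (cm 0)) z) z)) z) (n (n (n (n z (cm 0)) z) (cm 0)) z)))⟩]

theorem i14_0_6 : Ineq 10 can14 0 6 :=
  ineq_of_check (K := 3) (cs := q14_0_6) (by decide +kernel)

def q14_0_7 : List Sq := []

theorem i14_0_7 : Ineq 10 can14 0 7 :=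
  ineq_of_check (K := 0) (cs := q14_0_7) (by decide +kernel)

def q14_0_8 : List Sq := []

theorem i14_0_8 : Ineq 10 can14 0 8 :=
  ineq_of_check (K := 0) (cs := q14_0_8) (by decide +kernel)

def q14_1_2 : List Sq := [⟨1, 4, 6, (n (n (n (n (n z (n z (n z (cm 1)))) z) (n (n z (n (n z (cm 1)) z)) z)) (n (n (n (n z (n z (cm 0))) (n (n z (cm 1)) z)) z) z)) (n (n (n (n (n z (n z (cm 0))) (n (n z (cm 1)) z)) (n (n z (cp 1)) z)) (n (n z (cm 0)) z)) (n (n (n (n z (cm 0)) (cm 1)) z) z)))⟩,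
  ⟨3, 4, 6, (n (n z (n (n (n (n z (n z (cp 1))) z) z) z)) (n (n (n (n (n z (n z (cp 1))) z) (n (n z (cp 1)) z)) (n (n z (cm 0)) z)) (n (n (n (n z (cp 1)) z) z) z)))⟩]

theorem i14_1_2 : Ineq 10 can14 1 2 :=
  ineq_of_check (K := 3) (cs := q14_1_2) (by decide +kernel)

end Pool.Agent.Lib.MP_c69b6d_co
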