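import Pool.Agent.Lib.MP_c69b6d_co.Cert5

namespace Pool.Agent.Lib.MP_c69b6d_co

open P2

set_option maxRecDepth 100000

def q14_1_3 : List Sq := [⟨1, 4, 10, (n (n (n (n (n z (n z (n z (cm 0)))) (n (n z (n z (cm 1))) z)) (n (n z (n (n z (cp 1)) z)) z)) (n (n (n (n z (n z (cm 1))) (n z (cm 0))) (n (n z (cm 1)) z)) (n (n z (cp 1)) z))) (n (n (n (n z (n z (cm 0))) (n (n z (cm 1)) z)) (n (n z (cp 1)) z)) (n (n (n (n z (cm 0)) (cm 0)) z) z)))⟩,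
  ⟨3, 4, 10, (n (n (n (n (n z (n z (n z (cp 1)))) z) (n (n z (n (n z (cp 1)) z)) z)) (n (n (n z (n z (cp 1))) z) (n (n z (cp 1)) z))) (n (n (n (n z (n z (cp 1))) z) (n (n z (cp 1)) z)) (n (n (n (n z (cp 1)) (cp 1)) z) z)))⟩]

theorem i14_1_3 : Ineq 10 can14 1 3 :=
  ineq_of_check (K := 3) (cs := q14_1_3) (by decide +kernel)

def q14_1_4 : List Sq := []

theorem i14_1_4 : Ineq 10 can14 1 4 :=
  ineq_of_check (K := 0) (cs := q14_1_4) (by decide +kernel)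

def q14_1_5 : List Sq := []

theorem i14_1_5 : Ineq 10 can14 1 5 :=
  ineq_of_check (K := 0) (cs := q14_1_5) (by decide +kernel)

def q14_1_6 : List Sq := []

theorem i14_1_6 : Ineq 10 can14 1 6 :=
  ineq_of_check (K := 0) (cs := q14_1_6) (by decide +kernel)

def q14_1_8 : List Sq := [⟨1, 4, 258, (n (n z (n (n (n (n z (n z (cm 1))) z) (n (n z (cm 1)) z)) (n (n (n (n z (cm 0)) (cm 1)) z) z))) (n (n (n (n (n z (n z (cm 1))) (n (n z (cm 0)) z)) (n (n z (cm 0)) z)) z) (n (n (n (n (n z (cm 1)) (cm 1)) z) z) z)))⟩,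
  ⟨3, 4, 258, (n (n z (n z (n (n (n (n z (cp 1)) z) z) z))) (n (n (n (n z (n (n z (cm 0)) z)) (n (n z (cp 1)) z)) z) z))⟩]

theorem i14_1_8 : Ineq 10 can14 1 8 :=
  ineq_of_check (K := 3) (cs := q14_1_8) (by decide +kernel)

def q14_2_3 : List Sq := [⟨1, 4, 12, (n (n (n (n (n z (n z (n z (cp 1)))) z) (n (n (n z (n z (cm 0))) (n (n z (cm 0)) z)) z)) (n (n (n (n z (n z (cm 0))) z) z) (n (n (n (n z (cm 0)) z) z) z))) (n (n (n z (n (n z (cm 0)) (cm 0))) (n (n (n z (cm 1)) (cm 1)) z)) (n (n (n (n z (cm 1)) (cm 0)) (cm 0)) (cm 1))))⟩,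
  ⟨3, 4, 12, (n (n (n (n (n z (n z (n z (cm 0)))) z) (n (n (n z (n z (cm 0))) (n (n z (cm 0)) z)) z)) (n (n (n (n z (n z (cm 0))) z) z) (n (n (n (n z (cm 0)) z) z) z))) (n (n (n z (n (n z (cp 1)) (cp 1))) z) (n (n (n z (cp 1)) (cp 1)) z)))⟩]

theorem i14_2_3 : Ineq 10 can14 2 3 :=
  ineq_of_check (K := 3) (cs := q14_2_3) (by decide +kernel)

def q14_2_4 : List Sq := [⟨1, 4, 20, (n (n (n (n (n z (n z (n z (cp 1)))) z) (n (n (n z (n z (cp 2))) (n (n z (cp 2)) z)) z)) (n z (n (n (n (n z (cp 2)) z) z) z))) (n (n (n (n (n z (n z (cp 2))) (n (n z (cp 2)) z)) (n (n z (cp 1)) (cp 1))) (n (n (n z (cp 2)) (cp 2)) z)) (n (n (n (n (n z (cp 2)) z) (cp 1)) (cp 1)) (cp 2))))⟩,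
  ⟨3, 4, 20, (n (n (n (n (n z (n z (n z (cm 0)))) z) z) z) (n (n (n z (n (n z (cp 1)) (cp 1))) z) (n (n (n z (cp 1)) (cp 1)) z)))⟩]

theorem i14_2_4 : Ineq 10 can14 2 4 :=
  ineq_of_check (K := 3) (cs := q14_2_4) (by decide +kernel)

def q14_2_5 : List Sq := []

theorem i14_2_5 : Ineq 10 can14 2 5 :=
  ineq_of_check (K := 0) (cs := q14_2_5) (by decide +kernel)

def q14_2_6 : List Sq := []

theorem i14_2_6 : Ineq 10 can14 2 6 :=
  ineq_of_check (K := 0) (cs := q14_2_6) (by decide +kernel)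

def q14_3_4 : List Sq := []

theorem i14_3_4 : Ineq 10 can14 3 4 :=
  ineq_of_check (K := 0) (cs := q14_3_4) (by decide +kernel)

def q14_3_5 : List Sq := []

theorem i14_3_5 : Ineq 10 can14 3 5 :=
  ineq_of_check (K := 0) (cs := q14_3_5) (by decide +kernel)

def q15_0_1 : List Sq := [⟨1, 4, 3, (n (n (n z (n (n (n z (n z (cp 1))) z) (n z (cm 0)))) (n (n (n (n z (n z (cp 2))) (n (n z (cp 1)) z)) (n z (cm 0))) (n (n z (cm 0)) z))) (n (n (n z (n (n z (cm 1)) (cm 1))) (n (n (n z (cm 0)) z) (cm 1))) (n (n z (cm 1)) (cm 1))))⟩,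
  ⟨3, 4, 3, (n (n (n z (n (n (n z (n z (cm 0))) z) (n z (cp 1)))) (n (n (n z (n (n z (cp 1)) z)) (n z (cp 1))) (n (n z (cp 1)) z))) (n (n z (n (n (n z (cm 0)) z) z)) z))⟩]

theorem i15_0_1 : Ineq 10 can15 0 1 :=
  ineq_of_check (K := 3) (cs := q15_0_1) (by decide +kernel)

def q15_0_2 : List Sq := []

theorem i15_0_2 : Ineq 10 can15 0 2 :=
  ineq_of_check (K := 0) (cs := q15_0_2) (by decide +kernel)

def q15_0_3 : List Sq := [⟨1, 4, 9, (n (n (n (n (n z (n z (n z (cp 1)))) (n (n z (n z (cp 1))) (n (n z (cp 1)) (cp 1)))) (n (n (n z (n z (cm 0))) (n z (cm 0))) z)) (n (n z (n (n z (cp 1)) (cp 2))) (n (n (n z (cm 0)) z) z))) (n (n (n (n (n z (n z (cp 1))) (n (n z (cp 1)) z)) (n (n z (cp 1)) (cp 1))) (n (n (n z (cm 0)) (cm 0)) z)) (n z (cm 1))))⟩,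
  ⟨3, 4, 9, (n (n (n (n (n z (n z (n z (cp 1)))) (n (n z (n z (cp 1))) (n (n z (cp 1)) (cp 1)))) (n (n (n z (n z (cp 1))) (n z (cp 1))) z)) (n (n z (n (n z (cp 1)) z)) (n (n (n z (cp 1)) z) z))) (n (n (n (n (n z (n z (cp 1))) (n (n z (cp 1)) z)) (n (n z (cp 1)) (cp 1))) (n (n (n z (cp 1)) (cp 1)) z)) z))⟩]

theorem i15_0_3 : Ineq 10 can15 0 3 :=
  ineq_of_check (K := 3) (cs := q15_0_3) (by decide +kernel)

def q15_0_4 : List Sq := []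

theorem i15_0_4 : Ineq 10 can15 0 4 :=
  ineq_of_check (K := 0) (cs := q15_0_4) (by decide +kernel)

def q15_0_5 : List Sq := [⟨1, 4, 33, (n (n (n (n z (n (n z (n z (cp 1))) (n z (cp 1)))) (n (n (n z (n z (cp 2))) (n (n z (cp 1)) (cp 2))) z)) (n (n (n z (n z (cp 2))) (n (n z (cp 1)) z)) (n (n (n z (cp 2)) (cp 2)) z))) (n (n (n z (n (n z (cp 1)) (cp 1))) (n (n (n z (cp 2)) (cp 2)) z)) (n (n (n (n z (cp 2)) (cp 2)) (cp 2)) (cp 2))))⟩,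
  ⟨3, 4, 33, (n (n (n (n z (n (n z (n z (cm 0))) (n z (cm 0)))) (n (n z (n (n z (cp 1)) z)) z)) (n (n z (n (n z (cm 0)) z)) z)) (n (n (n z (n (n z (cm 0)) (cm 0))) z) z))⟩]

theorem i15_0_5 : Ineq 10 can15 0 5 :=
  ineq_of_check (K := 3) (cs := q15_0_5) (by decide +kernel)

end Pool.Agent.Lib.MP_c69b6d_co
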