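import Pool.Agent.Lib.MP_c69b6d_co.Cert6

namespace Pool.Agent.Lib.MP_c69b6d_co

open P2

set_option maxRecDepth 100000

def q15_0_7 : List Sq := [⟨1, 4, 129, (n (n (n (n z (n z (n (n z (cm 1)) (cm 1)))) (n (n (n z (n z (cm 0))) (n (n z (cm 1)) (cm 1))) (n (n (n z (cm 1)) (cm 1)) z))) (n (n (n z (n z (cm 0))) (n z (cm 1))) (n (n z (cm 1)) (cm 1)))) (n (n (n z (n (n (n z (cm 1)) z) (cm 1))) (n (n (n (n z (cm 1)) z) (cm 1)) (cm 1))) (n (n z (cm 0)) z)))⟩,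
  ⟨3, 4, 129, (n (n (n z (n (n (n z (n z (cp 1))) z) z)) (n (n (n z (n z (cm 0))) z) z)) (n z (n (n z (cp 1)) z)))⟩]

theorem i15_0_7 : Ineq 10 can15 0 7 :=
  ineq_of_check (K := 3) (cs := q15_0_7) (by decide +kernel)

def q15_0_8 : List Sq := []

theorem i15_0_8 : Ineq 10 can15 0 8 :=
  ineq_of_check (K := 0) (cs := q15_0_8) (by decide +kernel)

def q15_1_5 : List Sq := []

theorem i15_1_5 : Ineq 10 can15 1 5 :=
  ineq_of_check (K := 0) (cs := q15_1_5) (by decide +kernel)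

def q16_0_1 : List Sq := [⟨1, 4, 3, (n (n (n (n z (n (n z (n z (cp 1))) z)) (n (n (n z (n z (cp 1))) z) (n (n z (cp 2)) (cp 1)))) (n (n (n (n z (n z (cp 1))) z) (n z (cm 0))) z)) (n (n (n (n (n z (n z (cp 1))) z) (n (n z (cp 1)) z)) (n (n z (cm 0)) z)) (n (n (n (n z (cm 0)) (cm 1)) z) z)))⟩,
  ⟨3, 4, 3, (n (n (n (n z (n (n z (n z (cm 0))) z)) (n (n (n z (n z (cm 0))) z) (n z (cp 1)))) (n (n (n (n z (n z (cm 0))) z) (n z (cp 1))) z)) (n (n (n (n (n z (n z (cm 0))) z) (n (n z (cm 0)) z)) (n (n z (cp 1)) z)) (n (n (n (n z (cm 0)) z) z) z)))⟩]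

theorem i16_0_1 : Ineq 10 can16 0 1 :=
  ineq_of_check (K := 3) (cs := q16_0_1) (by decide +kernel)

def q16_0_2 : List Sq := [⟨1, 4, 5, (n (n (n z (n (n (n z (n z (cp 1))) (n (n z (cp 1)) z)) (n (n z (cm 0)) (cm 0)))) (n (n (n (n z (n z (cm 0))) (n (n z (cm 0)) z)) (n (n z (cm 1)) (cm 1))) z)) (n (n (n z (n (n z (cm 1)) z)) (n (n (n (n z (cp 1)) z) (cp 1)) (cm 0))) (n (n (n (n (n z (cm 0)) (cm 1)) (cm 0)) (cm 1)) z)))⟩,
  ⟨3, 4, 5, (n (n (n z (n (n (n z (n z (cp 1))) (n (n z (cp 1)) z)) (n (n z (cp 1)) (cp 1)))) (n (n (n (n z (n z (cp 1))) (n (n z (cp 1)) z)) z) z)) (n (n z (n (n (n (n z (cp 1)) z) (cp 1)) (cp 1))) (n (n (n (n (n z (cp 1)) z) (cp 1)) z) z)))⟩]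

theorem i16_0_2 : Ineq 10 can16 0 2 :=
  ineq_of_check (K := 3) (cs := q16_0_2) (by decide +kernel)

def q16_0_3 : List Sq := []

theorem i16_0_3 : Ineq 10 can16 0 3 :=
  ineq_of_check (K := 0) (cs := q16_0_3) (by decide +kernel)

def q16_0_6 : List Sq := []

theorem i16_0_6 : Ineq 10 can16 0 6 :=
  ineq_of_check (K := 0) (cs := q16_0_6) (by decide +kernel)

def q16_0_7 : List Sq := [⟨1, 4, 129, (n (n (n (n (n z (n z (n z (cp 1)))) (n (n z (n z (cp 1))) (n z (cp 1)))) (n (n (n z (n z (cp 1))) (n z (cp 1))) z)) (n (n (n (n z (n z (cp 1))) (n z (cp 1))) (n (n z (cp 1)) z)) (n (n (n z (cp 1)) z) z))) (n (n (n (n z (n (n z (cp 1)) (cp 1))) (n (n (n z (cp 1)) (cp 1)) (cm 0))) (n (n (n (n z (cp 1)) (cp 1)) z) z)) (n (n (n (n (n z (cp 1)) (cp 1)) (cp 1)) z) (cp 2))))⟩,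
  ⟨3, 4, 129, (n (n (n (n (n z (n z (n z (cp 1)))) (n (n z (n z (cp 1))) (n z (cp 1)))) (n (n (n z (n z (cp 1))) (n z (cp 1))) z)) (n (n (n (n z (n z (cp 1))) (n z (cp 1))) (n (n z (cp 1)) z)) (n (n (n z (cp 1)) z) z))) (n (n (n (n z (n (n z (cp 1)) (cp 1))) (n (n (n z (cp 1)) (cp 1)) (cp 1))) (n (n (n (n z (cp 1)) (cp 1)) z) z)) (n (n (n (n (n z (cp 1)) (cp 1)) (cp 1)) z) z)))⟩]

theorem i16_0_7 : Ineq 10 can16 0 7 :=
  ineq_of_check (K := 3) (cs := q16_0_7) (by decide +kernel)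

def q16_0_8 : List Sq := []

theorem i16_0_8 : Ineq 10 can16 0 8 :=
  ineq_of_check (K := 0) (cs := q16_0_8) (by decide +kernel)

def q16_1_2 : List Sq := [⟨1, 4, 6, (n (n (n (n z (n z (n z (cp 1)))) (n (n (n z (n z (cm 0))) (n z (cm 0))) (n (n z (cm 0)) (cp 1)))) (n (n (n (n z (n z (cm 1))) (n z (cm 0))) (n z (cp 1))) (n (n (n z (cm 0)) (cm 0)) z))) (n (n (n z (n (n z (cp 1)) (cp 1))) (n (n (n z (cm 0)) (cm 0)) z)) (n (n (n (n z (cm 0)) (cm 0)) z) z)))⟩,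
  ⟨3, 4, 6, (n (n (n (n z (n z (n z (cp 1)))) (n (n (n z (n z (cp 1))) (n z (cp 1))) (n (n z (cp 1)) (cp 1)))) (n (n (n z (n z (cp 1))) (n z (cp 1))) (n (n (n z (cp 1)) (cp 1)) z))) (n (n (n z (n (n z (cp 1)) (cp 1))) (n (n (n z (cp 1)) (cp 1)) z)) (n (n (n (n z (cp 1)) (cp 1)) z) z)))⟩]

theorem i16_1_2 : Ineq 10 can16 1 2 :=
  ineq_of_check (K := 3) (cs := q16_1_2) (by decide +kernel)

def q16_1_3 : List Sq := [⟨1, 4, 10, (n (n (n (n z (n (n z (n z (cm 1))) (n z (cm 1)))) (n (n (n z (n z (cm 0))) z) (n (n z (cm 1)) (cm 0)))) (n (n (n (n z (n z (cm 1))) (n z (cm 0))) (n (n z (cm 1)) z)) (n (n z (cp 1)) z))) (n (n (n z (n (n z (cm 1)) (cm 1))) z) (n (n (n (n z (cm 0)) (cm 0)) z) z)))⟩,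
  ⟨3, 4, 10, (n (n (n z (n (n (n z (n z (cm 0))) z) (n z (cp 1)))) (n (n (n z (n z (cp 1))) z) (n (n z (cp 1)) z))) (n z (n (n (n (n z (cp 1)) (cp 1)) z) z)))⟩]

theorem i16_1_3 : Ineq 10 can16 1 3 :=
  ineq_of_check (K := 3) (cs := q16_1_3) (by decide +kernel)

def q16_1_6 : List Sq := [⟨1, 4, 66, (n (n (n (n (n z (n z (n z (cp 2)))) (n (n z (n z (cp 2))) (n (n z (cp 2)) (cp 1)))) (n (n (n z (n z (cp 2))) (n (n z (cp 2)) z)) (n (n (n z (cp 2)) z) (cp 2)))) (n (n (n (n z (n z (cp 2))) (n z (cp 2))) (n (n (n z (cp 2)) z) (cp 2))) (n (n (n (n z (cp 2)) (cp 1)) (cp 2)) (cp 2)))) (n (n (n (n z (n (n z (cp 2)) z)) (n (n (n z (cp 2)) z) (cp 2))) (n (n (n (n z (cp 2)) z) (cp 2)) z)) (n (n (n (n (n z (cp 2)) z) (cp 2)) (cp 2)) (cp 2))))⟩,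
  ⟨3, 4, 66, (n (n (n (n z (n z (n z (cm 0)))) z) (n z (n (n (n z (cp 1)) z) z))) z)⟩]

theorem i16_1_6 : Ineq 10 can16 1 6 :=
  ineq_of_check (K := 3) (cs := q16_1_6) (by decide +kernel)

def q16_1_7 : List Sq := []

theorem i16_1_7 : Ineq 10 can16 1 7 :=
  ineq_of_check (K := 0) (cs := q16_1_7) (by decide +kernel)

def q16_2_3 : List Sq := [⟨1, 4, 12, (n (n (n (n (n z (n z (n z (cm 1)))) (n z (n z (cm 0)))) (n (n (n z (n z (cm 0))) (n (n z (cm 0)) z)) (n (n z (cp 1)) (cp 1)))) (n (n (n (n z (n z (cm 1))) (n z (cm 1))) z) (n (n (n (n z (cm 0)) z) (cm 0)) (cp 1)))) (n (n (n (n (n z (n z (cm 1))) (n (n z (cm 1)) z)) (n (n z (cm 0)) (cm 0))) z) (n (n (n (n (n z (cm 1)) (cm 1)) (cm 1)) (cm 0)) z)))⟩,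
  ⟨3, 4, 12, (n (n (n (n z (n z (n z (cp 1)))) (n (n (n z (n z (cp 1))) (n (n z (cp 1)) z)) (n (n z (cp 1)) (cp 1)))) (n z (n (n (n (n z (cp 1)) z) (cp 1)) (cp 1)))) (n (n (n z (n (n z (cp 1)) (cp 1))) z) (n (n z (cp 1)) z)))⟩]

theorem i16_2_3 : Ineq 10 can16 2 3 :=
  ineq_of_check (K := 3) (cs := q16_2_3) (by decide +kernel)

def q16_2_4 : List Sq := []

theorem i16_2_4 : Ineq 10 can16 2 4 :=
  ineq_of_check (K := 0) (cs := q16_2_4) (by decide +kernel)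

end Pool.Agent.Lib.MP_c69b6d_co
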