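import Pool.Agent.Lib.MP_c69b6d_co.Cert7

namespace Pool.Agent.Lib.MP_c69b6d_co

open P2

set_option maxRecDepth 100000

def q16_2_5 : List Sq := []

theorem i16_2_5 : Ineq 10 can16 2 5 :=
  ineq_of_check (K := 0) (cs := q16_2_5) (by decide +kernel)

def q16_2_6 : List Sq := [⟨1, 4, 68, (n (n (n (n z (n (n z (n z (cm 0))) (n z (cm 1)))) (n (n (n z (n z (cm 1))) (n z (cm 0))) z)) (n (n (n z (n z (cm 0))) (n z (cm 0))) (n (n (n z (cm 0)) (cm 0)) (cp 1)))) (n z (n (n (n z (cm 0)) (cp 1)) (cp 1))))⟩,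
  ⟨3, 4, 68, (n (n (n (n z (n (n z (n z (cm 0))) z)) (n (n z (n z (cp 1))) z)) (n (n (n z (n z (cp 1))) (n z (cp 1))) (n (n (n z (cp 1)) (cp 1)) (cp 1)))) (n z (n (n (n z (cp 1)) (cp 1)) (cp 1))))⟩]

theorem i16_2_6 : Ineq 10 can16 2 6 :=
  ineq_of_check (K := 3) (cs := q16_2_6) (by decide +kernel)

def q17_0_1 : List Sq := [⟨1, 4, 3, (n (n z (n (n z (n (n z (cm 0)) z)) (n (n z (cp 2)) z))) (n (n (n z (n (n z (cm 1)) (cm 1))) (n (n (n z (cm 0)) z) z)) z))⟩,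
  ⟨3, 4, 3, (n (n z (n (n z (n (n z (cp 1)) z)) z)) (n (n z (n (n (n z (cm 0)) z) z)) z))⟩,
  ⟨1, 2, 139, (n z (n (n z (cp 2)) (cm 0)))⟩,
  ⟨1, 2, 147, (n (n z (n z (cm 0))) (n (n z (cp 2)) z))⟩]

theorem i17_0_1 : Ineq 10 can17 0 1 :=
  ineq_of_check (K := 3) (cs := q17_0_1) (by decide +kernel)

def q17_0_2 : List Sq := [⟨1, 4, 5, (n (n z (n (n z (n (n z (cp 1)) z)) (n (n z (cm 0)) z))) (n (n z (n (n z (cp 2)) z)) (n (n z (cp 1)) (cm 0))))⟩,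
  ⟨1, 12, 5, (n (n z (n (n z (n (n z (cp 1)) z)) (n (n z (cm 0)) z))) (n (n (n z (n (n z (cm 1)) z)) z) (n (n z (cp 3)) (cm 0))))⟩,
  ⟨1, 6, 5, (n (n z (n (n z (n (n z (cm 0)) z)) (n (n z (cp 1)) z))) (n (n (n z (n (n z (cp 2)) z)) z) (n z (cp 1))))⟩,
  ⟨1, 2, 5, (n (n z (n (n z (n (n z (cp 1)) z)) (n (n z (cm 0)) z))) z)⟩,
  ⟨1, 12, 15, (n (n z (n (n z (cm 0)) z)) (n (n z (cp 6)) z))⟩,
  ⟨1, 8, 23, (n (n z (n (n z (cp 4)) (cm 0))) z)⟩,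
  ⟨1, 8, 39, (n (n z (n (n z (cm 0)) (cp 4))) z)⟩,
  ⟨1, 8, 71, (n (n (n z (n z (cm 0))) (n (n z (cp 4)) (cm 0))) z)⟩,
  ⟨5, 24, 71, (n (n (n z (n z (cm 0))) (n z (cp 3))) z)⟩,
  ⟨1, 8, 135, (n (n (n z (n z (cp 4))) (n (n z (cm 0)) (cm 0))) z)⟩,
  ⟨5, 24, 135, (n (n z (n (n z (cp 3)) (cm 0))) z)⟩,
  ⟨1, 8, 29, (n (n z (n (n z (cm 0)) z)) (n z (cp 4)))⟩,
  ⟨1, 8, 45, (n (n z (n z (cp 4))) (n z (cm 0)))⟩,
  ⟨1, 8, 77, (n (n (n z (n z (cm 0))) z) (n (n z (cp 4)) (cm 0)))⟩,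
  ⟨1, 120, 77, (n (n (n z (n z (cm 0))) z) (n z (cp 15)))⟩,
  ⟨1, 12, 141, (n z (n (n z (cp 6)) (cm 0)))⟩,
  ⟨1, 8, 141, (n (n z (n (n z (cp 4)) z)) (n z (cm 0)))⟩,
  ⟨1, 8, 53, (n (n (n z (n z (cp 4))) z) (n (n (n z (cm 0)) (cm 0)) z))⟩,
  ⟨1, 120, 53, (n z (n (n (n z (cm 4)) (cp 15)) (cm 3)))⟩,
  ⟨1, 15, 53, (n z (n (n (n z (cp 5)) z) (cm 1)))⟩,
  ⟨1, 8, 85, (n (n (n z (n z (cp 4))) z) (n (n z (cm 0)) z))⟩,
  ⟨1, 8, 149, (n (n (n z (n z (cm 0))) z) (n (n z (cp 4)) z))⟩,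
  ⟨1, 8, 101, (n (n (n z (n z (cp 4))) z) (n (n z (cm 0)) z))⟩,
  ⟨1, 8, 165, (n (n (n z (n z (cp 4))) z) (n (n z (cm 0)) z))⟩,
  ⟨1, 8, 197, (n (n (n z (n z (cp 4))) z) (n (n (n z (cm 0)) (cm 0)) z))⟩,
  ⟨5, 24, 197, (n z (n (n (n z (cp 3)) (cm 0)) z))⟩,
  ⟨1, 16, 207, (n (n z (cm 2)) (cp 8))⟩,
  ⟨1, 16, 125, (n (n z (cm 0)) (cp 8))⟩,
  ⟨1, 16, 189, (n (n z (cm 0)) (cp 8))⟩]

theorem i17_0_2 : Ineq 10 can17 0 2 :=
  ineq_of_check (K := 239) (cs := q17_0_2) (by decide +kernel)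

def q17_0_6 : List Sq := [⟨1, 1, 65, (n z (n (n z (n (n z (cm 0)) z)) (n (n z (cp 1)) z)))⟩,
  ⟨1, 1, 65, (n (n (n z (n (n z (n z (cm 0))) z)) (n (n z (n (n z (cp 1)) z)) z)) z)⟩,
  ⟨1, 2, 71, (n z (n (n z (cp 2)) (cm 0)))⟩,
  ⟨1, 2, 99, (n (n z (n z (cm 0))) (n (n z (cp 2)) z))⟩,
  ⟨1, 2, 195, (n (n z (n (n z (cm 0)) z)) (n (n z (cp 2)) z))⟩,
  ⟨1, 2, 201, (n (n z (n (n z (cm 0)) (cp 2))) z)⟩,
  ⟨1, 2, 209, (n (n (n z (n z (cp 2))) (n (n z (cm 0)) z)) z)⟩]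

theorem i17_0_6 : Ineq 10 can17 0 6 :=
  ineq_of_check (K := 1) (cs := q17_0_6) (by decide +kernel)

def q17_0_8 : List Sq := []

theorem i17_0_8 : Ineq 10 can17 0 8 :=
  ineq_of_check (K := 0) (cs := q17_0_8) (by decide +kernel)

def q17_1_2 : List Sq := [⟨1, 144, 6, (n (n (n (n z (n (n z (n z (cm 0))) (n (n z (cm 0)) z))) (n (n (n z (n z (cp 1))) z) (n (n (n z (cp 1)) z) z))) (n (n (n (n z (n z (cp 1))) (n (n z (cp 1)) z)) (n (n (n z (cp 1)) (cp 1)) (cp 1))) (n (n (n (n z (cm 3)) (cm 0)) (cm 0)) z))) (n (n (n z (n (n z (cp 1)) (cp 2))) (n (n (n z (cm 0)) z) (cm 1))) (n (n (n (n z (cm 0)) (cm 2)) (cm 3)) (cp 12))))⟩,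
  ⟨1, 1152, 6, (n (n (n (n z (n (n z (n z (cp 5))) (n (n z (cp 2)) z))) (n (n (n z (n z (cm 1))) z) (n (n (n z (cp 1)) z) z))) (n (n (n (n z (n z (cp 4))) (n (n z (cp 1)) z)) (n (n (n z (cm 7)) (cm 4)) (cm 1))) (n (n (n (n z (cm 0)) (cp 2)) (cp 2)) z))) (n (n (n z (n (n z (cm 1)) (cm 6))) (n (n (n z (cp 8)) z) (cm 4))) (n (n (n (n z (cm 9)) (cm 2)) (cp 32)) z)))⟩,
  ⟨1, 137088, 6, (n (n (n (n z (n (n z (n z (cm 34))) (n (n z (cp 26)) z))) (n (n (n z (n z (cp 38))) z) (n (n (n z (cp 9)) z) z))) (n (n (n (n z (n z (cp 44))) (n (n z (cm 86)) z)) (n (n z (cp 3)) (cm 57))) (n (n (n (n z (cm 0)) (cp 26)) (cm 37)) z))) (n (n (n z (n (n z (cp 70)) (cm 54))) (n (n (n z (cm 95)) z) (cp 43))) (n (n (n (n z (cm 145)) (cp 357)) z) z)))⟩,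
  ⟨1, 220454640, 6, (n (n (n (n z (n (n z (n z (cp 1414))) (n (n z (cm 774)) z))) (n (n (n z (n z (cp 1943))) z) (n (n (n z (cp 1860)) z) z))) (n (n (n (n z (n z (cm 2766))) (n (n z (cp 108)) z)) (n (n (n z (cp 357)) (cm 569)) (cp 191))) (n (n (n (n z (cp 785)) (cm 2202)) (cm 1942)) z))) (n (n (n z (n (n z (cm 4612)) (cp 1049))) (n (n (n z (cm 2108)) z) (cp 2659))) (n (n (n (n z (cp 12865)) z) z) z)))⟩,
  ⟨1, 21568121040, 6, (n (n (n (n z (n (n z (n z (cm 12596))) (n (n z (cm 619)) z))) (n (n (n z (n z (cp 8211))) z) (n (n (n z (cp 50375)) z) z))) (n (n (n (n z (n z (cp 20711))) (n (n z (cp 6826)) z)) (n (n (n z (cm 3880)) (cm 38884)) (cp 3257))) (n (n (n (n z (cp 2205)) (cm 10825)) (cm 98265)) z))) (n (n (n z (n (n z (cm 19725)) (cm 12556))) (n (n (n z (cm 13937)) z) (cp 139708))) z))⟩,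
  ⟨1, 591000046416, 6, (n (n (n (n z (n (n z (n z (cp 18897))) (n (n z (cp 61102)) z))) (n (n (n z (n z (cm 149762))) z) (n (n (n z (cp 117341)) z) z))) (n (n (n (n z (n z (cp 67249))) (n (n z (cp 23348)) z)) (n (n (n z (cm 16702)) (cp 11053)) (cp 56567))) (n (n (n (n z (cp 59293)) (cm 95585)) (cm 178435)) z))) (n (n (n z (n (n z (cm 268539)) (cm 187846))) (n (n (n z (cp 705042)) z) z)) z))⟩,
  ⟨1, 59813267431320, 6, (n (n (n (n z (n (n z (n z (cp 187593))) (n (n z (cm 1614088)) z))) (n (n (n z (n z (cp 173193))) z) (n (n (n z (cp 453251)) z) z))) (n (n (n (n z (n z (cm 73306))) (n (n z (cp 435695)) z)) (n (n (n z (cp 97855)) (cp 201805)) (cm 1666812))) (n (n (n (n z (cm 151111)) (cp 86898)) (cm 794308)) z))) (n (n (n z (n (n z (cm 2026398)) (cp 7069705))) z) z))⟩,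
  ⟨1, 18672486012305880, 6, (n (n (n (n z (n (n z (n z (cm 31134067))) (n (n z (cm 7900480)) z))) (n (n (n z (n z (cp 6701712))) z) (n (n (n z (cp 10270114)) z) z))) (n (n (n (n z (n z (cp 8480592))) (n (n z (cm 1738304)) z)) (n (n (n z (cp 24683960)) (cm 51375049)) (cp 13360328))) (n (n (n (n z (cm 2802332)) (cm 2717097)) (cm 21271060)) z))) (n (n (n z (n (n z (cp 110049889)) z)) z) z))⟩,
  ⟨1, 742176205784647752, 6, (n (n (n (n z (n (n z (n z (cm 18744796))) (n (n z (cm 32819042)) z))) (n (n (n z (n z (cm 56958668))) z) (n (n (n z (cm 475298845)) z) z))) (n (n (n (n z (n z (cp 36749779))) (n (n z (cm 78356722)) z)) (n (n (n z (cp 150556978)) (cp 41945091)) (cm 82283724))) (n (n (n (n z (cm 105627501)) (cm 135692613)) (cp 561999814)) z))) z)⟩,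
  ⟨1, 10419966449045863056, 6, (n (n (n (n z (n (n z (n z (cp 259575555))) (n (n z (cm 61795766)) z))) (n (n (n z (n z (cm 305159747))) z) (n (n (n z (cm 347466085)) z) z))) (n (n (n (n z (n z (cm 584469820))) (n (n z (cp 330832863)) z)) (n (n (n z (cp 452052743)) (cm 871562303)) (cm 201990561))) (n (n (n (n z (cm 371406916)) (cp 3090145284)) z) z))) z)⟩,
  ⟨1, 1168756742519991085680, 6, (n (n (n (n z (n (n z (n z (cp 2090792901))) (n (n z (cp 4648957719)) z))) (n (n (n z (n z (cm 2495139071))) z) (n (n (n z (cm 8856771697)) z) z))) (n (n (n (n z (n z (cm 2421018454))) (n (n z (cm 8303844014)) z)) (n (n (n z (cm 10019732166)) (cp 2944006056)) (cp 3009082514))) (n (n (n (n z (cp 31518387085)) z) z) z))) z)⟩,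
  ⟨1, 504785814501852107122680, 6, (n (n (n (n z (n (n z (n z (cp 81766656523))) (n (n z (cm 156179088722)) z))) (n (n (n z (n z (cp 71581898439))) z) (n (n (n z (cm 40240003563)) z) z))) (n (n (n (n z (n z (cp 64788452295))) (n (n z (cm 135820779984)) z)) (n (n (n z (cm 49905491105)) (cm 241927028186)) (cp 667316579817))) z)) z)⟩,
  ⟨1, 3981690932588353513505520, 6, (n (n (n (n z (n (n z (n z (cm 719630183261))) (n (n z (cm 32143803622)) z))) (n (n (n z (n z (cp 112943506904))) z) (n (n (n z (cm 351850349517)) z) z))) (n (n (n (n z (n z (cp 128518242992))) (n (n z (cm 18367447248)) z)) (n (n (n z (cm 309333240584)) (cp 1491679906140)) z)) z)) z)⟩,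
  ⟨1, 1050881681976137340700560, 6, (n (n (n (n z (n (n z (n z (cm 50354802709))) (n (n z (cm 217135515294)) z))) (n (n (n z (n z (cp 278498365476))) z) (n (n (n z (cm 100278942673)) z) z))) (n (n (n (n z (n z (cm 258494742331))) (n (n z (cm 96902421168)) z)) (n (n (n z (cp 880619291755)) z) z)) z)) z)⟩,
  ⟨1, 811228990540523107980425040, 6, (n (n (n (n z (n (n z (n z (cp 5199603220688))) (n (n z (cm 5276523211477)) z))) (n (n (n z (n z (cm 6275617919628))) z) (n (n (n z (cp 537631183944)) z) z))) (n (n (n (n z (n z (cm 10237738724211))) (n (n z (cp 25588967715228)) z)) z) z)) z)⟩,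
  ⟨1, 867133246662894172619308403880, 6, (n (n (n (n z (n (n z (n z (cm 235675037958163))) (n (n z (cp 60705126532529)) z))) (n (n (n z (n z (cm 124142711081788))) z) (n (n (n z (cp 109636411586817)) z) z))) (n (n (n (n z (n z (cp 753044355601438))) z) z) z)) z)⟩,
  ⟨1, 31413250728003739121309533163544, 6, (n (n (n (n z (n (n z (n z (cm 1403858092458317))) (n (n z (cm 862426136519224)) z))) (n (n (n z (n z (cm 1704724812217228))) z) (n (n (n z (cp 3476250601346799)) z) z))) z) z)⟩,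
  ⟨1, 18189742020523613224518021133097520, 6, (n (n (n (n z (n (n z (n z (cm 56259324368752475))) (n (n z (cm 34950750423516921)) z))) (n (n (n z (n z (cp 109011979347545135))) z) z)) z) z)⟩,
  ⟨1, 73319542385551169690467384160425395, 6, (n (n (n (n z (n (n z (n z (cm 90246734042198807))) (n (n z (cp 224194144608023359)) z))) z) z) z)⟩,
  ⟨1, 336, 15, (n (n z (n (n z (cm 6)) (cp 28))) (n (n (n z (cm 3)) z) z))⟩,
  ⟨1, 3738, 15, (n (n z (n (n z (cm 27)) z)) (n (n (n z (cp 89)) z) z))⟩,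
  ⟨1, 78, 23, (n z (n (n (n z (cm 5)) (cp 13)) z))⟩,
  ⟨1, 336, 39, (n z (n (n (n z (cm 10)) (cp 28)) z))⟩,
  ⟨1, 78, 71, (n z (n (n z (cp 13)) (cm 2)))⟩,
  ⟨1, 312, 135, (n z (n (n z (cm 6)) (cp 26)))⟩,
  ⟨1, 360, 263, (n (n (n z (n (n z (cm 4)) (cp 30))) (n (n (n z (cm 7)) z) (cm 1))) (n (n (n (n z (cp 5)) (cm 6)) (cm 5)) (cp 4)))⟩,
  ⟨1, 75240, 263, (n (n (n z (n (n z (cm 154)) z)) (n (n (n z (cp 418)) z) (cm 97))) (n (n (n (n z (cm 24)) (cm 132)) (cp 111)) (cm 43)))⟩,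
  ⟨1, 134976, 263, (n (n (n z (n (n z (cp 87)) z)) (n z (cm 140))) (n (n (n (n z (cm 72)) (cm 170)) (cm 140)) (cp 592)))⟩,
  ⟨1, 14550334656, 263, (n (n (n z (n (n z (cm 60040)) z)) (n z (cp 13203))) (n (n (n (n z (cp 186199)) (cm 61690)) (cm 48660)) z))⟩,
  ⟨1, 9023486562480, 263, (n (n (n z (n (n z (cp 4038460)) z)) (n z (cm 560758))) (n (n (n z (cm 220957)) (cm 851849)) z))⟩,
  ⟨1, 965933611255920, 263, (n (n z (n z (cm 2386868))) (n (n (n z (cp 39863942)) (cm 11943989)) z))⟩,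
  ⟨1, 388586378826181560, 263, (n (n z (n z (cm 115292400))) (n (n z (cp 812318015)) z))⟩,
  ⟨1, 312, 30, (n (n (n (n z (n z (cp 2))) z) (n (n (n z (cm 8)) z) z)) (n (n (n z (cm 7)) z) (cp 26)))⟩,
  ⟨5, 37128, 30, (n (n (n (n z (n z (cm 37))) z) (n (n (n z (cp 119)) z) z)) (n (n (n z (cm 3)) z) z))⟩,
  ⟨1, 3995544, 30, (n (n (n (n z (n z (cm 1026))) z) z) (n (n (n z (cp 2798)) z) z))⟩,
  ⟨1, 336, 46, (n (n (n (n z (n z (cp 2))) (n (n z (cm 9)) z)) (n (n (n z (cp 2)) z) z)) (n (n (n z (cm 6)) (cp 28)) (cm 5)))⟩,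
  ⟨1, 57456, 46, (n (n (n (n z (n z (cm 87))) (n (n z (cp 342)) z)) (n (n (n z (cm 73)) z) z)) (n (n (n z (cm 6)) z) (cm 1)))⟩,
  ⟨1, 25600752, 46, (n (n (n (n z (n z (cm 2266))) z) (n (n (n z (cp 476)) z) z)) (n (n (n z (cp 6238)) z) (cm 1197)))⟩,
  ⟨19, 172917360, 46, (n (n (n (n z (n z (cp 3465))) z) (n (n (n z (cm 655)) z) z)) (n z (cp 26)))⟩,
  ⟨1, 224753760, 46, (n (n z (n (n (n z (cm 4980)) z) z)) (n z (cp 16216)))⟩,
  ⟨5, 18, 78, (n (n (n z (n (n z (cm 0)) z)) z) (n (n z (cp 3)) z))⟩,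
  ⟨1, 312, 142, (n (n (n z (n (n z (cm 8)) z)) (n (n (n z (cp 3)) z) z)) (n (n z (cp 26)) (cm 7)))⟩,
  ⟨1, 185640, 142, (n (n (n z (n (n z (cp 595)) z)) (n (n (n z (cm 180)) z) z)) (n z (cp 6)))⟩,
  ⟨1, 694365, 142, (n (n z (n (n (n z (cp 1167)) z) z)) (n z (cm 396)))⟩,
  ⟨1, 336, 270, (n (n (n z (n (n z (cm 6)) (cp 28))) (n (n (n z (cm 3)) z) z)) z)⟩,
  ⟨1, 3738, 270, (n (n (n z (n (n z (cm 27)) z)) (n (n (n z (cp 89)) z) z)) z)⟩,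
  ⟨1, 360, 54, (n (n (n (n z (n z (cm 4))) z) (n (n (n z (cm 2)) (cp 30)) (cm 8))) (n (n (n z (cm 4)) z) (cm 2)))⟩,
  ⟨1, 27960, 54, (n (n (n (n z (n z (cm 14))) z) (n (n (n z (cm 48)) z) (cp 233))) (n (n (n z (cm 14)) z) (cm 48)))⟩,
  ⟨1, 111812040, 54, (n (n (n (n z (n z (cm 4144))) z) (n (n (n z (cp 828)) z) z)) (n (n (n z (cp 13330)) z) (cm 2666)))⟩,
  ⟨1, 58769304, 54, (n (n (n (n z (n z (cp 9185))) z) (n (n (n z (cm 1837)) z) z)) (n z (cm 0)))⟩,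
  ⟨1, 1132978935, 54, (n (n z (n (n (n z (cm 13992)) z) z)) (n z (cp 41117)))⟩,
  ⟨1, 312, 86, (n (n (n z (n (n z (cm 8)) z)) (n (n (n z (cp 3)) z) z)) (n (n z (cp 26)) (cm 7)))⟩,
  ⟨1, 185640, 86, (n (n (n z (n (n z (cp 595)) z)) (n (n (n z (cm 180)) z) z)) (n z (cp 6)))⟩,
  ⟨1, 66002160, 86, (n (n z (n (n (n z (cp 9244)) z) z)) (n z (cm 2978)))⟩,
  ⟨1, 336, 150, (n (n (n z (n (n z (cm 8)) z)) (n (n (n z (cp 2)) z) z)) (n (n z (cp 28)) (cm 6)))⟩,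
  ⟨1, 236208, 150, (n (n (n z (n (n z (cp 703)) z)) (n (n (n z (cm 177)) z) z)) (n z (cm 6)))⟩,
  ⟨1, 143800056, 150, (n (n z (n (n (n z (cp 17046)) z) z)) (n z (cm 5316)))⟩,
  ⟨1, 78, 278, (n (n z (n (n (n z (cm 5)) (cp 13)) z)) z)⟩,
  ⟨2, 9, 102, (n (n z (n (n (n z (cm 0)) z) z)) (n z (cp 3)))⟩,
  ⟨1, 192, 166, (n (n (n z (n (n z (cm 4)) z)) (n (n (n z (cp 1)) z) z)) (n (n z (cp 16)) (cm 2)))⟩,
  ⟨1, 55104, 166, (n (n (n z (n (n z (cm 42)) z)) (n (n (n z (cp 287)) z) z)) (n z (cm 92)))⟩,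
  ⟨1, 240219, 166, (n (n (n z (n (n z (cm 28)) z)) z) (n z (cp 558)))⟩,
  ⟨1, 336, 294, (n (n z (n (n (n z (cm 10)) (cp 28)) z)) z)⟩,
  ⟨1, 336, 198, (n (n (n (n z (n z (cm 7))) z) (n (n (n z (cp 3)) (cm 4)) z)) (n (n (n z (cp 28)) z) (cm 6)))⟩,
  ⟨1, 15120, 198, (n (n (n (n z (n z (cp 180))) z) (n (n (n z (cm 42)) (cm 44)) z)) (n z (cp 7)))⟩,
  ⟨1, 840, 198, (n (n z (n (n (n z (cm 5)) (cp 35)) (cm 5))) (n z (cm 5)))⟩,
  ⟨1, 84286440, 198, (n (n z (n (n (n z (cm 2850)) z) (cm 1583))) (n z (cp 11149)))⟩,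
  ⟨100, 15419067, 198, (n (n z (n (n (n z (cp 461)) z) (cm 87))) z)⟩,
  ⟨1, 78, 326, (n (n z (n (n z (cp 13)) (cm 2))) z)⟩,
  ⟨1, 312, 390, (n (n z (n (n z (cm 6)) (cp 26))) z)⟩,
  ⟨1, 174, 63, (n (n z (cp 29)) (cm 5))⟩,
  ⟨5, 42, 287, (n (n (n z (cm 1)) z) (cp 7))⟩,
  ⟨1, 33, 303, (n (n (n z (cm 0)) (cm 3)) (cp 11))⟩,
  ⟨1, 26202, 303, (n (n (n z (cm 117)) (cp 397)) z)⟩,
  ⟨7, 96, 207, (n (n z (cp 8)) (cm 0))⟩,
  ⟨5, 42, 399, (n (n z (cm 1)) (cp 7))⟩,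
  ⟨1, 144, 311, (n (n (n z (cm 4)) z) (cp 24))⟩,
  ⟨5, 42, 343, (n (n z (cp 7)) (cm 1))⟩,
  ⟨1, 198, 407, (n (n z (cm 9)) (cp 33))⟩,
  ⟨1, 9, 423, (n (n z (cm 0)) (cp 6))⟩,
  ⟨1, 222, 455, (n (n (n z (cp 37)) z) (cm 9))⟩,
  ⟨1, 168, 126, (n (n (n z (cm 8)) z) (cp 28))⟩,
  ⟨1, 258, 190, (n (n (n z (cm 13)) z) (cp 43))⟩,
  ⟨1, 174, 318, (n (n (n z (cp 29)) (cm 5)) z)⟩,
  ⟨1, 6, 222, (n (n (n z (cm 0)) z) (cp 3))⟩,
  ⟨1, 672, 238, (n (n (n z (cm 18)) z) (cp 56))⟩,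
  ⟨7, 96, 462, (n (n (n z (cp 8)) (cm 0)) z)⟩,
  ⟨1, 216, 246, (n (n (n z (cm 4)) (cm 4)) (cp 18))⟩,
  ⟨1, 165672, 246, (n (n (n z (cm 114)) (cp 767)) z)⟩]

theorem i17_1_2 : Ineq 10 can17 1 2 :=
  ineq_of_check (K := 19668972420663574471039710559852192541389961310072680793371442835387896480351183694050260221699040409460555521495596249141458485160897409135360364610486463191611835490407852131180542837402054327832912138756644538239) (cs := q17_1_2) (by decide +kernel)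

def q17_1_3 : List Sq := [⟨1, 36, 10, (n (n z (n (n (n (n z (n z (cp 1))) z) (n (n z (cm 0)) z)) (n (n (n (n z (cm 0)) z) z) z))) (n z (n (n (n (n z (cm 1)) (cm 0)) z) (cp 6))))⟩,
  ⟨1, 36, 10, (n (n (n (n z (n (n z (n z (cp 1))) z)) (n z (n (n (n z (cp 3)) z) z))) (n (n z (n (n z (cm 1)) (cm 2))) (n (n (n z (cm 1)) (cp 1)) z))) (n (n (n z (n (n z (cp 6)) z)) (n (n z (cm 3)) (cp 3))) (n (n (n z (cm 3)) z) z)))⟩,
  ⟨1, 1116, 10, (n (n (n (n z (n (n z (n z (cm 9))) z)) (n (n z (n (n z (cp 12)) z)) (n (n (n z (cm 11)) z) z))) (n (n (n (n z (n z (cm 4))) (n (n z (cp 12)) z)) (n (n z (cp 31)) (cp 12))) (n (n (n (n z (cm 6)) (cp 8)) (cm 3)) z))) (n (n z (n (n z (cp 4)) (cm 11))) (n (n (n (n z (cm 7)) (cp 3)) z) z)))⟩,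
  ⟨1, 30132, 10, (n (n (n (n z (n (n z (n z (cm 103))) z)) (n (n z (n (n z (cp 38)) z)) (n (n (n z (cm 37)) z) z))) (n (n (n (n z (n z (cm 20))) (n (n z (cp 162)) z)) (n z (cp 38))) (n (n (n (n z (cm 16)) (cp 46)) (cm 22)) z))) (n (n z (n (n z (cm 7)) (cm 37))) (n (n (n (n z (cp 16)) (cm 36)) z) z)))⟩,
  ⟨1, 98172, 10, (n (n (n (n z (n (n z (n z (cm 37))) z)) (n (n z (n (n z (cm 27)) z)) (n (n (n z (cm 25)) z) z))) (n (n (n (n z (n z (cp 303))) z) (n z (cp 26))) (n (n (n (n z (cm 112)) (cp 22)) (cm 10)) z))) (n (n z (n (n z (cp 4)) (cm 25))) (n (n (n (n z (cm 97)) (cp 5)) z) z)))⟩,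
  ⟨1, 1005641244, 10, (n (n (n (n z (n (n z (n z (cp 635))) z)) (n (n z (n (n z (cm 3199)) z)) (n (n (n z (cm 5178)) z) z))) (n (n z (n z (cp 5179))) (n (n (n (n z (cm 1659)) (cm 1467)) (cp 30731)) z))) (n (n z (n (n z (cm 1533)) (cm 5178))) (n (n (n (n z (cm 897)) (cm 2371)) z) z)))⟩,
  ⟨1, 27364357488, 10, (n (n (n (n z (n (n z (n z (cm 80539))) z)) (n (n z (n (n z (cp 148408)) z)) (n (n (n z (cm 2508)) z) z))) (n (n z (n z (cp 2509))) (n (n (n (n z (cp 10915)) (cm 26261)) z) z))) (n (n z (n (n z (cm 37490)) (cm 2508))) (n (n (n (n z (cp 6460)) (cp 1527)) z) z)))⟩,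
  ⟨1, 619699271568, 10, (n (n (n (n z (n (n z (n z (cm 117507))) z)) (n z (n (n (n z (cm 119482)) z) z))) (n (n z (n z (cp 119483))) (n (n (n (n z (cp 695941)) (cp 97510)) z) z))) (n (n z (n (n z (cp 33483)) (cm 119482))) (n (n (n (n z (cm 41763)) (cm 25470)) z) z)))⟩,
  ⟨1, 12444026373024, 10, (n (n (n (n z (n (n z (n z (cm 403734))) z)) (n z (n (n (n z (cm 2121121)) z) z))) (n (n z (n z (cp 2121122))) (n (n (n z (cp 2980144)) z) z))) (n (n z (n (n z (cm 1181991)) (cm 2121121))) (n (n (n (n z (cp 277028)) (cp 613740)) z) z)))⟩,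
  ⟨1, 14265907605984, 10, (n (n (n (n z (n (n z (n z (cm 150848))) z)) (n z (n (n (n z (cm 253293)) z) z))) (n (n z (n z (cp 253294))) z)) (n (n z (n (n z (cm 418863)) (cm 253293))) (n (n (n (n z (cp 3191324)) (cm 866939)) z) z)))⟩,
  ⟨1, 32892338203200, 10, (n (n (n (n z (n (n z (n z (cm 238538))) z)) (n z (n (n (n z (cm 125849)) z) z))) (n (n z (n z (cp 125850))) z)) (n (n z (n (n z (cp 3435600)) (cm 125849))) (n (n (n z (cm 949731)) z) z)))⟩,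
  ⟨1, 773793316800, 10, (n (n (n (n z (n (n z (n z (cp 25389))) z)) (n z (n (n (n z (cp 81750)) z) z))) (n (n z (n z (cm 81749))) z)) (n (n z (n z (cp 81750))) (n (n (n z (cp 525532)) z) z)))⟩,
  ⟨43, 273652020, 10, (n (n (n (n z (n (n z (n z (cp 1215))) z)) (n z (n (n (n z (cp 346)) z) z))) (n (n z (n z (cm 345))) z)) (n (n z (n z (cp 346))) z))⟩,
  ⟨3119, 25515, 10, (n (n (n z (n z (n (n (n z (cp 1)) z) z))) (n (n z (n z (cm 0))) z)) (n (n z (n z (cp 1))) z))⟩,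
  ⟨1, 21, 15, (n (n z (n (n z (cm 2)) z)) (n (n z (cp 7)) z))⟩,
  ⟨1, 21, 27, (n z (n (n (n z (cm 2)) (cp 7)) z))⟩,
  ⟨1, 84, 43, (n z (n (n (n z (cp 14)) (cm 4)) z))⟩,
  ⟨1, 96, 267, (n (n (n z (n (n z (cm 0)) z)) (n (n z (cm 1)) z)) (n (n (n (n z (cp 16)) (cm 1)) z) (cm 4)))⟩,
  ⟨1, 5280, 267, (n (n (n z (n (n z (cm 64)) z)) (n (n z (cp 30)) z)) (n (n (n z (cp 110)) z) (cm 20)))⟩,
  ⟨1, 866580, 267, (n (n (n z (n (n z (cm 94)) z)) (n (n z (cm 209)) z)) (n z (cp 1313)))⟩,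
  ⟨5, 6424509, 267, (n (n (n z (n (n z (cm 793)) z)) (n (n z (cp 1631)) z)) z)⟩,
  ⟨1, 12, 30, (n (n (n z (n (n z (cp 4)) z)) z) (n (n z (cm 0)) z))⟩,
  ⟨1, 36, 46, (n (n (n (n z (n z (cp 1))) z) (n (n (n z (cm 1)) z) z)) (n (n (n z (cm 2)) z) (cp 6)))⟩,
  ⟨2, 9, 46, (n (n (n (n z (n z (cm 0))) z) (n (n (n z (cp 2)) z) z)) z)⟩,
  ⟨1, 12, 46, (n (n (n (n z (n z (cp 3))) z) z) (n (n (n z (cm 0)) z) z))⟩,
  ⟨2, 9, 78, (n (n z (n (n (n z (cm 0)) z) z)) (n z (cp 3)))⟩,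
  ⟨1, 21, 270, (n (n (n z (n (n z (cm 2)) z)) (n (n z (cp 7)) z)) z)⟩,
  ⟨1, 72, 58, (n (n z (n (n z (cm 4)) (cp 12))) z)⟩,
  ⟨1, 21, 90, (n (n z (n (n (n z (cm 1)) z) z)) (n z (cp 7)))⟩,
  ⟨1, 60, 154, (n (n z (n (n (n z (cm 2)) z) z)) (n z (cp 10)))⟩,
  ⟨1, 21, 282, (n (n z (n (n (n z (cm 2)) (cp 7)) z)) z)⟩,
  ⟨1, 48, 106, (n (n (n z (n (n z (cp 8)) z)) z) (n (n z (cm 2)) z))⟩,
  ⟨1, 84, 298, (n (n z (n (n (n z (cp 14)) (cm 4)) z)) z)⟩,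
  ⟨1, 12, 202, (n (n z (n (n (n z (cm 0)) z) (cp 4))) (n z (cm 0)))⟩,
  ⟨5, 36, 202, (n (n z (n (n (n z (cm 0)) z) z)) (n z (cp 3)))⟩,
  ⟨1, 15, 63, (n (n z (cp 5)) (cm 1))⟩,
  ⟨2, 3, 303, (n (n (n z (cm 0)) z) (cp 2))⟩,
  ⟨1, 60, 126, (n (n (n z (cp 10)) z) (cm 2))⟩,
  ⟨2, 9, 190, (n (n (n z (cp 3)) z) (cm 0))⟩,
  ⟨1, 15, 318, (n (n (n z (cp 5)) (cm 1)) z)⟩,
  ⟨1, 48, 222, (n (n (n z (cm 2)) z) (cp 8))⟩,
  ⟨1, 12, 238, (n (n (n z (cm 0)) z) (cp 2))⟩,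
  ⟨1, 12, 250, (n (n (n z (cm 0)) (cm 0)) (cp 2))⟩,
  ⟨1, 36, 250, (n (n (n z (cm 0)) (cp 9)) z)⟩]

theorem i17_1_3 : Ineq 10 can17 1 3 :=
  ineq_of_check (K := 29654204754537562518745248879593534665269201599) (cs := q17_1_3) (by decide +kernel)

def q17_1_6 : List Sq := [⟨1, 144, 66, (n (n (n (n z (n (n z (n z (cm 0))) (n (n z (cp 2)) z))) (n (n (n z (n z (cp 1))) z) (n (n (n z (cp 1)) z) (cp 2)))) (n (n (n (n z (n z (cp 1))) (n z (cp 1))) z) (n (n (n (n z (cm 2)) z) (cm 0)) (cm 1)))) (n (n (n (n z (n z (cm 0))) (n (n z (cp 4)) (cm 7))) (n (n (n z (cm 3)) z) (cm 1))) (n (n (n (n z (cm 1)) z) z) (cp 12))))⟩,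
  ⟨1, 5040, 66, (n (n (n (n z (n (n z (n z (cp 5))) (n (n z (cp 2)) z))) (n (n (n z (n z (cp 1))) z) (n (n (n z (cm 4)) (cp 6)) (cp 8)))) (n (n (n (n z (n z (cm 10))) (n z (cm 10))) (n (n z (cm 5)) (cm 11))) (n (n (n (n z (cp 3)) z) (cp 5)) (cm 1)))) (n (n (n (n z (n z (cm 6))) (n (n z (cm 7)) (cm 13))) (n (n (n z (cm 15)) z) (cp 4))) (n (n (n (n z (cp 70)) z) z) z)))⟩,
  ⟨1, 683760, 66, (n (n (n (n (n z (n z (n z (cm 69)))) (n (n z (n z (cp 55))) (n (n z (cp 92)) z))) (n (n (n z (n z (cp 81))) (n z (cp 70))) (n (n (n z (cm 54)) (cm 3)) (cm 191)))) (n (n (n (n z (n z (cm 50))) (n z (cp 19))) (n (n z (cp 74)) (cp 78))) (n (n (n (n z (cp 33)) z) (cp 55)) (cm 231)))) (n (n (n (n z (n z (cp 63))) (n (n z (cm 157)) (cm 223))) (n (n (n z (cm 245)) z) (cp 814))) z))⟩,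
  ⟨1, 71521296, 66, (n (n (n (n (n z (n z (n z (cp 568)))) (n (n z (n z (cp 891))) (n (n z (cp 114)) z))) (n (n (n z (n z (cm 1854))) (n z (cm 1381))) (n (n (n z (cp 737)) (cm 1455)) (cp 116)))) (n (n (n (n z (n z (cm 248))) (n z (cp 811))) (n (n z (cp 74)) (cp 716))) (n (n (n (n z (cp 209)) z) (cp 77)) (cm 605)))) (n (n (n (n z (n z (cm 1894))) (n (n z (cm 1345)) (cm 135))) (n (n (n z (cp 7322)) z) z)) z))⟩,
  ⟨1, 3420194064, 66, (n (n (n (n (n z (n z (n z (cp 5402)))) (n (n z (n z (cp 5393))) (n (n z (cm 9047)) z))) (n (n (n z (n z (cm 174))) (n z (cp 1784))) (n (n (n z (cp 9523)) (cp 1106)) (cm 8435)))) (n (n (n (n z (n z (cp 687))) (n z (cp 10201))) (n (n z (cp 678)) (cm 7885))) (n (n (n (n z (cp 1717)) z) (cm 2064)) (cm 2385)))) (n (n (n (n z (n z (cm 19736))) (n (n z (cm 16487)) (cp 38926))) z) z))⟩,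
  ⟨1, 40085683392, 66, (n (n (n (n (n z (n z (n z (cp 4801)))) (n (n z (n z (cm 37090))) (n (n z (cp 2508)) z))) (n (n (n z (n z (cp 9367))) (n z (cm 287))) (n (n (n z (cp 22115)) (cm 42071)) (cm 9896)))) (n (n (n (n z (n z (cp 5824))) (n z (cp 24973))) (n (n z (cm 36067)) (cm 5970))) (n (n (n (n z (cp 5745)) z) (cp 28786)) (cm 5636)))) (n (n (n (n z (n z (cm 62184))) (n (n z (cp 171632)) z)) z) z))⟩,
  ⟨1, 3041241462336, 66, (n (n (n (n (n z (n z (n z (cm 219440)))) (n (n z (n z (cm 16224))) (n (n z (cp 95196)) z))) (n (n (n z (n z (cp 100045))) (n z (cm 240047))) (n (n (n z (cp 62865)) (cm 11175)) (cm 37630)))) (n (n (n (n z (n z (cp 5700))) (n z (cm 118744))) (n (n z (cm 134347)) (cp 48771))) (n (n (n (n z (cp 9579)) z) (cm 282069)) (cp 101893)))) (n (n (n (n z (n z (cp 1476629))) z) z) z))⟩,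
  ⟨1, 36606930195696, 66, (n (n (n (n (n z (n z (n z (cp 490933)))) (n (n z (n z (cp 86318))) (n (n z (cp 1406422)) z))) (n (n (n z (n z (cp 690922))) (n z (cp 137168))) (n (n (n z (cm 1564893)) (cm 1714499)) (cp 284201)))) (n (n (n (n z (n z (cm 56592))) (n z (cp 778256))) (n (n z (cm 1997971)) (cm 409406))) (n (n (n (n z (cm 1240305)) z) (cm 1485432)) (cp 5681243)))) z)⟩,
  ⟨1, 492218686173233976, 66, (n (n (n (n (n z (n z (n z (cm 121686725)))) (n (n z (n z (cp 73443524))) (n (n z (cp 47257822)) z))) (n (n (n z (n z (cp 23935329))) (n z (cm 202147196))) (n (n (n z (cp 23298506)) (cp 29654251)) (cm 39000532)))) (n (n (n (n z (n z (cp 75011614))) (n z (cm 169296907))) (n (n z (cp 12021118)) (cm 68270437))) (n (n (n (n z (cm 121901500)) z) (cp 656358026)) z))) z)⟩,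
  ⟨1, 53325059545340606856, 66, (n (n (n (n (n z (n z (n z (cm 770510527)))) (n (n z (n z (cp 2583729458))) (n (n z (cm 4471570603)) z))) (n (n (n z (n z (cm 2235420038))) (n z (cm 353282248))) (n (n (n z (cm 1557583597)) (cm 349393554)) (cp 1718933073)))) (n (n (n (n z (n z (cm 950153233))) (n z (cp 658003822))) (n (n z (cm 470072223)) (cm 195583787))) (n (n (n (n z (cp 6770321663)) z) z) z))) z)⟩,
  ⟨1, 6077425380913221358128, 66, (n (n (n (n (n z (n z (n z (cp 7158285867)))) (n (n z (n z (cp 1991228625))) (n (n z (cm 8639436219)) z))) (n (n (n z (n z (cp 7903403309))) (n z (cp 5630519602))) (n (n (n z (cp 6059575989)) (cp 7537044844)) (cm 18398423831)))) (n (n (n (n z (n z (cm 14290814020))) (n z (cm 21911155251))) (n (n z (cm 24172056617)) (cp 74804734588))) z)) z)⟩,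
  ⟨1, 148390663111549051277040, 66, (n (n (n (n (n z (n z (n z (cp 23333898331)))) (n (n z (n z (cm 75912312696))) (n (n z (cp 1072231532)) z))) (n (n (n z (n z (cp 25170354305))) (n z (cp 6436575732))) (n (n (n z (cp 12454865665)) (cm 118291047217)) (cm 9098834239)))) (n (n (n (n z (n z (cm 69762173258))) (n z (cm 90749455371))) (n (n z (cp 330617805430)) z)) z)) z)⟩,
  ⟨1, 2720385576512788551903360, 66, (n (n (n (n (n z (n z (n z (cm 399792884385)))) (n (n z (n z (cp 95705096087))) (n (n z (cp 218484865283)) z))) (n (n (n z (n z (cp 319302880830))) (n z (cm 419164163236))) (n (n (n z (cp 50692374315)) (cp 115023747343)) (cp 16302572535)))) (n (n (n (n z (n z (cm 504441576465))) (n z (cp 1371364725792))) z) z)) z)⟩,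
  ⟨1, 52469428776894660559946112, 66, (n (n (n (n (n z (n z (n z (cm 1059012030549)))) (n (n z (n z (cm 950769361002))) (n (n z (cm 1220435387838)) z))) (n (n (n z (n z (cm 1037926497653))) (n z (cm 297804472318))) (n (n (n z (cp 448246982697)) (cp 551433792589)) (cp 565145340573)))) (n (n (n (n z (n z (cp 6376789946306))) z) z) z)) z)⟩,
  ⟨1, 71068212477351371464422171360, 66, (n (n (n (n (n z (n z (n z (cp 12091921364362)))) (n (n z (n z (cp 12283650261927))) (n (n z (cm 21357615589350)) z))) (n (n (n z (n z (cp 35727267932634))) (n z (cm 89564111371444))) (n (n (n z (cm 50407713986738)) (cm 70468651029868)) (cp 232183868750845)))) z) z)⟩,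
  ⟨1, 20186315507131528618391616294360, 66, (n (n (n (n (n z (n z (n z (cp 958429532285679)))) (n (n z (n z (cm 1243775053121545))) (n (n z (cp 189968184433208)) z))) (n (n (n z (n z (cm 755195256207936))) (n z (cm 1391274674087404))) (n (n (n z (cm 547925259986072)) (cp 3622544856319837)) z))) z) z)⟩,
  ⟨1, 1436310759845416459543769900005392, 66, (n (n (n (n (n z (n z (n z (cp 4561340419108665)))) (n (n z (n z (cm 7638226826387657))) (n (n z (cm 9491503269440174)) z))) (n (n (n z (n z (cm 12006375638905790))) (n z (cp 494771700674257))) (n (n (n z (cp 33041016210368668)) z) z))) z) z)⟩,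
  ⟨1, 91127830995242007889726600616206704, 66, (n (n (n (n (n z (n z (n z (cm 54615401070073028)))) (n (n z (n z (cm 1043238272202697))) (n (n z (cp 5428505819109771)) z))) (n (n (n z (n z (cm 70698774969515632))) (n z (cp 229835119716659419))) z)) z) z)⟩,
  ⟨1, 1041664118394511793610597987921636342, 66, (n (n (n (n (n z (n z (n z (cm 185716884481271336)))) (n (n z (n z (cm 232572437984107048))) (n (n z (cm 7429917902067277)) z))) (n (n (n z (n z (cp 755370574406176203))) z) z)) z) z)⟩,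
  ⟨1, 1893535671375488712556514418353641296, 66, (n (n (n (n (n z (n z (n z (cm 373714203351863522)))) (n (n z (n z (cm 385149274786076515))) (n (n z (cp 835587959752542544)) z))) z) z) z)⟩,
  ⟨313, 67418865066244583295809770623344, 66, (n (n (n (n (n z (n z (n z (cm 101073763886010)))) (n (n z (n z (cp 322737369677804))) z)) z) z) z)⟩,
  ⟨1, 336, 71, (n (n (n z (n z (cm 4))) (n (n z (cp 28)) (cm 6))) (n z (cm 4)))⟩,
  ⟨1, 4656, 71, (n (n (n z (n z (cm 40))) (n z (cp 97))) (n z (cm 24)))⟩,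
  ⟨1, 126000672, 71, (n (n (n z (n z (cp 15464))) z) (n z (cm 362)))⟩,
  ⟨1, 336, 75, (n (n (n z (n z (cm 8))) (n (n z (cm 8)) (cp 28))) z)⟩,
  ⟨1, 217392, 75, (n (n (n z (n z (cp 647))) (n (n z (cm 192)) z)) z)⟩,
  ⟨1, 336, 83, (n (n z (n (n z (cm 8)) z)) (n (n (n z (cm 8)) z) (cp 28)))⟩,
  ⟨1, 217392, 83, (n (n z (n (n z (cm 192)) z)) (n (n (n z (cp 647)) z) z))⟩,
  ⟨1, 336, 99, (n (n z (n (n z (cp 28)) (cm 4))) (n (n (n z (cm 4)) z) (cm 6)))⟩,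
  ⟨1, 4656, 99, (n (n z (n z (cm 24))) (n (n (n z (cm 40)) z) (cp 97)))⟩,
  ⟨1, 126000672, 99, (n (n z (n z (cm 362))) (n (n (n z (cp 15464)) z) z))⟩,
  ⟨1, 360, 323, (n (n (n (n z (n z (cm 5))) (n (n z (cm 5)) (cp 11))) (n (n (n z (cp 30)) z) (cm 5))) (n (n (n (n z (cm 4)) z) z) (cm 8)))⟩,
  ⟨1, 8040, 323, (n (n (n (n z (n z (cp 134))) (n (n z (cm 30)) (cm 13))) (n z (cp 14))) (n (n (n (n z (cm 14)) z) z) (cm 18)))⟩,
  ⟨1, 1320168, 323, (n (n (n z (n (n z (cm 438)) (cm 167))) (n z (cp 1642))) (n (n (n (n z (cp 222)) z) z) (cm 428)))⟩,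
  ⟨1, 7682313744, 323, (n (n (n z (n (n z (cm 33536)) (cm 694))) z) (n (n (n (n z (cp 129962)) z) z) (cm 29849)))⟩,
  ⟨1, 20606077083984, 323, (n (n (n z (n (n z (cm 2119564)) (cp 6606443))) z) (n z (cm 4882551)))⟩,
  ⟨1, 44498659834483224, 323, (n (n (n z (n (n z (cp 280651907)) z)) z) (n z (cm 12967148)))⟩,
  ⟨1, 360, 78, (n (n (n (n z (n z (cp 3))) (n z (cm 10))) (n (n z (cm 9)) (cp 30))) (n (n (n z (cp 3)) z) z))⟩,
  ⟨1, 33240, 78, (n (n (n (n z (n z (cm 62))) (n z (cm 48))) (n (n z (cm 49)) z)) (n (n (n z (cp 277)) z) z))⟩,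
  ⟨17, 355668, 78, (n (n (n (n z (n z (cp 214))) (n z (cm 48))) (n (n z (cm 49)) z)) z)⟩,
  ⟨1, 26859996, 78, (n (n (n z (n z (cp 6973))) (n (n z (cm 2553)) z)) z)⟩,
  ⟨1, 336, 86, (n (n (n (n z (n z (cm 8))) z) (n (n (n z (cp 2)) z) z)) (n (n (n z (cp 28)) z) (cm 6)))⟩,
  ⟨1, 236208, 86, (n (n (n (n z (n z (cp 703))) z) (n (n (n z (cm 177)) z) z)) (n z (cm 6)))⟩,
  ⟨1, 312, 86, (n (n z (n (n (n z (cm 4)) z) (cp 26))) (n z (cm 4)))⟩,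
  ⟨1, 53263773576, 86, (n (n z (n (n (n z (cm 82704)) z) z)) (n z (cp 242841)))⟩,
  ⟨1, 78, 102, (n (n (n (n z (n z (cm 3))) z) (n z (cm 0))) (n (n (n z (cp 13)) z) z))⟩,
  ⟨17, 702, 102, (n (n (n (n z (n z (cp 9))) z) (n z (cm 0))) z)⟩,
  ⟨1, 15, 198, (n (n z (n (n (n z (cm 0)) (cm 0)) (cm 0))) (n z (cp 5)))⟩,
  ⟨1, 10, 198, (n (n z (n (n (n z (cp 4)) (cm 0)) (cm 0))) z)⟩,
  ⟨1, 192, 198, (n (n z (n (n z (cm 4)) (cp 16))) z)⟩,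
  ⟨1, 336, 326, (n (n (n (n z (n z (cm 4))) (n (n z (cp 28)) (cm 6))) (n z (cm 4))) z)⟩,
  ⟨1, 4656, 326, (n (n (n (n z (n z (cm 40))) (n z (cp 97))) (n z (cm 24))) z)⟩,
  ⟨1, 126000672, 326, (n (n (n (n z (n z (cp 15464))) z) (n z (cm 362))) z)⟩,
  ⟨1, 336, 90, (n (n (n (n z (n z (cm 8))) z) (n z (cm 1))) (n (n (n z (cp 28)) z) z))⟩,
  ⟨37, 6384, 90, (n (n (n (n z (n z (cp 19))) z) (n z (cm 1))) z)⟩,
  ⟨1, 336, 106, (n (n (n (n z (n z (cm 8))) (n (n z (cp 2)) z)) z) (n (n (n z (cp 28)) (cm 6)) z))⟩,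
  ⟨1, 236208, 106, (n (n (n (n z (n z (cp 703))) (n (n z (cm 177)) z)) z) (n (n z (cm 6)) z))⟩,
  ⟨1, 312, 106, (n (n (n z (n (n z (cm 4)) z)) (n z (cp 26))) (n (n z (cm 4)) z))⟩,
  ⟨1, 53263773576, 106, (n (n (n z (n (n z (cp 242841)) z)) z) (n (n z (cm 82704)) z))⟩,
  ⟨1, 360, 202, (n (n (n z (n (n z (cm 7)) z)) (n (n (n z (cp 3)) (cp 2)) (cm 4))) (n (n z (cp 30)) (cm 6)))⟩,
  ⟨1, 75240, 202, (n (n (n z (n (n z (cp 418)) z)) (n (n (n z (cm 92)) (cp 38)) (cm 94))) (n z (cp 17)))⟩,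
  ⟨1, 25608, 202, (n (n z (n (n (n z (cm 28)) (cp 194)) (cm 33))) (n z (cm 28)))⟩,
  ⟨1, 1940388, 202, (n (n z (n (n (n z (cm 326)) z) (cp 1667))) (n z (cm 326)))⟩,
  ⟨1, 70972605016, 202, (n (n z (n (n (n z (cp 280099)) z) z)) (n z (cm 86640)))⟩,
  ⟨1, 336, 330, (n (n (n (n z (n z (cm 8))) (n (n z (cm 8)) (cp 28))) z) z)⟩,
  ⟨1, 217392, 330, (n (n (n (n z (n z (cp 647))) (n (n z (cm 192)) z)) z) z)⟩,
  ⟨1, 360, 114, (n (n (n (n z (n z (cp 3))) (n z (cm 9))) (n (n z (cm 10)) (cp 30))) (n (n (n z (cp 3)) z) z))⟩,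
  ⟨1, 33240, 114, (n (n (n (n z (n z (cm 62))) (n z (cm 49))) (n (n z (cm 48)) z)) (n (n (n z (cp 277)) z) z))⟩,
  ⟨17, 355668, 114, (n (n (n (n z (n z (cp 214))) (n z (cm 49))) (n (n z (cm 48)) z)) z)⟩,
  ⟨1, 26859996, 114, (n (n (n z (n z (cm 2553))) (n (n z (cp 6973)) z)) z)⟩,
  ⟨1, 360, 210, (n (n (n (n z (n z (cp 3))) (n (n z (cm 7)) (cm 4))) (n (n z (cp 2)) z)) (n (n (n z (cm 6)) (cp 30)) z))⟩,
  ⟨1, 75240, 210, (n (n (n (n z (n z (cm 92))) (n (n z (cp 418)) (cm 94))) (n (n z (cp 38)) z)) (n (n (n z (cp 17)) z) z))⟩,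
  ⟨1, 25608, 210, (n (n (n (n z (n z (cm 28))) (n z (cm 33))) (n (n z (cp 194)) z)) (n (n (n z (cm 28)) z) z))⟩,
  ⟨1, 1940388, 210, (n (n (n (n z (n z (cm 326))) (n z (cp 1667))) z) (n (n (n z (cm 326)) z) z))⟩,
  ⟨1, 70972605016, 210, (n (n (n (n z (n z (cm 86640))) z) z) (n (n (n z (cp 280099)) z) z))⟩,
  ⟨1, 336, 338, (n (n (n z (n (n z (cm 8)) z)) (n (n (n z (cm 8)) z) (cp 28))) z)⟩,
  ⟨1, 217392, 338, (n (n (n z (n (n z (cm 192)) z)) (n (n (n z (cp 647)) z) z)) z)⟩,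
  ⟨1, 15, 226, (n (n (n (n z (n z (cm 0))) (n z (cm 0))) (n (n z (cm 0)) z)) (n (n (n z (cp 5)) z) z))⟩,
  ⟨1, 10, 226, (n (n (n (n z (n z (cp 4))) (n z (cm 0))) (n (n z (cm 0)) z)) z)⟩,
  ⟨1, 192, 226, (n (n (n z (n z (cp 16))) (n (n z (cm 4)) z)) z)⟩,
  ⟨1, 336, 354, (n (n (n z (n (n z (cp 28)) (cm 4))) (n (n (n z (cm 4)) z) (cm 6))) z)⟩,
  ⟨1, 4656, 354, (n (n (n z (n z (cm 24))) (n (n (n z (cm 40)) z) (cp 97))) z)⟩,
  ⟨1, 126000672, 354, (n (n (n z (n z (cm 362))) (n (n (n z (cp 15464)) z) z)) z)⟩,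
  ⟨1, 22, 95, (n (n z (cp 11)) (cm 0))⟩,
  ⟨1, 204, 111, (n (n z (cp 34)) (cm 6))⟩,
  ⟨1, 162, 207, (n (n z (cm 1)) (cp 27))⟩,
  ⟨1, 204, 119, (n (n z (cp 34)) (cm 6))⟩,
  ⟨1, 64, 215, (n (n z (cm 2)) (cp 16))⟩,
  ⟨1, 888, 343, (n (n (n z (cp 74)) z) (cm 18))⟩,
  ⟨1, 138, 231, (n (n z (cp 23)) (cm 3))⟩,
  ⟨1, 22, 123, (n (n z (cp 11)) (cm 0))⟩,
  ⟨1, 138, 219, (n (n z (cp 23)) (cm 3))⟩,
  ⟨1, 64, 235, (n (n z (cp 16)) (cm 2))⟩,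
  ⟨1, 888, 363, (n (n (n z (cp 74)) (cm 18)) z)⟩,
  ⟨1, 864, 459, (n (n z (cp 72)) (cm 18))⟩,
  ⟨1, 162, 243, (n (n z (cp 27)) (cm 1))⟩,
  ⟨1, 864, 467, (n (n (n z (cm 18)) (cp 72)) z)⟩,
  ⟨1, 48, 126, (n (n (n z (cm 1)) (cm 0)) (cp 4))⟩,
  ⟨1, 10704, 126, (n (n (n z (cm 5)) (cp 223)) z)⟩,
  ⟨1, 648, 222, (n (n (n z (cm 15)) (cm 6)) (cp 54))⟩,
  ⟨1, 1717848, 222, (n (n (n z (cm 489)) (cp 2651)) z)⟩,
  ⟨1, 22, 350, (n (n (n z (cp 11)) (cm 0)) z)⟩,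
  ⟨1, 168, 238, (n (n (n z (cm 4)) (cm 1)) (cp 14))⟩,
  ⟨1, 28056, 238, (n (n (n z (cm 18)) (cp 334)) z)⟩,
  ⟨1, 204, 366, (n (n (n z (cp 34)) (cm 6)) z)⟩,
  ⟨1, 162, 462, (n (n (n z (cm 1)) (cp 27)) z)⟩,
  ⟨1, 168, 246, (n (n (n z (cm 4)) (cm 1)) (cp 14))⟩,
  ⟨1, 28056, 246, (n (n (n z (cm 18)) (cp 334)) z)⟩,
  ⟨1, 204, 374, (n (n (n z (cp 34)) (cm 6)) z)⟩,
  ⟨1, 64, 470, (n (n (n z (cm 2)) (cp 16)) z)⟩,
  ⟨1, 138, 486, (n (n (n z (cp 23)) (cm 3)) z)⟩,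
  ⟨1, 648, 250, (n (n (n z (cm 15)) (cm 6)) (cp 54))⟩,
  ⟨1, 1717848, 250, (n (n (n z (cm 489)) (cp 2651)) z)⟩,
  ⟨1, 22, 378, (n (n (n z (cp 11)) (cm 0)) z)⟩,
  ⟨1, 138, 474, (n (n (n z (cp 23)) (cm 3)) z)⟩,
  ⟨1, 64, 490, (n (n (n z (cp 16)) (cm 2)) z)⟩,
  ⟨1, 162, 498, (n (n (n z (cp 27)) (cm 1)) z)⟩]

theorem i17_1_6 : Ineq 10 can17 1 6 :=
  ineq_of_check (K := 30513440726053783649036646547530270544134426101413525096249222307887035237063018997558802965654810011441947466660474906947138108320621077350839251437061677084900078018439422062438175804471109957469056549605723501281037767526236085271719557545257159708238719) (cs := q17_1_6) (by decide +kernel)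

def q17_1_7 : List Sq := []

theorem i17_1_7 : Ineq 10 can17 1 7 :=
  ineq_of_check (K := 0) (cs := q17_1_7) (by decide +kernel)

end Pool.Agent.Lib.MP_c69b6d_co
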