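import Pool.Agent.Lib.MP_c69b6d_co.Cert8

namespace Pool.Agent.Lib.MP_c69b6d_co

open P2

set_option maxRecDepth 100000

def q17_2_3 : List Sq := [⟨1, 36, 12, (n (n (n (n z (n (n z (n z (cm 0))) (n z (cp 1)))) (n (n z (n z (cm 0))) (n (n z (cp 1)) (cp 1)))) (n (n (n (n z (n z (cp 1))) z) (n (n z (cp 1)) (cp 1))) (n (n (n z (cm 0)) (cm 0)) (cm 1)))) (n (n (n (n z (n z (cm 0))) z) z) (n (n (n (n z (cm 1)) (cm 0)) z) (cp 6))))⟩,
  ⟨1, 1260, 12, (n (n (n (n z (n (n z (n z (cm 0))) (n z (cp 1)))) (n (n z (n z (cm 0))) (n (n (n z (cp 6)) (cp 7)) (cm 4)))) (n (n (n (n z (n z (cp 1))) (n (n z (cm 5)) z)) (n (n z (cp 1)) (cp 1))) (n (n (n z (cm 0)) (cm 6)) (cp 4)))) (n (n (n (n z (n z (cp 17))) (n (n z (cm 5)) z)) (n z (cm 23))) (n (n (n (n z (cm 7)) (cp 35)) z) z)))⟩,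
  ⟨1, 36960, 12, (n (n (n (n z (n (n z (n z (cp 22))) (n z (cp 13)))) (n (n z (n z (cm 12))) (n (n (n z (cp 8)) (cp 21)) (cp 5)))) (n (n (n (n z (n z (cm 56))) (n (n z (cm 7)) z)) (n (n z (cm 21)) (cp 13))) (n (n (n (n z (cp 35)) (cm 47)) (cm 20)) (cm 17)))) (n (n (n (n z (n z (cm 23))) (n (n z (cm 77)) z)) (n z (cp 3))) (n (n (n (n z (cp 176)) z) z) z)))⟩,
  ⟨1, 605088, 12, (n (n (n (n (n z (n z (n z (cp 176)))) (n (n z (n z (cm 21))) (n z (cp 195)))) (n (n z (n z (cm 18))) (n (n (n z (cm 55)) (cm 36)) (cm 100)))) (n (n (n (n z (n z (cp 25))) (n (n z (cp 56)) z)) (n (n z (cp 22)) (cp 19))) (n (n (n (n z (cm 2)) (cm 15)) (cp 37)) (cm 93)))) (n (n (n (n z (n z (cm 359))) (n (n z (cm 113)) z)) (n z (cp 573))) z))⟩,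
  ⟨1, 1031400, 12, (n (n (n (n (n z (n z (n z (cp 38)))) (n (n z (n z (cp 43))) (n z (cm 111)))) (n (n z (n z (cp 150))) (n (n (n z (cp 40)) (cm 300)) (cp 154)))) (n (n (n (n z (n z (cp 64))) (n (n z (cm 39)) z)) (n (n z (cm 233)) (cm 149))) (n (n (n (n z (cm 106)) (cp 66)) (cp 110)) (cp 149)))) (n (n (n (n z (n z (cm 233))) (n (n z (cp 900)) z)) z) z))⟩,
  ⟨1, 41400, 12, (n (n (n (n (n z (n z (n z (cm 15)))) (n (n z (n z (cm 0))) (n z (cm 15)))) (n z (n (n (n z (cp 20)) (cp 7)) (cm 27)))) (n (n (n (n z (n z (cp 2))) (n (n z (cp 30)) z)) (n (n z (cm 11)) z)) (n (n (n (n z (cm 0)) (cm 11)) (cp 30)) (cp 7)))) (n (n (n (n z (n z (cp 138))) z) z) z))⟩,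
  ⟨1, 5122008, 12, (n (n (n (n (n z (n z (n z (cp 475)))) (n (n z (n z (cp 287))) (n z (cp 268)))) (n (n z (n z (cp 621))) (n (n (n z (cm 495)) (cm 214)) (cm 312)))) (n (n (n (n z (n z (cp 47))) (n (n z (cp 475)) z)) (n (n z (cm 212)) (cm 206))) (n (n (n (n z (cm 747)) (cm 212)) (cm 145)) (cp 2062)))) z)⟩,
  ⟨1, 1214361288, 12, (n (n (n (n (n z (n z (n z (cp 383)))) (n (n z (n z (cp 5623))) (n z (cp 2226)))) (n (n z (n z (cm 7590))) (n (n (n z (cp 6498)) (cp 3777)) (cm 6038)))) (n (n (n (n z (n z (cm 278))) (n (n z (cm 7864)) z)) (n (n z (cp 1747)) (cm 4342))) (n (n (n (n z (cm 5781)) (cm 8562)) (cp 32718)) z))) z)⟩,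
  ⟨1, 288469109376, 12, (n (n (n (n (n z (n z (n z (cp 11801)))) (n (n z (n z (cp 126400))) (n z (cp 47103)))) (n (n z (n z (cm 147186))) (n (n (n z (cp 24795)) (cm 40079)) (cp 71100)))) (n (n (n (n z (n z (cm 126611))) (n (n z (cm 22450)) z)) (n (n z (cm 89002)) (cp 9613))) (n (n (n (n z (cm 109899)) (cp 489824)) z) z))) z)⟩,
  ⟨1, 1677990076800, 12, (n (n (n (n (n z (n z (n z (cm 127184)))) (n (n z (n z (cp 147440))) (n z (cp 310057)))) (n (n z (n z (cm 206340))) (n (n (n z (cm 51826)) (cp 127632)) (cp 190084)))) (n (n (n (n z (n z (cm 463243))) (n (n z (cm 204068)) z)) (n (n z (cp 156275)) (cp 134667))) (n (n (n (n z (cp 1141900)) z) z) z))) z)⟩,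
  ⟨1, 170758552126800, 12, (n (n (n (n (n z (n z (n z (cp 416295)))) (n (n z (n z (cm 1688529))) (n z (cm 3150048)))) (n (n z (n z (cp 1027287))) (n (n (n z (cp 89439)) (cp 3369676)) (cm 2994587)))) (n (n (n (n z (n z (cp 579608))) (n (n z (cp 112283)) z)) (n (n z (cm 3208624)) (cp 12461581))) z)) z)⟩,
  ⟨1, 17605281344220108, 12, (n (n (n (n (n z (n z (n z (cp 5995759)))) (n (n z (n z (cm 17548304))) (n z (cm 43400589)))) (n (n z (n z (cp 12771863))) (n (n (n z (cp 163192)) (cm 9130611)) (cp 17939366)))) (n (n (n (n z (n z (cm 29556413))) (n (n z (cp 6406335)) z)) (n (n z (cp 117730389)) z)) z)) z)⟩,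
  ⟨1, 45310603313986836, 12, (n (n (n (n (n z (n z (n z (cp 103180126)))) (n (n z (n z (cm 27589249))) (n z (cp 10732466)))) (n (n z (n z (cm 34995710))) (n (n (n z (cm 131983037)) (cp 58661293)) (cm 32912276)))) (n (n (n (n z (n z (cm 55923431))) (n (n z (cp 192433762)) z)) z) z)) z)⟩,
  ⟨1, 191253302488267584, 12, (n (n (n (n (n z (n z (n z (cm 42562243)))) (n (n z (n z (cm 135945504))) (n z (cp 26869430)))) (n (n z (n z (cm 89046732))) (n (n (n z (cp 7389899)) (cp 49093868)) (cp 37351224)))) (n (n (n (n z (n z (cp 331288544))) z) z) z)) z)⟩,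
  ⟨1, 390435129791988336, 12, (n (n (n (n (n z (n z (n z (cm 20053923)))) (n (n z (n z (cp 126088305))) (n z (cm 135319957)))) (n (n z (n z (cm 81877504))) (n (n (n z (cm 54571758)) (cm 17533093)) (cp 523793314)))) z) z)⟩,
  ⟨1, 100112231782999305408, 12, (n (n (n (n (n z (n z (n z (cp 1164358668)))) (n (n z (n z (cm 2510751124))) (n z (cm 737985505)))) (n (n z (n z (cp 156236727))) (n (n (n z (cm 860835304)) (cp 7963719428)) z))) z) z)⟩,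
  ⟨1, 4264530798228129336432, 12, (n (n (n (n (n z (n z (n z (cm 28286036427)))) (n (n z (n z (cm 8587113214))) (n z (cp 20622498934)))) (n (n z (n z (cm 212217978))) (n (n (n z (cp 44624571437)) z) z))) z) z)⟩,
  ⟨1, 44437613225177471825748, 12, (n (n (n (n (n z (n z (n z (cm 5147152511)))) (n (n z (n z (cp 50894396320))) (n z (cm 6022246232)))) (n (n z (n z (cp 165968403334))) z)) z) z)⟩,
  ⟨1, 474281195024570700675660, 12, (n (n (n (n (n z (n z (n z (cm 87335262767)))) (n (n z (n z (cm 182061395959))) (n z (cp 476276593915)))) z) z) z)⟩,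
  ⟨2, 18312062242489931556705, 12, (n (n (n (n (n z (n z (n z (cm 27271783805)))) (n (n z (n z (cp 64080629045))) z)) z) z) z)⟩,
  ⟨1, 21, 15, (n (n z (n (n z (cm 1)) z)) (n z (cp 7)))⟩,
  ⟨1, 72, 29, (n (n (n z (n z (cp 12))) (n (n z (cm 2)) z)) (n (n (n z (cm 1)) (cm 3)) z))⟩,
  ⟨1, 171, 29, (n z (n (n (n z (cm 6)) (cp 19)) z))⟩,
  ⟨1, 103512, 29, (n (n z (n (n z (cm 132)) z)) (n (n (n z (cp 454)) z) z))⟩,
  ⟨1, 72, 45, (n (n (n z (n z (cm 3))) z) (n (n (n z (cm 1)) (cp 12)) (cm 2)))⟩,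
  ⟨1, 171, 45, (n (n (n z (n z (cp 19))) z) (n (n (n z (cm 6)) z) z))⟩,
  ⟨1, 103512, 45, (n z (n (n (n z (cp 454)) z) (cm 132)))⟩,
  ⟨1, 8, 77, (n (n (n z (n z (cm 0))) (n z (cp 4))) (n z (cm 0)))⟩,
  ⟨1, 696, 77, (n (n (n z (n z (cp 29))) z) (n z (cp 1)))⟩,
  ⟨1, 21, 141, (n (n z (n z (cp 7))) (n z (cm 1)))⟩,
  ⟨1, 96, 269, (n (n (n (n z (n z (cm 1))) (n (n z (cm 4)) z)) (n z (cp 3))) (n (n (n (n z (cp 16)) (cm 1)) z) (cm 4)))⟩,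
  ⟨1, 5280, 269, (n (n (n (n z (n z (cp 38))) (n (n z (cm 12)) z)) (n z (cm 76))) (n (n (n z (cp 110)) z) (cm 20)))⟩,
  ⟨1, 879120, 269, (n (n (n (n z (n z (cp 1332))) (n (n z (cm 226)) z)) (n z (cm 692))) (n z (cm 78)))⟩,
  ⟨1, 421290288, 269, (n (n (n z (n (n z (cp 26357)) z)) (n z (cm 6056))) (n z (cp 13)))⟩,
  ⟨89, 463356060, 269, (n (n z (n z (cm 672))) (n z (cp 2930)))⟩,
  ⟨1, 84, 30, (n (n z (n (n z (cm 2)) (cp 14))) z)⟩,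
  ⟨1, 84, 46, (n (n (n (n z (n z (cm 1))) z) (n (n (n z (cm 0)) (cp 14)) (cm 1))) (n (n (n z (cm 1)) z) (cm 0)))⟩,
  ⟨1, 4032, 46, (n (n (n (n z (n z (cp 5))) z) (n (n (n z (cm 14)) z) (cp 96))) (n (n (n z (cp 5)) z) (cm 14)))⟩,
  ⟨1, 535104, 46, (n (n (n (n z (n z (cm 318))) z) (n (n (n z (cp 93)) z) z)) (n (n (n z (cp 929)) z) (cm 290)))⟩,
  ⟨1, 44201820, 46, (n (n (n (n z (n z (cp 7930))) z) (n (n (n z (cm 2506)) z) z)) (n z (cm 66)))⟩,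
  ⟨2, 54752685, 46, (n (n z (n (n (n z (cm 2106)) z) z)) (n z (cp 4603)))⟩,
  ⟨1, 84, 78, (n (n (n (n z (n z (cm 2))) (n z (cm 2))) (n (n z (cm 2)) z)) (n (n (n z (cp 14)) z) z))⟩,
  ⟨1, 21, 78, (n (n (n z (n z (cm 0))) (n (n z (cm 0)) (cp 7))) z)⟩,
  ⟨17, 924, 78, (n (n (n (n z (n z (cp 11))) (n z (cm 2))) (n (n z (cm 2)) z)) z)⟩,
  ⟨1, 107415, 78, (n (n (n z (n z (cp 465))) (n (n z (cm 150)) z)) z)⟩,
  ⟨1, 21, 142, (n (n (n z (n z (cm 0))) (n (n z (cm 0)) (cp 7))) z)⟩,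
  ⟨1, 4032, 142, (n (n (n (n z (n z (cm 6))) (n z (cm 22))) (n (n z (cp 96)) z)) (n (n (n z (cm 6)) z) z))⟩,
  ⟨17, 42048, 142, (n (n (n (n z (n z (cm 6))) (n z (cp 73))) z) (n (n (n z (cm 6)) z) z))⟩,
  ⟨4, 11607, 142, (n (n (n (n z (n z (cm 19))) z) z) (n (n (n z (cp 53)) z) z))⟩,
  ⟨1, 21, 270, (n (n (n z (n (n z (cm 1)) z)) (n z (cp 7))) z)⟩,
  ⟨1, 21, 60, (n (n (n z (n z (cm 1))) (n (n z (cp 7)) (cm 1))) z)⟩,
  ⟨3, 35, 60, (n (n (n z (n z (cm 1))) (n z (cp 5))) z)⟩,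
  ⟨1, 84, 92, (n (n (n z (n z (cm 2))) (n (n (n z (cm 2)) z) (cp 14))) (n z (cm 2)))⟩,
  ⟨1, 1484, 92, (n (n (n z (n z (cp 53))) (n (n (n z (cm 2)) z) z)) (n z (cm 2)))⟩,
  ⟨1, 30846, 92, (n (n z (n (n (n z (cm 70)) z) z)) (n z (cp 194)))⟩,
  ⟨1, 84, 156, (n (n (n z (n (n z (cm 0)) (cm 1))) (n (n (n z (cm 1)) z) (cp 14))) (n (n z (cm 0)) (cm 1)))⟩,
  ⟨1, 4032, 156, (n (n (n z (n (n z (cm 14)) (cp 96))) (n (n (n z (cp 5)) z) z)) (n (n z (cm 14)) (cp 5)))⟩,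
  ⟨1, 535104, 156, (n (n (n z (n (n z (cp 93)) z)) (n (n (n z (cm 318)) z) z)) (n (n z (cm 290)) (cp 929)))⟩,
  ⟨1, 44201820, 156, (n (n (n z (n (n z (cm 2506)) z)) (n (n (n z (cp 7930)) z) z)) (n (n z (cm 66)) z))⟩,
  ⟨2, 54752685, 156, (n (n (n z (n (n z (cm 2106)) z)) z) (n (n z (cp 4603)) z))⟩,
  ⟨1, 72, 284, (n (n (n (n z (n z (cp 12))) (n (n z (cm 2)) z)) (n (n (n z (cm 1)) (cm 3)) z)) z)⟩,
  ⟨1, 171, 284, (n (n z (n (n (n z (cm 6)) (cp 19)) z)) z)⟩,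
  ⟨1, 103512, 284, (n (n (n z (n (n z (cm 132)) z)) (n (n (n z (cp 454)) z) z)) z)⟩,
  ⟨1, 84, 108, (n (n (n (n z (n z (cm 2))) (n z (cp 14))) (n z (cm 2))) (n (n (n z (cm 2)) z) z))⟩,
  ⟨1, 1484, 108, (n (n (n (n z (n z (cm 2))) z) (n z (cp 53))) (n (n (n z (cm 2)) z) z))⟩,
  ⟨1, 30846, 108, (n (n (n (n z (n z (cm 70))) z) z) (n (n (n z (cp 194)) z) z))⟩,
  ⟨1, 84, 172, (n (n (n z (n z (cp 14))) (n z (cm 2))) z)⟩,
  ⟨1, 72, 300, (n (n (n (n z (n z (cm 3))) z) (n (n (n z (cm 1)) (cp 12)) (cm 2))) z)⟩,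
  ⟨1, 171, 300, (n (n (n (n z (n z (cp 19))) z) (n (n (n z (cm 6)) z) z)) z)⟩,
  ⟨1, 103512, 300, (n (n z (n (n (n z (cp 454)) z) (cm 132))) z)⟩,
  ⟨1, 84, 204, (n (n z (n (n (n z (cm 2)) (cm 2)) (cm 2))) (n z (cp 14)))⟩,
  ⟨1, 21, 204, (n (n (n z (n z (cp 7))) (n (n z (cm 0)) (cm 0))) z)⟩,
  ⟨17, 924, 204, (n (n z (n (n (n z (cp 11)) (cm 2)) (cm 2))) z)⟩,
  ⟨1, 107415, 204, (n (n z (n (n z (cm 150)) (cp 465))) z)⟩,
  ⟨1, 8, 332, (n (n (n (n z (n z (cm 0))) (n z (cp 4))) (n z (cm 0))) z)⟩,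
  ⟨1, 696, 332, (n (n (n (n z (n z (cp 29))) z) (n z (cp 1))) z)⟩,
  ⟨1, 21, 396, (n (n (n z (n z (cp 7))) (n z (cm 1))) z)⟩,
  ⟨1, 156, 63, (n (n z (cp 26)) (cm 2))⟩,
  ⟨1, 204, 95, (n (n z (cp 34)) (cm 2))⟩,
  ⟨1, 51, 159, (n (n z (cp 17)) (cm 2))⟩,
  ⟨1, 57, 111, (n (n z (cp 19)) (cm 2))⟩,
  ⟨1, 51, 175, (n (n z (cp 17)) (cm 2))⟩,
  ⟨1, 16, 303, (n (n (n z (cp 8)) z) (cm 2))⟩,
  ⟨1, 48, 207, (n (n z (cp 8)) (cm 0))⟩,
  ⟨1, 156, 125, (n (n z (cm 4)) (cp 26))⟩,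
  ⟨1, 156, 189, (n (n z (cm 2)) (cp 26))⟩,
  ⟨1, 57, 221, (n (n z (cm 2)) (cp 19))⟩,
  ⟨1, 16, 413, (n (n z (cm 2)) (cp 8))⟩,
  ⟨1, 204, 237, (n (n z (cm 2)) (cp 34))⟩,
  ⟨1, 12, 126, (n (n (n z (cm 0)) z) (cp 2))⟩,
  ⟨1, 96, 190, (n (n (n z (cm 4)) (cm 2)) (cp 16))⟩,
  ⟨1, 57504, 190, (n (n (n z (cm 62)) (cp 599)) z)⟩,
  ⟨1, 156, 318, (n (n (n z (cp 26)) (cm 2)) z)⟩,
  ⟨1, 12, 222, (n (n (n z (cm 0)) (cm 0)) (cp 4))⟩,
  ⟨5, 276, 222, (n (n (n z (cm 0)) (cp 23)) z)⟩,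
  ⟨1, 204, 350, (n (n (n z (cp 34)) (cm 2)) z)⟩,
  ⟨1, 51, 414, (n (n (n z (cp 17)) (cm 2)) z)⟩,
  ⟨1, 12, 238, (n (n (n z (cm 0)) (cm 0)) (cp 4))⟩,
  ⟨5, 276, 238, (n (n (n z (cm 0)) (cp 23)) z)⟩,
  ⟨1, 57, 366, (n (n (n z (cp 19)) (cm 2)) z)⟩,
  ⟨1, 51, 430, (n (n (n z (cp 17)) (cm 2)) z)⟩,
  ⟨1, 48, 462, (n (n (n z (cp 8)) (cm 0)) z)⟩,
  ⟨1, 12, 252, (n (n (n z (cm 0)) z) (cp 2))⟩,
  ⟨1, 156, 380, (n (n (n z (cm 4)) (cp 26)) z)⟩,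
  ⟨1, 156, 444, (n (n (n z (cm 2)) (cp 26)) z)⟩,
  ⟨1, 57, 476, (n (n (n z (cm 2)) (cp 19)) z)⟩,
  ⟨1, 204, 492, (n (n (n z (cm 2)) (cp 34)) z)⟩]

theorem i17_2_3 : Ineq 10 can17 2 3 :=
  ineq_of_check (K := 47064578798580407035392637594218571572296636697689110415159684633970611918269742377686959909925501323739734256467703360491635583606399) (cs := q17_2_3) (by decide +kernel)

def q17_2_4 : List Sq := [⟨1, 576, 20, (n (n (n (n (n z (n z (n z (cp 1)))) (n z (n (n z (cm 0)) z))) (n (n z (n (n z (cp 2)) z)) (n (n (n z (cp 3)) (cm 1)) (cp 2)))) (n (n (n (n z (n z (cp 2))) z) z) (n (n (n (n z (cm 6)) z) z) (cp 1)))) (n (n (n (n z (n z (cp 3))) (n (n z (cp 1)) (cp 3))) (n (n z (cm 7)) (cm 8))) (n (n (n (n z (cm 3)) (cm 5)) z) (cp 24))))⟩,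
  ⟨1, 8640, 20, (n (n (n (n (n z (n z (n z (cp 1)))) (n (n z (n z (cp 4))) (n (n z (cp 3)) z))) (n (n z (n (n z (cm 1)) z)) (n (n (n z (cp 7)) (cm 17)) (cm 5)))) (n (n (n (n z (n z (cp 38))) (n (n z (cp 28)) z)) z) (n (n (n (n z (cm 6)) z) z) (cm 62)))) (n (n (n (n z (n z (cm 4))) (n (n z (cp 13)) (cm 16))) (n (n z (cm 15)) (cp 3))) (n (n (n (n z (cp 24)) (cp 90)) z) z)))⟩,
  ⟨1, 469440, 20, (n (n (n (n (n z (n z (n z (cp 273)))) (n (n z (n z (cp 52))) (n (n z (cm 100)) z))) (n (n z (n (n z (cm 75)) z)) (n (n (n z (cp 31)) (cm 453)) (cm 7)))) (n (n (n (n z (n z (cp 264))) (n (n z (cp 214)) z)) z) (n (n (n (n z (cp 39)) z) z) (cm 348)))) (n (n (n (n z (n z (cp 235))) (n (n z (cm 140)) (cp 19))) (n (n z (cm 37)) (cp 39))) (n (n (n (n z (cp 652)) z) z) z)))⟩,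
  ⟨1, 7537610304, 20, (n (n (n (n (n z (n z (n z (cp 3217)))) (n (n z (n z (cp 11200))) (n (n z (cp 3135)) z))) (n (n z (n (n z (cp 7504)) z)) (n (n (n z (cm 23452)) (cm 6629)) (cm 8543)))) (n (n (n (n z (n z (cp 3548))) (n (n z (cp 1330)) z)) z) (n (n (n (n z (cp 1391)) z) z) (cm 1580)))) (n (n (n (n z (n z (cp 14467))) (n (n z (cm 33064)) (cm 6928))) (n (n z (cm 22653)) (cp 80283))) z))⟩,
  ⟨1, 2925833652000, 20, (n (n (n (n (n z (n z (n z (cp 171821)))) (n (n z (n z (cp 6958))) (n (n z (cp 146911)) z))) (n (n z (n (n z (cm 483993)) z)) (n (n (n z (cp 54564)) (cm 66385)) (cm 259460)))) (n (n (n (n z (n z (cp 9984))) (n (n z (cp 60704)) z)) z) (n (n (n (n z (cm 37599)) z) z) (cm 20770)))) (n (n (n (n z (n z (cm 218542))) (n (n z (cp 100528)) (cm 338668))) (n (n z (cp 1518500)) z)) z))⟩,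
  ⟨1, 1201439617452000, 20, (n (n (n (n (n z (n z (n z (cm 1206696)))) (n (n z (n z (cp 3651694))) (n (n z (cm 9350826)) z))) (n (n z (n (n z (cp 835758)) z)) (n (n (n z (cp 849752)) (cp 3811902)) (cm 6734322)))) (n (n (n (n z (n z (cm 2438687))) (n (n z (cp 3511272)) z)) z) (n (n (n (n z (cm 861299)) z) z) (cm 1296152)))) (n (n (n (n z (n z (cm 4748848))) (n (n z (cm 11881295)) (cp 32966733))) z) z))⟩,
  ⟨1, 46627072703438064, 20, (n (n (n (n (n z (n z (n z (cp 19788487)))) (n (n z (n z (cm 51972070))) (n (n z (cm 8847851)) z))) (n (n z (n (n z (cm 1884336)) z)) (n (n (n z (cp 5859755)) (cm 14042826)) (cm 2288178)))) (n (n (n (n z (n z (cp 24549354))) (n (n z (cp 26976257)) z)) z) (n (n (n (n z (cp 8775825)) z) z) (cm 30103181)))) (n (n (n (n z (n z (cm 40375722))) (n (n z (cp 176795926)) z)) z) z))⟩,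
  ⟨1, 124121886889454456976, 20, (n (n (n (n (n z (n z (n z (cp 2156339753)))) (n (n z (n z (cm 958046332))) (n (n z (cm 303308739)) z))) (n (n z (n (n z (cp 245110401)) z)) (n (n (n z (cp 917734025)) (cm 5457340874)) (cm 1588602576)))) (n (n (n (n z (n z (cp 3309255744))) (n (n z (cm 658157264)) z)) z) (n (n (n (n z (cp 678056901)) z) z) (cm 806180663)))) (n (n (n (n z (n z (cp 9750875683))) z) z) z))⟩,
  ⟨1, 124642653234735670973280, 20, (n (n (n (n (n z (n z (n z (cp 48598069141)))) (n (n z (n z (cm 34363369865))) (n (n z (cp 11083682641)) z))) (n (n z (n (n z (cp 35003578498)) z)) (n (n (n z (cm 5844404448)) (cm 5308079305)) (cm 53261568521)))) (n (n (n (n z (n z (cm 113214844630))) (n (n z (cm 200624726383)) z)) z) (n (n (n (n z (cp 28740615906)) z) z) (cp 177537691780)))) z)⟩,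
  ⟨1, 4051715148753688728763680, 20, (n (n (n (n (n z (n z (n z (cp 190296204283)))) (n (n z (n z (cp 136704521802))) (n (n z (cp 253611213423)) z))) (n (n z (n (n z (cm 682586963045)) z)) (n (n (n z (cm 712798278326)) (cm 101670114777)) (cp 251920045974)))) (n (n (n (n z (n z (cm 282016871792))) (n (n z (cm 420258532291)) z)) z) (n (n (n (n z (cp 1901809839238)) z) z) z))) z)⟩,
  ⟨1, 215798677308599317453758384, 20, (n (n (n (n (n z (n z (n z (cm 2594450866396)))) (n (n z (n z (cp 1355522131670))) (n (n z (cm 2296548683278)) z))) (n (n z (n (n z (cm 1095442134127)) z)) (n (n (n z (cp 156117909399)) (cp 1144105887141)) (cm 2290599211166)))) (n (n (n (n z (n z (cm 3507086887758))) (n (n z (cp 9455847129414)) z)) z) z)) z)⟩,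
  ⟨1, 410113496739660162161363568, 20, (n (n (n (n (n z (n z (n z (cp 2367726874247)))) (n (n z (n z (cm 5127158853793))) (n (n z (cm 402151060038)) z))) (n (n z (n (n z (cm 1177529970189)) z)) (n (n (n z (cm 32340951194)) (cm 5010994649816)) (cm 1653297010136)))) (n (n (n (n z (n z (cp 12649996865641))) z) z) z)) z)⟩,
  ⟨1, 3741743548092768203361914368488, 20, (n (n (n (n (n z (n z (n z (cm 105895677026559)))) (n (n z (n z (cp 162580406656528))) (n (n z (cm 421520442201905)) z))) (n (n z (n (n z (cm 255640380258245)) z)) (n (n (n z (cm 194727956991520)) (cm 169735209563072)) (cp 1760655220781601)))) z) z)⟩,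
  ⟨1, 34740824384671359870728159061840, 20, (n (n (n (n (n z (n z (n z (cm 3395081769849848)))) (n (n z (n z (cm 275418810853167))) (n (n z (cp 631508786764053)) z))) (n (n z (n (n z (cm 282081451903339)) z)) (n (n (n z (cm 514337386439399)) (cp 2466469866914730)) z))) z) z)⟩,
  ⟨1, 2923982039832338752216203699720, 20, (n (n (n (n (n z (n z (n z (cp 142516602388769)))) (n (n z (n z (cm 612644868594117))) (n (n z (cm 127054820958812)) z))) (n (n z (n (n z (cm 461315108539065)) z)) (n (n (n z (cp 1481865884038705)) z) z))) z) z)⟩,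
  ⟨1, 17040775539541340859843944766242520, 20, (n (n (n (n (n z (n z (n z (cm 23214535692157466)))) (n (n z (n z (cp 9386739428486614))) (n (n z (cm 26861413128007820)) z))) (n (n z (n (n z (cp 106477219294250018)) z)) z)) z) z)⟩,
  ⟨1, 121316044977681312157653046274004259440, 20, (n (n (n (n (n z (n z (n z (cm 711411043998295436)))) (n (n z (n z (cm 3793955872009726723))) (n (n z (cp 9494679220414914009)) z))) z) z) z)⟩,
  ⟨1, 1788761301563655280393684290480936281886, 20, (n (n (n (n (n z (n z (n z (cm 10969914046450990298)))) (n (n z (n z (cp 31399363440623380109))) z)) z) z) z)⟩,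
  ⟨1, 1296, 29, (n (n z (n (n z (cm 10)) (cp 54))) z)⟩,
  ⟨1, 1296, 53, (n (n z (n z (cp 54))) (n z (cm 10)))⟩,
  ⟨1, 372, 277, (n (n (n (n z (n z (cm 5))) (n (n z (cp 31)) (cm 9))) (n (n z (cp 4)) (cm 10))) (n (n (n (n z (cm 5)) (cp 2)) z) (cp 1)))⟩,
  ⟨1, 1406160, 277, (n (n (n (n z (n z (cm 292))) (n z (cm 291))) (n (n z (cp 1890)) (cm 190))) (n (n (n (n z (cp 172)) (cm 77)) z) (cm 627)))⟩,
  ⟨1, 295792560, 277, (n (n (n (n z (n z (cp 589))) (n z (cp 2606))) (n z (cm 11026))) (n (n (n (n z (cm 4615)) (cm 6125)) z) (cp 26084)))⟩,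
  ⟨1, 54643058592, 277, (n (n (n (n z (n z (cm 48618))) (n z (cp 349148))) (n z (cm 95969))) (n (n (n (n z (cp 12796)) (cm 57404)) z) z))⟩,
  ⟨1, 138895200, 277, (n (n (n (n z (n z (cm 1044))) z) (n z (cp 15150))) (n (n (n (n z (cm 1255)) (cm 1044)) z) z))⟩,
  ⟨1, 1332551851488000, 277, (n (n (n (n z (n z (cm 5175544))) z) z) (n (n (n (n z (cm 7194093)) (cp 40097200)) z) z))⟩,
  ⟨169337, 2883790624000, 277, (n (n (n (n z (n z (cp 4495))) z) z) (n (n (n (n z (cm 925)) z) z) z))⟩,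
  ⟨1, 1248, 30, (n (n (n z (n (n z (cm 16)) z)) z) (n (n z (cp 52)) z))⟩,
  ⟨1, 1392, 54, (n (n (n (n z (n z (cp 3))) (n (n z (cm 18)) z)) (n (n (n z (cp 4)) z) z)) (n (n (n z (cm 8)) (cp 58)) (cm 10)))⟩,
  ⟨1, 4180176, 54, (n (n (n (n z (n z (cm 464))) (n (n z (cp 3003)) z)) (n (n (n z (cm 561)) z) z)) (n (n (n z (cp 3)) z) (cp 23)))⟩,
  ⟨1, 8637973344, 54, (n (n (n (n z (n z (cm 44165))) z) (n (n (n z (cp 119852)) z) z)) (n (n (n z (cp 13905)) z) (cm 39540)))⟩,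
  ⟨1, 12261552823968, 54, (n (n (n (n z (n z (cm 26581))) z) z) (n (n (n z (cm 1579608)) z) (cp 4262741)))⟩,
  ⟨1, 2745520629783036, 54, (n (n (n (n z (n z (cm 18974202))) z) z) (n (n (n z (cp 53672833)) z) z))⟩,
  ⟨1, 18, 86, (n (n (n (n z (n z (cm 0))) z) (n (n (n z (cm 0)) z) (cp 6))) (n (n (n z (cm 0)) z) (cm 0)))⟩,
  ⟨1, 8352, 86, (n (n (n (n z (n z (cp 11))) z) (n (n (n z (cm 36)) z) z)) (n (n (n z (cm 30)) z) (cp 116)))⟩,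
  ⟨1, 11216736, 86, (n (n (n (n z (n z (cm 1062))) z) (n (n (n z (cp 4029)) z) z)) (n (n (n z (cp 43)) z) z))⟩,
  ⟨1, 11649160512, 86, (n (n (n (n z (n z (cm 37290))) z) z) (n (n (n z (cp 120472)) z) z))⟩,
  ⟨1, 1248, 150, (n (n (n (n z (n z (cm 12))) z) (n z (cm 8))) (n (n (n z (cp 52)) z) z))⟩,
  ⟨5, 416, 150, (n (n (n (n z (n z (cp 13))) z) (n z (cm 2))) z)⟩,
  ⟨1, 336, 60, (n (n (n z (n (n z (cm 8)) z)) z) (n (n z (cp 28)) z))⟩,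
  ⟨1, 1296, 92, (n (n (n z (n (n z (cm 17)) z)) (n (n (n z (cp 5)) z) z)) (n (n z (cp 54)) (cm 14)))⟩,
  ⟨1, 162, 92, (n (n (n z (n (n z (cp 18)) z)) (n (n (n z (cm 4)) z) z)) z)⟩,
  ⟨191, 1296, 92, (n (n z (n (n (n z (cp 3)) z) z)) (n z (cm 0)))⟩,
  ⟨1, 1392, 156, (n (n (n (n z (n z (cm 18))) (n (n z (cp 4)) z)) (n (n (n z (cp 3)) z) z)) (n (n (n z (cp 58)) (cm 10)) (cm 8)))⟩,
  ⟨1, 4180176, 156, (n (n (n (n z (n z (cp 3003))) (n (n z (cm 561)) z)) (n (n (n z (cm 464)) z) z)) (n (n z (cp 23)) (cp 3)))⟩,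
  ⟨1, 8637973344, 156, (n (n (n z (n (n z (cm 39540)) z)) (n (n (n z (cp 13905)) z) z)) (n (n z (cp 119852)) (cm 44165)))⟩,
  ⟨1, 12261552823968, 156, (n (n (n z (n (n z (cp 4262741)) z)) (n (n (n z (cm 1579608)) z) z)) (n z (cm 26581)))⟩,
  ⟨1, 2745520629783036, 156, (n (n z (n (n (n z (cp 53672833)) z) z)) (n z (cm 18974202)))⟩,
  ⟨1, 1296, 284, (n (n (n z (n (n z (cm 10)) (cp 54))) z) z)⟩,
  ⟨1, 1296, 116, (n (n (n (n z (n z (cp 5))) (n (n z (cm 17)) z)) z) (n (n (n z (cm 14)) (cp 54)) z))⟩,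
  ⟨1, 162, 116, (n (n (n (n z (n z (cm 4))) (n (n z (cp 18)) z)) z) z)⟩,
  ⟨191, 1296, 116, (n (n (n (n z (n z (cm 0))) z) z) (n (n (n z (cp 3)) z) z))⟩,
  ⟨1, 1248, 180, (n (n (n (n z (n z (cm 16))) z) z) (n (n (n z (cp 52)) z) z))⟩,
  ⟨1, 1296, 308, (n (n (n z (n z (cp 54))) (n z (cm 10))) z)⟩,
  ⟨1, 18, 212, (n (n (n (n z (n z (cm 0))) (n z (cp 6))) (n (n (n z (cm 0)) z) z)) (n (n (n z (cm 0)) z) (cm 0)))⟩,
  ⟨1, 8352, 212, (n (n (n (n z (n z (cm 36))) z) (n (n (n z (cp 11)) z) z)) (n (n (n z (cp 116)) z) (cm 30)))⟩,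
  ⟨1, 11216736, 212, (n (n (n (n z (n z (cp 4029))) z) (n (n (n z (cm 1062)) z) z)) (n z (cp 43)))⟩,
  ⟨1, 11649160512, 212, (n (n z (n (n (n z (cm 37290)) z) z)) (n z (cp 120472)))⟩,
  ⟨1, 1248, 63, (n (n z (cm 4)) (cp 52))⟩,
  ⟨1, 2592, 311, (n (n (n z (cm 33)) (cm 30)) (cp 108))⟩,
  ⟨1, 40059360, 311, (n (n (n z (cm 3753)) (cp 15455)) z)⟩,
  ⟨1, 612, 343, (n (n (n z (cm 13)) z) (cp 51))⟩,
  ⟨1, 192, 125, (n (n z (cm 0)) (cp 8))⟩,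
  ⟨1, 1248, 189, (n (n z (cp 52)) (cm 4))⟩,
  ⟨1, 876, 349, (n (n z (cp 73)) (cm 19))⟩,
  ⟨1, 2064, 413, (n (n (n z (cm 24)) (cm 33)) (cp 86))⟩,
  ⟨1, 1049028, 413, (n (n (n z (cm 878)) (cp 2033)) z)⟩,
  ⟨1, 876, 373, (n (n (n z (cm 19)) (cp 73)) z)⟩,
  ⟨1, 612, 469, (n (n (n z (cp 51)) z) (cm 13))⟩,
  ⟨1, 672, 126, (n (n (n z (cm 18)) z) (cp 56))⟩,
  ⟨1, 408, 190, (n (n (n z (cm 10)) z) (cp 34))⟩,
  ⟨1, 1248, 318, (n (n (n z (cm 4)) (cp 52)) z)⟩,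
  ⟨1, 2496, 222, (n (n (n z (cm 34)) z) (cp 104))⟩,
  ⟨1, 2496, 246, (n (n (n z (cm 34)) z) (cp 104))⟩,
  ⟨1, 672, 252, (n (n (n z (cm 18)) z) (cp 56))⟩,
  ⟨1, 192, 380, (n (n (n z (cm 0)) (cp 8)) z)⟩,
  ⟨1, 1248, 444, (n (n (n z (cp 52)) (cm 4)) z)⟩]

theorem i17_2_4 : Ineq 10 can17 2 4 :=
  ineq_of_check (K := 98673420651079687105672869396716303024094171157028040061296119747337028547173313274801182769467343968328843817885158248725558941335803353928784777178658961377365458747021748165344185640182730576745658457796399629855999) (cs := q17_2_4) (by decide +kernel)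

def q17_2_5 : List Sq := [⟨1, 144, 36, (n (n (n (n (n z (n z (n z (cm 11)))) (n (n z (n z (cp 2))) z)) (n (n (n z (n z (cp 2))) z) (n (n (n z (cp 4)) (cp 2)) (cp 12)))) (n (n (n (n z (n z (cp 2))) (n (n z (cm 11)) z)) (n (n (n z (cm 1)) z) z)) (n (n (n (n z (cm 1)) z) z) (cp 3)))) (n (n (n (n z (n z (cm 11))) (n (n z (cp 2)) z)) (n (n (n z (cp 2)) z) (cp 4))) (n (n (n (n z (cp 2)) (cm 11)) (cm 1)) (cm 1))))⟩,
  ⟨1, 5040, 36, (n (n (n (n z (n (n z (n z (cm 9))) z)) (n (n (n z (n z (cp 8))) z) (n (n (n z (cp 10)) (cp 8)) z))) (n (n (n (n z (n z (cp 8))) z) (n (n (n z (cp 10)) z) z)) (n (n (n (n z (cm 19)) z) z) (cm 14)))) (n (n (n z (n (n z (cp 14)) z)) (n (n (n z (cm 21)) z) (cm 19))) (n (n (n (n z (cm 9)) z) (cm 13)) (cp 70))))⟩,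
  ⟨1, 6720, 36, (n (n (n (n z (n (n z (n z (cm 23))) z)) (n (n (n z (n z (cp 15))) z) (n (n (n z (cm 24)) (cp 8)) z))) (n (n (n (n z (n z (cm 12))) z) (n (n (n z (cp 80)) z) z)) (n (n (n (n z (cm 12)) z) z) (cm 14)))) (n (n (n z (n (n z (cp 7)) z)) (n (n (n z (cm 7)) z) (cp 15))) (n (n (n (n z (cp 11)) z) (cm 20)) z)))⟩,
  ⟨1, 13680, 36, (n (n (n (n z (n (n z (n z (cm 7))) z)) (n (n (n z (n z (cm 16))) z) (n (n (n z (cm 14)) (cp 114)) z))) (n (n (n (n z (n z (cm 22))) z) z) (n (n (n (n z (cp 19)) z) z) (cm 9)))) (n (n (n z (n (n z (cm 16)) z)) (n (n (n z (cm 7)) z) (cm 14))) (n (n (n (n z (cm 22)) z) (cp 19)) z)))⟩,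
  ⟨1, 2709570240, 36, (n (n (n (n z (n (n z (n z (cm 12855))) z)) (n (n (n z (n z (cm 186))) z) (n (n (n z (cp 405)) z) z))) (n (n (n (n z (n z (cp 1001))) z) z) (n (n (n (n z (cm 2526)) z) z) (cp 9295)))) (n (n (n z (n (n z (cp 49517)) z)) (n (n (n z (cm 7383)) z) (cm 6434))) (n (n (n (n z (cm 15870)) z) (cm 12102)) z)))⟩,
  ⟨1, 1278006832752, 36, (n (n (n (n z (n (n z (n z (cm 161419))) z)) (n (n (n z (n z (cp 1075394))) z) (n (n (n z (cm 139721)) z) z))) (n (n (n (n z (n z (cm 344603))) z) z) (n (n (n (n z (cm 263059)) z) z) (cp 202631)))) (n (n z (n (n (n z (cm 279811)) z) (cp 8268))) (n (n (n (n z (cp 20438)) z) (cm 55873)) z)))⟩,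
  ⟨1, 123942814839600, 36, (n (n (n (n z (n (n z (n z (cm 3004625))) z)) (n z (n (n (n z (cp 9604450)) z) z))) (n (n (n (n z (n z (cp 1942134))) z) z) (n (n (n (n z (cm 3794081)) z) z) (cm 1285000)))) (n (n z (n (n (n z (cp 43968)) z) (cm 2540595))) (n (n (n (n z (cp 876606)) z) (cp 1355970)) z)))⟩,
  ⟨1, 10576413347960400, 36, (n (n (n (n z (n (n z (n z (cp 1161674))) z)) z) (n (n (n (n z (n z (cm 22857415))) z) z) (n (n (n (n z (cp 16238318)) z) z) (cm 19600250)))) (n (n z (n (n (n z (cm 41591581)) z) (cp 19416354))) (n (n (n (n z (cp 91766606)) z) (cm 20738229)) z)))⟩,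
  ⟨1, 199035395773812936, 36, (n (n (n (n z (n (n z (n z (cm 33209258))) z)) z) (n (n (n (n z (n z (cp 82425423))) z) z) (n (n (n (n z (cm 1380197)) z) z) (cm 49517428)))) (n (n z (n (n (n z (cm 85659887)) z) (cp 361488426))) (n (n z (cm 125614181)) z)))⟩,
  ⟨1, 80844959129839776, 36, (n (n (n (n z (n (n z (n z (cp 22774983))) z)) z) (n (n (n (n z (n z (cm 60352409))) z) z) (n (n (n (n z (cm 80816006)) z) z) (cp 242281724)))) (n (n z (n (n (n z (cp 2529633)) z) z)) (n (n z (cm 96178286)) z)))⟩,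
  ⟨1, 919113048517858526592, 36, (n (n (n (n z (n (n z (n z (cm 10590923054))) z)) z) (n (n (n (n z (n z (cp 24317766168))) z) z) (n (n (n (n z (cm 5123594862)) z) z) z))) (n (n z (n (n (n z (cm 2433474374)) z) z)) (n (n z (cp 1066320881)) z)))⟩,
  ⟨1, 728086152160321069751424, 36, (n (n (n (n z (n (n z (n z (cm 65405569958))) z)) z) (n z (n (n (n (n z (cp 623760480241)) z) z) z))) (n (n z (n (n (n z (cp 9962198937)) z) z)) (n (n z (cm 28237257262)) z)))⟩,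
  ⟨1, 368871586720932905243272, 36, (n (n (n (n z (n (n z (n z (cp 4988524825))) z)) z) z) (n (n z (n (n (n z (cm 46280868930)) z) z)) (n (n z (cp 443525517894)) z)))⟩,
  ⟨1, 22059180000661261928568, 36, (n (n (n (n z (n (n z (n z (cp 111905973837))) z)) z) z) (n (n z (n (n (n z (cm 25155302728)) z) z)) z))⟩,
  ⟨1, 312, 45, (n (n z (n (n z (cp 26)) z)) (n z (cm 6)))⟩,
  ⟨1, 312, 53, (n (n z (n (n z (cp 26)) z)) (n z (cm 6)))⟩,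
  ⟨1, 360, 293, (n (n (n z (n (n z (cp 7)) z)) (n (n (n z (cm 8)) z) (cm 7))) (n (n (n (n z (cm 4)) z) (cm 5)) (cp 30)))⟩,
  ⟨1, 32760, 293, (n (n (n z (n (n z (cm 38)) z)) (n (n (n z (cp 273)) z) (cm 83))) (n (n (n (n z (cm 104)) z) (cp 52)) z))⟩,
  ⟨1, 424944, 293, (n (n (n z (n (n z (cm 207)) z)) (n z (cp 908))) (n (n (n (n z (cp 95)) z) (cm 311)) z))⟩,
  ⟨2, 25174527, 293, (n (n (n z (n (n z (cp 5281)) z)) z) (n (n (n (n z (cm 1742)) z) (cm 1725)) z))⟩,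
  ⟨65, 257417064, 293, (n z (n (n (n (n z (cm 734)) z) (cp 2708)) z))⟩,
  ⟨1, 240, 46, (n (n (n (n z (n z (cp 1))) z) (n (n (n z (cm 5)) z) z)) (n (n (n z (cm 3)) z) (cp 20)))⟩,
  ⟨1, 21840, 46, (n (n (n (n z (n z (cm 36))) z) (n (n (n z (cp 182)) z) z)) (n (n (n z (cm 1)) z) z))⟩,
  ⟨1, 6835920, 46, (n (n (n (n z (n z (cp 3130))) z) z) (n (n (n z (cm 1062)) z) z))⟩,
  ⟨1, 240, 54, (n (n (n (n z (n z (cp 1))) z) (n (n (n z (cm 5)) z) z)) (n (n (n z (cm 3)) z) (cp 20)))⟩,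
  ⟨1, 21840, 54, (n (n (n (n z (n z (cm 36))) z) (n (n (n z (cp 182)) z) z)) (n (n (n z (cm 1)) z) z))⟩,
  ⟨1, 6835920, 54, (n (n (n (n z (n z (cp 3130))) z) z) (n (n (n z (cm 1062)) z) z))⟩,
  ⟨1, 336, 102, (n (n (n (n z (n z (cp 28))) z) (n z (cm 6))) (n (n (n z (cm 5)) z) z))⟩,
  ⟨17, 3696, 102, (n (n z (n z (cm 6))) (n (n (n z (cp 22)) z) z))⟩,
  ⟨1, 312, 166, (n (n (n z (n (n z (cm 4)) z)) (n (n (n z (cm 4)) z) (cp 26))) (n (n z (cm 4)) (cm 4)))⟩,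
  ⟨1, 154440, 166, (n (n (n z (n (n z (cp 495)) z)) (n (n (n z (cm 102)) z) z)) (n (n z (cm 154)) (cp 27)))⟩,
  ⟨1, 5049, 166, (n (n z (n (n (n z (cm 0)) z) z)) (n (n z (cp 85)) (cm 17)))⟩,
  ⟨1, 10965, 166, (n (n z (n (n (n z (cp 129)) z) z)) (n z (cm 40)))⟩,
  ⟨1, 336, 60, (n (n (n (n z (n z (cm 7))) z) (n (n (n z (cp 28)) z) z)) (n (n (n z (cp 3)) z) (cm 8)))⟩,
  ⟨1, 236208, 60, (n (n (n (n z (n z (cp 12))) z) z) (n (n (n z (cm 196)) z) (cp 703)))⟩,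
  ⟨2, 529359, 60, (n (n (n (n z (n z (cp 753))) z) z) (n (n (n z (cm 234)) z) z))⟩,
  ⟨1, 240, 108, (n (n (n (n z (n z (cp 2))) z) (n (n (n z (cm 6)) z) z)) (n (n (n z (cm 5)) z) (cp 20)))⟩,
  ⟨1, 84240, 108, (n (n (n (n z (n z (cm 105))) z) (n (n (n z (cp 351)) z) z)) (n (n (n z (cm 1)) z) z))⟩,
  ⟨1, 20992608, 108, (n (n (n (n z (n z (cm 1554))) z) z) (n (n (n z (cp 4984)) z) z))⟩,
  ⟨1, 336, 172, (n (n (n z (n (n z (cm 7)) z)) (n (n (n z (cp 28)) z) z)) (n (n z (cp 3)) (cm 8)))⟩,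
  ⟨1, 236208, 172, (n (n (n z (n (n z (cp 12)) z)) z) (n (n z (cm 196)) (cp 703)))⟩,
  ⟨1, 35148594, 172, (n (n (n z (n (n z (cm 2819)) z)) z) (n (n z (cp 8333)) z))⟩,
  ⟨1, 312, 300, (n (n (n z (n (n z (cp 26)) z)) (n z (cm 6))) z)⟩,
  ⟨1, 240, 116, (n (n (n (n z (n z (cp 2))) z) (n (n (n z (cm 6)) z) z)) (n (n (n z (cm 5)) z) (cp 20)))⟩,
  ⟨1, 84240, 116, (n (n (n (n z (n z (cm 105))) z) (n (n (n z (cp 351)) z) z)) (n (n (n z (cm 1)) z) z))⟩,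
  ⟨1, 20992608, 116, (n (n (n (n z (n z (cm 1554))) z) z) (n (n (n z (cp 4984)) z) z))⟩,
  ⟨1, 336, 180, (n (n (n z (n (n z (cp 3)) z)) (n (n (n z (cm 8)) z) z)) (n (n z (cm 7)) (cp 28)))⟩,
  ⟨1, 236208, 180, (n (n (n z (n (n z (cm 196)) z)) (n (n (n z (cp 703)) z) z)) (n (n z (cp 12)) z))⟩,
  ⟨1, 35148594, 180, (n (n (n z (n (n z (cm 2819)) z)) z) (n (n z (cp 8333)) z))⟩,
  ⟨1, 312, 308, (n (n (n z (n (n z (cp 26)) z)) (n z (cm 6))) z)⟩,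
  ⟨1, 336, 228, (n (n (n z (n z (cm 6))) (n (n (n z (cp 28)) z) z)) (n z (cm 5)))⟩,
  ⟨17, 3696, 228, (n (n (n z (n z (cm 6))) z) (n z (cp 22)))⟩,
  ⟨1, 6, 303, (n (n (n z (cp 5)) z) (cm 0))⟩,
  ⟨1, 6, 311, (n (n (n z (cp 5)) z) (cm 0))⟩,
  ⟨1, 576, 423, (n (n z (cp 48)) (cm 10))⟩,
  ⟨1, 6, 125, (n (n z (cm 0)) (cp 3))⟩,
  ⟨7, 120, 317, (n (n (n z (cm 2)) z) (cp 10))⟩,
  ⟨1, 162, 365, (n (n (n z (cm 7)) z) (cp 27))⟩,
  ⟨1, 96, 429, (n (n z (cm 6)) (cp 24))⟩,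
  ⟨1, 162, 373, (n (n (n z (cm 7)) z) (cp 27))⟩,
  ⟨1, 96, 437, (n (n z (cm 6)) (cp 24))⟩,
  ⟨1, 60, 126, (n (n (n z (cp 10)) z) (cm 2))⟩,
  ⟨1, 1080, 190, (n (n (n z (cm 28)) z) (cp 90))⟩,
  ⟨4, 9, 238, (n (n (n z (cm 0)) z) (cp 3))⟩,
  ⟨4, 9, 246, (n (n (n z (cm 0)) z) (cp 3))⟩,
  ⟨1, 60, 252, (n (n (n z (cp 10)) z) (cm 2))⟩,
  ⟨1, 6, 380, (n (n (n z (cm 0)) (cp 3)) z)⟩]

theorem i17_2_5 : Ineq 10 can17 2 5 :=
  ineq_of_check (K := 203945982031283754777390108309785661776767220681770931004006465553590185399927947227034166692408764534992515199) (cs := q17_2_5) (by decide +kernel)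

def q17_2_6 : List Sq := [⟨1, 144, 68, (n (n (n (n z (n (n z (n z (cp 2))) (n (n z (cm 1)) z))) (n (n z (n z (cp 1))) (n (n (n z (cm 1)) (cm 3)) z))) (n (n z (n (n (n z (cm 2)) z) z)) (n (n z (cp 2)) (cp 12)))) (n (n (n z (n (n z (cp 2)) (cm 1))) (n z (cm 1))) (n (n z (cm 2)) z)))⟩,
  ⟨1, 144, 68, (n (n (n (n (n z (n z (n z (cm 0)))) (n (n z (n z (cm 1))) z)) (n (n (n z (n z (cp 12))) (n z (cm 0))) (n (n (n z (cm 1)) (cm 1)) z))) (n (n z (n (n (n z (cp 2)) z) z)) (n (n (n (n z (cm 1)) z) z) z))) (n (n (n (n z (n z (cp 1))) (n (n z (cp 1)) z)) (n (n (n z (cm 2)) z) (cp 1))) (n (n z (cm 0)) z)))⟩,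
  ⟨1, 5040, 68, (n (n (n (n (n z (n z (n z (cm 35)))) (n (n z (n z (cp 22))) (n (n z (cm 69)) z))) (n (n z (n z (cp 35))) (n (n (n z (cm 9)) (cp 10)) z))) (n (n z (n (n (n z (cm 2)) z) z)) (n (n (n (n z (cp 24)) z) (cp 70)) z))) (n (n (n (n z (n z (cm 35))) (n (n z (cp 22)) (cm 69))) (n z (cm 9))) (n (n z (cm 2)) (cp 24))))⟩,
  ⟨1, 960624, 68, (n (n (n (n (n z (n z (n z (cm 64)))) (n (n z (n z (cp 86))) z)) (n (n z (n z (cm 76))) (n (n (n z (cm 285)) (cm 21)) z))) (n (n z (n (n (n z (cp 22)) z) z)) (n (n (n (n z (cp 62)) z) z) z))) (n (n (n (n z (n z (cp 173))) (n (n z (cm 186)) z)) (n (n (n z (cm 146)) z) (cp 953))) (n (n z (cm 124)) (cm 287))))⟩,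
  ⟨1, 2791985040, 68, (n (n (n (n (n z (n z (n z (cm 33636)))) (n (n z (n z (cp 11164))) z)) (n (n z (n z (cp 4255))) (n (n (n z (cm 16869)) (cm 4229)) z))) (n (n z (n (n (n z (cm 7205)) z) z)) (n (n (n (n z (cp 48828)) z) z) z))) (n (n (n (n z (n z (cp 9958))) (n (n z (cm 4505)) z)) (n (n (n z (cm 1839)) z) z)) (n (n z (cp 484)) (cm 15001))))⟩,
  ⟨1, 78313276080, 68, (n (n (n (n (n z (n z (n z (cp 15332)))) (n (n z (n z (cp 14686))) z)) (n (n z (n z (cm 17392))) (n (n (n z (cm 3651)) (cm 2948)) z))) (n (n z (n (n (n z (cm 86801)) z) z)) z)) (n (n (n (n z (n z (cm 22567))) (n (n z (cm 62063)) z)) (n (n (n z (cp 37214)) z) z)) (n (n z (cp 267310)) (cm 54859))))⟩,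
  ⟨1, 9220482077520, 68, (n (n (n (n (n z (n z (n z (cp 74098)))) (n (n z (n z (cp 177084))) z)) (n (n z (n z (cm 336426))) (n (n (n z (cm 36827)) (cm 683520)) z))) (n (n z (n (n (n z (cm 5777)) z) z)) z)) (n (n (n (n z (n z (cm 60111))) (n (n z (cm 474505)) z)) (n (n (n z (cp 2874466)) z) z)) (n z (cm 624079))))⟩,
  ⟨1, 939850971467856, 68, (n (n (n (n (n z (n z (n z (cm 1864653)))) (n (n z (n z (cp 27247118))) z)) (n (n z (n z (cp 2381673))) (n (n (n z (cm 3859717)) (cm 5173200)) z))) (n (n z (n (n (n z (cm 4285041)) z) z)) z)) (n (n (n (n z (n z (cp 1303142))) (n (n z (cm 7625723)) z)) z) (n z (cp 113200))))⟩,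
  ⟨1, 68214467120733168, 68, (n (n (n (n (n z (n z (n z (cm 4191092)))) z) (n (n z (n z (cp 15651739))) (n (n (n z (cm 43603397)) (cm 40756175)) z))) (n (n z (n (n (n z (cm 25673197)) z) z)) z)) (n (n (n (n z (n z (cm 161270247))) (n (n z (cp 24071510)) z)) z) (n z (cp 208628998))))⟩,
  ⟨1, 4346566238059498800, 68, (n (n (n (n (n z (n z (n z (cm 168338225)))) z) (n (n z (n z (cm 192287792))) (n (n (n z (cp 1736162550)) (cm 364930234)) z))) (n (n z (n (n (n z (cm 446243699)) z) z)) z)) (n (n (n (n z (n z (cm 112386457))) (n (n z (cm 45822205)) z)) z) z))⟩,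
  ⟨1, 13843543488762240, 68, (n (n (n (n (n z (n z (n z (cm 25906490)))) z) (n (n z (n z (cm 5210357))) (n (n z (cm 7885143)) z))) (n (n z (n (n (n z (cp 99670560)) z) z)) z)) (n (n (n (n z (n z (cm 2998614))) (n (n z (cm 9163536)) z)) z) z))⟩,
  ⟨1, 139936619438922240, 68, (n (n (n (n (n z (n z (n z (cm 13678670)))) z) (n (n z (n z (cm 107547647))) (n (n z (cp 311998112)) z))) z) (n (n (n (n z (n z (cm 567306))) (n (n z (cm 101433912)) z)) z) z))⟩,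
  ⟨1, 84317910233004432268800, 68, (n (n (n (n (n z (n z (n z (cm 4758879552)))) z) (n (n z (n z (cm 6953738103))) z)) z) (n (n (n (n z (n z (cm 33869490308))) (n (n z (cp 225209456377)) z)) z) z))⟩,
  ⟨1, 30628974629870743708167648, 68, (n (n (n (n (n z (n z (n z (cm 535540514159)))) z) (n (n z (n z (cm 1555193621472))) z)) z) (n (n (n (n z (n z (cp 2833378528538))) z) z) z))⟩,
  ⟨1617649, 722478476250033132768, 68, (n (n (n (n (n z (n z (n z (cp 10624514)))) z) (n (n z (n z (cm 7190748))) z)) z) z)⟩,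
  ⟨1, 84, 77, (n (n (n z (n z (cm 3))) (n (n z (cp 14)) z)) (n z (cm 2)))⟩,
  ⟨1, 1092, 77, (n (n (n z (n z (cm 10))) z) (n z (cp 39)))⟩,
  ⟨1, 288, 85, (n (n z (n (n z (cm 10)) z)) (n z (cp 24)))⟩,
  ⟨1, 312, 101, (n (n z (n (n z (cp 26)) z)) (n z (cm 8)))⟩,
  ⟨1, 360, 325, (n (n (n (n z (n z (cp 7))) (n (n z (cm 5)) z)) (n (n (n z (cm 5)) z) (cp 30))) (n (n z (cm 5)) (cm 7)))⟩,
  ⟨1, 8640, 325, (n (n (n (n z (n z (cm 17))) (n (n z (cm 40)) z)) (n (n (n z (cp 144)) z) z)) (n (n z (cp 19)) (cm 32)))⟩,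
  ⟨1, 7041600, 325, (n (n (n (n z (n z (cm 305))) (n (n z (cm 1024)) z)) z) (n (n z (cp 4075)) (cm 824)))⟩,
  ⟨1, 1807344, 325, (n (n (n (n z (n z (cm 501))) (n (n z (cp 1848)) z)) z) (n z (cp 251)))⟩,
  ⟨1, 25927440, 325, (n (n (n (n z (n z (cm 4481))) z) z) (n z (cp 7015)))⟩,
  ⟨1, 312, 78, (n (n z (n (n (n z (cm 8)) z) z)) (n z (cp 26)))⟩,
  ⟨1, 60, 86, (n (n z (n (n (n z (cm 2)) z) z)) (n z (cp 10)))⟩,
  ⟨1, 264, 102, (n (n (n z (n (n z (cm 6)) z)) z) (n (n z (cp 22)) z))⟩,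
  ⟨1, 360, 198, (n (n (n z (n (n z (cm 7)) z)) (n (n (n z (cp 3)) z) (cm 4))) (n (n z (cp 30)) (cm 6)))⟩,
  ⟨1, 75240, 198, (n (n (n z (n (n z (cp 418)) z)) (n (n (n z (cm 92)) z) (cm 94))) (n z (cp 17)))⟩,
  ⟨1, 25740, 198, (n (n z (n (n (n z (cm 31)) z) (cp 195))) (n z (cm 31)))⟩,
  ⟨1, 2280308940, 198, (n (n z (n (n (n z (cm 16765)) z) z)) (n z (cp 51289)))⟩,
  ⟨1, 336, 92, (n (n (n (n z (n z (cm 9))) z) (n (n (n z (cp 3)) z) z)) (n (n (n z (cp 28)) z) (cm 7)))⟩,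
  ⟨1, 57456, 92, (n (n (n (n z (n z (cp 342))) z) (n (n (n z (cm 96)) z) z)) (n z (cp 2)))⟩,
  ⟨1, 19247760, 92, (n (n z (n (n (n z (cp 4690)) z) z)) (n z (cm 1402)))⟩,
  ⟨1, 240, 108, (n (n (n (n z (n z (cp 2))) (n (n z (cm 6)) z)) z) (n (n (n z (cm 5)) (cp 20)) z))⟩,
  ⟨1, 84240, 108, (n (n (n (n z (n z (cm 105))) (n (n z (cp 351)) z)) z) (n (n (n z (cm 1)) z) z))⟩,
  ⟨1, 18035784, 108, (n (n (n (n z (n z (cp 4282))) z) z) (n (n (n z (cm 1554)) z) z))⟩,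
  ⟨5, 18, 204, (n (n (n z (n (n z (cm 0)) z)) z) (n (n z (cp 3)) z))⟩,
  ⟨1, 84, 332, (n (n (n (n z (n z (cm 3))) (n (n z (cp 14)) z)) (n z (cm 2))) z)⟩,
  ⟨1, 1092, 332, (n (n (n (n z (n z (cm 10))) z) (n z (cp 39))) z)⟩,
  ⟨1, 336, 116, (n (n (n (n z (n z (cm 4))) (n z (cp 28))) (n z (cm 8))) (n (n (n z (cm 4)) z) z))⟩,
  ⟨1, 179760, 116, (n (n (n (n z (n z (cm 164))) z) (n z (cm 72))) (n (n (n z (cp 535)) z) z))⟩,
  ⟨1, 95016, 116, (n (n (n (n z (n z (cp 370))) z) (n z (cm 72))) z)⟩,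
  ⟨1, 336, 212, (n (n (n z (n (n z (cm 8)) z)) z) (n (n z (cp 28)) z))⟩,
  ⟨1, 288, 340, (n (n (n z (n (n z (cm 10)) z)) (n z (cp 24))) z)⟩,
  ⟨1, 96, 228, (n (n (n (n z (n z (cp 16))) z) z) (n (n (n z (cm 4)) z) z))⟩,
  ⟨1, 312, 356, (n (n (n z (n (n z (cp 26)) z)) (n z (cm 8))) z)⟩,
  ⟨1, 234, 455, (n (n z (cp 39)) (cm 9))⟩,
  ⟨1, 42, 125, (n (n z (cp 14)) (cm 2))⟩,
  ⟨1, 234, 349, (n (n (n z (cp 39)) z) (cm 9))⟩,
  ⟨1, 648, 365, (n (n (n z (cm 16)) (cp 54)) z)⟩,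
  ⟨1, 240, 126, (n (n (n z (cp 20)) z) (cm 6))⟩,
  ⟨1, 2, 222, (n (n (n z (cm 0)) z) (cp 3))⟩,
  ⟨1, 18, 238, (n (n (n z (cp 3)) z) (cm 0))⟩,
  ⟨1, 42, 246, (n (n (n z (cm 1)) (cm 2)) (cp 7))⟩,
  ⟨1, 5208, 246, (n (n (n z (cm 26)) (cp 124)) z)⟩,
  ⟨7, 18, 252, (n (n (n z (cp 3)) z) (cm 0))⟩,
  ⟨1, 42, 380, (n (n (n z (cp 14)) (cm 2)) z)⟩]

theorem i17_2_6 : Ineq 10 can17 2 6 :=
  ineq_of_check (K := 1301003268986611939804447610594526807697843769937210583302266036113510365559800289190251005649113599) (cs := q17_2_6) (by decide +kernel)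

end Pool.Agent.Lib.MP_c69b6d_co
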