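import Pool.Agent.Lib.MP_c69b6d_co.Dual
import Pool.Agent.Lib.MP_c69b6d_co.Bases4

namespace Pool.Agent.Lib.MP_c69b6d_co

open Matroid

structure Coords {α : Type} (M : Matroid α) (r : ℕ) (v : α → V4) : Prop where
  le : r ≤ 4
  rep : ∀ I ⊆ M.E, M.Indep I ↔ LinearIndepOn (ZMod 3) v I
  card : ∀ B, M.IsBase B → B.ncard = r
  unit : ∀ i : Fin 4, (i : ℕ) < r → ∃ e ∈ M.E, v e = Pi.single i 1
  zero : ∀ e ∈ M.E, ∀ i : Fin 4, r ≤ (i : ℕ) → v e i = 0

theorem exists_coords {α : Type} [Fintype α] {M : Matroid α} (hT : Ternary M)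
    (hr : M.eRank ≤ 4) : ∃ r v, Coords M r v := by
  classical
  have : Fact (Nat.Prime 3) := ⟨by norm_num⟩
  obtain ⟨n, v0, hv⟩ := hT
  obtain ⟨B0, hB0⟩ := M.exists_isBase
  lift B0 to Finset α using Set.toFinite B0
  have hr4 : B0.card ≤ 4 := by
    rw [← hB0.encard_eq_eRank, Set.encard_coe_eq_coe_finsetCard] at hr
    exact_mod_cast hr
  set r := B0.card
  let b : Fin r → α := fun i => (B0.equivFin.symm i : α)
  have hb : Function.Injective b := fun i j h => B0.equivFin.symm.injective (Subtype.ext h)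
  have hrange : Set.range b = B0 := by
    ext x
    exact ⟨fun ⟨i, hi⟩ => hi ▸ (B0.equivFin.symm i).2,
      fun hx => ⟨B0.equivFin ⟨x, hx⟩, by simp [b]⟩⟩
  have hli : LinearIndependent (ZMod 3) (v0 ∘ b) := by
    rw [← linearIndepOn_range_iff hb, hrange]
    exact (hv _ hB0.subset_ground).1 hB0.indep
  have hex : ∀ e, ∃ c : Fin r → ZMod 3, e ∈ M.E → ∑ i, c i • v0 (b i) = v0 e := by
    intro e
    by_cases he : e ∈ M.E
    · have := mem_span_base hv hB0.isBasis_ground he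
      rw [← hrange, ← Set.range_comp, Submodule.mem_span_range_iff_exists_fun] at this
      obtain ⟨c, hc⟩ := this
      exact ⟨c, fun _ => hc⟩
    · exact ⟨0, fun h => absurd h he⟩
  choose c hc using hex
  let T : V4 →ₗ[ZMod 3] (Fin n → ZMod 3) :=
    Fintype.linearCombination (ZMod 3) (v0 ∘ b) ∘ₗ LinearMap.funLeft _ _ (Fin.castLE hr4)
  let v : α → V4 := fun e j => if h : (j : ℕ) < r then c e ⟨j, h⟩ else 0
  have hT : ∀ x, T x = ∑ i, x (Fin.castLE hr4 i) • v0 (b i) := fun x => by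
    simp [T, Fintype.linearCombination_apply]
  have hTv : ∀ e ∈ M.E, T (v e) = v0 e := fun e he => by
    rw [hT, ← hc e he]
    simp [v]
  have hz : ∀ e, ∀ i : Fin 4, r ≤ (i : ℕ) → v e i = 0 := fun e i hi => dif_neg (by omega)
  have hinj : ∀ x : V4, (∀ i : Fin 4, r ≤ (i : ℕ) → x i = 0) → T x = 0 → x = 0 := by
    intro x hx h0
    rw [hT] at h0
    have := Fintype.linearIndependent_iff.1 hli _ h0
    funext j
    by_cases hj : (j : ℕ) < r
    · exact this ⟨j, hj⟩
    · exact hx j (by omega)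
  refine ⟨r, v, hr4, fun I hI => ?_, fun B hB => ?_, fun i hi => ?_, fun e _ => hz e⟩
  · rw [hv I hI, ← LinearMap.linearIndepOn_iff_of_injOn T]
    · exact linearIndepOn_congr fun e he => (hTv e (hI he)).symm
    · have hs : ∀ x ∈ Submodule.span (ZMod 3) (v '' I), ∀ i : Fin 4, r ≤ (i : ℕ) → x i = 0 := by
        intro x hx i hi
        refine (Submodule.span_le (p := LinearMap.ker (LinearMap.proj i))).2 ?_ hx
        rintro _ ⟨e, -, rfl⟩
        exact hz e i hi
      intro x hx y hy hxy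
      rw [← sub_eq_zero]
      exact hinj _ (hs _ (Submodule.sub_mem _ hx hy)) (by rw [map_sub, hxy, sub_self])
  · rw [hB.ncard_eq_ncard_of_isBase hB0, Set.ncard_coe_finset]
  · have he : b ⟨i, hi⟩ ∈ M.E := hB0.subset_ground (hrange ▸ Set.mem_range_self _)
    refine ⟨_, he, ?_⟩
    rw [← sub_eq_zero]
    refine hinj _ (fun j hj => ?_) ?_
    · have : j ≠ i := fun h => by subst h; omega
      simp [hz _ j hj, this]
    · rw [map_sub, hTv _ he, hT, Finset.sum_eq_single ⟨i, hi⟩]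
      · simp
      · intro j _ hj
        have : Fin.castLE hr4 j ≠ i := fun h => hj (Fin.ext (by simpa using congrArg Fin.val h))
        simp [this]
      · simp

theorem indep_pm {β γ V : Type} [AddCommGroup V] [Module (ZMod 3) V] {w : β → V} {u : γ → V}
    {φ : β → γ} {I : Set β} (h : ∀ e ∈ I, w e = u (φ e) ∨ w e = -u (φ e)) :
    LinearIndepOn (ZMod 3) w I ↔ Set.InjOn φ I ∧ LinearIndepOn (ZMod 3) u (φ '' I) := by
  have : Fact (Nat.Prime 3) := ⟨by norm_num⟩
  have h1 : ∀ e : I, ∃ s : (ZMod 3)ˣ, w e = s • u (φ e) := fun e => by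
    rcases h e e.2 with h | h
    · exact ⟨1, by simp [h]⟩
    · exact ⟨-1, by simp [h]⟩
  choose s hs using h1
  have h2 : LinearIndepOn (ZMod 3) w I ↔ LinearIndepOn (ZMod 3) (u ∘ φ) I := by
    have e : (fun x : I => w x) = s • (fun x : I => (u ∘ φ) x) := funext hs
    rw [LinearIndepOn, LinearIndepOn, e, LinearIndependent.units_smul_iff]
  rw [h2]
  exact ⟨fun h => ⟨h.injOn.of_comp, h.image_of_comp _ _⟩, fun h => h.2.comp_of_image h.1⟩

theorem rayleigh_of_leaf {α : Type} [Fintype α] {M : Matroid α} {r : ℕ} {v : α → V4}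
    (hc : Coords M r v) {X : List ℕ} (hN : (basesOf X).Nodup)
    (hA : AllIneq X.length (basesOf X) X.length) (h : V4 ≃ₗ[ZMod 3] V4)
    (h1 : ∀ e ∈ M.E, v e = 0 ∨ ∃ t ∈ X, v e = h (dec t) ∨ v e = -h (dec t))
    (h2 : ∀ i : Fin 4, r ≤ (i : ℕ) → ∃ t ∈ X, Pi.single i 1 = h (dec t) ∨
      Pi.single i 1 = -h (dec t)) : Rayleigh M := by
  classical
  have : Fact (Nat.Prime 3) := ⟨by norm_num⟩
  let u : ℕ → V4 := fun j => h (dec (X.getD j 0))
  have hidx : ∀ x : V4, (∃ t ∈ X, x = h (dec t) ∨ x = -h (dec t)) →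
      ∃ j < X.length, x = u j ∨ x = -u j := by
    rintro x ⟨t, ht, hx⟩
    obtain ⟨j, hj, rfl⟩ := List.getElem_of_mem ht
    exact ⟨j, hj, by simpa only [u, List.getD_eq_getElem _ _ hj] using hx⟩
  have h3 : ∀ e, ∃ j, e ∈ M.E → v e ≠ 0 → j < X.length ∧ (v e = u j ∨ v e = -u j) := by
    intro e
    by_cases he : e ∈ M.E ∧ v e ≠ 0
    · obtain ⟨j, hj⟩ := hidx _ ((h1 e he.1).resolve_left he.2)
      exact ⟨j, fun _ _ => hj⟩
    · exact ⟨0, fun h3 h4 => absurd ⟨h3, h4⟩ he⟩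
  have h4 : ∀ i : Fin 4, ∃ j, r ≤ (i : ℕ) → j < X.length ∧
      ((Pi.single i 1 : V4) = u j ∨ (Pi.single i 1 : V4) = -u j) := by
    intro i
    by_cases hi : r ≤ (i : ℕ)
    · obtain ⟨j, hj⟩ := hidx _ (h2 i hi)
      exact ⟨j, fun _ => hj⟩
    · exact ⟨0, fun h => absurd h hi⟩
  choose φ hφ using h3
  choose ψ hψ using h4
  let E0 : Finset α := Finset.univ.filter (fun e => e ∈ M.E ∧ v e ≠ 0)
  let R : Finset (Fin 4) := Finset.univ.filter (fun i => r ≤ (i : ℕ))
  have hE0 : ∀ e, e ∈ E0 ↔ e ∈ M.E ∧ v e ≠ 0 := fun e => by simp [E0]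
  have hR : ∀ i, i ∈ R ↔ r ≤ (i : ℕ) := fun i => by simp [R]
  have hRc : r + R.card = 4 := by
    have : ∀ r ≤ 4, r + (Finset.univ.filter (fun i : Fin 4 => r ≤ (i : ℕ))).card = 4 := by decide
    exact this r hc.le
  have hRi := (indep_pm (w := fun i : Fin 4 => (Pi.single i 1 : V4)) (u := u) (φ := ψ)
    (I := (R : Set (Fin 4))) (fun i hi => (hψ i ((hR i).1 hi)).2)).1
    ((Pi.linearIndependent_single_one (Fin 4) (ZMod 3)).linearIndepOn _)
  have hz1 : ∀ e ∈ E0, ∀ i : Fin 4, r ≤ (i : ℕ) → u (φ e) i = 0 := by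
    intro e he i hi
    have h5 := hc.zero e ((hE0 e).1 he).1 i hi
    rcases (hφ e ((hE0 e).1 he).1 ((hE0 e).1 he).2).2 with h | h
    · rwa [h] at h5
    · simpa [h] using h5
  have hz2 : ∀ i ∈ R, ∀ k : Fin 4, k ≠ i → u (ψ i) k = 0 := by
    intro i hi k hk
    rcases (hψ i ((hR i).1 hi)).2 with h | h
    · rw [← h]; simp [hk]
    · have := congrFun h k
      simpa [hk] using this
  have hnm : ∀ e ∈ E0, φ e ∉ R.image ψ := by
    intro e he hm
    obtain ⟨i, hi, hie⟩ := Finset.mem_image.1 hm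
    have h5 := hz1 e he i ((hR i).1 hi)
    rw [← hie] at h5
    rcases (hψ i ((hR i).1 hi)).2 with h | h <;> simpa [h5] using congrFun h i
  have hu : ∀ Y : Set ℕ, LinearIndepOn (ZMod 3) (fun i => dec (X.getD i 0)) Y ↔
      LinearIndepOn (ZMod 3) u Y := fun Y =>
    (LinearMap.linearIndepOn_iff_of_injOn h.toLinearMap h.injective.injOn).symm
  have key : ∀ B : Finset α, B ⊆ E0 → Set.InjOn φ (B : Set α) →
      ((∃ S ∈ basesOf X, ∀ i, S.testBit i = true ↔ ((∃ e ∈ B, φ e = i) ∨ i ∈ R.image ψ)) ↔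
        B.card = r ∧ LinearIndepOn (ZMod 3) u (φ '' B)) := by
    intro B hB hinj
    have hd : Disjoint (B.image φ) (R.image ψ) := Finset.disjoint_left.2 fun j hj => by
      obtain ⟨e, he, rfl⟩ := Finset.mem_image.1 hj
      exact hnm e (hB he)
    have h5 := basesOf_iff X (B.image φ ∪ R.image ψ) (fun j hj => by
      rcases Finset.mem_union.1 hj with hj | hj
      · obtain ⟨e, he, rfl⟩ := Finset.mem_image.1 hj
        exact (hφ e ((hE0 e).1 (hB he)).1 ((hE0 e).1 (hB he)).2).1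
      · obtain ⟨i, hi, rfl⟩ := Finset.mem_image.1 hj
        exact (hψ i ((hR i).1 hi)).1)
    simp only [Finset.mem_union, Finset.mem_image (s := B)] at h5
    rw [h5, Finset.card_union_of_disjoint hd, Finset.card_image_of_injOn hinj,
      Finset.card_image_of_injOn hRi.1, hu, Finset.coe_union,
      linearIndepOn_union_iff (Finset.disjoint_coe.2 hd), Finset.coe_image, Finset.coe_image,
      and_iff_right hRi.2]
    refine and_congr (by omega) (and_iff_left ?_)
    · rw [Submodule.disjoint_def]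
      intro x hx1 hx2
      funext k
      by_cases hk : r ≤ (k : ℕ)
      · refine (Submodule.span_le (p := LinearMap.ker (LinearMap.proj k))).2 ?_ hx1
        rintro _ ⟨_, ⟨e, he, rfl⟩, rfl⟩
        exact hz1 e (hB he) k hk
      · refine (Submodule.span_le (p := LinearMap.ker (LinearMap.proj k))).2 ?_ hx2
        rintro _ ⟨_, ⟨i, hi, rfl⟩, rfl⟩
        exact hz2 i hi k (fun h => hk (h ▸ (hR i).1 hi))
  have hpm : ∀ B : Finset α, B ⊆ E0 → (LinearIndepOn (ZMod 3) v B ↔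
      Set.InjOn φ (B : Set α) ∧ LinearIndepOn (ZMod 3) u (φ '' B)) := fun B hB =>
    indep_pm fun e he => (hφ e ((hE0 e).1 (hB he)).1 ((hE0 e).1 (hB he)).2).2
  refine rayleigh_of_push (E0 := E0) (φ := φ) (J := R.image ψ) ⟨hN, fun S => basesOf_bound,
    fun e he => (hφ e ((hE0 e).1 he).1 ((hE0 e).1 he).2).1, hnm, fun j hj => ?_, fun B => ?_⟩ hA
  · obtain ⟨i, hi, rfl⟩ := Finset.mem_image.1 hj
    exact (hψ i ((hR i).1 hi)).1
  · constructor
    · intro hB
      have h5 := (hc.rep _ hB.subset_ground).1 hB.indep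
      have h6 : B ⊆ E0 := fun e he => (hE0 e).2 ⟨hB.subset_ground he, h5.ne_zero he⟩
      obtain ⟨h7, h8⟩ := (hpm B h6).1 h5
      exact ⟨h6, h7, (key B h6 h7).2 ⟨by rw [← hc.card _ hB, Set.ncard_coe_finset], h8⟩⟩
    · rintro ⟨h6, h7, h8⟩
      obtain ⟨h9, h10⟩ := (key B h6 h7).1 h8
      have h5 := (hc.rep B fun e he => ((hE0 e).1 (h6 he)).1).2 ((hpm B h6).2 ⟨h7, h10⟩)
      obtain ⟨B', hB', hBB⟩ := h5.exists_isBase_superset
      rwa [Set.eq_of_subset_of_ncard_le hBB (by rw [hc.card _ hB', Set.ncard_coe_finset, h9])]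

/-- `M` has a restriction isomorphic to the vector matroid of `A`. -/
def HasCopy {α : Type} (M : Matroid α) (A : List (List ℕ)) : Prop :=
  ∃ φ : Fin A.length → α, Function.Injective φ ∧ Set.range φ ⊆ M.E ∧
    ∀ I, M.Indep (φ '' I) ↔ LinearIndepOn (ZMod 3) (cols A) I

theorem hasCopy_of_bad {α : Type} {M : Matroid α} {v : α → V4}
    (hv : ∀ I ⊆ M.E, M.Indep I ↔ LinearIndepOn (ZMod 3) v I) {A : List (List ℕ)} {c : List ℕ}
    (hl : ∀ k : Fin A.length, c.getD k 0 ∈ c)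
    (hc : ∀ k : Fin A.length, (∀ j : Fin 4, cols A k j.castSucc = dec (c.getD k 0) j) ∧
      cols A k (Fin.last 4) = 0)
    (hne : ∀ k k' : Fin A.length, (dec (c.getD k 0) = dec (c.getD k' 0) ∨
      dec (c.getD k 0) = -dec (c.getD k' 0)) → k = k')
    (g : V4 ≃ₗ[ZMod 3] V4) (h : ∀ a ∈ c, ∃ e ∈ M.E, g (v e) = dec a ∨ g (v e) = -dec a) :
    HasCopy M A := by
  have : Fact (Nat.Prime 3) := ⟨by norm_num⟩
  choose φ hφE hφ using fun k : Fin A.length => h _ (hl k)
  have hinj : Function.Injective φ := by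
    intro k k' hk
    have h1 := hφ k
    have h2 := hφ k'
    rw [← hk] at h2
    refine hne k k' ?_
    rcases h1 with h1 | h1 <;> rcases h2 with h2 | h2
    · exact Or.inl (h1.symm.trans h2)
    · exact Or.inr (h1.symm.trans h2)
    · exact Or.inr (by rw [← h2, h1, neg_neg])
    · exact Or.inl (neg_injective (h1.symm.trans h2))
  refine ⟨φ, hinj, Set.range_subset_iff.2 hφE, fun I => ?_⟩
  let P : (Fin 5 → ZMod 3) →ₗ[ZMod 3] V4 := LinearMap.funLeft _ _ Fin.castSucc
  have e1 : LinearIndepOn (ZMod 3) (cols A) I ↔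
      LinearIndepOn (ZMod 3) (fun k : Fin A.length => dec (c.getD k 0)) I := by
    rw [← LinearMap.linearIndepOn_iff_of_injOn P]
    · exact linearIndepOn_congr fun k _ => funext fun j => (hc k).1 j
    · have hs : ∀ x ∈ Submodule.span (ZMod 3) (cols A '' I), x (Fin.last 4) = 0 := by
        intro x hx
        refine (Submodule.span_le (p := LinearMap.ker (LinearMap.proj (Fin.last 4)))).2 ?_ hx
        rintro _ ⟨k, -, rfl⟩
        exact (hc k).2
      intro x hx y hy hxy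
      funext j
      refine Fin.lastCases ?_ (fun j => congrFun hxy j) j
      rw [hs x hx, hs y hy]
  rw [hv _ (by rintro _ ⟨k, -, rfl⟩; exact hφE k), e1,
    ← LinearMap.linearIndepOn_iff_of_injOn g.toLinearMap g.injective.injOn,
    indep_pm (u := g.toLinearMap ∘ v) (φ := φ) (fun k _ => ?_), and_iff_right hinj.injOn]
  rcases hφ k with h | h
  · exact Or.inl h.symm
  · exact Or.inr (by simp [h])

end Pool.Agent.Lib.MP_c69b6d_co
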