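import Pool.Agent.Lib.MP_c69b6d_co.Poly

namespace Pool.Agent.Lib.MP_c69b6d_co

open Finset

/-- weight of a bit mask, function form. -/
def wf {R : Type} [CommSemiring R] (d : ℕ) (y z : ℕ → R) (S : ℕ) : R :=
  ∏ i ∈ range d, if S.testBit i then y i else z i

def smf {R : Type} [CommSemiring R] (d : ℕ) (y z : ℕ → R) (L : List ℕ) : R :=
  (L.map (wf d y z)).sum

def IneqF (d : ℕ) (L : List ℕ) (e f : ℕ) : Prop :=
  ∀ y z : ℕ → ℝ, (∀ i, 0 ≤ y i) → (∀ i, 0 ≤ z i) →
    smf d y z (sel L e f true true) * smf d y z (sel L e f false false) ≤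
      smf d y z (sel L e f true false) * smf d y z (sel L e f false true)

theorem wl_eq (d : ℕ) (y z : ℕ → ℝ) (S : ℕ) :
    wl ((List.range d).map (fun i => (y i, z i))) S = wf d y z S := by
  induction d generalizing y z S with
  | zero => simp [wl, wf]
  | succ d ih =>
    rw [List.range_succ_eq_map, List.map_cons, List.map_map, wl, wf, prod_range_succ']
    have := ih (fun i => y (i + 1)) (fun i => z (i + 1)) (S / 2)
    rw [show ((fun i => (y i, z i)) ∘ Nat.succ) = (fun i => (y (i + 1), z (i + 1))) from rfl, this,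
      wf, mul_comm]
    simp [Nat.testBit_succ, Nat.testBit_zero]

theorem IneqF_of_Ineq {d : ℕ} {L : List ℕ} {e f : ℕ} (h : Ineq d L e f) : IneqF d L e f := by
  intro y z hy hz
  have := h ((List.range d).map (fun i => (y i, z i))) (by simp) (by
    intro w hw
    obtain ⟨i, -, rfl⟩ := List.mem_map.1 hw
    exact ⟨hy i, hz i⟩)
  have hh : wl ((List.range d).map (fun i => (y i, z i))) = wf d y z := funext (wl_eq d y z)
  simpa only [sm, hh, smf] using this

theorem sel_swap (L : List ℕ) (e f : ℕ) (p q : Bool) : sel L e f p q = sel L f e q p := by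
  unfold sel
  congr 1
  funext S
  rw [Bool.and_comm]

theorem IneqF.symm {d : ℕ} {L : List ℕ} {e f : ℕ} (h : IneqF d L e f) : IneqF d L f e := by
  intro y z hy hz
  have := h y z hy hz
  rw [sel_swap L f e true true, sel_swap L f e false false, sel_swap L f e true false,
    sel_swap L f e false true, mul_comm (smf d y z (sel L e f false true))]
  exact this

def phi : List ℕ → ℕ → ℕ → ℕ
  | [] => fun _ _ => 0
  | p :: π => fun F S => cond (xor (S.testBit p) (F.testBit 0)) 1 0 + 2 * phi π (F / 2) S

theorem testBit_phi (π : List ℕ) (F S j : ℕ) (hj : j < π.length) :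
    (phi π F S).testBit j = xor (S.testBit (π.getD j 0)) (F.testBit j) := by
  induction π generalizing F j with
  | nil => simp at hj
  | cons p π ih =>
    cases j with
    | zero =>
      simp only [phi, List.getD_cons_zero]
      generalize xor (S.testBit p) (F.testBit 0) = b
      cases b <;> simp [Nat.testBit_zero, Nat.add_mod]
    | succ j =>
      have : (cond (xor (S.testBit p) (F.testBit 0)) 1 0 + 2 * phi π (F / 2) S) / 2 =
          phi π (F / 2) S := by
        generalize xor (S.testBit p) (F.testBit 0) = b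
        cases b <;> simp <;> omega
      simp only [phi, List.getD_cons_succ, Nat.testBit_succ, this]
      exact ih _ _ (by simpa using hj)

theorem prod_perm {d : ℕ} {π : List ℕ} (hπ : π.Perm (List.range d)) (g : ℕ → ℝ) :
    ∏ i ∈ range d, g i = ∏ j ∈ range d, g (π.getD j 0) := by
  have hl : π.length = d := by simpa using hπ.length_eq
  have h1 : ∀ g : ℕ → ℝ, ∏ i ∈ range d, g i = ((List.range d).map g).prod := by
    intro g
    rw [← List.prod_toFinset g List.nodup_range]
    congr 1
    ext; simp
  have h2 : (List.range d).map (fun j => g (π.getD j 0)) = π.map g := by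
    apply List.ext_getElem
    · simp [hl]
    · intro i h1 h2
      have : i < π.length := by simpa using h2
      simp [List.getD_eq_getElem?_getD, this]
  rw [h1, h1, h2]
  exact (hπ.map g).prod_eq.symm

theorem transfer {d : ℕ} {L L' π : List ℕ} {F a b : ℕ} (hπ : π.Perm (List.range d))
    (hL : (L.map (phi π F)).Perm L') (ha : a < d) (hb : b < d)
    (hF : F.testBit a = F.testBit b) (h : IneqF d L' a b) :
    IneqF d L (π.getD a 0) (π.getD b 0) := by
  have hl : π.length = d := by simpa using hπ.length_eq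
  intro y z hy hz
  set y' : ℕ → ℝ := fun j => if F.testBit j then z (π.getD j 0) else y (π.getD j 0) with hy'
  set z' : ℕ → ℝ := fun j => if F.testBit j then y (π.getD j 0) else z (π.getD j 0) with hz'
  have hw : ∀ S, wf d y' z' (phi π F S) = wf d y z S := by
    intro S
    unfold wf
    rw [prod_perm hπ (fun i => if S.testBit i then y i else z i)]
    refine prod_congr rfl fun j hj => ?_
    rw [testBit_phi _ _ _ _ (by simpa [hl] using hj)]
    simp only [hy', hz']
    cases S.testBit (π.getD j 0) <;> cases F.testBit j <;> simp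
  have hs : ∀ p q : Bool, smf d y z (sel L (π.getD a 0) (π.getD b 0) p q) =
      smf d y' z' (sel L' a b (xor p (F.testBit a)) (xor q (F.testBit a))) := by
    intro p q
    unfold smf sel
    rw [← ((hL.filter _).map _).sum_eq, List.filter_map, List.map_map]
    have : wf d y' z' ∘ phi π F = wf d y z := funext hw
    rw [this]
    congr 3
    funext S
    simp only [Function.comp, testBit_phi _ _ _ _ (hl ▸ ha), testBit_phi _ _ _ _ (hl ▸ hb), ← hF]
    cases S.testBit (π.getD a 0) <;> cases S.testBit (π.getD b 0) <;> cases F.testBit a <;>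
      cases p <;> cases q <;> rfl
  have := h y' z' (fun i => by simp only [hy']; split_ifs <;> simp [hy, hz])
    (fun i => by simp only [hz']; split_ifs <;> simp [hy, hz])
  rw [hs, hs, hs, hs]
  cases F.testBit a
  · simpa using this
  · simp only [Bool.xor_true, Bool.not_true, Bool.not_false]
    rw [mul_comm, mul_comm (smf d y' z' (sel L' a b false true))]
    exact this

def AllIneq (d : ℕ) (L : List ℕ) (m : ℕ) : Prop :=
  ∀ a < m, ∀ b < m, a ≠ b → IneqF d L a b

def cover (d : ℕ) (L : List ℕ) (m : ℕ) (prim : List (ℕ × ℕ)) (auts : List (List ℕ)) : Bool :=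
  auts.all (fun π => π.isPerm (List.range d) && (L.map (phi π 0)).isPerm L) &&
  prim.all (fun p => decide (p.1 < d) && decide (p.2 < d)) &&
  (List.range m).all (fun a => (List.range a).all (fun b => auts.any (fun π => prim.any (fun p =>
    (π.getD p.1 0 == a && π.getD p.2 0 == b) || (π.getD p.1 0 == b && π.getD p.2 0 == a)))))

theorem allIneq_of_cover {d : ℕ} {L : List ℕ} {m : ℕ} {prim : List (ℕ × ℕ)}
    {auts : List (List ℕ)} (h : cover d L m prim auts = true)
    (hp : prim.Forall (fun p => Ineq d L p.1 p.2)) : AllIneq d L m := by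
  rw [List.forall_iff_forall_mem] at hp
  simp only [cover, Bool.and_eq_true, List.all_eq_true, List.any_eq_true, List.isPerm_iff,
    decide_eq_true_eq, List.mem_range, Bool.or_eq_true, beq_iff_eq] at h
  obtain ⟨⟨h1, h2⟩, h3⟩ := h
  have key : ∀ a < m, ∀ b < a, IneqF d L a b := by
    intro a ha b hb
    obtain ⟨π, hπ, p, hpp, hh⟩ := h3 a ha b hb
    have := transfer (h1 π hπ).1 (h1 π hπ).2 (h2 p hpp).1 (h2 p hpp).2 (by simp)
      (IneqF_of_Ineq (hp p hpp))
    rcases hh with ⟨e1, e2⟩ | ⟨e1, e2⟩
    · rwa [e1, e2] at this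
    · rw [e1, e2] at this; exact this.symm
  intro a ha b hb hab
  rcases lt_or_gt_of_ne hab with h | h
  · exact (key b hb a h).symm
  · exact key a ha b h

/-- the members of `L` whose bit `g` is `p`. -/
def fam (L : List ℕ) (g : ℕ) (p : Bool) : List ℕ := L.filter (fun S => S.testBit g == p)

def MinorIneq (d : ℕ) (L : List ℕ) (n g : ℕ) (p : Bool) : Prop :=
  ∀ e < n, ∀ f < n, e ≠ g → f ≠ g → e ≠ f → IneqF d (fam L g p) e f

def tcheck (d : ℕ) (L : List ℕ) (n g : ℕ) (p : Bool) (L' : List ℕ) (m : ℕ) (π : List ℕ) (F : ℕ) :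
    Bool :=
  π.isPerm (List.range d) && ((fam L g p).map (phi π F)).isPerm L' && decide (m ≤ d) &&
  (List.range m).all (fun a => F.testBit a == F.testBit 0) &&
  (List.range n).all (fun e => e == g || (List.range m).any (fun a => π.getD a 0 == e))

theorem minorIneq_of_tcheck {d : ℕ} {L : List ℕ} {n g : ℕ} {p : Bool} {L' : List ℕ} {m : ℕ}
    {π : List ℕ} {F : ℕ} (h : tcheck d L n g p L' m π F = true) (h' : AllIneq d L' m) :
    MinorIneq d L n g p := by
  simp only [tcheck, Bool.and_eq_true, List.all_eq_true, List.any_eq_true, List.isPerm_iff,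
    decide_eq_true_eq, List.mem_range, Bool.or_eq_true, beq_iff_eq] at h
  obtain ⟨⟨⟨⟨h1, h2⟩, h3⟩, h4⟩, h5⟩ := h
  intro e he f hf heg hfg hef
  obtain ⟨a, ha, rfl⟩ := (h5 e he).resolve_left heg
  obtain ⟨b, hb, rfl⟩ := (h5 f hf).resolve_left hfg
  exact transfer h1 h2 (by omega) (by omega) ((h4 a ha).trans (h4 b hb).symm)
    (h' a ha b hb (fun h => hef (by rw [h])))

end Pool.Agent.Lib.MP_c69b6d_co
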