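import Pool.Agent.Lib.MP_c69b6d_co.Cert9
import Pool.Agent.Lib.MP_c69b6d_co.Transfer

namespace Pool.Agent.Lib.MP_c69b6d_co

set_option maxRecDepth 100000

theorem all0 : AllIneq 10 can0 7 :=
  allIneq_of_cover (prim := [(0, 1), (0, 2), (0, 4), (0, 5), (0, 6), (1, 3), (1, 6)]) (auts := [[0, 1, 2, 3, 4, 5, 6, 7, 8, 9], [0, 3, 2, 1, 4, 5, 6, 7, 8, 9], [2, 3, 0, 1, 5, 4, 6, 7, 8, 9], [2, 1, 0, 3, 5, 4, 6, 7, 8, 9], [4, 1, 5, 3, 0, 2, 6, 7, 8, 9], [4, 3, 5, 1, 0, 2, 6, 7, 8, 9], [5, 1, 4, 3, 2, 0, 6, 7, 8, 9], [5, 3, 4, 1, 2, 0, 6, 7, 8, 9]])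
    (by decide +kernel) ⟨i0_0_1, i0_0_2, i0_0_4, i0_0_5, i0_0_6, i0_1_3, i0_1_6⟩

theorem all1 : AllIneq 10 can1 7 :=
  allIneq_of_cover (prim := [(0, 1), (0, 2), (0, 3), (0, 4), (0, 5), (1, 2), (1, 3), (2, 3), (2, 4), (3, 6)]) (auts := [[0, 1, 2, 3, 4, 5, 6, 7, 8, 9], [5, 1, 4, 3, 2, 0, 6, 7, 8, 9], [0, 1, 2, 6, 4, 5, 3, 7, 8, 9], [5, 1, 4, 6, 2, 0, 3, 7, 8, 9]])
    (by decide +kernel) ⟨i1_0_1, i1_0_2, i1_0_3, i1_0_4, i1_0_5, i1_1_2, i1_1_3, i1_2_3, i1_2_4, i1_3_6⟩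

theorem all2 : AllIneq 10 can2 7 :=
  allIneq_of_cover (prim := [(0, 1), (0, 3), (0, 6)]) (auts := [[0, 1, 2, 3, 4, 5, 6, 7, 8, 9], [0, 2, 1, 3, 5, 4, 6, 7, 8, 9], [0, 4, 2, 3, 1, 5, 6, 7, 8, 9], [0, 5, 1, 3, 2, 4, 6, 7, 8, 9], [1, 2, 0, 4, 5, 3, 6, 7, 8, 9], [1, 3, 2, 4, 0, 5, 6, 7, 8, 9], [1, 5, 0, 4, 2, 3, 6, 7, 8, 9], [2, 3, 1, 5, 0, 4, 6, 7, 8, 9], [2, 4, 0, 5, 1, 3, 6, 7, 8, 9], [3, 4, 2, 0, 1, 5, 6, 7, 8, 9], [3, 5, 1, 0, 2, 4, 6, 7, 8, 9], [4, 5, 0, 1, 2, 3, 6, 7, 8, 9], [1, 0, 2, 4, 3, 5, 6, 7, 8, 9], [2, 0, 1, 5, 3, 4, 6, 7, 8, 9], [3, 1, 2, 0, 4, 5, 6, 7, 8, 9], [4, 0, 2, 1, 3, 5, 6, 7, 8, 9], [5, 0, 1, 2, 3, 4, 6, 7, 8, 9]])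
    (by decide +kernel) ⟨i2_0_1, i2_0_3, i2_0_6⟩

theorem all3 : AllIneq 10 can3 7 :=
  allIneq_of_cover (prim := [(0, 1), (0, 2), (2, 3)]) (auts := [[0, 1, 2, 3, 4, 5, 6, 7, 8, 9], [0, 5, 2, 6, 4, 1, 3, 7, 8, 9], [1, 5, 2, 6, 3, 0, 4, 7, 8, 9], [0, 1, 3, 2, 6, 5, 4, 7, 8, 9], [0, 1, 4, 6, 2, 5, 3, 7, 8, 9], [0, 1, 6, 4, 3, 5, 2, 7, 8, 9], [1, 0, 2, 4, 3, 5, 6, 7, 8, 9], [1, 0, 3, 6, 2, 5, 4, 7, 8, 9], [1, 0, 4, 2, 6, 5, 3, 7, 8, 9], [1, 0, 6, 3, 4, 5, 2, 7, 8, 9], [5, 0, 6, 3, 2, 1, 4, 7, 8, 9], [5, 0, 2, 4, 6, 1, 3, 7, 8, 9], [5, 0, 3, 6, 4, 1, 2, 7, 8, 9], [5, 0, 4, 2, 3, 1, 6, 7, 8, 9], [0, 5, 3, 4, 6, 1, 2, 7, 8, 9]])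
    (by decide +kernel) ⟨i3_0_1, i3_0_2, i3_2_3⟩

theorem all4 : AllIneq 10 can4 7 :=
  allIneq_of_cover (prim := [(0, 1), (0, 2), (0, 3), (0, 4), (0, 6), (2, 3), (2, 4), (2, 6), (4, 5), (4, 6)]) (auts := [[0, 1, 2, 3, 4, 5, 6, 7, 8, 9], [1, 0, 3, 2, 4, 5, 6, 7, 8, 9], [0, 1, 2, 3, 5, 4, 6, 7, 8, 9], [1, 0, 3, 2, 5, 4, 6, 7, 8, 9]])
    (by decide +kernel) ⟨i4_0_1, i4_0_2, i4_0_3, i4_0_4, i4_0_6, i4_2_3, i4_2_4, i4_2_6, i4_4_5, i4_4_6⟩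

theorem all5 : AllIneq 10 can5 7 :=
  allIneq_of_cover (prim := [(0, 1), (0, 2), (0, 3), (0, 4), (1, 2), (2, 3)]) (auts := [[0, 1, 2, 3, 4, 5, 6, 7, 8, 9], [4, 1, 6, 2, 5, 0, 3, 7, 8, 9], [5, 1, 3, 2, 4, 0, 6, 7, 8, 9], [0, 1, 2, 6, 5, 4, 3, 7, 8, 9], [5, 1, 3, 6, 0, 4, 2, 7, 8, 9], [4, 1, 6, 3, 0, 5, 2, 7, 8, 9]])
    (by decide +kernel) ⟨i5_0_1, i5_0_2, i5_0_3, i5_0_4, i5_1_2, i5_2_3⟩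

theorem all6 : AllIneq 10 can6 7 :=
  allIneq_of_cover (prim := [(0, 1), (0, 3), (0, 5), (0, 6), (1, 2), (1, 3), (1, 6), (3, 4), (3, 6)]) (auts := [[0, 1, 2, 3, 4, 5, 6, 7, 8, 9], [0, 2, 1, 3, 4, 5, 6, 7, 8, 9], [5, 1, 2, 3, 4, 0, 6, 7, 8, 9], [5, 2, 1, 3, 4, 0, 6, 7, 8, 9], [0, 1, 2, 4, 3, 5, 6, 7, 8, 9], [5, 1, 2, 4, 3, 0, 6, 7, 8, 9], [0, 2, 1, 4, 3, 5, 6, 7, 8, 9]])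
    (by decide +kernel) ⟨i6_0_1, i6_0_3, i6_0_5, i6_0_6, i6_1_2, i6_1_3, i6_1_6, i6_3_4, i6_3_6⟩

theorem all7 : AllIneq 10 can7 7 :=
  allIneq_of_cover (prim := [(0, 1), (0, 2), (0, 3), (0, 6)]) (auts := [[0, 1, 2, 3, 4, 5, 6, 7, 8, 9], [0, 5, 2, 4, 3, 1, 6, 7, 8, 9], [1, 4, 3, 5, 2, 0, 6, 7, 8, 9], [2, 3, 0, 1, 5, 4, 6, 7, 8, 9], [2, 4, 0, 5, 1, 3, 6, 7, 8, 9], [3, 5, 1, 4, 0, 2, 6, 7, 8, 9], [1, 0, 3, 2, 5, 4, 6, 7, 8, 9], [4, 1, 5, 3, 0, 2, 6, 7, 8, 9], [3, 2, 1, 0, 4, 5, 6, 7, 8, 9], [5, 0, 4, 2, 1, 3, 6, 7, 8, 9]])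
    (by decide +kernel) ⟨i7_0_1, i7_0_2, i7_0_3, i7_0_6⟩

theorem all8 : AllIneq 10 can8 7 :=
  allIneq_of_cover (prim := [(0, 1), (0, 2), (0, 3), (2, 3), (2, 5), (3, 4)]) (auts := [[0, 1, 2, 3, 4, 5, 6, 7, 8, 9], [0, 6, 2, 3, 4, 5, 1, 7, 8, 9], [1, 6, 2, 3, 4, 5, 0, 7, 8, 9], [0, 1, 5, 3, 4, 2, 6, 7, 8, 9], [1, 0, 2, 3, 4, 5, 6, 7, 8, 9], [1, 0, 5, 3, 4, 2, 6, 7, 8, 9], [6, 0, 2, 3, 4, 5, 1, 7, 8, 9], [6, 0, 5, 3, 4, 2, 1, 7, 8, 9], [0, 1, 2, 4, 3, 5, 6, 7, 8, 9], [1, 0, 2, 4, 3, 5, 6, 7, 8, 9], [6, 0, 2, 4, 3, 5, 1, 7, 8, 9], [0, 1, 5, 4, 3, 2, 6, 7, 8, 9]])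
    (by decide +kernel) ⟨i8_0_1, i8_0_2, i8_0_3, i8_2_3, i8_2_5, i8_3_4⟩

theorem all12 : AllIneq 10 can12 9 :=
  allIneq_of_cover (prim := [(0, 1), (0, 2), (0, 3), (0, 6), (0, 7), (0, 8), (1, 2), (1, 3), (1, 4), (1, 5), (1, 6), (1, 7), (1, 8), (2, 3), (2, 6), (2, 7), (2, 8), (3, 4), (3, 6), (3, 7), (3, 8), (6, 7), (6, 8), (7, 8)]) (auts := [[0, 1, 2, 3, 4, 5, 6, 7, 8, 9], [0, 5, 2, 4, 3, 1, 6, 7, 8, 9]])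
    (by decide +kernel) ⟨i12_0_1, i12_0_2, i12_0_3, i12_0_6, i12_0_7, i12_0_8, i12_1_2, i12_1_3, i12_1_4, i12_1_5, i12_1_6, i12_1_7, i12_1_8, i12_2_3, i12_2_6, i12_2_7, i12_2_8, i12_3_4, i12_3_6, i12_3_7, i12_3_8, i12_6_7, i12_6_8, i12_7_8⟩

theorem all13 : AllIneq 10 can13 9 :=
  allIneq_of_cover (prim := [(0, 1), (0, 2), (0, 3), (0, 6), (0, 7), (1, 2), (1, 3), (1, 4), (1, 5), (1, 6), (1, 7), (2, 3), (2, 6), (2, 7), (2, 8), (3, 4), (3, 6), (3, 7), (6, 7)]) (auts := [[0, 1, 2, 3, 4, 5, 6, 7, 8, 9], [0, 5, 2, 4, 3, 1, 6, 7, 8, 9], [0, 1, 8, 3, 4, 5, 6, 7, 2, 9], [0, 5, 8, 4, 3, 1, 6, 7, 2, 9]])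
    (by decide +kernel) ⟨i13_0_1, i13_0_2, i13_0_3, i13_0_6, i13_0_7, i13_1_2, i13_1_3, i13_1_4, i13_1_5, i13_1_6, i13_1_7, i13_2_3, i13_2_6, i13_2_7, i13_2_8, i13_3_4, i13_3_6, i13_3_7, i13_6_7⟩

theorem all14 : AllIneq 10 can14 9 :=
  allIneq_of_cover (prim := [(0, 1), (0, 2), (0, 3), (0, 4), (0, 5), (0, 6), (0, 7), (0, 8), (1, 2), (1, 3), (1, 4), (1, 5), (1, 6), (1, 8), (2, 3), (2, 4), (2, 5), (2, 6), (3, 4), (3, 5)]) (auts := [[0, 1, 2, 3, 4, 5, 6, 7, 8, 9], [7, 8, 6, 4, 3, 5, 2, 0, 1, 9]])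
    (by decide +kernel) ⟨i14_0_1, i14_0_2, i14_0_3, i14_0_4, i14_0_5, i14_0_6, i14_0_7, i14_0_8, i14_1_2, i14_1_3, i14_1_4, i14_1_5, i14_1_6, i14_1_8, i14_2_3, i14_2_4, i14_2_5, i14_2_6, i14_3_4, i14_3_5⟩

theorem all15 : AllIneq 10 can15 9 :=
  allIneq_of_cover (prim := [(0, 1), (0, 2), (0, 3), (0, 4), (0, 5), (0, 7), (0, 8), (1, 5)]) (auts := [[0, 1, 2, 3, 4, 5, 6, 7, 8, 9], [2, 5, 0, 7, 6, 1, 4, 3, 8, 9], [3, 8, 4, 6, 7, 1, 0, 2, 5, 9], [7, 8, 6, 4, 3, 5, 2, 0, 1, 9], [4, 1, 3, 2, 0, 8, 7, 6, 5, 9], [6, 5, 7, 0, 2, 8, 3, 4, 1, 9]])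
    (by decide +kernel) ⟨i15_0_1, i15_0_2, i15_0_3, i15_0_4, i15_0_5, i15_0_7, i15_0_8, i15_1_5⟩

theorem all16 : AllIneq 10 can16 9 :=
  allIneq_of_cover (prim := [(0, 1), (0, 2), (0, 3), (0, 6), (0, 7), (0, 8), (1, 2), (1, 3), (1, 6), (1, 7), (2, 3), (2, 4), (2, 5), (2, 6)]) (auts := [[0, 1, 2, 3, 4, 5, 6, 7, 8, 9], [8, 7, 3, 2, 5, 4, 6, 1, 0, 9], [0, 1, 5, 4, 3, 2, 6, 7, 8, 9], [8, 7, 4, 5, 2, 3, 6, 1, 0, 9]])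
    (by decide +kernel) ⟨i16_0_1, i16_0_2, i16_0_3, i16_0_6, i16_0_7, i16_0_8, i16_1_2, i16_1_3, i16_1_6, i16_1_7, i16_2_3, i16_2_4, i16_2_5, i16_2_6⟩

theorem all17 : AllIneq 10 can17 9 :=
  allIneq_of_cover (prim := [(0, 1), (0, 2), (0, 6), (0, 8), (1, 2), (1, 3), (1, 6), (1, 7), (2, 3), (2, 4), (2, 5), (2, 6)]) (auts := [[0, 1, 2, 3, 4, 5, 6, 7, 8, 9], [0, 7, 3, 2, 5, 4, 6, 1, 8, 9], [8, 1, 2, 3, 4, 5, 6, 7, 0, 9], [8, 7, 3, 2, 5, 4, 6, 1, 0, 9], [0, 1, 5, 4, 3, 2, 6, 7, 8, 9], [0, 7, 4, 5, 2, 3, 6, 1, 8, 9], [8, 1, 5, 4, 3, 2, 6, 7, 0, 9], [8, 7, 4, 5, 2, 3, 6, 1, 0, 9]])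
    (by decide +kernel) ⟨i17_0_1, i17_0_2, i17_0_6, i17_0_8, i17_1_2, i17_1_3, i17_1_6, i17_1_7, i17_2_3, i17_2_4, i17_2_5, i17_2_6⟩

end Pool.Agent.Lib.MP_c69b6d_co
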