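import Pool.Agent.Lib.MP_c69b6d_co.Fast

namespace Pool.Agent.Lib.MP_c69b6d_co

/-- bit set of a list of numbers. -/
noncomputable def maskOf (l : List ℕ) : ℕ :=
  List.rec (motive := fun _ => ℕ) 0 (fun a _ r => Nat.lor (Nat.pow 2 a) r) l

theorem mem_of_maskOf {l : List ℕ} {x : ℕ} (h : (maskOf l).testBit x = true) : x ∈ l := by
  induction l with
  | nil => simp [maskOf] at h
  | cons a l ih =>
    have e : maskOf (a :: l) = 2 ^ a ||| maskOf l := rfl
    rw [e, Nat.testBit_or, Bool.or_eq_true, Nat.testBit_two_pow] at h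
    rcases h with h | h
    · simp only [decide_eq_true_eq] at h
      simp [h]
    · exact List.mem_cons_of_mem _ (ih h)

theorem testBit_maskOf {l : List ℕ} {x : ℕ} (h : x ∈ l) : (maskOf l).testBit x = true := by
  induction l with
  | nil => simp at h
  | cons a l ih =>
    have e : maskOf (a :: l) = 2 ^ a ||| maskOf l := rfl
    rw [e, Nat.testBit_or, Bool.or_eq_true, Nat.testBit_two_pow]
    rcases List.mem_cons.1 h with h | h
    · simp [h]
    · exact Or.inr (ih h)

/-- strictly increasing list. -/
def incr : List ℕ → Bool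
  | [] => true
  | [_] => true
  | a :: b :: l => Nat.blt a b && incr (b :: l)

theorem nodup_of_incr {l : List ℕ} (h : incr l = true) : l.Nodup := by
  have key : l.Pairwise (· < ·) := by
    induction l with
    | nil => simp
    | cons a l ih =>
      cases l with
      | nil => simp
      | cons b l =>
        simp only [incr, Bool.and_eq_true, Nat.blt_eq] at h
        have := ih h.2
        refine List.pairwise_cons.2 ⟨fun x hx => ?_, this⟩
        rcases List.mem_cons.1 hx with rfl | hx
        · exact h.1
        · exact h.1.trans ((List.pairwise_cons.1 this).1 x hx)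
  exact key.imp ne_of_lt

/-- `π` is a permutation of the positions that maps the family `L` onto itself. -/
noncomputable def autOK (d : ℕ) (L π : List ℕ) : Bool :=
  π.isPerm (List.range d) &&
    Nat.beq (Nat.land (maskOf (L.map (phi π 0))) (maskOf L)) (maskOf L)

theorem autOK_sound {d : ℕ} {L π : List ℕ} (hL : L.Nodup) (h : autOK d L π = true) {a b : ℕ}
    (ha : a < d) (hb : b < d) (hi : IneqF d L a b) : IneqF d L (π.getD a 0) (π.getD b 0) := by
  simp only [autOK, Bool.and_eq_true, List.isPerm_iff, Nat.beq_eq] at h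
  refine transfer (F := 0) h.1 ?_ ha hb (by simp) hi
  have hs : L ⊆ L.map (phi π 0) := by
    intro x hx
    have h2 := congrArg (fun t => Nat.testBit t x) h.2
    have e : Nat.land (maskOf (L.map (phi π 0))) (maskOf L) =
      maskOf (L.map (phi π 0)) &&& maskOf L := rfl
    simp only [e, Nat.testBit_and, testBit_maskOf hx, Bool.and_true] at h2
    exact mem_of_maskOf h2
  exact ((List.subperm_of_subset hL hs).perm_of_length_le (by simp)).symm

/-- one step: apply the automorphism number `s % 8` to the known pair number `s / 8`. -/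
def grow (auts : List (List ℕ)) : List ℕ → List (ℕ × ℕ) → List (ℕ × ℕ)
  | [], K => K
  | s :: w, K => grow auts w
      (((auts.getD (s % 8) []).getD (K.getD (s / 8) (0, 0)).1 0,
        (auts.getD (s % 8) []).getD (K.getD (s / 8) (0, 0)).2 0) :: K)

def stepsOK (na : ℕ) : List ℕ → ℕ → Bool
  | [], _ => true
  | s :: w, k => decide (s % 8 < na) && decide (s / 8 < k) && stepsOK na w (k + 1)

noncomputable def cover2 (d : ℕ) (L : List ℕ) (prim : List (ℕ × ℕ)) (auts : List (List ℕ))
    (w : List ℕ) : Bool :=
  incr L && auts.all (autOK d L) && prim.all (fun p => decide (p.1 < d) && decide (p.2 < d)) &&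
  stepsOK auts.length w prim.length &&
  (List.range d).all (fun a => (List.range a).all (fun b =>
    (grow auts w prim).any (fun p => (p.1 == a && p.2 == b) || (p.1 == b && p.2 == a))))

theorem grow_sound {d : ℕ} {L : List ℕ} {auts : List (List ℕ)} (hL : L.Nodup)
    (ha : ∀ π ∈ auts, autOK d L π = true) (w : List ℕ) (K : List (ℕ × ℕ))
    (hw : stepsOK auts.length w K.length = true)
    (hK : ∀ p ∈ K, p.1 < d ∧ p.2 < d ∧ IneqF d L p.1 p.2) :
    ∀ p ∈ grow auts w K, p.1 < d ∧ p.2 < d ∧ IneqF d L p.1 p.2 := by
  induction w generalizing K with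
  | nil => exact hK
  | cons s w ih =>
    simp only [stepsOK, Bool.and_eq_true, decide_eq_true_eq] at hw
    refine ih _ (by simpa using hw.2) ?_
    intro p hp
    rcases List.mem_cons.1 hp with rfl | hp
    · have h1 : auts.getD (s % 8) [] ∈ auts := by
        rw [List.getD_eq_getElem _ _ hw.1.1]; exact List.getElem_mem _
      have h2 : K.getD (s / 8) (0, 0) ∈ K := by
        rw [List.getD_eq_getElem _ _ hw.1.2]; exact List.getElem_mem _
      have h3 := ha _ h1
      obtain ⟨h4, h5, h6⟩ := hK _ h2
      have hp : (auts.getD (s % 8) []).Perm (List.range d) := by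
        simp only [autOK, Bool.and_eq_true, List.isPerm_iff] at h3
        exact h3.1
      have hlt : ∀ a < d, (auts.getD (s % 8) []).getD a 0 < d := by
        intro a had
        have hl : (auts.getD (s % 8) []).length = d := by simpa using hp.length_eq
        rw [List.getD_eq_getElem _ _ (by omega)]
        exact List.mem_range.1 (hp.subset (List.getElem_mem _))
      exact ⟨hlt _ h4, hlt _ h5, autOK_sound hL h3 h4 h5 h6⟩
    · exact hK p hp

theorem allIneq_of_cover2 {d : ℕ} {L : List ℕ} {prim : List (ℕ × ℕ)} {auts : List (List ℕ)}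
    {w : List ℕ} (h : cover2 d L prim auts w = true)
    (hp : prim.Forall (fun p => IneqF d L p.1 p.2)) : L.Nodup ∧ AllIneq d L d := by
  rw [List.forall_iff_forall_mem] at hp
  simp only [cover2, Bool.and_eq_true, List.all_eq_true, List.any_eq_true,
    decide_eq_true_eq, List.mem_range, Bool.or_eq_true, beq_iff_eq] at h
  obtain ⟨⟨⟨⟨h0, h1⟩, h2⟩, h4⟩, h3⟩ := h
  have hL := nodup_of_incr h0
  have hg := grow_sound hL h1 w prim h4
    (fun p hpp => ⟨(h2 p hpp).1, (h2 p hpp).2, hp p hpp⟩)
  have key : ∀ a < d, ∀ b < a, IneqF d L a b := by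
    intro a ha b hb
    obtain ⟨p, hpp, hh⟩ := h3 a ha b hb
    have := (hg p hpp).2.2
    rcases hh with ⟨e1, e2⟩ | ⟨e1, e2⟩
    · rwa [e1, e2] at this
    · rw [e1, e2] at this; exact this.symm
  refine ⟨hL, fun a ha b hb hab => ?_⟩
  rcases lt_or_gt_of_ne hab with h | h
  · exact (key b hb a h).symm
  · exact key a ha b h

end Pool.Agent.Lib.MP_c69b6d_co
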