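import Mathlib

namespace Pool.Agent.Lib.MP_c69b6d_co

open Matroid

open Classical in
/-- `B_U(M; y)`: the sum over the bases `B` of `M` containing `U` of `∏_{e ∈ B} y e`. -/
noncomputable def W {α : Type} [Fintype α] (M : Matroid α) (y : α → ℝ) (U : Set α) : ℝ :=
  ∑ B : Finset α, if M.IsBase (B : Set α) ∧ U ⊆ (B : Set α) then ∏ e ∈ B, y e else 0

/-- The Rayleigh property. -/
def Rayleigh {α : Type} [Fintype α] (M : Matroid α) : Prop :=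
  ∀ y : α → ℝ, (∀ e, 0 < y e) → ∀ e ∈ M.E, ∀ f ∈ M.E, e ≠ f →
    0 ≤ W M y {e} * W M y {f} - W M y {e, f} * W M y ∅

/-- Representable over `GF(3)`. -/
def Ternary {α : Type} (M : Matroid α) : Prop :=
  ∃ (n : ℕ) (v : α → Fin n → ZMod 3), ∀ I ⊆ M.E, (M.Indep I ↔ LinearIndepOn (ZMod 3) v I)

/-- Excluded minor for the class of ternary Rayleigh matroids. -/
def ExcludedMinor {α : Type} [Fintype α] (M : Matroid α) : Prop :=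
  ¬ (Ternary M ∧ Rayleigh M) ∧ ∀ N : Matroid α, N <m M → Ternary N ∧ Rayleigh N

/-- The vectors of `GF(3)^5` given by a list of columns. -/
def cols (A : List (List ℕ)) : Fin A.length → Fin 5 → ZMod 3 :=
  fun i j => (((A.get i).getD j 0 : ℕ) : ZMod 3)

def A49 : List (List ℕ) :=
  [[2, 2, 0, 2], [2, 0, 2, 2], [0, 2, 2, 2], [1, 0, 0, 0], [0, 1, 0, 0], [0, 0, 1, 0], [0, 0, 0, 1], [1, 0, 0, 1]]

def A52 : List (List ℕ) :=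
  [[2, 2, 0, 2], [2, 0, 2, 2], [0, 2, 2, 2], [1, 0, 0, 0], [0, 1, 0, 0], [0, 0, 1, 0], [0, 0, 0, 1], [1, 1, 0, 0]]

def A56 : List (List ℕ) :=
  [[2, 2, 0, 2], [2, 0, 2, 2], [0, 2, 2, 2], [1, 0, 0, 0], [0, 1, 0, 0], [0, 0, 1, 0], [0, 0, 0, 1], [1, 2, 2, 1]]

def B172 : List (List ℕ) :=
  [[2, 2, 0, 2, 2], [2, 0, 2, 2, 1], [0, 2, 2, 2, 0], [1, 0, 0, 0, 0], [0, 1, 0, 0, 0], [0, 0, 1, 0, 0], [0, 0, 0, 1, 0], [0, 0, 0, 0, 1], [1, 0, 1, 1, 1], [1, 2, 0, 2, 2]]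

def B172d : List (List ℕ) :=
  [[0, 0, 0, 0, 1], [0, 0, 0, 1, 0], [0, 0, 1, 0, 0], [0, 1, 0, 0, 0], [1, 0, 0, 0, 0], [1, 1, 0, 0, 1], [2, 1, 2, 0, 1], [2, 1, 1, 1, 1], [2, 2, 1, 1, 2], [1, 0, 2, 0, 2]]

end Pool.Agent.Lib.MP_c69b6d_co
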