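import Pool.Agent.Lib.MP_c69b6d_co.F.Data

namespace Pool.Agent.Lib.MP_c69b6d_co

/-- `M` is the uniform matroid `U_{r,n}`: it has `n` elements and its bases are the `r`-subsets. -/
def IsUniform {α : Type} (M : Matroid α) (r n : ℕ) : Prop :=
  M.E.ncard = n ∧ ∀ B, M.IsBase B ↔ B ⊆ M.E ∧ B.ncard = r

/-- `M` is the Fano matroid: its points are the residues modulo seven, and its bases are the
triples other than the lines `{i, i + 1, i + 3}`. -/
def IsFano {α : Type} (M : Matroid α) : Prop :=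
  ∃ φ : ZMod 7 → α, Function.Injective φ ∧ Set.range φ = M.E ∧
    ∀ T : Finset (ZMod 7), M.IsBase (φ '' T) ↔ T.card = 3 ∧ ∀ i, T ≠ {i, i + 1, i + 3}

end Pool.Agent.Lib.MP_c69b6d_co
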