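import Pool.Agent.Lib.MP_c69b6d_co.Push

namespace Pool.Agent.Lib.MP_c69b6d_co

open Matroid

theorem isMinor_dual {α : Type} {M N : Matroid α} (h : N ≤m M) : N✶ ≤m M✶ := by
  obtain ⟨C, D, rfl⟩ := h
  rw [dual_contract_delete]
  exact IsMinor.trans (M₂ := M✶ ＼ C) ⟨D, ∅, by simp⟩ ⟨∅, C, by simp⟩

theorem isStrictMinor_dual {α : Type} {M N : Matroid α} (h : N <m M) : N✶ <m M✶ :=
  isStrictMinor_iff_isMinor_ssubset.2 ⟨isMinor_dual h.isMinor, h.ssubset⟩

theorem mem_span_base {α K V : Type} [Field K] [AddCommGroup V] [Module K V] {M : Matroid α}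
    {v : α → V} (hv : ∀ I ⊆ M.E, M.Indep I ↔ LinearIndepOn K v I) {X B : Set α}
    (hB : M.IsBasis B X) {e : α} (he : e ∈ X) : v e ∈ Submodule.span K (v '' B) := by
  by_cases heB : e ∈ B
  · exact Submodule.subset_span ⟨e, heB, rfl⟩
  by_contra hc
  have h1 := (linearIndepOn_insert heB).2 ⟨(hv B hB.indep.subset_ground).1 hB.indep, hc⟩
  rw [← hv _ (Set.insert_subset (hB.subset_ground he) hB.indep.subset_ground)] at h1
  exact (hB.insert_dep ⟨he, heB⟩).not_indep h1

theorem Ternary.dual {α : Type} [Fintype α] {M : Matroid α} (hM : Ternary M) : Ternary M✶ := by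
  classical
  obtain ⟨n, v, hv⟩ := hM
  have : Fact (Nat.Prime 3) := ⟨by norm_num⟩
  let K := LinearMap.ker (Fintype.linearCombination (ZMod 3) (fun e => if e ∈ M.E then v e else 0))
  let w : α → Module.Dual (ZMod 3) K := fun e => (LinearMap.proj e).comp K.subtype
  let φ := (Module.finBasis (ZMod 3) (Module.Dual (ZMod 3) K)).equivFun
  refine ⟨_, φ.toLinearMap ∘ w, fun I hI' => ?_⟩
  have hI : I ⊆ M.E := hI'
  rw [LinearMap.linearIndepOn_iff_of_injOn _ φ.injective.injOn, dual_indep_iff_exists hI]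
  have hK : ∀ x : α → ZMod 3, x ∈ K ↔ ∑ e, x e • (if e ∈ M.E then v e else 0) = 0 := fun x => by
    simp [K, Fintype.linearCombination_apply]
  constructor
  · rintro ⟨B, hB, hIB⟩
    rw [linearIndepOn_iff'']
    intro t g ht _ hg i hi
    obtain ⟨c, hc, hc2⟩ := (Finsupp.mem_span_image_iff_linearCombination _).1
      (mem_span_base hv hB.isBasis_ground (hI (ht hi)))
    have hx : (Pi.single i 1 - ⇑c : α → ZMod 3) ∈ K := by
      rw [hK]
      simp only [Pi.sub_apply, sub_smul, Finset.sum_sub_distrib]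
      rw [Finset.sum_eq_single i (fun b _ hb => by simp [hb]) (by simp), sub_eq_zero,
        Pi.single_eq_same, one_smul, if_pos (show i ∈ M.E from hI (ht hi)), ← hc2,
        Finsupp.linearCombination_apply, Finsupp.sum_fintype _ _ (by simp)]
      refine Finset.sum_congr rfl fun e _ => ?_
      split_ifs with he
      · rfl
      · have : c e = 0 := by
          by_contra h0
          exact he (hB.subset_ground (hc (Finsupp.mem_support_iff.2 h0)))
        simp [this]
    have h2 := congrArg (fun f : Module.Dual (ZMod 3) K => f ⟨_, hx⟩) hg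
    simp only [LinearMap.coe_sum, Finset.sum_apply, LinearMap.smul_apply, LinearMap.zero_apply, w,
      LinearMap.comp_apply, Submodule.subtype_apply, LinearMap.proj_apply, smul_eq_mul] at h2
    have h0 : ∀ j ∈ t, c j = 0 := fun j hj => by
      by_contra h0
      exact Set.disjoint_left.1 hIB (ht hj) (hc (Finsupp.mem_support_iff.2 h0))
    rw [Finset.sum_eq_single i (fun b hb hbi => by simp [hbi, h0 b hb]) (fun h => absurd hi h)] at h2
    simpa [h0 i hi] using h2
  · intro hw
    obtain ⟨B, hB⟩ := M.exists_isBasis (M.E \ I)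
    refine ⟨B, hB.indep.isBase_of_forall_insert ?_, ?_⟩
    swap
    · exact Set.disjoint_left.2 fun x hx hxB => (hB.subset hxB).2 hx
    rintro e ⟨he, heB⟩ hi
    have heI : e ∈ I := by
      by_contra heI
      exact (hB.insert_dep ⟨⟨he, heI⟩, heB⟩).not_indep hi
    rw [hv _ hi.subset_ground, linearIndepOn_insert heB] at hi
    have h1 : w e ∈ Submodule.span (ZMod 3) (Set.range (fun j : (I \ {e} : Set α) => w j)) := by
      refine mem_span_of_iInf_ker_le_ker fun x hx => ?_
      simp only [Submodule.mem_iInf, LinearMap.mem_ker, Subtype.forall] at hx ⊢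
      by_contra hxe
      refine hi.2 ?_
      have h2 := (hK x).1 x.2
      rw [← Finset.add_sum_erase _ _ (Finset.mem_univ e), if_pos he, add_eq_zero_iff_eq_neg] at h2
      rw [← Submodule.smul_mem_iff _ hxe]
      change (x : α → ZMod 3) e • v e ∈ _
      rw [h2]
      refine Submodule.neg_mem _ (Submodule.sum_mem _ fun j hj => ?_)
      split_ifs with hjE
      · by_cases hjI : j ∈ I
        · have : (x : α → ZMod 3) j = 0 := hx j ⟨hjI, Finset.ne_of_mem_erase hj⟩
          simp [this]
        · exact Submodule.smul_mem _ _ (mem_span_base hv hB ⟨hjE, hjI⟩)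
      · simp
    have h3 : I = insert e (I \ {e}) := by simp [heI]
    rw [h3, linearIndepOn_insert (by simp)] at hw
    refine hw.2 ?_
    rwa [Set.image_eq_range]

open Classical in
theorem W_dual {α : Type} [Fintype α] (M : Matroid α) {y : α → ℝ} (hy : ∀ e, 0 < y e)
    (P : Set α → Prop) :
    (∑ B : Finset α, if M✶.IsBase (B : Set α) ∧ P B then ∏ e ∈ B, y e else 0) =
      (∏ e ∈ M.E.toFinset, y e) * ∑ B : Finset α,
        if M.IsBase (B : Set α) ∧ P (M.E \ B) then ∏ e ∈ B, (y e)⁻¹ else 0 := by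
  rw [Finset.mul_sum, ← Finset.sum_filter]
  simp only [mul_ite, mul_zero]
  rw [← Finset.sum_filter]
  refine Finset.sum_nbij' (fun B => M.E.toFinset \ B) (fun B => M.E.toFinset \ B) ?_ ?_ ?_ ?_ ?_
  · intro B hB
    simp only [Finset.mem_filter, Finset.mem_univ, true_and, Finset.coe_sdiff,
      Set.coe_toFinset] at hB ⊢
    refine ⟨hB.1.compl_isBase_of_dual, ?_⟩
    rw [Set.sdiff_sdiff_cancel_left (show (B : Set α) ⊆ M.E from hB.1.subset_ground)]
    exact hB.2
  · intro B hB
    simp only [Finset.mem_filter, Finset.mem_univ, true_and, Finset.coe_sdiff,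
      Set.coe_toFinset] at hB ⊢
    exact ⟨hB.1.compl_isBase_dual, hB.2⟩
  · intro B hB
    simp only [Finset.mem_filter, Finset.mem_univ, true_and] at hB
    exact Finset.sdiff_sdiff_eq_self fun x hx => Set.mem_toFinset.2 (hB.1.subset_ground hx)
  · intro B hB
    simp only [Finset.mem_filter, Finset.mem_univ, true_and] at hB
    exact Finset.sdiff_sdiff_eq_self fun x hx => Set.mem_toFinset.2 (hB.1.subset_ground hx)
  · intro B hB
    simp only [Finset.mem_filter, Finset.mem_univ, true_and] at hB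
    have hs : B ⊆ M.E.toFinset := fun x hx => Set.mem_toFinset.2 (hB.1.subset_ground hx)
    rw [← Finset.prod_sdiff hs, mul_right_comm, ← Finset.prod_mul_distrib,
      Finset.prod_eq_one (fun x _ => mul_inv_cancel₀ (hy x).ne'), one_mul]

open Classical in
theorem Rayleigh.dual {α : Type} [Fintype α] {M : Matroid α} (h : Rayleigh M) : Rayleigh M✶ := by
  intro y hy e he f hf hef
  have h1 := h (fun x => (y x)⁻¹) (fun x => inv_pos.2 (hy x)) e he f hf hef
  have he' : e ∈ M.E := he
  have hf' : f ∈ M.E := hf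
  have e0 : W M✶ y ∅ = (∏ e ∈ M.E.toFinset, y e) * W M (fun x => (y x)⁻¹) ∅ := by
    unfold W
    rw [W_dual M hy (fun B => ∅ ⊆ B)]
    simp
  have e1 : ∀ g ∈ M.E, W M✶ y {g} = (∏ e ∈ M.E.toFinset, y e) *
      (W M (fun x => (y x)⁻¹) ∅ - W M (fun x => (y x)⁻¹) {g}) := by
    intro g hg
    unfold W
    rw [W_dual M hy (fun B => {g} ⊆ B), ← Finset.sum_sub_distrib]
    congr 1
    refine Finset.sum_congr rfl fun B _ => ?_
    by_cases h1 : M.IsBase (B : Set α) <;> by_cases h2 : g ∈ B <;> simp [h1, h2, hg]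
  have e2 : W M✶ y {e, f} = (∏ e ∈ M.E.toFinset, y e) *
      (W M (fun x => (y x)⁻¹) ∅ - W M (fun x => (y x)⁻¹) {e} - W M (fun x => (y x)⁻¹) {f} +
        W M (fun x => (y x)⁻¹) {e, f}) := by
    unfold W
    rw [W_dual M hy (fun B => {e, f} ⊆ B), ← Finset.sum_sub_distrib, ← Finset.sum_sub_distrib,
      ← Finset.sum_add_distrib]
    congr 1
    refine Finset.sum_congr rfl fun B _ => ?_
    by_cases h1 : M.IsBase (B : Set α) <;> by_cases h2 : e ∈ B <;> by_cases h3 : f ∈ B <;>
      simp [h1, h2, h3, he', hf', Set.insert_subset_iff]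
  rw [e0, e1 e he', e1 f hf', e2]
  nlinarith [mul_nonneg (mul_self_nonneg (∏ e ∈ M.E.toFinset, y e)) h1]

open Classical in
theorem W_map {α β : Type} [Fintype α] [Fintype β] (N : Matroid β) {φ : β → α}
    (hφ : Function.Injective φ) (y : α → ℝ) (U : Set β) :
    W (N.map φ hφ.injOn) y (φ '' U) = W N (y ∘ φ) U := by
  unfold W
  rw [← Finset.sum_filter, ← Finset.sum_filter]
  symm
  refine Finset.sum_bij (fun B _ => B.image φ) ?_ ?_ ?_ ?_
  · intro B hB
    simp only [Finset.mem_filter, Finset.mem_univ, true_and, Finset.coe_image] at hB ⊢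
    exact ⟨hB.1.map _, Set.image_mono hB.2⟩
  · intro B _ B' _ h
    exact Finset.image_injective hφ h
  · intro B hB
    simp only [Finset.mem_filter, Finset.mem_univ, true_and, map_isBase_iff] at hB
    obtain ⟨⟨B0, h1, h2⟩, h3⟩ := hB
    lift B0 to Finset β using Set.toFinite B0
    refine ⟨B0, ?_, ?_⟩
    · simp only [Finset.mem_filter, Finset.mem_univ, true_and]
      exact ⟨h1, (Set.image_subset_image_iff hφ).1 (h2 ▸ h3)⟩
    · rw [← Finset.coe_inj, Finset.coe_image, h2]
  · intro B _
    rw [Finset.prod_image hφ.injOn]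
    rfl

theorem Rayleigh.of_map {α β : Type} [Fintype α] [Fintype β] {N : Matroid β} {φ : β → α}
    (hφ : Function.Injective φ) (h : Rayleigh (N.map φ hφ.injOn)) : Rayleigh N := by
  intro y hy e he f hf hef
  have h1 := h (Function.extend φ y 1) (fun x => by
    by_cases hx : ∃ a, φ a = x
    · obtain ⟨a, rfl⟩ := hx
      rw [hφ.extend_apply]; exact hy a
    · rw [Function.extend_apply' _ _ _ hx]; exact one_pos) (φ e) ⟨e, he, rfl⟩ (φ f) ⟨f, hf, rfl⟩
    (fun hh => hef (hφ hh))
  rwa [← Set.image_pair, ← Set.image_singleton, ← Set.image_singleton, ← Set.image_empty φ,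
    W_map N hφ, W_map N hφ, W_map N hφ, W_map N hφ, Function.extend_comp hφ] at h1

end Pool.Agent.Lib.MP_c69b6d_co
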