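import Pool.Agent.Lib.MP_c69b6d_co.Defs

namespace Pool.Agent.Lib.MP_c69b6d_co

abbrev V4 : Type := Fin 4 → ZMod 3

/-- the vector with base three code `x`. -/
def dec (x : ℕ) : V4 := fun i => ((x / 3 ^ (i : ℕ) % 3 : ℕ) : ZMod 3)

theorem dec_surj (v : V4) : ∃ x < 81, dec x = v := by
  have h0 := ZMod.val_lt (v 0)
  have h1 := ZMod.val_lt (v 1)
  have h2 := ZMod.val_lt (v 2)
  have h3 := ZMod.val_lt (v 3)
  refine ⟨(v 0).val + 3 * (v 1).val + 9 * (v 2).val + 27 * (v 3).val, by omega, ?_⟩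
  have key : ∀ (i : Fin 4) (k : ℕ), k = (v i).val → (k : ZMod 3) = v i := by
    rintro i k rfl; simp
  funext i
  fin_cases i <;> refine key _ _ ?_ <;> simp <;> omega

def lin (a x : ℕ) : ℕ :=
  Nat.mod (Nat.add (Nat.add (Nat.mul (Nat.mod a 3) x)
    (Nat.mul (Nat.mod (Nat.div a 3) 3) (Nat.div x 3)))
    (Nat.add (Nat.mul (Nat.mod (Nat.div a 9) 3) (Nat.div x 9))
      (Nat.mul (Nat.mod (Nat.div a 27) 3) (Nat.div x 27)))) 3

/-- code of the image of the vector `x` under the matrix with code `m`. -/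
def app (m x : ℕ) : ℕ :=
  Nat.add (Nat.add (lin m x) (Nat.mul 3 (lin (Nat.div m 81) x)))
    (Nat.add (Nat.mul 9 (lin (Nat.div m 6561) x)) (Nat.mul 27 (lin (Nat.div m 531441) x)))

/-- code of the negative. -/
def ng (x : ℕ) : ℕ :=
  Nat.add (Nat.add (Nat.mod (Nat.mul 2 x) 3) (Nat.mul 3 (Nat.mod (Nat.mul 2 (Nat.div x 3)) 3)))
    (Nat.add (Nat.mul 9 (Nat.mod (Nat.mul 2 (Nat.div x 9)) 3))
      (Nat.mul 27 (Nat.mod (Nat.mul 2 (Nat.div x 27)) 3)))

noncomputable def lm (m : ℕ) : V4 →ₗ[ZMod 3] V4 :=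
  Matrix.toLin' (Matrix.of fun j i => dec (m / 81 ^ (j : ℕ)) i)

theorem dec_digits {a b c d : ℕ} (ha : a < 3) (hb : b < 3) (hc : c < 3) (hd : d < 3) :
    dec (a + 3 * b + (9 * c + 27 * d)) = ![(a : ZMod 3), (b : ZMod 3), (c : ZMod 3), (d : ZMod 3)] := by
  have key : ∀ u v : ℕ, u = v → (u : ZMod 3) = v := by rintro u v rfl; rfl
  funext i
  fin_cases i <;> refine key _ _ ?_ <;> norm_num <;> omega

theorem lin_lt (a x : ℕ) : lin a x < 3 := Nat.mod_lt _ (by norm_num)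

theorem cast_lin (a x : ℕ) : ((lin a x : ℕ) : ZMod 3) = ∑ i, dec a i * dec x i := by
  have : lin a x = (a % 3 * x + a / 3 % 3 * (x / 3) +
    (a / 9 % 3 * (x / 9) + a / 27 % 3 * (x / 27))) % 3 := rfl
  rw [this, Fin.sum_univ_four]
  simp only [dec, ZMod.natCast_mod]
  push_cast
  simp only [ZMod.natCast_mod]
  norm_num
  ring

theorem app_lt (m x : ℕ) : app m x < 81 := by
  have : app m x = lin m x + 3 * lin (m / 81) x +
    (9 * lin (m / 6561) x + 27 * lin (m / 531441) x) := rfl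
  have h0 := lin_lt m x
  have h1 := lin_lt (m / 81) x
  have h2 := lin_lt (m / 6561) x
  have h3 := lin_lt (m / 531441) x
  omega

theorem dec_app (m x : ℕ) : dec (app m x) = lm m (dec x) := by
  have : app m x = lin m x + 3 * lin (m / 81) x +
    (9 * lin (m / 6561) x + 27 * lin (m / 531441) x) := rfl
  rw [this, dec_digits (lin_lt _ _) (lin_lt _ _) (lin_lt _ _) (lin_lt _ _)]
  funext j
  simp only [cast_lin, lm, Matrix.toLin'_apply, Matrix.mulVec, dotProduct, Matrix.of_apply]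
  fin_cases j <;> simp

theorem dec_ng (x : ℕ) : dec (ng x) = -dec x := by
  have : ng x = 2 * x % 3 + 3 * (2 * (x / 3) % 3) +
    (9 * (2 * (x / 9) % 3) + 27 * (2 * (x / 27) % 3)) := rfl
  have h3 : (0 : ℕ) < 3 := by norm_num
  rw [this, dec_digits (Nat.mod_lt _ h3) (Nat.mod_lt _ h3) (Nat.mod_lt _ h3) (Nat.mod_lt _ h3)]
  have h2 : (2 : ZMod 3) = -1 := by decide
  funext j
  fin_cases j <;> simp [dec, h2]

/-- the bits of `y` and of its negative. -/
def pm (y : ℕ) : ℕ := Nat.lor (Nat.pow 2 y) (Nat.pow 2 (ng y))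

theorem of_pm {y c : ℕ} (h : (pm y).testBit c = true) : dec c = dec y ∨ dec c = -dec y := by
  have e : pm y = 2 ^ y ||| 2 ^ ng y := rfl
  rw [e, Nat.testBit_or, Bool.or_eq_true, Nat.testBit_two_pow, Nat.testBit_two_pow,
    decide_eq_true_eq, decide_eq_true_eq] at h
  rcases h with rfl | rfl
  · exact Or.inl rfl
  · exact Or.inr (dec_ng y)

noncomputable def imgMask (m : ℕ) (T : List ℕ) : ℕ :=
  List.rec (motive := fun _ => ℕ) 0 (fun t _ r => Nat.lor (pm (app m t)) r) T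

theorem of_imgMask {m : ℕ} {T : List ℕ} {c : ℕ} (h : (imgMask m T).testBit c = true) :
    ∃ t ∈ T, dec c = lm m (dec t) ∨ dec c = -lm m (dec t) := by
  induction T with
  | nil => simp [imgMask] at h
  | cons t T ih =>
    have e : imgMask m (t :: T) = pm (app m t) ||| imgMask m T := rfl
    rw [e, Nat.testBit_or, Bool.or_eq_true] at h
    rcases h with h | h
    · exact ⟨t, by simp, by simpa only [dec_app] using of_pm h⟩
    · obtain ⟨s, hs, h⟩ := ih h
      exact ⟨s, List.mem_cons_of_mem _ hs, h⟩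

noncomputable def bitsOf (l : List ℕ) : ℕ :=
  List.rec (motive := fun _ => ℕ) 0 (fun a _ r => Nat.lor (Nat.pow 2 a) r) l

theorem testBit_bitsOf {l : List ℕ} {x : ℕ} : (bitsOf l).testBit x = true ↔ x ∈ l := by
  induction l with
  | nil => simp [bitsOf]
  | cons a l ih =>
    have e : bitsOf (a :: l) = 2 ^ a ||| bitsOf l := rfl
    rw [e, Nat.testBit_or, Bool.or_eq_true, Nat.testBit_two_pow, ih, List.mem_cons,
      decide_eq_true_eq, eq_comm]

def subM (X Y : ℕ) : Bool := Nat.beq (Nat.land X Y) X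

theorem of_subM {X Y : ℕ} (h : subM X Y = true) {c : ℕ} (hc : X.testBit c = true) :
    Y.testBit c = true := by
  have e : X &&& Y = X := Nat.eq_of_beq_eq_true h
  have := congrArg (fun t => Nat.testBit t c) e
  simpa [hc] using this

theorem dec_basis (i : Fin 4) : dec (3 ^ (i : ℕ)) = Pi.single i 1 := by
  revert i; decide

theorem exists_equiv {m : ℕ} (h : ∀ i : Fin 4, ∃ v, dec (3 ^ (i : ℕ)) = lm m v ∨
    dec (3 ^ (i : ℕ)) = -lm m v) : ∃ g : V4 ≃ₗ[ZMod 3] V4, ∀ v, g v = lm m v := by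
  have : Fact (Nat.Prime 3) := ⟨by norm_num⟩
  have hs : Function.Surjective (lm m) := by
    rw [← LinearMap.range_eq_top, eq_top_iff, ← (Pi.basisFun (ZMod 3) (Fin 4)).span_eq,
      Submodule.span_le]
    rintro _ ⟨i, rfl⟩
    rw [Pi.basisFun_apply, ← dec_basis]
    obtain ⟨v, hv | hv⟩ := h i
    · exact ⟨v, hv.symm⟩
    · exact ⟨-v, by rw [map_neg, hv]⟩
  exact ⟨LinearEquiv.ofBijective (lm m) ⟨LinearMap.injective_iff_surjective.2 hs, hs⟩,
    fun _ => rfl⟩

/-- the list contains the codes of the four unit vectors. -/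
noncomputable def hasB (T : List ℕ) : Bool := subM 134218250 (bitsOf T)

theorem of_hasB {T : List ℕ} (h : hasB T = true) (i : Fin 4) : 3 ^ (i : ℕ) ∈ T := by
  refine testBit_bitsOf.1 (of_subM h ?_)
  revert i; decide

section
variable (As Ms : List (List ℕ))

def Concl (S : Set V4) : Prop :=
  (∃ A ∈ As, ∃ g : V4 ≃ₗ[ZMod 3] V4, ∀ a ∈ A, ∃ x ∈ S, g x = dec a) ∨
  (∃ X ∈ Ms, ∃ h : V4 ≃ₗ[ZMod 3] V4, ∀ x ∈ S, x = 0 ∨ ∃ t ∈ X, x = h (dec t) ∨ x = -h (dec t))

def PP (T : List ℕ) (U : ℕ) : Prop :=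
  ∀ S : Set V4, (∀ x ∈ S, -x ∈ S) → (∀ t ∈ T, dec t ∈ S) →
    (∀ c < 81, dec c ∈ S → U.testBit c = true) → Concl As Ms S

variable {As Ms}

theorem Concl.of_image {S : Set V4} (g : V4 ≃ₗ[ZMod 3] V4) (h : Concl As Ms (g '' S)) :
    Concl As Ms S := by
  rcases h with ⟨A, hA, g', h⟩ | ⟨X, hX, g', h⟩
  · refine Or.inl ⟨A, hA, g.trans g', fun a ha => ?_⟩
    obtain ⟨_, ⟨x, hx, rfl⟩, h⟩ := h a ha
    exact ⟨x, hx, h⟩
  · refine Or.inr ⟨X, hX, g'.trans g.symm, fun x hx => ?_⟩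
    rcases h _ ⟨x, hx, rfl⟩ with h | ⟨t, ht, h | h⟩
    · exact Or.inl (by simpa using h)
    · exact Or.inr ⟨t, ht, Or.inl (by simp [← h])⟩
    · exact Or.inr ⟨t, ht, Or.inr (by rw [LinearEquiv.trans_apply, ← map_neg, ← h]; simp)⟩

theorem pp_bad {A T : List ℕ} {m U : ℕ} (hA : A ∈ As) (hB : hasB A = true)
    (h : subM (bitsOf A) (imgMask m T) = true) : PP As Ms T U := by
  intro S hS hT _
  have h1 : ∀ a ∈ A, ∃ t ∈ T, dec a = lm m (dec t) ∨ dec a = -lm m (dec t) := fun a ha =>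
    of_imgMask (of_subM h (testBit_bitsOf.2 ha))
  obtain ⟨g, hg⟩ := exists_equiv (m := m) fun i => by
    obtain ⟨t, -, h⟩ := h1 _ (of_hasB hB i); exact ⟨_, h⟩
  refine Or.inl ⟨A, hA, g, fun a ha => ?_⟩
  obtain ⟨t, ht, h | h⟩ := h1 a ha
  · exact ⟨_, hT t ht, by rw [hg, h]⟩
  · exact ⟨_, hS _ (hT t ht), by rw [map_neg, hg, h]⟩

theorem pp_iso {T' T : List ℕ} {m U : ℕ} (hP : PP As Ms T' (2 ^ 81 - 1)) (hB : hasB T' = true)
    (h : subM (bitsOf T') (imgMask m T) = true) : PP As Ms T U := by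
  intro S hS hT _
  have h1 : ∀ a ∈ T', ∃ t ∈ T, dec a = lm m (dec t) ∨ dec a = -lm m (dec t) := fun a ha =>
    of_imgMask (of_subM h (testBit_bitsOf.2 ha))
  obtain ⟨g, hg⟩ := exists_equiv (m := m) fun i => by
    obtain ⟨t, -, h⟩ := h1 _ (of_hasB hB i); exact ⟨_, h⟩
  refine Concl.of_image g (hP _ ?_ ?_ ?_)
  · rintro _ ⟨x, hx, rfl⟩
    exact ⟨-x, hS x hx, map_neg _ _⟩
  · intro a ha
    obtain ⟨t, ht, h | h⟩ := h1 a ha
    · exact ⟨_, hT t ht, by rw [hg, h]⟩
    · exact ⟨_, hS _ (hT t ht), by rw [map_neg, hg, h]⟩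
  · intro c hc _
    rw [Nat.testBit_two_pow_sub_one]; simpa using hc

theorem pp_leaf {X T : List ℕ} {m U : ℕ} (hX : X ∈ Ms) (hB : hasB T = true)
    (h : subM U (Nat.lor 1 (imgMask m X)) = true) : PP As Ms T U := by
  intro S _ hT hU
  have h1 : ∀ c < 81, dec c ∈ S → c = 0 ∨
      ∃ t ∈ X, dec c = lm m (dec t) ∨ dec c = -lm m (dec t) := by
    intro c hc hcS
    have h2 := of_subM h (hU c hc hcS)
    have e : Nat.lor 1 (imgMask m X) = 2 ^ 0 ||| imgMask m X := rfl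
    rw [e, Nat.testBit_or, Bool.or_eq_true, Nat.testBit_two_pow, decide_eq_true_eq] at h2
    exact h2.imp Eq.symm of_imgMask
  obtain ⟨g, hg⟩ := exists_equiv (m := m) fun i => by
    have hi : 3 ^ (i : ℕ) < 81 ∧ 3 ^ (i : ℕ) ≠ 0 := by revert i; decide
    obtain ⟨t, -, h⟩ := (h1 _ hi.1 (hT _ (of_hasB hB i))).resolve_left hi.2
    exact ⟨_, h⟩
  refine Or.inr ⟨X, hX, g, fun x hx => ?_⟩
  obtain ⟨c, hc, rfl⟩ := dec_surj x
  rcases h1 c hc hx with rfl | h
  · exact Or.inl (by decide)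
  · exact Or.inr (by simpa only [hg] using h)

theorem pp_branch {T : List ℕ} {p U : ℕ} (h1 : PP As Ms (p :: T) U)
    (h2 : PP As Ms T (Nat.xor (Nat.lor U (pm p)) (pm p))) : PP As Ms T U := by
  intro S hS hT hU
  by_cases hp : dec p ∈ S
  · exact h1 S hS (fun t ht => by
      rcases List.mem_cons.1 ht with rfl | ht
      exacts [hp, hT t ht]) hU
  · refine h2 S hS hT fun c hc hcS => ?_
    have h3 : (pm p).testBit c = false := by
      rw [← Bool.not_eq_true]
      intro h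
      rcases of_pm h with h | h
      · exact hp (h ▸ hcS)
      · exact hp (by simpa [h] using hS _ hcS)
    simp [h3, hU c hc hcS]

variable (As Ms)

/-- check one step `s = p + 81 * (k + 512 * m)`. -/
noncomputable def stepOK (Ns : List (List ℕ)) (i : ℕ) (T : List ℕ) (s : ℕ) : Bool :=
  (fun (k : ℕ) (I : ℕ) => Bool.rec (motive := fun _ => Bool)
    (Nat.blt (Nat.sub k 3) i && subM (bitsOf (Ns.getD (Nat.sub k 3) [])) I)
    (subM (bitsOf (As.getD k [])) I) (Nat.blt k 3))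
  (Nat.mod (Nat.div s 81) 512) (imgMask (Nat.div s 41472) (Nat.mod s 81 :: T))

noncomputable def nodeOK (Ns : List (List ℕ)) (i : ℕ) (T : List ℕ) (k m : ℕ) (st : List ℕ) :
    ℕ → Bool :=
  List.rec (motive := fun _ => ℕ → Bool)
    (fun U => Nat.blt k Ms.length && subM U (Nat.lor 1 (imgMask m (Ms.getD k []))))
    (fun s _ r U => stepOK As Ns i T s &&
      r (Nat.xor (Nat.lor U (pm (Nat.mod s 81))) (pm (Nat.mod s 81)))) st

noncomputable def chk (Ns : List (List ℕ)) (D : List (ℕ × ℕ × List ℕ)) : ℕ → Bool :=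
  List.rec (motive := fun _ => ℕ → Bool) (fun _ => true)
    (fun d _ r i => nodeOK As Ms Ns i (Ns.getD i []) d.1 d.2.1 d.2.2 2417851639229258349412351 &&
      r (Nat.succ i)) D

variable {As Ms}

theorem getD_mem {l : List (List ℕ)} {k : ℕ} (h : k < l.length) : l.getD k [] ∈ l := by
  rw [List.getD_eq_getElem _ _ h]; exact List.getElem_mem _

theorem node_sound {Ns : List (List ℕ)} (hA : As.length = 3) (hAB : ∀ A ∈ As, hasB A = true)
    (hN : ∀ T ∈ Ns, hasB T = true) {i : ℕ} (hi : i < Ns.length)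
    (ih : ∀ j < i, PP As Ms (Ns.getD j []) (2 ^ 81 - 1)) (k m : ℕ) (st : List ℕ) (U : ℕ)
    (h : nodeOK As Ms Ns i (Ns.getD i []) k m st U = true) : PP As Ms (Ns.getD i []) U := by
  induction st generalizing U with
  | nil =>
    have e : nodeOK As Ms Ns i (Ns.getD i []) k m [] U =
      (Nat.blt k Ms.length && subM U (Nat.lor 1 (imgMask m (Ms.getD k [])))) := rfl
    rw [e, Bool.and_eq_true, Nat.blt_eq] at h
    exact pp_leaf (getD_mem h.1) (hN _ (getD_mem hi)) h.2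
  | cons s st ih2 =>
    have e : nodeOK As Ms Ns i (Ns.getD i []) k m (s :: st) U =
      (stepOK As Ns i (Ns.getD i []) s && nodeOK As Ms Ns i (Ns.getD i []) k m st
        (Nat.xor (Nat.lor U (pm (s % 81))) (pm (s % 81)))) := rfl
    rw [e, Bool.and_eq_true] at h
    refine pp_branch ?_ (ih2 _ h.2)
    have e2 : stepOK As Ns i (Ns.getD i []) s = Bool.rec (motive := fun _ => Bool)
      (Nat.blt (s / 81 % 512 - 3) i && subM (bitsOf (Ns.getD (s / 81 % 512 - 3) []))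
        (imgMask (s / 41472) (s % 81 :: Ns.getD i [])))
      (subM (bitsOf (As.getD (s / 81 % 512) [])) (imgMask (s / 41472) (s % 81 :: Ns.getD i [])))
      (Nat.blt (s / 81 % 512) 3) := rfl
    have h1 := h.1
    rw [e2] at h1
    cases hk : Nat.blt (s / 81 % 512) 3
    · rw [hk] at h1
      simp only [Bool.and_eq_true, Nat.blt_eq] at h1
      exact pp_iso (ih _ h1.1) (hN _ (getD_mem (h1.1.trans hi))) h1.2
    · rw [hk] at h1
      have h2 : As.getD (s / 81 % 512) [] ∈ As := getD_mem (by rw [hA]; simpa using hk)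
      exact pp_bad h2 (hAB _ h2) h1

theorem chk_sound {Ns : List (List ℕ)} (hA : As.length = 3) (hAB : ∀ A ∈ As, hasB A = true)
    (hN : ∀ T ∈ Ns, hasB T = true) (D : List (ℕ × ℕ × List ℕ)) (i : ℕ)
    (hi : i + D.length ≤ Ns.length) (h : chk As Ms Ns D i = true)
    (ih : ∀ j < i, PP As Ms (Ns.getD j []) (2 ^ 81 - 1)) :
    ∀ j < i + D.length, PP As Ms (Ns.getD j []) (2 ^ 81 - 1) := by
  induction D generalizing i with
  | nil => exact ih
  | cons d D ih2 =>
    have e : chk As Ms Ns (d :: D) i = (nodeOK As Ms Ns i (Ns.getD i []) d.1 d.2.1 d.2.2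
      2417851639229258349412351 && chk As Ms Ns D (i + 1)) := rfl
    rw [e, Bool.and_eq_true] at h
    rw [List.length_cons] at hi ⊢
    have h1 := node_sound hA hAB hN (by omega) ih _ _ _ _ h.1
    have := ih2 (i + 1) (by omega) h.2 fun j hj => by
      rcases Nat.lt_succ_iff_lt_or_eq.1 hj with hj | rfl
      exacts [ih j hj, h1]
    intro j hj
    exact this j (by omega)

end

end Pool.Agent.Lib.MP_c69b6d_co
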