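import Pool.Agent.Lib.MP_c69b6d_co.Link

namespace Pool.Agent.Lib.MP_c69b6d_co

open Matroid Finset

def dot (g c : List ℕ) : ℕ :=
  g.getD 0 0 * c.getD 0 0 + g.getD 1 0 * c.getD 1 0 + g.getD 2 0 * c.getD 2 0 +
    g.getD 3 0 * c.getD 3 0 + g.getD 4 0 * c.getD 4 0

def hypOK (A : List (List ℕ)) (G : List (List ℕ × ℕ)) : Bool :=
  G.all (fun p => (List.range A.length).all (fun i =>
    p.2.testBit i == (dot p.1 (A.getD i []) % 3 == 0)))

def indOK (n : ℕ) (Z : List ℕ) (L : List ℕ) : Bool :=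
  L.all (fun S => (List.range n).all (fun i => !S.testBit i ||
    Z.any (fun z => Nat.beq ((S &&& z) ^^^ S) (2 ^ i))))

def nullOK (A : List (List ℕ)) (C : List (List ℕ × ℕ)) : Bool :=
  C.all (fun p => (List.range 5).all (fun j =>
      (∑ i ∈ range A.length, p.1.getD i 0 * (A.getD i []).getD j 0) % 3 == 0) &&
    (List.range A.length).all (fun i => p.2.testBit i == !(p.1.getD i 0 % 3 == 0)) &&
    (List.range A.length).any (fun i => p.2.testBit i))

def depOK (n : ℕ) (Cm : List ℕ) (L : List ℕ) : Bool :=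
  (List.range (2 ^ n)).all (fun S => Cm.any (fun c => Nat.beq (c &&& S) c) ||
    L.any (fun B => Nat.beq (S &&& B) S))

def antiOK (n : ℕ) (L : List ℕ) : Bool :=
  L.all (fun B => decide (B < 2 ^ n) && L.all (fun B' => !Nat.beq (B &&& B') B || Nat.beq B B')) &&
    decide L.Nodup

theorem cols_eq (A : List (List ℕ)) (i : Fin A.length) (j : Fin 5) :
    cols A i j = (((A.getD i []).getD j 0 : ℕ) : ZMod 3) := by
  simp [cols, List.getD_eq_getElem?_getD]

theorem st_subset {n S T : ℕ} (h : S &&& T = S) : st n S ⊆ st n T := by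
  intro i hi
  rw [mem_st] at *
  have := congrArg (fun x => Nat.testBit x i) h
  simpa [hi] using this

theorem and_eq_of_subset {n S T : ℕ} (hS : S < 2 ^ n) (h : st n S ⊆ st n T) : S &&& T = S := by
  refine st_inj (n := n) (Nat.and_le_left.trans_lt hS) hS ?_
  ext i
  simp only [mem_st, Nat.testBit_and, Bool.and_eq_true]
  exact ⟨fun h => h.1, fun h' => ⟨h', mem_st.1 (h (mem_st.2 h'))⟩⟩

theorem indep_of_check {A : List (List ℕ)} {G : List (List ℕ × ℕ)} {L : List ℕ}
    (h1 : hypOK A G = true) (h2 : indOK A.length (G.map Prod.snd) L = true) {S : ℕ} (hS : S ∈ L) :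
    LinearIndepOn (ZMod 3) (cols A) (st A.length S : Set (Fin A.length)) := by
  have : Fact (Nat.Prime 3) := ⟨by norm_num⟩
  simp only [hypOK, indOK, List.all_eq_true, List.any_eq_true, List.mem_range, Bool.or_eq_true,
    Bool.not_eq_true', Nat.beq_eq, beq_iff_eq, List.mem_map] at h1 h2
  rw [linearIndepOn_finset_iff]
  intro f hf i hi
  obtain ⟨_, ⟨p, hp, rfl⟩, hz⟩ := (h2 S hS i i.2).resolve_left (by simpa [mem_st] using hi)
  have hd : ∀ k : Fin A.length, ∑ j : Fin 5, ((p.1.getD j 0 : ℕ) : ZMod 3) * cols A k j =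
      ((dot p.1 (A.getD k []) : ℕ) : ZMod 3) := by
    intro k
    simp only [Fin.sum_univ_five, cols_eq, dot]
    push_cast
    rfl
  have h0 : ∑ k ∈ st A.length S, f k * ((dot p.1 (A.getD k []) : ℕ) : ZMod 3) = 0 := by
    have : ∑ j : Fin 5, ((p.1.getD j 0 : ℕ) : ZMod 3) *
        (∑ k ∈ st A.length S, f k • cols A k) j = 0 := by rw [hf]; simp
    rw [← this]
    simp only [← hd, Finset.sum_apply, Pi.smul_apply, smul_eq_mul, mul_sum]
    rw [sum_comm]
    refine sum_congr rfl fun _ _ => sum_congr rfl fun _ _ => by ring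
  have hb : ∀ k ∈ st A.length S, (((dot p.1 (A.getD k []) : ℕ) : ZMod 3) = 0 ↔ k ≠ i) := by
    intro k hk
    have h3 := congrArg (fun x => Nat.testBit x k) hz
    simp only [Nat.testBit_xor, Nat.testBit_and, mem_st.1 hk, h1 p hp k k.2,
      Nat.testBit_two_pow] at h3
    rw [ZMod.natCast_eq_zero_iff, Nat.dvd_iff_mod_eq_zero, Ne, Fin.ext_iff, eq_comm (a := (k : ℕ))]
    revert h3
    generalize dot p.1 (A.getD k []) % 3 = u
    by_cases hh : u = 0 <;> by_cases hh' : (i : ℕ) = k <;> simp [hh, hh']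
  rw [sum_eq_single i (fun k hk hki => by rw [(hb k hk).2 hki, mul_zero]) (fun h => absurd hi h)]
    at h0
  exact (mul_eq_zero.1 h0).resolve_right (fun h => (hb i hi).1 h rfl)

theorem dep_of_check {A : List (List ℕ)} {C : List (List ℕ × ℕ)}
    (h1 : nullOK A C = true) {c : ℕ} (hc : c ∈ C.map Prod.snd) :
    ¬ LinearIndepOn (ZMod 3) (cols A) (st A.length c : Set (Fin A.length)) := by
  simp only [nullOK, List.all_eq_true, List.any_eq_true, List.mem_range, Bool.and_eq_true,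
    beq_iff_eq, List.mem_map] at h1 hc
  obtain ⟨p, hp, rfl⟩ := hc
  obtain ⟨⟨h2, h3⟩, i, hi, h4⟩ := h1 p hp
  have hb : ∀ k : Fin A.length, k ∈ st A.length p.2 ↔ ((p.1.getD k 0 : ℕ) : ZMod 3) ≠ 0 := by
    intro k
    rw [mem_st, h3 k k.2, Ne, ZMod.natCast_eq_zero_iff, Nat.dvd_iff_mod_eq_zero]
    simp
  rw [not_linearIndepOn_finset_iff]
  refine ⟨fun k => ((p.1.getD k 0 : ℕ) : ZMod 3), ?_, ⟨i, hi⟩, mem_st.2 h4,
    (hb ⟨i, hi⟩).1 (mem_st.2 h4)⟩
  rw [sum_subset (subset_univ _) (fun k _ hk => by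
    rw [hb, not_not] at hk; simp only [hk, zero_smul])]
  funext j
  have := h2 j j.2
  rw [← Nat.dvd_iff_mod_eq_zero, ← ZMod.natCast_eq_zero_iff, ← Fin.sum_univ_eq_sum_range
    (fun i => p.1.getD i 0 * (A.getD i []).getD j 0)] at this
  simp only [Finset.sum_apply, Pi.smul_apply, smul_eq_mul, cols_eq, Pi.zero_apply]
  exact_mod_cast this

def allOK (A : List (List ℕ)) (G C : List (List ℕ × ℕ)) (L : List ℕ) : Prop :=
  hypOK A G = true ∧ indOK A.length (G.map Prod.snd) L = true ∧ nullOK A C = true ∧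
    depOK A.length (C.map Prod.snd) L = true ∧ antiOK A.length L = true

theorem indep_iff_list {A : List (List ℕ)} {G C : List (List ℕ × ℕ)} {L : List ℕ}
    (h : allOK A G C L) (X : Finset (Fin A.length)) :
    LinearIndepOn (ZMod 3) (cols A) (X : Set (Fin A.length)) ↔ ∃ B ∈ L, X ⊆ st A.length B := by
  obtain ⟨h1, h2, h3, h4, -⟩ := h
  constructor
  · intro hX
    obtain ⟨S, hS, rfl⟩ := st_surj X
    simp only [depOK, List.all_eq_true, List.any_eq_true, List.mem_range, Bool.or_eq_true,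
      Nat.beq_eq] at h4
    rcases h4 S hS with ⟨c, hc, h⟩ | ⟨B, hB, h⟩
    · exact absurd (hX.mono (coe_subset.2 (st_subset h))) (dep_of_check h3 hc)
    · exact ⟨B, hB, st_subset h⟩
  · rintro ⟨B, hB, h⟩
    exact (indep_of_check h1 h2 hB).mono (coe_subset.2 h)

theorem baseList_of_check {A : List (List ℕ)} {G C : List (List ℕ × ℕ)} {L : List ℕ}
    (h : allOK A G C L) {M : Matroid (Fin A.length)}
    (hM : ∀ I, M.Indep I ↔ LinearIndepOn (ZMod 3) (cols A) I) : BaseList M L := by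
  have h5 := h.2.2.2.2
  simp only [antiOK, List.all_eq_true, Bool.and_eq_true, decide_eq_true_eq, Bool.or_eq_true,
    Bool.not_eq_true', Nat.beq_eq, ← Bool.not_eq_true] at h5
  refine ⟨h5.2, fun S hS => (h5.1 S hS).1, fun X => ⟨fun hX => ?_, ?_⟩⟩
  · obtain ⟨B, hB, hXB⟩ := (indep_iff_list h X).1 ((hM _).1 hX.indep)
    refine ⟨B, hB, coe_inj.1 (hX.eq_of_subset_indep ?_ (coe_subset.2 hXB)).symm⟩
    exact (hM _).2 ((indep_iff_list h _).2 ⟨B, hB, Subset.rfl⟩)
  · rintro ⟨S, hS, rfl⟩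
    refine ((hM _).2 ((indep_iff_list h _).2 ⟨S, hS, Subset.rfl⟩)).isBase_of_maximal ?_
    intro J hJ hSJ
    lift J to Finset (Fin A.length) using Set.toFinite J
    obtain ⟨B, hB, hJB⟩ := (indep_iff_list h J).1 ((hM _).1 hJ)
    have h6 := coe_subset.1 hSJ
    have := ((h5.1 S hS).2 B hB).resolve_left
      (by simpa using and_eq_of_subset (h5.1 S hS).1 (h6.trans hJB))
    subst this
    exact coe_inj.2 (h6.antisymm hJB)

def tri (n : ℕ) (L : List ℕ) : List ℕ :=
  (List.range (2 ^ n)).filter (fun S => Nat.beq ((List.range n).countP S.testBit) 3 &&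
    !L.any (fun B => Nat.beq (S &&& B) S))

theorem card_st (n S : ℕ) : (st n S).card = (List.range n).countP S.testBit := by
  rw [List.countP_eq_length_filter, ← List.toFinset_card_of_nodup (List.nodup_range.filter _),
    ← card_map Fin.valEmbedding]
  congr 1
  ext i
  simp only [mem_map, mem_st, Fin.valEmbedding_apply, List.mem_toFinset, List.mem_filter,
    List.mem_range]
  exact ⟨fun ⟨a, h, e⟩ => e ▸ ⟨a.2, h⟩, fun h => ⟨⟨i, h.1⟩, h.2, rfl⟩⟩

theorem tri_ncard {A : List (List ℕ)} {G C : List (List ℕ × ℕ)} {L : List ℕ}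
    (h : allOK A G C L) {M : Matroid (Fin A.length)} (hE : M.E = Set.univ)
    (hM : ∀ I, M.Indep I ↔ LinearIndepOn (ZMod 3) (cols A) I) :
    {X | X.ncard = 3 ∧ M.Dep X}.ncard = (tri A.length L).length := by
  classical
  have hm : ∀ S, S ∈ tri A.length L ↔ S < 2 ^ A.length ∧ (st A.length S).card = 3 ∧
      ¬ ∃ B ∈ L, S &&& B = S := by
    intro S
    simp [tri, card_st]
  have : {X | X.ncard = 3 ∧ M.Dep X} = (fun S => (st A.length S : Set (Fin A.length))) ''
      ((tri A.length L).toFinset : Set ℕ) := by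
    ext X
    lift X to Finset (Fin A.length) using Set.toFinite X
    simp only [Set.mem_setOf_eq, Set.mem_image, mem_coe, List.mem_toFinset, hm, coe_inj,
      Set.ncard_coe_finset, dep_iff, hE, Set.subset_univ, and_true, hM, indep_iff_list h]
    constructor
    · rintro ⟨h1, h2⟩
      obtain ⟨S, hS, rfl⟩ := st_surj X
      exact ⟨S, ⟨hS, h1, fun ⟨B, hB, e⟩ => h2 ⟨B, hB, st_subset e⟩⟩, rfl⟩
    · rintro ⟨S, ⟨hS, h1, h2⟩, rfl⟩
      exact ⟨h1, fun ⟨B, hB, e⟩ => h2 ⟨B, hB, and_eq_of_subset hS e⟩⟩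
  rw [this, Set.InjOn.ncard_image, Set.ncard_coe_finset,
    List.toFinset_card_of_nodup (l := tri A.length L) (List.nodup_range.filter _)]
  intro S hS S' hS' e
  exact st_inj ((hm S).1 (by simpa using hS)).1 ((hm S').1 (by simpa using hS')).1
    (by simpa using e)

theorem main {A : List (List ℕ)} {G C : List (List ℕ × ℕ)} {L : List ℕ} {k t e f : ℕ}
    {ys : List ℕ} (hn : A.length ≤ 10) (h : allOK A G C L) (hk : L.length = k)
    (ht : (tri A.length L).length = t) (hef : e < A.length ∧ f < A.length ∧ e ≠ f)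
    (hw : wcheck 10 A.length L e f ys = true)
    (hm : (List.range A.length).Forall (fun g => MinorIneq 10 L A.length g false ∧
      MinorIneq 10 L A.length g true)) :
    ∃ M : Matroid (Fin A.length), M.E = Set.univ ∧
      (∀ I, M.Indep I ↔ LinearIndepOn (ZMod 3) (cols A) I) ∧
      {B | M.IsBase B}.ncard = k ∧ {X | X.ncard = 3 ∧ M.Dep X}.ncard = t ∧ ExcludedMinor M := by
  have : Fact (Nat.Prime 3) := ⟨by norm_num⟩
  obtain ⟨M, hE, hM⟩ := exists_vecMatroid (K := ZMod 3) (cols A)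
  have hB := baseList_of_check h hM
  rw [List.forall_iff_forall_mem] at hm
  refine ⟨M, hE, hM, hk ▸ hB.ncard, ht ▸ tri_ncard h hE hM,
    fun hh => not_rayleigh hn hB hE hef.1 hef.2.1 hef.2.2 hw hh.2, fun N hN =>
    ⟨Ternary.minor ⟨5, cols A, fun I _ => hM I⟩ hN.isMinor, rayleigh_minor hn hB hN ?_⟩⟩
  intro g hg p
  have := hm g (List.mem_range.2 hg)
  cases p
  · exact this.1
  · exact this.2

end Pool.Agent.Lib.MP_c69b6d_co
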