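import Pool.Agent.Lib.MP_c69b6d_co.Cover
import Pool.Agent.Lib.MP_c69b6d_co.Lin

namespace Pool.Agent.Lib.MP_c69b6d_co

set_option maxRecDepth 100000

def LA49 : List ℕ := [15, 23, 27, 29, 39, 43, 46, 53, 54, 57, 58, 60, 71, 75, 77, 78, 83, 85, 86, 90, 92, 99, 101, 102, 105, 108, 113, 114, 120, 135, 139, 141, 142, 150, 154, 156, 165, 169, 172, 180, 184, 195, 197, 198, 210, 212, 225, 228, 240]

def GA49 : List (List ℕ × ℕ) := [([0, 0, 0, 1], 56), ([0, 0, 1, 0], 217), ([0, 0, 1, 2], 30), ([0, 1, 0, 0], 234), ([0, 1, 0, 2], 45), ([0, 1, 1, 2], 11), ([0, 1, 2, 0], 204), ([1, 0, 0, 0], 116), ([1, 0, 0, 2], 179), ([1, 0, 1, 2], 149), ([1, 0, 2, 0], 82), ([1, 1, 0, 2], 166), ([1, 1, 1, 1], 7), ([1, 1, 2, 0], 70), ([1, 2, 0, 0], 97), ([1, 2, 1, 0], 69), ([1, 2, 2, 0], 67)]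

def CA49 : List (List ℕ × ℕ) := [([0, 0, 0, 1, 0, 0, 1, 2], 200), ([0, 1, 0, 0, 0, 1, 0, 1], 162), ([1, 0, 0, 0, 1, 0, 0, 1], 145), ([0, 0, 1, 0, 1, 1, 1, 0], 116), ([0, 1, 0, 1, 0, 1, 1, 0], 106), ([0, 1, 2, 1, 2, 0, 0, 0], 30), ([1, 0, 0, 1, 1, 0, 1, 0], 89), ([1, 0, 2, 1, 0, 2, 0, 0], 45), ([1, 2, 0, 0, 1, 2, 0, 0], 51), ([0, 0, 1, 2, 1, 1, 0, 1], 188), ([0, 1, 2, 0, 2, 0, 2, 1], 214), ([1, 0, 2, 0, 0, 2, 2, 1], 229), ([1, 1, 2, 0, 0, 0, 2, 2], 199), ([1, 1, 2, 1, 0, 0, 0, 1], 143), ([1, 1, 2, 2, 0, 0, 1, 0], 79), ([1, 2, 1, 0, 2, 0, 1, 0], 87), ([1, 2, 2, 0, 0, 1, 2, 0], 103)]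

theorem ok1A49 : hypOK A49 GA49 = true := by decide +kernel
theorem ok2A49 : indOK A49.length (GA49.map Prod.snd) LA49 = true := by decide +kernel
theorem ok3A49 : nullOK A49 CA49 = true := by decide +kernel
theorem ok4A49 : depOK A49.length (CA49.map Prod.snd) LA49 = true := by decide +kernel
theorem ok5A49 : antiOK A49.length LA49 = true := by decide +kernel
theorem triA49 : (tri A49.length LA49).length = 3 := by decide +kernel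
theorem witA49 : wcheck 10 A49.length LA49 2 7 [0, 2, 0, 1, 1, 2, 2, 0] = true := by decide +kernel
theorem mA49_0_0 : MinorIneq 10 LA49 8 0 false :=
  minorIneq_of_tcheck (π := [1, 2, 3, 4, 5, 6, 7, 0, 8, 9]) (F := 127) (by decide +kernel) all0
theorem mA49_0_1 : MinorIneq 10 LA49 8 0 true :=
  minorIneq_of_tcheck (π := [1, 2, 3, 4, 5, 6, 7, 0, 8, 9]) (F := 128) (by decide +kernel) all1
theorem mA49_1_0 : MinorIneq 10 LA49 8 1 false :=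
  minorIneq_of_tcheck (π := [0, 2, 3, 5, 4, 6, 7, 1, 8, 9]) (F := 127) (by decide +kernel) all0
theorem mA49_1_1 : MinorIneq 10 LA49 8 1 true :=
  minorIneq_of_tcheck (π := [0, 2, 3, 5, 4, 6, 7, 1, 8, 9]) (F := 128) (by decide +kernel) all1
theorem mA49_2_0 : MinorIneq 10 LA49 8 2 false :=
  minorIneq_of_tcheck (π := [0, 1, 3, 4, 5, 6, 7, 2, 8, 9]) (F := 127) (by decide +kernel) all2
theorem mA49_2_1 : MinorIneq 10 LA49 8 2 true :=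
  minorIneq_of_tcheck (π := [0, 1, 3, 4, 5, 6, 7, 2, 8, 9]) (F := 128) (by decide +kernel) all3
theorem mA49_3_0 : MinorIneq 10 LA49 8 3 false :=
  minorIneq_of_tcheck (π := [5, 7, 0, 2, 1, 4, 6, 3, 8, 9]) (F := 127) (by decide +kernel) all1
theorem mA49_3_1 : MinorIneq 10 LA49 8 3 true :=
  minorIneq_of_tcheck (π := [0, 6, 5, 7, 4, 1, 2, 3, 8, 9]) (F := 128) (by decide +kernel) all0
theorem mA49_4_0 : MinorIneq 10 LA49 8 4 false :=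
  minorIneq_of_tcheck (π := [3, 7, 1, 0, 6, 5, 2, 4, 8, 9]) (F := 127) (by decide +kernel) all1
theorem mA49_4_1 : MinorIneq 10 LA49 8 4 true :=
  minorIneq_of_tcheck (π := [1, 0, 3, 7, 5, 6, 2, 4, 8, 9]) (F := 128) (by decide +kernel) all0
theorem mA49_5_0 : MinorIneq 10 LA49 8 5 false :=
  minorIneq_of_tcheck (π := [3, 7, 0, 1, 6, 4, 2, 5, 8, 9]) (F := 127) (by decide +kernel) all1
theorem mA49_5_1 : MinorIneq 10 LA49 8 5 true :=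
  minorIneq_of_tcheck (π := [0, 1, 3, 7, 4, 6, 2, 5, 8, 9]) (F := 128) (by decide +kernel) all0
theorem mA49_6_0 : MinorIneq 10 LA49 8 6 false :=
  minorIneq_of_tcheck (π := [0, 2, 5, 3, 4, 1, 7, 6, 8, 9]) (F := 127) (by decide +kernel) all0
theorem mA49_6_1 : MinorIneq 10 LA49 8 6 true :=
  minorIneq_of_tcheck (π := [0, 2, 5, 3, 4, 1, 7, 6, 8, 9]) (F := 128) (by decide +kernel) all1
theorem mA49_7_0 : MinorIneq 10 LA49 8 7 false :=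
  minorIneq_of_tcheck (π := [4, 3, 0, 1, 2, 5, 6, 7, 8, 9]) (F := 127) (by decide +kernel) all3
theorem mA49_7_1 : MinorIneq 10 LA49 8 7 true :=
  minorIneq_of_tcheck (π := [0, 1, 3, 4, 5, 6, 2, 7, 8, 9]) (F := 128) (by decide +kernel) all2

theorem exA49 : ∃ M : Matroid (Fin A49.length), M.E = Set.univ ∧
    (∀ I, M.Indep I ↔ LinearIndepOn (ZMod 3) (cols A49) I) ∧
    {B | M.IsBase B}.ncard = 49 ∧ {X | X.ncard = 3 ∧ M.Dep X}.ncard = 3 ∧ ExcludedMinor M :=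
  main (by decide) ⟨ok1A49, ok2A49, ok3A49, ok4A49, ok5A49⟩ (by decide +kernel) triA49
    (by decide) witA49
    ⟨⟨mA49_0_0, mA49_0_1⟩, ⟨mA49_1_0, mA49_1_1⟩, ⟨mA49_2_0, mA49_2_1⟩, ⟨mA49_3_0, mA49_3_1⟩, ⟨mA49_4_0, mA49_4_1⟩, ⟨mA49_5_0, mA49_5_1⟩, ⟨mA49_6_0, mA49_6_1⟩, ⟨mA49_7_0, mA49_7_1⟩⟩

end Pool.Agent.Lib.MP_c69b6d_co
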