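import Pool.Agent.Lib.MP_c69b6d_co.ExA49
import Pool.Agent.Lib.MP_c69b6d_co.Lin

namespace Pool.Agent.Lib.MP_c69b6d_co

set_option maxRecDepth 100000

def LA52 : List ℕ := [15, 23, 27, 29, 39, 43, 46, 53, 54, 57, 58, 60, 71, 75, 77, 78, 83, 85, 86, 90, 92, 99, 101, 102, 105, 108, 113, 114, 120, 135, 139, 141, 147, 149, 163, 165, 166, 169, 170, 172, 177, 178, 180, 198, 202, 204, 210, 212, 226, 228, 232, 240]

def GA52 : List (List ℕ × ℕ) := [([0, 0, 0, 1], 184), ([0, 0, 1, 0], 217), ([0, 0, 1, 2], 158), ([0, 1, 0, 0], 106), ([0, 1, 0, 2], 45), ([0, 1, 1, 2], 11), ([0, 1, 2, 0], 76), ([1, 0, 0, 0], 116), ([1, 0, 0, 2], 51), ([1, 0, 1, 2], 21), ([1, 0, 2, 0], 82), ([1, 1, 0, 2], 38), ([1, 1, 1, 1], 7), ([1, 1, 2, 0], 70), ([1, 2, 0, 0], 225), ([1, 2, 0, 1], 164), ([1, 2, 0, 2], 162), ([1, 2, 1, 0], 197), ([1, 2, 2, 0], 195)]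

def CA52 : List (List ℕ × ℕ) := [([0, 0, 0, 1, 1, 0, 0, 2], 152), ([1, 0, 0, 0, 0, 0, 1, 1], 193), ([0, 0, 1, 0, 1, 1, 1, 0], 116), ([0, 1, 0, 1, 0, 1, 1, 0], 106), ([0, 1, 2, 0, 1, 0, 0, 1], 150), ([0, 1, 2, 1, 2, 0, 0, 0], 30), ([0, 1, 2, 2, 0, 0, 0, 2], 142), ([1, 0, 0, 1, 1, 0, 1, 0], 89), ([1, 0, 2, 1, 0, 2, 0, 0], 45), ([1, 2, 0, 0, 1, 2, 0, 0], 51), ([0, 0, 1, 2, 0, 1, 1, 1], 236), ([0, 1, 0, 0, 2, 1, 1, 1], 242), ([0, 1, 1, 0, 0, 2, 2, 1], 230), ([1, 0, 2, 0, 2, 2, 0, 1], 181), ([1, 1, 1, 0, 0, 2, 0, 2], 167), ([1, 1, 2, 2, 0, 0, 1, 0], 79), ([1, 2, 0, 2, 0, 2, 0, 1], 171), ([1, 2, 1, 0, 2, 0, 1, 0], 87), ([1, 2, 2, 0, 0, 1, 2, 0], 103)]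

theorem ok1A52 : hypOK A52 GA52 = true := by decide +kernel
theorem ok2A52 : indOK A52.length (GA52.map Prod.snd) LA52 = true := by decide +kernel
theorem ok3A52 : nullOK A52 CA52 = true := by decide +kernel
theorem ok4A52 : depOK A52.length (CA52.map Prod.snd) LA52 = true := by decide +kernel
theorem ok5A52 : antiOK A52.length LA52 = true := by decide +kernel
theorem triA52 : (tri A52.length LA52).length = 2 := by decide +kernel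
theorem witA52 : wcheck 10 A52.length LA52 5 7 [0, 2, 1, 1, 2, 0, 1, 0] = true := by decide +kernel
theorem mA52_0_0 : MinorIneq 10 LA52 8 0 false :=
  minorIneq_of_tcheck (π := [1, 2, 3, 4, 5, 6, 7, 0, 8, 9]) (F := 127) (by decide +kernel) all4
theorem mA52_0_1 : MinorIneq 10 LA52 8 0 true :=
  minorIneq_of_tcheck (π := [4, 3, 1, 2, 6, 7, 5, 0, 8, 9]) (F := 128) (by decide +kernel) all4
theorem mA52_1_0 : MinorIneq 10 LA52 8 1 false :=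
  minorIneq_of_tcheck (π := [0, 2, 3, 5, 6, 4, 7, 1, 8, 9]) (F := 127) (by decide +kernel) all0
theorem mA52_1_1 : MinorIneq 10 LA52 8 1 true :=
  minorIneq_of_tcheck (π := [0, 2, 3, 4, 5, 6, 7, 1, 8, 9]) (F := 128) (by decide +kernel) all5
theorem mA52_2_0 : MinorIneq 10 LA52 8 2 false :=
  minorIneq_of_tcheck (π := [0, 1, 4, 5, 6, 3, 7, 2, 8, 9]) (F := 127) (by decide +kernel) all0
theorem mA52_2_1 : MinorIneq 10 LA52 8 2 true :=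
  minorIneq_of_tcheck (π := [0, 1, 4, 3, 5, 6, 7, 2, 8, 9]) (F := 128) (by decide +kernel) all5
theorem mA52_3_0 : MinorIneq 10 LA52 8 3 false :=
  minorIneq_of_tcheck (π := [0, 4, 2, 1, 7, 6, 5, 3, 8, 9]) (F := 127) (by decide +kernel) all5
theorem mA52_3_1 : MinorIneq 10 LA52 8 3 true :=
  minorIneq_of_tcheck (π := [0, 4, 2, 7, 6, 1, 5, 3, 8, 9]) (F := 128) (by decide +kernel) all0
theorem mA52_4_0 : MinorIneq 10 LA52 8 4 false :=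
  minorIneq_of_tcheck (π := [0, 3, 1, 2, 7, 6, 5, 4, 8, 9]) (F := 127) (by decide +kernel) all5
theorem mA52_4_1 : MinorIneq 10 LA52 8 4 true :=
  minorIneq_of_tcheck (π := [0, 3, 1, 7, 6, 2, 5, 4, 8, 9]) (F := 128) (by decide +kernel) all0
theorem mA52_5_0 : MinorIneq 10 LA52 8 5 false :=
  minorIneq_of_tcheck (π := [0, 1, 2, 3, 4, 6, 7, 5, 8, 9]) (F := 127) (by decide +kernel) all6
theorem mA52_5_1 : MinorIneq 10 LA52 8 5 true :=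
  minorIneq_of_tcheck (π := [1, 2, 0, 3, 4, 7, 6, 5, 8, 9]) (F := 128) (by decide +kernel) all3
theorem mA52_6_0 : MinorIneq 10 LA52 8 6 false :=
  minorIneq_of_tcheck (π := [1, 2, 4, 3, 0, 5, 7, 6, 8, 9]) (F := 127) (by decide +kernel) all4
theorem mA52_6_1 : MinorIneq 10 LA52 8 6 true :=
  minorIneq_of_tcheck (π := [3, 4, 1, 2, 0, 7, 5, 6, 8, 9]) (F := 128) (by decide +kernel) all4
theorem mA52_7_0 : MinorIneq 10 LA52 8 7 false :=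
  minorIneq_of_tcheck (π := [4, 3, 0, 1, 2, 5, 6, 7, 8, 9]) (F := 127) (by decide +kernel) all3
theorem mA52_7_1 : MinorIneq 10 LA52 8 7 true :=
  minorIneq_of_tcheck (π := [0, 3, 4, 1, 2, 6, 5, 7, 8, 9]) (F := 128) (by decide +kernel) all6

theorem exA52 : ∃ M : Matroid (Fin A52.length), M.E = Set.univ ∧
    (∀ I, M.Indep I ↔ LinearIndepOn (ZMod 3) (cols A52) I) ∧
    {B | M.IsBase B}.ncard = 52 ∧ {X | X.ncard = 3 ∧ M.Dep X}.ncard = 2 ∧ ExcludedMinor M :=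
  main (by decide) ⟨ok1A52, ok2A52, ok3A52, ok4A52, ok5A52⟩ (by decide +kernel) triA52
    (by decide) witA52
    ⟨⟨mA52_0_0, mA52_0_1⟩, ⟨mA52_1_0, mA52_1_1⟩, ⟨mA52_2_0, mA52_2_1⟩, ⟨mA52_3_0, mA52_3_1⟩, ⟨mA52_4_0, mA52_4_1⟩, ⟨mA52_5_0, mA52_5_1⟩, ⟨mA52_6_0, mA52_6_1⟩, ⟨mA52_7_0, mA52_7_1⟩⟩

end Pool.Agent.Lib.MP_c69b6d_co
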