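import Pool.Agent.Lib.MP_c69b6d_co.ExA52
import Pool.Agent.Lib.MP_c69b6d_co.Lin

namespace Pool.Agent.Lib.MP_c69b6d_co

set_option maxRecDepth 100000

def LA56 : List ℕ := [15, 23, 27, 29, 39, 43, 46, 53, 54, 57, 58, 60, 71, 75, 77, 78, 83, 85, 86, 90, 92, 99, 101, 102, 105, 108, 113, 114, 120, 141, 142, 149, 150, 153, 154, 156, 165, 166, 169, 170, 172, 180, 184, 197, 198, 201, 202, 209, 210, 212, 216, 225, 226, 228, 232, 240]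

def GA56 : List (List ℕ × ℕ) := [([0, 0, 0, 1], 56), ([0, 0, 1, 0], 89), ([0, 0, 1, 1], 152), ([0, 0, 1, 2], 30), ([0, 1, 0, 0], 106), ([0, 1, 0, 1], 168), ([0, 1, 0, 2], 45), ([0, 1, 1, 2], 139), ([0, 1, 2, 0], 204), ([1, 0, 0, 0], 116), ([1, 0, 0, 2], 179), ([1, 0, 1, 0], 208), ([1, 0, 1, 2], 21), ([1, 0, 2, 0], 82), ([1, 0, 2, 1], 148), ([1, 1, 0, 0], 224), ([1, 1, 0, 2], 38), ([1, 1, 1, 1], 135), ([1, 1, 2, 0], 70), ([1, 2, 0, 0], 97), ([1, 2, 0, 1], 164), ([1, 2, 1, 0], 69), ([1, 2, 2, 0], 195)]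

def CA56 : List (List ℕ × ℕ) := [([1, 1, 0, 0, 0, 0, 0, 2], 131), ([0, 0, 1, 0, 1, 1, 1, 0], 116), ([0, 0, 1, 1, 0, 0, 2, 2], 204), ([0, 1, 0, 0, 1, 2, 0, 1], 178), ([0, 1, 0, 1, 0, 1, 1, 0], 106), ([0, 1, 2, 1, 2, 0, 0, 0], 30), ([1, 0, 0, 0, 2, 1, 0, 1], 177), ([1, 0, 0, 1, 1, 0, 1, 0], 89), ([1, 0, 2, 1, 0, 2, 0, 0], 45), ([1, 2, 0, 0, 1, 2, 0, 0], 51), ([0, 0, 0, 1, 2, 2, 1, 2], 248), ([0, 0, 1, 2, 2, 2, 0, 1], 188), ([0, 1, 0, 2, 2, 0, 2, 2], 218), ([0, 1, 1, 0, 2, 0, 1, 1], 214), ([0, 1, 1, 2, 0, 1, 0, 2], 174), ([0, 1, 2, 0, 0, 1, 2, 1], 230), ([1, 0, 0, 2, 0, 2, 2, 2], 233), ([1, 0, 1, 0, 0, 2, 1, 1], 229), ([1, 0, 1, 2, 1, 0, 0, 2], 157), ([1, 0, 2, 0, 1, 0, 2, 1], 213), ([1, 1, 2, 2, 0, 0, 1, 0], 79), ([1, 2, 1, 0, 2, 0, 1, 0], 87), ([1, 2, 2, 0, 0, 1, 2, 0], 103)]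

theorem ok1A56 : hypOK A56 GA56 = true := by decide +kernel
theorem ok2A56 : indOK A56.length (GA56.map Prod.snd) LA56 = true := by decide +kernel
theorem ok3A56 : nullOK A56 CA56 = true := by decide +kernel
theorem ok4A56 : depOK A56.length (CA56.map Prod.snd) LA56 = true := by decide +kernel
theorem ok5A56 : antiOK A56.length LA56 = true := by decide +kernel
theorem triA56 : (tri A56.length LA56).length = 1 := by decide +kernel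
theorem witA56 : wcheck 10 A56.length LA56 3 7 [29, 29, 0, 0, 6, 5, 0, 0] = true := by decide +kernel
theorem mA56_0_0 : MinorIneq 10 LA56 8 0 false :=
  minorIneq_of_tcheck (π := [1, 2, 3, 4, 5, 6, 7, 0, 8, 9]) (F := 127) (by decide +kernel) all7
theorem mA56_0_1 : MinorIneq 10 LA56 8 0 true :=
  minorIneq_of_tcheck (π := [5, 4, 2, 6, 1, 7, 3, 0, 8, 9]) (F := 128) (by decide +kernel) all4
theorem mA56_1_0 : MinorIneq 10 LA56 8 1 false :=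
  minorIneq_of_tcheck (π := [0, 2, 3, 5, 4, 6, 7, 1, 8, 9]) (F := 127) (by decide +kernel) all7
theorem mA56_1_1 : MinorIneq 10 LA56 8 1 true :=
  minorIneq_of_tcheck (π := [4, 5, 2, 6, 0, 7, 3, 1, 8, 9]) (F := 128) (by decide +kernel) all4
theorem mA56_2_0 : MinorIneq 10 LA56 8 2 false :=
  minorIneq_of_tcheck (π := [4, 5, 0, 1, 3, 6, 7, 2, 8, 9]) (F := 127) (by decide +kernel) all4
theorem mA56_2_1 : MinorIneq 10 LA56 8 2 true :=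
  minorIneq_of_tcheck (π := [0, 4, 5, 1, 7, 6, 3, 2, 8, 9]) (F := 128) (by decide +kernel) all7
theorem mA56_3_0 : MinorIneq 10 LA56 8 3 false :=
  minorIneq_of_tcheck (π := [0, 1, 2, 4, 5, 6, 7, 3, 8, 9]) (F := 127) (by decide +kernel) all8
theorem mA56_3_1 : MinorIneq 10 LA56 8 3 true :=
  minorIneq_of_tcheck (π := [5, 7, 0, 1, 2, 4, 6, 3, 8, 9]) (F := 128) (by decide +kernel) all3
theorem mA56_4_0 : MinorIneq 10 LA56 8 4 false :=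
  minorIneq_of_tcheck (π := [0, 3, 6, 5, 1, 7, 2, 4, 8, 9]) (F := 127) (by decide +kernel) all5
theorem mA56_4_1 : MinorIneq 10 LA56 8 4 true :=
  minorIneq_of_tcheck (π := [2, 7, 0, 1, 3, 6, 5, 4, 8, 9]) (F := 128) (by decide +kernel) all5
theorem mA56_5_0 : MinorIneq 10 LA56 8 5 false :=
  minorIneq_of_tcheck (π := [0, 3, 2, 4, 1, 7, 6, 5, 8, 9]) (F := 127) (by decide +kernel) all5
theorem mA56_5_1 : MinorIneq 10 LA56 8 5 true :=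
  minorIneq_of_tcheck (π := [6, 7, 0, 1, 3, 2, 4, 5, 8, 9]) (F := 128) (by decide +kernel) all5
theorem mA56_6_0 : MinorIneq 10 LA56 8 6 false :=
  minorIneq_of_tcheck (π := [5, 4, 0, 1, 2, 3, 7, 6, 8, 9]) (F := 127) (by decide +kernel) all4
theorem mA56_6_1 : MinorIneq 10 LA56 8 6 true :=
  minorIneq_of_tcheck (π := [0, 5, 4, 1, 7, 2, 3, 6, 8, 9]) (F := 128) (by decide +kernel) all7
theorem mA56_7_0 : MinorIneq 10 LA56 8 7 false :=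
  minorIneq_of_tcheck (π := [4, 3, 0, 1, 2, 5, 6, 7, 8, 9]) (F := 127) (by decide +kernel) all3
theorem mA56_7_1 : MinorIneq 10 LA56 8 7 true :=
  minorIneq_of_tcheck (π := [2, 3, 0, 4, 5, 1, 6, 7, 8, 9]) (F := 128) (by decide +kernel) all8

theorem exA56 : ∃ M : Matroid (Fin A56.length), M.E = Set.univ ∧
    (∀ I, M.Indep I ↔ LinearIndepOn (ZMod 3) (cols A56) I) ∧
    {B | M.IsBase B}.ncard = 56 ∧ {X | X.ncard = 3 ∧ M.Dep X}.ncard = 1 ∧ ExcludedMinor M :=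
  main (by decide) ⟨ok1A56, ok2A56, ok3A56, ok4A56, ok5A56⟩ (by decide +kernel) triA56
    (by decide) witA56
    ⟨⟨mA56_0_0, mA56_0_1⟩, ⟨mA56_1_0, mA56_1_1⟩, ⟨mA56_2_0, mA56_2_1⟩, ⟨mA56_3_0, mA56_3_1⟩, ⟨mA56_4_0, mA56_4_1⟩, ⟨mA56_5_0, mA56_5_1⟩, ⟨mA56_6_0, mA56_6_1⟩, ⟨mA56_7_0, mA56_7_1⟩⟩

end Pool.Agent.Lib.MP_c69b6d_co
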