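import Pool.Agent.Lib.MP_c69b6d_co.ExA56
import Pool.Agent.Lib.MP_c69b6d_co.Lin

namespace Pool.Agent.Lib.MP_c69b6d_co

set_option maxRecDepth 100000

def LB172 : List ℕ := [31, 47, 55, 59, 61, 62, 87, 91, 93, 94, 103, 107, 109, 110, 115, 121, 122, 143, 151, 155, 157, 167, 171, 174, 181, 182, 185, 186, 188, 199, 203, 205, 206, 211, 213, 214, 218, 220, 227, 229, 230, 233, 236, 241, 242, 248, 271, 279, 283, 285, 295, 299, 301, 302, 310, 314, 316, 327, 331, 333, 334, 339, 342, 345, 346, 348, 355, 358, 361, 364, 370, 376, 397, 405, 409, 421, 425, 428, 436, 440, 453, 457, 460, 465, 468, 472, 481, 484, 496, 535, 542, 551, 558, 563, 565, 570, 572, 595, 597, 602, 604, 611, 613, 618, 620, 625, 632, 647, 654, 659, 661, 662, 666, 668, 675, 678, 682, 689, 690, 692, 696, 707, 709, 714, 716, 722, 724, 737, 738, 740, 744, 752, 775, 782, 787,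 789, 790, 794, 796, 803, 805, 806, 810, 812, 818, 820, 835, 837, 842, 844, 849, 850, 852, 856, 865, 866, 868, 872, 880, 901, 908, 913, 916, 920, 929, 932, 936, 944, 961, 968, 976, 992]

def GB172 : List (List ℕ × ℕ) := [([0, 0, 0, 0, 1], 124), ([0, 0, 0, 1, 0], 184), ([0, 0, 0, 1, 1], 58), ([0, 0, 0, 1, 2], 825), ([0, 0, 1, 0, 0], 729), ([0, 0, 1, 0, 1], 90), ([0, 0, 1, 0, 2], 344), ([0, 0, 1, 1, 2], 539), ([0, 0, 1, 2, 0], 414), ([0, 0, 1, 2, 1], 541), ([0, 1, 0, 0, 0], 490), ([0, 1, 0, 0, 2], 617), ([0, 1, 0, 1, 1], 555), ([0, 1, 0, 2, 0], 685), ([0, 1, 0, 2, 1], 300), ([0, 1, 0, 2, 2], 46), ([0, 1, 1, 0, 2], 841), ([0, 1, 1, 1, 1], 781), ([0, 1, 1, 2, 0], 907), ([0, 1, 2, 0, 0], 204), ([0, 1, 2, 0, 1], 332), ([0, 1, 2, 0, 2], 591), ([1, 0, 0, 0, 0], 244), ([1, 0, 0, 0, 1], 630), ([1, 0, 0, 0, 2], 373), ([1, 0, 0, 1, 0], 688),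 ([1, 0, 0, 2, 0], 435), ([1, 0, 1, 0, 1], 848), ([1, 0, 1, 0, 2], 83), ([1, 0, 1, 1, 0], 914), ([1, 0, 1, 2, 0], 149), ([1, 0, 1, 2, 2], 788), ([1, 0, 2, 0, 0], 466), ([1, 0, 2, 1, 0], 660), ([1, 0, 2, 1, 1], 23), ([1, 1, 0, 0, 0], 736), ([1, 1, 0, 0, 1], 99), ([1, 1, 0, 2, 0], 422), ([1, 1, 1, 1, 0], 391), ([1, 1, 2, 0, 0], 966), ([1, 2, 0, 0, 0], 225), ([1, 2, 0, 0, 2], 864), ([1, 2, 0, 1, 1], 804), ([1, 2, 0, 1, 2], 39), ([1, 2, 0, 2, 0], 930), ([1, 2, 1, 0, 0], 197), ([1, 2, 2, 0, 0], 451)]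

def CB172 : List (List ℕ × ℕ) := [([0, 1, 0, 0, 0, 0, 0, 1, 1, 0], 386), ([1, 0, 0, 2, 0, 0, 0, 0, 0, 2], 521), ([0, 0, 1, 0, 1, 1, 1, 0, 0, 0], 116), ([0, 1, 2, 0, 0, 0, 1, 0, 0, 1], 582), ([1, 0, 0, 0, 1, 2, 0, 0, 1, 0], 305), ([0, 0, 0, 1, 0, 1, 1, 1, 2, 0], 488), ([0, 0, 0, 1, 1, 2, 0, 0, 1, 1], 824), ([0, 0, 0, 1, 2, 0, 2, 2, 0, 2], 728), ([0, 0, 1, 0, 0, 0, 2, 1, 1, 2], 964), ([0, 0, 1, 1, 0, 1, 0, 2, 0, 2], 684), ([0, 0, 1, 2, 1, 0, 0, 2, 1, 0], 412), ([0, 1, 0, 0, 1, 1, 2, 0, 0, 1], 626), ([0, 1, 0, 1, 0, 1, 1, 2, 0, 0], 234), ([0, 1, 0, 2, 0, 2, 2, 0, 2, 0], 362), ([0, 1, 1, 0, 2, 2, 0, 0, 0, 1], 566), ([0, 1, 1, 2, 1, 0, 0, 0, 2, 0], 286), ([0, 1, 2, 1, 2, 0, 0, 2, 0, 0], 158), ([1, 0, 0, 0, 2, 0, 2, 2, 0, 1], 721), ([1, 0, 0, 1, 1, 0, 1, 1, 0, 0], 217), ([1, 0, 1, 0, 0, 1, 0, 2, 0, 1], 677), ([1, 0, 1, 0, 2, 0, 1,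 0, 1, 0], 341), ([1, 0, 2, 0, 0, 1, 2, 0, 1, 0], 357), ([1, 0, 2, 1, 0, 2, 0, 1, 0, 0], 173), ([1, 1, 2, 2, 0, 0, 1, 0, 0, 0], 79), ([1, 2, 0, 0, 1, 2, 0, 2, 0, 0], 179), ([0, 0, 0, 0, 1, 1, 2, 2, 2, 1], 1008), ([0, 0, 1, 0, 2, 2, 0, 2, 2, 1], 948), ([0, 0, 1, 1, 2, 0, 1, 0, 1, 1], 860), ([0, 0, 1, 2, 0, 2, 1, 0, 2, 2], 876), ([0, 1, 0, 1, 2, 0, 2, 0, 1, 2], 858), ([0, 1, 0, 2, 2, 1, 0, 1, 0, 2], 698), ([0, 1, 1, 1, 0, 1, 0, 0, 1, 2], 814), ([1, 0, 0, 0, 0, 1, 1, 1, 2, 2], 993), ([1, 0, 2, 0, 2, 0, 0, 1, 2, 2], 917), ([1, 0, 2, 2, 0, 0, 1, 2, 2, 0], 461), ([1, 1, 0, 0, 0, 1, 1, 2, 0, 2], 739), ([1, 1, 0, 0, 2, 0, 2, 0, 1, 1], 851), ([1, 1, 0, 2, 1, 1, 2, 0, 0, 0], 123), ([1, 1, 1, 0, 0, 1, 0, 0, 1, 1], 807), ([1, 1, 1, 2, 2, 2, 0, 0, 0, 0], 63), ([1, 1, 2, 0, 2, 0, 0, 2, 0, 2], 663), ([1, 2, 0, 0, 0, 1, 1, 0, 1, 2], 867), ([1,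 2, 0, 1, 1, 0, 1, 0, 2, 0], 347), ([1, 2, 1, 0, 2, 0, 1, 2, 0, 0], 215), ([1, 2, 2, 0, 0, 1, 2, 2, 0, 0], 231), ([1, 2, 2, 0, 2, 0, 0, 0, 1, 2], 791), ([1, 2, 2, 1, 0, 2, 0, 0, 2, 0], 303)]

theorem ok1B172 : hypOK B172 GB172 = true := by decide +kernel
theorem ok2B172 : indOK B172.length (GB172.map Prod.snd) LB172 = true := by decide +kernel
theorem ok3B172 : nullOK B172 CB172 = true := by decide +kernel
theorem ok4B172 : depOK B172.length (CB172.map Prod.snd) LB172 = true := by decide +kernel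
theorem ok5B172 : antiOK B172.length LB172 = true := by decide +kernel
theorem triB172 : (tri B172.length LB172).length = 2 := by decide +kernel
theorem witB172 : wcheck 10 B172.length LB172 0 1 [0, 0, 0, 1, 0, 1, 1, 1, 2, 1] = true := by decide +kernel
theorem mB172_0_0 : MinorIneq 10 LB172 10 0 false :=
  minorIneq_of_tcheck (π := [1, 2, 3, 4, 5, 6, 7, 8, 9, 0]) (F := 511) (by decide +kernel) all12
theorem mB172_0_1 : MinorIneq 10 LB172 10 0 true :=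
  minorIneq_of_tcheck (π := [1, 2, 3, 4, 5, 6, 7, 8, 9, 0]) (F := 512) (by decide +kernel) all13
theorem mB172_1_0 : MinorIneq 10 LB172 10 1 false :=
  minorIneq_of_tcheck (π := [0, 5, 7, 2, 6, 4, 3, 9, 8, 1]) (F := 511) (by decide +kernel) all12
theorem mB172_1_1 : MinorIneq 10 LB172 10 1 true :=
  minorIneq_of_tcheck (π := [0, 5, 7, 2, 6, 4, 3, 9, 8, 1]) (F := 512) (by decide +kernel) all13
theorem mB172_2_0 : MinorIneq 10 LB172 10 2 false :=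
  minorIneq_of_tcheck (π := [0, 1, 3, 4, 5, 6, 7, 8, 9, 2]) (F := 511) (by decide +kernel) all14
theorem mB172_2_1 : MinorIneq 10 LB172 10 2 true :=
  minorIneq_of_tcheck (π := [0, 1, 3, 4, 5, 6, 7, 8, 9, 2]) (F := 512) (by decide +kernel) all15
theorem mB172_3_0 : MinorIneq 10 LB172 10 3 false :=
  minorIneq_of_tcheck (π := [0, 1, 2, 4, 5, 6, 7, 8, 9, 3]) (F := 511) (by decide +kernel) all16
theorem mB172_3_1 : MinorIneq 10 LB172 10 3 true :=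
  minorIneq_of_tcheck (π := [0, 1, 2, 4, 5, 6, 7, 8, 9, 3]) (F := 512) (by decide +kernel) all17
theorem mB172_4_0 : MinorIneq 10 LB172 10 4 false :=
  minorIneq_of_tcheck (π := [1, 0, 7, 6, 2, 5, 3, 9, 8, 4]) (F := 511) (by decide +kernel) all14
theorem mB172_4_1 : MinorIneq 10 LB172 10 4 true :=
  minorIneq_of_tcheck (π := [1, 0, 7, 6, 2, 5, 3, 9, 8, 4]) (F := 512) (by decide +kernel) all15
theorem mB172_5_0 : MinorIneq 10 LB172 10 5 false :=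
  minorIneq_of_tcheck (π := [1, 0, 7, 2, 6, 4, 3, 9, 8, 5]) (F := 511) (by decide +kernel) all14
theorem mB172_5_1 : MinorIneq 10 LB172 10 5 true :=
  minorIneq_of_tcheck (π := [1, 0, 7, 2, 6, 4, 3, 9, 8, 5]) (F := 512) (by decide +kernel) all15
theorem mB172_6_0 : MinorIneq 10 LB172 10 6 false :=
  minorIneq_of_tcheck (π := [0, 1, 3, 5, 4, 2, 7, 8, 9, 6]) (F := 511) (by decide +kernel) all14
theorem mB172_6_1 : MinorIneq 10 LB172 10 6 true :=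
  minorIneq_of_tcheck (π := [0, 1, 3, 5, 4, 2, 7, 8, 9, 6]) (F := 512) (by decide +kernel) all15
theorem mB172_7_0 : MinorIneq 10 LB172 10 7 false :=
  minorIneq_of_tcheck (π := [1, 0, 5, 2, 6, 4, 3, 9, 8, 7]) (F := 511) (by decide +kernel) all16
theorem mB172_7_1 : MinorIneq 10 LB172 10 7 true :=
  minorIneq_of_tcheck (π := [1, 0, 5, 2, 6, 4, 3, 9, 8, 7]) (F := 512) (by decide +kernel) all17
theorem mB172_8_0 : MinorIneq 10 LB172 10 8 false :=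
  minorIneq_of_tcheck (π := [9, 2, 7, 5, 4, 6, 3, 0, 1, 8]) (F := 511) (by decide +kernel) all12
theorem mB172_8_1 : MinorIneq 10 LB172 10 8 true :=
  minorIneq_of_tcheck (π := [9, 2, 1, 5, 4, 6, 3, 0, 7, 8]) (F := 512) (by decide +kernel) all13
theorem mB172_9_0 : MinorIneq 10 LB172 10 9 false :=
  minorIneq_of_tcheck (π := [8, 4, 3, 2, 6, 5, 7, 1, 0, 9]) (F := 511) (by decide +kernel) all12
theorem mB172_9_1 : MinorIneq 10 LB172 10 9 true :=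
  minorIneq_of_tcheck (π := [8, 4, 0, 2, 6, 5, 7, 1, 3, 9]) (F := 512) (by decide +kernel) all13

theorem exB172 : ∃ M : Matroid (Fin B172.length), M.E = Set.univ ∧
    (∀ I, M.Indep I ↔ LinearIndepOn (ZMod 3) (cols B172) I) ∧
    {B | M.IsBase B}.ncard = 172 ∧ {X | X.ncard = 3 ∧ M.Dep X}.ncard = 2 ∧ ExcludedMinor M :=
  main (by decide) ⟨ok1B172, ok2B172, ok3B172, ok4B172, ok5B172⟩ (by decide +kernel) triB172
    (by decide) witB172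
    ⟨⟨mB172_0_0, mB172_0_1⟩, ⟨mB172_1_0, mB172_1_1⟩, ⟨mB172_2_0, mB172_2_1⟩, ⟨mB172_3_0, mB172_3_1⟩, ⟨mB172_4_0, mB172_4_1⟩, ⟨mB172_5_0, mB172_5_1⟩, ⟨mB172_6_0, mB172_6_1⟩, ⟨mB172_7_0, mB172_7_1⟩, ⟨mB172_8_0, mB172_8_1⟩, ⟨mB172_9_0, mB172_9_1⟩⟩

end Pool.Agent.Lib.MP_c69b6d_co
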