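import Pool.Agent.Lib.MP_c69b6d_co.ExB172
import Pool.Agent.Lib.MP_c69b6d_co.Lin

namespace Pool.Agent.Lib.MP_c69b6d_co

set_option maxRecDepth 100000

def LB172d : List ℕ := [31, 47, 55, 62, 79, 87, 91, 94, 103, 107, 110, 115, 122, 143, 151, 155, 157, 158, 167, 171, 173, 174, 179, 181, 186, 188, 203, 205, 211, 213, 217, 218, 220, 227, 229, 233, 234, 236, 241, 248, 271, 279, 283, 285, 286, 299, 301, 307, 309, 314, 316, 327, 331, 333, 334, 341, 345, 348, 355, 357, 361, 362, 364, 369, 376, 391, 398, 403, 405, 410, 412, 419, 421, 426, 428, 451, 453, 458, 460, 465, 472, 481, 488, 527, 539, 542, 551, 555, 558, 563, 566, 570, 583, 587, 595, 598, 602, 614, 618, 626, 647, 653, 659, 662, 665, 668, 675, 677, 678, 681, 684, 689, 690, 692, 696, 707, 709, 713, 721, 722, 724, 728, 738, 740, 744, 752, 775, 781, 782, 787, 790, 793, 794, 796,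 803, 805, 809, 810, 812, 817, 818, 820, 824, 835, 837, 838, 841, 842, 849, 852, 856, 866, 868, 872, 880, 901, 902, 908, 913, 914, 916, 920, 929, 930, 932, 936, 961, 962, 964, 968, 976, 992]

def GB172d : List (List ℕ × ℕ) := [([0, 0, 0, 0, 1], 30), ([0, 0, 0, 1, 0], 637), ([0, 0, 0, 1, 1], 284), ([0, 0, 0, 1, 2], 156), ([0, 0, 1, 0, 0], 59), ([0, 0, 1, 0, 1], 346), ([0, 0, 1, 0, 2], 666), ([0, 0, 1, 1, 1], 216), ([0, 0, 1, 1, 2], 792), ([0, 0, 1, 2, 0], 441), ([0, 1, 0, 0, 0], 535), ([0, 1, 0, 0, 2], 502), ([0, 1, 0, 1, 0], 789), ([0, 1, 0, 2, 0], 661), ([0, 1, 1, 0, 0], 339), ([0, 1, 1, 0, 2], 562), ([0, 1, 1, 1, 0], 209), ([0, 1, 1, 2, 2], 944), ([0, 1, 2, 0, 0], 147), ([0, 1, 2, 0, 1], 850), ([0, 1, 2, 2, 1], 720), ([1, 0, 0, 0, 0], 15), ([1, 0, 0, 0, 1], 718), ([1, 0, 0, 0, 2], 302), ([1, 0, 0, 1, 0], 397), ([1, 0, 0, 2,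 1], 844), ([1, 0, 0, 2, 2], 172), ([1, 0, 1, 0, 0], 907), ([1, 0, 1, 0, 2], 106), ([1, 0, 1, 1, 2], 232), ([1, 0, 1, 2, 2], 360), ([1, 0, 2, 0, 0], 75), ([1, 0, 2, 0, 2], 682), ([1, 0, 2, 1, 2], 808), ([1, 0, 2, 2, 0], 457), ([1, 1, 0, 0, 0], 199), ([1, 1, 0, 0, 1], 806), ([1, 1, 0, 2, 0], 325), ([1, 1, 0, 2, 1], 676), ([1, 1, 2, 2, 2], 960), ([1, 2, 0, 0, 0], 295), ([1, 2, 0, 1, 1], 900), ([1, 2, 0, 2, 0], 165), ([1, 2, 1, 0, 0], 611), ([1, 2, 1, 1, 0], 737), ([1, 2, 1, 2, 0], 865), ([1, 2, 2, 0, 0], 163)]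

def CB172d : List (List ℕ × ℕ) := [([0, 0, 0, 0, 1, 2, 0, 2, 1, 0], 432), ([0, 0, 1, 0, 2, 2, 1, 0, 0, 0], 116), ([0, 0, 1, 1, 0, 0, 2, 0, 0, 2], 588), ([0, 1, 0, 0, 1, 0, 2, 0, 2, 0], 338), ([0, 1, 0, 1, 0, 0, 0, 2, 0, 2], 650), ([0, 1, 1, 0, 0, 2, 0, 0, 2, 0], 294), ([0, 1, 2, 0, 0, 0, 1, 2, 0, 0], 198), ([1, 0, 0, 0, 0, 1, 2, 0, 0, 1], 609), ([1, 0, 0, 1, 0, 0, 0, 1, 2, 0], 393), ([1, 0, 0, 1, 1, 2, 0, 0, 0, 0], 57), ([1, 0, 1, 0, 2, 0, 0, 0, 0, 1], 533), ([0, 0, 0, 1, 1, 1, 1, 0, 0, 2], 632), ([0, 0, 1, 0, 0, 1, 1, 2, 1, 0], 484), ([0, 0, 1, 0, 1, 0, 1, 1, 2, 0], 468), ([0, 0, 1, 2, 1, 1, 0, 0, 0, 1], 572), ([0, 1, 0, 0, 0, 1, 2, 1, 1, 0], 482), ([0, 1, 0, 0, 2, 2, 2, 2, 0, 0], 242), ([0, 1, 1, 0, 1, 1, 0, 2, 0, 0], 182), ([0, 1, 1, 0, 2, 0, 0, 1, 1, 0], 406), ([1, 0, 0, 2, 2, 0, 1, 0, 0, 2], 601), ([1, 0, 1, 1, 0, 1, 1,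 0, 0, 0], 109), ([1, 0, 2, 1, 2, 0, 2, 0, 0, 0], 93), ([1, 0, 2, 2, 0, 1, 0, 0, 0, 2], 557), ([1, 1, 0, 2, 0, 0, 0, 0, 2, 2], 779), ([1, 2, 0, 0, 0, 0, 0, 2, 2, 1], 899), ([0, 0, 0, 1, 0, 2, 1, 1, 2, 2], 1000), ([0, 0, 0, 1, 2, 0, 1, 2, 1, 2], 984), ([0, 0, 1, 2, 0, 2, 0, 1, 2, 1], 940), ([0, 0, 1, 2, 2, 0, 0, 2, 1, 1], 924), ([0, 1, 0, 1, 2, 1, 0, 0, 2, 2], 826), ([0, 1, 0, 2, 0, 2, 1, 0, 2, 1], 874), ([0, 1, 2, 2, 1, 0, 0, 0, 2, 1], 798), ([1, 0, 0, 0, 1, 0, 2, 2, 1, 1], 977), ([1, 0, 1, 0, 0, 2, 0, 2, 1, 1], 933), ([1, 0, 2, 0, 0, 0, 1, 1, 2, 1], 965), ([1, 1, 0, 0, 2, 0, 1, 2, 0, 1], 723), ([1, 1, 0, 1, 0, 1, 2, 2, 0, 0], 235), ([1, 1, 1, 0, 0, 0, 2, 0, 2, 1], 839), ([1, 1, 1, 1, 2, 0, 0, 2, 0, 0], 159), ([1, 1, 2, 0, 0, 1, 0, 2, 0, 1], 679), ([1, 1, 2, 1, 0, 0, 1, 0, 2, 0], 335), ([1, 2, 0, 0, 1, 2, 0, 1, 0, 1], 691), ([1,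 2, 0, 0, 2, 1, 0, 0, 1, 1], 819), ([1, 2, 0, 1, 0, 2, 1, 0, 1, 0], 363), ([1, 2, 0, 1, 2, 0, 1, 1, 0, 0], 219), ([1, 2, 2, 1, 0, 1, 0, 1, 0, 0], 175), ([1, 2, 2, 1, 1, 0, 0, 0, 1, 0], 287)]

theorem ok1B172d : hypOK B172d GB172d = true := by decide +kernel
theorem ok2B172d : indOK B172d.length (GB172d.map Prod.snd) LB172d = true := by decide +kernel
theorem ok3B172d : nullOK B172d CB172d = true := by decide +kernel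
theorem ok4B172d : depOK B172d.length (CB172d.map Prod.snd) LB172d = true := by decide +kernel
theorem ok5B172d : antiOK B172d.length LB172d = true := by decide +kernel
theorem triB172d : (tri B172d.length LB172d).length = 0 := by decide +kernel
theorem witB172d : wcheck 10 B172d.length LB172d 0 1 [0, 0, 2, 2, 2, 2, 2, 2, 0, 1] = true := by decide +kernel
theorem mB172d_0_0 : MinorIneq 10 LB172d 10 0 false :=
  minorIneq_of_tcheck (π := [1, 2, 3, 4, 5, 6, 7, 8, 9, 0]) (F := 511) (by decide +kernel) all13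
theorem mB172d_0_1 : MinorIneq 10 LB172d 10 0 true :=
  minorIneq_of_tcheck (π := [1, 2, 3, 4, 5, 6, 7, 8, 9, 0]) (F := 512) (by decide +kernel) all12
theorem mB172d_1_0 : MinorIneq 10 LB172d 10 1 false :=
  minorIneq_of_tcheck (π := [0, 5, 7, 2, 6, 4, 3, 9, 8, 1]) (F := 511) (by decide +kernel) all13
theorem mB172d_1_1 : MinorIneq 10 LB172d 10 1 true :=
  minorIneq_of_tcheck (π := [0, 5, 7, 2, 6, 4, 3, 9, 8, 1]) (F := 512) (by decide +kernel) all12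
theorem mB172d_2_0 : MinorIneq 10 LB172d 10 2 false :=
  minorIneq_of_tcheck (π := [0, 1, 3, 4, 5, 6, 7, 8, 9, 2]) (F := 511) (by decide +kernel) all15
theorem mB172d_2_1 : MinorIneq 10 LB172d 10 2 true :=
  minorIneq_of_tcheck (π := [0, 1, 3, 4, 5, 6, 7, 8, 9, 2]) (F := 512) (by decide +kernel) all14
theorem mB172d_3_0 : MinorIneq 10 LB172d 10 3 false :=
  minorIneq_of_tcheck (π := [0, 1, 2, 4, 5, 6, 7, 8, 9, 3]) (F := 511) (by decide +kernel) all17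
theorem mB172d_3_1 : MinorIneq 10 LB172d 10 3 true :=
  minorIneq_of_tcheck (π := [0, 1, 2, 4, 5, 6, 7, 8, 9, 3]) (F := 512) (by decide +kernel) all16
theorem mB172d_4_0 : MinorIneq 10 LB172d 10 4 false :=
  minorIneq_of_tcheck (π := [1, 0, 7, 6, 2, 5, 3, 9, 8, 4]) (F := 511) (by decide +kernel) all15
theorem mB172d_4_1 : MinorIneq 10 LB172d 10 4 true :=
  minorIneq_of_tcheck (π := [1, 0, 7, 6, 2, 5, 3, 9, 8, 4]) (F := 512) (by decide +kernel) all14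
theorem mB172d_5_0 : MinorIneq 10 LB172d 10 5 false :=
  minorIneq_of_tcheck (π := [1, 0, 7, 2, 6, 4, 3, 9, 8, 5]) (F := 511) (by decide +kernel) all15
theorem mB172d_5_1 : MinorIneq 10 LB172d 10 5 true :=
  minorIneq_of_tcheck (π := [1, 0, 7, 2, 6, 4, 3, 9, 8, 5]) (F := 512) (by decide +kernel) all14
theorem mB172d_6_0 : MinorIneq 10 LB172d 10 6 false :=
  minorIneq_of_tcheck (π := [0, 1, 3, 5, 4, 2, 7, 8, 9, 6]) (F := 511) (by decide +kernel) all15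
theorem mB172d_6_1 : MinorIneq 10 LB172d 10 6 true :=
  minorIneq_of_tcheck (π := [0, 1, 3, 5, 4, 2, 7, 8, 9, 6]) (F := 512) (by decide +kernel) all14
theorem mB172d_7_0 : MinorIneq 10 LB172d 10 7 false :=
  minorIneq_of_tcheck (π := [1, 0, 5, 2, 6, 4, 3, 9, 8, 7]) (F := 511) (by decide +kernel) all17
theorem mB172d_7_1 : MinorIneq 10 LB172d 10 7 true :=
  minorIneq_of_tcheck (π := [1, 0, 5, 2, 6, 4, 3, 9, 8, 7]) (F := 512) (by decide +kernel) all16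
theorem mB172d_8_0 : MinorIneq 10 LB172d 10 8 false :=
  minorIneq_of_tcheck (π := [9, 2, 1, 5, 4, 6, 3, 0, 7, 8]) (F := 511) (by decide +kernel) all13
theorem mB172d_8_1 : MinorIneq 10 LB172d 10 8 true :=
  minorIneq_of_tcheck (π := [9, 2, 7, 5, 4, 6, 3, 0, 1, 8]) (F := 512) (by decide +kernel) all12
theorem mB172d_9_0 : MinorIneq 10 LB172d 10 9 false :=
  minorIneq_of_tcheck (π := [8, 4, 0, 2, 6, 5, 7, 1, 3, 9]) (F := 511) (by decide +kernel) all13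
theorem mB172d_9_1 : MinorIneq 10 LB172d 10 9 true :=
  minorIneq_of_tcheck (π := [8, 4, 3, 2, 6, 5, 7, 1, 0, 9]) (F := 512) (by decide +kernel) all12

theorem exB172d : ∃ M : Matroid (Fin B172d.length), M.E = Set.univ ∧
    (∀ I, M.Indep I ↔ LinearIndepOn (ZMod 3) (cols B172d) I) ∧
    {B | M.IsBase B}.ncard = 172 ∧ {X | X.ncard = 3 ∧ M.Dep X}.ncard = 0 ∧ ExcludedMinor M :=
  main (by decide) ⟨ok1B172d, ok2B172d, ok3B172d, ok4B172d, ok5B172d⟩ (by decide +kernel) triB172d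
    (by decide) witB172d
    ⟨⟨mB172d_0_0, mB172d_0_1⟩, ⟨mB172d_1_0, mB172d_1_1⟩, ⟨mB172d_2_0, mB172d_2_1⟩, ⟨mB172d_3_0, mB172d_3_1⟩, ⟨mB172d_4_0, mB172d_4_1⟩, ⟨mB172d_5_0, mB172d_5_1⟩, ⟨mB172d_6_0, mB172d_6_1⟩, ⟨mB172d_7_0, mB172d_7_1⟩, ⟨mB172d_8_0, mB172d_8_1⟩, ⟨mB172d_9_0, mB172d_9_1⟩⟩

end Pool.Agent.Lib.MP_c69b6d_co
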