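import Pool.Agent.Lib.MP_c69b6d_co.Push

set_option linter.unusedSimpArgs false

namespace Pool.Agent.Lib.MP_c69b6d_co

noncomputable def ev2f : List (ℝ × ℝ) → P2 → ℝ
  | [], a => a.cst
  | _ :: _, P2.z => 0
  | w :: l, P2.c k => w.2 * ev2f l (P2.c k)
  | w :: l, P2.n a b => w.2 * ev2f l a + w.1 * ev2f l b

theorem ev2f_z (l : List (ℝ × ℝ)) : ev2f l P2.z = 0 := by
  cases l <;> simp [ev2f, P2.cst_z]

/-- split a ternary tree into its three children. -/
noncomputable def split3 (t : P3) (k : P3 → P3 → P3 → P3) : P3 :=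
  P3.rec (motive := fun _ => P3) (k P3.z P3.z P3.z) (fun m => k (P3.c m) P3.z P3.z)
    (fun a b d _ _ _ => k a b d) t

theorem split3_spec (t : P3) (k : P3 → P3 → P3 → P3) : ∃ a b d, split3 t k = k a b d ∧
    t.cst = a.cst ∧ ∀ w l, ev3 (w :: l) t =
      w.2 ^ 2 * ev3 l a + w.1 * w.2 * ev3 l b + w.1 ^ 2 * ev3 l d := by
  cases t with
  | z => exact ⟨_, _, _, rfl, rfl, fun w l => by simp [ev3, ev3_z]⟩
  | c m => exact ⟨_, _, _, rfl, rfl, fun w l => by simp [ev3, ev3_z]⟩
  | n a b d => exact ⟨_, _, _, rfl, rfl, fun w l => by simp [ev3]⟩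

/-- `t + k * b`, with `k` a constant. -/
noncomputable def embA (k : ℤ) (b : P2) : P3 → P3 :=
  P2.rec (motive := fun _ => P3 → P3) (fun t => t) (fun m t => t.addc (Int.mul k m))
    (fun _ _ r0 r1 t => split3 t (fun t0 t1 t2 => P3.n (r0 t0) (r1 t1) t2)) b

theorem ev_cc (l : List (ℝ × ℝ)) (k m j : ℤ) :
    ev3 l (P3.c (k * m * j)) = k * (ev2f l (P2.c m) * ev2f l (P2.c j)) := by
  induction l with
  | nil => simp [ev3, ev2f, P3.cst, P2.cst_c, mul_assoc]
  | cons w l ih => simp only [ev3, ev2f, ih]; ring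

theorem ev3_embA (l : List (ℝ × ℝ)) (k m : ℤ) (b : P2) (t : P3) :
    ev3 l (embA (k * m) b t) = k * (ev2f l (P2.c m) * ev2f l b) + ev3 l t := by
  induction b generalizing l t with
  | z => simp [embA, ev2f_z]
  | c j =>
    have : embA (k * m) (P2.c j) t = t.addc (k * m * j) := rfl
    rw [this, ev3_addc, ev_cc]
  | n b0 b1 ih0 ih1 =>
    obtain ⟨t0, t1, t2, h1, h2, h3⟩ :=
      split3_spec t (fun t0 t1 t2 => P3.n (embA (k * m) b0 t0) (embA (k * m) b1 t1) t2)
    have : embA (k * m) (P2.n b0 b1) t =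
      split3 t (fun t0 t1 t2 => P3.n (embA (k * m) b0 t0) (embA (k * m) b1 t1) t2) := rfl
    rw [this, h1]
    cases l with
    | nil =>
      have := ih0 [] t0
      simp only [ev3, ev2f, P3.cst, P2.cst_n] at this ⊢
      rw [this, h2]
    | cons w l => rw [h3]; simp only [ev3, ev2f, ih0, ih1]; ring

/-- `t + k * a * b`. -/
noncomputable def fma (k : ℤ) (a : P2) : P2 → P3 → P3 :=
  P2.rec (motive := fun _ => P2 → P3 → P3) (fun _ t => t) (fun m b t => embA (Int.mul k m) b t)
    (fun a0 a1 r0 r1 b t => P2.rec (motive := fun _ => P3) t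
      (fun m => embA (Int.mul k m) (P2.n a0 a1) t)
      (fun b0 b1 _ _ => split3 t (fun t0 t1 t2 => P3.n (r0 b0 t0) (r0 b1 (r1 b0 t1)) (r1 b1 t2)))
      b) a

theorem ev3_fma (l : List (ℝ × ℝ)) (k : ℤ) (a b : P2) (t : P3) :
    ev3 l (fma k a b t) = k * (ev2f l a * ev2f l b) + ev3 l t := by
  induction a generalizing l b t with
  | z => simp [fma, ev2f_z]
  | c m => exact ev3_embA l k m b t
  | n a0 a1 ih0 ih1 =>
    cases b with
    | z => simp [fma, ev2f_z]
    | c m =>
      have : fma k (P2.n a0 a1) (P2.c m) t = embA (k * m) (P2.n a0 a1) t := rfl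
      rw [this, ev3_embA]; ring
    | n b0 b1 =>
      obtain ⟨t0, t1, t2, h1, h2, h3⟩ := split3_spec t (fun t0 t1 t2 =>
        P3.n (fma k a0 b0 t0) (fma k a0 b1 (fma k a1 b0 t1)) (fma k a1 b1 t2))
      have : fma k (P2.n a0 a1) (P2.n b0 b1) t = split3 t (fun t0 t1 t2 =>
        P3.n (fma k a0 b0 t0) (fma k a0 b1 (fma k a1 b0 t1)) (fma k a1 b1 t2)) := rfl
      rw [this, h1]
      cases l with
      | nil =>
        have := ih0 [] b0 t0
        simp only [ev3, ev2f, P3.cst, P2.cst_n] at this ⊢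
        rw [this, h2]
      | cons w l => rw [h3]; simp only [ev3, ev2f, ih0, ih1]; ring

/-- `t + k * a * a`, where `k2 = 2 * k`. -/
noncomputable def fsq (k k2 : ℤ) (a : P2) : P3 → P3 :=
  P2.rec (motive := fun _ => P3 → P3) (fun t => t)
    (fun m t => t.addc (Int.mul (Int.mul k m) m))
    (fun a0 a1 r0 r1 t => split3 t (fun t0 t1 t2 => P3.n (r0 t0) (fma k2 a0 a1 t1) (r1 t2))) a

theorem ev3_fsq (l : List (ℝ × ℝ)) (k : ℤ) (a : P2) (t : P3) :
    ev3 l (fsq k (2 * k) a t) = k * (ev2f l a * ev2f l a) + ev3 l t := by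
  induction a generalizing l t with
  | z => simp [fsq, ev2f_z]
  | c m =>
    have : fsq k (2 * k) (P2.c m) t = t.addc (k * m * m) := rfl
    rw [this, ev3_addc, ev_cc]
  | n a0 a1 ih0 ih1 =>
    obtain ⟨t0, t1, t2, h1, h2, h3⟩ := split3_spec t (fun t0 t1 t2 =>
      P3.n (fsq k (2 * k) a0 t0) (fma (2 * k) a0 a1 t1) (fsq k (2 * k) a1 t2))
    have : fsq k (2 * k) (P2.n a0 a1) t = split3 t (fun t0 t1 t2 =>
      P3.n (fsq k (2 * k) a0 t0) (fma (2 * k) a0 a1 t1) (fsq k (2 * k) a1 t2)) := rfl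
    rw [this, h1]
    cases l with
    | nil =>
      have := ih0 [] t0
      simp only [ev3, ev2f, P3.cst, P2.cst_n] at this ⊢
      rw [this, h2]
    | cons w l => rw [h3]; simp only [ev3, ev2f, ih0, ih1, ev3_fma]; push_cast; ring

/-- add a constant. -/
noncomputable def addc2 (k : ℤ) (a : P2) : P2 :=
  P2.rec (motive := fun _ => P2) (P2.c k) (fun m => P2.c (Int.add k m))
    (fun _ b r _ => P2.n r b) a

theorem ev2f_c (l : List (ℝ × ℝ)) (k : ℤ) : ev2f l (P2.c k) = k * wl l 0 := by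
  induction l with
  | nil => simp [ev2f, wl, P2.cst_c]
  | cons w l ih => simp only [ev2f, wl, ih]; simp; ring

theorem ev2f_addc2 (l : List (ℝ × ℝ)) (k : ℤ) (a : P2) :
    ev2f l (addc2 k a) = k * wl l 0 + ev2f l a := by
  induction a generalizing l with
  | z => simp [addc2, ev2f_z, ev2f_c]
  | c m =>
    have : addc2 k (P2.c m) = P2.c (k + m) := rfl
    rw [this, ev2f_c, ev2f_c]; push_cast; ring
  | n a b iha _ =>
    have : addc2 k (P2.n a b) = P2.n (addc2 k a) b := rfl
    rw [this]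
    cases l with
    | nil => simpa [ev2f, P2.cst_n] using iha []
    | cons w l => simp only [ev2f, iha, wl]; simp; ring

noncomputable def split2 (a : P2) (k : P2 → P2 → P2) : P2 :=
  P2.rec (motive := fun _ => P2) (k P2.z P2.z) (fun m => k (P2.c m) P2.z)
    (fun a b _ _ => k a b) a

theorem split2_spec (a : P2) (k : P2 → P2 → P2) : ∃ a0 a1, split2 a k = k a0 a1 ∧
    ∀ w l, ev2f (w :: l) a = w.2 * ev2f l a0 + w.1 * ev2f l a1 := by
  cases a with
  | z => exact ⟨_, _, rfl, fun w l => by simp [ev2f, ev2f_z]⟩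
  | c m => exact ⟨_, _, rfl, fun w l => by simp [ev2f, ev2f_z]⟩
  | n a b => exact ⟨_, _, rfl, fun w l => by simp [ev2f]⟩

/-- add `k` times the monomial with mask `S`. -/
noncomputable def insE (k : ℤ) (d : ℕ) : ℕ → P2 → P2 :=
  Nat.rec (motive := fun _ => ℕ → P2 → P2) (fun _ a => addc2 k a)
    (fun _ r S a => Bool.rec (motive := fun _ => P2)
      (Bool.rec (motive := fun _ => P2)
        (split2 a (fun a0 a1 => P2.n (r (Nat.div S 2) a0) a1))
        (split2 a (fun a0 a1 => P2.n a0 (r (Nat.div S 2) a1))) (Nat.beq (Nat.mod S 2) 1))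
      (addc2 k a) (Nat.beq S 0)) d

theorem ev2f_insE (l : List (ℝ × ℝ)) (k : ℤ) (S : ℕ) (a : P2) :
    ev2f l (insE k l.length S a) = k * wl l S + ev2f l a := by
  induction l generalizing S a with
  | nil =>
    have : insE k ([] : List (ℝ × ℝ)).length S a = addc2 k a := rfl
    rw [this, ev2f_addc2]; simp [wl]
  | cons w l ih =>
    have e : insE k (w :: l).length S a = Bool.rec (motive := fun _ => P2)
      (Bool.rec (motive := fun _ => P2)
        (split2 a (fun a0 a1 => P2.n (insE k l.length (S / 2) a0) a1))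
        (split2 a (fun a0 a1 => P2.n a0 (insE k l.length (S / 2) a1))) (Nat.beq (S % 2) 1))
      (addc2 k a) (Nat.beq S 0) := rfl
    rw [e]
    cases h0 : Nat.beq S 0
    · cases h1 : Nat.beq (S % 2) 1
      · obtain ⟨a0, a1, h2, h3⟩ :=
          split2_spec a (fun a0 a1 => P2.n (insE k l.length (S / 2) a0) a1)
        have h4 : ¬ S % 2 = 1 := fun h => by simp [h] at h1
        simp only [h2, h3, ev2f, ih, wl, if_neg h4]; ring
      · obtain ⟨a0, a1, h2, h3⟩ :=
          split2_spec a (fun a0 a1 => P2.n a0 (insE k l.length (S / 2) a1))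
        have h4 : S % 2 = 1 := Nat.eq_of_beq_eq_true h1
        simp only [h2, h3, ev2f, ih, wl, if_pos h4]; ring
    · have := Nat.eq_of_beq_eq_true h0
      subst this
      exact ev2f_addc2 _ _ _

/-- the tree of the members `S` of `L` with `S &&& U = V`, with the bits of `U` cleared. -/
noncomputable def bsel (d U V : ℕ) (L : List ℕ) : P2 :=
  List.rec (motive := fun _ => P2) P2.z
    (fun S _ r => Bool.rec (motive := fun _ => P2) r (insE 1 d (Nat.xor S V) r)
      (Nat.beq (Nat.land S U) V)) L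

theorem ev2f_bsel (l : List (ℝ × ℝ)) (U V : ℕ) (L : List ℕ) :
    ev2f l (bsel l.length U V L) =
      (L.map (fun S => if S &&& U = V then wl l (S ^^^ V) else 0)).sum := by
  induction L with
  | nil => simp [bsel, ev2f_z]
  | cons S L ih =>
    have e : bsel l.length U V (S :: L) = Bool.rec (motive := fun _ => P2) (bsel l.length U V L)
      (insE 1 l.length (S ^^^ V) (bsel l.length U V L)) (Nat.beq (S &&& U) V) := rfl
    rw [e, List.map_cons, List.sum_cons, ← ih]
    cases h : Nat.beq (S &&& U) V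
    · have : ¬ S &&& U = V := fun hh => by simp [hh] at h
      simp [this]
    · have := Nat.eq_of_beq_eq_true h
      simp [this, ev2f_insE]

/-- signed integer from its code. -/
noncomputable def sgn (c : ℕ) : ℤ :=
  Bool.rec (motive := fun _ => ℤ) (Int.ofNat (Nat.div c 2)) (Int.negSucc (Nat.div c 2))
    (Nat.beq (Nat.mod c 2) 1)

/-- unpack `cnt` terms (mask in base `B`, coefficient code in base `C`), masks changed by `g`. -/
noncomputable def unp (d B C : ℕ) (g : ℕ → ℕ) (cnt : ℕ) : ℕ → P2 :=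
  Nat.rec (motive := fun _ => ℕ → P2) (fun _ => P2.z)
    (fun _ r N => insE (sgn (Nat.mod (Nat.div N B) C)) d (g (Nat.mod N B))
      (r (Nat.div (Nat.div N B) C))) cnt

noncomputable def wr : List (ℝ × ℝ) → ℕ → ℕ → ℝ
  | [], _, _ => 1
  | w :: l, T, S =>
    (if T % 2 = 1 then 1 else if S % 2 = 1 then w.1 else w.2) * wr l (T / 2) (S / 2)

noncomputable def wT (g : ℝ × ℝ → ℝ) : List (ℝ × ℝ) → ℕ → ℝ
  | [], _ => 1
  | w :: l, T => (if T % 2 = 1 then g w else 1) * wT g l (T / 2)

theorem wl_or (l : List (ℝ × ℝ)) (T S : ℕ) : wl l (S ||| T) = wT Prod.fst l T * wr l T S := by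
  induction l generalizing T S with
  | nil => simp [wl, wT, wr]
  | cons w l ih =>
    simp only [wl, wT, wr, Nat.or_div_two, ih, Nat.or_mod_two_eq_one]
    by_cases h1 : T % 2 = 1 <;> by_cases h2 : S % 2 = 1 <;> simp [h1, h2] <;> ring

theorem wl_clear (l : List (ℝ × ℝ)) (T S : ℕ) :
    wl l ((S ||| T) ^^^ T) = wT Prod.snd l T * wr l T S := by
  induction l generalizing T S with
  | nil => simp [wl, wT, wr]
  | cons w l ih =>
    simp only [wl, wT, wr, Nat.xor_div_two, Nat.or_div_two, ih, Nat.xor_mod_two_eq_one,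
      Nat.or_mod_two_eq_one]
    by_cases h1 : T % 2 = 1 <;> by_cases h2 : S % 2 = 1 <;> simp [h1, h2] <;> ring

theorem wT_nonneg (g : ℝ × ℝ → ℝ) (l : List (ℝ × ℝ)) (h : ∀ w ∈ l, 0 ≤ g w) (T : ℕ) :
    0 ≤ wT g l T := by
  induction l generalizing T with
  | nil => simp [wT]
  | cons w l ih =>
    refine mul_nonneg ?_ (ih (fun w hw => h w (by simp [hw])) _)
    split_ifs
    · exact h w (by simp)
    · norm_num

theorem unp_pair (l : List (ℝ × ℝ)) (B C T cnt N : ℕ) : ∃ x : ℝ,
    ev2f l (unp l.length B C (fun S => Nat.lor S T) cnt N) = wT Prod.fst l T * x ∧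
    ev2f l (unp l.length B C (fun S => Nat.xor (Nat.lor S T) T) cnt N) = wT Prod.snd l T * x := by
  induction cnt generalizing N with
  | zero => exact ⟨0, by simp [unp, ev2f_z], by simp [unp, ev2f_z]⟩
  | succ cnt ih =>
    obtain ⟨x, h1, h2⟩ := ih (N / B / C)
    refine ⟨sgn (N / B % C) * wr l T (N % B) + x, ?_, ?_⟩
    · have : unp l.length B C (fun S => Nat.lor S T) (cnt + 1) N = insE (sgn (N / B % C)) l.length
        (N % B ||| T) (unp l.length B C (fun S => Nat.lor S T) cnt (N / B / C)) := rfl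
      rw [this, ev2f_insE, h1, wl_or]; ring
    · have : unp l.length B C (fun S => Nat.xor (Nat.lor S T) T) (cnt + 1) N =
        insE (sgn (N / B % C)) l.length ((N % B ||| T) ^^^ T)
          (unp l.length B C (fun S => Nat.xor (Nat.lor S T) T) cnt (N / B / C)) := rfl
      rw [this, ev2f_insE, h2, wl_clear]; ring

/-- subtract the packed squares `(weight - 1, T, cnt, N)`. -/
noncomputable def subq (d B C : ℕ) (cs : List (ℕ × ℕ × ℕ × ℕ)) (t : P3) : P3 :=
  List.rec (motive := fun _ => P3) t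
    (fun s _ r => Bool.rec (motive := fun _ => P3)
      (fma (Int.negSucc s.1) (unp d B C (fun S => Nat.lor S s.2.1) s.2.2.1 s.2.2.2)
        (unp d B C (fun S => Nat.xor (Nat.lor S s.2.1) s.2.1) s.2.2.1 s.2.2.2) r)
      (fsq (Int.negSucc s.1) (Int.negSucc (Nat.succ (Nat.mul 2 s.1)))
        (unp d B C (fun S => S) s.2.2.1 s.2.2.2) r) (Nat.beq s.2.1 0)) cs

theorem ev3_subq (l : List (ℝ × ℝ)) (hl : ∀ w ∈ l, 0 ≤ w.1 ∧ 0 ≤ w.2) (B C : ℕ)
    (cs : List (ℕ × ℕ × ℕ × ℕ)) (t : P3) : ev3 l (subq l.length B C cs t) ≤ ev3 l t := by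
  induction cs with
  | nil => exact le_rfl
  | cons s cs ih =>
    refine le_trans ?_ ih
    have e : subq l.length B C (s :: cs) t = Bool.rec (motive := fun _ => P3)
      (fma (Int.negSucc s.1) (unp l.length B C (fun S => Nat.lor S s.2.1) s.2.2.1 s.2.2.2)
        (unp l.length B C (fun S => Nat.xor (Nat.lor S s.2.1) s.2.1) s.2.2.1 s.2.2.2)
        (subq l.length B C cs t))
      (fsq (Int.negSucc s.1) (Int.negSucc (2 * s.1 + 1))
        (unp l.length B C (fun S => S) s.2.2.1 s.2.2.2) (subq l.length B C cs t))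
      (Nat.beq s.2.1 0) := rfl
    have hn : ((Int.negSucc s.1 : ℤ) : ℝ) ≤ 0 := by
      exact_mod_cast (Int.negSucc_lt_zero s.1).le
    rw [e]
    cases Nat.beq s.2.1 0
    · obtain ⟨x, h1, h2⟩ := unp_pair l B C s.2.1 s.2.2.1 s.2.2.2
      simp only [ev3_fma, h1, h2]
      have h3 := wT_nonneg Prod.fst l (fun w hw => (hl w hw).1) s.2.1
      have h4 := wT_nonneg Prod.snd l (fun w hw => (hl w hw).2) s.2.1
      have h5 := mul_nonneg (mul_nonneg h3 h4) (mul_self_nonneg x)
      nlinarith [mul_nonneg (neg_nonneg.2 hn) h5]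
    · have e2 : Int.negSucc (2 * s.1 + 1) = 2 * Int.negSucc s.1 := by
        simp only [Int.negSucc_eq]; push_cast; ring
      simp only [e2, ev3_fsq]
      nlinarith [mul_nonneg (neg_nonneg.2 hn)
        (mul_self_nonneg (ev2f l (unp l.length B C (fun S => S) s.2.2.1 s.2.2.2)))]

/-- the remainder tree. -/
noncomputable def rem (d : ℕ) (L : List ℕ) (E F K C : ℕ) (cs : List (ℕ × ℕ × ℕ × ℕ)) : P3 :=
  subq d (Nat.pow 2 d) C cs
    (fma (Int.ofNat (Nat.succ K)) (bsel d (Nat.lor E F) E L) (bsel d (Nat.lor E F) F L)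
      (fma (Int.negSucc K) (bsel d (Nat.lor E F) (Nat.lor E F) L) (bsel d (Nat.lor E F) 0 L)
        P3.z))

theorem sum_sel {d e f : ℕ} (hef : e ≠ f) (y z : ℕ → ℝ) (L : List ℕ) (p q : Bool) (V : ℕ)
    (hV : ∀ i, V.testBit i = ((decide (e = i) && p) || (decide (f = i) && q))) :
    (L.map (fun S => if S &&& (2 ^ e ||| 2 ^ f) = V then
      wl ((List.range d).map (fun i => (one2 y e f i, one2 z e f i))) (S ^^^ V) else 0)).sum =
      smf d (one2 y e f) (one2 z e f) (sel L e f p q) := by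
  have h1 : ∀ S, S &&& (2 ^ e ||| 2 ^ f) = V ↔ (S.testBit e = p ∧ S.testBit f = q) := by
    intro S
    constructor
    · intro h
      have h2 := congrArg (fun x => Nat.testBit x e) h
      have h3 := congrArg (fun x => Nat.testBit x f) h
      simp [hV, Nat.testBit_two_pow, hef, hef.symm] at h2 h3
      exact ⟨h2, h3⟩
    · rintro ⟨rfl, rfl⟩
      refine Nat.eq_of_testBit_eq fun i => ?_
      rw [hV]
      simp only [Nat.testBit_and, Nat.testBit_or, Nat.testBit_two_pow]
      by_cases h2 : e = i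
      · subst h2; simp [hef.symm]
      · by_cases h3 : f = i
        · subst h3; simp [h2]
        · simp [h2, h3]
  have h2 : ∀ S, wf d (one2 y e f) (one2 z e f) (S ^^^ V) = wf d (one2 y e f) (one2 z e f) S := by
    intro S
    refine Finset.prod_congr rfl fun i _ => ?_
    by_cases h : i = e ∨ i = f
    · simp [one2, h]
    · push Not at h
      simp [Nat.testBit_xor, hV, h.1.symm, h.2.symm]
  simp only [wl_eq, h1, h2]
  induction L with
  | nil => simp [smf, sel]
  | cons S L ih =>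
    unfold smf sel at *
    simp only [List.map_cons, List.sum_cons, ih, List.filter_cons]
    by_cases h : S.testBit e = p ∧ S.testBit f = q
    · simp [h.1, h.2]
    · rw [if_neg h, if_neg (by simpa using h), zero_add]

theorem smf_sel_split {d e f : ℕ} (he : e < d) (hf : f < d) (hef : e ≠ f) (y z : ℕ → ℝ)
    (L : List ℕ) (p q : Bool) : smf d y z (sel L e f p q) =
      (if p then y e else z e) * (if q then y f else z f) *
        smf d (one2 y e f) (one2 z e f) (sel L e f p q) := by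
  unfold smf
  rw [← List.sum_map_mul_left]
  congr 1
  refine List.map_congr_left fun S hS => ?_
  simp only [sel, List.mem_filter, Bool.and_eq_true, beq_iff_eq] at hS
  rw [wf_split he hf hef, hS.2.1, hS.2.2]

theorem ineqF_of_rem {d : ℕ} {L : List ℕ} {e f K C : ℕ} {cs : List (ℕ × ℕ × ℕ × ℕ)}
    (hef : e < d ∧ f < d ∧ e ≠ f)
    (h : (rem d L (Nat.pow 2 e) (Nat.pow 2 f) K C cs).nonneg = true) : IneqF d L e f := by
  obtain ⟨he, hf, hef⟩ := hef
  intro y z hy hz
  set l := (List.range d).map (fun i => (one2 y e f i, one2 z e f i)) with hl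
  have hd : l.length = d := by simp [hl]
  have hl0 : ∀ w ∈ l, 0 ≤ w.1 ∧ 0 ≤ w.2 := by
    intro w hw
    obtain ⟨i, -, rfl⟩ := List.mem_map.1 hw
    simp only [one2]
    split_ifs
    · norm_num
    · exact ⟨hy i, hz i⟩
  have h1 := ev3_nonneg l hl0 _ h
  unfold rem at h1
  rw [← hd] at h1
  have h2 := h1.trans (ev3_subq l hl0 _ _ _ _)
  simp only [ev3_fma, ev2f_bsel, ev3_z] at h2
  have e0 : Nat.lor (Nat.pow 2 e) (Nat.pow 2 f) = 2 ^ e ||| 2 ^ f := rfl
  have e1 : Nat.pow 2 e = 2 ^ e := rfl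
  have e2 : Nat.pow 2 f = 2 ^ f := rfl
  rw [e0, e1, e2, hl, sum_sel hef y z L true false _ (by simp [Nat.testBit_two_pow]),
    sum_sel hef y z L false true _ (by simp [Nat.testBit_two_pow]),
    sum_sel hef y z L true true _ (by simp [Nat.testBit_two_pow]),
    sum_sel hef y z L false false _ (by simp)] at h2
  have h3 : ((Int.negSucc K : ℤ) : ℝ) = -((K : ℝ) + 1) := by simp [Int.negSucc_eq]
  have h4 : ((Int.ofNat (Nat.succ K) : ℤ) : ℝ) = (K : ℝ) + 1 := by simp
  rw [h3, h4] at h2
  have h5 : (0 : ℝ) < (K : ℝ) + 1 := by positivity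
  rw [smf_sel_split he hf hef y z L true true, smf_sel_split he hf hef y z L false false,
    smf_sel_split he hf hef y z L true false, smf_sel_split he hf hef y z L false true]
  simp only [if_true, Bool.false_eq_true, if_false]
  have h6 : smf d (one2 y e f) (one2 z e f) (sel L e f true true) *
      smf d (one2 y e f) (one2 z e f) (sel L e f false false) ≤
      smf d (one2 y e f) (one2 z e f) (sel L e f true false) *
      smf d (one2 y e f) (one2 z e f) (sel L e f false true) := by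
    by_contra hc
    push Not at hc
    nlinarith
  have h7 := mul_nonneg (mul_nonneg (mul_nonneg (hy e) (hy f)) (mul_nonneg (hz e) (hz f)))
    (sub_nonneg.2 h6)
  nlinarith

end Pool.Agent.Lib.MP_c69b6d_co
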