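import Pool.Agent.Lib.MP_c69b6d_co.Mat
import Pool.Agent.Lib.MP_c69b6d_co.Transfer

namespace Pool.Agent.Lib.MP_c69b6d_co

open Matroid Finset

def st (n S : ℕ) : Finset (Fin n) := univ.filter (fun i => S.testBit i)

theorem mem_st {n S : ℕ} {i : Fin n} : i ∈ st n S ↔ S.testBit i = true := by simp [st]

theorem st_inj {n S S' : ℕ} (h : S < 2 ^ n) (h' : S' < 2 ^ n) (e : st n S = st n S') : S = S' := by
  apply Nat.eq_of_testBit_eq
  intro i
  by_cases hi : i < n
  · have := congrArg (fun X => (⟨i, hi⟩ : Fin n) ∈ X) e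
    simp only [mem_st, eq_iff_iff] at this
    exact Bool.eq_iff_iff.2 this
  · rw [Nat.testBit_lt_two_pow (h.trans_le (Nat.pow_le_pow_right (by norm_num) (by omega))),
      Nat.testBit_lt_two_pow (h'.trans_le (Nat.pow_le_pow_right (by norm_num) (by omega)))]

theorem st_surj {n : ℕ} (X : Finset (Fin n)) : ∃ S < 2 ^ n, st n S = X := by
  refine ⟨Nat.ofBits (fun i => decide (i ∈ X)), Nat.ofBits_lt_two_pow _, ?_⟩
  ext i
  simp [mem_st, Nat.testBit_ofBits_lt _ _ i.2]

structure BaseList {n : ℕ} (M : Matroid (Fin n)) (L : List ℕ) : Prop where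
  nodup : L.Nodup
  bound : ∀ S ∈ L, S < 2 ^ n
  iff : ∀ X : Finset (Fin n), M.IsBase (X : Set (Fin n)) ↔ ∃ S ∈ L, st n S = X

open Classical in
theorem BaseList.sum_eq {n : ℕ} {M : Matroid (Fin n)} {L : List ℕ} (h : BaseList M L)
    (F : Finset (Fin n) → ℝ) :
    (L.map (fun S => F (st n S))).sum =
      ∑ B : Finset (Fin n), if M.IsBase (B : Set (Fin n)) then F B else 0 := by
  rw [← List.sum_toFinset _ h.nodup, ← sum_filter,
    ← sum_image (s := L.toFinset) (g := st n) (f := F) (fun S hS S' hS' e =>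
      st_inj (h.bound S (by simpa using hS)) (h.bound S' (by simpa using hS')) e)]
  refine sum_congr ?_ fun _ _ => rfl
  ext X
  simp [h.iff]

theorem BaseList.ncard {n : ℕ} {M : Matroid (Fin n)} {L : List ℕ} (h : BaseList M L) :
    {B | M.IsBase B}.ncard = L.length := by
  classical
  have : {B | M.IsBase B} = (fun S => (st n S : Set (Fin n))) '' (L.toFinset : Set ℕ) := by
    ext B
    have hB : B = ((Set.toFinite B).toFinset : Set (Fin n)) := (Set.Finite.coe_toFinset _).symm
    simp only [Set.mem_setOf_eq, Set.mem_image, mem_coe, List.mem_toFinset]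
    rw [hB, h.iff]
    simp only [coe_inj]
  rw [this, Set.ncard_image_of_injOn, Set.ncard_coe_finset, List.toFinset_card_of_nodup h.nodup]
  intro S hS S' hS' e
  exact st_inj (h.bound S (by simpa using hS)) (h.bound S' (by simpa using hS'))
    (by simpa using e)

def ext {n : ℕ} (y : Fin n → ℝ) (c : ℝ) (i : ℕ) : ℝ := if h : i < n then y ⟨i, h⟩ else c

theorem wf_ext {n d S : ℕ} (hd : n ≤ d) (hS : S < 2 ^ n) (y z : Fin n → ℝ) :
    wf d (ext y 0) (ext z 1) S = ∏ i : Fin n, if i ∈ st n S then y i else z i := by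
  unfold wf
  rw [← prod_range_mul_prod_Ico _ hd, prod_eq_one (s := Ico n d), mul_one,
    ← Fin.prod_univ_eq_prod_range (fun i => if S.testBit i then ext y 0 i else ext z 1 i)]
  · refine prod_congr rfl fun i _ => ?_
    simp [mem_st, ext]
  · intro i hi
    have hi' := (mem_Ico.1 hi).1
    rw [Nat.testBit_lt_two_pow (hS.trans_le (Nat.pow_le_pow_right (by norm_num) hi'))]
    simp [ext, show ¬ i < n by omega]

open Classical in
noncomputable def yy {α : Type} (E J : Set α) (y : α → ℝ) (i : α) : ℝ :=
  if i ∈ E then y i else if i ∈ J then 1 else 0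

open Classical in
noncomputable def zz {α : Type} (J : Set α) (i : α) : ℝ := if i ∈ J then 0 else 1

open Classical in
theorem W_minor {α : Type} [Fintype α] [DecidableEq α] {M N : Matroid α} {J : Set α} (hJ : Disjoint J N.E)
    (hX : ∀ X ⊆ N.E, N.IsBase X ↔ M.IsBase (X ∪ J)) (y : α → ℝ) {U : Set α} (hU : U ⊆ N.E) :
    W N y U = ∑ B : Finset α, if M.IsBase (B : Set α) then
      (if U ⊆ (B : Set α) then ∏ i, if i ∈ B then yy N.E J y i else zz J i else 0) else 0 := by
  have hJ' : ∀ x ∈ J, x ∉ N.E := Set.disjoint_left.1 hJ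
  have key : ∀ B : Finset α, (∏ i, if i ∈ B then yy N.E J y i else zz J i) =
      if (B : Set α) \ N.E = J then ∏ e ∈ B.filter (· ∈ N.E), y e else 0 := by
    intro B
    split_ifs with h
    · rw [prod_filter, ← prod_subset (subset_univ B)]
      · refine prod_congr rfl fun i hi => ?_
        by_cases hiE : i ∈ N.E
        · simp [hi, yy, hiE]
        · have : i ∈ J := h ▸ ⟨hi, hiE⟩
          simp [hi, yy, hiE, this]
      · intro i _ hi
        have : i ∉ J := fun hh => hi (h ▸ hh : i ∈ (B : Set α) \ N.E).1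
        simp [hi, zz, this]
    · rw [Set.ext_iff, not_forall] at h
      obtain ⟨i, hi⟩ := h
      refine prod_eq_zero (mem_univ i) ?_
      by_cases hiJ : i ∈ J
      · have : i ∉ B := fun hh => hi ⟨fun _ => hiJ, fun _ => ⟨hh, hJ' i hiJ⟩⟩
        simp [this, zz, hiJ]
      · have : i ∈ (B : Set α) \ N.E := by tauto
        have h1 : i ∈ B := this.1
        simp [h1, yy, this.2, hiJ]
  simp only [key, ← ite_and]
  unfold W
  rw [← sum_filter, ← sum_filter]
  symm
  refine sum_nbij' (fun B => B.filter (· ∈ N.E)) (fun X => X ∪ J.toFinset) ?_ ?_ ?_ ?_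
    (fun _ _ => rfl)
  · intro B hB
    simp only [mem_filter, mem_univ, true_and] at hB ⊢
    obtain ⟨h1, h2, h3⟩ := hB
    have hs : ((B.filter (· ∈ N.E) : Finset α) : Set α) ⊆ N.E := fun x hx => by
      simp only [coe_filter, Set.mem_setOf_eq] at hx; exact hx.2
    refine ⟨(hX _ hs).2 ?_, fun x hx => ?_⟩
    · have : ((B.filter (· ∈ N.E) : Finset α) : Set α) ∪ J = B := by
        rw [← h3]; ext x; simp only [coe_filter, Set.mem_union, Set.mem_setOf_eq, Set.mem_diff,
          mem_coe]; tauto
      rwa [this]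
    · simp only [coe_filter, Set.mem_setOf_eq]; exact ⟨h2 hx, hU hx⟩
  · intro X hXm
    simp only [mem_filter, mem_univ, true_and] at hXm ⊢
    obtain ⟨h1, h2⟩ := hXm
    rw [coe_union, Set.coe_toFinset]
    refine ⟨(hX _ h1.subset_ground).1 h1, h2.trans Set.subset_union_left, ?_⟩
    ext x
    simp only [Set.mem_diff, Set.mem_union]
    exact ⟨fun h => h.1.resolve_left (fun hh => h.2 (h1.subset_ground hh)),
      fun h => ⟨Or.inr h, hJ' x h⟩⟩
  · intro B hB
    simp only [mem_filter, mem_univ, true_and] at hB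
    obtain ⟨h1, h2, h3⟩ := hB
    ext x
    have := Set.ext_iff.1 h3 x
    simp only [Set.mem_diff, mem_coe] at this
    simp only [mem_union, mem_filter, Set.mem_toFinset]
    tauto
  · intro X hXm
    simp only [mem_filter, mem_univ, true_and] at hXm
    ext x
    have h1 : x ∈ X → x ∈ N.E := fun h => hXm.1.subset_ground h
    have h2 := hJ' x
    simp only [mem_union, mem_filter, Set.mem_toFinset]
    tauto

open Classical in
theorem W_list {n d : ℕ} (hd : n ≤ d) {M N : Matroid (Fin n)} {L : List ℕ} (h : BaseList M L)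
    {J : Set (Fin n)} (hJ : Disjoint J N.E)
    (hX : ∀ X ⊆ N.E, N.IsBase X ↔ M.IsBase (X ∪ J)) (y : Fin n → ℝ) {U : Set (Fin n)}
    (hU : U ⊆ N.E) :
    W N y U = (L.map (fun S => if U ⊆ (st n S : Set (Fin n)) then
      wf d (ext (yy N.E J y) 0) (ext (zz J) 1) S else 0)).sum := by
  rw [W_minor hJ hX y hU, ← h.sum_eq (fun B => if U ⊆ (B : Set (Fin n)) then
    ∏ i, if i ∈ B then yy N.E J y i else zz J i else 0)]
  congr 1
  refine List.map_congr_left fun S hS => ?_
  rw [wf_ext hd (h.bound S hS)]

theorem split_sum (L : List ℕ) (w : ℕ → ℝ) (e f : ℕ) :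
    (L.map (fun S => if S.testBit e then w S else 0)).sum *
      (L.map (fun S => if S.testBit f then w S else 0)).sum -
    (L.map (fun S => if S.testBit e ∧ S.testBit f then w S else 0)).sum * (L.map w).sum =
    ((sel L e f true false).map w).sum * ((sel L e f false true).map w).sum -
    ((sel L e f true true).map w).sum * ((sel L e f false false).map w).sum := by
  have : (L.map (fun S => if S.testBit e then w S else 0)).sum =
      ((sel L e f true true).map w).sum + ((sel L e f true false).map w).sum ∧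
    (L.map (fun S => if S.testBit f then w S else 0)).sum =
      ((sel L e f true true).map w).sum + ((sel L e f false true).map w).sum ∧
    (L.map (fun S => if S.testBit e ∧ S.testBit f then w S else 0)).sum =
      ((sel L e f true true).map w).sum ∧
    (L.map w).sum = ((sel L e f true true).map w).sum + ((sel L e f true false).map w).sum +
      ((sel L e f false true).map w).sum + ((sel L e f false false).map w).sum := by
    induction L with
    | nil => simp [sel]
    | cons S L ih =>
      obtain ⟨h1, h2, h3, h4⟩ := ih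
      simp only [List.map_cons, List.sum_cons, h1, h2, h3, h4]
      unfold sel
      simp only [List.filter_cons]
      cases S.testBit e <;> cases S.testBit f <;> simp [add_assoc, add_left_comm]
  obtain ⟨h1, h2, h3, h4⟩ := this
  rw [h1, h2, h3, h4]; ring

theorem rayleigh_diff {n d : ℕ} (hd : n ≤ d) {M N : Matroid (Fin n)} {L : List ℕ}
    (h : BaseList M L) {J : Set (Fin n)} (hJ : Disjoint J N.E)
    (hX : ∀ X ⊆ N.E, N.IsBase X ↔ M.IsBase (X ∪ J)) (y : Fin n → ℝ) {e f : Fin n}
    (he : e ∈ N.E) (hf : f ∈ N.E) :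
    W N y {e} * W N y {f} - W N y {e, f} * W N y ∅ =
      smf d (ext (yy N.E J y) 0) (ext (zz J) 1) (sel L e f true false) *
        smf d (ext (yy N.E J y) 0) (ext (zz J) 1) (sel L e f false true) -
      smf d (ext (yy N.E J y) 0) (ext (zz J) 1) (sel L e f true true) *
        smf d (ext (yy N.E J y) 0) (ext (zz J) 1) (sel L e f false false) := by
  rw [W_list hd h hJ hX y (Set.singleton_subset_iff.2 he),
    W_list hd h hJ hX y (Set.singleton_subset_iff.2 hf),
    W_list hd h hJ hX y (Set.insert_subset he (Set.singleton_subset_iff.2 hf)),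
    W_list hd h hJ hX y (Set.empty_subset _)]
  simp only [Set.singleton_subset_iff, Set.insert_subset_iff, mem_coe, mem_st, Set.empty_subset,
    if_true, smf]
  exact split_sum L _ e f

theorem smf_fam {d : ℕ} {y z : ℕ → ℝ} {g : ℕ} {p : Bool} (hg : g < d)
    (h : (if p then z g else y g) = 0) (L : List ℕ) (e f : ℕ) (q r : Bool) :
    smf d y z (sel L e f q r) = smf d y z (sel (fam L g p) e f q r) := by
  have : sel (fam L g p) e f q r = fam (sel L e f q r) g p := by
    unfold sel fam
    rw [List.filter_filter, List.filter_filter]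
    congr 1; funext S; rw [Bool.and_comm]
  rw [this]
  generalize sel L e f q r = L'
  induction L' with
  | nil => rfl
  | cons S L' ih =>
    unfold smf fam at *
    by_cases hS : S.testBit g = p
    · simp [hS, ih]
    · have : wf d y z S = 0 := by
        refine prod_eq_zero (mem_range.2 hg) ?_
        revert hS h
        cases S.testBit g <;> cases p <;> simp
      simp [hS, ih, this]

theorem rayleigh_minor {n d : ℕ} (hd : n ≤ d) {M N : Matroid (Fin n)} {L : List ℕ}
    (h : BaseList M L) (hN : N <m M)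
    (hm : ∀ g < n, ∀ p, MinorIneq d L n g p) : Rayleigh N := by
  classical
  obtain ⟨J, hJ, hX⟩ := minor_base hN.isMinor
  obtain ⟨g, -, hg⟩ := Set.exists_of_ssubset hN.ssubset
  intro y hy e he f hf hef
  rw [rayleigh_diff hd h hJ hX y he hf]
  have hz : (if decide (g ∈ J) then ext (zz J) 1 g else ext (yy N.E J y) 0 g) = 0 := by
    by_cases hgJ : g ∈ J <;> simp [ext, zz, yy, hgJ, hg]
  have hgd : (g : ℕ) < d := g.2.trans_le hd
  rw [smf_fam hgd hz, smf_fam hgd hz L e f false true, smf_fam hgd hz L e f true true,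
    smf_fam hgd hz L e f false false, sub_nonneg]
  refine hm g g.2 _ e e.2 f f.2 (fun hh => hg (Fin.ext hh ▸ he)) (fun hh => hg (Fin.ext hh ▸ hf))
    (fun hh => hef (Fin.ext hh)) _ _ (fun i => ?_) (fun i => ?_)
  · unfold ext yy
    split_ifs <;> first | exact (hy _).le | norm_num
  · unfold ext zz
    split_ifs <;> norm_num

def yN (n : ℕ) (ys : List ℕ) (i : ℕ) : ℕ := if i < n then ys.getD i 0 + 1 else 0

def wcheck (d n : ℕ) (L : List ℕ) (e f : ℕ) (ys : List ℕ) : Bool :=
  decide (smf d (yN n ys) (fun _ => 1) (sel L e f true false) *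
      smf d (yN n ys) (fun _ => 1) (sel L e f false true) <
    smf d (yN n ys) (fun _ => 1) (sel L e f true true) *
      smf d (yN n ys) (fun _ => 1) (sel L e f false false))

theorem not_rayleigh {n d : ℕ} (hd : n ≤ d) {M : Matroid (Fin n)} {L : List ℕ}
    (h : BaseList M L) (hE : M.E = Set.univ) {e f : ℕ} (he : e < n) (hf : f < n) (hef : e ≠ f)
    {ys : List ℕ} (hw : wcheck d n L e f ys = true) : ¬ Rayleigh M := by
  intro hR
  have h1 := hR (fun i => ((ys.getD i 0 + 1 : ℕ) : ℝ)) (fun i => by positivity) ⟨e, he⟩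
    (by simp [hE]) ⟨f, hf⟩ (by simp [hE]) (fun hh => hef (congrArg Fin.val hh))
  rw [rayleigh_diff hd h (J := ∅) (by simp) (by simp) _ (by simp [hE]) (by simp [hE])] at h1
  have h2 : ∀ L', smf d (ext (yy M.E ∅ (fun i : Fin n => ((ys.getD i 0 + 1 : ℕ) : ℝ))) 0)
      (ext (zz (∅ : Set (Fin n))) 1) L' = ((smf d (yN n ys) (fun _ => 1) L' : ℕ) : ℝ) := by
    intro L'
    unfold smf
    rw [Nat.cast_list_sum, List.map_map]
    congr 2
    funext S
    simp only [wf, Function.comp, Nat.cast_prod]
    refine prod_congr rfl fun i _ => ?_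
    by_cases hi : i < n <;> split_ifs <;> simp [ext, yy, zz, yN, hi, hE]
  simp only [h2] at h1
  simp only [wcheck, decide_eq_true_eq] at hw
  rw [sub_nonneg] at h1
  exact absurd (by exact_mod_cast h1) (not_le.2 hw)

end Pool.Agent.Lib.MP_c69b6d_co
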