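import Pool.Agent.Lib.MP_c69b6d_co.Defs

namespace Pool.Agent.Lib.MP_c69b6d_co

open Matroid Set

theorem exists_vecMatroid {α K V : Type} [Finite α] [Field K] [AddCommGroup V] [Module K V]
    (v : α → V) : ∃ M : Matroid α, M.E = univ ∧ ∀ I, M.Indep I ↔ LinearIndepOn K v I := by
  classical
  refine ⟨(IndepMatroid.ofFinite (E := univ) finite_univ (LinearIndepOn K v)
    (linearIndepOn_empty K v) (fun I J hJ hIJ => hJ.mono hIJ) ?_ (fun I _ => subset_univ I)).matroid,
    rfl, fun I => Iff.rfl⟩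
  intro I J hI hJ hlt
  by_contra hc
  push Not at hc
  have hspan : range (fun j : J => v j) ≤ Submodule.span K (v '' I) := by
    rintro _ ⟨⟨j, hj⟩, rfl⟩
    by_cases hjI : j ∈ I
    · exact Submodule.subset_span ⟨j, hjI, rfl⟩
    · have := hc j hj hjI
      rw [linearIndepOn_insert hjI, and_iff_right hI, not_not] at this
      exact this
  haveI : Fintype J := Fintype.ofFinite J
  haveI : Fintype (v '' I) := ((toFinite I).image v).fintype
  have h1 := linearIndependent_le_span_aux' (fun j : J => v j) hJ (v '' I) hspan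
  rw [← Nat.card_eq_fintype_card, ← Nat.card_eq_fintype_card, Nat.card_coe_set_eq,
    Nat.card_coe_set_eq] at h1
  have h2 := ncard_image_le (f := v) (toFinite I)
  omega

theorem minor_indep {α : Type} {M N : Matroid α} (h : N ≤m M) :
    ∃ I, M.Indep I ∧ Disjoint I N.E ∧ ∀ X ⊆ N.E, N.Indep X ↔ M.Indep (X ∪ I) := by
  obtain ⟨C, D, -, -, -, rfl⟩ := h.exists_eq_contract_delete_disjoint
  obtain ⟨I, hI⟩ := M.exists_isBasis' C
  refine ⟨I, hI.indep, ?_, fun X hX => ?_⟩
  · rw [Set.disjoint_left]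
    intro x hx hx'
    exact hx'.1.2 (hI.subset hx)
  · rw [delete_indep_iff, hI.contract_indep_iff]
    refine ⟨fun h => h.1.1, fun h => ⟨⟨h, ?_⟩, ?_⟩⟩
    · rw [Set.disjoint_right]; intro x hx; exact (hX hx).1.2
    · rw [Set.disjoint_left]; intro x hx; exact (hX hx).2

theorem Ternary.minor {α : Type} {M N : Matroid α} (hM : Ternary M) (h : N ≤m M) : Ternary N := by
  obtain ⟨n, v, hv⟩ := hM
  obtain ⟨I, hI, hd, hX⟩ := minor_indep h
  haveI : Fact (Nat.Prime 3) := ⟨by norm_num⟩
  let Q := (Fin n → ZMod 3) ⧸ Submodule.span (ZMod 3) (v '' I)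
  let φ := (Module.finBasis (ZMod 3) Q).equivFun
  refine ⟨_, φ.toLinearMap ∘ (Submodule.mkQ _ ∘ v), fun X hXE => ?_⟩
  rw [LinearMap.linearIndepOn_iff_of_injOn _ φ.injective.injOn,
    ((hv I hI.subset_ground).1 hI).quotient_iff_union (hd.mono_right hXE), hX X hXE, union_comm,
    hv _ (union_subset hI.subset_ground (hXE.trans h.subset))]

theorem minor_base {α : Type} [Finite α] {M N : Matroid α} (h : N ≤m M) :
    ∃ J, Disjoint J N.E ∧ ∀ X ⊆ N.E, N.IsBase X ↔ M.IsBase (X ∪ J) := by
  obtain ⟨I, hI, hd, hX⟩ := minor_indep h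
  obtain ⟨B0, hB0⟩ := N.exists_isBase
  obtain ⟨B1, hB1, hB01⟩ := ((hX _ hB0.subset_ground).1 hB0.indep).exists_isBase_superset
  have hbasis : ∀ X, N.IsBase X → M.IsBasis (X ∪ I) (N.E ∪ I) := by
    intro X hXb
    refine ((hX _ hXb.subset_ground).1 hXb.indep).isBasis_of_forall_insert
      (union_subset_union_left _ hXb.subset_ground) ?_
    rintro e ⟨he, he'⟩
    have heN : e ∈ N.E := he.resolve_right (fun h => he' (Or.inr h))
    have heX : e ∉ X := fun h => he' (Or.inl h)
    refine ⟨fun hi => ?_, insert_subset (h.subset heN)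
      (union_subset (hXb.subset_ground.trans h.subset) hI.subset_ground)⟩
    rw [← insert_union, ← hX _ (insert_subset heN hXb.subset_ground)] at hi
    exact heX (hXb.eq_of_subset_indep hi (subset_insert _ _) ▸ mem_insert e X)
  have hJ : Disjoint (B1 \ B0) N.E := by
    rw [Set.disjoint_left]
    rintro x ⟨hx1, hx0⟩ hxN
    have : N.Indep (insert x B0) := by
      rw [hX _ (insert_subset hxN hB0.subset_ground), insert_union]
      exact hB1.indep.subset (insert_subset hx1 hB01)
    exact hx0 (hB0.eq_of_subset_indep this (subset_insert _ _) ▸ mem_insert x B0)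
  have hIJ : I ⊆ B1 \ B0 := fun x hx => ⟨hB01 (Or.inr hx), fun hx0 =>
    Set.disjoint_left.1 hd hx (hB0.subset_ground hx0)⟩
  have hB1eq : B1 = B0 ∪ (B1 \ B0) := by
    rw [union_diff_cancel (subset_union_left.trans hB01)]
  have hcard : ∀ X ⊆ N.E, (X ∪ (B1 \ B0)).ncard = X.ncard + (B1 \ B0).ncard := fun X hXE =>
    ncard_union_eq (hJ.mono_right hXE).symm
  have hc1 : B1.ncard = B0.ncard + (B1 \ B0).ncard := by
    rw [← hcard B0 hB0.subset_ground, ← hB1eq]
  refine ⟨B1 \ B0, hJ, fun X hXE => ⟨fun hXb => ?_, fun hXb => ?_⟩⟩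
  · have hdj : Disjoint (N.E ∪ I) ((B1 \ B0) \ I) :=
      Disjoint.union_left (hJ.symm.mono_right diff_subset) disjoint_sdiff_right
    have h1 : (M ／ (N.E ∪ I)).Indep ((B1 \ B0) \ I) := by
      rw [(hbasis _ hB0).contract_indep_iff_of_disjoint hdj]
      exact hB1.indep.subset (union_subset (diff_subset.trans diff_subset) hB01)
    rw [(hbasis _ hXb).contract_indep_iff_of_disjoint hdj] at h1
    have h2 : M.Indep (X ∪ (B1 \ B0)) := by
      refine h1.subset ?_
      rintro x (hx | hx)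
      · exact Or.inr (Or.inl hx)
      · by_cases hxI : x ∈ I
        · exact Or.inr (Or.inr hxI)
        · exact Or.inl ⟨hx, hxI⟩
    obtain ⟨B, hB, hXB⟩ := h2.exists_isBase_superset
    have := eq_of_subset_of_ncard_le hXB (by
      rw [hcard X hXE, hB.ncard_eq_ncard_of_isBase hB1, hc1, hXb.ncard_eq_ncard_of_isBase hB0])
    rwa [this]
  · have h2 : N.Indep X := by
      rw [hX X hXE]
      exact hXb.indep.subset (union_subset_union_right _ hIJ)
    obtain ⟨B, hB, hXB⟩ := h2.exists_isBase_superset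
    have h3 := hXb.ncard_eq_ncard_of_isBase hB1
    rw [hcard X hXE, hc1] at h3
    have := eq_of_subset_of_ncard_le hXB (by
      rw [hB.ncard_eq_ncard_of_isBase hB0]; omega)
    rwa [this]

end Pool.Agent.Lib.MP_c69b6d_co
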