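import Pool.Agent.Lib.MP_c69b6d_co.Lin
import Pool.Agent.Lib.MP_c69b6d_co.Coord

namespace Pool.Agent.Lib.MP_c69b6d_co

open Matroid

set_option maxRecDepth 100000

theorem not_rayleigh_copy {α : Type} [Fintype α] {M : Matroid α} {A : List (List ℕ)}
    {G C : List (List ℕ × ℕ)} {L : List ℕ} {e f : ℕ} {ys : List ℕ} (hn : A.length ≤ 10)
    (h : allOK A G C L) (hef : e < A.length ∧ f < A.length ∧ e ≠ f)
    (hw : wcheck 10 A.length L e f ys = true) {φ : Fin A.length → α}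
    (hφ : Function.Injective φ) (hE : Set.range φ = M.E)
    (hM : ∀ I, M.Indep (φ '' I) ↔ LinearIndepOn (ZMod 3) (cols A) I) : ¬ Rayleigh M := by
  have : Fact (Nat.Prime 3) := ⟨by norm_num⟩
  obtain ⟨N, hNE, hN⟩ := exists_vecMatroid (K := ZMod 3) (cols A)
  have e1 : M = N.map φ hφ.injOn := by
    refine ext_indep (by simp [hNE, hE]) fun I hI => ?_
    rw [← hE, Set.subset_range_iff_exists_image_eq] at hI
    obtain ⟨I, rfl⟩ := hI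
    rw [map_image_indep_iff (by simp [hNE]), hM, hN]
  intro hR
  rw [e1] at hR
  exact not_rayleigh hn (baseList_of_check h hN) hNE hef.1 hef.2.1 hef.2.2 hw (hR.of_map hφ)

def nLA49 : List ℕ := [15, 23, 27, 29, 39, 43, 46, 53, 54, 57, 58, 60, 71, 75, 77, 78, 83, 85, 86, 90, 92, 99, 101, 102, 105, 108, 113, 114, 120, 135, 139, 141, 142, 150, 154, 156, 165, 169, 172, 180, 184, 195, 197, 198, 210, 212, 225, 228, 240]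

def nGA49 : List (List ℕ × ℕ) := [([0, 0, 0, 1], 56), ([0, 0, 1, 0], 217), ([0, 0, 1, 2], 30), ([0, 1, 0, 0], 234), ([0, 1, 0, 2], 45), ([0, 1, 1, 2], 11), ([0, 1, 2, 0], 204), ([1, 0, 0, 0], 116), ([1, 0, 0, 2], 179), ([1, 0, 1, 2], 149), ([1, 0, 2, 0], 82), ([1, 1, 0, 2], 166), ([1, 1, 1, 1], 7), ([1, 1, 2, 0], 70), ([1, 2, 0, 0], 97), ([1, 2, 1, 0], 69), ([1, 2, 2, 0], 67)]

def nCA49 : List (List ℕ × ℕ) := [([0, 0, 0, 1, 0, 0, 1, 2], 200), ([0, 1, 0, 0, 0, 1, 0, 1], 162), ([1, 0, 0, 0, 1, 0, 0, 1], 145), ([0, 0, 1, 0, 1, 1, 1, 0], 116), ([0, 1, 0, 1, 0, 1, 1, 0], 106), ([0, 1, 2, 1, 2, 0, 0, 0], 30), ([1, 0, 0, 1, 1, 0, 1, 0], 89), ([1, 0, 2, 1, 0, 2, 0, 0], 45), ([1, 2, 0, 0, 1, 2, 0, 0], 51), ([0, 0, 1, 2, 1, 1, 0, 1], 188), ([0, 1, 2, 0, 2, 0, 2, 1], 214), ([1, 0, 2, 0, 0, 2, 2, 1], 229), ([1, 1, 2, 0, 0, 0, 2, 2], 199),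 ([1, 1, 2, 1, 0, 0, 0, 1], 143), ([1, 1, 2, 2, 0, 0, 1, 0], 79), ([1, 2, 1, 0, 2, 0, 1, 0], 87), ([1, 2, 2, 0, 0, 1, 2, 0], 103)]

theorem nrA49 {α : Type} [Fintype α] {M : Matroid α} {φ : Fin A49.length → α}
    (hφ : Function.Injective φ) (hE : Set.range φ = M.E)
    (hM : ∀ I, M.Indep (φ '' I) ↔ LinearIndepOn (ZMod 3) (cols A49) I) : ¬ Rayleigh M :=
  not_rayleigh_copy (G := nGA49) (C := nCA49) (L := nLA49) (e := 2) (f := 7) (ys := [0, 2, 0, 1, 1, 2, 2, 0]) (by decide)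
    ⟨by decide +kernel, by decide +kernel, by decide +kernel, by decide +kernel, by decide +kernel⟩
    (by decide) (by decide +kernel) hφ hE hM

def nLA52 : List ℕ := [15, 23, 27, 29, 39, 43, 46, 53, 54, 57, 58, 60, 71, 75, 77, 78, 83, 85, 86, 90, 92, 99, 101, 102, 105, 108, 113, 114, 120, 135, 139, 141, 147, 149, 163, 165, 166, 169, 170, 172, 177, 178, 180, 198, 202, 204, 210, 212, 226, 228, 232, 240]

def nGA52 : List (List ℕ × ℕ) := [([0, 0, 0, 1], 184), ([0, 0, 1, 0], 217), ([0, 0, 1, 2], 158), ([0, 1, 0, 0], 106), ([0, 1, 0, 2], 45), ([0, 1, 1, 2], 11), ([0, 1, 2, 0], 76), ([1, 0, 0, 0], 116), ([1, 0, 0, 2], 51), ([1, 0, 1, 2], 21), ([1, 0, 2, 0], 82), ([1, 1, 0, 2], 38), ([1, 1, 1, 1], 7), ([1, 1, 2, 0], 70), ([1, 2, 0, 0], 225), ([1, 2, 0, 1], 164), ([1, 2, 0, 2], 162), ([1, 2, 1, 0], 197), ([1, 2, 2, 0], 195)]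

def nCA52 : List (List ℕ × ℕ) := [([0, 0, 0, 1, 1, 0, 0, 2], 152), ([1, 0, 0, 0, 0, 0, 1, 1], 193), ([0, 0, 1, 0, 1, 1, 1, 0], 116), ([0, 1, 0, 1, 0, 1, 1, 0], 106), ([0, 1, 2, 0, 1, 0, 0, 1], 150), ([0, 1, 2, 1, 2, 0, 0, 0], 30), ([0, 1, 2, 2, 0, 0, 0, 2], 142), ([1, 0, 0, 1, 1, 0, 1, 0], 89), ([1, 0, 2, 1, 0, 2, 0, 0], 45), ([1, 2, 0, 0, 1, 2, 0, 0], 51), ([0, 0, 1, 2, 0, 1, 1, 1], 236), ([0, 1, 0, 0, 2, 1, 1, 1], 242), ([0, 1, 1, 0, 0, 2, 2, 1], 230), ([1, 0, 2, 0, 2, 2, 0, 1], 181), ([1, 1, 1, 0, 0, 2, 0, 2], 167), ([1, 1, 2, 2, 0, 0, 1, 0], 79), ([1, 2, 0, 2, 0, 2, 0, 1], 171), ([1, 2, 1, 0, 2, 0, 1, 0], 87), ([1, 2, 2, 0, 0, 1, 2, 0], 103)]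

theorem nrA52 {α : Type} [Fintype α] {M : Matroid α} {φ : Fin A52.length → α}
    (hφ : Function.Injective φ) (hE : Set.range φ = M.E)
    (hM : ∀ I, M.Indep (φ '' I) ↔ LinearIndepOn (ZMod 3) (cols A52) I) : ¬ Rayleigh M :=
  not_rayleigh_copy (G := nGA52) (C := nCA52) (L := nLA52) (e := 5) (f := 7) (ys := [0, 2, 1, 1, 2, 0, 1, 0]) (by decide)
    ⟨by decide +kernel, by decide +kernel, by decide +kernel, by decide +kernel, by decide +kernel⟩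
    (by decide) (by decide +kernel) hφ hE hM

def nLA56 : List ℕ := [15, 23, 27, 29, 39, 43, 46, 53, 54, 57, 58, 60, 71, 75, 77, 78, 83, 85, 86, 90, 92, 99, 101, 102, 105, 108, 113, 114, 120, 141, 142, 149, 150, 153, 154, 156, 165, 166, 169, 170, 172, 180, 184, 197, 198, 201, 202, 209, 210, 212, 216, 225, 226, 228, 232, 240]

def nGA56 : List (List ℕ × ℕ) := [([0, 0, 0, 1], 56), ([0, 0, 1, 0], 89), ([0, 0, 1, 1], 152), ([0, 0, 1, 2], 30), ([0, 1, 0, 0], 106), ([0, 1, 0, 1], 168), ([0, 1, 0, 2], 45), ([0, 1, 1, 2], 139), ([0, 1, 2, 0], 204), ([1, 0, 0, 0], 116), ([1, 0, 0, 2], 179), ([1, 0, 1, 0], 208), ([1, 0, 1, 2], 21), ([1, 0, 2, 0], 82), ([1, 0, 2, 1], 148), ([1, 1, 0, 0], 224), ([1, 1, 0, 2], 38), ([1, 1, 1, 1], 135), ([1, 1, 2, 0], 70), ([1, 2, 0, 0], 97), ([1, 2, 0, 1], 164), ([1, 2, 1, 0], 69), ([1, 2, 2, 0], 195)]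

def nCA56 : List (List ℕ × ℕ) := [([1, 1, 0, 0, 0, 0, 0, 2], 131), ([0, 0, 1, 0, 1, 1, 1, 0], 116), ([0, 0, 1, 1, 0, 0, 2, 2], 204), ([0, 1, 0, 0, 1, 2, 0, 1], 178), ([0, 1, 0, 1, 0, 1, 1, 0], 106), ([0, 1, 2, 1, 2, 0, 0, 0], 30), ([1, 0, 0, 0, 2, 1, 0, 1], 177), ([1, 0, 0, 1, 1, 0, 1, 0], 89), ([1, 0, 2, 1, 0, 2, 0, 0], 45), ([1, 2, 0, 0, 1, 2, 0, 0], 51), ([0, 0, 0, 1, 2, 2, 1, 2], 248), ([0, 0, 1, 2, 2, 2, 0, 1], 188), ([0, 1, 0, 2, 2, 0, 2, 2], 218), ([0, 1, 1, 0, 2, 0, 1, 1], 214), ([0, 1, 1, 2, 0, 1, 0, 2], 174), ([0, 1, 2, 0, 0, 1, 2, 1], 230), ([1, 0, 0, 2, 0, 2, 2, 2], 233), ([1, 0, 1, 0, 0, 2, 1, 1], 229), ([1, 0, 1, 2, 1, 0, 0, 2], 157), ([1, 0, 2, 0, 1, 0, 2, 1], 213), ([1, 1, 2, 2, 0, 0, 1, 0], 79), ([1, 2, 1, 0, 2, 0, 1, 0], 87), ([1, 2, 2, 0, 0, 1, 2, 0], 103)]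

theorem nrA56 {α : Type} [Fintype α] {M : Matroid α} {φ : Fin A56.length → α}
    (hφ : Function.Injective φ) (hE : Set.range φ = M.E)
    (hM : ∀ I, M.Indep (φ '' I) ↔ LinearIndepOn (ZMod 3) (cols A56) I) : ¬ Rayleigh M :=
  not_rayleigh_copy (G := nGA56) (C := nCA56) (L := nLA56) (e := 3) (f := 7) (ys := [29, 29, 0, 0, 6, 5, 0, 0]) (by decide)
    ⟨by decide +kernel, by decide +kernel, by decide +kernel, by decide +kernel, by decide +kernel⟩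
    (by decide) (by decide +kernel) hφ hE hM

end Pool.Agent.Lib.MP_c69b6d_co
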