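import Mathlib

set_option linter.unusedSimpArgs false

namespace Pool.Agent.Lib.MP_c69b6d_co

inductive P2 : Type
  | z : P2
  | c : ℤ → P2
  | n : P2 → P2 → P2

inductive P3 : Type
  | z : P3
  | c : ℤ → P3
  | n : P3 → P3 → P3 → P3

namespace P2
noncomputable def lo (a : P2) : P2 := P2.rec (motive := fun _ => P2) z (fun k => c k) (fun a _ _ _ => a) a
noncomputable def hi (a : P2) : P2 := P2.rec (motive := fun _ => P2) z (fun _ => z) (fun _ b _ _ => b) a
noncomputable def cst (a : P2) : ℤ := P2.rec (motive := fun _ => ℤ) 0 (fun k => k) (fun _ _ r _ => r) a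
noncomputable def scale (k : ℤ) (a : P2) : P2 :=
  P2.rec (motive := fun _ => P2) z (fun m => c (Int.mul k m)) (fun _ _ r s => n r s) a
theorem lo_z : lo z = z := rfl
theorem lo_c (k : ℤ) : lo (c k) = c k := rfl
theorem lo_n (a b : P2) : lo (n a b) = a := rfl
theorem hi_z : hi z = z := rfl
theorem hi_c (k : ℤ) : hi (c k) = z := rfl
theorem hi_n (a b : P2) : hi (n a b) = b := rfl
theorem cst_z : cst z = 0 := rfl
theorem cst_c (k : ℤ) : cst (c k) = k := rfl
theorem cst_n (a b : P2) : cst (n a b) = cst a := rfl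
theorem scale_z (k : ℤ) : scale k z = z := rfl
theorem scale_c (k m : ℤ) : scale k (c m) = c (k * m) := rfl
theorem scale_n (k : ℤ) (a b : P2) : scale k (n a b) = n (scale k a) (scale k b) := rfl
end P2

namespace P3
def cst : P3 → ℤ
  | z => 0
  | c k => k
  | n a _ _ => cst a
noncomputable def addc (k : ℤ) (t : P3) : P3 :=
  P3.rec (motive := fun _ => P3) (c k) (fun m => c (Int.add k m)) (fun _ b d r _ _ => n r b d) t
theorem addc_z (k : ℤ) : addc k z = c k := rfl
theorem addc_c (k m : ℤ) : addc k (c m) = c (k + m) := rfl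
theorem addc_n (k : ℤ) (a b d : P3) : addc k (n a b d) = n (addc k a) b d := rfl
noncomputable def add (s : P3) : P3 → P3 :=
  P3.rec (motive := fun _ => P3 → P3) (fun t => t) (fun k t => addc k t)
    (fun a b d ra rb rd t => P3.rec (motive := fun _ => P3) (n a b d) (fun k => n (addc k a) b d)
      (fun a' b' d' _ _ _ => n (ra a') (rb b') (rd d')) t) s
theorem add_z (t : P3) : add z t = t := rfl
theorem add_c (k : ℤ) (t : P3) : add (c k) t = addc k t := rfl
theorem add_n_z (a b d : P3) : add (n a b d) z = n a b d := rfl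
theorem add_n_c (a b d : P3) (k : ℤ) : add (n a b d) (c k) = n (addc k a) b d := rfl
theorem add_n_n (a b d a' b' d' : P3) :
    add (n a b d) (n a' b' d') = n (add a a') (add b b') (add d d') := rfl
noncomputable def nonneg (t : P3) : Bool :=
  P3.rec (motive := fun _ => Bool) true
    (fun k => Int.rec (motive := fun _ => Bool) (fun _ => true) (fun _ => false) k)
    (fun _ _ _ r s u => Bool.rec (motive := fun _ => Bool) false
      (Bool.rec (motive := fun _ => Bool) false u s) r) t
theorem nonneg_c (k : ℤ) (h : nonneg (c k) = true) : 0 ≤ k := by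
  cases k with
  | ofNat m => exact Int.natCast_nonneg m
  | negSucc m => exact Bool.noConfusion h
theorem nonneg_n (a b d : P3) (h : nonneg (n a b d) = true) :
    nonneg a = true ∧ nonneg b = true ∧ nonneg d = true := by
  have : nonneg (n a b d) = Bool.rec (motive := fun _ => Bool) false
      (Bool.rec (motive := fun _ => Bool) false (nonneg d) (nonneg b)) (nonneg a) := rfl
  rw [this] at h
  revert h
  cases nonneg a <;> cases nonneg b <;> cases nonneg d <;> simp
end P3

/-- run `k` unless one of the two factors is the zero tree. -/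
noncomputable def unlessZ (a b : P2) (k : P2 → P2 → P3) : P3 :=
  P2.rec (motive := fun _ => P3) P3.z
    (fun m => P2.rec (motive := fun _ => P3) P3.z (fun m' => k (P2.c m) (P2.c m'))
      (fun u v _ _ => k (P2.c m) (P2.n u v)) b)
    (fun x y _ _ => P2.rec (motive := fun _ => P3) P3.z (fun m' => k (P2.n x y) (P2.c m'))
      (fun u v _ _ => k (P2.n x y) (P2.n u v)) b) a

theorem unlessZ_cases (a b : P2) (k : P2 → P2 → P3) :
    (unlessZ a b k = P3.z ∧ (a = P2.z ∨ b = P2.z)) ∨ unlessZ a b k = k a b := by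
  cases a <;> cases b <;> first | exact Or.inr rfl | exact Or.inl ⟨rfl, by simp⟩

/-- product, skipping (with factor `y z`) the levels flagged in `T`. -/
noncomputable def mulT (T : List Bool) : P2 → P2 → P3 :=
  List.rec (motive := fun _ => P2 → P2 → P3) (fun a b => P3.c (Int.mul a.cst b.cst))
    (fun t _ r a b => unlessZ a b (fun a b => Bool.rec (motive := fun _ => P3)
      (P3.n (r a.lo b.lo) ((r a.lo b.hi).add (r a.hi b.lo)) (r a.hi b.hi))
      (P3.n P3.z (r a b) P3.z) t)) T

theorem mulT_nil (a b : P2) : mulT [] a b = P3.c (a.cst * b.cst) := rfl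
theorem mulT_false (T : List Bool) (a b : P2) : mulT (false :: T) a b = unlessZ a b (fun a b =>
    P3.n (mulT T a.lo b.lo) ((mulT T a.lo b.hi).add (mulT T a.hi b.lo)) (mulT T a.hi b.hi)) := rfl
theorem mulT_true (T : List Bool) (a b : P2) : mulT (true :: T) a b = unlessZ a b (fun a b =>
    P3.n P3.z (mulT T a b) P3.z) := rfl

noncomputable def ev3 : List (ℝ × ℝ) → P3 → ℝ
  | [], t => t.cst
  | _ :: _, P3.z => 0
  | w :: l, P3.c k => w.2 ^ 2 * ev3 l (P3.c k)
  | w :: l, P3.n a b d => w.2 ^ 2 * ev3 l a + w.1 * w.2 * ev3 l b + w.1 ^ 2 * ev3 l d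

noncomputable def ev2 : List Bool → List (ℝ × ℝ) → P2 → ℝ
  | t :: T, w :: l, a => cond t (ev2 T l a) (w.2 * ev2 T l a.lo + w.1 * ev2 T l a.hi)
  | _, _, a => a.cst

noncomputable def pT : List Bool → List (ℝ × ℝ) → ℝ
  | t :: T, w :: l => cond t (w.1 * w.2 * pT T l) (pT T l)
  | _, _ => 1

theorem ev3_z (l : List (ℝ × ℝ)) : ev3 l P3.z = 0 := by
  cases l <;> simp [ev3, P3.cst]

theorem ev2_z (T : List Bool) (l : List (ℝ × ℝ)) : ev2 T l P2.z = 0 := by
  induction T generalizing l with
  | nil => simp [ev2, P2.cst_z, P2.cst_c, P2.cst_n]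
  | cons t T ih =>
    cases l with
    | nil => simp [ev2, P2.cst_z, P2.cst_c, P2.cst_n]
    | cons w l => cases t <;> simp [ev2, P2.lo_z, P2.hi_z, ih]

theorem cst_addc (k : ℤ) (t : P3) : (t.addc k).cst = k + t.cst := by
  induction t with
  | z => simp [P3.addc_z, P3.addc_c, P3.addc_n, P3.cst]
  | c m => simp [P3.addc_z, P3.addc_c, P3.addc_n, P3.cst]
  | n a b d iha _ _ => simp [P3.addc_z, P3.addc_c, P3.addc_n, P3.cst, iha]

theorem ev3_c_add (l : List (ℝ × ℝ)) (k m : ℤ) :
    ev3 l (P3.c (k + m)) = ev3 l (P3.c k) + ev3 l (P3.c m) := by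
  induction l with
  | nil => simp [ev3, P3.cst]
  | cons w l ih => simp only [ev3, ih]; ring

theorem ev3_addc (l : List (ℝ × ℝ)) (k : ℤ) (t : P3) :
    ev3 l (t.addc k) = ev3 l (P3.c k) + ev3 l t := by
  induction l generalizing t with
  | nil => simp [ev3, cst_addc, P3.cst]
  | cons w l ih =>
    cases t with
    | z => simp [P3.addc_z, P3.addc_c, P3.addc_n, ev3]
    | c m => rw [P3.addc_c, ev3_c_add]
    | n a b d => simp only [P3.addc_z, P3.addc_c, P3.addc_n, ev3, ih]; ring

theorem cst_add (s t : P3) : (s.add t).cst = s.cst + t.cst := by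
  induction s generalizing t with
  | z => simp [P3.add_z, P3.add_c, P3.add_n_z, P3.add_n_c, P3.add_n_n, P3.cst]
  | c m => simp [P3.add_z, P3.add_c, P3.add_n_z, P3.add_n_c, P3.add_n_n, P3.cst, cst_addc]
  | n a b d iha _ _ =>
    cases t with
    | z => simp [P3.add_z, P3.add_c, P3.add_n_z, P3.add_n_c, P3.add_n_n, P3.cst]
    | c k => simp [P3.add_z, P3.add_c, P3.add_n_z, P3.add_n_c, P3.add_n_n, P3.cst, cst_addc, add_comm]
    | n a' b' d' => simp [P3.add_z, P3.add_c, P3.add_n_z, P3.add_n_c, P3.add_n_n, P3.cst, iha]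

theorem ev3_add (l : List (ℝ × ℝ)) (s t : P3) : ev3 l (s.add t) = ev3 l s + ev3 l t := by
  induction l generalizing s t with
  | nil => simp [ev3, cst_add]
  | cons w l ih =>
    cases s with
    | z => simp [P3.add_z, P3.add_c, P3.add_n_z, P3.add_n_c, P3.add_n_n, ev3]
    | c m => rw [P3.add_c, ev3_addc]
    | n a b d =>
      cases t with
      | z => simp [P3.add_z, P3.add_c, P3.add_n_z, P3.add_n_c, P3.add_n_n, ev3]
      | c k => simp only [P3.add_z, P3.add_c, P3.add_n_z, P3.add_n_c, P3.add_n_n, ev3, ev3_addc]; ring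
      | n a' b' d' => simp only [P3.add_z, P3.add_c, P3.add_n_z, P3.add_n_c, P3.add_n_n, ev3, ih]; ring

theorem cst_nonneg (t : P3) (h : t.nonneg = true) : 0 ≤ t.cst := by
  induction t with
  | z => simp [P3.cst]
  | c k => exact P3.nonneg_c k h
  | n a b d iha _ _ =>
    exact iha (P3.nonneg_n _ _ _ h).1

theorem ev3_nonneg (l : List (ℝ × ℝ)) (hl : ∀ w ∈ l, 0 ≤ w.1 ∧ 0 ≤ w.2) (t : P3)
    (h : t.nonneg = true) : 0 ≤ ev3 l t := by
  induction l generalizing t with
  | nil => simpa [ev3] using cst_nonneg t h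
  | cons w l ih =>
    have hw := hl w (by simp)
    have ih' := ih (fun w hw => hl w (by simp [hw]))
    have h1 := hw.1
    have h2 := hw.2
    cases t with
    | z => simp [ev3]
    | c k =>
      have := ih' _ h
      simp only [ev3]; positivity
    | n a b d =>
      have h := P3.nonneg_n _ _ _ h
      have := ih' _ h.1
      have := ih' _ h.2.1
      have := ih' _ h.2.2
      simp only [ev3]; positivity

theorem ev3_mulT (T : List Bool) (l : List (ℝ × ℝ)) (hl : l.length = T.length) (a b : P2) :
    ev3 l (mulT T a b) = pT T l * (ev2 T l a * ev2 T l b) := by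
  induction T generalizing l a b with
  | nil =>
    cases l with
    | nil => simp [mulT_nil, ev3, ev2, pT, P3.cst]
    | cons _ _ => simp at hl
  | cons t T ih =>
    cases l with
    | nil => simp at hl
    | cons w l =>
      have hl' : l.length = T.length := by simpa using hl
      cases t
      · rw [mulT_false]
        rcases unlessZ_cases a b _ with ⟨h, h' | h'⟩ | h
        · rw [h, h', ev3_z, ev2_z]; simp
        · rw [h, h', ev3_z, ev2_z]; simp
        · rw [h]; simp only [cond_false, ev3, ev3_add, ih l hl', ev2, pT]; ring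
      · rw [mulT_true]
        rcases unlessZ_cases a b _ with ⟨h, h' | h'⟩ | h
        · rw [h, h', ev3_z, ev2_z]; simp
        · rw [h, h', ev3_z, ev2_z]; simp
        · rw [h]; simp only [cond_true, ev3, ev3_z, ih l hl', ev2, pT]; ring

theorem pT_nonneg (T : List Bool) (l : List (ℝ × ℝ)) (hl : ∀ w ∈ l, 0 ≤ w.1 ∧ 0 ≤ w.2) :
    0 ≤ pT T l := by
  induction T generalizing l with
  | nil => simp [pT]
  | cons t T ih =>
    cases l with
    | nil => simp [pT]
    | cons w l =>
      have hw := hl w (by simp)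
      have := ih l (fun w hw => hl w (by simp [hw]))
      have h1 := hw.1
      have h2 := hw.2
      cases t
      · simpa [pT]
      · simp only [pT, cond_true]; positivity

theorem cst_scale (k : ℤ) (a : P2) : (a.scale k).cst = k * a.cst := by
  induction a with
  | z => simp [P2.scale_z, P2.scale_c, P2.scale_n, P2.cst_z, P2.cst_c, P2.cst_n]
  | c m => simp [P2.scale_z, P2.scale_c, P2.scale_n, P2.cst_z, P2.cst_c, P2.cst_n]
  | n a b iha _ => simp [P2.scale_z, P2.scale_c, P2.scale_n, P2.cst_z, P2.cst_c, P2.cst_n, iha]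

theorem ev2_scale (T : List Bool) (l : List (ℝ × ℝ)) (k : ℤ) (a : P2) :
    ev2 T l (a.scale k) = k * ev2 T l a := by
  induction T generalizing l a with
  | nil => simp [ev2, cst_scale]
  | cons t T ih =>
    cases l with
    | nil => simp [ev2, cst_scale]
    | cons w l =>
      have h1 : (a.scale k).lo = a.lo.scale k := by cases a <;> rfl
      have h2 : (a.scale k).hi = a.hi.scale k := by cases a <;> rfl
      cases t
      · simp only [ev2, cond_false, h1, h2, ih]; ring
      · simp only [ev2, cond_true, ih]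

/-- weight of the bit mask `S`. -/
noncomputable def wl : List (ℝ × ℝ) → ℕ → ℝ
  | [], _ => 1
  | w :: l, S => (if S % 2 = 1 then w.1 else w.2) * wl l (S / 2)

noncomputable def ins : ℕ → ℕ → P2 → P2
  | 0 => fun _ a => P2.c (a.cst + 1)
  | d + 1 => fun S a =>
    cond (Nat.beq (S % 2) 1) (P2.n a.lo (ins d (S / 2) a.hi)) (P2.n (ins d (S / 2) a.lo) a.hi)

noncomputable def build (d : ℕ) : List ℕ → P2
  | [] => P2.z
  | S :: L => ins d S (build d L)

theorem ev2_ins (l : List (ℝ × ℝ)) (S : ℕ) (a : P2) :
    ev2 (List.replicate l.length false) l (ins l.length S a) =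
      wl l S + ev2 (List.replicate l.length false) l a := by
  induction l generalizing S a with
  | nil => simp [ev2, ins, wl, P2.cst_z, P2.cst_c, P2.cst_n, add_comm]
  | cons w l ih =>
    by_cases h : S % 2 = 1
    · have : Nat.beq (S % 2) 1 = true := by simp [h]
      simp only [List.length_cons, List.replicate_succ, ins, this, cond_true, ev2, cond_false,
        P2.lo_n, P2.hi_n, ih, wl]
      rw [if_pos h]; ring
    · have : Nat.beq (S % 2) 1 = false := by
        rw [← Bool.not_eq_true, Nat.beq_eq]; exact h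
      simp only [List.length_cons, List.replicate_succ, ins, this, ev2, cond_false,
        P2.lo_n, P2.hi_n, ih, wl]
      rw [if_neg h]; ring

theorem ev2_build (l : List (ℝ × ℝ)) (L : List ℕ) :
    ev2 (List.replicate l.length false) l (build l.length L) = (L.map (wl l)).sum := by
  induction L with
  | nil => simp [build, ev2_z]
  | cons S L ih => simp [build, ev2_ins, ih]

theorem pT_false (l : List (ℝ × ℝ)) : pT (List.replicate l.length false) l = 1 := by
  induction l with
  | nil => simp [pT]
  | cons w l ih => simpa [pT, List.replicate_succ] using ih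

/-- the members of `L` whose bits `e`, `f` are `p`, `q`. -/
def sel (L : List ℕ) (e f : ℕ) (p q : Bool) : List ℕ :=
  L.filter (fun S => (S.testBit e == p) && (S.testBit f == q))

noncomputable def sm (l : List (ℝ × ℝ)) (L : List ℕ) : ℝ := (L.map (wl l)).sum

def Ineq (d : ℕ) (L : List ℕ) (e f : ℕ) : Prop :=
  ∀ l : List (ℝ × ℝ), l.length = d → (∀ w ∈ l, 0 ≤ w.1 ∧ 0 ≤ w.2) →
    sm l (sel L e f true true) * sm l (sel L e f false false) ≤
      sm l (sel L e f true false) * sm l (sel L e f false true)

def bits : ℕ → ℕ → List Bool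
  | 0 => fun _ => []
  | d + 1 => fun T => Nat.beq (T % 2) 1 :: bits d (T / 2)

theorem length_bits (d T : ℕ) : (bits d T).length = d := by
  induction d generalizing T with
  | zero => rfl
  | succ d ih => simp [bits, ih]

/-- a certificate term: numerator, denominator, mask, polynomial. -/
structure Sq where
  num : ℕ
  den : ℕ
  T : ℕ
  p : P2

noncomputable def sub (d K : ℕ) : List Sq → P3 → P3
  | [] => fun t => t
  | s :: cs => fun t =>
    sub d K cs ((mulT (bits d s.T) (s.p.scale (Int.negSucc 0 * Int.ofNat (s.num * (K / s.den))))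
      s.p).add t)

theorem ev3_sub (l : List (ℝ × ℝ)) (hl : ∀ w ∈ l, 0 ≤ w.1 ∧ 0 ≤ w.2) (K : ℕ) (cs : List Sq)
    (t : P3) : ev3 l (sub l.length K cs t) ≤ ev3 l t := by
  induction cs generalizing t with
  | nil => simp [sub]
  | cons s cs ih =>
    refine (ih _).trans ?_
    rw [ev3_add, ev3_mulT _ _ (length_bits _ _).symm, ev2_scale]
    have h1 := pT_nonneg (bits l.length s.T) l hl
    have h2 := mul_self_nonneg (ev2 (bits l.length s.T) l s.p)
    have h3 : ((Int.negSucc 0 * Int.ofNat (s.num * (K / s.den)) : ℤ) : ℝ) =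
        - ((s.num * (K / s.den) : ℕ) : ℝ) := by
      generalize s.num * (K / s.den) = m
      simp [Int.negSucc_eq]
    rw [h3]
    have h4 : (0 : ℝ) ≤ ((s.num * (K / s.den) : ℕ) : ℝ) := Nat.cast_nonneg _
    have := mul_nonneg h1 (mul_nonneg h4 h2)
    nlinarith

noncomputable def check (d : ℕ) (L : List ℕ) (e f K : ℕ) (cs : List Sq) : Bool :=
  (sub d (K + 1) cs
    ((mulT (List.replicate d false) ((build d (sel L e f true false)).scale (Int.ofNat (K + 1)))
      (build d (sel L e f false true))).add
    (mulT (List.replicate d false) ((build d (sel L e f true true)).scale (Int.negSucc K))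
      (build d (sel L e f false false))))).nonneg

theorem ineq_of_check {d : ℕ} {L : List ℕ} {e f K : ℕ} {cs : List Sq}
    (h : check d L e f K cs = true) : Ineq d L e f := by
  intro l hd hl
  subst hd
  have h1 := (ev3_nonneg l hl _ h).trans (ev3_sub l hl _ _ _)
  rw [ev3_add, ev3_mulT _ _ (by simp), ev3_mulT _ _ (by simp), ev2_scale, ev2_scale,
    ev2_build, ev2_build, ev2_build, ev2_build, pT_false] at h1
  have h2 : ((Int.negSucc K : ℤ) : ℝ) = -((K : ℝ) + 1) := by simp [Int.negSucc_eq]
  have h3 : ((Int.ofNat (K + 1) : ℤ) : ℝ) = (K : ℝ) + 1 := by simp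
  rw [h2, h3] at h1
  have h4 : (0 : ℝ) < (K : ℝ) + 1 := by positivity
  unfold sm
  by_contra hc
  push Not at hc
  nlinarith

end Pool.Agent.Lib.MP_c69b6d_co
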