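import Pool.Agent.Lib.MP_c69b6d_co.Link

namespace Pool.Agent.Lib.MP_c69b6d_co

open Matroid Finset

open Classical in
theorem prod_sum_sections {α β : Type} [DecidableEq β] (φ : α → β) (y : α → ℝ) (E0 : Finset α) (X : Finset β) :
    ∏ i ∈ X, ∑ e ∈ E0, (if φ e = i then y e else 0) =
      ∑ B ∈ E0.powerset, if Set.InjOn φ (B : Set α) ∧ B.image φ = X then ∏ e ∈ B, y e else 0 := by
  induction E0 using Finset.induction_on generalizing X with
  | empty =>
    by_cases h : X = ∅
    · simp [h]
    · obtain ⟨x, hx⟩ := Finset.nonempty_iff_ne_empty.2 h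
      rw [prod_eq_zero hx (by simp)]
      simp [Ne.symm h]
  | insert a E0 ha ih =>
    rw [sum_powerset_insert ha, ← ih X]
    simp only [sum_insert ha]
    by_cases hx : φ a ∈ X
    · have h1 : ∑ B ∈ E0.powerset, (if Set.InjOn φ ((insert a B : Finset α) : Set α) ∧
          (insert a B).image φ = X then ∏ e ∈ insert a B, y e else 0) =
          y a * ∏ i ∈ X.erase (φ a), ∑ e ∈ E0, (if φ e = i then y e else 0) := by
        rw [ih, mul_sum]
        refine sum_congr rfl fun B hB => ?_
        have haB : a ∉ B := fun h => ha (mem_powerset.1 hB h)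
        have hiff : (Set.InjOn φ ((insert a B : Finset α) : Set α) ∧ (insert a B).image φ = X) ↔
            (Set.InjOn φ (B : Set α) ∧ B.image φ = X.erase (φ a)) := by
          rw [coe_insert, Set.injOn_insert (by simpa using haB), image_insert]
          constructor
          · rintro ⟨⟨h1, h2⟩, h3⟩
            refine ⟨h1, ?_⟩
            rw [← h3, erase_insert]
            rw [← mem_coe, coe_image]; exact h2
          · rintro ⟨h1, h2⟩
            refine ⟨⟨h1, ?_⟩, ?_⟩
            · rw [← coe_image, h2]; simp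
            · rw [h2, insert_erase hx]
        rw [prod_insert haB]
        by_cases hc : Set.InjOn φ (B : Set α) ∧ B.image φ = X.erase (φ a)
        · rw [if_pos hc, if_pos (hiff.2 hc)]
        · rw [if_neg hc, if_neg (fun h => hc (hiff.1 h)), mul_zero]
      rw [h1, ← mul_prod_erase X _ hx, ← mul_prod_erase X _ hx]
      have h2 : ∏ i ∈ X.erase (φ a), ((if φ a = i then y a else 0) +
          ∑ e ∈ E0, (if φ e = i then y e else 0)) =
          ∏ i ∈ X.erase (φ a), ∑ e ∈ E0, (if φ e = i then y e else 0) := by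
        refine prod_congr rfl fun i hi => ?_
        rw [if_neg (ne_of_mem_erase hi).symm, zero_add]
      rw [h2, if_pos rfl]
      ring
    · have h1 : ∑ B ∈ E0.powerset, (if Set.InjOn φ ((insert a B : Finset α) : Set α) ∧
          (insert a B).image φ = X then ∏ e ∈ insert a B, y e else 0) = 0 := by
        refine sum_eq_zero fun B _ => if_neg fun h => hx ?_
        rw [← h.2, image_insert]; exact mem_insert_self _ _
      rw [h1, add_zero]
      refine prod_congr rfl fun i hi => ?_
      rw [if_neg (fun h : φ a = i => hx (h ▸ hi)), zero_add]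

open Classical in
/-- the weights pushed forward along `φ`. -/
noncomputable def pw {α : Type} (E0 : Finset α) (φ : α → ℕ) (J : Finset ℕ) (y : α → ℝ) (i : ℕ) :
    ℝ := if i ∈ J then 1 else ∑ e ∈ E0, (if φ e = i then y e else 0)

noncomputable def pz (J : Finset ℕ) (i : ℕ) : ℝ := if i ∈ J then 0 else 1

/-- the bases of `M` are the transversals of the members of `L` that contain `J`. -/
structure PushData {α : Type} (M : Matroid α) (E0 : Finset α) (φ : α → ℕ) (J : Finset ℕ) (n : ℕ)
    (L : List ℕ) : Prop where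
  nodup : L.Nodup
  bound : ∀ S ∈ L, S < 2 ^ n
  lt : ∀ e ∈ E0, φ e < n
  nmem : ∀ e ∈ E0, φ e ∉ J
  jlt : ∀ j ∈ J, j < n
  iff : ∀ B : Finset α, M.IsBase (B : Set α) ↔ B ⊆ E0 ∧ Set.InjOn φ (B : Set α) ∧
    ∃ S ∈ L, ∀ i, S.testBit i = true ↔ ((∃ e ∈ B, φ e = i) ∨ i ∈ J)

open Classical in
theorem W_push {α : Type} [Fintype α] {M : Matroid α} {E0 : Finset α} {φ : α → ℕ} {J : Finset ℕ}
    {n : ℕ} {L : List ℕ} (h : PushData M E0 φ J n L) (y : α → ℝ) :
    W M y ∅ = smf n (pw E0 φ J y) (pz J) L := by
  have key : ∀ S ∈ L, wf n (pw E0 φ J y) (pz J) S = ∑ B : Finset α,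
      if B ⊆ E0 ∧ Set.InjOn φ (B : Set α) ∧
        (∀ i, S.testBit i = true ↔ ((∃ e ∈ B, φ e = i) ∨ i ∈ J)) then ∏ e ∈ B, y e else 0 := by
    intro S hS
    have hb : ∀ i, S.testBit i = true → i < n := by
      intro i hi
      by_contra hc
      rw [Nat.testBit_lt_two_pow ((h.bound S hS).trans_le
        (Nat.pow_le_pow_right (by norm_num) (by omega)))] at hi
      exact Bool.noConfusion hi
    by_cases hJ : ∀ j ∈ J, S.testBit j = true
    · have e1 : wf n (pw E0 φ J y) (pz J) S =
          ∏ i ∈ (range n).filter (fun i => S.testBit i = true ∧ i ∉ J),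
            ∑ e ∈ E0, (if φ e = i then y e else 0) := by
        rw [wf, prod_filter]
        refine prod_congr rfl fun i _ => ?_
        by_cases h1 : i ∈ J
        · simp [hJ i h1, h1, pw]
        · cases h2 : S.testBit i <;> simp [h1, pw, pz]
      rw [e1, prod_sum_sections, ← sum_filter, ← sum_filter]
      refine sum_congr ?_ fun _ _ => rfl
      ext B
      simp only [mem_filter, mem_powerset, mem_univ, true_and]
      refine and_congr_right fun hB => and_congr_right fun _ => ?_
      rw [Finset.ext_iff]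
      simp only [mem_image, mem_filter, mem_range]
      constructor
      · intro h1 i
        constructor
        · intro hi
          by_cases h2 : i ∈ J
          · exact Or.inr h2
          · exact Or.inl ((h1 i).2 ⟨hb i hi, hi, h2⟩)
        · rintro (hi | hi)
          · exact ((h1 i).1 hi).2.1
          · exact hJ i hi
      · intro h1 i
        constructor
        · rintro ⟨e, he, rfl⟩
          exact ⟨h.lt e (hB he), (h1 _).2 (Or.inl ⟨e, he, rfl⟩), h.nmem e (hB he)⟩
        · rintro ⟨-, h2, h3⟩
          exact ((h1 i).1 h2).resolve_right h3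
    · push Not at hJ
      obtain ⟨j, hj, hjS⟩ := hJ
      rw [wf, prod_eq_zero (mem_range.2 (h.jlt j hj)) (by simp [hjS, pz, hj]), eq_comm]
      exact sum_eq_zero fun B _ => if_neg fun hh => hjS ((hh.2.2 j).2 (Or.inr hj))
  rw [smf, List.map_congr_left key, ← List.sum_toFinset _ h.nodup, sum_comm]
  unfold W
  refine sum_congr rfl fun B _ => ?_
  by_cases hB : M.IsBase (B : Set α)
  · obtain ⟨h1, h2, S, hS, h3⟩ := (h.iff B).1 hB
    rw [if_pos ⟨hB, Set.empty_subset _⟩, sum_eq_single S, if_pos ⟨h1, h2, h3⟩]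
    · intro S' _ hne
      refine if_neg fun hh => hne (Nat.eq_of_testBit_eq fun i => ?_)
      exact Bool.eq_iff_iff.2 ((hh.2.2 i).trans (h3 i).symm)
    · intro hh
      exact absurd (List.mem_toFinset.2 hS) hh
  · rw [if_neg (fun hh => hB hh.1), eq_comm]
    exact sum_eq_zero fun S hS => if_neg fun hh =>
      hB ((h.iff B).2 ⟨hh.1, hh.2.1, S, List.mem_toFinset.1 hS, hh.2.2⟩)

open Classical in
theorem W_update {α : Type} [Fintype α] (M : Matroid α) (y : α → ℝ) (U : Set α) (e : α) :
    W M y (insert e U) = W M y U - W M (Function.update y e 0) U := by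
  unfold W
  rw [← sum_sub_distrib]
  refine sum_congr rfl fun B _ => ?_
  by_cases he : e ∈ B
  · have : ∏ x ∈ B, Function.update y e 0 x = 0 := prod_eq_zero he (by simp)
    simp [this, Set.insert_subset_iff, he]
  · have : ∏ x ∈ B, Function.update y e 0 x = ∏ x ∈ B, y x :=
      prod_congr rfl fun x hx => Function.update_of_ne (fun h : x = e => he (h ▸ hx)) _ _
    simp [this, Set.insert_subset_iff, he]

theorem W_nonneg {α : Type} [Fintype α] (M : Matroid α) {y : α → ℝ} (hy : ∀ e, 0 ≤ y e)
    (U : Set α) : 0 ≤ W M y U := by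
  unfold W
  refine sum_nonneg fun B _ => ?_
  split_ifs
  · exact prod_nonneg fun e _ => hy e
  · exact le_rfl

theorem W_eq_zero {α : Type} [Fintype α] {M : Matroid α} (y : α → ℝ) {U : Set α}
    (h : ∀ B : Finset α, M.IsBase (B : Set α) → ¬ U ⊆ B) : W M y U = 0 :=
  sum_eq_zero fun B _ => if_neg fun hh => h B hh.1 hh.2

/-- reset the weights at `p` and `q` to one. -/
noncomputable def one2 (w : ℕ → ℝ) (p q : ℕ) (i : ℕ) : ℝ := if i = p ∨ i = q then 1 else w i

theorem wf_split {n p q : ℕ} (hp : p < n) (hq : q < n) (hpq : p ≠ q) (w z : ℕ → ℝ) (S : ℕ) :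
    wf n w z S = (if S.testBit p then w p else z p) * (if S.testBit q then w q else z q) *
      wf n (one2 w p q) (one2 z p q) S := by
  have e1 : (if S.testBit p then w p else z p) =
      ∏ i ∈ range n, if i = p then (if S.testBit p then w p else z p) else 1 := by
    rw [prod_ite_eq']; simp [hp]
  have e2 : (if S.testBit q then w q else z q) =
      ∏ i ∈ range n, if i = q then (if S.testBit q then w q else z q) else 1 := by
    rw [prod_ite_eq']; simp [hq]
  rw [e1, e2, wf, wf, ← prod_mul_distrib, ← prod_mul_distrib]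
  refine prod_congr rfl fun i _ => ?_
  by_cases h1 : i = p
  · subst h1; simp [one2, hpq]
  · by_cases h2 : i = q
    · subst h2; simp [one2, h1]
    · simp [one2, h1, h2]

theorem smf_split {n p q : ℕ} (hp : p < n) (hq : q < n) (hpq : p ≠ q) (w z : ℕ → ℝ) (L : List ℕ) :
    smf n w z L =
      w p * w q * smf n (one2 w p q) (one2 z p q) (sel L p q true true) +
      w p * z q * smf n (one2 w p q) (one2 z p q) (sel L p q true false) +
      z p * w q * smf n (one2 w p q) (one2 z p q) (sel L p q false true) +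
      z p * z q * smf n (one2 w p q) (one2 z p q) (sel L p q false false) := by
  induction L with
  | nil => simp [smf, sel]
  | cons S L ih =>
    unfold smf sel at *
    simp only [List.map_cons, List.sum_cons, ih, List.filter_cons, wf_split hp hq hpq w z S]
    cases S.testBit p <;> cases S.testBit q <;> simp <;> ring

open Classical in
theorem rayleigh_of_push {α : Type} [Fintype α] {M : Matroid α} {E0 : Finset α} {φ : α → ℕ}
    {J : Finset ℕ} {n : ℕ} {L : List ℕ} (h : PushData M E0 φ J n L) (hA : AllIneq n L n) :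
    Rayleigh M := by
  intro y hy e _ f _ hef
  have hy0 : ∀ e, 0 ≤ y e := fun e => (hy e).le
  by_cases hc : e ∈ E0 ∧ f ∈ E0 ∧ φ e ≠ φ f
  swap
  · have : W M y {e, f} = 0 := by
      refine W_eq_zero y fun B hB hs => hc ?_
      obtain ⟨h1, h2, -⟩ := (h.iff B).1 hB
      have he : e ∈ B := hs (by simp)
      have hf : f ∈ B := hs (by simp)
      exact ⟨h1 he, h1 hf, fun hh => hef (h2 he hf hh)⟩
    rw [this, zero_mul, sub_zero]
    exact mul_nonneg (W_nonneg M hy0 _) (W_nonneg M hy0 _)
  obtain ⟨he, hf, hpq⟩ := hc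
  have hup : ∀ (y : α → ℝ) (g : α), g ∈ E0 → ∀ i, pw E0 φ J (Function.update y g 0) i =
      pw E0 φ J y i - if φ g = i then y g else 0 := by
    intro y g hg i
    by_cases hi : i ∈ J
    · have : φ g ≠ i := fun hh => h.nmem g hg (hh ▸ hi)
      simp [pw, hi, this]
    · simp only [pw, if_neg hi]
      rw [← add_sum_erase E0 _ hg, ← add_sum_erase E0 _ hg]
      have : ∑ x ∈ E0.erase g, (if φ x = i then Function.update y g 0 x else 0) =
          ∑ x ∈ E0.erase g, (if φ x = i then y x else 0) :=
        sum_congr rfl fun x hx => by rw [Function.update_of_ne (ne_of_mem_erase hx)]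
      rw [this]
      simp
  have hone : ∀ (y : α → ℝ) (g : α), g ∈ E0 → (φ g = φ e ∨ φ g = φ f) →
      one2 (pw E0 φ J (Function.update y g 0)) (φ e) (φ f) = one2 (pw E0 φ J y) (φ e) (φ f) := by
    intro y g hg hgg
    funext i
    unfold one2
    split_ifs with hi
    · rfl
    · rw [hup y g hg, if_neg, sub_zero]
      rintro rfl
      exact hi hgg
  have hze : pz J (φ e) = 1 := by simp [pz, h.nmem e he]
  have hzf : pz J (φ f) = 1 := by simp [pz, h.nmem f hf]
  have hp := h.lt e he
  have hq := h.lt f hf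
  have hI := hA _ hp _ hq hpq (one2 (pw E0 φ J y) (φ e) (φ f)) (one2 (pz J) (φ e) (φ f))
    (fun i => by
      unfold one2 pw
      split_ifs
      · norm_num
      · norm_num
      · exact sum_nonneg fun x _ => by split_ifs; exacts [hy0 x, le_rfl])
    (fun i => by unfold one2 pz; split_ifs <;> norm_num)
  have e1 : ({e} : Set α) = insert e ∅ := by simp
  have e2 : ({f} : Set α) = insert f ∅ := by simp
  have e3 : ({e, f} : Set α) = insert e (insert f ∅) := by simp
  rw [e3, e1, e2]
  simp only [W_update, W_push h, smf_split hp hq hpq (pw _ _ _ _), hze, hzf,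
    hone _ e he (Or.inl rfl), hone _ f hf (Or.inr rfl), hup _ e he, hup _ f hf, if_pos,
    if_neg hpq, if_neg hpq.symm, Function.update_of_ne hef.symm]
  have := mul_nonneg (mul_nonneg (hy0 e) (hy0 f)) (sub_nonneg.2 hI)
  linarith [this]

end Pool.Agent.Lib.MP_c69b6d_co
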