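import Pool.Agent.Lib.MP_c69b6d_co.RCert0
import Pool.Agent.Lib.MP_c69b6d_co.RCert1
import Pool.Agent.Lib.MP_c69b6d_co.RCert2
import Pool.Agent.Lib.MP_c69b6d_co.RCert3
import Pool.Agent.Lib.MP_c69b6d_co.RCert4
import Pool.Agent.Lib.MP_c69b6d_co.RCert5

namespace Pool.Agent.Lib.MP_c69b6d_co

set_option maxRecDepth 100000

theorem rAll0 : rL0.Nodup ∧ AllIneq 9 rL0 9 :=
  allIneq_of_cover2 (prim := [(0, 1), (0, 2), (0, 3), (0, 8), (3, 4), (3, 7), (3, 8)]) (auts := [[1, 2, 5, 6, 3, 0, 7, 4, 8], [2, 5, 0, 3, 4, 1, 6, 7, 8], [5, 2, 1, 3, 6, 0, 4, 7, 8]]) (w := [0, 9, 24, 40, 49, 58, 72, 81, 90, 104, 120, 136, 89, 72, 81, 90, 90, 88, 64, 56, 66, 56, 65, 74, 74, 64, 56, 41, 42]) (by decide +kernel)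
    ⟨rI0_0_1, rI0_0_2, rI0_0_3, rI0_0_8, rI0_3_4, rI0_3_7, rI0_3_8⟩

theorem rAll1 : rL1.Nodup ∧ AllIneq 10 rL1 10 :=
  allIneq_of_cover2 (prim := [(0, 1), (0, 2), (0, 6), (0, 9), (1, 2), (1, 3), (1, 5), (1, 6), (2, 3), (2, 7)]) (auts := [[9, 6, 2, 4, 3, 8, 1, 7, 5, 0], [9, 6, 3, 7, 2, 8, 5, 4, 1, 0]]) (w := [0, 16, 25, 40, 49, 72, 81, 96, 105, 120, 137, 152, 161, 177, 105, 105, 104, 113, 104, 105, 104, 113, 113, 112, 121, 112, 121, 112, 104, 104, 113, 88, 97, 80, 89]) (by decide +kernel)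
    ⟨rI1_0_1, rI1_0_2, rI1_0_6, rI1_0_9, rI1_1_2, rI1_1_3, rI1_1_5, rI1_1_6, rI1_2_3, rI1_2_7⟩

theorem rAll2 : rL2.Nodup ∧ AllIneq 10 rL2 10 :=
  allIneq_of_cover2 (prim := [(0, 1), (0, 2), (0, 9)]) (auts := [[0, 1, 4, 7, 2, 5, 8, 3, 6, 9], [8, 6, 5, 3, 0, 1, 2, 4, 7, 9]]) (w := [1, 16, 25, 41, 25, 25, 24, 33, 32, 41, 40, 49, 48, 57, 57, 56, 65, 65, 64, 73, 73, 72, 73, 72, 81, 80, 65, 48, 57, 57, 57, 57, 41, 41, 40, 49, 49, 48, 32, 33, 24, 9]) (by decide +kernel)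
    ⟨rI2_0_1, rI2_0_2, rI2_0_9⟩

theorem rAll3 : rL3.Nodup ∧ AllIneq 10 rL3 10 :=
  allIneq_of_cover2 (prim := [(0, 1), (0, 2), (0, 4), (0, 6), (1, 4)]) (auts := [[6, 4, 8, 7, 5, 9, 0, 2, 3, 1], [2, 5, 6, 0, 9, 4, 3, 8, 7, 1]]) (w := [0, 9, 24, 33, 48, 57, 73, 88, 97, 64, 73, 72, 72, 81, 80, 89, 88, 97, 96, 105, 104, 105, 104, 104, 113, 112, 112, 112, 112, 104, 105, 104, 97, 88, 72, 64, 65, 64, 56, 48]) (by decide +kernel)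
    ⟨rI3_0_1, rI3_0_2, rI3_0_4, rI3_0_6, rI3_1_4⟩

theorem rAll4 : rL4.Nodup ∧ AllIneq 10 rL4 10 :=
  allIneq_of_cover2 (prim := [(0, 1), (0, 2), (0, 3), (0, 4), (0, 5), (0, 6), (0, 7), (0, 8), (0, 9), (1, 2), (1, 3), (1, 4), (1, 6), (2, 3), (2, 4), (2, 6), (2, 7), (2, 8), (2, 9), (3, 4), (3, 6), (3, 7), (3, 8), (4, 6), (4, 7)]) (auts := [[5, 1, 9, 8, 7, 0, 6, 4, 3, 2]]) (w := [0, 16, 32, 48, 72, 88, 104, 120, 136, 152, 168, 192, 208, 224, 240, 256, 280, 296, 312, 336]) (by decide +kernel)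
    ⟨rI4_0_1, rI4_0_2, rI4_0_3, rI4_0_4, rI4_0_5, rI4_0_6, rI4_0_7, rI4_0_8, rI4_0_9, rI4_1_2, rI4_1_3, rI4_1_4, rI4_1_6, rI4_2_3, rI4_2_4, rI4_2_6, rI4_2_7, rI4_2_8, rI4_2_9, rI4_3_4, rI4_3_6, rI4_3_7, rI4_3_8, rI4_4_6, rI4_4_7⟩

theorem rAll5 : rL5.Nodup ∧ AllIneq 10 rL5 10 :=
  allIneq_of_cover2 (prim := [(0, 1), (0, 2), (0, 3), (0, 4), (0, 9), (1, 4), (1, 7)]) (auts := [[5, 1, 3, 2, 8, 0, 6, 9, 4, 7], [3, 8, 5, 6, 1, 0, 2, 9, 7, 4]]) (w := [0, 9, 24, 40, 49, 64, 73, 88, 97, 112, 128, 137, 89, 88, 97, 97, 97, 96, 97, 96, 105, 96, 105, 105, 105, 104, 104, 113, 104, 113, 112, 121, 104, 113, 104, 113, 96, 105]) (by decide +kernel)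
    ⟨rI5_0_1, rI5_0_2, rI5_0_3, rI5_0_4, rI5_0_9, rI5_1_4, rI5_1_7⟩

theorem rAll6 : rL6.Nodup ∧ AllIneq 10 rL6 10 :=
  allIneq_of_cover2 (prim := [(0, 1)]) (auts := [[8, 5, 4, 0, 1, 2, 3, 7, 6, 9], [6, 1, 3, 2, 7, 9, 0, 4, 8, 5]]) (w := [0, 9, 8, 17, 16, 16, 25, 24, 24, 33, 33, 32, 32, 41, 40, 49, 48, 48, 48, 48, 57, 56, 57, 48, 57, 56, 49, 48, 48, 57, 56, 56, 65, 57, 56, 57, 56, 65, 64, 65, 25, 8, 8, 1]) (by decide +kernel)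
    rI6_0_1

theorem rAll7 : rL7.Nodup ∧ AllIneq 11 rL7 11 :=
  allIneq_of_cover2 (prim := [(0, 1), (0, 2), (0, 3), (0, 4), (0, 5), (0, 6), (0, 7), (0, 8), (0, 9), (2, 3), (2, 4), (3, 4), (4, 5)]) (auts := [[7, 10, 2, 3, 4, 8, 9, 0, 5, 6, 1], [6, 9, 2, 3, 5, 4, 0, 10, 8, 1, 7]]) (w := [0, 9, 24, 33, 48, 57, 72, 81, 96, 105, 120, 137, 152, 161, 176, 185, 209, 225, 240, 129, 128, 129, 128, 129, 128, 129, 128, 129, 128, 129, 128, 129, 128, 128, 128, 129, 128, 120, 112, 104, 80, 72]) (by decide +kernel)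
    ⟨rI7_0_1, rI7_0_2, rI7_0_3, rI7_0_4, rI7_0_5, rI7_0_6, rI7_0_7, rI7_0_8, rI7_0_9, rI7_2_3, rI7_2_4, rI7_3_4, rI7_4_5⟩

theorem rAll8 : rL8.Nodup ∧ AllIneq 12 rL8 12 :=
  allIneq_of_cover2 (prim := [(0, 1), (0, 2), (0, 3), (0, 4), (0, 5), (0, 7), (0, 9), (0, 11), (2, 3), (2, 4), (2, 5), (2, 7), (2, 9), (2, 11), (3, 4), (3, 5), (3, 7), (3, 9), (4, 5), (4, 6), (4, 8), (4, 9), (4, 10), (5, 6)]) (auts := [[1, 0, 11, 7, 9, 6, 5, 3, 10, 4, 8, 2], [1, 0, 11, 7, 10, 5, 6, 3, 9, 8, 4, 2]]) (w := [8, 24, 40, 49, 64, 73, 88, 104, 113, 128, 144, 160, 169, 184, 193, 208, 224, 233, 256, 265, 280, 289, 312, 321, 336, 345, 360, 369, 384, 401, 416, 225, 217, 201, 177, 169, 153, 145, 137, 129, 121, 113]) (by decide +kernel)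
    ⟨rI8_0_1, rI8_0_2, rI8_0_3, rI8_0_4, rI8_0_5, rI8_0_7, rI8_0_9, rI8_0_11, rI8_2_3, rI8_2_4, rI8_2_5, rI8_2_7, rI8_2_9, rI8_2_11, rI8_3_4, rI8_3_5, rI8_3_7, rI8_3_9, rI8_4_5, rI8_4_6, rI8_4_8, rI8_4_9, rI8_4_10, rI8_5_6⟩

theorem rAll9 : rL9.Nodup ∧ AllIneq 12 rL9 12 :=
  allIneq_of_cover2 (prim := [(0, 1), (0, 2), (0, 3), (0, 4), (0, 5), (0, 6), (0, 7), (0, 9), (0, 10), (2, 3), (2, 4), (2, 5), (2, 6), (2, 7), (2, 8), (2, 9), (2, 10), (2, 11), (3, 5), (3, 6), (3, 7), (3, 9), (5, 6), (5, 7), (5, 9), (6, 7), (6, 9), (7, 9), (9, 10)]) (auts := [[1, 0, 4, 3, 2, 5, 6, 7, 11, 10, 9, 8], [1, 0, 8, 3, 11, 5, 6, 7, 2, 10, 9, 4]]) (w := [8, 17, 32, 48, 57, 72, 88, 104, 120, 136, 152, 161, 177, 192, 201, 216, 225, 240, 249, 264, 280, 289, 304, 313, 328, 368, 400, 424, 440, 225, 209, 161, 145, 137, 129, 113, 105])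 (by decide +kernel)
    ⟨rI9_0_1, rI9_0_2, rI9_0_3, rI9_0_4, rI9_0_5, rI9_0_6, rI9_0_7, rI9_0_9, rI9_0_10, rI9_2_3, rI9_2_4, rI9_2_5, rI9_2_6, rI9_2_7, rI9_2_8, rI9_2_9, rI9_2_10, rI9_2_11, rI9_3_5, rI9_3_6, rI9_3_7, rI9_3_9, rI9_5_6, rI9_5_7, rI9_5_9, rI9_6_7, rI9_6_9, rI9_7_9, rI9_9_10⟩

theorem rAll10 : rL10.Nodup ∧ AllIneq 12 rL10 12 :=
  allIneq_of_cover2 (prim := [(0, 1), (0, 2), (0, 3)]) (auts := [[0, 1, 4, 7, 2, 5, 6, 3, 8, 9, 11, 10], [11, 4, 9, 10, 7, 3, 5, 6, 0, 1, 8, 2]]) (w := [1, 16, 25, 40, 49, 32, 41, 41, 40, 49, 49, 49, 49, 48, 57, 56, 65, 65, 64, 73, 72, 81, 80, 89, 81, 81, 81, 80, 89, 81, 80, 89, 89, 88, 97, 89, 88, 97, 88, 97, 97, 97, 96, 105, 105, 89, 88, 97, 97, 89, 81, 80, 89, 89, 81, 65, 40, 49, 41, 41, 8, 17, 17]) (by decide +kernel)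
    ⟨rI10_0_1, rI10_0_2, rI10_0_3⟩

theorem rAll11 : rL11.Nodup ∧ AllIneq 12 rL11 12 :=
  allIneq_of_cover2 (prim := [(0, 1), (0, 2), (0, 4), (0, 5), (0, 6), (0, 11), (5, 8)]) (auts := [[2, 6, 0, 4, 3, 8, 1, 10, 5, 9, 7, 11], [10, 4, 6, 9, 1, 11, 2, 7, 8, 3, 0, 5]]) (w := [0, 9, 25, 40, 49, 64, 73, 88, 97, 112, 121, 137, 80, 80, 81, 80, 81, 80, 81, 80, 81, 80, 80, 81, 81, 80, 81, 80, 81, 80, 81, 80, 64, 64, 65, 64, 65, 64, 65, 57, 57, 57, 40, 41, 40, 40, 40, 40, 41, 40, 33, 33, 33, 32, 33, 16, 17, 16, 8]) (by decide +kernel)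
    ⟨rI11_0_1, rI11_0_2, rI11_0_4, rI11_0_5, rI11_0_6, rI11_0_11, rI11_5_8⟩

theorem rAll12 : rL12.Nodup ∧ AllIneq 12 rL12 12 :=
  allIneq_of_cover2 (prim := [(0, 1), (0, 5)]) (auts := [[7, 5, 0, 8, 6, 3, 10, 1, 9, 11, 4, 2], [10, 11, 3, 5, 1, 6, 2, 0, 7, 4, 8, 9]]) (w := [0, 9, 24, 33, 24, 33, 32, 41, 40, 40, 49, 48, 57, 56, 65, 56, 65, 64, 73, 72, 72, 72, 81, 80, 89, 88, 97, 96, 105, 104, 113, 112, 112, 112, 96, 105, 104, 113, 113, 104, 113, 112, 88, 88, 72, 72, 64, 73, 65, 64, 48, 57, 56, 56, 56, 65, 64, 56, 57, 56, 65, 57, 16, 8]) (by decide +kernel)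
    ⟨rI12_0_1, rI12_0_5⟩

theorem rAll13 : rL13.Nodup ∧ AllIneq 12 rL13 12 :=
  allIneq_of_cover2 (prim := [(0, 1), (0, 2), (0, 3), (0, 4), (0, 5), (0, 7), (0, 9), (1, 2), (1, 3), (1, 6), (1, 8), (3, 4), (3, 10)]) (auts := [[7, 2, 6, 8, 3, 11, 9, 5, 10, 1, 4, 0], [7, 9, 6, 10, 4, 11, 2, 0, 8, 1, 3, 5]]) (w := [0, 9, 24, 40, 49, 64, 73, 88, 104, 120, 136, 145, 160, 169, 184, 200, 209, 224, 233, 248, 152, 161, 160, 160, 160, 169, 168, 168, 177, 176, 168, 177, 176, 168, 168, 177, 176, 168, 177, 176, 176, 160, 169, 152, 152, 161, 144, 153, 120, 112, 121, 104, 113]) (by decide +kernel)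
    ⟨rI13_0_1, rI13_0_2, rI13_0_3, rI13_0_4, rI13_0_5, rI13_0_7, rI13_0_9, rI13_1_2, rI13_1_3, rI13_1_6, rI13_1_8, rI13_3_4, rI13_3_10⟩

theorem rAll14 : rL14.Nodup ∧ AllIneq 12 rL14 12 :=
  allIneq_of_cover2 (prim := [(0, 1), (0, 2), (0, 3), (0, 5), (0, 8), (0, 10), (5, 8), (5, 9)]) (auts := [[7, 6, 3, 0, 11, 10, 4, 2, 9, 8, 5, 1], [6, 7, 11, 0, 3, 10, 1, 2, 5, 8, 9, 4]]) (w := [0, 16, 25, 40, 49, 64, 73, 88, 97, 112, 121, 136, 145, 160, 104, 113, 104, 104, 113, 112, 121, 120, 129, 128, 137, 136, 136, 145, 144, 144, 153, 153, 136, 136, 145, 136, 145, 144, 153, 144, 153, 152, 161, 160, 169, 160, 169, 168, 177, 160, 169, 145, 129, 128, 137, 105, 104, 113]) (by decide +kernel)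
    ⟨rI14_0_1, rI14_0_2, rI14_0_3, rI14_0_5, rI14_0_8, rI14_0_10, rI14_5_8, rI14_5_9⟩

theorem rAll15 : rL15.Nodup ∧ AllIneq 13 rL15 13 :=
  allIneq_of_cover2 (prim := [(0, 1), (0, 3), (0, 4), (0, 5), (0, 9), (3, 5), (3, 6), (3, 9), (3, 10), (5, 8), (5, 9)]) (auts := [[11, 0, 4, 3, 1, 8, 7, 6, 5, 9, 10, 12, 2], [2, 0, 4, 6, 11, 10, 3, 7, 8, 9, 5, 12, 1]]) (w := [0, 9, 24, 33, 48, 57, 72, 81, 96, 105, 120, 129, 144, 161, 177, 193, 208, 217, 136, 145, 144, 153, 152, 161, 160, 169, 168, 168, 168, 177, 176, 185, 184, 184, 185, 184, 185, 184, 184, 184, 169, 169, 152, 161, 160, 169, 169, 169, 169, 160, 169, 168, 177, 177, 177, 177, 168, 113, 112, 105, 105, 89, 88, 81, 81, 56, 32]) (by decide +kernel)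
    ⟨rI15_0_1, rI15_0_3, rI15_0_4, rI15_0_5, rI15_0_9, rI15_3_5, rI15_3_6, rI15_3_9, rI15_3_10, rI15_5_8, rI15_5_9⟩

theorem rAll16 : rL16.Nodup ∧ AllIneq 13 rL16 13 :=
  allIneq_of_cover2 (prim := [(0, 1), (0, 2), (0, 4), (0, 5), (0, 11), (0, 12), (5, 8), (5, 12)]) (auts := [[10, 7, 3, 9, 1, 11, 0, 4, 8, 6, 2, 5, 12], [0, 3, 2, 1, 6, 8, 4, 10, 5, 9, 7, 11, 12]]) (w := [0, 9, 24, 40, 49, 64, 73, 88, 104, 120, 136, 145, 88, 88, 88, 97, 96, 105, 104, 104, 113, 112, 112, 121, 120, 129, 129, 112, 121, 121, 120, 120, 120, 129, 128, 129, 128, 137, 136, 137, 136, 136, 136, 136, 112, 112, 121, 121, 120, 129, 128, 129, 128, 128, 137, 136, 137, 136, 136, 145, 145, 144, 153, 153, 120, 129, 121, 104, 113, 105]) (by decide +kernel)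
    ⟨rI16_0_1, rI16_0_2, rI16_0_4, rI16_0_5, rI16_0_11, rI16_0_12, rI16_5_8, rI16_5_12⟩

theorem rAll17 : rL17.Nodup ∧ AllIneq 16 rL17 16 :=
  allIneq_of_cover2 (prim := [(0, 1), (0, 3), (0, 8), (0, 13), (3, 10), (3, 13)]) (auts := [[6, 8, 14, 12, 5, 11, 9, 2, 15, 0, 10, 4, 3, 13, 7, 1], [2, 6, 7, 12, 8, 14, 4, 11, 9, 15, 3, 0, 10, 13, 1, 5]]) (w := [0, 9, 24, 33, 48, 57, 72, 81, 96, 105, 120, 80, 89, 88, 97, 96, 105, 104, 113, 112, 121, 120, 129, 128, 137, 136, 145, 129, 129, 128, 137, 136, 145, 144, 153, 152, 161, 160, 169, 168, 177, 176, 185, 176, 185, 184, 193, 185, 184, 193, 193, 193, 184, 193, 192, 201, 201, 201, 200, 209, 208, 217, 216, 225, 224, 224, 224, 225, 224, 225, 224, 233, 232, 232, 168, 177, 176, 185, 185, 185, 184, 193, 192, 193, 192, 184, 184, 193, 193, 184, 177, 176, 176, 185, 177, 176,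 185, 177, 177, 168, 177, 177, 168, 177, 168, 161, 153, 152, 144, 144, 136, 136, 81, 49]) (by decide +kernel)
    ⟨rI17_0_1, rI17_0_3, rI17_0_8, rI17_0_13, rI17_3_10, rI17_3_13⟩

end Pool.Agent.Lib.MP_c69b6d_co
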