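import Pool.Agent.Lib.MP_c69b6d_co.RAll
import Pool.Agent.Lib.MP_c69b6d_co.Tree4
import Pool.Agent.Lib.MP_c69b6d_co.NotRay

namespace Pool.Agent.Lib.MP_c69b6d_co

open Matroid

set_option maxRecDepth 100000

theorem bO0 : basesOf [1, 3, 9, 27, 40, 16, 46, 61, 10] = rL0 := by decide +kernel

theorem bO1 : basesOf [1, 3, 9, 27, 13, 4, 43, 30, 36, 79] = rL1 := by decide +kernel

theorem bO2 : basesOf [1, 3, 9, 27, 13, 4, 37, 28, 40, 48] = rL2 := by decide +kernel

theorem bO3 : basesOf [1, 3, 9, 27, 13, 4, 37, 16, 61, 57] = rL3 := by decide +kernel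

theorem bO4 : basesOf [1, 3, 9, 27, 13, 4, 43, 70, 30, 49] = rL4 := by decide +kernel

theorem bO5 : basesOf [1, 3, 9, 27, 13, 4, 43, 70, 28, 52] = rL5 := by decide +kernel

theorem bO6 : basesOf [1, 3, 9, 27, 40, 16, 46, 61, 66, 76] = rL6 := by decide +kernel

theorem bO7 : basesOf [1, 3, 9, 27, 13, 4, 43, 28, 22, 30, 70] = rL7 := by decide +kernel

theorem bO8 : basesOf [1, 3, 9, 27, 13, 7, 4, 10, 16, 28, 55, 30] = rL8 := by decide +kernel

theorem bO9 : basesOf [1, 3, 9, 27, 13, 7, 4, 10, 16, 28, 30, 19] = rL9 := by decide +kernel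

theorem bO10 : basesOf [1, 3, 9, 27, 13, 4, 43, 28, 22, 55, 37, 40] = rL10 := by decide +kernel

theorem bO11 : basesOf [1, 3, 9, 27, 13, 4, 37, 16, 28, 19, 64, 43] = rL11 := by decide +kernel

theorem bO12 : basesOf [1, 3, 9, 27, 40, 16, 46, 48, 12, 22, 34, 75] = rL12 := by decide +kernel

theorem bO13 : basesOf [1, 3, 9, 27, 13, 7, 4, 49, 28, 31, 21, 40] = rL13 := by decide +kernel

theorem bO14 : basesOf [1, 3, 9, 27, 13, 4, 43, 58, 16, 12, 19, 46] = rL14 := by decide +kernel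

theorem bO15 : basesOf [1, 3, 9, 27, 13, 4, 43, 58, 16, 12, 19, 21, 25] = rL15 := by decide +kernel

theorem bO16 : basesOf [1, 3, 9, 27, 13, 4, 37, 16, 28, 19, 64, 57, 10] = rL16 := by decide +kernel

theorem bO17 : basesOf [1, 3, 9, 27, 13, 7, 4, 10, 16, 12, 48, 19, 75, 21, 22, 25] = rL17 := by decide +kernel

theorem cMs_ok : ∀ X ∈ cMs, (basesOf X).Nodup ∧ AllIneq X.length (basesOf X) X.length := by
  intro X hX
  simp only [cMs, List.mem_cons, List.not_mem_nil, or_false] at hX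
  rcases hX with rfl | rfl | rfl | rfl | rfl | rfl | rfl | rfl | rfl | rfl | rfl | rfl | rfl | rfl | rfl | rfl | rfl | rfl
  · rw [bO0]; exact rAll0
  · rw [bO1]; exact rAll1
  · rw [bO2]; exact rAll2
  · rw [bO3]; exact rAll3
  · rw [bO4]; exact rAll4
  · rw [bO5]; exact rAll5
  · rw [bO6]; exact rAll6
  · rw [bO7]; exact rAll7
  · rw [bO8]; exact rAll8
  · rw [bO9]; exact rAll9
  · rw [bO10]; exact rAll10
  · rw [bO11]; exact rAll11
  · rw [bO12]; exact rAll12
  · rw [bO13]; exact rAll13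
  · rw [bO14]; exact rAll14
  · rw [bO15]; exact rAll15
  · rw [bO16]; exact rAll16
  · rw [bO17]; exact rAll17

theorem plane_mem : ∀ c < 81, dec c 3 = 0 → dec c = 0 ∨
    ∃ t ∈ [1, 3, 9, 27, 13, 7, 4, 10, 16, 12, 48, 19, 75, 21, 22, 25], dec c = dec t ∨ dec c = -dec t := by
  decide +kernel

theorem unit_mem : ∀ i : Fin 4, ∃ t ∈ [1, 3, 9, 27, 13, 7, 4, 10, 16, 12, 48, 19, 75, 21, 22, 25],
    Pi.single i 1 = dec t ∨ Pi.single i 1 = -dec t := by
  decide +kernel

theorem core4 {α : Type} [Fintype α] {M : Matroid α} (hT : Ternary M) (hr : M.eRank ≤ 4) :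
    Rayleigh M ∨ ∃ A ∈ [A49, A52, A56], HasCopy M A := by
  obtain ⟨r, v, hc⟩ := exists_coords hT hr
  rcases hc.le.lt_or_eq with h4 | rfl
  · have hX : [1, 3, 9, 27, 13, 7, 4, 10, 16, 12, 48, 19, 75, 21, 22, 25] ∈ cMs := by decide
    refine Or.inl (rayleigh_of_leaf hc (cMs_ok _ hX).1 (cMs_ok _ hX).2 (LinearEquiv.refl _ _)
      (fun e he => ?_) (fun i _ => ?_))
    · have h1 := hc.zero e he 3 (by simp; omega)
      obtain ⟨c, hc, h2⟩ := dec_surj (v e)
      rw [← h2] at h1 ⊢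
      exact plane_mem c hc h1
    · exact unit_mem i
  · have h1 := enum_all {x | ∃ e ∈ M.E, x = v e ∨ x = -v e}
      (by
        rintro x ⟨e, he, h | h⟩
        · exact ⟨e, he, Or.inr (by rw [h])⟩
        · exact ⟨e, he, Or.inl (by rw [h, neg_neg])⟩)
      (by
        intro t ht
        have : ∃ i : Fin 4, t = 3 ^ (i : ℕ) := by revert t; decide
        obtain ⟨i, rfl⟩ := this
        obtain ⟨e, he, h⟩ := hc.unit i i.2
        exact ⟨e, he, Or.inl (by rw [h, dec_basis])⟩)
      (fun c hc _ => by rw [Nat.testBit_two_pow_sub_one]; simpa using hc)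
    rcases h1 with ⟨A, hA, g, h⟩ | ⟨X, hX, g, h⟩
    · have h2 : ∀ a ∈ A, ∃ e ∈ M.E, g (v e) = dec a ∨ g (v e) = -dec a := by
        intro a ha
        obtain ⟨x, ⟨e, he, rfl | rfl⟩, h3⟩ := h a ha
        · exact ⟨e, he, Or.inl h3⟩
        · exact ⟨e, he, Or.inr (by rw [← h3, map_neg, neg_neg])⟩
      simp only [cAs, List.mem_cons, List.not_mem_nil, or_false] at hA
      right
      rcases hA with rfl | rfl | rfl
      · exact ⟨A49, by simp, hasCopy_of_bad hc.rep (by decide) (by decide) (by decide) g h2⟩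
      · exact ⟨A52, by simp, hasCopy_of_bad hc.rep (by decide) (by decide) (by decide) g h2⟩
      · exact ⟨A56, by simp, hasCopy_of_bad hc.rep (by decide) (by decide) (by decide) g h2⟩
    · exact Or.inl (rayleigh_of_leaf hc (cMs_ok _ hX).1 (cMs_ok _ hX).2 g
        (fun e he => h _ ⟨e, he, Or.inl rfl⟩) (fun i hi => absurd i.2 (by omega)))

theorem nr_all {α : Type} [Fintype α] {M : Matroid α} {A : List (List ℕ)}
    (hA : A ∈ [A49, A52, A56]) {φ : Fin A.length → α}
    (hφ : Function.Injective φ) (hE : Set.range φ = M.E)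
    (hM : ∀ I, M.Indep (φ '' I) ↔ LinearIndepOn (ZMod 3) (cols A) I) : ¬ Rayleigh M := by
  simp only [List.mem_cons, List.not_mem_nil, or_false] at hA
  rcases hA with rfl | rfl | rfl
  exacts [nrA49 hφ hE hM, nrA52 hφ hE hM, nrA56 hφ hE hM]

theorem card_copy {α : Type} {A : List (List ℕ)} (hA : A ∈ [A49, A52, A56])
    {φ : Fin A.length → α} (hφ : Function.Injective φ) : (Set.range φ).encard = 8 := by
  have : A.length = 8 := (by decide : ∀ A ∈ [A49, A52, A56], A.length = 8) A hA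
  rw [← Set.image_univ, hφ.encard_image, Set.encard_univ, ENat.card_eq_coe_fintype_card,
    Fintype.card_fin, this]
  rfl

theorem rayleigh_small {α : Type} [Fintype α] {M : Matroid α} (hT : Ternary M)
    (h : M.E.encard < 8) : Rayleigh M := by
  have key : ∀ N : Matroid α, Ternary N → N.E.encard < 8 → N.eRank ≤ 4 → Rayleigh N := by
    intro N hN h8 h4
    refine (core4 hN h4).resolve_right ?_
    rintro ⟨A, hA, φ, hφ, hE, -⟩
    exact absurd ((card_copy hA hφ).symm.trans_le (Set.encard_le_encard hE)) (not_le.2 h8)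
  by_cases h4 : M.eRank ≤ 4
  · exact key M hT h h4
  · rw [← M.dual_dual]
    refine (key M✶ hT.dual h ?_).dual
    by_contra h5
    rw [← M.eRank_add_eRank_dual] at h
    exact absurd (h.trans_le (by norm_num : (8 : ℕ∞) ≤ 4 + 4))
      (not_lt.2 (add_le_add (not_le.1 h4).le (not_le.1 h5).le))

theorem copy_of_excluded {α : Type} [Fintype α] {M : Matroid α} (hT : Ternary M)
    (hr : M.eRank ≤ 4) (h : ExcludedMinor M) : ∃ A ∈ [A49, A52, A56],
      ∃ φ : Fin A.length → α, Function.Injective φ ∧ Set.range φ = M.E ∧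
        ∀ I, M.Indep (φ '' I) ↔ LinearIndepOn (ZMod 3) (cols A) I := by
  obtain ⟨A, hA, φ, hφ, hE, hM⟩ := (core4 hT hr).resolve_left fun hR => h.1 ⟨hT, hR⟩
  refine ⟨A, hA, φ, hφ, ?_, hM⟩
  by_contra hne
  have hs : (M ↾ Set.range φ) <m M := isStrictMinor_iff_isMinor_ssubset.2
    ⟨⟨∅, M.E \ Set.range φ, by rw [contract_empty, delete_compl hE]⟩, hE.ssubset_of_ne hne⟩
  refine nr_all hA hφ rfl (fun I => ?_) (h.2 _ hs).2
  rw [restrict_indep_iff, and_iff_left (Set.image_subset_range _ _), hM]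

theorem ExcludedMinor.dual {α : Type} [Fintype α] {M : Matroid α} (hT : Ternary M)
    (h : ExcludedMinor M) : ExcludedMinor M✶ := by
  refine ⟨fun hh => h.1 ⟨hT, by simpa using hh.2.dual⟩, fun N hN => ?_⟩
  have := h.2 N✶ (by simpa using isStrictMinor_dual hN)
  exact ⟨by simpa using this.1.dual, by simpa using this.2.dual⟩

theorem four_le_copy {α : Type} {M : Matroid α} {A : List (List ℕ)} (hA : A ∈ [A49, A52, A56])
    {φ : Fin A.length → α} (hφ : Function.Injective φ)
    (hM : ∀ I, M.Indep (φ '' I) ↔ LinearIndepOn (ZMod 3) (cols A) I) : 4 ≤ M.eRank := by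
  have h : ∃ f : Fin 4 → Fin A.length, Function.Injective f ∧
      ∀ i, cols A (f i) = Pi.single (Fin.castSucc i) 1 := by
    simp only [List.mem_cons, List.not_mem_nil, or_false] at hA
    rcases hA with rfl | rfl | rfl <;>
      exact ⟨fun i => ⟨i + 3, by have := i.2; change _ < 8; omega⟩, by decide, by decide⟩
  obtain ⟨f, hf, h⟩ := h
  have h1 : M.Indep (φ '' Set.range f) := by
    rw [hM, linearIndepOn_range_iff hf]
    have : cols A ∘ f = (fun j : Fin 5 => (Pi.single j 1 : Fin 5 → ZMod 3)) ∘ Fin.castSucc :=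
      funext h
    rw [this]
    exact (Pi.linearIndependent_single_one _ _).comp _ (Fin.castSucc_injective _)
  have h2 := h1.encard_le_eRank
  rwa [hφ.encard_image, ← Set.image_univ, hf.encard_image, Set.encard_univ,
    ENat.card_eq_coe_fintype_card, Fintype.card_fin] at h2

theorem rank_four {α : Type} [Fintype α] (M : Matroid α) (hT : Ternary M)
    (hr : M.eRank ≤ 4 ∨ M✶.eRank ≤ 4) :
    ExcludedMinor M ↔ ∃ A ∈ [A49, A52, A56],
      ∃ φ : Fin A.length → α, Function.Injective φ ∧ Set.range φ = M.E ∧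
        ∀ I, M.Indep (φ '' I) ↔ LinearIndepOn (ZMod 3) (cols A) I := by
  constructor
  · intro h
    refine copy_of_excluded hT ?_ h
    rcases hr with hr | hr
    · exact hr
    · obtain ⟨A, hA, φ, hφ, hE, hM⟩ := copy_of_excluded hT.dual hr (h.dual hT)
      have h1 := four_le_copy hA hφ hM
      have h2 := M.eRank_add_eRank_dual
      rw [hr.antisymm h1, ← dual_ground, ← hE, card_copy hA hφ] at h2
      have h3 : M.eRank + 4 = 4 + 4 := h2
      exact (WithTop.add_right_cancel (by decide) h3).le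
  · rintro ⟨A, hA, φ, hφ, hE, hM⟩
    refine ⟨fun hh => nr_all hA hφ hE hM hh.2, fun N hN => ⟨hT.minor hN.isMinor,
      rayleigh_small (hT.minor hN.isMinor) ?_⟩⟩
    rw [← card_copy hA hφ, hE]
    exact (Set.toFinite _).encard_lt_encard hN.ssubset

end Pool.Agent.Lib.MP_c69b6d_co
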